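import Mathlib

set_option autoImplicit false

namespace Pool.Agent.Helper256.KM

open Finset ArithmeticFunction

/-- the positive integers with exactly `r` prime factors (with multiplicity), all of them in `Q` -/
def fac (Q : Finset ℕ) (r : ℕ) : Finset ℕ :=
  (Finset.range ((Q.sup id) ^ r + 1)).filter
    (fun n => n ∈ Nat.factoredNumbers Q ∧ cardFactors n = r)

/-- sum of reciprocals over `fac Q r` -/
noncomputable def hh (Q : Finset ℕ) (r : ℕ) : ℝ := ∑ n ∈ fac Q r, (1 : ℝ) / n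

/-- sum of reciprocals over `Q` -/
noncomputable def p1 (Q : Finset ℕ) : ℝ := ∑ p ∈ Q, (1 : ℝ) / p

/-- the primes up to `N` -/
def pr (N : ℕ) : Finset ℕ := (Finset.Icc 1 N).filter Nat.Prime

/-- the integers `1 ≤ n ≤ N` with exactly `m` prime factors -/
def AA (N m : ℕ) : Finset ℕ := (Finset.Icc 1 N).filter (fun n => cardFactors n = m)

/-- number of solutions of `n 1 ... n k = n' 1 ... n' k` in `B` -/
def TT (k : ℕ) (B : Finset ℕ) : ℕ :=
  ((Fintype.piFinset (fun _ : Fin k => B) ×ˢ Fintype.piFinset (fun _ : Fin k => B)).filter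
    (fun z => ∏ i, z.1 i = ∏ i, z.2 i)).card

/-- integers up to `x` with `r` prime factors and no prime factor in `P` -/
noncomputable def RR (P : Finset ℕ) (r : ℕ) (x : ℝ) : Finset ℕ :=
  (Finset.Icc 1 ⌊x⌋₊).filter (fun l => cardFactors l = r ∧ ∀ p ∈ P, ¬ p ∣ l)

/-- the primes in `(B0, y]` -/
noncomputable def PB (B0 : ℕ) (y : ℝ) : Finset ℕ := (Finset.Ioc B0 ⌊y⌋₊).filter Nat.Prime

/-- the part of `n` composed of the primes in `P` -/
def sp (P : Finset ℕ) (n : ℕ) : ℕ := ∏ p ∈ P, p ^ (n.factorization p)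

/-- label of `n`: size and number of prime factors of the `P`-part -/
noncomputable def lab (P : Finset ℕ) (n : ℕ) : ℕ × ℕ :=
  (⌊Real.log (sp P n)⌋₊, cardFactors (sp P n))

/-- the integers in `(M/2, M]` with `m` prime factors -/
noncomputable def blk (M : ℝ) (m : ℕ) : Finset ℕ :=
  (Finset.Icc 1 ⌊M⌋₊).filter (fun n => M / 2 < (n : ℝ) ∧ cardFactors n = m)

/-- matrices all of whose row products and column products lie in `blk M m` -/
noncomputable def GG (k : ℕ) (M : ℝ) (m : ℕ) : Finset (Fin k → Fin k → ℕ) :=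
  (Fintype.piFinset fun _ => Fintype.piFinset fun _ => Finset.Icc 1 ⌊M⌋₊).filter
    (fun g => (∀ i, ∏ j, g i j ∈ blk M m) ∧ (∀ j, ∏ i, g i j ∈ blk M m))

/-- the logarithmic defect of column `j` -/
noncomputable def XX {k : ℕ} (σ : Fin k → Fin k) (M : ℝ) (g : Fin k → Fin k → ℕ) (j : Fin k) : ℝ :=
  Real.log ((∏ i, g i j : ℕ) : ℝ) - ∑ i ∈ Finset.univ.filter (fun i => σ i = j),
    Real.log ((∏ j', g i j' : ℕ) : ℝ)
    + (((Finset.univ.filter (fun i => σ i = j)).card : ℝ) - 1) * Real.log M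

/-- matrices left after a prime power has been removed from each cell `(i, σ i)` -/
noncomputable def G1 (k : ℕ) (M : ℝ) (m : ℕ) (σ : Fin k → Fin k) : Finset (Fin k → Fin k → ℕ) :=
  (Fintype.piFinset fun _ => Fintype.piFinset fun _ => Finset.Icc 1 ⌊M⌋₊).filter
    (fun g => (∀ i, cardFactors (∏ j, g i j) + 1 ≤ m) ∧ (∀ j, |XX σ M g j| ≤ k))

/-- matrices which are `1` in the cells `(i, σ i)` and satisfy the column conditions -/
noncomputable def Off (k : ℕ) (M : ℝ) (σ : Fin k → Fin k) : Finset (Fin k → Fin k → ℕ) :=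
  (Fintype.piFinset fun i => Fintype.piFinset fun j =>
    if j = σ i then {1} else Finset.Icc 1 ⌊M⌋₊).filter (fun g => ∀ j, |XX σ M g j| ≤ k)

/-- the scale `exp (exp u)` -/
noncomputable def yy (u : ℕ) : ℝ := Real.exp (Real.exp u)

/-- squarefree numbers up to `exp (exp u / 10)` with `a` prime factors -/
noncomputable def Sx (u a : ℕ) : Finset ℕ :=
  (Finset.Icc 1 ⌊Real.exp (Real.exp u / 10)⌋₊).filter (fun x => Squarefree x ∧ cardFactors x = a)

/-- factorisations of `x` into `k` factors with prescribed numbers of prime factors -/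
def Ft (k x : ℕ) (a : Fin k → ℕ) : Finset (Fin k → ℕ) :=
  (Fintype.piFinset fun _ => x.divisors).filter
    (fun t => ∏ i, t i = x ∧ ∀ i, cardFactors (t i) = a i)

/-- chains of primes in `(sqrt y, y]`, `y = exp (exp u)`, matching the sizes cyclically -/
noncomputable def Ch (k : ℕ) (C1 : ℝ) (u : ℕ) (t t' : Fin k → ℕ) : Finset (Fin k → ℕ) :=
  (Fintype.piFinset fun _ => (Finset.Icc 1 ⌊yy u⌋₊).filter
    (fun q : ℕ => q.Prime ∧ Real.sqrt (yy u) < (q : ℝ))).filter
    (fun q => (∃ i, q i ≠ q ((finRotate k).symm i)) ∧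
      ∀ i, (q ((finRotate k).symm i) : ℝ) * t' i ≤ C1 * (q i * t i))

/-- `G1` with the information on the number of prime factors of the columns -/
noncomputable def G2 (k : ℕ) (M : ℝ) (m : ℕ) (σ : Fin k → Fin k) : Finset (Fin k → Fin k → ℕ) :=
  (G1 k M m σ).filter (fun g =>
    (∀ j, (∀ i, σ i ≠ j) → cardFactors (∏ i, g i j) = m) ∧
    (Function.Bijective σ → ∀ i, cardFactors (∏ i', g i' (σ i)) = cardFactors (∏ j, g i j)))

/-- `Off` with the information on the number of prime factors of the columns -/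
noncomputable def Off2 (k : ℕ) (M : ℝ) (m : ℕ) (σ : Fin k → Fin k) :
    Finset (Fin k → Fin k → ℕ) :=
  (Off k M σ).filter (fun g =>
    (∀ j, (∀ i, σ i ≠ j) → cardFactors (∏ i, g i j) = m) ∧
    (Function.Bijective σ → ∀ i, cardFactors (∏ i', g i' (σ i)) = cardFactors (∏ j, g i j)))

/-- reciprocal sum over one diagonal cell -/
noncomputable def Hf (M : ℝ) (m b : ℕ) : ℝ :=
  ∑ d ∈ (Finset.Icc 1 ⌊M⌋₊).filter (fun d => cardFactors d + b + 1 ≤ m), (1 : ℝ) / d

/-- arrays of pairs `(x, a)` on the cells joining different classes of `π`, with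
`x + 1 < 2 ^ E`, `a < G`, and approximate balance of `x` and exact balance of `a` at every class -/
def LS (k : ℕ) (K : ℕ) (π : Fin k → Fin k) (E G : ℕ) : Finset (Fin k → Fin k → ℕ × ℕ) :=
  (Fintype.piFinset fun i => Fintype.piFinset fun j =>
    if π i = π j then {((0 : ℕ), (0 : ℕ))} else Finset.range (2 ^ E - 1) ×ˢ Finset.range G).filter
    (fun f => ∀ b : Fin k,
      (|(∑ i, ∑ j, if π j = b ∧ π i ≠ b then ((f i j).1 : ℤ) else 0) -
        (∑ i, ∑ j, if π i = b ∧ π j ≠ b then ((f i j).1 : ℤ) else 0)| ≤ K) ∧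
      (∑ i, ∑ j, if π j = b ∧ π i ≠ b then ((f i j).2 : ℤ) else 0) =
        (∑ i, ∑ j, if π i = b ∧ π j ≠ b then ((f i j).2 : ℤ) else 0))

/-- weight of an array -/
def wt {k : ℕ} (om : ℕ → ℕ → ℝ) (π : Fin k → Fin k) (f : Fin k → Fin k → ℕ × ℕ) : ℝ :=
  ∏ i, ∏ j, if π i = π j then 1 else om (f i j).1 (f i j).2

/-- merge the classes of `i0` and `j0` -/
def mrg {k : ℕ} (π : Fin k → Fin k) (i0 j0 : Fin k) : Fin k → Fin k :=
  fun i => if π i = π j0 then π i0 else π i

/-- number of cells joining different classes -/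
def nact {k : ℕ} (π : Fin k → Fin k) : ℕ :=
  (Finset.univ.filter (fun c : Fin k × Fin k => π c.1 ≠ π c.2)).card

/-- number of classes -/
def ncl {k : ℕ} (π : Fin k → Fin k) : ℕ := (Finset.univ.image π).card

/-- primes in `(z, y]` outside `P` -/
noncomputable def bp (P : Finset ℕ) (z y : ℝ) : Finset ℕ :=
  (Finset.Icc 1 ⌊y⌋₊).filter (fun p => p.Prime ∧ z < (p : ℝ) ∧ p ∉ P)

end Pool.Agent.Helper256.KM
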