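import Mathlib
import Pool.Agent.Helper256.KM.Defs

set_option autoImplicit false

namespace Pool.Agent.Helper256.KM

open Finset ArithmeticFunction

theorem mem_fac {Q : Finset ℕ} {r n : ℕ} :
    n ∈ fac Q r ↔ n ∈ Nat.factoredNumbers Q ∧ cardFactors n = r := by
  unfold fac
  rw [Finset.mem_filter, Finset.mem_range]
  refine ⟨fun h => h.2, fun h => ⟨?_, h⟩⟩
  obtain ⟨h1, h2⟩ := h
  rw [Nat.mem_factoredNumbers] at h1
  have h3 : n.primeFactorsList.prod = n := Nat.prod_primeFactorsList h1.1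
  have h4 : n.primeFactorsList.length = r := by
    rw [← h2, cardFactors_apply]
  have h5 : n.primeFactorsList.prod ≤ (Q.sup id) ^ n.primeFactorsList.length := by
    apply List.prod_le_pow_card
    intro x hx
    exact Finset.le_sup (f := id) (h1.2 x hx)
  rw [h3, h4] at h5
  omega

theorem hh_zero (Q : Finset ℕ) : hh Q 0 = 1 := by
  have : fac Q 0 = {1} := by
    ext n
    rw [mem_fac, Finset.mem_singleton]
    constructor
    · rintro ⟨h1, h2⟩
      rw [Nat.mem_factoredNumbers] at h1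
      rw [cardFactors_apply, List.length_eq_zero_iff] at h2
      have h3 : n.primeFactorsList.prod = n := Nat.prod_primeFactorsList h1.1
      rw [h2] at h3
      simpa using h3.symm
    · rintro rfl
      refine ⟨?_, by simp⟩
      rw [Nat.mem_factoredNumbers]
      simp
  unfold hh
  rw [this]
  simp

theorem h1 {Q : Finset ℕ} (hQ : ∀ p ∈ Q, p.Prime) (r : ℕ) :
    p1 Q * hh Q r ≤ (r + 1) * hh Q (r + 1) := by
  have hmaps : ∀ x ∈ Q ×ˢ fac Q r, x.1 * x.2 ∈ fac Q (r + 1) := by
    rintro ⟨p, n⟩ hx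
    rw [Finset.mem_product] at hx
    obtain ⟨hp, hn⟩ := hx
    rw [mem_fac] at hn ⊢
    have hpp := hQ p hp
    have hn0 : n ≠ 0 := (Nat.mem_factoredNumbers.1 hn.1).1
    refine ⟨?_, ?_⟩
    · refine Nat.mul_mem_factoredNumbers ?_ hn.1
      rw [Nat.mem_factoredNumbers]
      refine ⟨hpp.ne_zero, ?_⟩
      rw [Nat.primeFactorsList_prime hpp]
      simpa using hp
    · show cardFactors (p * n) = r + 1
      rw [cardFactors_mul hpp.ne_zero hn0, cardFactors_apply_prime hpp, hn.2]
      ring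
  have e1 : p1 Q * hh Q r = ∑ x ∈ Q ×ˢ fac Q r, (1 : ℝ) / ((x.1 * x.2 : ℕ) : ℝ) := by
    unfold p1 hh
    rw [Finset.sum_mul_sum, Finset.sum_product]
    refine Finset.sum_congr rfl fun p _ => Finset.sum_congr rfl fun n _ => ?_
    push_cast
    rw [div_mul_div_comm, one_mul]
  rw [e1, ← Finset.sum_fiberwise_of_maps_to hmaps]
  unfold hh
  rw [Finset.mul_sum]
  refine Finset.sum_le_sum fun m hm => ?_
  have e2 : ∑ x ∈ (Q ×ˢ fac Q r) with x.1 * x.2 = m, (1 : ℝ) / ((x.1 * x.2 : ℕ) : ℝ)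
      = ((Q ×ˢ fac Q r).filter (fun x => x.1 * x.2 = m)).card * ((1 : ℝ) / m) := by
    rw [Finset.sum_congr rfl (g := fun _ => (1 : ℝ) / m), Finset.sum_const, nsmul_eq_mul]
    intro x hx
    rw [(Finset.mem_filter.1 hx).2]
  rw [e2]
  refine mul_le_mul_of_nonneg_right ?_ (by positivity)
  rw [mem_fac] at hm
  have hm0 : m ≠ 0 := (Nat.mem_factoredNumbers.1 hm.1).1
  have hc : ((Q ×ˢ fac Q r).filter (fun x => x.1 * x.2 = m)).card ≤ m.primeFactors.card := by
    refine Finset.card_le_card_of_injOn (fun x => x.1) ?_ ?_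
    · intro x hx
      have hx' := Finset.mem_filter.1 (Finset.mem_coe.1 hx)
      have hp := (Finset.mem_product.1 hx'.1).1
      show x.1 ∈ (m.primeFactors : Set ℕ)
      rw [Finset.mem_coe, Nat.mem_primeFactors]
      exact ⟨hQ _ hp, ⟨x.2, hx'.2.symm⟩, hm0⟩
    · intro x hx y hy hxy
      have hx' := Finset.mem_filter.1 (Finset.mem_coe.1 hx)
      have hy' := Finset.mem_filter.1 (Finset.mem_coe.1 hy)
      have hp := (Finset.mem_product.1 hx'.1).1
      have hxy' : x.1 = y.1 := hxy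
      refine Prod.ext hxy' ?_
      have h2 : x.1 * x.2 = x.1 * y.2 := by
        rw [hx'.2]
        conv_rhs => rw [hxy']
        exact hy'.2.symm
      exact Nat.eq_of_mul_eq_mul_left (hQ _ hp).pos h2
  have hc2 : m.primeFactors.card ≤ r + 1 := by
    have h3 : m.primeFactors.card ≤ m.primeFactorsList.length := by
      unfold Nat.primeFactors
      exact List.toFinset_card_le _
    have h4 : m.primeFactorsList.length = r + 1 := by
      rw [← hm.2, cardFactors_apply]
    omega
  exact_mod_cast hc.trans hc2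

theorem hh_nonneg (Q : Finset ℕ) (r : ℕ) : 0 ≤ hh Q r := by
  unfold hh
  exact Finset.sum_nonneg fun _ _ => by positivity

theorem hh_shift {Q : Finset ℕ} (hQ : ∀ p ∈ Q, p.Prime) {ρ : ℝ} (hρ : 0 ≤ ρ) {r a : ℕ}
    (h : (r : ℝ) ≤ ρ * p1 Q) (ha : a ≤ r) : hh Q (r - a) ≤ ρ ^ a * hh Q r := by
  induction a with
  | zero => simp
  | succ a ih =>
    have ih' := ih (by omega)
    have hp0 : 0 ≤ p1 Q := by
      unfold p1
      exact Finset.sum_nonneg fun _ _ => by positivity
    have hp : 0 < p1 Q := by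
      rcases hp0.lt_or_eq with h1 | h1
      · exact h1
      · rw [← h1, mul_zero] at h
        have : (1 : ℝ) ≤ r := by
          have : 1 ≤ r := by omega
          exact_mod_cast this
        linarith
    have hj : r - a = (r - (a + 1)) + 1 := by omega
    have key := h1 hQ (r - (a + 1))
    rw [← hj] at key
    have hjr : (((r - (a + 1) : ℕ) : ℝ) + 1) ≤ r := by
      have : r - (a + 1) + 1 ≤ r := by omega
      exact_mod_cast this
    have h2 : p1 Q * hh Q (r - (a + 1)) ≤ p1 Q * (ρ * hh Q (r - a)) := by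
      calc p1 Q * hh Q (r - (a + 1)) ≤ (((r - (a + 1) : ℕ) : ℝ) + 1) * hh Q (r - a) := key
        _ ≤ r * hh Q (r - a) := mul_le_mul_of_nonneg_right hjr (hh_nonneg _ _)
        _ ≤ (ρ * p1 Q) * hh Q (r - a) := mul_le_mul_of_nonneg_right h (hh_nonneg _ _)
        _ = p1 Q * (ρ * hh Q (r - a)) := by ring
    have h3 := le_of_mul_le_mul_left h2 hp
    calc hh Q (r - (a + 1)) ≤ ρ * hh Q (r - a) := h3
      _ ≤ ρ * (ρ ^ a * hh Q r) := mul_le_mul_of_nonneg_left ih' hρ
      _ = ρ ^ (a + 1) * hh Q r := by ring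

end Pool.Agent.Helper256.KM
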