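import Mathlib
import Pool.Agent.Helper256.KM.Defs
import Pool.Agent.Helper256.KM.A1
import Pool.Agent.Helper256.KM.Mertens

set_option autoImplicit false

namespace Pool.Agent.Helper256.KM

open Finset ArithmeticFunction

theorem hh_nonneg'_A2 (Q : Finset ℕ) (r : ℕ) : 0 ≤ hh Q r :=
  Finset.sum_nonneg fun _ _ => by positivity

/-- the part divisible by a prime power -/
theorem sum_dvd {Q : Finset ℕ} {p : ℕ} (hp : p.Prime) {r a : ℕ} :
    ∑ g ∈ (fac Q r).filter (fun g => p ^ a ∣ g), (1 : ℝ) / g ≤ (1 / (p : ℝ) ^ a) * hh Q (r - a) := by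
  have hp0 : (p ^ a : ℕ) ≠ 0 := pow_ne_zero _ hp.ne_zero
  have h1 : ∀ g ∈ (fac Q r).filter (fun g => p ^ a ∣ g),
      (1 : ℝ) / g = (1 / (p : ℝ) ^ a) * (1 / ((g / p ^ a : ℕ) : ℝ)) := by
    intro g hg
    obtain ⟨k, hk⟩ := (Finset.mem_filter.1 hg).2
    rw [hk, Nat.mul_div_cancel_left _ (Nat.pos_of_ne_zero hp0)]
    push_cast
    rw [one_div_mul_one_div]
  rw [Finset.sum_congr rfl h1, ← Finset.mul_sum]
  refine mul_le_mul_of_nonneg_left ?_ (by positivity)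
  have hinj : Set.InjOn (fun g => g / p ^ a)
      ((fac Q r).filter (fun g => p ^ a ∣ g) : Set ℕ) := by
    intro x hx y hy hxy
    have hx' := (Finset.mem_filter.1 (Finset.mem_coe.1 hx)).2
    have hy' := (Finset.mem_filter.1 (Finset.mem_coe.1 hy)).2
    rw [← Nat.div_mul_cancel hx', ← Nat.div_mul_cancel hy']
    simp only at hxy
    rw [hxy]
  have h2 : ∑ g ∈ (fac Q r).filter (fun g => p ^ a ∣ g), (1 / ((g / p ^ a : ℕ) : ℝ)) =
      ∑ g' ∈ ((fac Q r).filter (fun g => p ^ a ∣ g)).image (fun g => g / p ^ a),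
        (1 / (g' : ℝ)) := by
    rw [Finset.sum_image hinj]
  rw [h2]
  unfold hh
  refine Finset.sum_le_sum_of_subset_of_nonneg ?_ fun _ _ _ => by positivity
  intro g' hg'
  obtain ⟨g, hg, rfl⟩ := Finset.mem_image.1 hg'
  obtain ⟨hg1, k, hk⟩ := Finset.mem_filter.1 hg
  have h3 := mem_fac.1 hg1
  have hk0 : k ≠ 0 := by
    rintro rfl
    exact h3.1.1 (by rw [hk, mul_zero])
  rw [hk, Nat.mul_div_cancel_left _ (Nat.pos_of_ne_zero hp0), mem_fac]
  refine ⟨Nat.mem_factoredNumbers_of_dvd h3.1 ⟨p ^ a, by rw [hk, mul_comm]⟩, ?_⟩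
  have h4 := h3.2
  rw [hk, cardFactors_mul hp0 hk0, cardFactors_apply_prime_pow hp] at h4
  omega

theorem log_eq {Q : Finset ℕ} {r g : ℕ} (hg : g ∈ fac Q r) :
    Real.log g = ∑ p ∈ Q, (g.factorization p : ℝ) * Real.log p := by
  rw [Real.log_nat_eq_sum_factorization]
  refine Finsupp.sum_of_support_subset _ ?_ _ fun p _ => by simp
  exact Nat.primeFactors_subset_of_mem_factoredNumbers (mem_fac.1 hg).1

theorem fact_eq {Q : Finset ℕ} {r g p : ℕ} (hp : p.Prime) (hg : g ∈ fac Q r) :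
    (g.factorization p : ℝ) = ∑ a ∈ Finset.Icc 1 r, if p ^ a ∣ g then (1 : ℝ) else 0 := by
  have hg' := mem_fac.1 hg
  have h0 : g ≠ 0 := hg'.1.1
  have hle : g.factorization p ≤ r := by
    rw [← hg'.2, cardFactors_apply, ← Nat.primeFactorsList_count_eq]
    exact List.count_le_length
  rw [← Finset.sum_filter, Finset.sum_const, nsmul_eq_mul, mul_one]
  congr 1
  have : (Finset.Icc 1 r).filter (fun a => p ^ a ∣ g) = Finset.Icc 1 (g.factorization p) := by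
    ext a
    simp only [Finset.mem_filter, Finset.mem_Icc, hp.pow_dvd_iff_le_factorization h0]
    omega
  rw [this, Nat.card_Icc, Nat.add_sub_cancel]

theorem geom_le {p : ℕ} (hp : p.Prime) (r : ℕ) :
    ∑ a ∈ Finset.Icc 1 r, (1 / (p : ℝ) ^ a) ≤ 1 / ((p : ℝ) - 1) := by
  have hp2 : (2 : ℝ) ≤ p := by exact_mod_cast hp.two_le
  have h : ∀ r : ℕ, ∑ a ∈ Finset.Icc 1 r, (1 / (p : ℝ) ^ a) =
      (1 - 1 / (p : ℝ) ^ r) / ((p : ℝ) - 1) := by
    intro r
    induction r with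
    | zero => simp
    | succ r ih =>
      rw [Finset.sum_Icc_succ_top (by omega), ih]
      have h1 : (p : ℝ) - 1 ≠ 0 := by linarith
      have h2 : (p : ℝ) ≠ 0 := by linarith
      field_simp
      ring
  rw [h]
  have h3 : (0 : ℝ) ≤ 1 / (p : ℝ) ^ r := by positivity
  have h4 : (0 : ℝ) < (p : ℝ) - 1 := by linarith
  gcongr
  linarith

theorem log_avg : ∃ C : ℝ, 0 ≤ C ∧ ∀ (N : ℕ) (Q : Finset ℕ), 1 ≤ N → Q ⊆ pr N →
    ∀ (r : ℕ) (ρ : ℝ), 0 ≤ ρ → ρ ≤ 1 → (r : ℝ) ≤ ρ * p1 Q →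
    ∑ g ∈ fac Q r, Real.log g / g ≤ ρ * (Real.log N + C) * hh Q r := by
  obtain ⟨C1, hC1⟩ := mertens_log
  have hsum : Summable fun n : ℕ => 4 * ((n : ℝ) ^ (3 / 2 : ℝ))⁻¹ :=
    (Real.summable_nat_rpow_inv.2 (by norm_num)).mul_left 4
  set C2 : ℝ := ∑' n : ℕ, 4 * ((n : ℝ) ^ (3 / 2 : ℝ))⁻¹ with hC2
  have hC2pos : 0 ≤ C2 := tsum_nonneg fun n => by positivity
  refine ⟨|C1| + C2, by positivity, ?_⟩
  intro N Q hN hQ r ρ hρ0 hρ1 hr
  have hQp : ∀ p ∈ Q, p.Prime := fun p hp => (Finset.mem_filter.1 (hQ hp)).2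
  have hH := hh_nonneg'_A2 Q r
  -- expansion
  have hexp : ∑ g ∈ fac Q r, Real.log g / g = ∑ p ∈ Q, Real.log p *
      ∑ a ∈ Finset.Icc 1 r, ∑ g ∈ (fac Q r).filter (fun g => p ^ a ∣ g), (1 : ℝ) / g := by
    have h1 : ∀ g ∈ fac Q r, Real.log g / g = ∑ p ∈ Q, ∑ a ∈ Finset.Icc 1 r,
        Real.log p * (if p ^ a ∣ g then (1 : ℝ) / g else 0) := by
      intro g hg
      rw [log_eq hg, Finset.sum_div]
      refine Finset.sum_congr rfl fun p hp => ?_
      rw [fact_eq (hQp p hp) hg, Finset.sum_mul, Finset.sum_div]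
      refine Finset.sum_congr rfl fun a _ => ?_
      split_ifs
      · ring
      · simp
    rw [Finset.sum_congr rfl h1, Finset.sum_comm]
    refine Finset.sum_congr rfl fun p _ => ?_
    rw [Finset.sum_comm, Finset.mul_sum]
    refine Finset.sum_congr rfl fun a _ => ?_
    rw [← Finset.mul_sum, Finset.sum_filter]
  rw [hexp]
  -- bound for each prime
  have hbound : ∀ p ∈ Q, Real.log p *
      ∑ a ∈ Finset.Icc 1 r, ∑ g ∈ (fac Q r).filter (fun g => p ^ a ∣ g), (1 : ℝ) / g ≤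
      ρ * hh Q r * (Real.log p / p + 4 * ((p : ℝ) ^ (3 / 2 : ℝ))⁻¹) := by
    intro p hp
    have hpp := hQp p hp
    have hp2 : (2 : ℝ) ≤ p := by exact_mod_cast hpp.two_le
    have hlog : 0 ≤ Real.log p := Real.log_nonneg (by linarith)
    have h1 : ∑ a ∈ Finset.Icc 1 r, ∑ g ∈ (fac Q r).filter (fun g => p ^ a ∣ g), (1 : ℝ) / g ≤
        ∑ a ∈ Finset.Icc 1 r, (1 / (p : ℝ) ^ a) * (ρ * hh Q r) := by
      refine Finset.sum_le_sum fun a ha => ?_
      obtain ⟨ha1, ha2⟩ := Finset.mem_Icc.1 ha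
      refine (sum_dvd hpp).trans ?_
      refine mul_le_mul_of_nonneg_left ?_ (by positivity)
      refine (hh_shift hQp hρ0 hr ha2).trans ?_
      refine mul_le_mul_of_nonneg_right ?_ hH
      exact pow_le_of_le_one hρ0 hρ1 (by omega)
    have h2 : ∑ a ∈ Finset.Icc 1 r, (1 / (p : ℝ) ^ a) * (ρ * hh Q r) ≤
        1 / ((p : ℝ) - 1) * (ρ * hh Q r) := by
      rw [← Finset.sum_mul]
      exact mul_le_mul_of_nonneg_right (geom_le hpp r) (mul_nonneg hρ0 hH)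
    have h3 : Real.log p * (1 / ((p : ℝ) - 1)) ≤ Real.log p / p + 4 * ((p : ℝ) ^ (3 / 2 : ℝ))⁻¹ := by
      have hlog2 : Real.log p ≤ 2 * (p : ℝ) ^ (1 / 2 : ℝ) := by
        have := Real.log_le_rpow_div (x := (p : ℝ)) (by linarith) (show (0 : ℝ) < 1 / 2 by norm_num)
        linarith
      have h4 : Real.log p * (1 / ((p : ℝ) - 1)) = Real.log p / p +
          Real.log p * (1 / ((p : ℝ) * ((p : ℝ) - 1))) := by
        have h1 : (p : ℝ) - 1 ≠ 0 := by linarith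
        have h2 : (p : ℝ) ≠ 0 := by linarith
        field_simp
        ring
      rw [h4]
      refine add_le_add le_rfl ?_
      have h5 : (1 / ((p : ℝ) * ((p : ℝ) - 1))) ≤ 2 * ((p : ℝ) ^ (2 : ℝ))⁻¹ := by
        rw [Real.rpow_two, ← one_div, mul_one_div]
        rw [div_le_div_iff₀ (by nlinarith) (by positivity)]
        nlinarith
      calc Real.log p * (1 / ((p : ℝ) * ((p : ℝ) - 1)))
          ≤ (2 * (p : ℝ) ^ (1 / 2 : ℝ)) * (2 * ((p : ℝ) ^ (2 : ℝ))⁻¹) :=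
            mul_le_mul hlog2 h5 (div_nonneg zero_le_one (mul_nonneg (by linarith) (by linarith)))
              (by positivity)
        _ = 4 * ((p : ℝ) ^ (1 / 2 : ℝ) * ((p : ℝ) ^ (2 : ℝ))⁻¹) := by ring
        _ = 4 * ((p : ℝ) ^ (3 / 2 : ℝ))⁻¹ := by
          rw [← Real.rpow_neg (by linarith), ← Real.rpow_neg (by linarith),
            ← Real.rpow_add (by linarith)]
          norm_num
    calc Real.log p *
        ∑ a ∈ Finset.Icc 1 r, ∑ g ∈ (fac Q r).filter (fun g => p ^ a ∣ g), (1 : ℝ) / g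
        ≤ Real.log p * (1 / ((p : ℝ) - 1) * (ρ * hh Q r)) :=
          mul_le_mul_of_nonneg_left (h1.trans h2) hlog
      _ = (ρ * hh Q r) * (Real.log p * (1 / ((p : ℝ) - 1))) := by ring
      _ ≤ _ := mul_le_mul_of_nonneg_left h3 (mul_nonneg hρ0 hH)
  refine (Finset.sum_le_sum hbound).trans ?_
  rw [← Finset.mul_sum, Finset.sum_add_distrib]
  have h5 : ∑ p ∈ Q, Real.log p / p ≤ Real.log N + |C1| := by
    have h6 : ∑ p ∈ Q, Real.log p / p ≤
        ∑ p ∈ (Finset.Icc 1 N).filter Nat.Prime, Real.log p / p := by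
      refine Finset.sum_le_sum_of_subset_of_nonneg hQ fun p _ _ => ?_
      exact div_nonneg (Real.log_natCast_nonneg p) (Nat.cast_nonneg p)
    have h7 := (abs_le.1 (hC1 N hN)).2
    linarith [le_abs_self C1]
  have h8 : ∑ p ∈ Q, 4 * ((p : ℝ) ^ (3 / 2 : ℝ))⁻¹ ≤ C2 :=
    hsum.sum_le_tsum Q fun n _ => by positivity
  calc ρ * hh Q r * (∑ p ∈ Q, Real.log p / p + ∑ p ∈ Q, 4 * ((p : ℝ) ^ (3 / 2 : ℝ))⁻¹)
      ≤ ρ * hh Q r * ((Real.log N + |C1|) + C2) :=
        mul_le_mul_of_nonneg_left (add_le_add h5 h8) (mul_nonneg hρ0 hH)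
    _ = _ := by ring

end Pool.Agent.Helper256.KM
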