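import Mathlib
import Pool.Agent.Helper256.KM.Defs
import Pool.Agent.Helper256.KM.A1

set_option autoImplicit false

namespace Pool.Agent.Helper256.KM

open Finset ArithmeticFunction

theorem a3_hh_nonneg (Q : Finset ℕ) (r : ℕ) : 0 ≤ hh Q r :=
  Finset.sum_nonneg fun _ _ => by positivity

theorem a3_p1_nonneg (Q : Finset ℕ) : 0 ≤ p1 Q :=
  Finset.sum_nonneg fun _ _ => by positivity

theorem a3_card {Q : Finset ℕ} (hQ : ∀ p ∈ Q, p.Prime) {r m : ℕ} (hm : m ∈ fac Q (r + 1)) :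
    ((r + 1 : ℕ) : ℝ) = ∑ p ∈ Q, ∑ a ∈ Finset.range (r + 1), if p ^ (a + 1) ∣ m then (1 : ℝ) else 0 := by
  obtain ⟨h1, h2⟩ := mem_fac.1 hm
  have hm0 : m ≠ 0 := (Nat.mem_factoredNumbers.1 h1).1
  have h3 : m.factorization.support ⊆ Q := by
    intro p hp
    rw [Nat.support_factorization] at hp
    exact (Nat.mem_factoredNumbers.1 h1).2 p (Nat.mem_primeFactors_iff_mem_primeFactorsList.1 hp)
  have h4 : cardFactors m = ∑ p ∈ Q, m.factorization p := by
    rw [cardFactors_eq_sum_factorization, Finsupp.sum]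
    exact Finset.sum_subset h3 fun p _ hp => Finsupp.notMem_support_iff.1 hp
  have h5 : ∀ p ∈ Q, (∑ a ∈ Finset.range (r + 1), if p ^ (a + 1) ∣ m then (1 : ℝ) else 0) =
      (m.factorization p : ℝ) := by
    intro p hp
    have hle : m.factorization p ≤ r + 1 := by
      rw [← h2, h4]
      exact Finset.single_le_sum (f := fun p => m.factorization p) (fun _ _ => Nat.zero_le _) hp
    have h6 : ∀ a, (p ^ (a + 1) ∣ m) ↔ a < m.factorization p := by
      intro a
      rw [(hQ p hp).pow_dvd_iff_le_factorization hm0]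
      exact Nat.succ_le_iff
    simp_rw [h6]
    rw [Finset.sum_boole]
    congr 1
    have h7 : (Finset.range (r + 1)).filter (fun a => a < m.factorization p) =
        Finset.range (m.factorization p) := by
      ext a
      simp only [Finset.mem_filter, Finset.mem_range]
      omega
    rw [h7, Finset.card_range]
  rw [Finset.sum_congr rfl h5, ← Nat.cast_sum, ← h4, h2]

theorem a3_T {Q : Finset ℕ} (hQ : ∀ p ∈ Q, p.Prime) {r a p : ℕ} (hp : p ∈ Q) (ha : a ≤ r) :
    (∑ m ∈ fac Q (r + 1), if p ^ (a + 1) ∣ m then (1 : ℝ) / m else 0) ≤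
      1 / (p : ℝ) ^ (a + 1) * hh Q (r - a) := by
  classical
  have hpp := hQ p hp
  have hpos : 0 < p ^ (a + 1) := pow_pos hpp.pos _
  rw [← Finset.sum_filter]
  set A := (fac Q (r + 1)).filter fun m => p ^ (a + 1) ∣ m with hA
  have hinj : Set.InjOn (fun m => m / p ^ (a + 1)) A := by
    intro x hx y hy hxy
    rw [hA, Finset.coe_filter] at hx hy
    obtain ⟨k, rfl⟩ := hx.2
    obtain ⟨l, rfl⟩ := hy.2
    simp only [Nat.mul_div_cancel_left _ hpos] at hxy
    rw [hxy]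
  have himg : A.image (fun m => m / p ^ (a + 1)) ⊆ fac Q (r - a) := by
    intro x hx
    rw [Finset.mem_image] at hx
    obtain ⟨m, hm, rfl⟩ := hx
    rw [hA, Finset.mem_filter] at hm
    obtain ⟨hm1, k, rfl⟩ := hm
    obtain ⟨h1, h2⟩ := mem_fac.1 hm1
    rw [Nat.mul_div_cancel_left _ hpos, mem_fac]
    have h0 := (Nat.mem_factoredNumbers.1 h1).1
    have hk0 : k ≠ 0 := fun h => h0 (by rw [h, mul_zero])
    refine ⟨Nat.mem_factoredNumbers_of_dvd h1 (dvd_mul_left _ _), ?_⟩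
    rw [cardFactors_mul hpos.ne' hk0, cardFactors_apply_prime_pow hpp] at h2
    omega
  have h1 : ∀ m ∈ A, (1 : ℝ) / m = 1 / (p : ℝ) ^ (a + 1) * (1 / ((m / p ^ (a + 1) : ℕ) : ℝ)) := by
    intro m hm
    rw [hA, Finset.mem_filter] at hm
    obtain ⟨hm1, k, rfl⟩ := hm
    rw [Nat.mul_div_cancel_left _ hpos]
    push_cast
    rw [one_div_mul_one_div]
  rw [Finset.sum_congr rfl h1, ← Finset.mul_sum]
  apply mul_le_mul_of_nonneg_left _ (by positivity)
  rw [← Finset.sum_image (f := fun n : ℕ => (1 : ℝ) / (n : ℝ)) hinj]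
  exact Finset.sum_le_sum_of_subset_of_nonneg himg fun _ _ _ => by positivity

theorem a3_geom {p : ℕ} (hp : 2 ≤ p) (r : ℕ) :
    ∑ a ∈ Finset.range r, 1 / (p : ℝ) ^ (a + 2) ≤ 1 / ((p : ℝ) - 1) - 1 / p := by
  have hp2 : (2 : ℝ) ≤ p := by exact_mod_cast hp
  have hp1 : (0 : ℝ) < p - 1 := by linarith
  have hp0 : (0 : ℝ) < p := by linarith
  have h : ∑ a ∈ Finset.range r, 1 / (p : ℝ) ^ (a + 2) =
      (1 / ((p : ℝ) * (p - 1))) * (1 - 1 / (p : ℝ) ^ r) := by
    induction r with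
    | zero => simp
    | succ r ih =>
      rw [Finset.sum_range_succ, ih]
      field_simp
      ring
  rw [h]
  have h1 : 1 / ((p : ℝ) - 1) - 1 / p = 1 / ((p : ℝ) * (p - 1)) := by
    field_simp
    ring
  rw [h1]
  have h2 : 0 ≤ 1 / (p : ℝ) ^ r := by positivity
  have h3 : 0 ≤ 1 / ((p : ℝ) * (p - 1)) := by positivity
  nlinarith

theorem a3_tele {Q : Finset ℕ} (hQ : ∀ p ∈ Q, p.Prime) :
    ∑ p ∈ Q, (1 / ((p : ℝ) - 1) - 1 / p) ≤ 1 := by
  have hsub : Q ⊆ (Finset.range (Q.sup id)).image (fun n => n + 2) := by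
    intro p hp
    rw [Finset.mem_image]
    have h1 := (hQ p hp).two_le
    have h2 : p ≤ Q.sup id := Finset.le_sup (f := id) hp
    exact ⟨p - 2, Finset.mem_range.2 (by omega), by omega⟩
  have hnn : ∀ n : ℕ, 0 ≤ 1 / (((n + 2 : ℕ) : ℝ) - 1) - 1 / ((n + 2 : ℕ) : ℝ) := by
    intro n
    have h1 : (0 : ℝ) < ((n + 2 : ℕ) : ℝ) - 1 := by
      push_cast
      have : (0 : ℝ) ≤ n := Nat.cast_nonneg n
      linarith
    have := one_div_le_one_div_of_le h1 (by linarith : ((n + 2 : ℕ) : ℝ) - 1 ≤ ((n + 2 : ℕ) : ℝ))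
    linarith
  have h1 : ∀ N : ℕ, ∑ n ∈ Finset.range N, (1 / (((n + 2 : ℕ) : ℝ) - 1) - 1 / ((n + 2 : ℕ) : ℝ)) =
      1 - 1 / ((N : ℝ) + 1) := by
    intro N
    induction N with
    | zero => simp
    | succ N ih =>
      rw [Finset.sum_range_succ, ih]
      push_cast
      ring_nf
  calc ∑ p ∈ Q, (1 / ((p : ℝ) - 1) - 1 / p)
      ≤ ∑ p ∈ (Finset.range (Q.sup id)).image (fun n : ℕ => n + 2),
          (1 / (((p : ℕ) : ℝ) - 1) - 1 / ((p : ℕ) : ℝ)) := by
        apply Finset.sum_le_sum_of_subset_of_nonneg hsub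
        intro p hp _
        rw [Finset.mem_image] at hp
        obtain ⟨n, _, rfl⟩ := hp
        exact hnn n
    _ = ∑ n ∈ Finset.range (Q.sup id),
          (1 / (((n + 2 : ℕ) : ℝ) - 1) - 1 / ((n + 2 : ℕ) : ℝ)) := by
        rw [Finset.sum_image]
        intro x _ y _ hxy
        simpa using hxy
    _ = 1 - 1 / (((Q.sup id : ℕ) : ℝ) + 1) := h1 _
    _ ≤ 1 := by
        have : 0 ≤ 1 / (((Q.sup id : ℕ) : ℝ) + 1) := by positivity
        linarith

theorem h2 {Q : Finset ℕ} (hQ : ∀ p ∈ Q, p.Prime) {r : ℕ} (hr : ((r + 1 : ℕ) : ℝ) ≤ p1 Q) :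
    ((r + 1 : ℕ) : ℝ) * hh Q (r + 1) ≤ (p1 Q + 1) * hh Q r := by
  have hr' : (r : ℝ) ≤ 1 * p1 Q := by push_cast at hr; linarith
  have e1 : ((r + 1 : ℕ) : ℝ) * hh Q (r + 1) = ∑ p ∈ Q, ∑ a ∈ Finset.range (r + 1),
      ∑ m ∈ fac Q (r + 1), if p ^ (a + 1) ∣ m then (1 : ℝ) / m else 0 := by
    have e2 : ((r + 1 : ℕ) : ℝ) * hh Q (r + 1) = ∑ m ∈ fac Q (r + 1), ∑ p ∈ Q,
        ∑ a ∈ Finset.range (r + 1), if p ^ (a + 1) ∣ m then (1 : ℝ) / m else 0 := by
      unfold hh
      rw [Finset.mul_sum]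
      refine Finset.sum_congr rfl fun m hm => ?_
      rw [a3_card hQ hm, Finset.sum_mul]
      refine Finset.sum_congr rfl fun p _ => ?_
      rw [Finset.sum_mul]
      refine Finset.sum_congr rfl fun a _ => ?_
      split_ifs <;> simp
    rw [e2, Finset.sum_comm]
    refine Finset.sum_congr rfl fun p _ => ?_
    rw [Finset.sum_comm]
  rw [e1]
  have hh0 := a3_hh_nonneg Q r
  have e3 : ∀ p ∈ Q, (∑ a ∈ Finset.range (r + 1),
      ∑ m ∈ fac Q (r + 1), if p ^ (a + 1) ∣ m then (1 : ℝ) / m else 0) ≤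
      (1 / (p : ℝ) + (1 / ((p : ℝ) - 1) - 1 / p)) * hh Q r := by
    intro p hp
    rw [Finset.sum_range_succ', add_comm, add_mul]
    apply add_le_add
    · have := a3_T hQ (r := r) (a := 0) hp (Nat.zero_le _)
      simpa using this
    · calc ∑ a ∈ Finset.range r, ∑ m ∈ fac Q (r + 1),
            (if p ^ (a + 1 + 1) ∣ m then (1 : ℝ) / m else 0)
          ≤ ∑ a ∈ Finset.range r, 1 / (p : ℝ) ^ (a + 2) * hh Q r := by
            refine Finset.sum_le_sum fun a ha => ?_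
            rw [Finset.mem_range] at ha
            refine (a3_T hQ (a := a + 1) hp (by omega)).trans ?_
            apply mul_le_mul_of_nonneg_left _ (by positivity)
            have := hh_shift hQ zero_le_one hr' (a := a + 1) (by omega)
            simpa using this
        _ = (∑ a ∈ Finset.range r, 1 / (p : ℝ) ^ (a + 2)) * hh Q r := by
            rw [Finset.sum_mul]
        _ ≤ _ := mul_le_mul_of_nonneg_right (a3_geom (hQ p hp).two_le r) hh0
  refine (Finset.sum_le_sum e3).trans ?_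
  rw [← Finset.sum_mul, Finset.sum_add_distrib]
  apply mul_le_mul_of_nonneg_right _ hh0
  have := a3_tele hQ
  unfold p1
  linarith

theorem h2_shift {Q : Finset ℕ} (hQ : ∀ p ∈ Q, p.Prime) {r a : ℕ} (hr : (r : ℝ) ≤ p1 Q)
    (ha : a ≤ r) : (((r : ℝ) - a) / (p1 Q + 1)) ^ a * hh Q r ≤ hh Q (r - a) := by
  have hp1 := a3_p1_nonneg Q
  have har : (a : ℝ) ≤ r := by exact_mod_cast ha
  have hx0 : 0 ≤ ((r : ℝ) - a) / (p1 Q + 1) := div_nonneg (by linarith) (by linarith)
  have key : ∀ b, b ≤ a → (((r : ℝ) - a) / (p1 Q + 1)) ^ b * hh Q r ≤ hh Q (r - b) := by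
    intro b
    induction b with
    | zero => intro _; simp
    | succ b ih =>
      intro hb
      have h1 := ih (by omega)
      have h2' := h2 hQ (r := r - (b + 1)) (by
        have : r - (b + 1) + 1 ≤ r := by omega
        have h3 : ((r - (b + 1) + 1 : ℕ) : ℝ) ≤ (r : ℝ) := by exact_mod_cast this
        linarith)
      have h3 : r - (b + 1) + 1 = r - b := by omega
      rw [h3] at h2'
      have h4 : ((r : ℝ) - a) ≤ ((r - b : ℕ) : ℝ) := by
        have : b ≤ r := by omega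
        rw [Nat.cast_sub this]
        have : (b : ℝ) ≤ a := by exact_mod_cast (by omega : b ≤ a)
        linarith
      have h5 := a3_hh_nonneg Q (r - b)
      have h6 : ((r : ℝ) - a) * hh Q (r - b) ≤ (p1 Q + 1) * hh Q (r - (b + 1)) :=
        (mul_le_mul_of_nonneg_right h4 h5).trans h2'
      have h7 : ((r : ℝ) - a) / (p1 Q + 1) * hh Q (r - b) ≤ hh Q (r - (b + 1)) := by
        rw [div_mul_eq_mul_div, div_le_iff₀ (by linarith)]
        linarith
      calc (((r : ℝ) - a) / (p1 Q + 1)) ^ (b + 1) * hh Q r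
          = ((r : ℝ) - a) / (p1 Q + 1) * ((((r : ℝ) - a) / (p1 Q + 1)) ^ b * hh Q r) := by
            rw [pow_succ]; ring
        _ ≤ ((r : ℝ) - a) / (p1 Q + 1) * hh Q (r - b) := mul_le_mul_of_nonneg_left h1 hx0
        _ ≤ _ := h7
  exact key a le_rfl

end Pool.Agent.Helper256.KM
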