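import Mathlib
import Pool.Agent.Helper256.KM.Defs
import Pool.Agent.Helper256.KM.A1

set_option autoImplicit false

namespace Pool.Agent.Helper256.KM

open Finset ArithmeticFunction

theorem hh_nonneg_aux (Q : Finset ℕ) (r : ℕ) : 0 ≤ hh Q r :=
  Finset.sum_nonneg (fun n _ => by positivity)

theorem hh_insert_aux {Q : Finset ℕ} (hQ : ∀ p ∈ Q, p.Prime) {p : ℕ} (hp : p.Prime)
    (hpQ : p ∉ Q) (r : ℕ) :
    hh (insert p Q) r ≤ ∑ a ∈ Finset.range (r + 1), (1 / (p : ℝ)) ^ a * hh Q (r - a) := by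
  classical
  have hmap : ∀ n ∈ fac (insert p Q) r, n.factorization p ∈ Finset.range (r + 1) := by
    intro n hn
    obtain ⟨hn1, hn2⟩ := mem_fac.1 hn
    rw [Finset.mem_range, Nat.lt_succ_iff, ← hn2, cardFactors_apply]
    rw [← Nat.primeFactorsList_count_eq]
    exact List.count_le_length
  have h0 : hh (insert p Q) r = ∑ a ∈ Finset.range (r + 1),
      ∑ n ∈ fac (insert p Q) r with n.factorization p = a, (1 : ℝ) / n := by
    rw [hh]
    exact (Finset.sum_fiberwise_of_maps_to hmap _).symm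
  rw [h0]
  refine Finset.sum_le_sum fun a ha => ?_
  have hsub : (fac (insert p Q) r).filter (fun n => n.factorization p = a) ⊆
      (fac Q (r - a)).image (fun m => p ^ a * m) := by
    intro n hn
    rw [Finset.mem_filter] at hn
    obtain ⟨hn, hna⟩ := hn
    obtain ⟨hn1, hn2⟩ := mem_fac.1 hn
    have hn0 : n ≠ 0 := Nat.ne_zero_of_mem_factoredNumbers hn1
    rw [Finset.mem_image]
    refine ⟨n / p ^ a, ?_, ?_⟩
    · have hdvd : p ^ a ∣ n := by rw [← hna]; exact Nat.ordProj_dvd n p
      have hm0 : n / p ^ a ≠ 0 := by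
        have := Nat.div_pos (Nat.le_of_dvd (Nat.pos_of_ne_zero hn0) hdvd) (pow_pos hp.pos a)
        omega
      have hnm : n = p ^ a * (n / p ^ a) := (Nat.mul_div_cancel' hdvd).symm
      rw [mem_fac]
      constructor
      · rw [Nat.mem_factoredNumbers_iff_primeFactors_subset]
        refine ⟨hm0, ?_⟩
        intro q hq
        have hq' : q ∈ (insert p Q : Finset ℕ) := by
          have h2 := (Nat.mem_factoredNumbers_iff_primeFactors_subset.1 hn1).2
          apply h2
          exact Nat.primeFactors_mono (Nat.div_dvd_of_dvd hdvd) hn0 hq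
        rcases Finset.mem_insert.1 hq' with h | h
        · exfalso
          subst h
          have := Nat.not_dvd_ordCompl (n := n) hp hn0
          rw [hna] at this
          exact this (Nat.dvd_of_mem_primeFactors hq)
        · exact h
      · have hc : cardFactors n = a + cardFactors (n / p ^ a) := by
          conv_lhs => rw [hnm]
          rw [cardFactors_mul (pow_ne_zero _ hp.ne_zero) hm0, cardFactors_apply_prime_pow hp]
        omega
    · have hdvd : p ^ a ∣ n := by rw [← hna]; exact Nat.ordProj_dvd n p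
      exact Nat.mul_div_cancel' hdvd
  calc ∑ n ∈ fac (insert p Q) r with n.factorization p = a, (1 : ℝ) / n
      ≤ ∑ n ∈ (fac Q (r - a)).image (fun m => p ^ a * m), (1 : ℝ) / n :=
        Finset.sum_le_sum_of_subset_of_nonneg hsub (fun n _ _ => by positivity)
    _ = ∑ m ∈ fac Q (r - a), (1 : ℝ) / ((p ^ a * m : ℕ) : ℝ) := by
        apply Finset.sum_image
        intro x _ y _ hxy
        exact Nat.eq_of_mul_eq_mul_left (pow_pos hp.pos a) hxy
    _ = (1 / (p : ℝ)) ^ a * hh Q (r - a) := by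
        rw [hh, Finset.mul_sum]
        refine Finset.sum_congr rfl fun m _ => ?_
        push_cast
        rw [one_div_pow, one_div_mul_one_div]

theorem hh_step_aux {Q : Finset ℕ} (hQ : ∀ p ∈ Q, p.Prime) {p : ℕ} (hp : p.Prime)
    (hpQ : p ∉ Q) {ρ : ℝ} (hρ : 0 ≤ ρ) (hρ1 : ρ ≤ 1) {r : ℕ} (h : (r : ℝ) ≤ ρ * p1 Q) :
    hh (insert p Q) r ≤ (1 - ρ / p)⁻¹ * hh Q r := by
  have hp1 : (1 : ℝ) < p := by exact_mod_cast hp.one_lt
  have hx0 : 0 ≤ ρ / p := by positivity
  have hx1 : ρ / p < 1 := by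
    rw [div_lt_one (by linarith)]
    linarith
  refine (hh_insert_aux hQ hp hpQ r).trans ?_
  calc ∑ a ∈ Finset.range (r + 1), (1 / (p : ℝ)) ^ a * hh Q (r - a)
      ≤ ∑ a ∈ Finset.range (r + 1), (ρ / p) ^ a * hh Q r := by
        refine Finset.sum_le_sum fun a ha => ?_
        have ha' : a ≤ r := by rw [Finset.mem_range] at ha; omega
        have h1 := hh_shift hQ hρ h ha'
        calc (1 / (p : ℝ)) ^ a * hh Q (r - a) ≤ (1 / (p : ℝ)) ^ a * (ρ ^ a * hh Q r) :=
              mul_le_mul_of_nonneg_left h1 (by positivity)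
          _ = (ρ / p) ^ a * hh Q r := by
              rw [← mul_assoc, ← mul_pow]
              congr 2
              ring
    _ = (∑ a ∈ Finset.range (r + 1), (ρ / p) ^ a) * hh Q r := by rw [Finset.sum_mul]
    _ ≤ (1 - ρ / p)⁻¹ * hh Q r := by
        refine mul_le_mul_of_nonneg_right ?_ (hh_nonneg_aux Q r)
        rw [← tsum_geometric_of_lt_one hx0 hx1]
        exact (summable_geometric_of_lt_one hx0 hx1).sum_le_tsum _ (fun i _ => by positivity)

theorem hh_split {P Q : Finset ℕ} (hP : ∀ p ∈ P, p.Prime) (hQ : ∀ p ∈ Q, p.Prime)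
    (hPQ : Disjoint P Q) {ρ : ℝ} (hρ : 0 ≤ ρ) (hρ1 : ρ ≤ 1) {r : ℕ} (h : (r : ℝ) ≤ ρ * p1 Q) :
    hh (P ∪ Q) r ≤ (∏ p ∈ P, (1 - ρ / p)⁻¹) * hh Q r := by
  classical
  induction P using Finset.induction_on with
  | empty => simp
  | insert p P hpP ih =>
    have hp : p.Prime := hP p (Finset.mem_insert_self _ _)
    have hP' : ∀ q ∈ P, q.Prime := fun q hq => hP q (Finset.mem_insert_of_mem hq)
    rw [Finset.disjoint_insert_left] at hPQ
    have ih' := ih hP' hPQ.2
    have hU : ∀ q ∈ P ∪ Q, q.Prime := by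
      intro q hq
      rcases Finset.mem_union.1 hq with h | h
      · exact hP' q h
      · exact hQ q h
    have hpU : p ∉ P ∪ Q := by
      rw [Finset.mem_union]
      push Not
      exact ⟨hpP, hPQ.1⟩
    have hle : p1 Q ≤ p1 (P ∪ Q) :=
      Finset.sum_le_sum_of_subset_of_nonneg Finset.subset_union_right
        (fun n _ _ => by positivity)
    have h' : (r : ℝ) ≤ ρ * p1 (P ∪ Q) := h.trans (mul_le_mul_of_nonneg_left hle hρ)
    have hs := hh_step_aux hU hp hpU hρ hρ1 h'
    have hp1 : (1 : ℝ) < p := by exact_mod_cast hp.one_lt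
    have hx1 : ρ / p < 1 := by
      rw [div_lt_one (by linarith)]
      linarith
    rw [Finset.insert_union, Finset.prod_insert hpP, mul_assoc]
    refine hs.trans (mul_le_mul_of_nonneg_left ih' ?_)
    exact inv_nonneg.2 (by linarith)

end Pool.Agent.Helper256.KM
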