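import Mathlib
import Pool.Agent.Helper256.KM.Defs
import Pool.Agent.Helper256.KM.A1
import Pool.Agent.Helper256.KM.A2

set_option autoImplicit false

namespace Pool.Agent.Helper256.KM

open Finset ArithmeticFunction

/-- at most `K` primes above `z` divide `l ≤ z ^ K'`. -/
theorem card_big_primes {l : ℕ} (hl : 0 < l) {z N κ : ℝ} (hz : 1 < z) (hlN : (l : ℝ) ≤ N)
    (hN : N = z ^ κ) :
    (((l.primeFactors.filter (fun p : ℕ => z < (p : ℝ))).card : ℕ) : ℝ) ≤ κ := by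
  set T := l.primeFactors.filter (fun p : ℕ => z < (p : ℝ)) with hT
  have h1 : z ^ (T.card) ≤ ((∏ p ∈ T, p : ℕ) : ℝ) := by
    rw [Nat.cast_prod, ← Finset.prod_const]
    apply Finset.prod_le_prod
    · intro i _; linarith
    · intro i hi
      have := (Finset.mem_filter.mp hi).2
      exact this.le
  have h2 : (∏ p ∈ T, p : ℕ) ∣ l := by
    refine dvd_trans (Finset.prod_dvd_prod_of_subset T l.primeFactors _ (Finset.filter_subset _ _)) ?_
    exact Nat.prod_primeFactors_dvd l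
  have h3 : ((∏ p ∈ T, p : ℕ) : ℝ) ≤ (l : ℝ) := by
    exact_mod_cast Nat.le_of_dvd hl h2
  have h4 : z ^ ((T.card : ℕ) : ℝ) ≤ z ^ κ := by
    rw [Real.rpow_natCast]
    calc z ^ T.card ≤ _ := h1
      _ ≤ _ := h3
      _ ≤ N := hlN
      _ = z ^ κ := hN
  exact (Real.rpow_le_rpow_left_iff hz).mp h4

theorem card_bp (P : Finset ℕ) {z y : ℝ} (hz : 0 ≤ z) (hy : 8 ≤ y) :
    y / (4 * Real.log y) - z - P.card ≤ ((bp P z y).card : ℝ) := by
  have hpi := Chebyshev.pi_ge' (x := y) (by linarith)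
  have hlogy : 0 < Real.log y := Real.log_pos (by linarith)
  have h0 : y / (4 * Real.log y) ≤ (Nat.primeCounting ⌊y⌋₊ : ℝ) := by
    refine le_trans ?_ hpi
    rw [div_le_div_iff₀ (by positivity) hlogy]
    have h2 : 0.6931471803 < Real.log 2 := Real.log_two_gt_d9
    have h3 : Real.log 2 < 0.6931471808 := Real.log_two_lt_d9
    have h4 : Real.log (y + 2) ≤ (y + 2) / 8 - 1 + 3 * Real.log 2 := by
      have e : y + 2 = ((y + 2) / 8) * 2 ^ 3 := by ring
      have e2 : Real.log (y + 2) = Real.log ((y + 2) / 8) + 3 * Real.log 2 := by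
        conv_lhs => rw [e]
        rw [Real.log_mul (by positivity) (by positivity), Real.log_pow]
        norm_num
      rw [e2]
      have := Real.log_le_sub_one_of_pos (x := (y + 2) / 8) (by positivity)
      linarith
    have h5 : y ≤ ((y - 1) * Real.log 2 - Real.log (y + 2)) * 4 := by nlinarith
    nlinarith
  have h1 : (Nat.primeCounting ⌊y⌋₊ : ℝ) ≤ (bp P z y).card + z + P.card := by
    have hsub : (Finset.range (⌊y⌋₊ + 1)).filter Nat.Prime ⊆
        bp P z y ∪ (Finset.Icc 1 ⌊z⌋₊ ∪ P) := by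
      intro p hp
      rw [Finset.mem_filter, Finset.mem_range] at hp
      rw [Finset.mem_union, Finset.mem_union]
      by_cases hpP : p ∈ P
      · exact Or.inr (Or.inr hpP)
      · by_cases hpz : z < (p : ℝ)
        · left
          unfold bp
          rw [Finset.mem_filter, Finset.mem_Icc]
          exact ⟨⟨hp.2.one_le, by omega⟩, hp.2, hpz, hpP⟩
        · right; left
          rw [Finset.mem_Icc]
          exact ⟨hp.2.one_le, Nat.le_floor (not_lt.mp hpz)⟩
    have hc := Finset.card_le_card hsub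
    have hc2 := Finset.card_union_le (bp P z y) (Finset.Icc 1 ⌊z⌋₊ ∪ P)
    have hc3 := Finset.card_union_le (Finset.Icc 1 ⌊z⌋₊) P
    rw [Nat.card_Icc] at hc3
    have hpc : Nat.primeCounting ⌊y⌋₊ = ((Finset.range (⌊y⌋₊ + 1)).filter Nat.Prime).card := by
      rw [Nat.primeCounting, Nat.primeCounting', Nat.count_eq_card_filter_range]
    rw [hpc]
    have hfz : ((⌊z⌋₊ : ℕ) : ℝ) ≤ z := Nat.floor_le hz
    have : (((Finset.range (⌊y⌋₊ + 1)).filter Nat.Prime).card : ℝ) ≤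
        (bp P z y).card + (⌊z⌋₊ + P.card) := by
      have : ((Finset.range (⌊y⌋₊ + 1)).filter Nat.Prime).card ≤
        (bp P z y).card + (⌊z⌋₊ + P.card) := by omega
      exact_mod_cast this
    linarith
  linarith

theorem count_pairs {P : Finset ℕ} (hP : ∀ p ∈ P, p.Prime) {N : ℕ} {r : ℕ} {x z κ : ℝ}
    (hx0 : 0 < x) (hxN : x ≤ N) (hz : 1 < z) (hN : (N : ℝ) = z ^ κ) (hκ : 0 < κ)
    (G : Finset ℕ) (hG : G ⊆ fac (pr N \ P) r) :
    ∑ g ∈ G, ((bp P z (x / g)).card : ℝ) ≤ κ * ((RR P (r + 1) x).card : ℝ) := by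
  classical
  set S : Finset (Σ _ : ℕ, ℕ) := G.sigma (fun g => bp P z (x / g)) with hS
  have hScard : (S.card : ℝ) = ∑ g ∈ G, ((bp P z (x / g)).card : ℝ) := by
    rw [hS, Finset.card_sigma]; push_cast; rfl
  rw [← hScard]
  set f : (Σ _ : ℕ, ℕ) → ℕ := fun s => s.1 * s.2 with hf
  have hbasic : ∀ s ∈ S, s.1 ∈ fac (pr N \ P) r ∧ s.2.Prime ∧ z < (s.2 : ℝ) ∧ s.2 ∉ P ∧
      0 < s.1 ∧ ((s.1 * s.2 : ℕ) : ℝ) ≤ x := by
    intro s hs
    rw [hS, Finset.mem_sigma] at hs
    obtain ⟨h1, h2⟩ := hs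
    unfold bp at h2
    rw [Finset.mem_filter, Finset.mem_Icc] at h2
    obtain ⟨⟨h3, h4⟩, h5, h6, h7⟩ := h2
    have hg := hG h1
    have hg0 : 0 < s.1 := by
      have := (mem_fac.mp hg).1
      exact Nat.pos_of_ne_zero (Nat.ne_zero_of_mem_factoredNumbers this)
    refine ⟨hg, h5, h6, h7, hg0, ?_⟩
    have hg0' : (0 : ℝ) < s.1 := by exact_mod_cast hg0
    have h8 : (s.2 : ℝ) ≤ x / s.1 := (Nat.le_floor_iff (by positivity)).mp h4
    rw [le_div_iff₀ hg0'] at h8
    push_cast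
    linarith
  have himg : S.image f ⊆ RR P (r + 1) x := by
    intro l hl
    rw [Finset.mem_image] at hl
    obtain ⟨s, hs, rfl⟩ := hl
    obtain ⟨hg, hp, hzp, hpP, hg0, hle⟩ := hbasic s hs
    unfold RR
    rw [Finset.mem_filter, Finset.mem_Icc]
    refine ⟨⟨Nat.mul_pos hg0 hp.pos, Nat.le_floor hle⟩, ?_, ?_⟩
    · simp only [hf]
      rw [cardFactors_mul (by omega) hp.ne_zero, (mem_fac.mp hg).2,
        cardFactors_apply_prime hp]
    · intro q hq hdvd
      have hqp := hP q hq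
      simp only [hf] at hdvd
      rcases (Nat.Prime.dvd_mul hqp).mp hdvd with h | h
      · have h1 := (mem_fac.mp hg).1
        rw [Nat.mem_factoredNumbers'] at h1
        have := h1 q hqp h
        rw [Finset.mem_sdiff] at this
        exact this.2 hq
      · have := (Nat.prime_dvd_prime_iff_eq hqp hp).mp h
        rw [this] at hq
        exact hpP hq
  have hfib : ∀ l ∈ S.image f, (S.filter (fun s => f s = l)).card ≤ ⌊κ⌋₊ := by
    intro l hl
    rw [Finset.mem_image] at hl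
    obtain ⟨s0, hs0, hs0l⟩ := hl
    obtain ⟨hg, hp, hzp, hpP, hg0, hle⟩ := hbasic s0 hs0
    have hl0 : 0 < l := by rw [← hs0l]; exact Nat.mul_pos hg0 hp.pos
    have hlN : (l : ℝ) ≤ N := by
      rw [← hs0l]
      exact le_trans hle hxN
    have hb := card_big_primes hl0 hz hlN hN
    apply Nat.le_floor
    refine le_trans ?_ hb
    have : (S.filter (fun s => f s = l)).card ≤
        (l.primeFactors.filter (fun p : ℕ => z < (p : ℝ))).card := by
      apply Finset.card_le_card_of_injOn (fun s => s.2)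
      · intro s hs
        rw [Finset.mem_coe, Finset.mem_filter] at hs
        obtain ⟨hsS, hsl⟩ := hs
        obtain ⟨hg, hp, hzp, hpP, hg0, hle⟩ := hbasic s hsS
        rw [Finset.mem_coe, Finset.mem_filter, Nat.mem_primeFactors]
        refine ⟨⟨hp, ?_, by omega⟩, hzp⟩
        rw [← hsl]
        exact Dvd.intro_left _ rfl
      · intro s hs t ht hst
        rw [Finset.mem_coe, Finset.mem_filter] at hs ht
        obtain ⟨hsS, hsl⟩ := hs
        obtain ⟨htS, htl⟩ := ht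
        obtain ⟨hg, hp, hzp, hpP, hg0, hle⟩ := hbasic s hsS
        obtain ⟨a, b⟩ := s
        obtain ⟨a', b'⟩ := t
        simp only at hst
        subst hst
        simp only [hf] at hsl htl
        have : a * b = a' * b := by rw [hsl, htl]
        have := Nat.eq_of_mul_eq_mul_right hp.pos this
        subst this
        rfl
    exact_mod_cast this
  have h1 := Finset.card_le_mul_card_image S ⌊κ⌋₊ hfib
  have h2 := Finset.card_le_card himg
  have h3 : (S.card : ℝ) ≤ (⌊κ⌋₊ : ℝ) * ((RR P (r + 1) x).card : ℝ) := by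
    have : S.card ≤ ⌊κ⌋₊ * (RR P (r + 1) x).card := le_trans h1 (Nat.mul_le_mul_left _ h2)
    exact_mod_cast this
  refine le_trans h3 ?_
  gcongr
  exact Nat.floor_le hκ.le

theorem sum_small {ε : ℝ} (hε : 0 < ε) (hε1 : ε ≤ 1) {N : ℕ} (hN : 2 ≤ N) {C : ℝ} (hC : 0 ≤ C)
    (hCN : C ≤ ε / 2 * Real.log N) {Q : Finset ℕ} {r : ℕ} {ρ : ℝ} (hρ : ρ ≤ 1 - ε) (hρ0 : 0 ≤ ρ)
    (hav : ∑ g ∈ fac Q r, Real.log g / g ≤ ρ * (Real.log N + C) * hh Q r) :
    ε / 4 * hh Q r ≤
      ∑ g ∈ (fac Q r).filter (fun g : ℕ => (g : ℝ) ≤ (N : ℝ) ^ (1 - ε / 4)), (1 : ℝ) / g := by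
  have hN0 : (0 : ℝ) < N := by positivity
  have hlog : 0 < Real.log N := Real.log_pos (by exact_mod_cast (by omega : 1 < N))
  have hhnn : 0 ≤ hh Q r := by
    unfold hh
    exact Finset.sum_nonneg (fun i _ => by positivity)
  have hsplit : hh Q r =
      ∑ g ∈ (fac Q r).filter (fun g : ℕ => (g : ℝ) ≤ (N : ℝ) ^ (1 - ε / 4)), (1 : ℝ) / g +
      ∑ g ∈ (fac Q r).filter (fun g : ℕ => ¬ (g : ℝ) ≤ (N : ℝ) ^ (1 - ε / 4)), (1 : ℝ) / g := by
    unfold hh
    rw [Finset.sum_filter_add_sum_filter_not]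
  have hbig : (1 - ε / 4) * Real.log N *
      ∑ g ∈ (fac Q r).filter (fun g : ℕ => ¬ (g : ℝ) ≤ (N : ℝ) ^ (1 - ε / 4)), (1 : ℝ) / g ≤
      ∑ g ∈ fac Q r, Real.log g / g := by
    rw [Finset.mul_sum]
    have h1 : ∑ g ∈ (fac Q r).filter (fun g : ℕ => ¬ (g : ℝ) ≤ (N : ℝ) ^ (1 - ε / 4)),
        (1 - ε / 4) * Real.log N * ((1 : ℝ) / g) ≤
        ∑ g ∈ (fac Q r).filter (fun g : ℕ => ¬ (g : ℝ) ≤ (N : ℝ) ^ (1 - ε / 4)), Real.log g / g := by
      apply Finset.sum_le_sum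
      intro g hg
      rw [Finset.mem_filter, not_le] at hg
      have hpos : 0 < (N : ℝ) ^ (1 - ε / 4) := Real.rpow_pos_of_pos hN0 _
      have hg0 : (0 : ℝ) < g := lt_trans hpos hg.2
      have hl : (1 - ε / 4) * Real.log N ≤ Real.log g := by
        rw [← Real.log_rpow hN0]
        exact Real.log_le_log hpos hg.2.le
      rw [mul_one_div]
      gcongr
    refine le_trans h1 ?_
    apply Finset.sum_le_sum_of_subset_of_nonneg (Finset.filter_subset _ _)
    intro g hg _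
    have : (0:ℝ) ≤ Real.log g := Real.log_natCast_nonneg g
    positivity
  have hb2 : ρ * (Real.log N + C) ≤ (1 - ε / 4) * (1 - ε / 4) * Real.log N := by
    have h1 : ρ * (Real.log N + C) ≤ (1 - ε) * (Real.log N + ε / 2 * Real.log N) := by
      have : 0 ≤ Real.log N + C := by positivity
      have hε2 : 0 ≤ 1 - ε := by linarith
      calc ρ * (Real.log N + C) ≤ (1 - ε) * (Real.log N + C) := by gcongr
        _ ≤ _ := by gcongr
    refine le_trans h1 ?_
    nlinarith [mul_pos hε hlog, mul_pos (mul_pos hε hε) hlog]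
  set A := ∑ g ∈ (fac Q r).filter (fun g : ℕ => (g : ℝ) ≤ (N : ℝ) ^ (1 - ε / 4)), (1 : ℝ) / g
  set B := ∑ g ∈ (fac Q r).filter (fun g : ℕ => ¬ (g : ℝ) ≤ (N : ℝ) ^ (1 - ε / 4)), (1 : ℝ) / g
  have h5 : (1 - ε / 4) * Real.log N * B ≤ (1 - ε / 4) * Real.log N * ((1 - ε / 4) * hh Q r) := by
    calc (1 - ε / 4) * Real.log N * B ≤ _ := hbig
      _ ≤ _ := hav
      _ ≤ (1 - ε / 4) * (1 - ε / 4) * Real.log N * hh Q r := by gcongr
      _ = _ := by ring
  have h6 : 0 < (1 - ε / 4) * Real.log N := by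
    apply mul_pos _ hlog
    linarith
  have h7 := le_of_mul_le_mul_left h5 h6
  linarith

theorem lower_count {ε : ℝ} (hε : 0 < ε) (hε1 : ε ≤ 1) : ∃ c : ℝ, 0 < c ∧
    ∀ (P : Finset ℕ) (Y : ℝ), (∀ p ∈ P, p.Prime) → 1 ≤ Y → ∃ N₀ : ℕ, ∀ N : ℕ, N₀ ≤ N →
    ∀ (r : ℕ) (x ρ : ℝ), (N : ℝ) / Y ≤ x → x ≤ N → 0 ≤ ρ → ρ ≤ 1 - ε →
    (r : ℝ) ≤ ρ * p1 (pr N \ P) →
    c * (x / Real.log N) * hh (pr N \ P) r ≤ ((RR P (r + 1) x).card : ℝ) := by
  obtain ⟨C, hC, hlogavg⟩ := log_avg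
  set δ : ℝ := ε / 4 with hδ
  have hδ0 : 0 < δ := by positivity
  have hδ1 : δ ≤ 1 / 4 := by rw [hδ]; linarith
  refine ⟨δ ^ 2 / 16, by positivity, ?_⟩
  intro P Y hP hY
  -- eventual inequalities
  have ev1 : ∀ᶠ N : ℕ in Filter.atTop, C ≤ ε / 2 * Real.log N := by
    have h1 : Filter.Tendsto (fun N : ℕ => ε / 2 * Real.log (N : ℝ)) Filter.atTop Filter.atTop :=
      (Real.tendsto_log_atTop.comp tendsto_natCast_atTop_atTop).const_mul_atTop (by positivity)
    exact h1.eventually_ge_atTop C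
  have ev2 : ∀ᶠ N : ℕ in Filter.atTop, Y ≤ (N : ℝ) ^ (δ / 4) := by
    have h1 : Filter.Tendsto (fun N : ℕ => (N : ℝ) ^ (δ / 4)) Filter.atTop Filter.atTop :=
      (tendsto_rpow_atTop (by positivity)).comp tendsto_natCast_atTop_atTop
    exact h1.eventually_ge_atTop Y
  have ev3 : ∀ᶠ N : ℕ in Filter.atTop, (8 : ℝ) ≤ (N : ℝ) ^ (3 * δ / 4) := by
    have h1 : Filter.Tendsto (fun N : ℕ => (N : ℝ) ^ (3 * δ / 4)) Filter.atTop Filter.atTop :=
      (tendsto_rpow_atTop (by positivity)).comp tendsto_natCast_atTop_atTop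
    exact h1.eventually_ge_atTop 8
  have ev4 : ∀ᶠ N : ℕ in Filter.atTop,
      8 * Real.log N * ((N : ℝ) ^ (δ / 2) + P.card) ≤ (N : ℝ) ^ (3 * δ / 4) := by
    have h1 : ∀ᶠ t : ℝ in Filter.atTop, Real.log t ≤ (1 / (8 * (1 + P.card))) * t ^ (δ / 4) := by
      have := (isLittleO_log_rpow_atTop (r := δ / 4) (by positivity)).bound
        (c := 1 / (8 * (1 + P.card))) (by positivity)
      filter_upwards [this, Filter.eventually_ge_atTop 1] with t ht ht1
      rw [Real.norm_of_nonneg (Real.log_nonneg ht1), Real.norm_of_nonneg (by positivity)] at ht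
      exact ht
    have h2 := tendsto_natCast_atTop_atTop (R := ℝ) |>.eventually h1
    filter_upwards [h2, Filter.eventually_ge_atTop 1] with N hN hN1
    have hN1' : (1 : ℝ) ≤ N := by exact_mod_cast hN1
    have hN0 : (0 : ℝ) < N := by linarith
    have e1 : (N : ℝ) ^ (3 * δ / 4) = (N : ℝ) ^ (δ / 4) * (N : ℝ) ^ (δ / 2) := by
      rw [← Real.rpow_add hN0]; congr 1; ring
    have e2 : (1 : ℝ) ≤ (N : ℝ) ^ (δ / 2) := Real.one_le_rpow hN1' (by positivity)
    have e3 : (0 : ℝ) ≤ Real.log N := Real.log_nonneg hN1'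
    have hPc : (0 : ℝ) < 1 + P.card := by positivity
    have e4 : (N : ℝ) ^ (δ / 2) + P.card ≤ (1 + P.card) * (N : ℝ) ^ (δ / 2) := by
      nlinarith [e2, (Nat.cast_nonneg P.card : (0 : ℝ) ≤ (P.card : ℝ))]
    calc 8 * Real.log N * ((N : ℝ) ^ (δ / 2) + P.card)
        ≤ 8 * ((1 / (8 * (1 + P.card))) * (N : ℝ) ^ (δ / 4)) * ((1 + P.card) * (N : ℝ) ^ (δ / 2)) := by
          gcongr
      _ = (N : ℝ) ^ (δ / 4) * (N : ℝ) ^ (δ / 2) := by
          field_simp
      _ = _ := e1.symm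
  obtain ⟨N₀, hN₀⟩ := Filter.eventually_atTop.mp
    (ev1.and (ev2.and (ev3.and (ev4.and (Filter.eventually_ge_atTop 2)))))
  refine ⟨N₀, fun N hN r x ρ hNx hxN hρ0 hρ hr => ?_⟩
  obtain ⟨g1, g2, g3, g4, g5⟩ := hN₀ N hN
  have hN0 : (0 : ℝ) < N := by
    have : 0 < N := by omega
    exact_mod_cast this
  have hN1 : (1 : ℝ) < N := by exact_mod_cast (by omega : 1 < N)
  have hlogN : 0 < Real.log N := Real.log_pos hN1
  have hx0 : 0 < x := lt_of_lt_of_le (by positivity) hNx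
  have hav := hlogavg N (pr N \ P) (by omega) Finset.sdiff_subset r ρ hρ0 (by linarith) hr
  have hs := sum_small hε hε1 g5 hC g1 hρ hρ0 hav
  rw [← hδ] at hs
  set G := (fac (pr N \ P) r).filter (fun g : ℕ => (g : ℝ) ≤ (N : ℝ) ^ (1 - δ)) with hG
  have hz : (1 : ℝ) < (N : ℝ) ^ (δ / 2) := Real.one_lt_rpow hN1 (by positivity)
  have hNz : (N : ℝ) = ((N : ℝ) ^ (δ / 2)) ^ (2 / δ) := by
    rw [← Real.rpow_mul hN0.le]
    have : δ / 2 * (2 / δ) = 1 := by field_simp
    rw [this, Real.rpow_one]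
  have hcp := count_pairs hP hx0 hxN hz hNz (by positivity) G (Finset.filter_subset _ _)
  have hlow : x / (8 * Real.log N) * ∑ g ∈ G, (1 : ℝ) / g ≤
      ∑ g ∈ G, ((bp P ((N : ℝ) ^ (δ / 2)) (x / g)).card : ℝ) := by
    rw [Finset.mul_sum]
    apply Finset.sum_le_sum
    intro g hg
    rw [hG, Finset.mem_filter] at hg
    obtain ⟨hgf, hgN⟩ := hg
    have hg0 : 0 < g := Nat.pos_of_ne_zero (Nat.ne_zero_of_mem_factoredNumbers (mem_fac.mp hgf).1)
    have hg0' : (0 : ℝ) < g := by exact_mod_cast hg0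
    have hg1' : (1 : ℝ) ≤ g := by exact_mod_cast hg0
    have hy1 : (N : ℝ) ^ (3 * δ / 4) ≤ x / g := by
      rw [le_div_iff₀ hg0']
      have hY0 : 0 < Y := by linarith
      calc (N : ℝ) ^ (3 * δ / 4) * g ≤ (N : ℝ) ^ (3 * δ / 4) * (N : ℝ) ^ (1 - δ) := by gcongr
        _ = (N : ℝ) / (N : ℝ) ^ (δ / 4) := by
            rw [← Real.rpow_add hN0, eq_div_iff (by positivity), ← Real.rpow_add hN0]
            have : 3 * δ / 4 + (1 - δ) + δ / 4 = 1 := by ring
            rw [this, Real.rpow_one]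
        _ ≤ (N : ℝ) / Y := by gcongr
        _ ≤ x := hNx
    have hy8 : 8 ≤ x / g := le_trans g3 hy1
    have hyN : x / g ≤ N := by
      calc x / g ≤ x / 1 := by gcongr
        _ = x := by ring
        _ ≤ N := hxN
    have hcb := card_bp P (z := (N : ℝ) ^ (δ / 2)) (by positivity) hy8
    refine le_trans ?_ hcb
    have hlogy : 0 < Real.log (x / g) := Real.log_pos (by linarith)
    have hlogy2 : Real.log (x / g) ≤ Real.log N := Real.log_le_log (by linarith) hyN
    have k1 : (x / g) / (4 * Real.log N) ≤ (x / g) / (4 * Real.log (x / g)) := by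
      gcongr
    have k2 : (N : ℝ) ^ (δ / 2) + P.card ≤ (x / g) / (8 * Real.log N) := by
      rw [le_div_iff₀ (by positivity)]
      calc ((N : ℝ) ^ (δ / 2) + P.card) * (8 * Real.log N)
          = 8 * Real.log N * ((N : ℝ) ^ (δ / 2) + P.card) := by ring
        _ ≤ _ := g4
        _ ≤ _ := hy1
    have k3 : x / (8 * Real.log N) * (1 / g) = (x / g) / (8 * Real.log N) := by
      field_simp
    have k4 : (x / g) / (4 * Real.log N) = (x / g) / (8 * Real.log N) + (x / g) / (8 * Real.log N) := by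
      field_simp
      norm_num
    rw [k3]
    linarith
  have hfin : x / (8 * Real.log N) * (δ * hh (pr N \ P) r) ≤
      2 / δ * ((RR P (r + 1) x).card : ℝ) := by
    calc x / (8 * Real.log N) * (δ * hh (pr N \ P) r)
        ≤ x / (8 * Real.log N) * ∑ g ∈ G, (1 : ℝ) / g := by gcongr
      _ ≤ _ := hlow
      _ ≤ _ := hcp
  have hfin2 : δ / 2 * (x / (8 * Real.log N) * (δ * hh (pr N \ P) r)) ≤
      δ / 2 * (2 / δ * ((RR P (r + 1) x).card : ℝ)) := by gcongr
  have e0 : δ / 2 * (2 / δ) = 1 := by field_simp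
  have e1 : δ / 2 * (2 / δ * ((RR P (r + 1) x).card : ℝ)) = ((RR P (r + 1) x).card : ℝ) := by
    rw [← mul_assoc, e0, one_mul]
  have e2 : δ / 2 * (x / (8 * Real.log N) * (δ * hh (pr N \ P) r)) =
      δ ^ 2 / 16 * (x / Real.log N) * hh (pr N \ P) r := by
    generalize hh (pr N \ P) r = H
    field_simp
    norm_num
    try ring
  rw [e1, e2] at hfin2
  exact hfin2

end Pool.Agent.Helper256.KM
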