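import Mathlib
import Pool.Agent.Helper256.KM.Defs
import Pool.Agent.Helper256.KM.A1
import Pool.Agent.Helper256.KM.A3

set_option autoImplicit false

namespace Pool.Agent.Helper256.KM

open Finset ArithmeticFunction

theorem aux5824_p1 (Q : Finset ℕ) : 0 ≤ p1 Q := by
  unfold p1
  exact Finset.sum_nonneg (fun p _ => by positivity)

theorem hh_ge {Q : Finset ℕ} (hQ : ∀ p ∈ Q, p.Prime) (r : ℕ) :
    p1 Q ^ r / (r.factorial : ℝ) ≤ hh Q r := by
  induction r with
  | zero => simp [hh_zero]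
  | succ n ih =>
    have h3 := h1 hQ n
    have h4 := aux5824_p1 Q
    have h5 : (0 : ℝ) < (n : ℝ) + 1 := by positivity
    have h6 : (0 : ℝ) < (n.factorial : ℝ) := by positivity
    have h7 : p1 Q ^ (n + 1) / ((n + 1).factorial : ℝ) =
        (p1 Q * (p1 Q ^ n / (n.factorial : ℝ))) / ((n : ℝ) + 1) := by
      rw [Nat.factorial_succ]
      push_cast
      field_simp
      ring
    rw [h7, div_le_iff₀ h5]
    calc p1 Q * (p1 Q ^ n / (n.factorial : ℝ)) ≤ p1 Q * hh Q n :=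
          mul_le_mul_of_nonneg_left ih h4
      _ ≤ (n + 1) * hh Q (n + 1) := h3
      _ = _ := by ring

theorem aux5824_le {Q : Finset ℕ} (hQ : ∀ p ∈ Q, p.Prime) {r : ℕ} (h : (r : ℝ) ≤ p1 Q) :
    ∀ j ≤ r, hh Q j ≤ (p1 Q + 1) ^ j / (j.factorial : ℝ) := by
  intro j
  induction j with
  | zero => intro _; simp [hh_zero]
  | succ n ih =>
    intro hn
    have hn' : ((n + 1 : ℕ) : ℝ) ≤ p1 Q := le_trans (by exact_mod_cast hn) h
    have h3 := h2 hQ hn'
    have h4 := aux5824_p1 Q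
    have h5 : (0 : ℝ) < ((n + 1 : ℕ) : ℝ) := by positivity
    have h6 : (0 : ℝ) < (n.factorial : ℝ) := by positivity
    have h7 : (p1 Q + 1) ^ (n + 1) / ((n + 1).factorial : ℝ) =
        ((p1 Q + 1) * ((p1 Q + 1) ^ n / (n.factorial : ℝ))) / ((n + 1 : ℕ) : ℝ) := by
      rw [Nat.factorial_succ]
      push_cast
      field_simp
      ring
    rw [h7, le_div_iff₀ h5]
    calc hh Q (n + 1) * ((n + 1 : ℕ) : ℝ) = ((n + 1 : ℕ) : ℝ) * hh Q (n + 1) := mul_comm _ _
      _ ≤ (p1 Q + 1) * hh Q n := h3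
      _ ≤ _ := mul_le_mul_of_nonneg_left (ih (by omega)) (by linarith)

theorem hh_le {Q : Finset ℕ} (hQ : ∀ p ∈ Q, p.Prime) {r : ℕ} (h : (r : ℝ) ≤ p1 Q) :
    hh Q r ≤ Real.exp 1 * (p1 Q ^ r / (r.factorial : ℝ)) := by
  rcases Nat.eq_zero_or_pos r with rfl | hr
  · simp [hh_zero]
  have h3 := aux5824_le hQ h r le_rfl
  have hr' : (1 : ℝ) ≤ r := by exact_mod_cast hr
  have hp : 0 < p1 Q := by linarith
  have h6 : (0 : ℝ) < (r.factorial : ℝ) := by positivity
  have h4 : (p1 Q + 1) ^ r ≤ Real.exp 1 * p1 Q ^ r := by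
    have e1 : p1 Q + 1 ≤ p1 Q * Real.exp (1 / p1 Q) := by
      have := Real.add_one_le_exp (1 / p1 Q)
      calc p1 Q + 1 = p1 Q * (1 / p1 Q + 1) := by field_simp; ring
        _ ≤ _ := mul_le_mul_of_nonneg_left this hp.le
    calc (p1 Q + 1) ^ r ≤ (p1 Q * Real.exp (1 / p1 Q)) ^ r :=
          pow_le_pow_left₀ (by linarith) e1 r
      _ = Real.exp (r * (1 / p1 Q)) * p1 Q ^ r := by
          rw [mul_pow, ← Real.exp_nat_mul]; ring
      _ ≤ Real.exp 1 * p1 Q ^ r := by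
          apply mul_le_mul_of_nonneg_right _ (by positivity)
          apply Real.exp_le_exp.mpr
          rw [mul_one_div, div_le_one hp]
          exact h
  calc hh Q r ≤ (p1 Q + 1) ^ r / (r.factorial : ℝ) := h3
    _ ≤ (Real.exp 1 * p1 Q ^ r) / (r.factorial : ℝ) := div_le_div_of_nonneg_right h4 h6.le
    _ = _ := by ring

end Pool.Agent.Helper256.KM
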