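import Mathlib
import Pool.Agent.Helper256.KM.Defs
import Pool.Agent.Helper256.KM.B2
import Pool.Agent.Helper256.KM.HP
import Pool.Agent.Helper256.KM.Mertens

set_option autoImplicit false

namespace Pool.Agent.Helper256.KM

open Finset ArithmeticFunction

theorem exp_tenth : Real.exp (1 / 10) ≤ 1.11 := by
  have h1 : Real.exp (1 / 10) ^ 10 < (1.11 : ℝ) ^ 10 := by
    rw [← Real.exp_nat_mul]
    have : ((10 : ℕ) : ℝ) * (1 / 10) = 1 := by norm_num
    rw [this]
    refine Real.exp_one_lt_d9.trans ?_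
    norm_num
  exact (lt_of_pow_lt_pow_left₀ 10 (by norm_num) h1).le

/-- an upper bound for the factorial -/
theorem fact_le (s : ℕ) : (s.factorial : ℝ) * Real.exp s ≤ ((s : ℝ) + 1) ^ (s + 1) := by
  induction s with
  | zero => simp
  | succ s ih =>
    have hs : (0 : ℝ) ≤ s := Nat.cast_nonneg s
    have h1 : Real.exp 1 ≤ (((s : ℝ) + 2) / (s + 1)) ^ (s + 2) := by
      have hpos : (0 : ℝ) < ((s : ℝ) + 2) / (s + 1) := by positivity
      have h2 : 1 / ((s : ℝ) + 2) ≤ Real.log (((s : ℝ) + 2) / (s + 1)) := by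
        have h3 := Real.one_sub_inv_le_log_of_pos hpos
        have h4 : 1 - (((s : ℝ) + 2) / (s + 1))⁻¹ = 1 / ((s : ℝ) + 2) := by
          rw [inv_div]
          field_simp
          ring
        linarith
      calc Real.exp 1 = Real.exp (1 / ((s : ℝ) + 2) * ((s + 2 : ℕ) : ℝ)) := by
            congr 1
            push_cast
            field_simp
        _ ≤ Real.exp (Real.log (((s : ℝ) + 2) / (s + 1)) * ((s + 2 : ℕ) : ℝ)) := by
            apply Real.exp_le_exp.mpr
            apply mul_le_mul_of_nonneg_right h2 (Nat.cast_nonneg _)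
        _ = (((s : ℝ) + 2) / (s + 1)) ^ (s + 2) := by
            rw [mul_comm, Real.exp_nat_mul, Real.exp_log hpos]
    have h5 : (((s + 1).factorial : ℕ) : ℝ) * Real.exp ((s + 1 : ℕ) : ℝ)
        = ((s : ℝ) + 1) * ((s.factorial : ℝ) * Real.exp s) * Real.exp 1 := by
      rw [Nat.factorial_succ]
      push_cast
      rw [Real.exp_add]
      ring
    rw [h5]
    calc ((s : ℝ) + 1) * ((s.factorial : ℝ) * Real.exp s) * Real.exp 1
        ≤ ((s : ℝ) + 1) * ((s : ℝ) + 1) ^ (s + 1) * (((s : ℝ) + 2) / (s + 1)) ^ (s + 2) := by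
          apply mul_le_mul _ h1 (Real.exp_pos _).le (by positivity)
          exact mul_le_mul_of_nonneg_left ih (by positivity)
      _ = (((s + 1 : ℕ) : ℝ) + 1) ^ (s + 1 + 1) := by
          rw [div_pow]
          push_cast
          have : ((s : ℝ) + 1) ^ (s + 2) ≠ 0 := by positivity
          field_simp
          ring

set_option maxHeartbeats 4000000 in
theorem card_AA_lower : ∃ (c X₀ : ℝ) (N₀ : ℕ), 0 < c ∧ 4 ≤ X₀ ∧ ∀ N : ℕ, N₀ ≤ N → ∀ (m : ℕ) (X : ℝ),
    9 / 10 * Real.log (Real.log N) ≤ m → X = (N : ℝ) / 2 ^ m → X₀ ≤ X →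
    c * X * (Real.log X) ^ (11 / 20 : ℝ) ≤ ((AA N m).card : ℝ) := by
  obtain ⟨c₁, hc₁, H⟩ := lower_count (ε := 1 / 20) (by norm_num) (by norm_num)
  obtain ⟨N₁, H⟩ := H {2} 2 (by intro p hp; rw [Finset.mem_singleton] at hp; rw [hp]; exact Nat.prime_two) (by norm_num)
  obtain ⟨C, hC⟩ := mertens_inv
  have hC0 : 0 ≤ C := (abs_nonneg _).trans (hC 3 le_rfl)
  set C' : ℝ := C + 1 / 2 with hC'
  set l₀ : ℝ := 1000 * C' + 10 with hl₀
  refine ⟨c₁ * (6 / 100) / (4 * Real.exp 3), max (max 4 (N₁ : ℝ)) (Real.exp (Real.exp l₀)), 1,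
    by positivity, (le_max_left _ _).trans (le_max_left _ _), ?_⟩
  intro N hN m X hm hX hX₀
  have hX4 : 4 ≤ X := ((le_max_left _ _).trans (le_max_left _ _)).trans hX₀
  have hXN₁ : (N₁ : ℝ) ≤ X := ((le_max_right _ _).trans (le_max_left _ _)).trans hX₀
  have hXe : Real.exp (Real.exp l₀) ≤ X := (le_max_right _ _).trans hX₀
  have hX0 : 0 < X := by linarith
  have hlogX : Real.exp l₀ ≤ Real.log X := by
    rw [Real.le_log_iff_exp_le hX0]; exact hXe
  have hlogX0 : 0 < Real.log X := (Real.exp_pos _).trans_le hlogX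
  set l := Real.log (Real.log X) with hl
  have hl0 : l₀ ≤ l := by
    rw [hl, Real.le_log_iff_exp_le hlogX0]; exact hlogX
  have hexpl : Real.exp l = Real.log X := Real.exp_log hlogX0
  have hl10 : 10 ≤ l := by linarith
  have hlC : 1000 * C' ≤ l := by linarith
  have hC'0 : 0 ≤ C' := by linarith
  -- r
  set r := ⌊9 / 10 * l⌋₊ with hr
  have hr1 : (r : ℝ) ≤ 9 / 10 * l := Nat.floor_le (by linarith)
  have hr2 : 9 / 10 * l - 1 < r := by
    have := Nat.lt_floor_add_one (9 / 10 * l)
    linarith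
  have hr8 : (8 : ℝ) ≤ r := by linarith
  have hr1' : 1 ≤ r := by
    have : (1 : ℝ) ≤ r := by linarith
    exact_mod_cast this
  have hXN : X ≤ N := by
    rw [hX]
    apply div_le_self (Nat.cast_nonneg _)
    exact one_le_pow₀ (by norm_num)
  have hrm : r ≤ m := by
    have h1 : Real.log X ≤ Real.log N := Real.log_le_log hX0 hXN
    have h2 : l ≤ Real.log (Real.log N) := Real.log_le_log hlogX0 h1
    have : (r : ℝ) ≤ m := by linarith
    exact_mod_cast this
  -- y
  set y : ℝ := X * 2 ^ r with hy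
  have hy2 : y * 2 ^ (m - r) = N := by
    rw [hy, hX, mul_assoc, ← pow_add, Nat.add_sub_cancel' hrm]
    field_simp
  have h2r : (2 : ℝ) ≤ 2 ^ r := by
    calc (2 : ℝ) = 2 ^ 1 := (pow_one _).symm
      _ ≤ 2 ^ r := pow_le_pow_right₀ (by norm_num) hr1'
  have hyX : 2 * X ≤ y := by
    rw [hy]; nlinarith
  set n₀ := ⌊y⌋₊ with hn₀
  have hn1 : (n₀ : ℝ) ≤ y := Nat.floor_le (by linarith)
  have hn2 : y - 1 < n₀ := by
    have := Nat.lt_floor_add_one y
    linarith
  have hn3 : X ≤ n₀ := by linarith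
  have hn4 : y / 2 ≤ n₀ := by linarith
  have hnN₁ : N₁ ≤ n₀ := by
    have : (N₁ : ℝ) ≤ n₀ := by linarith
    exact_mod_cast this
  have hn3' : 3 ≤ n₀ := by
    have : (3 : ℝ) ≤ n₀ := by linarith
    exact_mod_cast this
  -- injection
  have hinj : (RR {2} r (n₀ : ℝ)).card ≤ (AA N m).card := by
    apply Finset.card_le_card_of_injOn (fun n => 2 ^ (m - r) * n)
    · intro n hn
      have hn' := Finset.mem_coe.mp hn
      unfold RR at hn'
      rw [Finset.mem_filter, Finset.mem_Icc, Nat.floor_natCast] at hn'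
      obtain ⟨⟨ha, hb⟩, hc, hd⟩ := hn'
      apply Finset.mem_coe.mpr
      unfold AA
      rw [Finset.mem_filter, Finset.mem_Icc]
      refine ⟨⟨?_, ?_⟩, ?_⟩
      · exact Nat.mul_pos (by positivity) ha
      · have h1 : ((2 ^ (m - r) * n : ℕ) : ℝ) ≤ N := by
          push_cast
          have h2 : (n : ℝ) ≤ y := (by exact_mod_cast hb : (n : ℝ) ≤ n₀).trans hn1
          calc (2 : ℝ) ^ (m - r) * n ≤ 2 ^ (m - r) * y := mul_le_mul_of_nonneg_left h2 (by positivity)
            _ = N := by rw [mul_comm]; exact hy2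
        exact_mod_cast h1
      · rw [cardFactors_mul (by positivity) (by omega), cardFactors_apply_prime_pow Nat.prime_two, hc]
        omega
    · intro n _ n' _ h
      exact Nat.eq_of_mul_eq_mul_left (by positivity) h
  -- p1
  have hp1 : l - C' ≤ p1 (pr n₀ \ {2}) := by
    have h1 := hC n₀ hn3'
    have h2 : Real.log X ≤ Real.log n₀ := Real.log_le_log hX0 hn3
    have h3 : l ≤ Real.log (Real.log n₀) := Real.log_le_log hlogX0 h2
    have h4 : p1 (pr n₀) = ∑ p ∈ (Finset.Icc 1 n₀).filter Nat.Prime, (1 : ℝ) / p := rfl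
    have h5 : p1 (pr n₀ \ {2}) + 1 / 2 = p1 (pr n₀) := by
      unfold p1
      have h6 : ({2} : Finset ℕ) ⊆ pr n₀ := by
        rw [Finset.singleton_subset_iff]
        unfold pr
        rw [Finset.mem_filter, Finset.mem_Icc]
        exact ⟨⟨by norm_num, by omega⟩, Nat.prime_two⟩
      rw [← Finset.sum_sdiff h6, Finset.sum_singleton]
      norm_num
    rw [← h4] at h1
    have := abs_le.mp h1
    linarith [this.1]
  set q := l - C' with hq
  have hq0 : 999 / 1000 * l ≤ q := by rw [hq]; linarith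
  have hqpos : 0 < q := by linarith
  have hql : q ≤ l := by rw [hq]; linarith
  obtain ⟨s, hs⟩ : ∃ s, r = s + 1 := ⟨r - 1, by omega⟩
  have hsr : (s : ℝ) + 1 = r := by rw [hs]; push_cast; ring
  have hcount := H n₀ hnN₁ s n₀ (19 / 20) (by
      have : (0 : ℝ) ≤ n₀ := Nat.cast_nonneg _
      linarith) le_rfl (by norm_num) (by norm_num) (by nlinarith)
  rw [← hs] at hcount
  have hhq : q ^ s / (s.factorial : ℝ) ≤ hh (pr n₀ \ {2}) s := by
    refine le_trans ?_ (hh_ge (Q := pr n₀ \ {2}) (by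
      intro p hp
      rw [Finset.mem_sdiff] at hp
      exact (Finset.mem_filter.mp hp.1).2) s)
    apply div_le_div_of_nonneg_right _ (Nat.cast_nonneg _)
    exact pow_le_pow_left₀ hqpos.le hp1 s
  -- lower bound for q^s / s!
  have hmain : Real.exp (11 / 10 * r) / (Real.exp 1 * l) ≤ q ^ s / (s.factorial : ℝ) := by
    have hfs := fact_le s
    have hf0 : (0 : ℝ) < (s.factorial : ℝ) := by exact_mod_cast Nat.factorial_pos s
    rw [div_le_div_iff₀ (by positivity) hf0]
    have h1 : r * Real.exp (1 / 10) ≤ q := by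
      have h2 : (r : ℝ) * Real.exp (1 / 10) ≤ 9 / 10 * l * 1.11 :=
        mul_le_mul hr1 exp_tenth (Real.exp_pos _).le (by linarith)
      linarith
    have h3 : ((r : ℝ) * Real.exp (1 / 10)) ^ r ≤ q ^ r := pow_le_pow_left₀ (by positivity) h1 r
    have h4 : Real.exp (11 / 10 * r) = Real.exp s * Real.exp 1 * Real.exp (1 / 10) ^ r := by
      rw [← Real.exp_nat_mul, ← Real.exp_add, ← Real.exp_add]
      congr 1
      rw [← hsr]
      ring
    rw [h4]
    have h5 : (s.factorial : ℝ) * Real.exp s ≤ (r : ℝ) ^ r := by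
      rw [hsr] at hfs
      rw [← hs] at hfs
      exact hfs
    calc Real.exp s * Real.exp 1 * Real.exp (1 / 10) ^ r * (s.factorial : ℝ)
        = ((s.factorial : ℝ) * Real.exp s) * Real.exp (1 / 10) ^ r * Real.exp 1 := by ring
      _ ≤ (r : ℝ) ^ r * Real.exp (1 / 10) ^ r * Real.exp 1 := by
          apply mul_le_mul_of_nonneg_right _ (Real.exp_pos _).le
          exact mul_le_mul_of_nonneg_right h5 (by positivity)
      _ = ((r : ℝ) * Real.exp (1 / 10)) ^ r * Real.exp 1 := by rw [mul_pow]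
      _ ≤ q ^ r * Real.exp 1 := mul_le_mul_of_nonneg_right h3 (Real.exp_pos _).le
      _ = q ^ s * (Real.exp 1 * q) := by rw [hs, pow_succ]; ring
      _ ≤ q ^ s * (Real.exp 1 * l) := by
          apply mul_le_mul_of_nonneg_left _ (by positivity)
          exact mul_le_mul_of_nonneg_left hql (Real.exp_pos _).le
  -- n₀ / log n₀
  have hlogn : Real.log n₀ ≤ 2 * Real.log X := by
    have h1 : Real.log n₀ ≤ Real.log y := Real.log_le_log (by linarith) hn1
    have h2 : Real.log y = Real.log X + r * Real.log 2 := by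
      rw [hy, Real.log_mul hX0.ne' (by positivity), Real.log_pow]
    have h3 : l ≤ Real.log X := by
      rw [hl]; linarith [Real.log_le_sub_one_of_pos hlogX0]
    have h4 : Real.log 2 ≤ 1 := by linarith [Real.log_two_lt_d9]
    have h5 : (r : ℝ) * Real.log 2 ≤ l * 1 :=
      mul_le_mul (by linarith) h4 (Real.log_nonneg (by norm_num)) (by linarith)
    linarith
  have hlogn0 : 0 < Real.log n₀ := Real.log_pos (by linarith)
  have hfrac : y / (4 * Real.log X) ≤ (n₀ : ℝ) / Real.log n₀ := by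
    rw [div_le_div_iff₀ (by positivity) hlogn0]
    calc y * Real.log n₀ ≤ y * (2 * Real.log X) := mul_le_mul_of_nonneg_left hlogn (by linarith)
      _ = (y / 2) * (4 * Real.log X) := by ring
      _ ≤ n₀ * (4 * Real.log X) := mul_le_mul_of_nonneg_right hn4 (by positivity)
  -- final
  have hexp : Real.exp (161 / 100 * l - 2) ≤ 2 ^ r * Real.exp (11 / 10 * r) := by
    have h1 : (2 : ℝ) ^ r = Real.exp (r * Real.log 2) := by
      rw [Real.exp_nat_mul, Real.exp_log (by norm_num)]
    rw [h1, ← Real.exp_add]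
    apply Real.exp_le_exp.mpr
    have h2 := Real.log_two_gt_d9
    have h3 := Real.log_two_lt_d9
    have h4 : (1.793 : ℝ) * r ≤ r * Real.log 2 + 11 / 10 * r := by nlinarith
    nlinarith
  have hlast : 6 / 100 * Real.exp (11 / 20 * l) * l ≤ Real.exp (61 / 100 * l) := by
    have h1 : Real.exp (61 / 100 * l) = Real.exp (11 / 20 * l) * Real.exp (6 / 100 * l) := by
      rw [← Real.exp_add]; congr 1; ring
    rw [h1]
    have h2 : 6 / 100 * l ≤ Real.exp (6 / 100 * l) := by
      have := Real.add_one_le_exp (6 / 100 * l); linarith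
    have h3 := mul_le_mul_of_nonneg_left h2 (Real.exp_pos (11 / 20 * l)).le
    linarith
  have hpow : (Real.log X) ^ (11 / 20 : ℝ) = Real.exp (11 / 20 * l) := by
    rw [Real.rpow_def_of_pos hlogX0, mul_comm]
  have hlpos : 0 < l := by linarith
  calc c₁ * (6 / 100) / (4 * Real.exp 3) * X * (Real.log X) ^ (11 / 20 : ℝ)
      = c₁ * X / (4 * Real.exp 3 * l) * (6 / 100 * Real.exp (11 / 20 * l) * l) := by
        rw [hpow]; field_simp
    _ ≤ c₁ * X / (4 * Real.exp 3 * l) * Real.exp (61 / 100 * l) :=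
        mul_le_mul_of_nonneg_left hlast (by positivity)
    _ = c₁ * (X / (4 * Real.log X)) * (Real.exp (161 / 100 * l - 2) / (Real.exp 1 * l)) := by
        rw [← hexpl]
        have h1 : Real.exp (161 / 100 * l - 2) = Real.exp (61 / 100 * l) * Real.exp l / Real.exp 2 := by
          rw [← Real.exp_add, ← Real.exp_sub]; congr 1; ring
        have h2 : Real.exp 3 = Real.exp 2 * Real.exp 1 := by
          rw [← Real.exp_add]; norm_num
        rw [h1, h2]
        field_simp
    _ ≤ c₁ * (X / (4 * Real.log X)) * (2 ^ r * Real.exp (11 / 10 * r) / (Real.exp 1 * l)) := by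
        apply mul_le_mul_of_nonneg_left _ (by positivity)
        exact div_le_div_of_nonneg_right hexp (by positivity)
    _ = c₁ * (y / (4 * Real.log X)) * (Real.exp (11 / 10 * r) / (Real.exp 1 * l)) := by
        rw [hy]; ring
    _ ≤ c₁ * ((n₀ : ℝ) / Real.log n₀) * (q ^ s / (s.factorial : ℝ)) := by
        apply mul_le_mul _ hmain (by positivity) (by positivity)
        exact mul_le_mul_of_nonneg_left hfrac hc₁.le
    _ ≤ c₁ * ((n₀ : ℝ) / Real.log n₀) * hh (pr n₀ \ {2}) s := by
        apply mul_le_mul_of_nonneg_left hhq (by positivity)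
    _ ≤ ((RR {2} r (n₀ : ℝ)).card : ℝ) := hcount
    _ ≤ ((AA N m).card : ℝ) := by exact_mod_cast hinj

end Pool.Agent.Helper256.KM
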