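import Mathlib
import Pool.Agent.Helper256.KM.Defs
import Pool.Agent.Helper256.KM.Mertens

set_option autoImplicit false

namespace Pool.Agent.Helper256.KM

open Finset ArithmeticFunction

/-- `2^Ω(n)/n` on the odd numbers -/
noncomputable def ff (n : ℕ) : ℝ := if Odd n then (2 : ℝ) ^ cardFactors n / n else 0

theorem ff_mul (a b : ℕ) : ff (a * b) = ff a * ff b := by
  unfold ff
  by_cases ha : Odd a
  · by_cases hb : Odd b
    · have ha0 : a ≠ 0 := by rintro rfl; simp at ha
      have hb0 : b ≠ 0 := by rintro rfl; simp at hb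
      rw [if_pos (Nat.odd_mul.mpr ⟨ha, hb⟩), if_pos ha, if_pos hb, cardFactors_mul ha0 hb0, pow_add]
      push_cast
      field_simp
    · rw [if_neg (fun h => hb (Nat.odd_mul.mp h).2), if_neg hb, mul_zero]
  · rw [if_neg (fun h => ha (Nat.odd_mul.mp h).1), if_neg ha, zero_mul]

theorem ff_one : ff 1 = 1 := by simp [ff]

/-- as a monoid homomorphism -/
noncomputable def fh_AU : ℕ →* ℝ where
  toFun := ff
  map_one' := ff_one
  map_mul' := ff_mul

theorem ff_nonneg (n : ℕ) : 0 ≤ ff n := by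
  unfold ff
  split_ifs
  · positivity
  · exact le_rfl

theorem two_pow_le (n : ℕ) (hn : n ≠ 0) : 2 ^ cardFactors n ≤ n := by
  rw [cardFactors_apply]
  conv_rhs => rw [← Nat.prod_primeFactorsList hn]
  exact List.pow_card_le_prod _ _ (fun x hx => (Nat.prime_of_mem_primeFactorsList hx).two_le)

theorem ff_le_one (n : ℕ) : ff n ≤ 1 := by
  unfold ff
  split_ifs with h
  · have hn : n ≠ 0 := by rintro rfl; simp at h
    have h1 : (0 : ℝ) < n := by exact_mod_cast Nat.pos_of_ne_zero hn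
    rw [div_le_one h1]
    exact_mod_cast two_pow_le n hn
  · norm_num

theorem ff_pos (n : ℕ) (h : Odd n) : 0 < ff n := by
  unfold ff
  rw [if_pos h]
  have hn : n ≠ 0 := by rintro rfl; simp at h
  have h1 : (0 : ℝ) < n := by exact_mod_cast Nat.pos_of_ne_zero hn
  positivity

theorem ff_prime (p : ℕ) (hp : p.Prime) (h : Odd p) : ff p = 2 / p := by
  unfold ff
  rw [if_pos h, cardFactors_apply_prime hp, pow_one]

theorem ff_two : ff 2 = 0 := by
  unfold ff
  rw [if_neg (by decide)]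

theorem odd_prime_three {p : ℕ} (hp : p.Prime) (h : Odd p) : 3 ≤ p := by
  have h2 := hp.two_le
  rcases Nat.lt_or_ge 2 p with h3 | h3
  · exact h3
  · have : p = 2 := le_antisymm h3 h2
    rw [this] at h
    exact absurd h (by decide)

/-- odd integers up to `N` with `ν(n) ≤ Y` -/
noncomputable def SS (N : ℕ) (Y : ℝ) : Finset ℕ := by
  classical
  exact (Finset.Icc 1 N).filter (fun n => Odd n ∧ 1 ≤ Y * ff n)

theorem mem_SS {N : ℕ} {Y : ℝ} {n : ℕ} : n ∈ SS N Y ↔ (1 ≤ n ∧ n ≤ N) ∧ Odd n ∧ 1 ≤ Y * ff n := by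
  unfold SS
  rw [Finset.mem_filter, Finset.mem_Icc]

/-- the elementary inequality for the Euler factor -/
theorem factor_le (t : ℝ) (ht' : t ≤ 2 / 3) : (1 - t)⁻¹ ≤ Real.exp (t + 3 * t ^ 2) := by
  have h1 : 0 < 1 - t := by linarith
  have h2 : 0 < (1 - t)⁻¹ := by positivity
  have h3 : Real.log (1 - t)⁻¹ ≤ (1 - t)⁻¹ - 1 := Real.log_le_sub_one_of_pos h2
  have h4 : (1 - t)⁻¹ - 1 ≤ t + 3 * t ^ 2 := by
    rw [inv_eq_one_div, div_sub_one h1.ne', div_le_iff₀ h1]
    nlinarith [mul_nonneg (sq_nonneg t) (sub_nonneg.mpr ht')]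
  calc (1 - t)⁻¹ = Real.exp (Real.log (1 - t)⁻¹) := (Real.exp_log h2).symm
    _ ≤ _ := Real.exp_le_exp.mpr (h3.trans h4)

theorem sumA : ∃ C : ℝ, 0 < C ∧ ∀ (N : ℕ) (Y : ℝ), 2 ≤ Y →
    ∑ n ∈ SS N Y, ff n ≤ C * (Real.log Y) ^ 2 := by
  classical
  obtain ⟨C, hC⟩ := mertens_inv
  have hsum : Summable (fun n : ℕ => 1 / (n : ℝ) ^ 2) := Real.summable_one_div_nat_pow.mpr one_lt_two
  set K := ∑' n : ℕ, 1 / (n : ℝ) ^ 2 with hK
  refine ⟨4 * Real.exp (2 * C + 12 * K), by positivity, ?_⟩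
  intro N Y hY
  set M := ⌊2 * Y⌋₊ with hM
  have hM4 : 4 ≤ M := Nat.le_floor (by push_cast; linarith)
  set s := Finset.Icc 3 M with hs
  have hnorm : ∀ {p : ℕ}, p.Prime → ‖fh_AU p‖ < 1 := by
    intro p hp
    show ‖ff p‖ < 1
    rw [Real.norm_of_nonneg (ff_nonneg p)]
    by_cases h : Odd p
    · rw [ff_prime p hp h]
      have h3 : (3 : ℝ) ≤ p := by exact_mod_cast odd_prime_three hp h
      rw [div_lt_one (by linarith)]
      linarith
    · unfold ff
      rw [if_neg h]
      norm_num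
  have h1 := (EulerProduct.summable_and_hasSum_factoredNumbers_prod_filter_prime_geometric
    hnorm s).2
  have h2 : HasSum ((Nat.factoredNumbers s).indicator (fun n => fh_AU n))
      (∏ p ∈ s with p.Prime, (1 - fh_AU p)⁻¹) := hasSum_subtype_iff_indicator.mp h1
  have h3 : ∑ n ∈ SS N Y, (Nat.factoredNumbers s).indicator (fun n => fh_AU n) n ≤
      ∏ p ∈ s with p.Prime, (1 - fh_AU p)⁻¹ := by
    apply sum_le_hasSum _ _ h2
    intro n _
    exact Set.indicator_nonneg (fun n _ => ff_nonneg n) n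
  have h4 : ∑ n ∈ SS N Y, ff n = ∑ n ∈ SS N Y,
      (Nat.factoredNumbers s).indicator (fun n => fh_AU n) n := by
    apply Finset.sum_congr rfl
    intro n hn
    rw [mem_SS] at hn
    obtain ⟨⟨hn1, hn2⟩, hodd, hY1⟩ := hn
    rw [Set.indicator_of_mem]
    · rfl
    rw [Nat.mem_factoredNumbers]
    refine ⟨by omega, ?_⟩
    intro p hp
    have hpp := Nat.prime_of_mem_primeFactorsList hp
    obtain ⟨k, hk⟩ := Nat.dvd_of_mem_primeFactorsList hp
    have hpodd : Odd p := by
      rw [hk] at hodd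
      exact (Nat.odd_mul.mp hodd).1
    have hp3 := odd_prime_three hpp hpodd
    rw [hs, Finset.mem_Icc]
    refine ⟨hp3, Nat.le_floor ?_⟩
    have h5 : ff n ≤ 2 / p := by
      rw [hk, ff_mul, ff_prime p hpp hpodd]
      have : (0 : ℝ) ≤ 2 / p := by positivity
      calc 2 / (p : ℝ) * ff k ≤ 2 / p * 1 := mul_le_mul_of_nonneg_left (ff_le_one k) this
        _ = 2 / p := mul_one _
    have hp0 : (0 : ℝ) < p := by exact_mod_cast hpp.pos
    have h6 : 1 ≤ Y * (2 / p) := hY1.trans (mul_le_mul_of_nonneg_left h5 (by linarith))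
    rw [mul_div_assoc', le_div_iff₀ hp0] at h6
    linarith
  rw [h4]
  refine h3.trans ?_
  have h5 : ∏ p ∈ s with p.Prime, (1 - fh_AU p)⁻¹ ≤
      ∏ p ∈ s with p.Prime, Real.exp (2 / p + 12 / (p : ℝ) ^ 2) := by
    apply Finset.prod_le_prod
    · intro p hp
      have h60 : ‖ff p‖ < 1 := hnorm (Finset.mem_filter.mp hp).2
      rw [Real.norm_of_nonneg (ff_nonneg p)] at h60
      have h6 : 0 < 1 - fh_AU p := by
        show 0 < 1 - ff p
        linarith
      positivity
    · intro p hp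
      rw [Finset.mem_filter, hs, Finset.mem_Icc] at hp
      have hpodd : Odd p := hp.2.odd_of_ne_two (by omega)
      have h6 : fh_AU p = 2 / p := ff_prime p hp.2 hpodd
      rw [h6]
      have h3 : (3 : ℝ) ≤ p := by exact_mod_cast hp.1.1
      have h7 := factor_le (2 / p) (by
        rw [div_le_div_iff₀ (by linarith) (by norm_num)]
        linarith)
      refine h7.trans (le_of_eq ?_)
      congr 1
      field_simp
      ring
  refine h5.trans ?_
  rw [← Real.exp_sum]
  have hMr : (4 : ℝ) ≤ M := by exact_mod_cast hM4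
  have hlogM : 0 < Real.log M := Real.log_pos (by linarith)
  have h6 : ∑ p ∈ s with p.Prime, (2 / (p : ℝ) + 12 / (p : ℝ) ^ 2) ≤
      2 * (Real.log (Real.log M) + C) + 12 * K := by
    rw [Finset.sum_add_distrib]
    apply add_le_add
    · have h7 : ∑ p ∈ s with p.Prime, 2 / (p : ℝ) ≤
          2 * ∑ p ∈ (Finset.Icc 1 M).filter Nat.Prime, (1 : ℝ) / p := by
        rw [Finset.mul_sum]
        have h8 : ∀ p : ℕ, 2 * ((1 : ℝ) / p) = 2 / p := by intro p; ring
        simp only [h8]
        apply Finset.sum_le_sum_of_subset_of_nonneg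
        · apply Finset.filter_subset_filter
          rw [hs]
          exact Finset.Icc_subset_Icc (by norm_num) le_rfl
        · intro i _ _
          positivity
      have h9 := abs_le.mp (hC M (by omega))
      linarith [h9.2]
    · have h7 : ∀ p : ℕ, 12 / (p : ℝ) ^ 2 = 12 * (1 / (p : ℝ) ^ 2) := by intro p; ring
      simp only [h7]
      rw [← Finset.mul_sum]
      apply mul_le_mul_of_nonneg_left _ (by norm_num)
      exact hsum.sum_le_tsum _ (fun i _ => by positivity)
  refine (Real.exp_le_exp.mpr h6).trans ?_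
  have h7 : Real.exp (2 * (Real.log (Real.log M) + C) + 12 * K) =
      Real.log M ^ 2 * Real.exp (2 * C + 12 * K) := by
    have h8 : 2 * (Real.log (Real.log M) + C) + 12 * K =
        Real.log (Real.log M) + Real.log (Real.log M) + (2 * C + 12 * K) := by ring
    rw [h8, Real.exp_add, Real.exp_add, Real.exp_log hlogM]
    ring
  rw [h7]
  have h8 : Real.log M ≤ 2 * Real.log Y := by
    have h9 : Real.log M ≤ Real.log (2 * Y) := by
      apply Real.log_le_log (by linarith)
      exact Nat.floor_le (by linarith)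
    have h10 : Real.log (2 * Y) = Real.log 2 + Real.log Y := Real.log_mul (by norm_num) (by linarith)
    have h11 : Real.log 2 ≤ Real.log Y := Real.log_le_log (by norm_num) hY
    linarith
  have h9 : Real.log M ^ 2 ≤ (2 * Real.log Y) ^ 2 := pow_le_pow_left₀ hlogM.le h8 2
  calc Real.log M ^ 2 * Real.exp (2 * C + 12 * K) ≤
        (2 * Real.log Y) ^ 2 * Real.exp (2 * C + 12 * K) :=
        mul_le_mul_of_nonneg_right h9 (Real.exp_pos _).le
    _ = _ := by ring

theorem sumB : ∃ C : ℝ, 0 < C ∧ ∀ (M : ℕ) (Z : ℝ), 1 ≤ Z →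
    ∑ q ∈ SS M Z, vonMangoldt q ≤ C * Z := by
  classical
  have hc : 0 < Real.log (3 / 2) := Real.log_pos (by norm_num)
  have hlog4 : 0 < Real.log 4 := Real.log_pos (by norm_num)
  refine ⟨Real.log 4 * (2 + 4 / Real.log (3 / 2)), by positivity, ?_⟩
  intro M Z hZ
  set c := Real.log (3 / 2) with hcdef
  set K := ⌊Real.log Z / c⌋₊ with hK
  set P1 := (Finset.Ioc 0 ⌊2 * Z⌋₊).filter Nat.Prime with hP1
  set P2 := (Finset.Ioc 0 ⌊2 * √Z⌋₊).filter Nat.Prime with hP2
  set T := (SS M Z).filter IsPrimePow with hT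
  set φ : ℕ → ℕ × ℕ := fun q => (q.minFac, cardFactors q) with hφ
  have hpp : ∀ q ∈ T, ∃ p b : ℕ, p.Prime ∧ 0 < b ∧ q = p ^ b ∧ φ q = (p, b) ∧ Odd p ∧
      ((p : ℝ) / 2) ^ b ≤ Z := by
    intro q hq
    rw [hT, Finset.mem_filter, mem_SS] at hq
    obtain ⟨⟨⟨hq1, hq2⟩, hodd, hqZ⟩, hqp⟩ := hq
    obtain ⟨p, b, hp, hb, rfl⟩ := hqp
    have hp' : p.Prime := Nat.prime_iff.mpr hp
    have hpodd : Odd p := by
      rw [Nat.odd_pow_iff hb.ne'] at hodd
      exact hodd
    refine ⟨p, b, hp', hb, rfl, ?_, hpodd, ?_⟩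
    · rw [hφ]
      simp only [Prod.mk.injEq]
      exact ⟨hp'.pow_minFac hb.ne', cardFactors_apply_prime_pow hp'⟩
    · have h1 : ff (p ^ b) = (2 / p) ^ b := by
        have h2 : fh_AU (p ^ b) = fh_AU p ^ b := map_pow fh_AU p b
        have h3 : fh_AU p = 2 / p := ff_prime p hp' hpodd
        rw [h3] at h2
        exact h2
      rw [h1] at hqZ
      have hp0 : (0 : ℝ) < p := by exact_mod_cast hp'.pos
      have h4 : ((p : ℝ) / 2) ^ b * (2 / p) ^ b = 1 := by
        rw [← mul_pow]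
        have : (p : ℝ) / 2 * (2 / p) = 1 := by field_simp
        rw [this, one_pow]
      calc ((p : ℝ) / 2) ^ b = ((p : ℝ) / 2) ^ b * 1 := (mul_one _).symm
        _ ≤ ((p : ℝ) / 2) ^ b * (Z * (2 / p) ^ b) := by
          apply mul_le_mul_of_nonneg_left hqZ (by positivity)
        _ = Z * (((p : ℝ) / 2) ^ b * (2 / p) ^ b) := by ring
        _ = Z := by rw [h4, mul_one]
  have h1 : ∑ q ∈ SS M Z, vonMangoldt q = ∑ q ∈ T, Real.log ((φ q).1 : ℝ) := by
    rw [hT, Finset.sum_filter]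
    apply Finset.sum_congr rfl
    intro q _
    rw [vonMangoldt_apply]
  have hinj : Set.InjOn φ T := by
    intro q hq q' hq' h
    obtain ⟨p, b, _, _, h1, h2, _⟩ := hpp q hq
    obtain ⟨p', b', _, _, h1', h2', _⟩ := hpp q' hq'
    rw [h2, h2', Prod.mk.injEq] at h
    rw [h1, h1', h.1, h.2]
  have h2 : ∑ q ∈ T, Real.log ((φ q).1 : ℝ) = ∑ x ∈ T.image φ, Real.log (x.1 : ℝ) :=
    (Finset.sum_image (f := fun x : ℕ × ℕ => Real.log (x.1 : ℝ)) hinj).symm
  have hsub : T.image φ ⊆ P1 ×ˢ {1} ∪ P2 ×ˢ Finset.Icc 1 K := by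
    intro x hx
    obtain ⟨q, hq, rfl⟩ := Finset.mem_image.mp hx
    obtain ⟨p, b, hp, hb, h1, h2, hodd, h3⟩ := hpp q hq
    rw [h2]
    have hp3 : (3 : ℝ) ≤ p := by exact_mod_cast odd_prime_three hp hodd
    rw [Finset.mem_union, Finset.mem_product, Finset.mem_product]
    rcases Nat.lt_or_ge 1 b with hb1 | hb1
    · right
      have hsq : ((p : ℝ) / 2) ^ 2 ≤ Z :=
        (pow_le_pow_right₀ (by linarith) hb1).trans h3
      constructor
      · rw [hP2, Finset.mem_filter, Finset.mem_Ioc]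
        refine ⟨⟨hp.pos, Nat.le_floor ?_⟩, hp⟩
        have h5 : (p : ℝ) / 2 ≤ √Z := Real.le_sqrt_of_sq_le hsq
        show (p : ℝ) ≤ 2 * √Z
        linarith
      · rw [Finset.mem_Icc]
        refine ⟨hb, Nat.le_floor ?_⟩
        rw [le_div_iff₀ hc]
        have h5 : (3 / 2 : ℝ) ^ b ≤ Z :=
          (pow_le_pow_left₀ (by norm_num) (by linarith) b).trans h3
        have h6 := Real.log_le_log (by positivity) h5
        rw [Real.log_pow] at h6
        exact h6
    · left
      have hb' : b = 1 := by omega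
      subst hb'
      constructor
      · rw [hP1, Finset.mem_filter, Finset.mem_Ioc]
        refine ⟨⟨hp.pos, Nat.le_floor ?_⟩, hp⟩
        rw [pow_one] at h3
        show (p : ℝ) ≤ 2 * Z
        linarith
      · exact Finset.mem_singleton_self _
  have hlognn : ∀ x : ℕ × ℕ, 0 ≤ Real.log (x.1 : ℝ) := fun x => Real.log_natCast_nonneg _
  rw [h1, h2]
  have hZ0 : 0 ≤ Z := by linarith
  have hsq : √Z * √Z = Z := Real.mul_self_sqrt hZ0
  have hs1 : 1 ≤ √Z := by
    rw [Real.one_le_sqrt]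
    exact hZ
  calc ∑ x ∈ T.image φ, Real.log (x.1 : ℝ)
      ≤ ∑ x ∈ P1 ×ˢ {1} ∪ P2 ×ˢ Finset.Icc 1 K, Real.log (x.1 : ℝ) :=
        Finset.sum_le_sum_of_subset_of_nonneg hsub (fun x _ _ => hlognn x)
    _ ≤ ∑ x ∈ P1 ×ˢ ({1} : Finset ℕ), Real.log (x.1 : ℝ) +
          ∑ x ∈ P2 ×ˢ Finset.Icc 1 K, Real.log (x.1 : ℝ) := by
        rw [← Finset.sum_union_inter]
        have := Finset.sum_nonneg (s := P1 ×ˢ ({1} : Finset ℕ) ∩ P2 ×ˢ Finset.Icc 1 K)
          (fun x _ => hlognn x)
        linarith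
    _ = Chebyshev.theta (2 * Z) + K * Chebyshev.theta (2 * √Z) := by
        rw [Finset.sum_product, Finset.sum_product]
        simp only [Finset.sum_const, Nat.card_Icc, Nat.add_sub_cancel,
          nsmul_eq_mul, Finset.card_singleton, Nat.cast_one, one_mul]
        rw [← Finset.mul_sum]
        rfl
    _ ≤ Real.log 4 * (2 * Z) + (2 * √Z / c) * (Real.log 4 * (2 * √Z)) := by
        apply add_le_add
        · exact Chebyshev.theta_le_log4_mul_x (by linarith)
        · have h5 : (K : ℝ) ≤ 2 * √Z / c := by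
            have h6 : 0 ≤ Real.log Z / c := div_nonneg (Real.log_nonneg hZ) hc.le
            refine (Nat.floor_le h6).trans ?_
            apply div_le_div_of_nonneg_right _ hc.le
            have h7 : Real.log Z = 2 * Real.log (√Z) := by
              rw [Real.log_sqrt hZ0]; ring
            have h8 : Real.log (√Z) ≤ √Z - 1 := Real.log_le_sub_one_of_pos (by linarith)
            rw [h7]
            linarith
          apply mul_le_mul h5 (Chebyshev.theta_le_log4_mul_x (by positivity))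
            (Chebyshev.theta_nonneg _) (by positivity)
    _ = Real.log 4 * (2 * Z) + 4 / c * Real.log 4 * (√Z * √Z) := by ring
    _ = Real.log 4 * (2 + 4 / c) * Z := by rw [hsq]; ring

theorem sumC : ∃ C : ℝ, 0 < C ∧ ∀ (N : ℕ) (Y : ℝ), 2 ≤ Y →
    ∑ n ∈ SS N Y, Real.log n ≤ C * Y * (Real.log Y) ^ 2 := by
  classical
  obtain ⟨A, hA, hsumA⟩ := sumA
  obtain ⟨B, hB, hsumB⟩ := sumB
  refine ⟨B * A, by positivity, ?_⟩
  intro N Y hY
  have hY0 : 0 ≤ Y := by linarith
  set T := (SS N Y).sigma (fun n => n.divisors) with hT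
  set D := (SS N Y).sigma (fun m => SS N (Y * ff m)) with hD
  set φ : (Σ _ : ℕ, ℕ) → (Σ _ : ℕ, ℕ) := fun x => ⟨x.1 / x.2, x.2⟩ with hφ
  have h1 : ∑ n ∈ SS N Y, Real.log n = ∑ x ∈ T, vonMangoldt x.2 := by
    rw [hT, Finset.sum_sigma]
    apply Finset.sum_congr rfl
    intro n _
    exact vonMangoldt_sum.symm
  have hinj : Set.InjOn φ T := by
    rintro ⟨n, q⟩ hx ⟨n', q'⟩ hx' h
    simp only [hT, Finset.coe_sigma, Set.mem_sigma_iff, Finset.mem_coe, Nat.mem_divisors] at hx hx'
    simp only [hφ, Sigma.mk.injEq, heq_eq_eq] at h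
    obtain ⟨h3, h4⟩ := h
    subst h4
    have h5 := Nat.div_mul_cancel hx.2.1
    have h6 := Nat.div_mul_cancel hx'.2.1
    have h7 : n = n' := by rw [← h5, ← h6, h3]
    rw [h7]
  have h2 : ∑ x ∈ T, vonMangoldt x.2 = ∑ y ∈ T.image φ, vonMangoldt y.2 :=
    (Finset.sum_image (f := fun y : (Σ _ : ℕ, ℕ) => vonMangoldt y.2) hinj).symm
  have hsub : T.image φ ⊆ D := by
    intro y hy
    obtain ⟨⟨n, q⟩, hx, rfl⟩ := Finset.mem_image.mp hy
    rw [hT, Finset.mem_sigma, Nat.mem_divisors] at hx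
    obtain ⟨hn, ⟨m, hm⟩, hn0⟩ := hx
    simp only at hn hm hn0
    have hn' := mem_SS.mp hn
    obtain ⟨⟨hn1, hn2⟩, hodd, hnY⟩ := hn'
    have hq0 : 0 < q := Nat.pos_of_ne_zero (by rintro rfl; simp at hm; omega)
    have hm0 : 0 < m := Nat.pos_of_ne_zero (by rintro rfl; simp at hm; omega)
    have hdiv : n / q = m := by rw [hm]; exact Nat.mul_div_cancel_left m hq0
    have hqodd : Odd q := by rw [hm] at hodd; exact (Nat.odd_mul.mp hodd).1
    have hmodd : Odd m := by rw [hm] at hodd; exact (Nat.odd_mul.mp hodd).2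
    have hff : ff n = ff q * ff m := by rw [hm, ff_mul]
    simp only [hφ, hD, Finset.mem_sigma, hdiv]
    rw [mem_SS, mem_SS]
    refine ⟨⟨⟨hm0, ?_⟩, hmodd, ?_⟩, ⟨hq0, ?_⟩, hqodd, ?_⟩
    · calc m ≤ q * m := Nat.le_mul_of_pos_left m hq0
        _ = n := hm.symm
        _ ≤ N := hn2
    · refine hnY.trans (mul_le_mul_of_nonneg_left ?_ hY0)
      rw [hff]
      calc ff q * ff m ≤ 1 * ff m := mul_le_mul_of_nonneg_right (ff_le_one q) (ff_nonneg m)
        _ = ff m := one_mul _
    · calc q ≤ q * m := Nat.le_mul_of_pos_right q hm0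
        _ = n := hm.symm
        _ ≤ N := hn2
    · rw [hff] at hnY
      calc 1 ≤ Y * (ff q * ff m) := hnY
        _ = Y * ff m * ff q := by ring
  rw [h1, h2]
  calc ∑ y ∈ T.image φ, vonMangoldt y.2 ≤ ∑ y ∈ D, vonMangoldt y.2 :=
        Finset.sum_le_sum_of_subset_of_nonneg hsub (fun x _ _ => vonMangoldt_nonneg)
    _ = ∑ m ∈ SS N Y, ∑ q ∈ SS N (Y * ff m), vonMangoldt q := by
        rw [hD, Finset.sum_sigma]
    _ ≤ ∑ m ∈ SS N Y, B * (Y * ff m) := by
        apply Finset.sum_le_sum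
        intro m hm
        exact hsumB N _ (mem_SS.mp hm).2.2
    _ = B * Y * ∑ m ∈ SS N Y, ff m := by
        rw [Finset.mul_sum]
        apply Finset.sum_congr rfl
        intro m _
        ring
    _ ≤ B * Y * (A * (Real.log Y) ^ 2) :=
        mul_le_mul_of_nonneg_left (hsumA N Y hY) (by positivity)
    _ = _ := by ring

theorem card_SS : ∃ C : ℝ, 0 < C ∧ ∀ (N : ℕ) (Y : ℝ), 4 ≤ Y →
    ((SS N Y).card : ℝ) ≤ C * Y * Real.log Y := by
  classical
  obtain ⟨A, hA, hsumA⟩ := sumA
  obtain ⟨B, hB, hsumC⟩ := sumC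
  refine ⟨A + 2 * B, by positivity, ?_⟩
  intro N Y hY
  have hY0 : 0 ≤ Y := by linarith
  have hsq : √Y * √Y = Y := Real.mul_self_sqrt hY0
  have hs2 : 2 ≤ √Y := by
    rw [show (2 : ℝ) = √4 by rw [show (4 : ℝ) = 2 ^ 2 by norm_num]; simp]
    exact Real.sqrt_le_sqrt hY
  have hlogpos : 0 < Real.log Y := Real.log_pos (by linarith)
  have hlogs : Real.log (√Y) = Real.log Y / 2 := Real.log_sqrt hY0
  set S1 := (SS N Y).filter (fun n => 1 ≤ √Y * ff n) with hS1
  set S2 := (SS N Y).filter (fun n => ¬ 1 ≤ √Y * ff n) with hS2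
  have hcard : ((SS N Y).card : ℝ) = S1.card + S2.card := by
    rw [hS1, hS2]
    exact_mod_cast (Finset.card_filter_add_card_filter_not _).symm
  have h1 : (S1.card : ℝ) ≤ A * Y * Real.log Y := by
    have h2 : (S1.card : ℝ) ≤ ∑ n ∈ SS N (√Y), √Y * ff n := by
      calc (S1.card : ℝ) = ∑ n ∈ S1, (1 : ℝ) := by simp
        _ ≤ ∑ n ∈ S1, √Y * ff n := by
          apply Finset.sum_le_sum
          intro n hn
          exact (Finset.mem_filter.mp hn).2
        _ ≤ ∑ n ∈ SS N (√Y), √Y * ff n := by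
          apply Finset.sum_le_sum_of_subset_of_nonneg
          · intro n hn
            have hn' := Finset.mem_filter.mp hn
            have hn2 := mem_SS.mp hn'.1
            exact mem_SS.mpr ⟨hn2.1, hn2.2.1, hn'.2⟩
          · intro n _ _
            exact mul_nonneg (Real.sqrt_nonneg _) (ff_nonneg n)
    have h3 := hsumA N (√Y) hs2
    rw [← Finset.mul_sum] at h2
    have h4 : Real.log (√Y) ≤ √Y := by
      have := Real.log_le_sub_one_of_pos (show 0 < √Y by linarith)
      linarith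
    have h5 : 0 ≤ Real.log (√Y) := Real.log_nonneg (by linarith)
    calc (S1.card : ℝ) ≤ √Y * ∑ n ∈ SS N (√Y), ff n := h2
      _ ≤ √Y * (A * (Real.log (√Y)) ^ 2) := mul_le_mul_of_nonneg_left h3 (Real.sqrt_nonneg _)
      _ = A * √Y * (Real.log (√Y) * Real.log (√Y)) := by ring
      _ ≤ A * √Y * (√Y * Real.log (√Y)) := by
          apply mul_le_mul_of_nonneg_left _ (by positivity)
          exact mul_le_mul_of_nonneg_right h4 h5
      _ = A * (√Y * √Y) * (Real.log Y / 2) := by rw [hlogs]; ring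
      _ = A * Y * (Real.log Y / 2) := by rw [hsq]
      _ ≤ A * Y * Real.log Y := by
          apply mul_le_mul_of_nonneg_left _ (by positivity)
          linarith
  have h2 : (S2.card : ℝ) ≤ 2 * B * Y * Real.log Y := by
    have h3 : (S2.card : ℝ) * (Real.log Y / 2) ≤ B * Y * Real.log Y ^ 2 := by
      calc (S2.card : ℝ) * (Real.log Y / 2) = ∑ n ∈ S2, Real.log Y / 2 := by simp
        _ ≤ ∑ n ∈ S2, Real.log n := by
          apply Finset.sum_le_sum
          intro n hn
          have hn' := Finset.mem_filter.mp hn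
          obtain ⟨⟨hn1, hn2⟩, hodd, _⟩ := mem_SS.mp hn'.1
          rw [← hlogs]
          apply Real.log_le_log (by linarith)
          have h4 := hn'.2
          push Not at h4
          have hn0 : (0 : ℝ) < n := by exact_mod_cast hn1
          have h5 : 1 / (n : ℝ) ≤ ff n := by
            unfold ff
            rw [if_pos hodd]
            apply div_le_div_of_nonneg_right _ hn0.le
            exact one_le_pow₀ (by norm_num)
          have h6 : √Y * (1 / n) < 1 :=
            lt_of_le_of_lt (mul_le_mul_of_nonneg_left h5 (Real.sqrt_nonneg _)) h4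
          rw [mul_one_div, div_lt_one hn0] at h6
          exact h6.le
        _ ≤ ∑ n ∈ SS N Y, Real.log n := by
          apply Finset.sum_le_sum_of_subset_of_nonneg (Finset.filter_subset _ _)
          intro n _ _
          exact Real.log_natCast_nonneg n
        _ ≤ _ := hsumC N Y (by linarith)
    have h4 : (S2.card : ℝ) * (Real.log Y / 2) ≤ (2 * B * Y * Real.log Y) * (Real.log Y / 2) := by
      calc _ ≤ _ := h3
        _ = _ := by ring
    exact le_of_mul_le_mul_right h4 (by linarith)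
  rw [hcard]
  calc (S1.card : ℝ) + S2.card ≤ A * Y * Real.log Y + 2 * B * Y * Real.log Y := add_le_add h1 h2
    _ = _ := by ring

theorem card_AA_upper : ∃ C : ℝ, 0 < C ∧ ∀ (N m : ℕ) (X : ℝ), X = (N : ℝ) / 2 ^ m → 4 ≤ X →
    ((AA N m).card : ℝ) ≤ C * X * Real.log X := by
  classical
  obtain ⟨C, hC, h⟩ := card_SS
  refine ⟨C, hC, ?_⟩
  intro N m X hX hX4
  refine le_trans ?_ (h N X hX4)
  have key : ∀ n ∈ AA N m, n = 2 ^ n.factorization 2 * (n / 2 ^ n.factorization 2) ∧
      Odd (n / 2 ^ n.factorization 2) ∧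
      m = n.factorization 2 + cardFactors (n / 2 ^ n.factorization 2) ∧ 1 ≤ n ∧ n ≤ N := by
    intro n hn
    rw [AA, Finset.mem_filter, Finset.mem_Icc] at hn
    obtain ⟨⟨hn1, hn2⟩, hm⟩ := hn
    have h1 : n = 2 ^ n.factorization 2 * (n / 2 ^ n.factorization 2) :=
      (Nat.ordProj_mul_ordCompl_eq_self n 2).symm
    have h2 : Odd (n / 2 ^ n.factorization 2) := by
      rw [← Nat.not_even_iff_odd, even_iff_two_dvd]
      exact Nat.not_dvd_ordCompl Nat.prime_two (by omega)
    refine ⟨h1, h2, ?_, hn1, hn2⟩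
    have h3 : n / 2 ^ n.factorization 2 ≠ 0 := by
      intro h0
      rw [h0] at h2
      exact absurd h2 (by decide)
    rw [← hm]
    conv_lhs => rw [h1]
    rw [cardFactors_mul (by positivity) h3, cardFactors_apply_prime_pow Nat.prime_two]
  have hle : (AA N m).card ≤ (SS N X).card := by
    apply Finset.card_le_card_of_injOn (fun n => n / 2 ^ n.factorization 2)
    · intro n hn
      obtain ⟨h1, h2, h3, hn1, hn2⟩ := key n hn
      set k := n / 2 ^ n.factorization 2 with hk
      set a := n.factorization 2 with ha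
      have hk0 : 0 < k := Nat.pos_of_ne_zero (by
        intro h0
        rw [h0] at h2
        exact absurd h2 (by decide))
      show k ∈ SS N X
      rw [mem_SS]
      refine ⟨⟨hk0, ?_⟩, h2, ?_⟩
      · calc k ≤ 2 ^ a * k := Nat.le_mul_of_pos_left k (by positivity)
          _ = n := h1.symm
          _ ≤ N := hn2
      · unfold ff
        rw [if_pos h2, hX, h3, pow_add]
        have hk0' : (0 : ℝ) < k := by exact_mod_cast hk0
        have h4 : (N : ℝ) / (2 ^ a * 2 ^ cardFactors k) * (2 ^ cardFactors k / k) =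
            N / (2 ^ a * k) := by
          field_simp
        rw [h4, le_div_iff₀ (by positivity), one_mul]
        have h5 : 2 ^ a * k ≤ N := h1 ▸ hn2
        exact_mod_cast h5
    · intro n hn n' hn' hnn
      obtain ⟨h1, h2, h3, _, _⟩ := key n hn
      obtain ⟨h1', h2', h3', _, _⟩ := key n' hn'
      simp only at hnn
      have h4 : n.factorization 2 = n'.factorization 2 := by
        rw [hnn] at h3
        omega
      rw [h1, h1', hnn, h4]
  exact_mod_cast hle

end Pool.Agent.Helper256.KM
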