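import Mathlib
import Pool.Agent.Helper256.KM.Defs
import Pool.Agent.Helper256.KM.A1

set_option autoImplicit false

namespace Pool.Agent.Helper256.KM

open Finset ArithmeticFunction

theorem uc_sum {P : Finset ℕ} {N r : ℕ} {x : ℝ} (hx0 : 0 ≤ x) (hxN : x ≤ N) :
    ∑ l ∈ RR P (r + 1) x, Real.log l ≤
      (Real.log 4 + 4) * x * ∑ j ∈ Finset.range (r + 1), hh (pr N \ P) j := by
  classical
  set Q := pr N \ P with hQ
  set B := RR P (r + 1) x with hB
  have hc : 0 ≤ Real.log 4 + 4 := by positivity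
  -- the sum over pairs
  have e1 : ∑ l ∈ B, Real.log l =
      ∑ s ∈ B.sigma (fun l => l.divisors.filter (fun q => vonMangoldt q ≠ 0)), vonMangoldt s.2 := by
    rw [Finset.sum_sigma]
    refine Finset.sum_congr rfl fun l _ => ?_
    rw [← vonMangoldt_sum]
    exact (Finset.sum_filter_ne_zero _).symm
  set T := (Finset.range (r + 1)).biUnion (fun j => fac Q j) with hT
  have hdisj : (↑(Finset.range (r + 1)) : Set ℕ).PairwiseDisjoint (fun j => fac Q j) := by
    intro i _ j _ hij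
    rw [Function.onFun, Finset.disjoint_left]
    intro n hi hj
    exact hij ((mem_fac.1 hi).2.symm.trans (mem_fac.1 hj).2)
  -- the injection
  have key : ∀ l ∈ B, ∀ q ∈ l.divisors.filter (fun q => vonMangoldt q ≠ 0),
      l / q * q = l ∧ l / q ∈ T ∧ q ∈ Finset.Ioc 0 ⌊x / ((l / q : ℕ) : ℝ)⌋₊ := by
    intro l hl q hq
    rw [hB, RR, Finset.mem_filter, Finset.mem_Icc] at hl
    obtain ⟨⟨hl1, hl2⟩, hl3, hl4⟩ := hl
    rw [Finset.mem_filter, Nat.mem_divisors] at hq
    obtain ⟨⟨hq1, hq2⟩, hq3⟩ := hq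
    have hqp : IsPrimePow q := vonMangoldt_ne_zero_iff.1 hq3
    have hq0 : 0 < q := hqp.pos
    have hmul : l / q * q = l := Nat.div_mul_cancel hq1
    have hlq0 : l / q ≠ 0 := by
      intro h
      rw [h, zero_mul] at hmul
      omega
    refine ⟨hmul, ?_, ?_⟩
    · rw [hT, Finset.mem_biUnion]
      refine ⟨cardFactors (l / q), ?_, mem_fac.2 ⟨?_, rfl⟩⟩
      · rw [Finset.mem_range]
        have h1 : cardFactors (l / q * q) = cardFactors (l / q) + cardFactors q :=
          cardFactors_mul hlq0 hq0.ne'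
        rw [hmul, hl3] at h1
        have h2 : 0 < cardFactors q := by
          rw [Nat.pos_iff_ne_zero]
          intro h0
          rw [cardFactors_eq_zero_iff_eq_zero_or_one] at h0
          rcases h0 with h0 | h0
          · omega
          · exact hqp.ne_one h0
        omega
      · rw [Nat.mem_factoredNumbers']
        intro p hp hpd
        have hpl : p ∣ l := hpd.trans (Nat.div_dvd_of_dvd hq1)
        rw [hQ, Finset.mem_sdiff, pr, Finset.mem_filter, Finset.mem_Icc]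
        refine ⟨⟨⟨hp.one_lt.le, ?_⟩, hp⟩, fun hpP => hl4 p hpP hpl⟩
        have h1 : p ≤ l := Nat.le_of_dvd hl1 hpl
        have h2 : (l : ℝ) ≤ N := ((Nat.cast_le.2 hl2).trans (Nat.floor_le hx0)).trans hxN
        have h3 : l ≤ N := by exact_mod_cast h2
        omega
    · rw [Finset.mem_Ioc]
      refine ⟨hq0, Nat.le_floor ?_⟩
      have h0 : (0 : ℝ) < ((l / q : ℕ) : ℝ) := by
        exact_mod_cast Nat.pos_of_ne_zero hlq0
      rw [le_div_iff₀ h0]
      have h1 : (q : ℝ) * ((l / q : ℕ) : ℝ) = l := by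
        rw [← Nat.cast_mul, mul_comm, hmul]
      rw [h1]
      exact (Nat.cast_le.2 hl2).trans (Nat.floor_le hx0)
  have e2 : ∑ s ∈ B.sigma (fun l => l.divisors.filter (fun q => vonMangoldt q ≠ 0)),
        vonMangoldt s.2 ≤
      ∑ s ∈ T.sigma (fun l' => Finset.Ioc 0 ⌊x / (l' : ℝ)⌋₊), vonMangoldt s.2 := by
    have hinj : Set.InjOn (fun s : (_ : ℕ) × ℕ => (⟨s.1 / s.2, s.2⟩ : (_ : ℕ) × ℕ))
        ↑(B.sigma (fun l => l.divisors.filter (fun q => vonMangoldt q ≠ 0))) := by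
      rintro ⟨l, q⟩ h1 ⟨l', q'⟩ h2 h
      rw [Finset.mem_coe, Finset.mem_sigma] at h1 h2
      simp only [Sigma.mk.injEq, heq_eq_eq] at h ⊢
      have k1 := (key l h1.1 q h1.2).1
      have k2 := (key l' h2.1 q' h2.2).1
      refine ⟨?_, h.2⟩
      rw [← k1, ← k2, h.1, h.2]
    rw [← Finset.sum_image (f := fun s : (_ : ℕ) × ℕ => vonMangoldt s.2)
      (g := fun s : (_ : ℕ) × ℕ => (⟨s.1 / s.2, s.2⟩ : (_ : ℕ) × ℕ)) hinj]
    refine Finset.sum_le_sum_of_subset_of_nonneg ?_ fun _ _ _ => vonMangoldt_nonneg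
    intro s hs
    rw [Finset.mem_image] at hs
    obtain ⟨⟨l, q⟩, h1, rfl⟩ := hs
    rw [Finset.mem_sigma] at h1 ⊢
    exact (key l h1.1 q h1.2).2
  rw [e1]
  refine e2.trans ?_
  rw [Finset.sum_sigma]
  have e3 : ∀ l' ∈ T, ∑ q ∈ Finset.Ioc 0 ⌊x / (l' : ℝ)⌋₊, vonMangoldt q ≤
      (Real.log 4 + 4) * x * (1 / (l' : ℝ)) := by
    intro l' _
    have := Chebyshev.psi_le_const_mul_self (x := x / (l' : ℝ)) (by positivity)
    rw [Chebyshev.psi] at this
    calc _ ≤ _ := this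
      _ = _ := by ring
  refine (Finset.sum_le_sum e3).trans ?_
  rw [← Finset.mul_sum, hT, Finset.sum_biUnion hdisj]
  rfl

theorem upper_count {ε : ℝ} (hε : 0 < ε) (hε1 : ε ≤ 1) : ∃ C : ℝ, 0 < C ∧
    ∀ (P : Finset ℕ) (N r : ℕ) (x ρ : ℝ), 2 ≤ N → Real.sqrt N ≤ x → x ≤ N → 0 ≤ ρ → ρ ≤ 1 - ε →
    (r : ℝ) ≤ ρ * p1 (pr N \ P) →
    ((RR P (r + 1) x).card : ℝ) ≤ C * (x / Real.log N) * hh (pr N \ P) r := by
  classical
  have hc : 0 < Real.log 4 + 4 := by positivity
  refine ⟨4 + 4 * ((Real.log 4 + 4) / ε), by positivity, ?_⟩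
  intro P N r x ρ hN hxs hxN hρ0 hρ1 hr
  have hN0 : (0 : ℝ) < N := by exact_mod_cast (by omega : 0 < N)
  have hlog : 0 < Real.log N := Real.log_pos (by exact_mod_cast hN)
  have hx0 : 0 < x := lt_of_lt_of_le (Real.sqrt_pos.2 hN0) hxs
  have hQ : ∀ p ∈ pr N \ P, p.Prime := by
    intro p hp
    rw [Finset.mem_sdiff, pr, Finset.mem_filter] at hp
    exact hp.1.2
  set H := hh (pr N \ P) r with hH
  have hH0 : 0 ≤ H := Finset.sum_nonneg fun n _ => by positivity
  have hρle : ρ ≤ 1 := by linarith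
  have hH1 : 1 ≤ H := by
    have h1 := hh_shift hQ hρ0 hr le_rfl
    rw [Nat.sub_self, hh_zero] at h1
    have h2 : ρ ^ r ≤ 1 := pow_le_one₀ hρ0 hρle
    nlinarith
  -- sum of all levels
  have hsum : ∑ j ∈ Finset.range (r + 1), hh (pr N \ P) j ≤ H / ε := by
    rw [← Finset.sum_range_reflect]
    have h1 : ∀ a ∈ Finset.range (r + 1), hh (pr N \ P) (r + 1 - 1 - a) ≤ ρ ^ a * H := by
      intro a ha
      rw [Finset.mem_range] at ha
      rw [Nat.add_sub_cancel]
      exact hh_shift hQ hρ0 hr (by omega)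
    refine (Finset.sum_le_sum h1).trans ?_
    rw [← Finset.sum_mul, le_div_iff₀ hε]
    have h2 := mul_neg_geom_sum ρ (r + 1)
    have h3 : 0 ≤ ρ ^ (r + 1) := by positivity
    have h4 : 0 ≤ ∑ i ∈ Finset.range (r + 1), ρ ^ i := Finset.sum_nonneg fun i _ => by positivity
    have h5 : ε * ∑ i ∈ Finset.range (r + 1), ρ ^ i ≤ 1 := by nlinarith
    nlinarith
  have hS : ∑ l ∈ RR P (r + 1) x, Real.log l ≤ (Real.log 4 + 4) * x * (H / ε) :=
    (uc_sum hx0.le hxN).trans (mul_le_mul_of_nonneg_left hsum (by positivity))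
  set B := RR P (r + 1) x with hB
  set y : ℝ := (N : ℝ) ^ ((1 : ℝ) / 4) with hy
  have hy0 : 0 < y := Real.rpow_pos_of_pos hN0 _
  have hyy : y * y = Real.sqrt N := by
    rw [hy, ← Real.rpow_add hN0, Real.sqrt_eq_rpow]; norm_num
  have hlogy : Real.log N = 4 * Real.log y := by
    rw [hy, Real.log_rpow hN0]; ring
  have hlogle : Real.log N ≤ 4 * y := by
    rw [hlogy]
    have := Real.log_le_sub_one_of_pos hy0
    linarith
  have hsplit : (B.card : ℝ) = ((B.filter (fun l : ℕ => (l : ℝ) ≤ y)).card : ℝ) +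
      ((B.filter (fun l : ℕ => ¬ (l : ℝ) ≤ y)).card : ℝ) := by
    rw [← Nat.cast_add, Finset.card_filter_add_card_filter_not]
  have hB1 : ((B.filter (fun l : ℕ => (l : ℝ) ≤ y)).card : ℝ) ≤ 4 * (x / Real.log N) := by
    have h1 : (B.filter (fun l : ℕ => (l : ℝ) ≤ y)) ⊆ Finset.Icc 1 ⌊y⌋₊ := by
      intro l hl
      rw [Finset.mem_filter, hB, RR, Finset.mem_filter, Finset.mem_Icc] at hl
      rw [Finset.mem_Icc]
      exact ⟨hl.1.1.1, Nat.le_floor hl.2⟩
    have h2 : ((B.filter (fun l : ℕ => (l : ℝ) ≤ y)).card : ℝ) ≤ y := by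
      have := Finset.card_le_card h1
      rw [Nat.card_Icc, Nat.add_sub_cancel] at this
      exact (Nat.cast_le.2 this).trans (Nat.floor_le hy0.le)
    refine h2.trans ?_
    rw [mul_div_assoc', le_div_iff₀ hlog]
    nlinarith
  have hB2 : ((B.filter (fun l : ℕ => ¬ (l : ℝ) ≤ y)).card : ℝ) ≤
      4 * ((Real.log 4 + 4) / ε) * (x / Real.log N) * H := by
    have h1 : ((B.filter (fun l : ℕ => ¬ (l : ℝ) ≤ y)).card : ℝ) * (Real.log N / 4) ≤
        ∑ l ∈ B.filter (fun l : ℕ => ¬ (l : ℝ) ≤ y), Real.log l := by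
      rw [← nsmul_eq_mul]
      refine Finset.card_nsmul_le_sum _ _ _ fun l hl => ?_
      rw [Finset.mem_filter, not_le] at hl
      have := Real.log_le_log hy0 hl.2.le
      rw [hlogy]
      linarith
    have h2 : ∑ l ∈ B.filter (fun l : ℕ => ¬ (l : ℝ) ≤ y), Real.log l ≤ ∑ l ∈ B, Real.log l := by
      refine Finset.sum_le_sum_of_subset_of_nonneg (Finset.filter_subset _ _) fun l _ _ => ?_
      exact Real.log_natCast_nonneg l
    have h3 := h1.trans (h2.trans hS)
    rw [← le_div_iff₀ (by positivity)] at h3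
    refine h3.trans (le_of_eq ?_)
    field_simp
  rw [hsplit]
  have h5 : 4 * (x / Real.log N) ≤ 4 * (x / Real.log N) * H :=
    le_mul_of_one_le_right (by positivity) hH1
  calc _ ≤ 4 * (x / Real.log N) + 4 * ((Real.log 4 + 4) / ε) * (x / Real.log N) * H :=
        add_le_add hB1 hB2
    _ ≤ 4 * (x / Real.log N) * H + 4 * ((Real.log 4 + 4) / ε) * (x / Real.log N) * H := by
        linarith
    _ = _ := by ring

end Pool.Agent.Helper256.KM
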