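import Mathlib
import Pool.Agent.Helper256.KM.Defs
import Pool.Agent.Helper256.KM.Mertens

set_option autoImplicit false

namespace Pool.Agent.Helper256.KM

open Finset ArithmeticFunction

/-- weight of a tuple -/
noncomputable def Wt {a : ℕ} (t : Fin a → ℕ) : ℝ := ∏ k, (1 : ℝ) / (t k)

theorem sum_Wt (a : ℕ) (P : Finset ℕ) :
    ∑ t ∈ Fintype.piFinset (fun _ : Fin a => P), Wt t = (∑ q ∈ P, (1 : ℝ) / q) ^ a := by
  have := Finset.prod_univ_sum (fun _ : Fin a => P) (fun _ q => (1 : ℝ) / (q : ℝ))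
  unfold Wt
  rw [← this, Finset.prod_const, Finset.card_univ, Fintype.card_fin]

theorem sum_Wt_pair (a : ℕ) (P : Finset ℕ) (i j : Fin a) (hij : i ≠ j) :
    ∑ t ∈ (Fintype.piFinset (fun _ : Fin a => P)).filter (fun t => t i = t j), Wt t =
      (∑ q ∈ P, (1 : ℝ) / (q : ℝ) ^ 2) * (∑ q ∈ P, (1 : ℝ) / q) ^ (a - 2) := by
  set p := ∑ q ∈ P, (1 : ℝ) / q with hp
  have h1 : ∀ q ∈ P, ∑ t ∈ Fintype.piFinset (fun _ : Fin a => P),
      (if t i = q ∧ t j = q then Wt t else 0) = (1 / (q : ℝ) ^ 2) * p ^ (a - 2) := by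
    intro q hq
    set g : Fin a → ℕ → ℝ := fun k x =>
      (1 / (x : ℝ)) * ((if k = i then (if x = q then 1 else 0) else 1) *
        (if k = j then (if x = q then 1 else 0) else 1)) with hg
    have e1 : ∀ t : Fin a → ℕ, ∏ k, g k (t k) = if t i = q ∧ t j = q then Wt t else 0 := by
      intro t
      simp only [hg, Finset.prod_mul_distrib]
      have e2 : ∀ l : Fin a, (∏ k : Fin a, (if k = l then (if t k = q then (1:ℝ) else 0) else 1)) =
          if t l = q then 1 else 0 := by
        intro l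
        rw [Finset.prod_ite_eq' Finset.univ l (fun k => if t k = q then (1:ℝ) else 0)]
        simp
      rw [e2 i, e2 j]
      unfold Wt
      by_cases c1 : t i = q <;> by_cases c2 : t j = q <;> simp [c1, c2]
    have e3 := Finset.prod_univ_sum (fun _ : Fin a => P) g
    rw [Finset.sum_congr rfl (fun t _ => (e1 t).symm), ← e3]
    have e4 : ∀ k : Fin a, ∑ x ∈ P, g k x = if k = i ∨ k = j then 1 / (q : ℝ) else p := by
      intro k
      simp only [hg]
      by_cases c1 : k = i
      · have c2 : k ≠ j := fun h => hij (c1.symm.trans h)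
        simp only [c1, if_true, true_or, hij, if_false, mul_one, mul_ite, mul_zero]
        rw [Finset.sum_ite_eq' P q, if_pos hq]
      · by_cases c2 : k = j
        · simp only [c2, if_true, or_true, hij.symm, if_false, one_mul, mul_one, mul_ite, mul_zero]
          rw [Finset.sum_ite_eq' P q, if_pos hq]
        · simp only [c1, c2, if_false, or_self, mul_one]
          rw [hp]
    rw [Finset.prod_congr rfl (fun k _ => e4 k), Finset.prod_ite, Finset.prod_const,
      Finset.prod_const]
    have c1 : (Finset.univ.filter (fun k : Fin a => k = i ∨ k = j)).card = 2 := by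
      have : Finset.univ.filter (fun k : Fin a => k = i ∨ k = j) = {i, j} := by
        ext k; simp
      rw [this, Finset.card_pair hij]
    have c2 := Finset.card_filter_add_card_filter_not (s := (Finset.univ : Finset (Fin a)))
      (fun k : Fin a => k = i ∨ k = j)
    rw [c1, Finset.card_univ, Fintype.card_fin] at c2
    have c3 : (Finset.univ.filter (fun k : Fin a => ¬ (k = i ∨ k = j))).card = a - 2 := by omega
    rw [c1, c3, div_pow, one_pow]
  rw [Finset.sum_filter, Finset.sum_mul]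
  rw [← Finset.sum_congr rfl h1, Finset.sum_comm]
  refine Finset.sum_congr rfl fun t ht => ?_
  rw [Fintype.mem_piFinset] at ht
  by_cases c : t i = t j
  · rw [if_pos c]
    have : ∀ q ∈ P, (if t i = q ∧ t j = q then Wt t else 0) = if t i = q then Wt t else 0 := by
      intro q _
      rw [← c]
      simp
    rw [Finset.sum_congr rfl this, Finset.sum_ite_eq P (t i), if_pos (ht i)]
  · rw [if_neg c]
    symm
    apply Finset.sum_eq_zero
    intro q _
    rw [if_neg]
    rintro ⟨h1, h2⟩
    exact c (h1.trans h2.symm)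

theorem sum_Wt_log (a : ℕ) (P : Finset ℕ) (i : Fin a) :
    ∑ t ∈ Fintype.piFinset (fun _ : Fin a => P), Wt t * Real.log (t i) =
      (∑ q ∈ P, Real.log q / q) * (∑ q ∈ P, (1 : ℝ) / q) ^ (a - 1) := by
  set p := ∑ q ∈ P, (1 : ℝ) / q with hp
  set g : Fin a → ℕ → ℝ := fun k x => (1 / (x : ℝ)) * (if k = i then Real.log x else 1) with hg
  have e1 : ∀ t : Fin a → ℕ, ∏ k, g k (t k) = Wt t * Real.log (t i) := by
    intro t
    simp only [hg, Finset.prod_mul_distrib]
    rw [Finset.prod_ite_eq' Finset.univ i (fun k => Real.log (t k)), if_pos (Finset.mem_univ _)]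
    rfl
  have e3 := Finset.prod_univ_sum (fun _ : Fin a => P) g
  rw [Finset.sum_congr rfl (fun t _ => (e1 t).symm), ← e3]
  have e4 : ∀ k : Fin a, ∑ x ∈ P, g k x = if k = i then (∑ q ∈ P, Real.log q / q) else p := by
    intro k
    simp only [hg]
    by_cases c1 : k = i
    · simp only [c1, if_true]
      refine Finset.sum_congr rfl fun q _ => ?_
      ring
    · simp only [c1, if_false, mul_one]
      rw [hp]
  rw [Finset.prod_congr rfl (fun k _ => e4 k), Finset.prod_ite, Finset.prod_const,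
    Finset.prod_const]
  have c1 : (Finset.univ.filter (fun k : Fin a => k = i)).card = 1 := by
    have : Finset.univ.filter (fun k : Fin a => k = i) = {i} := by
      ext k; simp
    rw [this, Finset.card_singleton]
  have c2 := Finset.card_filter_add_card_filter_not (s := (Finset.univ : Finset (Fin a)))
    (fun k : Fin a => k = i)
  rw [c1, Finset.card_univ, Fintype.card_fin] at c2
  have c3 : (Finset.univ.filter (fun k : Fin a => ¬ (k = i))).card = a - 1 := by omega
  rw [c1, c3, pow_one]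

theorem prod_facts {a : ℕ} (P : Finset ℕ) (hP : ∀ q ∈ P, q.Prime) (t : Fin a → ℕ)
    (ht : ∀ k, t k ∈ P) (hinj : Function.Injective t) :
    (∏ k, t k) ≠ 0 ∧ Squarefree (∏ k, t k) ∧ cardFactors (∏ k, t k) = a ∧
      (∏ k, t k).primeFactors.card = a := by
  have h0 : (∏ k, t k) ≠ 0 := Finset.prod_ne_zero_iff.2 fun k _ => (hP _ (ht k)).ne_zero
  have hsq : Squarefree (∏ k, t k) := by
    apply Finset.squarefree_prod_of_pairwise_isCoprime
    · intro k _ l _ hkl
      show IsRelPrime (t k) (t l)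
      rw [← Nat.coprime_iff_isRelPrime]
      exact (Nat.coprime_primes (hP _ (ht k)) (hP _ (ht l))).2 fun h => hkl (hinj h)
    · intro k _
      exact (hP _ (ht k)).squarefree
  have hO : ∀ s : Finset (Fin a), cardFactors (∏ k ∈ s, t k) = s.card := by
    intro s
    induction s using Finset.induction_on with
    | empty => simp
    | insert k s hk ih =>
      rw [Finset.prod_insert hk, cardFactors_mul (hP _ (ht k)).ne_zero
        (Finset.prod_ne_zero_iff.2 fun k _ => (hP _ (ht k)).ne_zero), ih,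
        cardFactors_apply_prime (hP _ (ht k)), Finset.card_insert_of_notMem hk, add_comm]
  have hO' : cardFactors (∏ k, t k) = a := by
    rw [hO Finset.univ, Finset.card_univ, Fintype.card_fin]
  refine ⟨h0, hsq, hO', ?_⟩
  have h1 := (cardDistinctFactors_eq_cardFactors_iff_squarefree h0).2 hsq
  have h2 : cardDistinctFactors (∏ k, t k) = (∏ k, t k).primeFactors.card := rfl
  rw [← h2, h1, hO']

theorem Wt_eq {a : ℕ} (t : Fin a → ℕ) : Wt t = 1 / ((∏ k, t k : ℕ) : ℝ) := by
  unfold Wt
  rw [Finset.prod_div_distrib, Finset.prod_const_one]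
  push_cast
  rfl

theorem Wt_nonneg {a : ℕ} (t : Fin a → ℕ) : 0 ≤ Wt t :=
  Finset.prod_nonneg fun k _ => by positivity

/-- counting: good tuples are at most `a!` to one -/
theorem good_le {a N : ℕ} (P : Finset ℕ) (hP : ∀ q ∈ P, q.Prime) :
    ∑ t ∈ (Fintype.piFinset (fun _ : Fin a => P)).filter
      (fun t => Function.Injective t ∧ ∏ k, t k ≤ N), Wt t ≤
    (a.factorial : ℝ) * ∑ x ∈ (Finset.Icc 1 N).filter
      (fun x => Squarefree x ∧ cardFactors x = a), (1 : ℝ) / x := by
  have hmaps : ∀ t ∈ (Fintype.piFinset (fun _ : Fin a => P)).filter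
      (fun t => Function.Injective t ∧ ∏ k, t k ≤ N), (∏ k, t k) ∈ (Finset.Icc 1 N).filter
      (fun x => Squarefree x ∧ cardFactors x = a) := by
    intro t ht
    rw [Finset.mem_filter, Fintype.mem_piFinset] at ht
    obtain ⟨h0, h1, h2, -⟩ := prod_facts P hP t ht.1 ht.2.1
    rw [Finset.mem_filter, Finset.mem_Icc]
    exact ⟨⟨Nat.one_le_iff_ne_zero.2 h0, ht.2.2⟩, h1, h2⟩
  rw [← Finset.sum_fiberwise_of_maps_to hmaps, Finset.mul_sum]
  apply Finset.sum_le_sum
  intro x hx
  set F := ((Fintype.piFinset (fun _ : Fin a => P)).filter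
      (fun t => Function.Injective t ∧ ∏ k, t k ≤ N)).filter (fun t => ∏ k, t k = x) with hF
  have h1 : ∑ t ∈ F, Wt t = (F.card : ℝ) * (1 / (x : ℝ)) := by
    rw [← nsmul_eq_mul]
    apply Finset.sum_eq_card_nsmul
    intro t ht
    rw [hF, Finset.mem_filter] at ht
    rw [Wt_eq, ht.2]
  rw [h1]
  apply mul_le_mul_of_nonneg_right _ (by positivity)
  rw [Nat.cast_le]
  rcases F.eq_empty_or_nonempty with he | ⟨t0, ht0⟩
  · rw [he]; simp
  · have hcard : x.primeFactors.card = a := by
      rw [hF, Finset.mem_filter, Finset.mem_filter, Fintype.mem_piFinset] at ht0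
      rw [← ht0.2]
      exact (prod_facts P hP t0 ht0.1.1 ht0.1.2.1).2.2.2
    have hx0 : x ≠ 0 := by
      rw [Finset.mem_filter, Finset.mem_Icc] at hx
      omega
    have hmem : ∀ t ∈ F, Function.Injective t ∧ ∀ k, t k ∈ x.primeFactors := by
      intro t ht
      rw [hF, Finset.mem_filter, Finset.mem_filter, Fintype.mem_piFinset] at ht
      refine ⟨ht.1.2.1, fun k => ?_⟩
      rw [Nat.mem_primeFactors]
      refine ⟨hP _ (ht.1.1 k), ?_, hx0⟩
      rw [← ht.2]
      exact Finset.dvd_prod_of_mem _ (Finset.mem_univ k)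
    have hle : F.card ≤ Fintype.card (Fin a ↪ x.primeFactors) := by
      rw [← Fintype.card_coe F]
      refine Fintype.card_le_of_injective
        (fun t => (⟨fun k => ⟨t.1 k, (hmem t.1 t.2).2 k⟩, fun k l hkl =>
          (hmem t.1 t.2).1 (congrArg Subtype.val hkl)⟩ : Fin a ↪ x.primeFactors)) ?_
      intro t s hts
      apply Subtype.ext
      funext k
      have := DFunLike.congr_fun hts k
      exact congrArg Subtype.val this
    rw [Fintype.card_embedding_eq, Fintype.card_coe, hcard, Fintype.card_fin,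
      Nat.descFactorial_self] at hle
    exact hle

/-- the main inequality -/
theorem main_ineq {a N : ℕ} (P : Finset ℕ) (hP : ∀ q ∈ P, q.Prime) (E : ℝ) (hE : 0 < E)
    (hN : N = ⌊Real.exp E⌋₊) (p s2 Lg : ℝ) (hp : p = ∑ q ∈ P, (1 : ℝ) / q) (hp0 : 0 < p)
    (hs2 : s2 = ∑ q ∈ P, (1 : ℝ) / (q : ℝ) ^ 2) (hLg : Lg = ∑ q ∈ P, Real.log q / q)
    (h1 : (a : ℝ) ^ 2 * s2 ≤ p ^ 2 / 4) (h2 : (a : ℝ) * Lg ≤ E * p / 4) :
    p ^ a / 2 ≤ (a.factorial : ℝ) * ∑ x ∈ (Finset.Icc 1 N).filter
      (fun x => Squarefree x ∧ cardFactors x = a), (1 : ℝ) / x := by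
  refine le_trans ?_ (good_le (a := a) (N := N) P hP)
  set Q := Fintype.piFinset (fun _ : Fin a => P) with hQ
  -- the sum over all tuples
  have hall : ∑ t ∈ Q, Wt t = p ^ a := by rw [hp]; exact sum_Wt a P
  -- bad tuples
  have hbad1 : ∑ t ∈ Q.filter (fun t => ¬ Function.Injective t), Wt t ≤ p ^ a / 4 := by
    have hsub : ∑ t ∈ Q.filter (fun t => ¬ Function.Injective t), Wt t ≤
        ∑ ij ∈ (Finset.univ : Finset (Fin a × Fin a)).filter (fun ij => ij.1 ≠ ij.2),
          ∑ t ∈ Q.filter (fun t => t ij.1 = t ij.2), Wt t := by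
      rw [Finset.sum_filter]
      have : ∀ ij ∈ (Finset.univ : Finset (Fin a × Fin a)).filter (fun ij => ij.1 ≠ ij.2),
          ∑ t ∈ Q.filter (fun t => t ij.1 = t ij.2), Wt t =
          ∑ t ∈ Q, (if t ij.1 = t ij.2 then Wt t else 0) := by
        intro ij _
        rw [Finset.sum_filter]
      rw [Finset.sum_congr rfl this, Finset.sum_comm]
      apply Finset.sum_le_sum
      intro t _
      by_cases hinj' : Function.Injective t
      swap
      · rw [if_pos hinj']
        have : ∃ i j, t i = t j ∧ i ≠ j := by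
          by_contra hcon
          push Not at hcon
          exact hinj' fun i j hij => hcon i j hij
        obtain ⟨i, j, hij, hne⟩ := this
        have hm : ((i, j) : Fin a × Fin a) ∈
            (Finset.univ : Finset (Fin a × Fin a)).filter (fun ij => ij.1 ≠ ij.2) := by
          simp [hne]
        have h4 := Finset.single_le_sum (f := fun ij : Fin a × Fin a =>
          if t ij.1 = t ij.2 then Wt t else 0) (fun ij _ => by
            show 0 ≤ (if t ij.1 = t ij.2 then Wt t else 0)
            split_ifs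
            · exact Wt_nonneg t
            · exact le_rfl) hm
        have h3 : (if t ((i, j) : Fin a × Fin a).1 = t ((i, j) : Fin a × Fin a).2
            then Wt t else 0) = Wt t := by
          rw [if_pos hij]
        exact le_trans (le_of_eq h3.symm) h4
      · rw [if_neg (not_not.2 hinj')]
        apply Finset.sum_nonneg
        intro ij _
        split_ifs
        · exact Wt_nonneg t
        · exact le_rfl
    refine hsub.trans ?_
    rcases Nat.lt_or_ge a 2 with ha | ha
    · have : (Finset.univ : Finset (Fin a × Fin a)).filter (fun ij => ij.1 ≠ ij.2) = ∅ := by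
        rw [Finset.filter_eq_empty_iff]
        rintro ⟨i, j⟩ _
        rw [not_not]
        apply Fin.ext
        have := i.2
        have := j.2
        show (i : ℕ) = j
        omega
      rw [this, Finset.sum_empty]
      positivity
    · have hterm : ∀ ij ∈ (Finset.univ : Finset (Fin a × Fin a)).filter (fun ij => ij.1 ≠ ij.2),
          ∑ t ∈ Q.filter (fun t => t ij.1 = t ij.2), Wt t = s2 * p ^ (a - 2) := by
        intro ij hij
        rw [Finset.mem_filter] at hij
        rw [hs2, hp]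
        exact sum_Wt_pair a P ij.1 ij.2 hij.2
      rw [Finset.sum_congr rfl hterm, Finset.sum_const, nsmul_eq_mul]
      have hc : (((Finset.univ : Finset (Fin a × Fin a)).filter
          (fun ij => ij.1 ≠ ij.2)).card : ℝ) ≤ (a : ℝ) ^ 2 := by
        have : ((Finset.univ : Finset (Fin a × Fin a)).filter (fun ij => ij.1 ≠ ij.2)).card ≤
            a * a := by
          refine (Finset.card_filter_le _ _).trans ?_
          rw [Finset.card_univ, Fintype.card_prod, Fintype.card_fin]
        calc (((Finset.univ : Finset (Fin a × Fin a)).filter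
          (fun ij => ij.1 ≠ ij.2)).card : ℝ) ≤ ((a * a : ℕ) : ℝ) := by exact_mod_cast this
          _ = (a : ℝ) ^ 2 := by push_cast; ring
      have hs20 : 0 ≤ s2 := by
        rw [hs2]
        exact Finset.sum_nonneg fun q _ => by positivity
      have hpow : p ^ a = p ^ 2 * p ^ (a - 2) := by
        rw [← pow_add]; congr 1; omega
      have hpp : 0 ≤ p ^ (a - 2) := by positivity
      calc (((Finset.univ : Finset (Fin a × Fin a)).filter
          (fun ij => ij.1 ≠ ij.2)).card : ℝ) * (s2 * p ^ (a - 2)) ≤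
            (a : ℝ) ^ 2 * (s2 * p ^ (a - 2)) := by gcongr
        _ = ((a : ℝ) ^ 2 * s2) * p ^ (a - 2) := by ring
        _ ≤ (p ^ 2 / 4) * p ^ (a - 2) := by gcongr
        _ = p ^ a / 4 := by rw [hpow]; ring
  have hbad2 : ∑ t ∈ Q.filter (fun t => ¬ ∏ k, t k ≤ N), Wt t ≤ p ^ a / 4 := by
    have hlogsum : ∑ t ∈ Q, Wt t * ∑ i, Real.log (t i) = (a : ℝ) * Lg * p ^ (a - 1) := by
      have : ∀ t ∈ Q, Wt t * ∑ i, Real.log (t i) = ∑ i, Wt t * Real.log (t i) := by
        intro t _
        rw [Finset.mul_sum]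
      rw [Finset.sum_congr rfl this, Finset.sum_comm,
        Finset.sum_congr rfl (fun i _ => sum_Wt_log a P i), Finset.sum_const, Finset.card_univ,
        Fintype.card_fin, nsmul_eq_mul, ← hp, ← hLg]
      ring
    have hstep : ∑ t ∈ Q.filter (fun t => ¬ ∏ k, t k ≤ N), Wt t ≤
        (1 / E) * ∑ t ∈ Q, Wt t * ∑ i, Real.log (t i) := by
      rw [Finset.sum_filter, Finset.mul_sum]
      apply Finset.sum_le_sum
      intro t ht
      rw [hQ, Fintype.mem_piFinset] at ht
      have hlog0 : 0 ≤ ∑ i, Real.log (t i) := Finset.sum_nonneg fun i _ =>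
        Real.log_natCast_nonneg _
      by_cases hgt : ∏ k, t k ≤ N
      swap
      · rw [if_pos hgt]
        have h3 : E < ∑ i, Real.log (t i) := by
          have hprod : ∑ i, Real.log (t i) = Real.log ((∏ k, t k : ℕ) : ℝ) := by
            push_cast
            rw [Real.log_prod]
            intro i _
            exact_mod_cast (hP _ (ht i)).ne_zero
          rw [hprod, Real.lt_log_iff_exp_lt]
          · rw [hN, not_le] at hgt
            exact (Nat.floor_lt (Real.exp_pos _).le).1 hgt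
          · have : 0 < ∏ k, t k := Nat.pos_of_ne_zero
              (Finset.prod_ne_zero_iff.2 fun k _ => (hP _ (ht k)).ne_zero)
            exact_mod_cast this
        have hW := Wt_nonneg t
        calc Wt t = (1 / E) * (Wt t * E) := by field_simp
          _ ≤ (1 / E) * (Wt t * ∑ i, Real.log (t i)) := by gcongr
      · rw [if_neg (not_not.2 hgt)]
        have hW := Wt_nonneg t
        positivity
    rw [hlogsum] at hstep
    refine hstep.trans ?_
    rcases Nat.eq_zero_or_pos a with ha | ha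
    · subst ha
      simp
    · have hpow : p ^ a = p * p ^ (a - 1) := by
        rw [← pow_succ']; congr 1; omega
      have hpp : 0 ≤ p ^ (a - 1) := by positivity
      calc (1 / E) * ((a : ℝ) * Lg * p ^ (a - 1)) = (1 / E) * p ^ (a - 1) * ((a : ℝ) * Lg) := by
            ring
        _ ≤ (1 / E) * p ^ (a - 1) * (E * p / 4) := by gcongr
        _ = p ^ a / 4 := by rw [hpow]; field_simp
  -- combine
  have hsplit : ∑ t ∈ Q, Wt t ≤ ∑ t ∈ Q.filter (fun t => Function.Injective t ∧ ∏ k, t k ≤ N), Wt t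
      + ∑ t ∈ Q.filter (fun t => ¬ Function.Injective t), Wt t +
      ∑ t ∈ Q.filter (fun t => ¬ ∏ k, t k ≤ N), Wt t := by
    rw [Finset.sum_filter, Finset.sum_filter, Finset.sum_filter, ← Finset.sum_add_distrib,
      ← Finset.sum_add_distrib]
    apply Finset.sum_le_sum
    intro t _
    have hW := Wt_nonneg t
    by_cases c1 : Function.Injective t <;> by_cases c2 : ∏ k, t k ≤ N <;>
      simp [c1, c2] <;> linarith
  rw [hall] at hsplit
  linarith

theorem one_sub_pow {C x : ℝ} {a : ℕ} {K : ℝ} (hC : 0 ≤ C) (hx : 0 < x) (hCx : 2 * C ≤ x)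
    (ha : (a : ℝ) ≤ K * x) : Real.exp (-(2 * K * C)) * x ^ a ≤ (x - C) ^ a := by
  have ht : 0 ≤ C / x := by positivity
  have ht2 : C / x ≤ 1 / 2 := by
    rw [div_le_div_iff₀ hx (by norm_num)]; linarith
  have h1 : Real.exp (-(2 * (C / x))) ≤ 1 - C / x := by
    have h2 := Real.add_one_le_exp (2 * (C / x))
    have h3 : (1 - C / x) * Real.exp (2 * (C / x)) ≥ 1 := by nlinarith
    rw [Real.exp_neg]
    rw [inv_le_comm₀ (Real.exp_pos _) (by linarith)]
    rw [inv_le_iff_one_le_mul₀ (by linarith)]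
    linarith
  have h4 : (x - C) = x * (1 - C / x) := by field_simp
  rw [h4, mul_pow, mul_comm]
  apply mul_le_mul_of_nonneg_left _ (by positivity)
  calc Real.exp (-(2 * K * C)) ≤ Real.exp (-(2 * (C / x))) ^ a := by
        rw [← Real.exp_nat_mul]
        apply Real.exp_le_exp.2
        have : (a : ℝ) * (C / x) ≤ K * C := by
          calc (a : ℝ) * (C / x) ≤ (K * x) * (C / x) := by gcongr
            _ = K * C := by field_simp
        linarith
    _ ≤ (1 - C / x) ^ a := pow_le_pow_left₀ (Real.exp_pos _).le h1 a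

theorem e_lower {K : ℝ} (hK : 1 ≤ K) : ∃ (c : ℝ) (u₀ : ℕ), 0 < c ∧ ∀ u : ℕ, u₀ ≤ u → ∀ a : ℕ,
    (a : ℝ) ≤ K * u → c * ((u : ℝ) ^ a / (a.factorial : ℝ)) ≤
      ∑ x ∈ (Finset.Icc 1 ⌊Real.exp (Real.exp u / 10)⌋₊).filter
        (fun x => Squarefree x ∧ cardFactors x = a), (1 : ℝ) / x := by
  obtain ⟨CL, hCL⟩ := mertens_log
  obtain ⟨CI, hCI⟩ := mertens_inv
  have hCL0 : 0 ≤ CL := (abs_nonneg _).trans (hCL 1 le_rfl)
  have hCI0 : 0 ≤ CI := (abs_nonneg _).trans (hCI 3 le_rfl)
  set η : ℝ := 1 / (160 * K) with hη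
  have hK0 : 0 < K := by linarith
  have hη0 : 0 < η := by positivity
  set y0 : ℕ := ⌈16 * K ^ 2⌉₊ + 1 with hy0
  have hy0r : 16 * K ^ 2 ≤ (y0 : ℝ) := by
    rw [hy0]; push_cast
    linarith [Nat.le_ceil (16 * K ^ 2)]
  have hy0p : y0 ≠ 0 := by omega
  set S0 : ℝ := ∑ q ∈ (Finset.Icc 1 y0).filter Nat.Prime, (1 : ℝ) / q with hS0
  set C1 : ℝ := |CI + S0 - Real.log (η / 2)| with hC1
  have hC10 : 0 ≤ C1 := abs_nonneg _
  -- eventual conditions
  have hev : ∃ u₀ : ℕ, ∀ u : ℕ, u₀ ≤ u → 2 * C1 ≤ (u : ℝ) ∧ 1 ≤ (u : ℝ) ∧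
      (y0 : ℝ) + 4 ≤ Real.exp (η * Real.exp u) ∧ 2 * Real.log 2 ≤ η * Real.exp u ∧
      160 * K * CL ≤ Real.exp u := by
    have t1 : Filter.Tendsto (fun u : ℕ => (u : ℝ)) Filter.atTop Filter.atTop :=
      tendsto_natCast_atTop_atTop
    have t2 : Filter.Tendsto (fun u : ℕ => Real.exp (u : ℝ)) Filter.atTop Filter.atTop :=
      Real.tendsto_exp_atTop.comp t1
    have t3 : Filter.Tendsto (fun u : ℕ => η * Real.exp (u : ℝ)) Filter.atTop Filter.atTop :=
      t2.const_mul_atTop hη0
    have t4 : Filter.Tendsto (fun u : ℕ => Real.exp (η * Real.exp (u : ℝ))) Filter.atTop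
        Filter.atTop := Real.tendsto_exp_atTop.comp t3
    have := ((t1.eventually_ge_atTop (2 * C1)).and ((t1.eventually_ge_atTop 1).and
      ((t4.eventually_ge_atTop ((y0 : ℝ) + 4)).and
      ((t3.eventually_ge_atTop (2 * Real.log 2)).and (t2.eventually_ge_atTop (160 * K * CL))))))
    obtain ⟨u₀, h⟩ := Filter.eventually_atTop.1 this
    exact ⟨u₀, h⟩
  obtain ⟨u₀, hu₀⟩ := hev
  refine ⟨Real.exp (-(2 * K * C1)) / 2, u₀, by positivity, ?_⟩
  intro u hu a ha
  obtain ⟨k1, k2, k3, k4, k5⟩ := hu₀ u hu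
  have hup : (0 : ℝ) < u := by linarith
  set Nz : ℕ := ⌊Real.exp (η * Real.exp u)⌋₊ with hNz
  have hNzle : (Nz : ℝ) ≤ Real.exp (η * Real.exp u) := Nat.floor_le (Real.exp_pos _).le
  have hNzge : Real.exp (η * Real.exp u) - 1 < Nz := by
    have := Nat.lt_floor_add_one (Real.exp (η * Real.exp u))
    linarith
  have hNzy : y0 + 3 ≤ Nz := by
    have : ((y0 + 3 : ℕ) : ℝ) < Nz := by push_cast; linarith
    exact_mod_cast this.le
  set P : Finset ℕ := (Finset.Ioc y0 Nz).filter Nat.Prime with hP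
  have hPp : ∀ q ∈ P, q.Prime := fun q hq => (Finset.mem_filter.1 hq).2
  set p : ℝ := ∑ q ∈ P, (1 : ℝ) / q with hp
  set s2 : ℝ := ∑ q ∈ P, (1 : ℝ) / (q : ℝ) ^ 2 with hs2
  set Lg : ℝ := ∑ q ∈ P, Real.log q / q with hLg
  have hIcc : (Finset.Icc 1 Nz).filter Nat.Prime = (Finset.Icc 1 y0).filter Nat.Prime ∪ P := by
    ext q
    simp only [hP, Finset.mem_filter, Finset.mem_Icc, Finset.mem_union, Finset.mem_Ioc]
    constructor
    · rintro ⟨⟨h1, h2⟩, h3⟩
      by_cases h4 : q ≤ y0
      · exact Or.inl ⟨⟨h1, h4⟩, h3⟩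
      · exact Or.inr ⟨⟨by omega, h2⟩, h3⟩
    · rintro (⟨⟨h1, h2⟩, h3⟩ | ⟨⟨h1, h2⟩, h3⟩)
      · exact ⟨⟨h1, by omega⟩, h3⟩
      · exact ⟨⟨by omega, h2⟩, h3⟩
  have hdisj : Disjoint ((Finset.Icc 1 y0).filter Nat.Prime) P := by
    rw [Finset.disjoint_left]
    intro q h1 h2
    simp only [hP, Finset.mem_filter, Finset.mem_Icc, Finset.mem_Ioc] at h1 h2
    omega
  -- lower bound for p
  have hplow : (u : ℝ) - C1 ≤ p := by
    have h1 := hCI Nz (by omega)
    rw [hIcc, Finset.sum_union hdisj, ← hS0, ← hp] at h1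
    have h2 := (abs_le.1 h1).1
    have hlogNz : η * Real.exp u / 2 ≤ Real.log Nz := by
      have h3 : Real.exp (η * Real.exp u / 2) ≤ Nz := by
        have h4 : Real.exp (η * Real.exp u / 2) * Real.exp (η * Real.exp u / 2) =
            Real.exp (η * Real.exp u) := by
          rw [← Real.exp_add]; congr 1; ring
        have h5 : 2 ≤ Real.exp (η * Real.exp u / 2) := by
          have : Real.exp (Real.log 2) ≤ Real.exp (η * Real.exp u / 2) :=
            Real.exp_le_exp.2 (by linarith)
          rwa [Real.exp_log (by norm_num)] at this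
        nlinarith
      rw [Real.le_log_iff_exp_le (by
        have : 0 < Nz := by omega
        exact_mod_cast this)]
      exact h3
    have hll : (u : ℝ) + Real.log (η / 2) ≤ Real.log (Real.log Nz) := by
      have h3 : (u : ℝ) + Real.log (η / 2) = Real.log (η * Real.exp u / 2) := by
        rw [show η * Real.exp u / 2 = Real.exp u * (η / 2) by ring,
          Real.log_mul (Real.exp_pos _).ne' (by positivity), Real.log_exp]
      rw [h3]
      exact Real.log_le_log (by positivity) hlogNz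
    have h6 := le_abs_self (CI + S0 - Real.log (η / 2))
    rw [← hC1] at h6
    linarith
  have hphalf : (u : ℝ) / 2 ≤ p := by linarith
  have hp0 : 0 < p := by linarith
  have hs2le : s2 ≤ 1 / (y0 : ℝ) := by
    have h1 : s2 ≤ ∑ i ∈ Finset.Ioc y0 Nz, ((i : ℝ) ^ 2)⁻¹ := by
      rw [hs2, hP]
      have : ∀ q ∈ (Finset.Ioc y0 Nz).filter Nat.Prime, (1 : ℝ) / (q : ℝ) ^ 2 =
          ((q : ℝ) ^ 2)⁻¹ := fun q _ => one_div _
      rw [Finset.sum_congr rfl this]
      exact Finset.sum_le_sum_of_subset_of_nonneg (Finset.filter_subset _ _)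
        fun i _ _ => by positivity
    have h2 := sum_Ioc_inv_sq_le_sub (α := ℝ) hy0p (by omega : y0 ≤ Nz)
    have h3 : (0 : ℝ) ≤ (Nz : ℝ)⁻¹ := by positivity
    rw [one_div]
    linarith
  have hs20 : 0 ≤ s2 := Finset.sum_nonneg fun q _ => by positivity
  have hLgle : Lg ≤ η * Real.exp u + CL := by
    have h1 := hCL Nz (by omega)
    rw [hIcc, Finset.sum_union hdisj, ← hLg] at h1
    have h2 := (abs_le.1 h1).2
    have h3 : 0 ≤ ∑ q ∈ (Finset.Icc 1 y0).filter Nat.Prime, Real.log q / q :=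
      Finset.sum_nonneg fun q _ => div_nonneg (Real.log_natCast_nonneg _) (Nat.cast_nonneg _)
    have h4 : Real.log Nz ≤ η * Real.exp u := by
      rw [Real.log_le_iff_le_exp (by
        have : 0 < Nz := by omega
        exact_mod_cast this)]
      exact hNzle
    linarith
  have hLg0 : 0 ≤ Lg :=
    Finset.sum_nonneg fun q _ => div_nonneg (Real.log_natCast_nonneg _) (Nat.cast_nonneg _)
  have hmain := main_ineq (a := a) P hPp (Real.exp u / 10) (by positivity) rfl p s2 Lg rfl hp0
    rfl rfl (by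
      have h1 : (a : ℝ) ^ 2 ≤ (K * u) ^ 2 := pow_le_pow_left₀ (Nat.cast_nonneg _) ha 2
      have hy0' : (0 : ℝ) < y0 := by
        have : 0 < y0 := by omega
        exact_mod_cast this
      calc (a : ℝ) ^ 2 * s2 ≤ (K * u) ^ 2 * (1 / (y0 : ℝ)) := by gcongr
        _ ≤ (K * u) ^ 2 * (1 / (16 * K ^ 2)) := by gcongr
        _ = ((u : ℝ) / 2) ^ 2 / 4 := by field_simp; ring
        _ ≤ p ^ 2 / 4 := by gcongr) (by
      have hE : 0 < Real.exp (u : ℝ) := Real.exp_pos _
      calc (a : ℝ) * Lg ≤ (K * u) * (η * Real.exp u + CL) := by gcongr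
        _ = (u : ℝ) * (Real.exp u / 160 + K * CL) := by
            rw [hη]; field_simp
        _ ≤ (u : ℝ) * (Real.exp u / 160 + Real.exp u / 160) := by
            have : K * CL ≤ Real.exp u / 160 := by linarith
            gcongr
        _ = Real.exp u / 10 * ((u : ℝ) / 2) / 4 := by ring
        _ ≤ Real.exp u / 10 * p / 4 := by gcongr)
  have hpow := one_sub_pow (a := a) hC10 hup k1 ha
  have hpp : ((u : ℝ) - C1) ^ a ≤ p ^ a := pow_le_pow_left₀ (by linarith) hplow a
  have hf : (0 : ℝ) < a.factorial := by exact_mod_cast Nat.factorial_pos a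
  rw [mul_div_assoc', div_le_iff₀ hf]
  calc Real.exp (-(2 * K * C1)) / 2 * (u : ℝ) ^ a = (Real.exp (-(2 * K * C1)) * (u : ℝ) ^ a) / 2 := by
        ring
    _ ≤ p ^ a / 2 := by linarith
    _ ≤ _ := by rw [mul_comm]; exact hmain

end Pool.Agent.Helper256.KM
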