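import Mathlib
import Pool.Agent.Helper256.KM.Defs

set_option autoImplicit false

namespace Pool.Agent.Helper256.KM

open Finset ArithmeticFunction

/-- the data of a tuple at scale `u` -/
structure Gd (k N m : ℕ) (C1 : ℝ) (u : ℕ) (a : Fin k → ℕ) (x : ℕ) (t t' q l : Fin k → ℕ) :
    Prop where
  hu : 1 ≤ u
  ha : ∀ i, a i < m
  hx : (x : ℝ) ≤ Real.exp (Real.exp u / 10)
  hx0 : 0 < x
  ht : ∀ i, t i ∣ x
  htp : ∏ i, t i = x
  hto : ∀ i, cardFactors (t i) = a i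
  ht' : ∀ i, t' i ∣ x
  htp' : ∏ i, t' i = x
  hto' : ∀ i, cardFactors (t' i) = a i
  hq : ∀ i, (q i).Prime
  hq1 : ∀ i, (q i : ℝ) ≤ yy u
  hq2 : ∀ i, Real.sqrt (yy u) < q i
  hne : ∃ i, q i ≠ q ((finRotate k).symm i)
  hch : ∀ i, (q ((finRotate k).symm i) : ℝ) * t' i ≤ C1 * (q i * t i)
  hl0 : ∀ i, 0 < l i
  hl : ∀ i, (l i : ℝ) ≤ N / (C1 * (q i * t i))
  hlo : ∀ i, cardFactors (l i) = m - 1 - a i
  hlp : ∀ i, ∀ p : ℕ, p.Prime → p ∣ l i → yy u < p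

theorem sqrt_yy (u : ℕ) : Real.sqrt (yy u) = Real.exp (Real.exp u / 2) := by
  unfold yy
  rw [Real.sqrt_eq_iff_mul_self_eq (Real.exp_pos _).le (Real.exp_pos _).le, ← Real.exp_add]
  congr 1
  ring

theorem yy_le_sqrt {u u₁ : ℕ} (h : u < u₁) : yy u ≤ Real.sqrt (yy u₁) := by
  rw [sqrt_yy, yy]
  apply Real.exp_le_exp.2
  have h1 : Real.exp ((u : ℝ) + 1) ≤ Real.exp u₁ := Real.exp_le_exp.2 (by exact_mod_cast h)
  rw [Real.exp_add] at h1
  have h2 : (2 : ℝ) ≤ Real.exp 1 := by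
    have := Real.add_one_le_exp (1 : ℝ)
    linarith
  have h3 : Real.exp (u : ℝ) * 2 ≤ Real.exp u * Real.exp 1 :=
    mul_le_mul_of_nonneg_left h2 (Real.exp_pos _).le
  linarith

namespace Gd

variable {k N m : ℕ} {C1 : ℝ} {u : ℕ} {a : Fin k → ℕ} {x : ℕ} {t t' q l : Fin k → ℕ}

theorem t_small (h : Gd k N m C1 u a x t t' q l) {p : ℕ} {d : ℕ} (hd : d ∣ x) (hp : p ∣ d) :
    (p : ℝ) < Real.sqrt (yy u) := by
  have h1 : (p : ℝ) ≤ x := by exact_mod_cast Nat.le_of_dvd h.hx0 (hp.trans hd)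
  have h2 : Real.exp (Real.exp (u : ℝ) / 10) < Real.sqrt (yy u) := by
    rw [sqrt_yy]
    apply Real.exp_lt_exp.2
    have := Real.exp_pos (u : ℝ)
    linarith
  exact (h1.trans h.hx).trans_lt h2

theorem t_pos (h : Gd k N m C1 u a x t t' q l) (i : Fin k) : 0 < t i :=
  Nat.pos_of_dvd_of_pos (h.ht i) h.hx0

theorem t'_pos (h : Gd k N m C1 u a x t t' q l) (i : Fin k) : 0 < t' i :=
  Nat.pos_of_dvd_of_pos (h.ht' i) h.hx0

theorem sqrt_le (u : ℕ) : Real.sqrt (yy u) ≤ yy u := by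
  rw [sqrt_yy, yy]
  apply Real.exp_le_exp.2
  have := Real.exp_pos (u : ℝ)
  linarith

/-- the scale is determined -/
theorem scale_le {u₁ : ℕ} {a₁ : Fin k → ℕ} {x₁ : ℕ} {t₁ t₁' q₁ l₁ : Fin k → ℕ}
    (h : Gd k N m C1 u a x t t' q l) (h₁ : Gd k N m C1 u₁ a₁ x₁ t₁ t₁' q₁ l₁)
    (hn : ∀ i, q i * t i * l i = q₁ i * t₁ i * l₁ i)
    (hn' : ∀ i, q ((finRotate k).symm i) * t' i * l i =
      q₁ ((finRotate k).symm i) * t₁' i * l₁ i) : u₁ ≤ u := by
  by_contra hlt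
  push Not at hlt
  obtain ⟨i, hi⟩ := h₁.hne
  have hQ := h₁.hq i
  have hQbig : yy u < q₁ i := (yy_le_sqrt hlt).trans_lt (h₁.hq2 i)
  have hdvd : q₁ i ∣ q i * t i * l i := by
    rw [hn i, mul_assoc]; exact dvd_mul_right _ _
  have h1 : q₁ i ∣ l i := by
    rcases (hQ.dvd_mul).1 hdvd with h2 | h2
    · rcases (hQ.dvd_mul).1 h2 with h3 | h3
      · exfalso
        have h4 : q₁ i = q i := (Nat.prime_dvd_prime_iff_eq hQ (h.hq i)).1 h3
        have h5 := h.hq1 i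
        rw [← h4] at h5
        linarith
      · exfalso
        have h4 := h.t_small (h.ht i) h3
        have h5 := sqrt_le u
        linarith
    · exact h2
  have h2 : q₁ i ∣ q₁ ((finRotate k).symm i) * t₁' i * l₁ i := by
    rw [← hn' i]; exact h1.mul_left _
  rcases (hQ.dvd_mul).1 h2 with h3 | h3
  · rcases (hQ.dvd_mul).1 h3 with h4 | h4
    · exact hi ((Nat.prime_dvd_prime_iff_eq hQ (h₁.hq _)).1 h4)
    · have h5 := h₁.t_small (h₁.ht' i) h4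
      have h6 := h₁.hq2 i
      linarith
  · have h4 := h₁.hlp i _ hQ h3
    have h5 := h₁.hq1 i
    linarith

theorem coprime_t_l (h : Gd k N m C1 u a x t t' q l) {a₁ : Fin k → ℕ} {x₁ : ℕ}
    {t₁ t₁' q₁ l₁ : Fin k → ℕ} (h₁ : Gd k N m C1 u a₁ x₁ t₁ t₁' q₁ l₁) (i : Fin k) :
    Nat.Coprime (t i) (l₁ i) := by
  apply Nat.Coprime.symm
  rw [Nat.coprime_comm]
  apply Nat.coprime_of_dvd
  intro p hp h1 h2
  have h3 := h.t_small (h.ht i) h1
  have h4 := h₁.hlp i p hp h2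
  have h5 := sqrt_le u
  linarith

/-- everything is determined -/
theorem inj {a₁ : Fin k → ℕ} {x₁ : ℕ} {t₁ t₁' q₁ l₁ : Fin k → ℕ}
    (h : Gd k N m C1 u a x t t' q l) (h₁ : Gd k N m C1 u a₁ x₁ t₁ t₁' q₁ l₁)
    (hn : ∀ i, q i * t i * l i = q₁ i * t₁ i * l₁ i)
    (hn' : ∀ i, q ((finRotate k).symm i) * t' i * l i =
      q₁ ((finRotate k).symm i) * t₁' i * l₁ i) :
    a = a₁ ∧ x = x₁ ∧ t = t₁ ∧ t' = t₁' ∧ q = q₁ ∧ l = l₁ := by
  have hqq : q = q₁ := by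
    funext i
    have hQ := h.hq i
    have hdvd : q i ∣ q₁ i * t₁ i * l₁ i := by
      rw [← hn i, mul_assoc]; exact dvd_mul_right _ _
    rcases (hQ.dvd_mul).1 hdvd with h2 | h2
    · rcases (hQ.dvd_mul).1 h2 with h3 | h3
      · exact (Nat.prime_dvd_prime_iff_eq hQ (h₁.hq i)).1 h3
      · exfalso
        have h4 := h₁.t_small (h₁.ht i) h3
        have h5 := h.hq2 i
        linarith
    · exfalso
      have h4 := h₁.hlp i _ hQ h2
      have h5 := h.hq1 i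
      linarith
  subst hqq
  have htl : ∀ i, t i * l i = t₁ i * l₁ i := by
    intro i
    have := hn i
    rw [mul_assoc, mul_assoc] at this
    exact Nat.eq_of_mul_eq_mul_left (h.hq i).pos this
  have htt : t = t₁ := by
    funext i
    apply Nat.dvd_antisymm
    · exact (h.coprime_t_l h₁ i).dvd_of_dvd_mul_right (by rw [← htl i]; exact dvd_mul_right _ _)
    · exact (h₁.coprime_t_l h i).dvd_of_dvd_mul_right (by rw [htl i]; exact dvd_mul_right _ _)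
  subst htt
  have hll : l = l₁ := by
    funext i
    exact Nat.eq_of_mul_eq_mul_left (h.t_pos i) (htl i)
  subst hll
  have htt' : t' = t₁' := by
    funext i
    have h1 := Nat.eq_of_mul_eq_mul_right (h.hl0 i) (hn' i)
    exact Nat.eq_of_mul_eq_mul_left (h.hq _).pos h1
  refine ⟨?_, ?_, rfl, htt', rfl, rfl⟩
  · funext i
    rw [← h.hto i, h₁.hto i]
  · rw [← h.htp, h₁.htp]

theorem bound (h : Gd k N m C1 u a x t t' q l) (hC1 : 1 ≤ C1) (i : Fin k) :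
    C1 * (q i * t i) * l i ≤ N := by
  have h1 := h.hl i
  have h2 : (0 : ℝ) < q i := by exact_mod_cast (h.hq i).pos
  have h3 : (0 : ℝ) < t i := by exact_mod_cast h.t_pos i
  have h4 : 0 < C1 * (q i * t i) := by positivity
  rw [le_div_iff₀ h4] at h1
  linarith

theorem mem1 (h : Gd k N m C1 u a x t t' q l) (hC1 : 1 ≤ C1) (i : Fin k) :
    q i * t i * l i ∈ AA N m := by
  unfold AA
  have hq0 := (h.hq i).pos
  have ht0 := h.t_pos i
  have hl0 := h.hl0 i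
  rw [Finset.mem_filter, Finset.mem_Icc]
  refine ⟨⟨Nat.mul_pos (Nat.mul_pos hq0 ht0) hl0, ?_⟩, ?_⟩
  · have h1 := h.bound hC1 i
    have h2 : (q i * t i : ℝ) * l i ≤ C1 * (q i * t i) * l i := by
      apply mul_le_mul_of_nonneg_right _ (by positivity)
      exact le_mul_of_one_le_left (by positivity) hC1
    exact_mod_cast h2.trans h1
  · rw [cardFactors_mul (Nat.mul_pos hq0 ht0).ne' hl0.ne', cardFactors_mul hq0.ne' ht0.ne',
      h.hto, h.hlo, cardFactors_apply_prime (h.hq i)]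
    have := h.ha i
    omega

theorem mem2 (h : Gd k N m C1 u a x t t' q l) (hC1 : 1 ≤ C1) (i : Fin k) :
    q ((finRotate k).symm i) * t' i * l i ∈ AA N m := by
  unfold AA
  have hq0 := (h.hq ((finRotate k).symm i)).pos
  have ht0 := h.t'_pos i
  have hl0 := h.hl0 i
  rw [Finset.mem_filter, Finset.mem_Icc]
  refine ⟨⟨Nat.mul_pos (Nat.mul_pos hq0 ht0) hl0, ?_⟩, ?_⟩
  · have h1 := h.bound hC1 i
    have h2 : (q ((finRotate k).symm i) * t' i : ℝ) * l i ≤ C1 * (q i * t i) * l i :=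
      mul_le_mul_of_nonneg_right (h.hch i) (by positivity)
    exact_mod_cast h2.trans h1
  · rw [cardFactors_mul (Nat.mul_pos hq0 ht0).ne' hl0.ne', cardFactors_mul hq0.ne' ht0.ne',
      h.hto', h.hlo, cardFactors_apply_prime (h.hq _)]
    have := h.ha i
    omega

theorem prods (h : Gd k N m C1 u a x t t' q l) :
    ∏ i, (q i * t i * l i) = ∏ i, (q ((finRotate k).symm i) * t' i * l i) := by
  simp only [Finset.prod_mul_distrib]
  rw [h.htp, h.htp', Equiv.prod_comp (finRotate k).symm q]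

end Gd

theorem Gd.mk' {k N m : ℕ} {C1 : ℝ} {u : ℕ} {a : Fin k → ℕ} {x : ℕ} {t t' q l : Fin k → ℕ}
    (hu : 1 ≤ u) (ha : a ∈ Fintype.piFinset (fun _ : Fin k => Finset.range m))
    (hx : x ∈ Sx u (∑ i, a i)) (ht : t ∈ Ft k x a) (ht' : t' ∈ Ft k x a)
    (hq : q ∈ Ch k C1 u t t') (hl : l ∈ Fintype.piFinset fun i =>
      RR (pr ⌊yy u⌋₊) (m - 1 - a i) ((N : ℝ) / (C1 * (q i * t i)))) (hC1 : 1 ≤ C1) :
    Gd k N m C1 u a x t t' q l := by
  rw [Fintype.mem_piFinset] at ha hl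
  unfold Sx at hx
  unfold Ft at ht ht'
  unfold Ch at hq
  rw [Finset.mem_filter, Finset.mem_Icc] at hx
  rw [Finset.mem_filter, Fintype.mem_piFinset] at ht ht' hq
  have hq' : ∀ i, (q i).Prime ∧ (q i : ℝ) ≤ yy u ∧ Real.sqrt (yy u) < q i := by
    intro i
    have h1 := hq.1 i
    rw [Finset.mem_filter, Finset.mem_Icc] at h1
    refine ⟨h1.2.1, ?_, h1.2.2⟩
    exact (Nat.le_floor_iff (Real.exp_pos _).le).1 h1.1.2
  have ht0 : ∀ i, 0 < t i := fun i => Nat.pos_of_mem_divisors (ht.1 i)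
  have hl' : ∀ i, 0 < l i ∧ (l i : ℝ) ≤ N / (C1 * (q i * t i)) ∧
      cardFactors (l i) = m - 1 - a i ∧ ∀ p : ℕ, p.Prime → p ∣ l i → yy u < p := by
    intro i
    have h1 := hl i
    unfold RR at h1
    rw [Finset.mem_filter, Finset.mem_Icc] at h1
    have h3 : (0 : ℝ) ≤ N / (C1 * (q i * t i)) := by positivity
    refine ⟨h1.1.1, (Nat.le_floor_iff h3).1 h1.1.2, h1.2.1, ?_⟩
    intro p hp hpl
    by_contra hcon
    push Not at hcon
    refine h1.2.2 p ?_ hpl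
    unfold pr
    rw [Finset.mem_filter, Finset.mem_Icc]
    exact ⟨⟨hp.pos, Nat.le_floor hcon⟩, hp⟩
  exact {
    hu := hu
    ha := fun i => Finset.mem_range.1 (ha i)
    hx := (Nat.le_floor_iff (Real.exp_pos _).le).1 hx.1.2
    hx0 := hx.1.1
    ht := fun i => Nat.dvd_of_mem_divisors (ht.1 i)
    htp := ht.2.1
    hto := ht.2.2
    ht' := fun i => Nat.dvd_of_mem_divisors (ht'.1 i)
    htp' := ht'.2.1
    hto' := ht'.2.2
    hq := fun i => (hq' i).1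
    hq1 := fun i => (hq' i).2.1
    hq2 := fun i => (hq' i).2.2
    hne := hq.2.1
    hch := hq.2.2
    hl0 := fun i => (hl' i).1
    hl := fun i => (hl' i).2.1
    hlo := fun i => (hl' i).2.2.1
    hlp := fun i => (hl' i).2.2.2 }

theorem energy_ge_scales {k : ℕ} (hk : 2 ≤ k) (N m : ℕ) {C1 : ℝ} (hC1 : 1 ≤ C1) (U : Finset ℕ)
    (hU : ∀ u ∈ U, 1 ≤ u) :
    ∑ u ∈ U, ∑ a ∈ Fintype.piFinset (fun _ : Fin k => Finset.range m),
      ∑ x ∈ Sx u (∑ i, a i), ∑ t ∈ Ft k x a, ∑ t' ∈ Ft k x a, ∑ q ∈ Ch k C1 u t t',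
        ∏ i, (RR (pr ⌊yy u⌋₊) (m - 1 - a i) ((N : ℝ) / (C1 * (q i * t i)))).card
      ≤ TT k (AA N m) := by
  classical
  have hcard : (U.sigma fun u => (Fintype.piFinset (fun _ : Fin k => Finset.range m)).sigma
      fun a => (Sx u (∑ i, a i)).sigma fun x => (Ft k x a).sigma fun t => (Ft k x a).sigma
      fun t' => (Ch k C1 u t t').sigma fun q => Fintype.piFinset fun i =>
        RR (pr ⌊yy u⌋₊) (m - 1 - a i) ((N : ℝ) / (C1 * (q i * t i)))).card =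
      ∑ u ∈ U, ∑ a ∈ Fintype.piFinset (fun _ : Fin k => Finset.range m),
      ∑ x ∈ Sx u (∑ i, a i), ∑ t ∈ Ft k x a, ∑ t' ∈ Ft k x a, ∑ q ∈ Ch k C1 u t t',
        ∏ i, (RR (pr ⌊yy u⌋₊) (m - 1 - a i) ((N : ℝ) / (C1 * (q i * t i)))).card := by
    simp only [Finset.card_sigma, Fintype.card_piFinset]
  rw [← hcard, TT]
  apply Finset.card_le_card_of_injOn (fun z =>
    ((fun i => z.2.2.2.2.2.1 i * z.2.2.2.1 i * z.2.2.2.2.2.2 i : Fin k → ℕ),
      (fun i => z.2.2.2.2.2.1 ((finRotate k).symm i) * z.2.2.2.2.1 i * z.2.2.2.2.2.2 i :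
        Fin k → ℕ)))
  · rintro ⟨u, a, x, t, t', q, l⟩ hz
    simp only [Finset.coe_sigma, Set.mem_sigma_iff, Finset.mem_coe, Finset.mem_sigma] at hz
    obtain ⟨h1, h2, h3, h4, h5, h6, h7⟩ := hz
    have hG := Gd.mk' (hU u h1) h2 h3 h4 h5 h6 h7 hC1
    simp only [Finset.coe_filter, Finset.mem_product, Fintype.mem_piFinset]
    exact ⟨⟨fun i => hG.mem1 hC1 i, fun i => hG.mem2 hC1 i⟩, hG.prods⟩
  · rintro ⟨u, a, x, t, t', q, l⟩ hz ⟨u₁, a₁, x₁, t₁, t₁', q₁, l₁⟩ hz₁ heq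
    simp only [Finset.coe_sigma, Set.mem_sigma_iff, Finset.mem_coe, Finset.mem_sigma] at hz hz₁
    obtain ⟨h1, h2, h3, h4, h5, h6, h7⟩ := hz
    have hG := Gd.mk' (hU u h1) h2 h3 h4 h5 h6 h7 hC1
    obtain ⟨h1', h2', h3', h4', h5', h6', h7'⟩ := hz₁
    have hG₁ := Gd.mk' (hU u₁ h1') h2' h3' h4' h5' h6' h7' hC1
    rw [Prod.mk.injEq] at heq
    have hn : ∀ i, q i * t i * l i = q₁ i * t₁ i * l₁ i := fun i => congrFun heq.1 i
    have hn' : ∀ i, q ((finRotate k).symm i) * t' i * l i =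
      q₁ ((finRotate k).symm i) * t₁' i * l₁ i := fun i => congrFun heq.2 i
    have hle1 := hG.scale_le hG₁ hn hn'
    have hle2 := hG₁.scale_le hG (fun i => (hn i).symm) (fun i => (hn' i).symm)
    have huu : u = u₁ := le_antisymm hle2 hle1
    subst huu
    obtain ⟨e1, e2, e3, e4, e5, e6⟩ := hG.inj hG₁ hn hn'
    subst e1 e2 e3 e4 e5 e6
    rfl

end Pool.Agent.Helper256.KM
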