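import Mathlib
import Pool.Agent.Helper256.KM.Defs
import Pool.Agent.Helper256.KM.A1
import Pool.Agent.Helper256.KM.A2
import Pool.Agent.Helper256.KM.B2

set_option autoImplicit false

namespace Pool.Agent.Helper256.KM

open Finset ArithmeticFunction

theorem lower_unif {ε : ℝ} (hε : 0 < ε) (hε1 : ε ≤ 1) : ∃ (c η : ℝ) (N₀ : ℕ), 0 < c ∧ 0 < η ∧
    η ≤ 1 ∧ ∀ N : ℕ, N₀ ≤ N → ∀ P : Finset ℕ, (∀ p ∈ P, p.Prime ∧ (p : ℝ) ≤ (N : ℝ) ^ η) →
    ∀ (r : ℕ) (x ρ : ℝ), (N : ℝ) ^ (1 - η) ≤ x → x ≤ N → 0 ≤ ρ → ρ ≤ 1 - ε →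
    (r : ℝ) ≤ ρ * p1 (pr N \ P) →
    c * (x / Real.log N) * hh (pr N \ P) r ≤ ((RR P (r + 1) x).card : ℝ) := by
  obtain ⟨C, hC, hlog⟩ := log_avg
  have hev : ∀ᶠ x : ℝ in Filter.atTop, 2 ≤ x ∧ C ≤ ε / 2 * Real.log x ∧
      8 ≤ x ^ (3 * ε / 16) ∧ 16 * Real.log x ≤ x ^ (ε / 16) := by
    have h1 : ∀ᶠ x : ℝ in Filter.atTop, 2 ≤ x := Filter.eventually_ge_atTop 2
    have h2 : ∀ᶠ x : ℝ in Filter.atTop, C / (ε / 2) ≤ Real.log x :=
      Real.tendsto_log_atTop.eventually (Filter.eventually_ge_atTop _)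
    have h3 : ∀ᶠ x : ℝ in Filter.atTop, 8 ≤ x ^ (3 * ε / 16) :=
      (tendsto_rpow_atTop (by positivity)).eventually (Filter.eventually_ge_atTop 8)
    have h4 := (isLittleO_log_rpow_atTop (by positivity : 0 < ε / 16)).bound
      (by norm_num : (0 : ℝ) < 1 / 16)
    filter_upwards [h1, h2, h3, h4] with x a b c d
    refine ⟨a, ?_, c, ?_⟩
    · rw [div_le_iff₀ (by positivity)] at b
      linarith
    · rw [Real.norm_eq_abs, Real.norm_eq_abs, abs_of_nonneg (Real.log_nonneg (by linarith)),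
        abs_of_nonneg (Real.rpow_nonneg (by linarith) _)] at d
      linarith
  obtain ⟨N₀, hN₀⟩ := Filter.eventually_atTop.1
    ((tendsto_natCast_atTop_atTop (R := ℝ)).eventually hev)
  refine ⟨ε ^ 2 / 256, ε / 16, N₀, by positivity, by positivity, by linarith, ?_⟩
  intro N hN P hP r x ρ hx1 hx2 hρ0 hρ1 hr
  obtain ⟨hN2, hCN, h8, hlg⟩ := hN₀ N hN
  have hN0 : (0 : ℝ) < N := by linarith
  have hN2' : 2 ≤ N := by exact_mod_cast hN2
  have hlogN : 0 < Real.log N := Real.log_pos (by linarith)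
  have hx0 : 0 < x := lt_of_lt_of_le (Real.rpow_pos_of_pos hN0 _) hx1
  have hQ : pr N \ P ⊆ pr N := sdiff_subset
  have hav := hlog N (pr N \ P) (by omega) hQ r ρ hρ0 (by linarith) hr
  have hsmall := sum_small hε hε1 hN2' hC hCN (Q := pr N \ P) (r := r) hρ1 hρ0 hav
  set G := (fac (pr N \ P) r).filter (fun g : ℕ => (g : ℝ) ≤ (N : ℝ) ^ (1 - ε / 4)) with hG
  have hz1 : 1 < (N : ℝ) ^ (ε / 8) := Real.one_lt_rpow (by linarith) (by positivity)
  have hzN : (N : ℝ) = ((N : ℝ) ^ (ε / 8)) ^ (8 / ε) := by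
    rw [← Real.rpow_mul hN0.le]
    have : ε / 8 * (8 / ε) = 1 := by field_simp
    rw [this, Real.rpow_one]
  have hcp := count_pairs (P := P) (fun p hp => (hP p hp).1) (N := N) (r := r) hx0 hx2 hz1 hzN
    (by positivity) G (filter_subset _ _)
  have hPcard : (P.card : ℝ) ≤ (N : ℝ) ^ (ε / 16) := by
    have hsub : P ⊆ Finset.Icc 1 ⌊(N : ℝ) ^ (ε / 16)⌋₊ := by
      intro p hp
      rw [Finset.mem_Icc]
      exact ⟨(hP p hp).1.one_lt.le, Nat.le_floor (hP p hp).2⟩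
    have h1 := card_le_card hsub
    rw [Nat.card_Icc, Nat.add_sub_cancel] at h1
    have h2 : ((⌊(N : ℝ) ^ (ε / 16)⌋₊ : ℕ) : ℝ) ≤ (N : ℝ) ^ (ε / 16) :=
      Nat.floor_le (Real.rpow_nonneg hN0.le _)
    have h3 : (P.card : ℝ) ≤ ((⌊(N : ℝ) ^ (ε / 16)⌋₊ : ℕ) : ℝ) := by exact_mod_cast h1
    linarith
  have hmono : (N : ℝ) ^ (ε / 16) ≤ (N : ℝ) ^ (ε / 8) :=
    Real.rpow_le_rpow_of_exponent_le (by linarith) (by linarith)
  have hpos16 : 0 < (N : ℝ) ^ (ε / 16) := Real.rpow_pos_of_pos hN0 _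
  have hpos8 : 0 < (N : ℝ) ^ (ε / 8) := Real.rpow_pos_of_pos hN0 _
  have hprod : (N : ℝ) ^ (ε / 16) * (N : ℝ) ^ (ε / 8) = (N : ℝ) ^ (3 * ε / 16) := by
    rw [← Real.rpow_add hN0]
    congr 1
    ring
  have hterm : ∀ g ∈ G, x / (8 * Real.log N) * (1 / (g : ℝ)) ≤
      ((bp P ((N : ℝ) ^ (ε / 8)) (x / g)).card : ℝ) := by
    intro g hg
    rw [hG, mem_filter, mem_fac] at hg
    have hg0 : g ≠ 0 := (Nat.mem_factoredNumbers.1 hg.1.1).1
    have hg1 : (1 : ℝ) ≤ g := by exact_mod_cast Nat.one_le_iff_ne_zero.2 hg0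
    have hgpos : (0 : ℝ) < g := by linarith
    have hy : (N : ℝ) ^ (3 * ε / 16) ≤ x / g := by
      rw [le_div_iff₀ hgpos]
      calc (N : ℝ) ^ (3 * ε / 16) * g ≤ (N : ℝ) ^ (3 * ε / 16) * (N : ℝ) ^ (1 - ε / 4) :=
            mul_le_mul_of_nonneg_left hg.2 (Real.rpow_nonneg hN0.le _)
        _ = (N : ℝ) ^ (1 - ε / 16) := by
          rw [← Real.rpow_add hN0]
          congr 1
          ring
        _ ≤ x := hx1
    have hy8 : 8 ≤ x / g := h8.trans hy
    have hyN : x / g ≤ N := (div_le_self hx0.le hg1).trans hx2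
    have hb := card_bp P hpos8.le hy8
    have hlogy : 0 < Real.log (x / g) := Real.log_pos (by linarith)
    have hlogle : Real.log (x / g) ≤ Real.log N := Real.log_le_log (by linarith) hyN
    have h5 : (x / g) / (4 * Real.log N) ≤ (x / g) / (4 * Real.log (x / g)) :=
      div_le_div_of_nonneg_left (by linarith) (by linarith) (by linarith)
    have h6 : (N : ℝ) ^ (ε / 8) + P.card ≤ (x / g) / (8 * Real.log N) := by
      rw [le_div_iff₀ (by positivity)]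
      calc ((N : ℝ) ^ (ε / 8) + P.card) * (8 * Real.log N)
          ≤ (2 * (N : ℝ) ^ (ε / 8)) * (8 * Real.log N) :=
            mul_le_mul_of_nonneg_right (by linarith) (by positivity)
        _ = (16 * Real.log N) * (N : ℝ) ^ (ε / 8) := by ring
        _ ≤ (N : ℝ) ^ (ε / 16) * (N : ℝ) ^ (ε / 8) := mul_le_mul_of_nonneg_right hlg hpos8.le
        _ = (N : ℝ) ^ (3 * ε / 16) := hprod
        _ ≤ x / g := hy
    have h7 : (x / g) / (4 * Real.log N) = (x / g) / (8 * Real.log N) + (x / g) / (8 * Real.log N) := by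
      field_simp
      norm_num
    have h8' : x / (8 * Real.log N) * (1 / (g : ℝ)) = (x / g) / (8 * Real.log N) := by
      field_simp
    rw [h8']
    linarith
  have hsum : x / (8 * Real.log N) * ∑ g ∈ G, (1 : ℝ) / g ≤
      8 / ε * ((RR P (r + 1) x).card : ℝ) := by
    rw [Finset.mul_sum]
    exact (Finset.sum_le_sum hterm).trans hcp
  have hxl : 0 < x / (8 * Real.log N) := by positivity
  have h9 : x / (8 * Real.log N) * (ε / 4 * hh (pr N \ P) r) ≤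
      8 / ε * ((RR P (r + 1) x).card : ℝ) :=
    (mul_le_mul_of_nonneg_left hsmall hxl.le).trans hsum
  have h10 : ε / 8 * (x / (8 * Real.log N) * (ε / 4 * hh (pr N \ P) r)) ≤
      ε / 8 * (8 / ε * ((RR P (r + 1) x).card : ℝ)) :=
    mul_le_mul_of_nonneg_left h9 (by positivity)
  have h11' : ∀ K : ℝ, ε / 8 * (8 / ε * K) = K := by
    intro K
    field_simp
  have h11 := h11' ((RR P (r + 1) x).card : ℝ)
  have h12' : ∀ K L : ℝ, L ≠ 0 → ε / 8 * (x / (8 * L) * (ε / 4 * K)) =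
      ε ^ 2 / 256 * (x / L) * K := by
    intro K L hL
    field_simp
    ring
  have h12 := h12' (hh (pr N \ P) r) (Real.log N) hlogN.ne'
  rw [h11, h12] at h10
  exact h10

end Pool.Agent.Helper256.KM
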