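import Mathlib
import Pool.Agent.Helper256.KM.Defs

set_option autoImplicit false

namespace Pool.Agent.Helper256.KM

open Finset ArithmeticFunction

theorem mem_Ft_iff {k x : ℕ} {a : Fin k → ℕ} (hx : x ≠ 0) (t : Fin k → ℕ) :
    t ∈ Ft k x a ↔ ∏ i, t i = x ∧ ∀ i, cardFactors (t i) = a i := by
  unfold Ft
  rw [Finset.mem_filter, Fintype.mem_piFinset]
  constructor
  · rintro ⟨_, h⟩
    exact h
  · intro h
    refine ⟨fun i => ?_, h⟩
    rw [Nat.mem_divisors]
    exact ⟨h.1 ▸ Finset.dvd_prod_of_mem t (Finset.mem_univ i), hx⟩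

theorem card_divisors_omega (x m : ℕ) (hx : Squarefree x) :
    (x.divisors.filter (fun t => cardFactors t = m)).card = (cardFactors x).choose m := by
  have hx0 : x ≠ 0 := hx.ne_zero
  have hΩ : ∀ t, Squarefree t → cardFactors t = t.primeFactors.card := by
    intro t ht
    rw [← (cardDistinctFactors_eq_cardFactors_iff_squarefree ht.ne_zero).2 ht,
      cardDistinctFactors_apply, Nat.primeFactors]
    rfl
  rw [hΩ x hx, ← Finset.card_powersetCard]
  refine Finset.card_bij' (fun t _ => t.primeFactors) (fun s _ => ∏ p ∈ s, p) ?_ ?_ ?_ ?_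
  · intro t ht
    rw [Finset.mem_filter, Nat.mem_divisors] at ht
    rw [Finset.mem_powersetCard]
    exact ⟨Nat.primeFactors_mono ht.1.1 hx0, by
      rw [← hΩ t (hx.squarefree_of_dvd ht.1.1), ht.2]⟩
  · intro s hs
    rw [Finset.mem_powersetCard] at hs
    have hd : ∏ p ∈ s, p ∣ x := by
      conv_rhs => rw [← Nat.prod_primeFactors_of_squarefree hx]
      exact Finset.prod_dvd_prod_of_subset _ _ _ hs.1
    rw [Finset.mem_filter, Nat.mem_divisors]
    refine ⟨⟨hd, hx0⟩, ?_⟩
    rw [hΩ _ (hx.squarefree_of_dvd hd), Nat.primeFactors_prod, hs.2]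
    intro p hp
    exact Nat.prime_of_mem_primeFactors (hs.1 hp)
  · intro t ht
    rw [Finset.mem_filter, Nat.mem_divisors] at ht
    exact Nat.prod_primeFactors_of_squarefree (hx.squarefree_of_dvd ht.1.1)
  · intro s hs
    rw [Finset.mem_powersetCard] at hs
    exact Nat.primeFactors_prod fun p hp => Nat.prime_of_mem_primeFactors (hs.1 hp)

theorem multinomial_succ (k : ℕ) (a : Fin (k + 1) → ℕ) :
    Nat.multinomial Finset.univ a =
      (∑ i, a i).choose (a 0) * Nat.multinomial Finset.univ (Fin.tail a) := by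
  have h1 := Nat.multinomial_spec Finset.univ a
  have h2 := Nat.multinomial_spec Finset.univ (Fin.tail a)
  rw [Fin.prod_univ_succ, Fin.sum_univ_succ] at h1
  have h3 : ∀ i : Fin k, Fin.tail a i = a i.succ := fun i => rfl
  simp only [h3] at h2
  have h4 : (a 0 + ∑ i : Fin k, a i.succ).choose (a 0) * (a 0).factorial *
      (∑ i : Fin k, a i.succ).factorial = (a 0 + ∑ i : Fin k, a i.succ).factorial := by
    have := Nat.choose_mul_factorial_mul_factorial (n := a 0 + ∑ i : Fin k, a i.succ) (k := a 0)
      (by omega)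
    rwa [Nat.add_sub_cancel_left] at this
  rw [Fin.sum_univ_succ]
  have hpos : 0 < (a 0).factorial * ∏ i : Fin k, (a i.succ).factorial := by
    have := Nat.factorial_pos (a 0)
    have h5 : 0 < ∏ i : Fin k, (a i.succ).factorial :=
      Finset.prod_pos fun i _ => Nat.factorial_pos _
    positivity
  apply Nat.eq_of_mul_eq_mul_left hpos
  rw [h1, ← h4, ← h2]
  ring

theorem fact_count (k x : ℕ) (a : Fin k → ℕ) (hx : Squarefree x) (h : cardFactors x = ∑ i, a i) :
    (Ft k x a).card = Nat.multinomial Finset.univ a := by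
  induction k generalizing x with
  | zero =>
    rw [Finset.univ_eq_empty, Finset.sum_empty, cardFactors_eq_zero_iff_eq_zero_or_one] at h
    have hx1 : x = 1 := h.resolve_left hx.ne_zero
    subst hx1
    have h1 : Ft 0 1 a = {Fin.elim0} := by
      ext t
      rw [mem_Ft_iff one_ne_zero, Finset.mem_singleton]
      constructor
      · intro _
        exact Subsingleton.elim _ _
      · intro _
        exact ⟨by simp, fun i => i.elim0⟩
    rw [h1, Finset.card_singleton, Finset.univ_eq_empty, Nat.multinomial_empty]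
  | succ k ih =>
    have hx0 : x ≠ 0 := hx.ne_zero
    have hmaps : ∀ t ∈ Ft (k + 1) x a, t 0 ∈ x.divisors.filter (fun t => cardFactors t = a 0) := by
      intro t ht
      rw [mem_Ft_iff hx0] at ht
      rw [Finset.mem_filter, Nat.mem_divisors]
      exact ⟨⟨ht.1 ▸ Finset.dvd_prod_of_mem t (Finset.mem_univ 0), hx0⟩, ht.2 0⟩
    rw [Finset.card_eq_sum_card_fiberwise hmaps]
    have hf : ∀ t0 ∈ x.divisors.filter (fun t => cardFactors t = a 0),
        ((Ft (k + 1) x a).filter (fun t => t 0 = t0)).card =
          Nat.multinomial Finset.univ (Fin.tail a) := by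
      intro t0 ht0
      rw [Finset.mem_filter, Nat.mem_divisors] at ht0
      obtain ⟨⟨⟨y, rfl⟩, _⟩, h0⟩ := ht0
      have hy : Squarefree y := hx.squarefree_of_dvd (dvd_mul_left y t0)
      have hy0 : y ≠ 0 := hy.ne_zero
      have ht00 : t0 ≠ 0 := by
        rintro rfl
        exact hx0 (zero_mul y)
      have hΩ : cardFactors y = ∑ i, Fin.tail a i := by
        rw [cardFactors_mul ht00 hy0, Fin.sum_univ_succ, h0] at h
        exact Nat.add_left_cancel h
      rw [← ih y (Fin.tail a) hy hΩ]
      refine Finset.card_bij' (fun t _ => Fin.tail t) (fun t' _ => Fin.cons t0 t') ?_ ?_ ?_ ?_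
      · intro t ht
        rw [Finset.mem_filter, mem_Ft_iff hx0] at ht
        obtain ⟨⟨h1, h2⟩, h3⟩ := ht
        rw [mem_Ft_iff hy0]
        refine ⟨?_, fun i => h2 i.succ⟩
        rw [Fin.prod_univ_succ, h3] at h1
        exact Nat.eq_of_mul_eq_mul_left (Nat.pos_of_ne_zero ht00) h1
      · intro t' ht'
        rw [mem_Ft_iff hy0] at ht'
        rw [Finset.mem_filter, mem_Ft_iff hx0]
        refine ⟨⟨?_, ?_⟩, Fin.cons_zero _ _⟩
        · rw [Fin.prod_univ_succ]
          simp only [Fin.cons_zero, Fin.cons_succ]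
          rw [ht'.1]
        · intro i
          refine Fin.cases ?_ (fun i => ?_) i
          · rw [Fin.cons_zero]; exact h0
          · rw [Fin.cons_succ]; exact ht'.2 i
      · intro t ht
        rw [Finset.mem_filter] at ht
        have := Fin.cons_self_tail t
        rw [ht.2] at this
        exact this
      · intro t' _
        exact Fin.tail_cons _ _
    rw [Finset.sum_congr rfl hf, Finset.sum_const, smul_eq_mul, card_divisors_omega x (a 0) hx,
      multinomial_succ, h]

end Pool.Agent.Helper256.KM
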