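import Mathlib
import Pool.Agent.Helper256.KM.Defs

set_option autoImplicit false

namespace Pool.Agent.Helper256.KM

open Finset ArithmeticFunction

theorem log_eight_lt : Real.log 8 < 3 := by
  have : Real.log 8 = 3 * Real.log 2 := by
    rw [show (8 : ℝ) = 2 ^ 3 by norm_num, Real.log_pow]
    norm_num
  have h2 := Real.log_two_lt_d9
  rw [this]
  linarith

theorem theta_gap {Z : ℝ} (hZ : 1000000 ≤ Z) :
    Z ≤ Chebyshev.theta (8 * Z) - Chebyshev.theta Z := by
  have h1 := Chebyshev.theta_ge' (x := 8 * Z) (by linarith)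
  have h2 := Chebyshev.theta_le_log4_mul_x (x := Z) (by linarith)
  have hl2 := Real.log_two_gt_d9
  have hl2' := Real.log_two_lt_d9
  have h4 : Real.log 4 = 2 * Real.log 2 := by
    rw [show (4 : ℝ) = 2 ^ 2 by norm_num, Real.log_pow]
    norm_num
  obtain ⟨s, hs0, hs⟩ : ∃ s : ℝ, 0 < s ∧ s ^ 4 = 8 * Z := by
    refine ⟨Real.sqrt (Real.sqrt (8 * Z)), ?_, ?_⟩
    · apply Real.sqrt_pos.2
      apply Real.sqrt_pos.2
      linarith
    · calc (Real.sqrt (Real.sqrt (8 * Z))) ^ 4
          = ((Real.sqrt (Real.sqrt (8 * Z))) ^ 2) ^ 2 := by ring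
        _ = (Real.sqrt (8 * Z)) ^ 2 := by rw [Real.sq_sqrt (Real.sqrt_nonneg _)]
        _ = 8 * Z := Real.sq_sqrt (by linarith)
  have hs50 : 50 ≤ s := by
    by_contra hlt
    push Not at hlt
    have : s ^ 4 < 50 ^ 4 := pow_lt_pow_left₀ hlt hs0.le (by norm_num)
    rw [hs] at this
    norm_num at this
    linarith
  have hsq : Real.sqrt (8 * Z) = s ^ 2 := by
    rw [← hs, show s ^ 4 = (s ^ 2) ^ 2 by ring]
    exact Real.sqrt_sq (by positivity)
  have hlogs : Real.log s ≤ s := by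
    have := Real.log_le_sub_one_of_pos hs0
    linarith
  have hlogs0 : 0 ≤ Real.log s := Real.log_nonneg (by linarith)
  have hlog : Real.log (8 * Z) = 4 * Real.log s := by
    rw [← hs, Real.log_pow]
    norm_num
  have hlog2 : Real.log (8 * Z + 2) ≤ 8 * s := by
    have h5 : 8 * Z + 2 ≤ (8 * Z) ^ 2 := by nlinarith
    calc Real.log (8 * Z + 2) ≤ Real.log ((8 * Z) ^ 2) :=
          Real.log_le_log (by linarith) h5
      _ = 2 * Real.log (8 * Z) := by rw [Real.log_pow]; norm_num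
      _ = 8 * Real.log s := by rw [hlog]; ring
      _ ≤ 8 * s := by linarith
  have h6 : 2 * Real.sqrt (8 * Z) * Real.log (8 * Z) ≤ 8 * s ^ 3 := by
    rw [hsq, hlog]
    have : 2 * s ^ 2 * (4 * Real.log s) = 8 * s ^ 2 * Real.log s := by ring
    rw [this]
    have : 8 * s ^ 2 * Real.log s ≤ 8 * s ^ 2 * s := by
      apply mul_le_mul_of_nonneg_left hlogs (by positivity)
    calc 8 * s ^ 2 * Real.log s ≤ 8 * s ^ 2 * s := this
      _ = 8 * s ^ 3 := by ring
  have h7 : (8 * Z - 1) * 0.6931471803 ≤ (8 * Z - 1) * Real.log 2 :=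
    mul_le_mul_of_nonneg_left hl2.le (by linarith)
  have h8 : Real.log 4 * Z ≤ 1.3862943618 * Z := by
    apply mul_le_mul_of_nonneg_right _ (by linarith)
    rw [h4]
    linarith
  -- now everything in terms of s
  have hZs : Z = s ^ 4 / 8 := by linarith
  have h9 : (5545177 / 1000000 - 1386295 / 1000000 - 1) * (s ^ 4 / 8) ≥ 8 * s ^ 3 + 8 * s + 1 := by
    have hs3 : 0 < s ^ 3 := by positivity
    have h10 : s ^ 4 = s * s ^ 3 := by ring
    rw [h10]
    have h11 : 50 * s ^ 3 ≤ s * s ^ 3 := mul_le_mul_of_nonneg_right hs50 hs3.le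
    have h12 : 2500 * s ≤ s ^ 3 := by
      have : 2500 ≤ s ^ 2 := by nlinarith
      calc 2500 * s ≤ s ^ 2 * s := mul_le_mul_of_nonneg_right this hs0.le
        _ = s ^ 3 := by ring
    nlinarith
  rw [← hZs] at h9
  have hZ0 : 0 < Z := by linarith
  nlinarith

/-- primes in `(Z, 8Z]` -/
noncomputable def PZ (Z : ℝ) : Finset ℕ := (Finset.Ioc ⌊Z⌋₊ ⌊8 * Z⌋₊).filter Nat.Prime

theorem mem_PZ {Z : ℝ} (hZ : 0 ≤ Z) {q : ℕ} : q ∈ PZ Z ↔ Z < q ∧ (q : ℝ) ≤ 8 * Z ∧ q.Prime := by
  rw [PZ, Finset.mem_filter, Finset.mem_Ioc, Nat.floor_lt hZ, Nat.le_floor_iff (by linarith),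
    and_assoc]

theorem recip_sum {Z L : ℝ} (hZ : 1000000 ≤ Z) (hL : Real.log (8 * Z) ≤ L) :
    1 / (8 * L) ≤ ∑ q ∈ PZ Z, (1 : ℝ) / (q : ℝ) := by
  have hZ0 : 0 < Z := by linarith
  have hlog0 : 0 < Real.log (8 * Z) := Real.log_pos (by linarith)
  have hL0 : 0 < L := lt_of_lt_of_le hlog0 hL
  have hsum : Chebyshev.theta (8 * Z) - Chebyshev.theta Z = ∑ q ∈ PZ Z, Real.log q := by
    rw [Chebyshev.theta, Chebyshev.theta, PZ, Finset.sum_filter, Finset.sum_filter,
      Finset.sum_filter,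
      ← Finset.sum_Ioc_consecutive (fun q : ℕ => if q.Prime then Real.log q else 0)
        (Nat.zero_le ⌊Z⌋₊) (Nat.floor_le_floor (by linarith : Z ≤ 8 * Z))]
    ring
  have hgap := theta_gap hZ
  rw [hsum] at hgap
  have h1 : ∀ q ∈ PZ Z, Real.log q / (8 * Z * L) ≤ (1 : ℝ) / (q : ℝ) := by
    intro q hq
    rw [mem_PZ hZ0.le] at hq
    have hq0 : (0 : ℝ) < q := lt_trans hZ0 hq.1
    rw [div_le_div_iff₀ (by positivity) hq0]
    have hlq : Real.log q ≤ L := le_trans (Real.log_le_log hq0 hq.2.1) hL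
    have hlq0 : 0 ≤ Real.log q := Real.log_nonneg (by linarith)
    calc Real.log q * q ≤ L * (8 * Z) :=
          mul_le_mul hlq hq.2.1 hq0.le hL0.le
      _ = 1 * (8 * Z * L) := by ring
  calc 1 / (8 * L) = Z / (8 * Z * L) := by
        field_simp
    _ ≤ (∑ q ∈ PZ Z, Real.log q) / (8 * Z * L) :=
        div_le_div_of_nonneg_right hgap (by positivity)
    _ = ∑ q ∈ PZ Z, Real.log q / (8 * Z * L) := by rw [Finset.sum_div]
    _ ≤ ∑ q ∈ PZ Z, (1 : ℝ) / (q : ℝ) := Finset.sum_le_sum h1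

/-- cumulative ratio -/
noncomputable def RR_QS {n : ℕ} (t t' : Fin (n + 2) → ℕ) (i : Fin (n + 2)) : ℝ :=
  ∏ j ∈ Finset.univ.filter (fun j => j ≤ i), ((t' j : ℝ) / (t j : ℝ))

theorem RR_cyc {n : ℕ} {t t' : Fin (n + 2) → ℕ} (ht : ∀ i, 0 < t i)
    (hprod : ∏ i, t i = ∏ i, t' i) (i : Fin (n + 2)) :
    RR_QS t t' i * t i = RR_QS t t' ((finRotate (n + 2)).symm i) * t' i := by
  obtain ⟨p, rfl⟩ : ∃ p, i = finRotate (n + 2) p :=
    ⟨(finRotate (n + 2)).symm i, by simp⟩
  rw [Equiv.symm_apply_apply]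
  have ht0 : ∀ i, (t i : ℝ) ≠ 0 := fun i => by exact_mod_cast (ht i).ne'
  by_cases hp : p = Fin.last (n + 1)
  · subst hp
    rw [finRotate_last]
    have h1 : RR_QS t t' (Fin.last (n + 1)) = 1 := by
      rw [RR_QS]
      have : (Finset.univ.filter (fun j : Fin (n + 2) => j ≤ Fin.last (n + 1))) = Finset.univ := by
        ext j
        simp [Fin.le_last]
      rw [this, Finset.prod_div_distrib]
      have h2 : (∏ j, (t' j : ℝ)) = ∏ j, (t j : ℝ) := by
        have h3 : ((∏ j, t j : ℕ) : ℝ) = ((∏ j, t' j : ℕ) : ℝ) := by rw [hprod]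
        push_cast at h3
        exact h3.symm
      rw [h2]
      exact div_self (Finset.prod_ne_zero_iff.2 fun j _ => ht0 j)
    have h2 : RR_QS t t' 0 = (t' 0 : ℝ) / t 0 := by
      rw [RR_QS]
      have : (Finset.univ.filter (fun j : Fin (n + 2) => j ≤ 0)) = {0} := by
        ext j
        simp
      rw [this, Finset.prod_singleton]
    rw [h1, h2, div_mul_cancel₀ _ (ht0 0), one_mul]
  · have hv := coe_finRotate_of_ne_last hp
    set i := finRotate (n + 2) p with hi
    have hins : (Finset.univ.filter (fun j : Fin (n + 2) => j ≤ i)) =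
        insert i (Finset.univ.filter (fun j : Fin (n + 2) => j ≤ p)) := by
      ext j
      simp only [Finset.mem_filter, Finset.mem_univ, true_and, Finset.mem_insert]
      rw [Fin.le_def, Fin.le_def, Fin.ext_iff]
      omega
    have hni : i ∉ (Finset.univ.filter (fun j : Fin (n + 2) => j ≤ p)) := by
      simp only [Finset.mem_filter, Finset.mem_univ, true_and]
      rw [Fin.le_def]
      omega
    rw [RR_QS, hins, Finset.prod_insert hni, ← RR_QS]
    rw [div_mul_eq_mul_div, div_mul_cancel₀ _ (ht0 i)]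
    ring

theorem RR_bounds {n : ℕ} {t t' : Fin (n + 2) → ℕ} {x : ℕ} (hx : 0 < x) (ht : ∀ i, 0 < t i)
    (ht' : ∀ i, 0 < t' i) (hp : ∏ i, t i = x) (hp' : ∏ i, t' i = x) (i : Fin (n + 2)) :
    1 / (x : ℝ) ≤ RR_QS t t' i ∧ RR_QS t t' i ≤ x := by
  rw [RR_QS, Finset.prod_div_distrib]
  set S := Finset.univ.filter (fun j : Fin (n + 2) => j ≤ i) with hS
  have hgen : ∀ s : Fin (n + 2) → ℕ, (∀ i, 0 < s i) → ∏ i, s i = x →
      (1 : ℝ) ≤ ∏ j ∈ S, (s j : ℝ) ∧ ∏ j ∈ S, (s j : ℝ) ≤ x := by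
    intro s hs hsp
    constructor
    · have : 0 < ∏ j ∈ S, s j := Finset.prod_pos fun j _ => hs j
      have : 1 ≤ ∏ j ∈ S, s j := this
      exact_mod_cast this
    · have hd : ∏ j ∈ S, s j ∣ x := by
        rw [← hsp]
        exact Finset.prod_dvd_prod_of_subset _ _ _ (Finset.subset_univ _)
      have := Nat.le_of_dvd hx hd
      exact_mod_cast this
  obtain ⟨a1, a2⟩ := hgen t ht hp
  obtain ⟨b1, b2⟩ := hgen t' ht' hp'
  have hx1 : (0 : ℝ) < x := by exact_mod_cast hx
  constructor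
  · rw [div_le_div_iff₀ hx1 (by linarith)]
    nlinarith
  · rw [div_le_iff₀ (by linarith)]
    nlinarith

theorem chain_sum {k : ℕ} (hk : 2 ≤ k) : ∃ (C1 c : ℝ) (u₀ : ℕ), 1 ≤ C1 ∧ 0 < c ∧ ∀ u : ℕ, u₀ ≤ u →
    ∀ (A x : ℕ) (a : Fin k → ℕ), x ∈ Sx u A → ∀ t ∈ Ft k x a, ∀ t' ∈ Ft k x a,
    c * Real.exp (-((k : ℝ) - 1) * u) ≤ ∑ q ∈ Ch k C1 u t t', ∏ i, (1 : ℝ) / (q i : ℝ) := by
  obtain ⟨n, rfl⟩ : ∃ n, k = n + 2 := ⟨k - 2, by omega⟩
  refine ⟨64, (1 / 60) * (1 / 8) ^ (n + 2), 5, by norm_num, by positivity, ?_⟩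
  intro u hu A x a hx t ht t' ht'
  -- the scale
  set E : ℝ := Real.exp u with hE
  have hE60 : 100 ≤ E := by
    have h5 : (5 : ℝ) ≤ u := by exact_mod_cast hu
    have h1 : Real.exp 5 ≤ E := Real.exp_le_exp.2 h5
    have h2 : (2.7 : ℝ) < Real.exp 1 := by
      have := Real.exp_one_gt_d9
      linarith
    have h3 : Real.exp 5 = (Real.exp 1) ^ 5 := by
      rw [← Real.exp_nat_mul]
      norm_num
    have h4 : (2.7 : ℝ) ^ 5 ≤ (Real.exp 1) ^ 5 := pow_le_pow_left₀ (by norm_num) h2.le 5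
    rw [← h3] at h4
    norm_num at h4
    linarith
  have hE0 : 0 < E := by linarith
  -- data on x, t, t'
  rw [Sx, Finset.mem_filter, Finset.mem_Icc] at hx
  have hx0 : 0 < x := hx.1.1
  have hxX : (x : ℝ) ≤ Real.exp (E / 10) := by
    have := (Nat.le_floor_iff (Real.exp_pos _).le).1 hx.1.2
    exact this
  rw [Ft, Finset.mem_filter, Fintype.mem_piFinset] at ht ht'
  have htp : ∀ i, 0 < t i := fun i => Nat.pos_of_mem_divisors (ht.1 i)
  have htp' : ∀ i, 0 < t' i := fun i => Nat.pos_of_mem_divisors (ht'.1 i)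
  have hprod := ht.2.1
  have hprod' := ht'.2.1
  have hxr : (0 : ℝ) < x := by exact_mod_cast hx0
  have hRlow : ∀ i, Real.exp (-(E / 10)) ≤ RR_QS t t' i := by
    intro i
    refine le_trans ?_ (RR_bounds hx0 htp htp' hprod hprod' i).1
    rw [Real.exp_neg, ← one_div]
    exact one_div_le_one_div_of_le hxr hxX
  have hRup : ∀ i, RR_QS t t' i ≤ Real.exp (E / 10) := fun i =>
    le_trans (RR_bounds hx0 htp htp' hprod hprod' i).2 hxX
  have hR0 : ∀ i, 0 < RR_QS t t' i := fun i => lt_of_lt_of_le (Real.exp_pos _) (hRlow i)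
  -- offsets
  obtain ⟨e, he, he01⟩ : ∃ e : Fin (n + 2) → ℕ, (∀ i, e i = 0 ∨ e i = 1) ∧
      ((RR_QS t t' 0 ≤ RR_QS t t' 1 ∧ e 0 = 0 ∧ e 1 = 1) ∨
        (RR_QS t t' 1 < RR_QS t t' 0 ∧ e 0 = 1 ∧ e 1 = 0)) := by
    by_cases h : RR_QS t t' 0 ≤ RR_QS t t' 1
    · refine ⟨fun i => if i = 1 then 1 else 0, fun i => ?_, Or.inl ⟨h, ?_, ?_⟩⟩
      · by_cases hi : i = 1
        · right; simp [hi]
        · left; simp [hi]
      · simp
      · simp
    · push Not at h
      refine ⟨fun i => if i = 0 then 1 else 0, fun i => ?_, Or.inr ⟨h, ?_, ?_⟩⟩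
      · by_cases hi : i = 0
        · right; simp [hi]
        · left; simp [hi]
      · simp
      · simp
  have he1 : ∀ i, (1 : ℝ) ≤ 8 ^ (e i) ∧ (8 : ℝ) ^ (e i) ≤ 8 := by
    intro i
    rcases he i with h | h <;> rw [h] <;> norm_num
  -- scales
  set J : ℕ := ⌊E / 30⌋₊ with hJ
  have hJle : (J : ℝ) ≤ E / 30 := Nat.floor_le (by positivity)
  have hJge : E / 60 ≤ J := by
    have := Nat.lt_floor_add_one (E / 30)
    rw [← hJ] at this
    linarith
  set z : ℕ → ℝ := fun j => Real.exp (3 * E / 5) * 8 ^ j with hz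
  have hzlow : ∀ j, Real.exp (3 * E / 5) ≤ z j := by
    intro j
    have : (1 : ℝ) ≤ 8 ^ j := one_le_pow₀ (by norm_num)
    have h0 := Real.exp_pos (3 * E / 5)
    simp only [hz]
    nlinarith
  have hz0 : ∀ j, 0 < z j := fun j => lt_of_lt_of_le (Real.exp_pos _) (hzlow j)
  have hzup : ∀ j, j < J → z j ≤ Real.exp (7 * E / 10) := by
    intro j hj
    have h1 : (8 : ℝ) ^ j ≤ Real.exp (E / 10) := by
      have h2 : (8 : ℝ) ^ j = Real.exp (j * Real.log 8) := by
        rw [mul_comm, Real.exp_mul, Real.exp_log (by norm_num), Real.rpow_natCast]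
      rw [h2]
      apply Real.exp_le_exp.2
      have h3 : (j : ℝ) ≤ J := by exact_mod_cast hj.le
      have h4 := log_eight_lt
      have h5 : (0 : ℝ) ≤ j := Nat.cast_nonneg j
      nlinarith
    calc z j = Real.exp (3 * E / 5) * 8 ^ j := rfl
      _ ≤ Real.exp (3 * E / 5) * Real.exp (E / 10) :=
          mul_le_mul_of_nonneg_left h1 (Real.exp_pos _).le
      _ = Real.exp (7 * E / 10) := by
          rw [← Real.exp_add]
          ring_nf
  -- the local intervals
  set W : ℕ → Fin (n + 2) → ℝ := fun j i => z j * 8 ^ (e i) * RR_QS t t' i with hW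
  have hWlow : ∀ j i, Real.exp (E / 2) ≤ W j i := by
    intro j i
    calc Real.exp (E / 2) = Real.exp (3 * E / 5) * 1 * Real.exp (-(E / 10)) := by
          rw [mul_one, ← Real.exp_add]
          ring_nf
      _ ≤ z j * 8 ^ (e i) * RR_QS t t' i := by
          apply mul_le_mul _ (hRlow i) (Real.exp_pos _).le
          · exact mul_nonneg (hz0 j).le (by positivity)
          · exact mul_le_mul (hzlow j) (he1 i).1 zero_le_one (hz0 j).le
  have hWup : ∀ j i, j < J → 8 * W j i ≤ Real.exp E := by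
    intro j i hj
    have h1 : W j i ≤ Real.exp (7 * E / 10) * 8 * Real.exp (E / 10) := by
      apply mul_le_mul _ (hRup i) (hR0 i).le (by positivity)
      exact mul_le_mul (hzup j hj) (he1 i).2 (by positivity) (Real.exp_pos _).le
    have h2 : (64 : ℝ) ≤ Real.exp (E / 5) := by
      have h3 : Real.exp 6 ≤ Real.exp (E / 5) := Real.exp_le_exp.2 (by linarith)
      have h4 : Real.exp 6 = (Real.exp 1) ^ 6 := by
        rw [← Real.exp_nat_mul]
        norm_num
      have h5 : (2.7 : ℝ) < Real.exp 1 := by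
        have := Real.exp_one_gt_d9
        linarith
      have h6 : (2.7 : ℝ) ^ 6 ≤ (Real.exp 1) ^ 6 := pow_le_pow_left₀ (by norm_num) h5.le 6
      rw [← h4] at h6
      norm_num at h6
      linarith
    calc 8 * W j i ≤ 8 * (Real.exp (7 * E / 10) * 8 * Real.exp (E / 10)) := by linarith
      _ = 64 * Real.exp (4 * E / 5) := by
          have : Real.exp (4 * E / 5) = Real.exp (7 * E / 10) * Real.exp (E / 10) := by
            rw [← Real.exp_add]
            ring_nf
          rw [this]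
          ring
      _ ≤ Real.exp (E / 5) * Real.exp (4 * E / 5) :=
          mul_le_mul_of_nonneg_right h2 (Real.exp_pos _).le
      _ = Real.exp E := by
          rw [← Real.exp_add]
          ring_nf
  have hW0 : ∀ j i, 0 < W j i := fun j i => lt_of_lt_of_le (Real.exp_pos _) (hWlow j i)
  have hWbig : ∀ j i, 1000000 ≤ W j i := by
    intro j i
    refine le_trans ?_ (hWlow j i)
    have h3 : Real.exp 20 ≤ Real.exp (E / 2) := Real.exp_le_exp.2 (by linarith)
    have h4 : Real.exp 20 = (Real.exp 1) ^ 20 := by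
      rw [← Real.exp_nat_mul]
      norm_num
    have h5 : (2.7 : ℝ) < Real.exp 1 := by
      have := Real.exp_one_gt_d9
      linarith
    have h6 : (2.7 : ℝ) ^ 20 ≤ (Real.exp 1) ^ 20 := pow_le_pow_left₀ (by norm_num) h5.le 20
    rw [← h4] at h6
    norm_num at h6
    linarith
  set Q : ℕ → Fin (n + 2) → Finset ℕ := fun j i => PZ (W j i) with hQ
  have hmemQ : ∀ j i q, q ∈ Q j i ↔ W j i < q ∧ (q : ℝ) ≤ 8 * W j i ∧ q.Prime :=
    fun j i q => mem_PZ (hW0 j i).le
  -- subset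
  have hsub : (Finset.range J).biUnion (fun j => Fintype.piFinset (Q j)) ⊆
      Ch (n + 2) 64 u t t' := by
    intro q hq
    rw [Finset.mem_biUnion] at hq
    obtain ⟨j, hj, hq⟩ := hq
    rw [Finset.mem_range] at hj
    rw [Fintype.mem_piFinset] at hq
    have hq' : ∀ i, W j i < q i ∧ (q i : ℝ) ≤ 8 * W j i ∧ (q i).Prime :=
      fun i => (hmemQ j i _).1 (hq i)
    rw [Ch, Finset.mem_filter, Fintype.mem_piFinset]
    refine ⟨fun i => ?_, ?_, fun i => ?_⟩
    · rw [Finset.mem_filter, Finset.mem_Icc]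
      obtain ⟨h1, h2, h3⟩ := hq' i
      refine ⟨⟨h3.one_le, ?_⟩, h3, ?_⟩
      · rw [Nat.le_floor_iff (by unfold yy; positivity)]
        exact le_trans h2 (hWup j i hj)
      · have h4 : Real.sqrt (yy u) = Real.exp (E / 2) := by
          rw [yy, Real.exp_half, ← hE]
        rw [h4]
        exact lt_of_le_of_lt (hWlow j i) h1
    · refine ⟨1, ?_⟩
      have hsymm : (finRotate (n + 2)).symm 1 = 0 := by
        rw [Equiv.symm_apply_eq, finRotate_apply, zero_add]
      rw [hsymm]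
      intro heq
      obtain ⟨h1, h2, -⟩ := hq' 0
      obtain ⟨h3, h4, -⟩ := hq' 1
      rw [heq] at h3 h4
      rcases he01 with ⟨h5, h6, h7⟩ | ⟨h5, h6, h7⟩
      · have e0 : W j 0 = z j * RR_QS t t' 0 := by simp [hW, h6]
        have e1 : W j 1 = 8 * (z j * RR_QS t t' 1) := by simp only [hW, h7]; ring
        rw [e0] at h2
        rw [e1] at h3
        have := mul_le_mul_of_nonneg_left h5 (hz0 j).le
        linarith
      · have e0 : W j 0 = 8 * (z j * RR_QS t t' 0) := by simp only [hW, h6]; ring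
        have e1 : W j 1 = z j * RR_QS t t' 1 := by simp [hW, h7]
        rw [e0] at h1
        rw [e1] at h4
        have := mul_le_mul_of_nonneg_left h5.le (hz0 j).le
        linarith
    · set p := (finRotate (n + 2)).symm i with hp
      have hcyc := RR_cyc htp (hprod.trans hprod'.symm) i
      rw [← hp] at hcyc
      obtain ⟨-, h2, -⟩ := hq' p
      obtain ⟨h3, -, -⟩ := hq' i
      have h5 : W j p ≤ 8 * (z j * RR_QS t t' p) := by
        have h6 := (he1 p).2
        have h7 : 0 ≤ z j * RR_QS t t' p := mul_nonneg (hz0 j).le (hR0 p).le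
        calc W j p = 8 ^ (e p) * (z j * RR_QS t t' p) := by simp only [hW]; ring
          _ ≤ 8 * (z j * RR_QS t t' p) := mul_le_mul_of_nonneg_right h6 h7
      have h8 : z j * RR_QS t t' i ≤ W j i := by
        have h6 := (he1 i).1
        have h7 : 0 ≤ z j * RR_QS t t' i := mul_nonneg (hz0 j).le (hR0 i).le
        calc z j * RR_QS t t' i = 1 * (z j * RR_QS t t' i) := by ring
          _ ≤ 8 ^ (e i) * (z j * RR_QS t t' i) := mul_le_mul_of_nonneg_right h6 h7
          _ = W j i := by simp only [hW]; ring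
      have ht'i : (0 : ℝ) ≤ t' i := Nat.cast_nonneg _
      have hti : (0 : ℝ) ≤ t i := Nat.cast_nonneg _
      calc (q p : ℝ) * t' i ≤ (8 * (8 * (z j * RR_QS t t' p))) * t' i := by
            apply mul_le_mul_of_nonneg_right _ ht'i
            linarith
        _ = 64 * z j * (RR_QS t t' p * t' i) := by ring
        _ = 64 * z j * (RR_QS t t' i * t i) := by rw [hcyc]
        _ = 64 * ((z j * RR_QS t t' i) * t i) := by ring
        _ ≤ 64 * ((q i : ℝ) * t i) := by
            apply mul_le_mul_of_nonneg_left _ (by norm_num)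
            apply mul_le_mul_of_nonneg_right _ hti
            linarith
  -- disjointness
  have hdisj : Set.PairwiseDisjoint (↑(Finset.range J)) (fun j => Fintype.piFinset (Q j)) := by
    have key : ∀ j j' : ℕ, j < j' → ∀ q, q ∈ Fintype.piFinset (Q j) →
        q ∈ Fintype.piFinset (Q j') → False := by
      intro j j' hjj q h1 h2
      have a1 := (hmemQ j 0 _).1 (Fintype.mem_piFinset.1 h1 0)
      have a2 := (hmemQ j' 0 _).1 (Fintype.mem_piFinset.1 h2 0)
      have h3 : 8 * z j ≤ z j' := by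
        have h4 : (8 : ℝ) ^ (j + 1) ≤ 8 ^ j' := pow_le_pow_right₀ (by norm_num) hjj
        calc 8 * z j = Real.exp (3 * E / 5) * 8 ^ (j + 1) := by simp only [hz]; ring
          _ ≤ Real.exp (3 * E / 5) * 8 ^ j' := mul_le_mul_of_nonneg_left h4 (Real.exp_pos _).le
      have h5 : 8 * W j 0 ≤ W j' 0 := by
        have h6 : (0 : ℝ) ≤ 8 ^ (e 0) * RR_QS t t' 0 := mul_nonneg (by positivity) (hR0 0).le
        calc 8 * W j 0 = (8 * z j) * (8 ^ (e 0) * RR_QS t t' 0) := by simp only [hW]; ring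
          _ ≤ z j' * (8 ^ (e 0) * RR_QS t t' 0) := mul_le_mul_of_nonneg_right h3 h6
          _ = W j' 0 := by simp only [hW]; ring
      linarith [a1.2.1, a2.1]
    intro j _ j' _ hne
    rw [Function.onFun, Finset.disjoint_left]
    intro q h1 h2
    rcases lt_or_gt_of_ne hne with h | h
    · exact key j j' h q h1 h2
    · exact key j' j h q h2 h1
  -- the sum
  have hnn : ∀ q : Fin (n + 2) → ℕ, 0 ≤ ∏ i, (1 : ℝ) / (q i : ℝ) :=
    fun q => Finset.prod_nonneg fun i _ => by positivity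
  have hone : ∀ j ∈ Finset.range J, (1 / (8 * E)) ^ (n + 2) ≤
      ∑ q ∈ Fintype.piFinset (Q j), ∏ i, (1 : ℝ) / (q i : ℝ) := by
    intro j hj
    rw [Finset.mem_range] at hj
    rw [← Finset.prod_univ_sum (fun i => Q j i) (fun i m => (1 : ℝ) / (m : ℝ))]
    calc (1 / (8 * E)) ^ (n + 2) = ∏ _i : Fin (n + 2), (1 / (8 * E)) := by
          rw [Finset.prod_const, Finset.card_univ, Fintype.card_fin]
      _ ≤ ∏ i, ∑ m ∈ Q j i, (1 : ℝ) / (m : ℝ) := by
          apply Finset.prod_le_prod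
          · intro i _
            positivity
          · intro i _
            apply recip_sum (hWbig j i)
            rw [Real.log_le_iff_le_exp (by linarith [hW0 j i])]
            exact hWup j i hj
  have hfin : (1 / 60) * (1 / 8) ^ (n + 2) * Real.exp (-(((n + 2 : ℕ) : ℝ) - 1) * u) ≤
      J * (1 / (8 * E)) ^ (n + 2) := by
    have h1 : Real.exp (-(((n + 2 : ℕ) : ℝ) - 1) * u) = (1 / E) ^ (n + 1) := by
      rw [hE, one_div, ← Real.exp_neg, ← Real.exp_nat_mul]
      congr 1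
      push_cast
      ring
    rw [h1]
    calc (1 / 60) * (1 / 8) ^ (n + 2) * (1 / E) ^ (n + 1)
        = (E / 60) * (1 / (8 * E)) ^ (n + 2) := by
          have h2 : (1 / (8 * E)) = (1 / 8) * (1 / E) := by
            field_simp
          have h3 : E * (1 / E) = 1 := by
            field_simp
          rw [h2, mul_pow, pow_succ (1 / E) (n + 1)]
          calc (1 / 60) * (1 / 8) ^ (n + 2) * (1 / E) ^ (n + 1)
              = (1 / 60) * (1 / 8) ^ (n + 2) * (1 / E) ^ (n + 1) * 1 := by ring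
            _ = (1 / 60) * (1 / 8) ^ (n + 2) * (1 / E) ^ (n + 1) * (E * (1 / E)) := by rw [h3]
            _ = _ := by ring
      _ ≤ J * (1 / (8 * E)) ^ (n + 2) :=
          mul_le_mul_of_nonneg_right hJge (by positivity)
  calc _ ≤ (J : ℝ) * (1 / (8 * E)) ^ (n + 2) := hfin
    _ = ∑ _j ∈ Finset.range J, (1 / (8 * E)) ^ (n + 2) := by
        rw [Finset.sum_const, Finset.card_range, nsmul_eq_mul]
    _ ≤ ∑ j ∈ Finset.range J, ∑ q ∈ Fintype.piFinset (Q j), ∏ i, (1 : ℝ) / (q i : ℝ) :=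
        Finset.sum_le_sum hone
    _ = ∑ q ∈ (Finset.range J).biUnion (fun j => Fintype.piFinset (Q j)),
          ∏ i, (1 : ℝ) / (q i : ℝ) := (Finset.sum_biUnion hdisj).symm
    _ ≤ ∑ q ∈ Ch (n + 2) 64 u t t', ∏ i, (1 : ℝ) / (q i : ℝ) :=
        Finset.sum_le_sum_of_subset_of_nonneg hsub fun q _ _ => hnn q

end Pool.Agent.Helper256.KM
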