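import Mathlib
import Pool.Agent.Helper256.KM.Defs
import Pool.Agent.Helper256.KM.LU
import Pool.Agent.Helper256.KM.QS
import Pool.Agent.Helper256.KM.IN
import Pool.Agent.Helper256.KM.MF
import Pool.Agent.Helper256.KM.EA
import Pool.Agent.Helper256.KM.Mertens

set_option autoImplicit false

namespace Pool.Agent.Helper256.KM

open Finset ArithmeticFunction

theorem hh_nonneg_B1L (Q : Finset ℕ) (r : ℕ) : 0 ≤ hh Q r :=
  Finset.sum_nonneg fun _ _ => by positivity

theorem lb1_aux {k : ℕ} (N m u : ℕ) (C1 c1 c2 c3 : ℝ) (hC1 : 1 ≤ C1) (hc1 : 0 < c1) (hc2 : 0 < c2)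
    (hlogN : 0 < Real.log N)
    (a : Fin k → ℕ)
    (hRR : ∀ i, ∀ X : ℝ, (N:ℝ)/(C1 * (yy u * yy u)) ≤ X → X ≤ N →
      c2 * (X / Real.log N) * hh (pr N \ pr ⌊yy u⌋₊) (m - 2 - a i) ≤
        ((RR (pr ⌊yy u⌋₊) (m - 1 - a i) X).card : ℝ))
    (hch : ∀ x ∈ Sx u (∑ i, a i), ∀ t ∈ Ft k x a, ∀ t' ∈ Ft k x a,
      c1 * Real.exp (-((k : ℝ) - 1) * u) ≤ ∑ q ∈ Ch k C1 u t t', ∏ i, (1 : ℝ) / (q i : ℝ))
    (he : c3 * ((u : ℝ) ^ (∑ i, a i) / ((∑ i, a i).factorial : ℝ)) ≤
      ∑ x ∈ Sx u (∑ i, a i), (1 : ℝ) / x) :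
    ((c2 / C1) ^ k * c1 * c3) * ((N : ℝ) / Real.log N) ^ k * (Real.exp (-((k : ℝ) - 1) * u) *
      ((∏ i, hh (pr N \ pr ⌊yy u⌋₊) (m - 2 - a i)) * (Nat.multinomial Finset.univ a : ℝ) ^ 2 *
          ((u : ℝ) ^ (∑ i, a i) / ((∑ i, a i).factorial : ℝ)))) ≤
      ((∑ x ∈ Sx u (∑ i, a i), ∑ t ∈ Ft k x a, ∑ t' ∈ Ft k x a, ∑ q ∈ Ch k C1 u t t',
        ∏ i, (RR (pr ⌊yy u⌋₊) (m - 1 - a i) ((N : ℝ) / (C1 * (q i * t i)))).card : ℕ) : ℝ) := by
  have hC0 : 0 < C1 := by linarith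
  set H : ℝ := ∏ i, hh (pr N \ pr ⌊yy u⌋₊) (m - 2 - a i) with hH
  have hH0 : 0 ≤ H := Finset.prod_nonneg fun i _ => hh_nonneg_B1L _ _
  set M : ℝ := (Nat.multinomial Finset.univ a : ℝ) with hM
  set E : ℝ := Real.exp (-((k : ℝ) - 1) * u) with hE
  have hE0 : 0 < E := Real.exp_pos _
  have hNN : (0:ℝ) ≤ N := Nat.cast_nonneg _
  set D : ℝ := (c2 / C1) ^ k * ((N : ℝ) / Real.log N) ^ k * H with hD
  have hD0 : 0 ≤ D := by positivity
  have hyy : 0 < yy u := Real.exp_pos _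
  push_cast
  calc ((c2 / C1) ^ k * c1 * c3) * ((N : ℝ) / Real.log N) ^ k * (E * (H * M ^ 2 *
          ((u : ℝ) ^ (∑ i, a i) / ((∑ i, a i).factorial : ℝ))))
      = (D * (c1 * E) * M ^ 2) * (c3 * ((u : ℝ) ^ (∑ i, a i) / ((∑ i, a i).factorial : ℝ))) := by
        rw [hD]; ring
    _ ≤ (D * (c1 * E) * M ^ 2) * ∑ x ∈ Sx u (∑ i, a i), (1 : ℝ) / x :=
        mul_le_mul_of_nonneg_left he (by positivity)
    _ = ∑ x ∈ Sx u (∑ i, a i), (D * (c1 * E) * M ^ 2) * ((1 : ℝ) / x) := Finset.mul_sum _ _ _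
    _ ≤ _ := by
      apply Finset.sum_le_sum
      intro x hx
      have hx' := hx
      unfold Sx at hx'
      rw [Finset.mem_filter, Finset.mem_Icc] at hx'
      obtain ⟨⟨hx1, hx2⟩, hxs, hxc⟩ := hx'
      have hcard : ((Ft k x a).card : ℝ) = M := by rw [fact_count k x a hxs hxc]
      have hx3 : (x : ℝ) ≤ yy u := by
        have h1 : (x : ℝ) ≤ Real.exp (Real.exp u / 10) := by
          exact (Nat.le_floor_iff (Real.exp_pos _).le).1 hx2
        refine h1.trans ?_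
        unfold yy
        apply Real.exp_le_exp.2
        have := Real.exp_pos (u : ℝ)
        linarith
      have e1 : (D * (c1 * E) * M ^ 2) * ((1 : ℝ) / x) =
          ∑ t ∈ Ft k x a, ∑ t' ∈ Ft k x a, D * (c1 * E) * (1 / x) := by
        rw [Finset.sum_const, Finset.sum_const, nsmul_eq_mul, nsmul_eq_mul, hcard]
        ring
      rw [e1]
      apply Finset.sum_le_sum
      intro t ht
      apply Finset.sum_le_sum
      intro t' ht'
      have ht0 := ht
      unfold Ft at ht0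
      rw [Finset.mem_filter, Fintype.mem_piFinset] at ht0
      obtain ⟨htd, htp, -⟩ := ht0
      have htx : (x : ℝ) = ∏ i, (t i : ℝ) := by rw [← htp]; push_cast; rfl
      have ht1 : ∀ i, 1 ≤ t i := fun i => Nat.pos_of_mem_divisors (htd i)
      have ht2 : ∀ i, (t i : ℝ) ≤ yy u := fun i => by
        have : t i ≤ x := Nat.divisor_le (htd i)
        exact le_trans (by exact_mod_cast this) hx3
      have hx0 : (0:ℝ) < x := by exact_mod_cast hx1
      calc D * (c1 * E) * (1 / (x:ℝ)) = (D * (1 / x)) * (c1 * E) := by ring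
        _ ≤ (D * (1 / x)) * ∑ q ∈ Ch k C1 u t t', ∏ i, (1 : ℝ) / (q i : ℝ) :=
            mul_le_mul_of_nonneg_left (hch x hx t ht t' ht') (by positivity)
        _ = ∑ q ∈ Ch k C1 u t t', (D * (1 / x)) * ∏ i, (1 : ℝ) / (q i : ℝ) := Finset.mul_sum _ _ _
        _ ≤ _ := by
          apply Finset.sum_le_sum
          intro q hq
          unfold Ch at hq
          rw [Finset.mem_filter, Fintype.mem_piFinset] at hq
          have hq1 := hq.1
          have hqp : ∀ i, (q i).Prime ∧ (q i : ℝ) ≤ yy u := fun i => by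
            have := hq1 i
            rw [Finset.mem_filter, Finset.mem_Icc] at this
            exact ⟨this.2.1, (Nat.le_floor_iff hyy.le).1 this.1.2⟩
          have e2 : (D * (1 / x)) * ∏ i, (1 : ℝ) / (q i : ℝ) =
              ∏ i, (c2 * (((N : ℝ) / (C1 * (q i * t i))) / Real.log N) *
                hh (pr N \ pr ⌊yy u⌋₊) (m - 2 - a i)) := by
            have : ∀ i : Fin k, c2 * (((N : ℝ) / (C1 * (q i * t i))) / Real.log N) *
                hh (pr N \ pr ⌊yy u⌋₊) (m - 2 - a i) =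
                (c2 / C1) * ((N:ℝ) / Real.log N) * hh (pr N \ pr ⌊yy u⌋₊) (m - 2 - a i) *
                  (1 / (t i : ℝ)) * (1 / (q i : ℝ)) := by
              intro i
              simp only [div_eq_mul_inv, mul_inv]
              ring
            rw [Finset.prod_congr rfl fun i _ => this i]
            simp only [Finset.prod_mul_distrib, Finset.prod_const, Finset.card_univ,
              Fintype.card_fin]
            have e3 : (1 : ℝ) / x = ∏ i, (1 / (t i : ℝ)) := by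
              rw [htx, Finset.prod_div_distrib, Finset.prod_const_one]
            rw [e3, hD, hH]
          rw [e2]
          apply Finset.prod_le_prod
          · intro i _
            have := hh_nonneg_B1L (pr N \ pr ⌊yy u⌋₊) (m - 2 - a i)
            positivity
          · intro i _
            have hqi : (1:ℝ) ≤ q i := by exact_mod_cast (hqp i).1.one_le
            have hti : (1:ℝ) ≤ t i := by exact_mod_cast ht1 i
            have hqt : (1:ℝ) ≤ q i * t i := one_le_mul_of_one_le_of_one_le hqi hti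
            apply hRR i
            · apply div_le_div_of_nonneg_left hNN (by positivity)
              apply mul_le_mul_of_nonneg_left _ hC0.le
              exact mul_le_mul (hqp i).2 (ht2 i) (by linarith) hyy.le
            · apply div_le_self hNN
              exact one_le_mul_of_one_le_of_one_le hC1 hqt

set_option maxHeartbeats 1000000 in
theorem lb1 {k : ℕ} (hk : 2 ≤ k) : ∃ (c η : ℝ) (u₀ N₀ : ℕ), 0 < c ∧ 0 < η ∧ ∀ N : ℕ, N₀ ≤ N →
    ∀ m : ℕ, 2 * (m : ℝ) ≤ Real.log (Real.log N) → ∀ U : Finset ℕ,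
    (∀ u ∈ U, u₀ ≤ u ∧ (u : ℝ) ≤ η * Real.log (Real.log N)) →
    c * ((N : ℝ) / Real.log N) ^ k * ∑ u ∈ U, Real.exp (-((k : ℝ) - 1) * u) *
      ∑ a ∈ (Fintype.piFinset (fun _ : Fin k => Finset.range (m - 1))).filter
        (fun a => ((∑ i, a i : ℕ) : ℝ) ≤ 2 * k * u),
        (∏ i, hh (pr N \ pr ⌊yy u⌋₊) (m - 2 - a i)) * (Nat.multinomial Finset.univ a : ℝ) ^ 2 *
          ((u : ℝ) ^ (∑ i, a i) / ((∑ i, a i).factorial : ℝ))
      ≤ (TT k (AA N m) : ℝ) := by
  obtain ⟨C1, c1, u1, hC1, hc1, hch⟩ := chain_sum hk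
  obtain ⟨c2, η2, N2, hc2, hη2, hη2', hlow⟩ := lower_unif (ε := 1/4) (by norm_num) (by norm_num)
  have hk2 : (2:ℝ) ≤ k := by exact_mod_cast hk
  obtain ⟨c3, u3, hc3, hel⟩ := e_lower (K := 2 * k) (by linarith)
  obtain ⟨C0, hmer⟩ := mertens_inv
  set C := max C0 0 with hC
  have hCC : C0 ≤ C := le_max_left _ _
  have hCp : 0 ≤ C := le_max_right _ _
  have hC10 : 0 < C1 := by linarith
  have hlogC1 : 0 ≤ Real.log C1 := Real.log_nonneg hC1
  -- the largeness condition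
  have hLt : Filter.Tendsto (fun N : ℕ => Real.log (Real.log (N : ℝ))) Filter.atTop Filter.atTop :=
    Real.tendsto_log_atTop.comp (Real.tendsto_log_atTop.comp tendsto_natCast_atTop_atTop)
  obtain ⟨N0, hN0⟩ := Filter.eventually_atTop.1
    (((hLt.eventually_ge_atTop (max 1 (max (12 * C) (2 * ((Real.log C1 + 2) / η2))))).and
      (Filter.eventually_ge_atTop N2)).and (Filter.eventually_ge_atTop 3))
  refine ⟨(c2 / C1) ^ k * c1 * c3, 1 / 8, max (max u1 u3) 1, N0, by positivity, by norm_num, ?_⟩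
  intro N hN m hm U hU
  obtain ⟨⟨hL, hNN2⟩, hN3⟩ := hN0 N hN
  set L := Real.log (Real.log (N : ℝ)) with hLdef
  have hL1 : 1 ≤ L := (le_max_left _ _).trans hL
  have hL2 : 12 * C ≤ L := ((le_max_left _ _).trans (le_max_right _ _)).trans hL
  have hL3 : 2 * ((Real.log C1 + 2) / η2) ≤ L := ((le_max_right _ _).trans (le_max_right _ _)).trans hL
  have hNr : (3:ℝ) ≤ N := by exact_mod_cast hN3
  have hN0' : (0:ℝ) < N := by linarith
  have hlogN : 0 < Real.log N := Real.log_pos (by linarith)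
  have hexpL : Real.exp L = Real.log N := Real.exp_log hlogN
  -- size of the scales
  have hsize : ∀ u : ℕ, (u : ℝ) ≤ 1 / 8 * L → C1 * (yy u * yy u) ≤ (N : ℝ) ^ η2 := by
    intro u hu
    have h1 : C1 * (yy u * yy u) = Real.exp (Real.log C1 + 2 * Real.exp u) := by
      unfold yy
      rw [← Real.exp_add, Real.exp_add (Real.log C1), Real.exp_log hC10]
      congr 2
      ring
    have h2 : (N : ℝ) ^ η2 = Real.exp (η2 * Real.exp L) := by
      rw [hexpL, Real.rpow_def_of_pos hN0', mul_comm]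
    rw [h1, h2]
    apply Real.exp_le_exp.2
    have h3 : Real.exp u ≤ Real.exp (L / 2) := Real.exp_le_exp.2 (by linarith)
    set y := Real.exp (L / 2) with hy
    have hy2 : Real.exp L = y * y := by rw [hy, ← Real.exp_add]; congr 1; ring
    have hy1 : 1 ≤ y := Real.one_le_exp (by linarith)
    have hy3 : (Real.log C1 + 2) / η2 ≤ y := by
      have := Real.add_one_le_exp (L / 2)
      linarith
    rw [div_le_iff₀ hη2] at hy3
    rw [hy2]
    have h4 : (Real.log C1 + 2) * y ≤ (y * η2) * y := mul_le_mul_of_nonneg_right hy3 (by linarith)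
    have h5 : Real.log C1 * 1 ≤ Real.log C1 * y := mul_le_mul_of_nonneg_left hy1 hlogC1
    nlinarith
  have hscale := energy_ge_scales hk N m hC1 U (fun u hu => ((le_max_right _ _).trans (hU u hu).1))
  have hscale' : ((∑ u ∈ U, ∑ a ∈ Fintype.piFinset (fun _ : Fin k => Finset.range m),
      ∑ x ∈ Sx u (∑ i, a i), ∑ t ∈ Ft k x a, ∑ t' ∈ Ft k x a, ∑ q ∈ Ch k C1 u t t',
        ∏ i, (RR (pr ⌊yy u⌋₊) (m - 1 - a i) ((N : ℝ) / (C1 * (q i * t i)))).card : ℕ) : ℝ)
      ≤ (TT k (AA N m) : ℝ) := by exact_mod_cast hscale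
  refine le_trans ?_ hscale'
  rw [Nat.cast_sum, Finset.mul_sum]
  apply Finset.sum_le_sum
  intro u hu
  obtain ⟨hu0, huL⟩ := hU u hu
  have hu1 : u1 ≤ u := ((le_max_left _ _).trans (le_max_left _ _)).trans hu0
  have hu3 : u3 ≤ u := ((le_max_right _ _).trans (le_max_left _ _)).trans hu0
  have hu11 : 1 ≤ u := (le_max_right _ _).trans hu0
  have hu11r : (1:ℝ) ≤ u := by exact_mod_cast hu11
  have hyy1 : 1 ≤ yy u := Real.one_le_exp (Real.exp_pos _).le
  have hyy3 : 3 ≤ yy u := by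
    unfold yy
    have h1 : (2:ℝ) ≤ Real.exp u := by
      have := Real.add_one_le_exp (u:ℝ)
      linarith
    have h2 := Real.add_one_le_exp (Real.exp (u:ℝ))
    linarith
  have hs := hsize u huL
  have hyyN : yy u ≤ (N : ℝ) ^ η2 := by
    refine le_trans ?_ hs
    calc yy u = 1 * (yy u * 1) := by ring
      _ ≤ C1 * (yy u * yy u) := mul_le_mul hC1 (mul_le_mul_of_nonneg_left hyy1 (by linarith))
        (by linarith) (by linarith)
  have hyyN' : yy u ≤ N := by
    refine hyyN.trans ?_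
    calc (N : ℝ) ^ η2 ≤ (N : ℝ) ^ (1:ℝ) := Real.rpow_le_rpow_of_exponent_le (by linarith) hη2'
      _ = N := Real.rpow_one _
  have hPsub : pr ⌊yy u⌋₊ ⊆ pr N := by
    intro p hp
    unfold pr at hp ⊢
    rw [Finset.mem_filter, Finset.mem_Icc] at hp ⊢
    refine ⟨⟨hp.1.1, hp.1.2.trans ?_⟩, hp.2⟩
    have := Nat.floor_mono hyyN'
    simpa using this
  have hPle : ∀ p ∈ pr ⌊yy u⌋₊, p.Prime ∧ (p : ℝ) ≤ (N : ℝ) ^ η2 := by
    intro p hp
    unfold pr at hp
    rw [Finset.mem_filter, Finset.mem_Icc] at hp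
    refine ⟨hp.2, le_trans ?_ hyyN⟩
    exact (Nat.le_floor_iff (by linarith)).1 hp.1.2
  have hp1 : 2 / 3 * L ≤ p1 (pr N \ pr ⌊yy u⌋₊) := by
    have h1 : p1 (pr N \ pr ⌊yy u⌋₊) + p1 (pr ⌊yy u⌋₊) = p1 (pr N) :=
      Finset.sum_sdiff hPsub
    have h2 : L - C ≤ p1 (pr N) := by
      have := (abs_le.1 (hmer N hN3)).1
      show L - C ≤ ∑ p ∈ pr N, (1:ℝ) / p
      unfold pr
      linarith
    have h3 : p1 (pr ⌊yy u⌋₊) ≤ u + C := by
      have hf3 : 3 ≤ ⌊yy u⌋₊ := Nat.le_floor (by exact_mod_cast hyy3)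
      have h4 := (abs_le.1 (hmer _ hf3)).2
      have h5 : Real.log (Real.log (⌊yy u⌋₊ : ℝ)) ≤ u := by
        have hf3r : (3:ℝ) ≤ (⌊yy u⌋₊ : ℝ) := by exact_mod_cast hf3
        have h6 : Real.log (⌊yy u⌋₊ : ℝ) ≤ Real.exp u := by
          rw [Real.log_le_iff_le_exp (by linarith)]
          exact Nat.floor_le (by linarith)
        rw [Real.log_le_iff_le_exp (Real.log_pos (by linarith))]
        exact h6
      show ∑ p ∈ pr ⌊yy u⌋₊, (1:ℝ) / p ≤ u + C
      unfold pr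
      linarith
    linarith
  -- drop terms
  have hdrop : ((∑ a ∈ (Fintype.piFinset (fun _ : Fin k => Finset.range (m - 1))).filter
        (fun a => ((∑ i, a i : ℕ) : ℝ) ≤ 2 * k * u),
      ∑ x ∈ Sx u (∑ i, a i), ∑ t ∈ Ft k x a, ∑ t' ∈ Ft k x a, ∑ q ∈ Ch k C1 u t t',
        ∏ i, (RR (pr ⌊yy u⌋₊) (m - 1 - a i) ((N : ℝ) / (C1 * (q i * t i)))).card : ℕ) : ℝ) ≤
      ((∑ a ∈ Fintype.piFinset (fun _ : Fin k => Finset.range m),
      ∑ x ∈ Sx u (∑ i, a i), ∑ t ∈ Ft k x a, ∑ t' ∈ Ft k x a, ∑ q ∈ Ch k C1 u t t',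
        ∏ i, (RR (pr ⌊yy u⌋₊) (m - 1 - a i) ((N : ℝ) / (C1 * (q i * t i)))).card : ℕ) : ℝ) := by
    have : (Fintype.piFinset (fun _ : Fin k => Finset.range (m - 1))).filter
        (fun a => ((∑ i, a i : ℕ) : ℝ) ≤ 2 * k * u) ⊆
        Fintype.piFinset (fun _ : Fin k => Finset.range m) := by
      intro a ha
      rw [Finset.mem_filter, Fintype.mem_piFinset] at ha
      rw [Fintype.mem_piFinset]
      intro i
      have := ha.1 i
      rw [Finset.mem_range] at this ⊢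
      omega
    exact Nat.cast_le.2 (Finset.sum_le_sum_of_subset this)
  refine le_trans ?_ hdrop
  rw [Nat.cast_sum, Finset.mul_sum, Finset.mul_sum]
  apply Finset.sum_le_sum
  intro a ha
  rw [Finset.mem_filter, Fintype.mem_piFinset] at ha
  obtain ⟨ha1, ha2⟩ := ha
  apply lb1_aux N m u C1 c1 c2 c3 hC1 hc1 hc2 hlogN a
  · intro i X hX1 hX2
    have hai := ha1 i
    rw [Finset.mem_range] at hai
    have e1 : m - 1 - a i = (m - 2 - a i) + 1 := by omega
    rw [e1]
    apply hlow N hNN2 (pr ⌊yy u⌋₊) hPle (m - 2 - a i) X (3/4) _ hX2 (by norm_num) (by norm_num)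
    · have h1 : ((m - 2 - a i : ℕ) : ℝ) ≤ m := by
        have : m - 2 - a i ≤ m := by omega
        exact_mod_cast this
      linarith
    · refine le_trans ?_ hX1
      rw [Real.rpow_sub hN0', Real.rpow_one]
      apply div_le_div_of_nonneg_left hN0'.le (by positivity) hs
  · intro x hx t ht t' ht'
    exact hch u hu1 (∑ i, a i) x a hx t ht t' ht'
  · exact hel u hu3 (∑ i, a i) ha2

end Pool.Agent.Helper256.KM
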