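import Mathlib
import Pool.Agent.Helper256.KM.Defs

set_option autoImplicit false

namespace Pool.Agent.Helper256.KM

open Finset ArithmeticFunction

theorem binom_var_aux (M : ℕ) {w : ℝ} (hw : 0 < w) :
    ∑ a ∈ Finset.range (M + 1), ((a : ℝ) - M * w / (1 + w)) ^ 2 * ((M.choose a : ℝ) * w ^ a) =
      (1 + w) ^ M * (M * w / (1 + w) * (1 / (1 + w))) := by
  have h := congrArg (Polynomial.eval (w / (1 + w))) (bernsteinPolynomial.variance ℝ M)
  rw [Polynomial.eval_finset_sum] at h
  have hw1 : (0:ℝ) < 1 + w := by linarith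
  have e1 : ∀ a ∈ Finset.range (M + 1), ((a : ℝ) - M * w / (1 + w)) ^ 2 * ((M.choose a : ℝ) * w ^ a) =
      (1 + w) ^ M * Polynomial.eval (w / (1 + w)) ((M • Polynomial.X - (a : Polynomial ℝ)) ^ 2 *
        bernsteinPolynomial ℝ M a) := by
    intro a ha
    have ham : a ≤ M := by have := Finset.mem_range.1 ha; omega
    simp only [bernsteinPolynomial, Polynomial.eval_mul, Polynomial.eval_pow, Polynomial.eval_sub,
      Polynomial.eval_natCast, Polynomial.eval_smul, Polynomial.eval_X, Polynomial.eval_one,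
      nsmul_eq_mul]
    have e2 : (1:ℝ) - w / (1 + w) = 1 / (1 + w) := by field_simp; ring
    rw [e2, div_pow, div_pow, one_pow]
    have e3 : (1 + w) ^ M = (1 + w) ^ a * (1 + w) ^ (M - a) := by
      rw [← pow_add]; congr 1; omega
    rw [e3]
    field_simp
    ring
  rw [Finset.sum_congr rfl e1, ← Finset.mul_sum, h]
  simp only [Polynomial.eval_mul, Polynomial.eval_sub, Polynomial.eval_X, Polynomial.eval_one,
    nsmul_eq_mul, Polynomial.eval_natCast]
  congr 1
  field_simp
  ring

theorem binom_window {M : ℕ} {w : ℝ} (hw : 0 < w) :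
    (3 / 4) * (1 + w) ^ M ≤ ∑ a ∈ (Finset.range (M + 1)).filter
      (fun a : ℕ => |(a : ℝ) - M * w / (1 + w)| ≤ 2 * Real.sqrt (M * w / (1 + w))),
      (M.choose a : ℝ) * w ^ a := by
  have hw1 : (0:ℝ) < 1 + w := by linarith
  have hv := binom_var_aux M hw
  have htot : ∑ a ∈ Finset.range (M + 1), ((M.choose a : ℝ) * w ^ a) = (1 + w) ^ M := by
    rw [add_comm 1 w, add_pow]
    refine Finset.sum_congr rfl fun a _ => ?_
    rw [one_pow]; ring
  set α : ℝ := M * w / (1 + w) with hα
  have hα0 : 0 ≤ α := by positivity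
  rw [← Finset.sum_filter_add_sum_filter_not (Finset.range (M + 1))
    (fun a : ℕ => |(a : ℝ) - α| ≤ 2 * Real.sqrt α)] at htot
  rcases hα0.eq_or_lt with h0 | hpos
  · have hM : M = 0 := by
      by_contra hM
      have : 0 < α := by
        have : (0:ℝ) < M := by exact_mod_cast Nat.pos_of_ne_zero hM
        positivity
      linarith
    subst hM
    rw [← h0]
    simp
    norm_num
  · have hne : ∑ a ∈ (Finset.range (M + 1)).filter (fun a : ℕ => ¬ |(a : ℝ) - α| ≤ 2 * Real.sqrt α),
        ((M.choose a : ℝ) * w ^ a) ≤ (1 / 4) * (1 + w) ^ M := by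
      have h1 : 4 * α * ∑ a ∈ (Finset.range (M + 1)).filter
          (fun a : ℕ => ¬ |(a : ℝ) - α| ≤ 2 * Real.sqrt α), ((M.choose a : ℝ) * w ^ a) ≤
          ∑ a ∈ Finset.range (M + 1), ((a : ℝ) - α) ^ 2 * ((M.choose a : ℝ) * w ^ a) := by
        rw [Finset.mul_sum]
        refine (Finset.sum_le_sum fun a ha => ?_).trans
          (Finset.sum_le_sum_of_subset_of_nonneg (Finset.filter_subset _ _)
            (fun a _ _ => by positivity))
        refine mul_le_mul_of_nonneg_right ?_ (by positivity)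
        have h2 := (Finset.mem_filter.1 ha).2
        push Not at h2
        have h3 : (2 * Real.sqrt α) ^ 2 ≤ |(a : ℝ) - α| ^ 2 :=
          pow_le_pow_left₀ (by positivity) h2.le 2
        rw [sq_abs, mul_pow, Real.sq_sqrt hα0] at h3
        linarith
      rw [hv] at h1
      have h4 : (1 + w) ^ M * (α * (1 / (1 + w))) ≤ (1 + w) ^ M * (α * 1) := by
        refine mul_le_mul_of_nonneg_left (mul_le_mul_of_nonneg_left ?_ hα0) (by positivity)
        rw [div_le_one hw1]; linarith
      have h5 := h1.trans h4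
      have h6 : 4 * α * ∑ a ∈ (Finset.range (M + 1)).filter
          (fun a : ℕ => ¬ |(a : ℝ) - α| ≤ 2 * Real.sqrt α), ((M.choose a : ℝ) * w ^ a) ≤
          4 * α * ((1 / 4) * (1 + w) ^ M) := by linarith
      exact le_of_mul_le_mul_left h6 (by positivity)
    linarith

end Pool.Agent.Helper256.KM
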