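import Mathlib
import Pool.Agent.Helper256.KM.Defs
import Pool.Agent.Helper256.KM.A1

set_option autoImplicit false

namespace Pool.Agent.Helper256.KM

open Finset ArithmeticFunction

theorem hh_nonneg'_CE (Q : Finset ℕ) (r : ℕ) : 0 ≤ hh Q r :=
  Finset.sum_nonneg (fun n _ => by positivity)

theorem cell_sum {N r b : ℕ} {ρ : ℝ} (hρ : 0 ≤ ρ) (hρ1 : ρ < 1)
    (h : (r : ℝ) ≤ ρ * p1 (pr N)) :
    ∑ d ∈ (Finset.Icc 1 N).filter (fun d => cardFactors d + b ≤ r), (1 : ℝ) / d ≤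
      (1 - ρ)⁻¹ * hh (pr N) r * ρ ^ b := by
  have hQ : ∀ p ∈ pr N, p.Prime := fun p hp => (Finset.mem_filter.mp hp).2
  have hmaps : ∀ d ∈ (Finset.Icc 1 N).filter (fun d => cardFactors d + b ≤ r),
      r - cardFactors d ∈ Finset.Ico b (r + 1) := by
    intro d hd
    have := (Finset.mem_filter.mp hd).2
    rw [Finset.mem_Ico]
    omega
  rw [← Finset.sum_fiberwise_of_maps_to hmaps]
  have hcell : ∀ a ∈ Finset.Ico b (r + 1),
      ∑ d ∈ ((Finset.Icc 1 N).filter (fun d => cardFactors d + b ≤ r)).filter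
        (fun d => r - cardFactors d = a), (1 : ℝ) / d ≤ ρ ^ a * hh (pr N) r := by
    intro a ha
    rw [Finset.mem_Ico] at ha
    refine le_trans ?_ (hh_shift hQ hρ h (show a ≤ r by omega))
    unfold hh
    apply Finset.sum_le_sum_of_subset_of_nonneg
    · intro d hd
      rw [Finset.mem_filter, Finset.mem_filter, Finset.mem_Icc] at hd
      rw [mem_fac]
      refine ⟨?_, by omega⟩
      rw [Nat.mem_factoredNumbers]
      refine ⟨by omega, ?_⟩
      intro p hp
      have hp1 := Nat.prime_of_mem_primeFactorsList hp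
      have hp2 := Nat.le_of_mem_primeFactorsList hp
      unfold pr
      rw [Finset.mem_filter, Finset.mem_Icc]
      exact ⟨⟨hp1.one_le, by omega⟩, hp1⟩
    · intro i _ _
      positivity
  calc _ ≤ ∑ a ∈ Finset.Ico b (r + 1), ρ ^ a * hh (pr N) r := Finset.sum_le_sum hcell
    _ = (∑ a ∈ Finset.Ico b (r + 1), ρ ^ a) * hh (pr N) r := by rw [Finset.sum_mul]
    _ ≤ (ρ ^ b / (1 - ρ)) * hh (pr N) r := by
        apply mul_le_mul_of_nonneg_right _ (hh_nonneg'_CE _ _)
        exact geom_sum_Ico_le_of_lt_one hρ hρ1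
    _ = (1 - ρ)⁻¹ * hh (pr N) r * ρ ^ b := by
        rw [div_eq_mul_inv]; ring

theorem hh_mono {Q Q' : Finset ℕ} (h : Q ⊆ Q') (r : ℕ) : hh Q r ≤ hh Q' r := by
  unfold hh
  apply Finset.sum_le_sum_of_subset_of_nonneg
  · intro n hn
    rw [mem_fac] at hn ⊢
    refine ⟨?_, hn.2⟩
    have h1 := hn.1
    rw [Nat.mem_factoredNumbers] at h1 ⊢
    exact ⟨h1.1, fun p hp => h (h1.2 p hp)⟩
  · intro i _ _
    positivity

theorem one_le_hh {Q : Finset ℕ} (hQ : ∀ p ∈ Q, p.Prime) {r : ℕ} (h : (r : ℝ) ≤ p1 Q) :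
    1 ≤ hh Q r := by
  have h1 := hh_shift (ρ := 1) (a := r) hQ zero_le_one (by rw [one_mul]; exact h) (le_refl r)
  rw [Nat.sub_self, one_pow, one_mul] at h1
  refine le_trans ?_ h1
  unfold hh
  have hmem : 1 ∈ fac Q 0 := by
    rw [mem_fac]
    constructor
    · rw [Nat.mem_factoredNumbers]
      simp
    · simp
  have := Finset.single_le_sum (f := fun n : ℕ => (1 : ℝ) / n)
    (fun i _ => by positivity) hmem
  simpa using this

end Pool.Agent.Helper256.KM
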