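import Mathlib
import Pool.Agent.Helper256.KM.Defs

set_option autoImplicit false

namespace Pool.Agent.Helper256.KM

open Finset ArithmeticFunction

/-- off-diagonal part -/
def j4939_o {k : ℕ} (σ : Fin k → Fin k) (g : Fin k → Fin k → ℕ) : Fin k → Fin k → ℕ :=
  fun i j => if j = σ i then 1 else g i j

theorem j4939_cell {k : ℕ} (σ : Fin k → Fin k) (g : Fin k → Fin k → ℕ) (i j : Fin k) :
    g i j = j4939_o σ g i j * (if σ i = j then g i (σ i) else 1) := by
  unfold j4939_o
  by_cases h : j = σ i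
  · subst h
    simp
  · rw [if_neg h, if_neg (fun h' => h h'.symm), mul_one]

theorem j4939_row {k : ℕ} (σ : Fin k → Fin k) (g : Fin k → Fin k → ℕ) (i : Fin k) :
    ∏ j, g i j = (∏ j, j4939_o σ g i j) * g i (σ i) := by
  rw [Finset.prod_congr rfl (fun j _ => j4939_cell σ g i j), Finset.prod_mul_distrib]
  congr 1
  rw [Finset.prod_ite_eq]
  simp

theorem j4939_col {k : ℕ} (σ : Fin k → Fin k) (g : Fin k → Fin k → ℕ) (j : Fin k) :
    ∏ i, g i j = (∏ i, j4939_o σ g i j) *
      ∏ i ∈ Finset.univ.filter (fun i => σ i = j), g i (σ i) := by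
  rw [Finset.prod_congr rfl (fun i _ => j4939_cell σ g i j), Finset.prod_mul_distrib,
    Finset.prod_filter]

theorem j4939_opos {k : ℕ} (σ : Fin k → Fin k) (g : Fin k → Fin k → ℕ)
    (hg : ∀ i j, 1 ≤ g i j) (i j : Fin k) : 1 ≤ j4939_o σ g i j := by
  unfold j4939_o
  split_ifs
  · exact le_refl _
  · exact hg i j

theorem j4939_XX {k : ℕ} (σ : Fin k → Fin k) (M : ℝ) (g : Fin k → Fin k → ℕ)
    (hg : ∀ i j, 1 ≤ g i j) (j : Fin k) : XX σ M (j4939_o σ g) j = XX σ M g j := by
  have ho := j4939_opos σ g hg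
  have hgr : ∀ i j, (g i j : ℝ) ≠ 0 := fun i j => by
    have := hg i j
    positivity
  have hor : ∀ i j, (j4939_o σ g i j : ℝ) ≠ 0 := fun i j => by
    have := ho i j
    positivity
  unfold XX
  have e1 : Real.log ((∏ i, g i j : ℕ) : ℝ) = Real.log ((∏ i, j4939_o σ g i j : ℕ) : ℝ) +
      ∑ i ∈ Finset.univ.filter (fun i => σ i = j), Real.log (g i (σ i)) := by
    rw [j4939_col σ g j]
    push_cast
    rw [Real.log_mul (Finset.prod_ne_zero_iff.2 fun i _ => hor i j)
      (Finset.prod_ne_zero_iff.2 fun i _ => hgr i _)]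
    congr 1
    rw [Real.log_prod]
    intro i _
    exact hgr _ _
  have e2 : ∀ i, Real.log ((∏ j', g i j' : ℕ) : ℝ) =
      Real.log ((∏ j', j4939_o σ g i j' : ℕ) : ℝ) + Real.log (g i (σ i)) := by
    intro i
    rw [j4939_row σ g i]
    push_cast
    rw [Real.log_mul]
    · exact Finset.prod_ne_zero_iff.2 fun j _ => hor i j
    · exact hgr i _
  simp_rw [e2]
  rw [e1, Finset.sum_add_distrib]
  ring

theorem diag_sum {k : ℕ} (hk : 1 ≤ k) {M : ℝ} (hM : 1 ≤ M) (m : ℕ) (σ : Fin k → Fin k) {ρ H : ℝ}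
    (hρ : 0 ≤ ρ) (hH0 : 0 ≤ H)
    (hH : ∀ b : ℕ, ∑ d ∈ (Finset.Icc 1 ⌊M⌋₊).filter (fun d => cardFactors d + b + 1 ≤ m),
      (1 : ℝ) / d ≤ H * ρ ^ b) :
    ∑ g ∈ G1 k M m σ, ∏ i, (1 : ℝ) / ((∏ j, g i j : ℕ) : ℝ) ≤
      H ^ k * ∑ o ∈ Off k M σ, ∏ i, ∏ j, ρ ^ (cardFactors (o i j)) / (o i j : ℝ) := by
  classical
  have hpos : ∀ g ∈ G1 k M m σ, ∀ i j, 1 ≤ g i j ∧ g i j ≤ ⌊M⌋₊ := by
    intro g hg i j
    unfold G1 at hg
    rw [Finset.mem_filter] at hg
    have h1 := Fintype.mem_piFinset.1 (Fintype.mem_piFinset.1 hg.1 i) j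
    exact Finset.mem_Icc.1 h1
  let D : (Fin k → Fin k → ℕ) → Finset (Fin k → ℕ) := fun o =>
    Fintype.piFinset fun i => (Finset.Icc 1 ⌊M⌋₊).filter
      (fun d => cardFactors d + cardFactors (∏ j, o i j) + 1 ≤ m)
  let Φ : (Fin k → Fin k → ℕ) → (_ : Fin k → Fin k → ℕ) × (Fin k → ℕ) := fun g =>
    ⟨j4939_o σ g, fun i => g i (σ i)⟩
  let F' : ((_ : Fin k → Fin k → ℕ) × (Fin k → ℕ)) → ℝ := fun x =>
    ∏ i, ((1 : ℝ) / ((∏ j, x.1 i j : ℕ) : ℝ)) * (1 / (x.2 i : ℝ))
  have hFΦ : ∀ g, ∏ i, (1 : ℝ) / ((∏ j, g i j : ℕ) : ℝ) = F' (Φ g) := by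
    intro g
    refine Finset.prod_congr rfl fun i _ => ?_
    show _ = (1 : ℝ) / ((∏ j, j4939_o σ g i j : ℕ) : ℝ) * (1 / (g i (σ i) : ℝ))
    rw [j4939_row σ g i, Nat.cast_mul, one_div_mul_one_div]
  have hinj : Set.InjOn Φ (G1 k M m σ) := by
    intro g _ g' _ h
    have h1 : j4939_o σ g = j4939_o σ g' := by
      have := congrArg Sigma.fst h
      exact this
    have h2 : (fun i => g i (σ i)) = fun i => g' i (σ i) := by
      have := congrArg (fun x : (_ : Fin k → Fin k → ℕ) × (Fin k → ℕ) => x.2) h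
      exact this
    funext i j
    rw [j4939_cell σ g i j, j4939_cell σ g' i j, h1]
    have := congrFun h2 i
    rw [this]
  have hsub : (G1 k M m σ).image Φ ⊆ (Off k M σ).sigma D := by
    intro x hx
    obtain ⟨g, hg, rfl⟩ := Finset.mem_image.1 hx
    have hp := hpos g hg
    have hg1 : ∀ i j, 1 ≤ g i j := fun i j => (hp i j).1
    have ho := j4939_opos σ g hg1
    have hg' := hg
    unfold G1 at hg'
    rw [Finset.mem_filter] at hg'
    rw [Finset.mem_sigma]
    refine ⟨?_, ?_⟩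
    · unfold Off
      rw [Finset.mem_filter]
      refine ⟨?_, ?_⟩
      · rw [Fintype.mem_piFinset]
        intro i
        rw [Fintype.mem_piFinset]
        intro j
        show j4939_o σ g i j ∈ _
        unfold j4939_o
        split_ifs with h
        · exact Finset.mem_singleton_self 1
        · exact Finset.mem_Icc.2 (hp i j)
      · intro j
        show |XX σ M (j4939_o σ g) j| ≤ k
        rw [j4939_XX σ M g hg1 j]
        exact hg'.2.2 j
    · show (fun i => g i (σ i)) ∈ D (j4939_o σ g)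
      rw [Fintype.mem_piFinset]
      intro i
      rw [Finset.mem_filter]
      refine ⟨Finset.mem_Icc.2 (hp i _), ?_⟩
      have h1 := hg'.2.1 i
      rw [j4939_row σ g i, cardFactors_mul] at h1
      · omega
      · exact Finset.prod_ne_zero_iff.2 fun j _ => by
          have := ho i j
          omega
      · have := hg1 i (σ i)
        omega
  have hF'0 : ∀ x, 0 ≤ F' x := by
    intro x
    refine Finset.prod_nonneg fun i _ => ?_
    positivity
  have hoff : ∀ o ∈ Off k M σ, ∀ i j, 1 ≤ o i j := by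
    intro o ho i j
    unfold Off at ho
    rw [Finset.mem_filter] at ho
    have h1 := Fintype.mem_piFinset.1 (Fintype.mem_piFinset.1 ho.1 i) j
    split_ifs at h1 with h
    · rw [Finset.mem_singleton] at h1
      omega
    · exact (Finset.mem_Icc.1 h1).1
  calc ∑ g ∈ G1 k M m σ, ∏ i, (1 : ℝ) / ((∏ j, g i j : ℕ) : ℝ)
      = ∑ g ∈ G1 k M m σ, F' (Φ g) := Finset.sum_congr rfl fun g _ => hFΦ g
    _ = ∑ x ∈ (G1 k M m σ).image Φ, F' x := (Finset.sum_image hinj).symm
    _ ≤ ∑ x ∈ (Off k M σ).sigma D, F' x :=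
        Finset.sum_le_sum_of_subset_of_nonneg hsub fun x _ _ => hF'0 x
    _ = ∑ o ∈ Off k M σ, ∑ d ∈ D o, F' ⟨o, d⟩ := Finset.sum_sigma _ _ _
    _ ≤ ∑ o ∈ Off k M σ, H ^ k * ∏ i, ∏ j, ρ ^ (cardFactors (o i j)) / (o i j : ℝ) := by
        refine Finset.sum_le_sum fun o ho => ?_
        have ho1 := hoff o ho
        have e1 : ∑ d ∈ D o, F' ⟨o, d⟩ = (∏ i, (1 : ℝ) / ((∏ j, o i j : ℕ) : ℝ)) *
            ∑ d ∈ D o, ∏ i, (1 : ℝ) / (d i : ℝ) := by
          rw [Finset.mul_sum]
          refine Finset.sum_congr rfl fun d _ => ?_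
          exact Finset.prod_mul_distrib
        have e2 : ∑ d ∈ D o, ∏ i, (1 : ℝ) / (d i : ℝ) =
            ∏ i, ∑ d ∈ (Finset.Icc 1 ⌊M⌋₊).filter
              (fun d => cardFactors d + cardFactors (∏ j, o i j) + 1 ≤ m), (1 : ℝ) / d := by
          rw [Finset.prod_univ_sum]
        have e3 : ∏ i, ∑ d ∈ (Finset.Icc 1 ⌊M⌋₊).filter
              (fun d => cardFactors d + cardFactors (∏ j, o i j) + 1 ≤ m), (1 : ℝ) / d ≤
            ∏ i, H * ρ ^ (cardFactors (∏ j, o i j)) := by
          refine Finset.prod_le_prod (fun i _ => ?_) (fun i _ => hH _)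
          exact Finset.sum_nonneg fun d _ => by positivity
        have e4 : ∀ i, cardFactors (∏ j, o i j) = ∑ j, cardFactors (o i j) := by
          intro i
          have : ∀ s : Finset (Fin k), cardFactors (∏ j ∈ s, o i j) = ∑ j ∈ s, cardFactors (o i j) := by
            intro s
            induction s using Finset.induction_on with
            | empty => simp
            | insert a s ha ih =>
              rw [Finset.prod_insert ha, Finset.sum_insert ha, cardFactors_mul, ih]
              · have := ho1 i a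
                omega
              · exact Finset.prod_ne_zero_iff.2 fun j _ => by
                  have := ho1 i j
                  omega
          exact this Finset.univ
        have e5 : 0 ≤ ∏ i, (1 : ℝ) / ((∏ j, o i j : ℕ) : ℝ) :=
          Finset.prod_nonneg fun i _ => by positivity
        rw [e1, e2]
        refine (mul_le_mul_of_nonneg_left e3 e5).trans (le_of_eq ?_)
        rw [← Finset.prod_mul_distrib]
        have e6 : H ^ k = ∏ _i : Fin k, H := by simp
        rw [e6, ← Finset.prod_mul_distrib]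
        refine Finset.prod_congr rfl fun i _ => ?_
        rw [e4 i, Finset.prod_div_distrib, Finset.prod_pow_eq_pow_sum]
        push_cast
        ring
    _ = _ := by rw [Finset.mul_sum]

end Pool.Agent.Helper256.KM
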