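import Mathlib
import Pool.Agent.Helper256.KM.Defs

set_option autoImplicit false

namespace Pool.Agent.Helper256.KM

open Finset ArithmeticFunction

theorem aux_decomp (l : ℕ) : ∀ (a : ℕ) (f : Fin l → ℕ), a ∣ ∏ j, f j →
    ∃ d : Fin l → ℕ, (∀ j, d j ∣ f j) ∧ ∏ j, d j = a := by
  induction l with
  | zero =>
    intro a f h
    refine ⟨fun _ => 1, fun j => j.elim0, ?_⟩
    rw [Finset.univ_eq_empty, Finset.prod_empty] at h ⊢
    exact (Nat.dvd_one.1 h).symm
  | succ l ih =>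
    intro a f h
    rw [Fin.prod_univ_succ] at h
    obtain ⟨a1, a2, h1, h2, h3⟩ := exists_dvd_and_dvd_of_dvd_mul h
    obtain ⟨d, hd1, hd2⟩ := ih a2 (fun j => f j.succ) h2
    refine ⟨Fin.cons a1 d, ?_, ?_⟩
    · intro j
      refine Fin.cases ?_ (fun j => ?_) j
      · simpa using h1
      · simpa using hd1 j
    · rw [Fin.prod_univ_succ]
      simp [hd2, h3]

theorem exists_matrix (k l : ℕ) (n : Fin k → ℕ) (n' : Fin l → ℕ) (hn : ∀ i, n i ≠ 0)
    (hn' : ∀ j, n' j ≠ 0) (h : ∏ i, n i = ∏ j, n' j) :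
    ∃ g : Fin k → Fin l → ℕ, (∀ i, ∏ j, g i j = n i) ∧ (∀ j, ∏ i, g i j = n' j) := by
  induction k generalizing n' with
  | zero =>
    refine ⟨fun i => i.elim0, fun i => i.elim0, ?_⟩
    intro j
    rw [Finset.univ_eq_empty, Finset.prod_empty] at h ⊢
    have h1 : n' j ∣ ∏ j, n' j := Finset.dvd_prod_of_mem _ (Finset.mem_univ j)
    rw [← h] at h1
    exact (Nat.dvd_one.1 h1).symm
  | succ k ih =>
    rw [Fin.prod_univ_succ] at h
    obtain ⟨d, hd1, hd2⟩ := aux_decomp l (n 0) n' (h ▸ dvd_mul_right _ _)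
    choose q hq using hd1
    have hq0 : ∀ j, q j ≠ 0 := by
      intro j h0
      apply hn' j
      rw [hq j, h0, mul_zero]
    have h2 : ∏ i : Fin k, n i.succ = ∏ j, q j := by
      have h3 : ∏ j, n' j = (∏ j, d j) * ∏ j, q j := by
        rw [← Finset.prod_mul_distrib]
        exact Finset.prod_congr rfl (fun j _ => hq j)
      rw [h3, hd2] at h
      exact Nat.eq_of_mul_eq_mul_left (Nat.pos_of_ne_zero (hn 0)) h
    obtain ⟨g, hg1, hg2⟩ := ih (fun i => n i.succ) q (fun i => hn _) hq0 h2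
    refine ⟨Fin.cons d g, ?_, ?_⟩
    · intro i
      refine Fin.cases ?_ (fun i => ?_) i
      · simpa using hd2
      · simpa using hg1 i
    · intro j
      rw [Fin.prod_univ_succ]
      simp only [Fin.cons_zero, Fin.cons_succ]
      rw [hg2 j, hq j]

end Pool.Agent.Helper256.KM
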