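import Mathlib
import Pool.Agent.Helper256.KM.Defs
import Pool.Agent.Helper256.KM.XM

set_option autoImplicit false

namespace Pool.Agent.Helper256.KM

open Finset ArithmeticFunction

theorem em_card (k : ℕ) {M : ℝ} (m : ℕ) : TT k (blk M m) ≤ (GG k M m).card := by
  unfold TT
  refine (Finset.card_le_card (t := (GG k M m).image
    (fun g => ((fun i => ∏ j, g i j), (fun j => ∏ i, g i j)))) ?_).trans Finset.card_image_le
  rintro ⟨n, n'⟩ hz
  rw [Finset.mem_filter, Finset.mem_product] at hz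
  obtain ⟨⟨h1, h2⟩, h3⟩ := hz
  simp only [Fintype.mem_piFinset] at h1 h2
  have hpos : ∀ x ∈ blk M m, x ≠ 0 := by
    intro x hx
    rw [blk, Finset.mem_filter, Finset.mem_Icc] at hx
    omega
  have hle : ∀ x ∈ blk M m, x ≤ ⌊M⌋₊ := by
    intro x hx
    rw [blk, Finset.mem_filter, Finset.mem_Icc] at hx
    exact hx.1.2
  obtain ⟨g, hg1, hg2⟩ := exists_matrix k k n n' (fun i => hpos _ (h1 i)) (fun j => hpos _ (h2 j)) h3
  rw [Finset.mem_image]
  refine ⟨g, ?_, ?_⟩
  · rw [GG, Finset.mem_filter]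
    refine ⟨?_, ?_, ?_⟩
    · rw [Fintype.mem_piFinset]
      intro i
      rw [Fintype.mem_piFinset]
      intro j
      have hd : g i j ∣ n i := by
        rw [← hg1 i]
        exact Finset.dvd_prod_of_mem _ (Finset.mem_univ j)
      have hn0 : 0 < n i := Nat.pos_of_ne_zero (hpos _ (h1 i))
      rw [Finset.mem_Icc]
      exact ⟨Nat.pos_of_dvd_of_pos hd hn0, (Nat.le_of_dvd hn0 hd).trans (hle _ (h1 i))⟩
    · intro i
      rw [hg1 i]
      exact h1 i
    · intro j
      rw [hg2 j]
      exact h2 j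
  · ext i
    · exact hg1 i
    · exact hg2 i

theorem energy_le_mat (k : ℕ) {M : ℝ} (hM : 4 ≤ M) (m : ℕ) :
    (TT k (blk M m) : ℝ) * (Real.log M / 2) ^ k ≤
      ∑ σ : Fin k → Fin k, ∑ g ∈ GG k M m, ∏ i, Real.log (g i (σ i)) := by
  have hlog4 : Real.log 4 = 2 * Real.log 2 := by
    rw [show (4 : ℝ) = 2 ^ 2 by norm_num, Real.log_pow]
    push_cast; ring
  have hlogM : Real.log 4 ≤ Real.log M := Real.log_le_log (by norm_num) hM
  have hlog2 : 0 < Real.log 2 := Real.log_pos (by norm_num)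
  have hpos : 0 ≤ Real.log M / 2 := by linarith
  have key : ∀ g ∈ GG k M m, (Real.log M / 2) ^ k ≤ ∑ σ : Fin k → Fin k, ∏ i, Real.log (g i (σ i)) := by
    intro g hg
    rw [GG, Finset.mem_filter] at hg
    obtain ⟨h1, h2, -⟩ := hg
    have e1 : ∏ i, ∑ j, Real.log (g i j) = ∑ σ : Fin k → Fin k, ∏ i, Real.log (g i (σ i)) := by
      rw [Finset.prod_univ_sum, Fintype.piFinset_univ]
    rw [← e1]
    have e2 : (Real.log M / 2) ^ k = ∏ _i : Fin k, (Real.log M / 2) := by
      rw [Finset.prod_const, Finset.card_univ, Fintype.card_fin]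
    rw [e2]
    refine Finset.prod_le_prod (fun i _ => hpos) (fun i _ => ?_)
    have h3 := h2 i
    rw [blk, Finset.mem_filter] at h3
    obtain ⟨-, h4, -⟩ := h3
    have hne : ∀ j ∈ (Finset.univ : Finset (Fin k)), (g i j : ℝ) ≠ 0 := by
      intro j _
      rw [Fintype.mem_piFinset] at h1
      have h5 := h1 i
      rw [Fintype.mem_piFinset] at h5
      have h6 := h5 j
      rw [Finset.mem_Icc] at h6
      have : g i j ≠ 0 := by omega
      exact_mod_cast this
    rw [← Real.log_prod hne]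
    have h7 : Real.log (M / 2) ≤ Real.log (∏ j, (g i j : ℝ)) := by
      apply Real.log_le_log (by linarith)
      push_cast at h4
      exact h4.le
    rw [Real.log_div (by linarith) (by norm_num)] at h7
    linarith
  calc (TT k (blk M m) : ℝ) * (Real.log M / 2) ^ k ≤ ((GG k M m).card : ℝ) * (Real.log M / 2) ^ k := by
        apply mul_le_mul_of_nonneg_right _ (pow_nonneg hpos k)
        exact_mod_cast em_card k m
    _ = ∑ g ∈ GG k M m, (Real.log M / 2) ^ k := by rw [Finset.sum_const, nsmul_eq_mul]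
    _ ≤ ∑ g ∈ GG k M m, ∑ σ : Fin k → Fin k, ∏ i, Real.log (g i (σ i)) := Finset.sum_le_sum key
    _ = _ := Finset.sum_comm

end Pool.Agent.Helper256.KM
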