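import Mathlib
import Pool.Agent.Helper256.KM.Defs

set_option autoImplicit false

namespace Pool.Agent.Helper256.KM

open Finset ArithmeticFunction

/-- division of the cells -/
def gd {k : ℕ} (σ : Fin k → Fin k) (g : Fin k → Fin k → ℕ) (q : Fin k → ℕ) : Fin k → Fin k → ℕ :=
  fun i j => g i j / (if j = σ i then q i else 1)

theorem gd_mul {k : ℕ} {σ : Fin k → Fin k} {g : Fin k → Fin k → ℕ} {q : Fin k → ℕ}
    (hq : ∀ i, q i ∣ g i (σ i)) (i j : Fin k) :
    g i j = gd σ g q i j * (if j = σ i then q i else 1) := by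
  unfold gd
  split_ifs with h
  · subst h
    exact (Nat.div_mul_cancel (hq i)).symm
  · simp

theorem facts {k : ℕ} (hk : 1 ≤ k) {M : ℝ} (hM : 4 ≤ M) (m : ℕ) (σ : Fin k → Fin k)
    {g : Fin k → Fin k → ℕ} (hg : g ∈ GG k M m) {q : Fin k → ℕ} (hq : ∀ i, q i ∣ g i (σ i))
    (hΛ : ∀ i, vonMangoldt (q i) ≠ 0) :
    gd σ g q ∈ G1 k M m σ ∧ ∀ i, q i ∈ Finset.Ioc 0 ⌊M / ((∏ j, gd σ g q i j : ℕ) : ℝ)⌋₊ := by
  classical
  have hM0 : 0 < M := by linarith
  unfold GG at hg
  rw [Finset.mem_filter] at hg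
  obtain ⟨hg1, hg2, hg3⟩ := hg
  have hgij : ∀ i j, 1 ≤ g i j ∧ g i j ≤ ⌊M⌋₊ := by
    intro i j
    have := Fintype.mem_piFinset.mp (Fintype.mem_piFinset.mp hg1 i) j
    exact Finset.mem_Icc.mp this
  set g' := gd σ g q with hg'
  have hmul : ∀ i j, g i j = g' i j * (if j = σ i then q i else 1) := gd_mul hq
  have hg'pos : ∀ i j, 1 ≤ g' i j := by
    intro i j
    by_contra h
    have h0 : g' i j = 0 := by omega
    have h1 := hmul i j
    rw [h0, zero_mul] at h1
    have := (hgij i j).1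
    omega
  have hg'le : ∀ i j, g' i j ≤ ⌊M⌋₊ := fun i j => (Nat.div_le_self _ _).trans (hgij i j).2
  have hqpos : ∀ i, 2 ≤ q i ∧ 1 ≤ cardFactors (q i) := by
    intro i
    have h1 : IsPrimePow (q i) := vonMangoldt_ne_zero_iff.mp (hΛ i)
    refine ⟨h1.two_le, ?_⟩
    by_contra h2
    have h3 : cardFactors (q i) = 0 := by omega
    rw [cardFactors_eq_zero_iff_eq_zero_or_one] at h3
    have := h1.two_le
    omega
  have hupos : ∀ i, 0 < ∏ j, g' i j := fun i => Finset.prod_pos fun j _ => hg'pos i j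
  have hcpos : ∀ j, 0 < ∏ i, g' i j := fun j => Finset.prod_pos fun i _ => hg'pos i j
  have hrow : ∀ i, ∏ j, g i j = (∏ j, g' i j) * q i := by
    intro i
    rw [Finset.prod_congr rfl fun j _ => hmul i j, Finset.prod_mul_distrib]
    congr 1
    simp
  have hcol : ∀ j, ∏ i, g i j = (∏ i, g' i j) * ∏ i ∈ Finset.univ.filter (fun i => σ i = j), q i := by
    intro j
    rw [Finset.prod_congr rfl fun i _ => hmul i j, Finset.prod_mul_distrib, Finset.prod_filter]
    congr 1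
    apply Finset.prod_congr rfl
    intro i _
    by_cases h : j = σ i
    · rw [if_pos h, if_pos h.symm]
    · rw [if_neg h, if_neg (fun h' => h h'.symm)]
  have hblk : ∀ n ∈ blk M m, M / 2 < (n : ℝ) ∧ (n : ℝ) ≤ M ∧ cardFactors n = m := by
    intro n hn
    unfold blk at hn
    rw [Finset.mem_filter, Finset.mem_Icc] at hn
    exact ⟨hn.2.1, (Nat.le_floor_iff hM0.le).mp hn.1.2, hn.2.2⟩
  -- logarithms
  have hlogrow : ∀ i, Real.log M - Real.log 2 - Real.log ((∏ j, g' i j : ℕ) : ℝ) ≤ Real.log (q i) ∧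
      Real.log (q i) ≤ Real.log M - Real.log ((∏ j, g' i j : ℕ) : ℝ) := by
    intro i
    obtain ⟨h1, h2, _⟩ := hblk _ (hg2 i)
    rw [hrow i] at h1 h2
    have hu : (0 : ℝ) < ((∏ j, g' i j : ℕ) : ℝ) := by exact_mod_cast hupos i
    have hq0 : (0 : ℝ) < q i := by
      have := (hqpos i).1
      exact_mod_cast (by omega : 0 < q i)
    rw [Nat.cast_mul] at h1 h2
    have h3 := Real.log_le_log (by positivity) h1.le
    have h4 := Real.log_le_log (mul_pos hu hq0) h2
    rw [Real.log_mul hu.ne' hq0.ne'] at h3 h4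
    rw [Real.log_div hM0.ne' (by norm_num)] at h3
    constructor <;> linarith
  have hlogcol : ∀ j, Real.log M - Real.log 2 ≤ Real.log ((∏ i, g' i j : ℕ) : ℝ) +
      ∑ i ∈ Finset.univ.filter (fun i => σ i = j), Real.log (q i) ∧
      Real.log ((∏ i, g' i j : ℕ) : ℝ) +
      ∑ i ∈ Finset.univ.filter (fun i => σ i = j), Real.log (q i) ≤ Real.log M := by
    intro j
    obtain ⟨h1, h2, _⟩ := hblk _ (hg3 j)
    rw [hcol j] at h1 h2
    have hu : (0 : ℝ) < ((∏ i, g' i j : ℕ) : ℝ) := by exact_mod_cast hcpos j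
    have hq0 : ∀ i, (0 : ℝ) < q i := by
      intro i
      have := (hqpos i).1
      exact_mod_cast (by omega : 0 < q i)
    have hq1 : (0 : ℝ) < ∏ i ∈ Finset.univ.filter (fun i => σ i = j), (q i : ℝ) :=
      Finset.prod_pos fun i _ => hq0 i
    rw [Nat.cast_mul, Nat.cast_prod (f := q)] at h1 h2
    have h3 := Real.log_le_log (by positivity) h1.le
    have h4 := Real.log_le_log (mul_pos hu hq1) h2
    rw [Real.log_mul hu.ne' hq1.ne', Real.log_prod (fun i _ => (hq0 i).ne')] at h3 h4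
    rw [Real.log_div hM0.ne' (by norm_num)] at h3
    constructor <;> linarith
  constructor
  · unfold G1
    rw [Finset.mem_filter]
    refine ⟨?_, ?_, ?_⟩
    · rw [Fintype.mem_piFinset]
      intro i
      rw [Fintype.mem_piFinset]
      intro j
      exact Finset.mem_Icc.mpr ⟨hg'pos i j, hg'le i j⟩
    · intro i
      have h1 := (hblk _ (hg2 i)).2.2
      rw [hrow i, cardFactors_mul (hupos i).ne' (by have := (hqpos i).1; omega)] at h1
      have := (hqpos i).2
      omega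
    · intro j
      obtain ⟨c1, c2⟩ := hlogcol j
      have hlog2 : Real.log 2 ≤ 1 := by
        have := Real.log_two_lt_d9
        linarith
      have hlog2' : 0 ≤ Real.log 2 := Real.log_nonneg (by norm_num)
      have hk1 : (1 : ℝ) ≤ k := by exact_mod_cast hk
      have hcard : ((Finset.univ.filter (fun i => σ i = j)).card : ℝ) ≤ k := by
        have := Finset.card_filter_le (Finset.univ : Finset (Fin k)) (fun i => σ i = j)
        rw [Finset.card_univ, Fintype.card_fin] at this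
        exact_mod_cast this
      have s1 : ∑ i ∈ Finset.univ.filter (fun i => σ i = j), Real.log (q i) ≤
          ((Finset.univ.filter (fun i => σ i = j)).card : ℝ) * Real.log M -
          ∑ i ∈ Finset.univ.filter (fun i => σ i = j), Real.log ((∏ j', g' i j' : ℕ) : ℝ) := by
        rw [← nsmul_eq_mul, ← Finset.sum_const, ← Finset.sum_sub_distrib]
        exact Finset.sum_le_sum fun i _ => (hlogrow i).2
      have s2 : ((Finset.univ.filter (fun i => σ i = j)).card : ℝ) * (Real.log M - Real.log 2) -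
          ∑ i ∈ Finset.univ.filter (fun i => σ i = j), Real.log ((∏ j', g' i j' : ℕ) : ℝ) ≤
          ∑ i ∈ Finset.univ.filter (fun i => σ i = j), Real.log (q i) := by
        rw [← nsmul_eq_mul, ← Finset.sum_const, ← Finset.sum_sub_distrib]
        exact Finset.sum_le_sum fun i _ => (hlogrow i).1
      have s3 : ((Finset.univ.filter (fun i => σ i = j)).card : ℝ) * Real.log 2 ≤ k * 1 :=
        mul_le_mul hcard hlog2 hlog2' (by linarith)
      unfold XX
      rw [abs_le]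
      constructor
      · linarith
      · linarith
  · intro i
    rw [Finset.mem_Ioc]
    have := (hqpos i).1
    refine ⟨by omega, ?_⟩
    apply Nat.le_floor
    have hu : (0 : ℝ) < ((∏ j, g' i j : ℕ) : ℝ) := by exact_mod_cast hupos i
    rw [le_div_iff₀ hu]
    have h2 := (hblk _ (hg2 i)).2.1
    rw [hrow i, Nat.cast_mul] at h2
    linarith

theorem remove_powers {k : ℕ} (hk : 1 ≤ k) {M : ℝ} (hM : 4 ≤ M) (m : ℕ) (σ : Fin k → Fin k) :
    ∑ g ∈ GG k M m, ∏ i, Real.log (g i (σ i)) ≤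
      ∑ g ∈ G1 k M m σ, ∏ i, Chebyshev.psi (M / ((∏ j, g i j : ℕ) : ℝ)) := by
  classical
  have hL : ∀ g ∈ GG k M m, ∏ i, Real.log (g i (σ i)) =
      ∑ q ∈ (Fintype.piFinset fun i => (g i (σ i)).divisors).filter
        (fun q => ∀ i, vonMangoldt (q i) ≠ 0), ∏ i, vonMangoldt (q i) := by
    intro g _
    have h1 : ∀ i, Real.log (g i (σ i)) = ∑ q ∈ (g i (σ i)).divisors, vonMangoldt q :=
      fun i => vonMangoldt_sum.symm
    rw [Finset.prod_congr rfl fun i _ => h1 i, Finset.prod_univ_sum]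
    symm
    apply Finset.sum_filter_of_ne
    intro q _ hq i hi
    exact hq (Finset.prod_eq_zero (Finset.mem_univ i) hi)
  have hR : ∀ g ∈ G1 k M m σ, ∏ i, Chebyshev.psi (M / ((∏ j, g i j : ℕ) : ℝ)) =
      ∑ q ∈ Fintype.piFinset fun i => Finset.Ioc 0 ⌊M / ((∏ j, g i j : ℕ) : ℝ)⌋₊,
        ∏ i, vonMangoldt (q i) := by
    intro g _
    unfold Chebyshev.psi
    rw [Finset.prod_univ_sum]
  rw [Finset.sum_congr rfl hL, Finset.sum_congr rfl hR, Finset.sum_sigma', Finset.sum_sigma']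
  set A := (GG k M m).sigma (fun g => (Fintype.piFinset fun i => (g i (σ i)).divisors).filter
        (fun q => ∀ i, vonMangoldt (q i) ≠ 0)) with hA
  set B := (G1 k M m σ).sigma (fun g => Fintype.piFinset fun i =>
    Finset.Ioc 0 ⌊M / ((∏ j, g i j : ℕ) : ℝ)⌋₊) with hB
  let φ : (Σ _ : Fin k → Fin k → ℕ, Fin k → ℕ) → (Σ _ : Fin k → Fin k → ℕ, Fin k → ℕ) :=
    fun x => ⟨gd σ x.1 x.2, x.2⟩
  have hA' : ∀ x ∈ A, x.1 ∈ GG k M m ∧ (∀ i, x.2 i ∣ x.1 i (σ i)) ∧
      ∀ i, vonMangoldt (x.2 i) ≠ 0 := by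
    intro x hx
    rw [hA, Finset.mem_sigma, Finset.mem_filter] at hx
    refine ⟨hx.1, fun i => ?_, hx.2.2⟩
    exact Nat.dvd_of_mem_divisors (Fintype.mem_piFinset.mp hx.2.1 i)
  have hmaps : ∀ x ∈ A, φ x ∈ B := by
    intro x hx
    obtain ⟨h1, h2, h3⟩ := hA' x hx
    obtain ⟨h4, h5⟩ := facts hk hM m σ h1 h2 h3
    rw [hB, Finset.mem_sigma]
    exact ⟨h4, Fintype.mem_piFinset.mpr h5⟩
  have hinj : Set.InjOn φ A := by
    intro x hx y hy hxy
    obtain ⟨_, h2, _⟩ := hA' x hx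
    obtain ⟨_, h2', _⟩ := hA' y hy
    have e1 : gd σ x.1 x.2 = gd σ y.1 y.2 := congrArg (fun z => z.1) hxy
    have e2 : (φ x).2 = (φ y).2 := congrArg (fun z : (Σ _ : Fin k → Fin k → ℕ, Fin k → ℕ) => z.2) hxy
    change x.2 = y.2 at e2
    have e3 : x.1 = y.1 := by
      funext i j
      rw [gd_mul h2 i j, gd_mul h2' i j, e1, e2]
    exact Sigma.ext e3 (heq_of_eq e2)
  calc ∑ x ∈ A, ∏ i, vonMangoldt (x.2 i) = ∑ x ∈ A, ∏ i, vonMangoldt ((φ x).2 i) := rfl
    _ = ∑ y ∈ A.image φ, ∏ i, vonMangoldt (y.2 i) :=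
        (Finset.sum_image (f := fun y : (Σ _ : Fin k → Fin k → ℕ, Fin k → ℕ) =>
          ∏ i, vonMangoldt (y.2 i)) hinj).symm
    _ ≤ ∑ y ∈ B, ∏ i, vonMangoldt (y.2 i) :=
        Finset.sum_le_sum_of_subset_of_nonneg (Finset.image_subset_iff.mpr hmaps)
          (fun _ _ _ => Finset.prod_nonneg fun _ _ => vonMangoldt_nonneg)

end Pool.Agent.Helper256.KM
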