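import Mathlib
import Pool.Agent.Helper256.KM.Defs

set_option autoImplicit false

namespace Pool.Agent.Helper256.KM

open Finset ArithmeticFunction

theorem wk_sum_rpow {ρ : ℝ} (hρ : 0 < ρ) (hρ1 : ρ ≤ 1) (N : ℕ) :
    ∑ x ∈ Finset.range N, ((1 : ℝ) + x) ^ (ρ - 1) ≤ (N : ℝ) ^ ρ / ρ := by
  induction N with
  | zero => simp [Real.zero_rpow hρ.ne']
  | succ N ih =>
    rw [Finset.sum_range_succ]
    refine (add_le_add_left ih _).trans ?_
    have hy : (0 : ℝ) < (N : ℝ) + 1 := by positivity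
    have hb := _root_.rpow_one_add_le_one_add_mul_self (s := -(1 / ((N : ℝ) + 1))) (by
      rw [neg_le_neg_iff, div_le_one hy]
      have : (0 : ℝ) ≤ N := Nat.cast_nonneg _
      linarith) hρ.le hρ1
    have h1 : (N : ℝ) = ((N : ℝ) + 1) * (1 + -(1 / ((N : ℝ) + 1))) := by
      field_simp
      ring
    have h0 : (0 : ℝ) ≤ 1 + -(1 / ((N : ℝ) + 1)) := by
      have : 1 / ((N : ℝ) + 1) ≤ 1 := by
        rw [div_le_one hy]
        have : (0 : ℝ) ≤ N := Nat.cast_nonneg _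
        linarith
      linarith
    have h2 : (N : ℝ) ^ ρ ≤ ((N : ℝ) + 1) ^ ρ * (1 + ρ * -(1 / ((N : ℝ) + 1))) := by
      calc (N : ℝ) ^ ρ = (((N : ℝ) + 1) * (1 + -(1 / ((N : ℝ) + 1)))) ^ ρ := by rw [← h1]
        _ = ((N : ℝ) + 1) ^ ρ * (1 + -(1 / ((N : ℝ) + 1))) ^ ρ := Real.mul_rpow hy.le h0
        _ ≤ _ := mul_le_mul_of_nonneg_left hb (Real.rpow_nonneg hy.le _)
    have h3 : (1 + (N : ℝ)) ^ (ρ - 1) = ((N : ℝ) + 1) ^ ρ / ((N : ℝ) + 1) := by
      rw [add_comm, Real.rpow_sub hy, Real.rpow_one]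
    rw [h3]
    push_cast
    rw [div_add' _ _ _ hρ.ne', div_le_div_iff_of_pos_right hρ]
    have h4 : ((N : ℝ) + 1) ^ ρ * (1 + ρ * -(1 / ((N : ℝ) + 1))) =
        ((N : ℝ) + 1) ^ ρ - ((N : ℝ) + 1) ^ ρ / ((N : ℝ) + 1) * ρ := by
      field_simp
      ring
    linarith

theorem wk_abel (v : ℕ → ℝ) (hv : Antitone v) (hv0 : ∀ n, 0 ≤ v n) (z : ℕ → ℂ) (B : ℝ)
    (hz : ∀ N, ‖∑ i ∈ Finset.range N, z i‖ ≤ B) (N : ℕ) :
    ‖∑ i ∈ Finset.range N, (v i : ℂ) * z i‖ ≤ B * v 0 := by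
  have key : ∀ N : ℕ, ‖∑ i ∈ Finset.range N, (v i : ℂ) * z i -
      (v N : ℂ) * ∑ i ∈ Finset.range N, z i‖ ≤ B * (v 0 - v N) := by
    intro N
    induction N with
    | zero => simp
    | succ N ih =>
      have e : ∑ i ∈ Finset.range (N + 1), (v i : ℂ) * z i -
          (v (N + 1) : ℂ) * ∑ i ∈ Finset.range (N + 1), z i =
          (∑ i ∈ Finset.range N, (v i : ℂ) * z i - (v N : ℂ) * ∑ i ∈ Finset.range N, z i) +
          ((v N - v (N + 1) : ℝ) : ℂ) * ∑ i ∈ Finset.range (N + 1), z i := by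
        rw [Finset.sum_range_succ, Finset.sum_range_succ]
        push_cast
        ring
      rw [e]
      refine (norm_add_le _ _).trans ?_
      rw [norm_mul, Complex.norm_real, Real.norm_of_nonneg (sub_nonneg.2 (hv (Nat.le_succ N)))]
      have h1 := mul_le_mul_of_nonneg_left (hz (N + 1)) (sub_nonneg.2 (hv (Nat.le_succ N)))
      nlinarith
  have h1 := key N
  have h2 : ‖(v N : ℂ) * ∑ i ∈ Finset.range N, z i‖ ≤ v N * B := by
    rw [norm_mul, Complex.norm_real, Real.norm_of_nonneg (hv0 N)]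
    exact mul_le_mul_of_nonneg_left (hz N) (hv0 N)
  have h3 : ‖∑ i ∈ Finset.range N, (v i : ℂ) * z i‖ ≤
      ‖∑ i ∈ Finset.range N, (v i : ℂ) * z i - (v N : ℂ) * ∑ i ∈ Finset.range N, z i‖ +
      ‖(v N : ℂ) * ∑ i ∈ Finset.range N, z i‖ := by
    have := norm_add_le (∑ i ∈ Finset.range N, (v i : ℂ) * z i -
      (v N : ℂ) * ∑ i ∈ Finset.range N, z i) ((v N : ℂ) * ∑ i ∈ Finset.range N, z i)
    rwa [sub_add_cancel] at this
  nlinarith

theorem wk_geom (z : ℂ) (hz : ‖z‖ = 1) (hz1 : z ≠ 1) (X N : ℕ) :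
    ‖∑ i ∈ Finset.range N, z ^ (X + i)‖ ≤ 2 / ‖z - 1‖ := by
  have e : ∑ i ∈ Finset.range N, z ^ (X + i) = z ^ X * ((z ^ N - 1) / (z - 1)) := by
    rw [← geom_sum_eq hz1, Finset.mul_sum]
    refine Finset.sum_congr rfl fun i _ => ?_
    rw [pow_add]
  rw [e, norm_mul, norm_pow, hz, one_pow, one_mul, norm_div]
  refine div_le_div_of_nonneg_right ?_ (norm_nonneg _)
  refine (norm_sub_le _ _).trans ?_
  rw [norm_pow, hz, one_pow, norm_one]
  norm_num

theorem wk_single {ρ : ℝ} (hρ : 0 < ρ) (hρ1 : ρ < 1) (z : ℂ) (hz : ‖z‖ = 1) (t : ℝ) (ht : 0 < t)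
    (ht1 : t ≤ 1) (hzt : 4 * t ≤ ‖z - 1‖) (n : ℕ) (hn : 1 / t ≤ n) :
    ‖∑ x ∈ Finset.range n, ((((1 : ℝ) + x) ^ (ρ - 1) : ℝ) : ℂ) * z ^ x‖ ≤
      (2 / ρ + 1 / 2) * t ^ (-ρ) := by
  have hz1 : z ≠ 1 := by
    rintro rfl
    rw [sub_self, norm_zero] at hzt
    linarith
  obtain ⟨m, hm⟩ := Nat.exists_eq_add_of_le (Nat.ceil_le.2 hn)
  set X := ⌈1 / t⌉₊ with hX
  have hX1 : 1 / t ≤ X := Nat.le_ceil _
  have hX2 : (X : ℝ) ≤ 2 / t := by
    have h1 := (Nat.ceil_lt_add_one (show (0 : ℝ) ≤ 1 / t by positivity)).le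
    have h2 : 1 ≤ 1 / t := by
      rw [le_div_iff₀ ht]
      linarith
    have h3 : 2 / t = 1 / t + 1 / t := by ring
    rw [h3]
    linarith
  have hX0 : (0 : ℝ) < X := lt_of_lt_of_le (by positivity) hX1
  rw [hm, Finset.sum_range_add]
  refine (norm_add_le _ _).trans ?_
  have hvpos : ∀ x : ℕ, (0 : ℝ) ≤ ((1 : ℝ) + x) ^ (ρ - 1) := fun x =>
    Real.rpow_nonneg (by positivity) _
  have part1 : ‖∑ x ∈ Finset.range X, ((((1 : ℝ) + x) ^ (ρ - 1) : ℝ) : ℂ) * z ^ x‖ ≤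
      2 / ρ * t ^ (-ρ) := by
    refine (norm_sum_le _ _).trans ?_
    have e : ∑ i ∈ Finset.range X, ‖((((1 : ℝ) + i) ^ (ρ - 1) : ℝ) : ℂ) * z ^ i‖ =
        ∑ i ∈ Finset.range X, ((1 : ℝ) + i) ^ (ρ - 1) := by
      refine Finset.sum_congr rfl fun i _ => ?_
      rw [norm_mul, Complex.norm_real, Real.norm_of_nonneg (hvpos i), norm_pow, hz, one_pow,
        mul_one]
    rw [e]
    refine (wk_sum_rpow hρ hρ1.le X).trans ?_
    have h1 : (X : ℝ) ^ ρ ≤ 2 * t ^ (-ρ) := by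
      refine (Real.rpow_le_rpow hX0.le hX2 hρ.le).trans ?_
      rw [Real.div_rpow (by norm_num) ht.le, Real.rpow_neg ht.le, div_eq_mul_inv]
      refine mul_le_mul_of_nonneg_right ?_ (inv_nonneg.2 (Real.rpow_nonneg ht.le _))
      calc (2 : ℝ) ^ ρ ≤ 2 ^ (1 : ℝ) := Real.rpow_le_rpow_of_exponent_le (by norm_num) hρ1.le
        _ = 2 := Real.rpow_one 2
    rw [div_mul_eq_mul_div]
    exact div_le_div_of_nonneg_right h1 hρ.le
  have part2 : ‖∑ x ∈ Finset.range m,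
      ((((1 : ℝ) + ((X + x : ℕ) : ℝ)) ^ (ρ - 1) : ℝ) : ℂ) * z ^ (X + x)‖ ≤
      1 / 2 * t ^ (-ρ) := by
    have h := wk_abel (fun x => ((1 : ℝ) + ((X + x : ℕ) : ℝ)) ^ (ρ - 1)) (by
        intro a b hab
        refine Real.rpow_le_rpow_of_nonpos (by positivity) ?_ (by linarith)
        have : (a : ℝ) ≤ b := by exact_mod_cast hab
        push_cast
        linarith) (fun x => hvpos _) (fun x => z ^ (X + x)) (2 / ‖z - 1‖)
        (fun N => wk_geom z hz hz1 X N) m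
    refine h.trans ?_
    have h1 : 2 / ‖z - 1‖ ≤ 1 / (2 * t) := by
      rw [div_le_div_iff₀ (by linarith) (by linarith)]
      linarith
    have h2 : ((1 : ℝ) + ((X + 0 : ℕ) : ℝ)) ^ (ρ - 1) ≤ t ^ (1 - ρ) := by
      have h3 : ((1 : ℝ) + ((X + 0 : ℕ) : ℝ)) ^ (ρ - 1) ≤ (1 / t) ^ (ρ - 1) := by
        refine Real.rpow_le_rpow_of_nonpos (by positivity) ?_ (by linarith)
        push_cast
        linarith
      refine h3.trans_eq ?_
      rw [one_div, Real.inv_rpow ht.le, ← Real.rpow_neg ht.le, neg_sub]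
    calc 2 / ‖z - 1‖ * ((1 : ℝ) + ((X + 0 : ℕ) : ℝ)) ^ (ρ - 1) ≤
        1 / (2 * t) * t ^ (1 - ρ) := mul_le_mul h1 h2 (hvpos _) (by positivity)
      _ = 1 / 2 * t ^ (-ρ) := by
        rw [Real.rpow_sub ht, Real.rpow_one, Real.rpow_neg ht.le]
        field_simp
  calc _ ≤ 2 / ρ * t ^ (-ρ) + 1 / 2 * t ^ (-ρ) := add_le_add part1 part2
    _ = _ := by ring

theorem wk_sum_zmod (n : ℕ) [NeZero n] (g : ℕ → ℝ) :
    ∑ u : ZMod n, g u.val = ∑ i ∈ Finset.range n, g i := by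
  cases n with
  | zero => exact absurd rfl (NeZero.ne 0)
  | succ m => exact Fin.sum_univ_eq_sum_range g (m + 1)

theorem wk_dist (n : ℕ) [NeZero n] (u : ZMod n) (t : ℝ)
    (ht : t = (u.val : ℝ) / n ∧ (u.val : ℝ) / n ≤ 1 / 2 ∨
      t = ((n : ℝ) - u.val) / n ∧ 1 / 2 ≤ (u.val : ℝ) / n) :
    4 * t ≤ ‖(ZMod.stdAddChar u : ℂ) - 1‖ := by
  have hn : (0 : ℝ) < n := by exact_mod_cast NeZero.pos n
  have e : (ZMod.stdAddChar u : ℂ) = Complex.exp (Complex.I * ((2 * Real.pi * (u.val / n) : ℝ) : ℂ)) := by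
    rw [ZMod.stdAddChar_apply, ZMod.toCircle_apply]
    congr 1
    push_cast
    ring
  rw [e, Complex.norm_exp_I_mul_ofReal_sub_one]
  have e2 : 2 * Real.pi * ((u.val : ℝ) / n) / 2 = Real.pi * (u.val / n) := by ring
  rw [e2, norm_mul, Real.norm_ofNat]
  have hu : (u.val : ℝ) < n := by exact_mod_cast ZMod.val_lt u
  have hu0 : (0 : ℝ) ≤ u.val := Nat.cast_nonneg _
  have hpi := Real.pi_pos
  rcases ht with ⟨rfl, h⟩ | ⟨rfl, h⟩
  · have h1 := Real.mul_le_sin (x := Real.pi * (u.val / n)) (by positivity) (by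
      rw [show Real.pi / 2 = Real.pi * (1 / 2) by ring]
      exact mul_le_mul_of_nonneg_left h hpi.le)
    have h2 : 2 / Real.pi * (Real.pi * ((u.val : ℝ) / n)) = 2 * (u.val / n) := by
      field_simp
    rw [h2] at h1
    have h3 := h1.trans (le_abs_self _)
    rw [Real.norm_eq_abs]
    linarith
  · have h0 : ((n : ℝ) - u.val) / n = 1 - u.val / n := by
      field_simp
    have hlt : (u.val : ℝ) / n ≤ 1 := by
      rw [div_le_one hn]
      exact hu.le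
    have h1 := Real.mul_le_sin (x := Real.pi * (1 - u.val / n)) (by
      apply mul_nonneg hpi.le
      linarith) (by
      rw [show Real.pi / 2 = Real.pi * (1 / 2) by ring]
      exact mul_le_mul_of_nonneg_left (by linarith) hpi.le)
    have h2 : 2 / Real.pi * (Real.pi * (1 - (u.val : ℝ) / n)) = 2 * (1 - u.val / n) := by
      field_simp
    have h4 : Real.sin (Real.pi * (1 - u.val / n)) = Real.sin (Real.pi * (u.val / n)) := by
      rw [show Real.pi * (1 - (u.val : ℝ) / n) = Real.pi - Real.pi * (u.val / n) by ring,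
        Real.sin_pi_sub]
    rw [h2, h4] at h1
    have h3 := h1.trans (le_abs_self _)
    rw [Real.norm_eq_abs, h0]
    linarith

theorem Wk_bound {k : ℕ} (hk : 1 ≤ k) {ρ : ℝ} (hρ : 0 < ρ) (hkρ : k * ρ < 1) : ∃ C : ℝ, 0 < C ∧
    ∀ (n : ℕ) [NeZero n], (1 / (n : ℝ)) * ∑ u : ZMod n,
      ‖∑ x ∈ Finset.range n, (((1 : ℝ) + x) ^ (ρ - 1) : ℝ) *
        (ZMod.stdAddChar ((x : ZMod n) * u) : ℂ)‖ ^ k ≤ C := by
  have hk1 : (1 : ℝ) ≤ k := by exact_mod_cast hk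
  have hρ1 : ρ < 1 := by nlinarith
  set A : ℝ := 2 / ρ + 1 / 2 with hA
  have hA0 : 0 < A := by positivity
  set κ : ℝ := k * ρ with hκ
  have hκ0 : 0 < κ := by positivity
  refine ⟨(1 / ρ) ^ k + 2 * A ^ k / (1 - κ), by
    have : 0 < 1 - κ := by linarith
    positivity, ?_⟩
  intro n hn
  have hnpos : 0 < n := NeZero.pos n
  have hn0 : (0 : ℝ) < n := by exact_mod_cast hnpos
  have hn1 : (1 : ℝ) ≤ n := by exact_mod_cast hnpos
  set h : ℕ → ℝ := fun i => if i = 0 then ((n : ℝ) ^ ρ / ρ) ^ k else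
    A ^ k * (((i : ℝ) / n) ^ (-κ) + (((n : ℝ) - i) / n) ^ (-κ)) with hh
  have hchar : ∀ (u : ZMod n) (x : ℕ), (ZMod.stdAddChar ((x : ZMod n) * u) : ℂ) =
      (ZMod.stdAddChar u : ℂ) ^ x := by
    intro u x
    rw [← nsmul_eq_mul, AddChar.map_nsmul_eq_pow]
  have hnorm : ∀ u : ZMod n, ‖(ZMod.stdAddChar u : ℂ)‖ = 1 := by
    intro u
    rw [ZMod.stdAddChar_apply]
    exact Circle.norm_coe _
  have hpt : ∀ u : ZMod n, ‖∑ x ∈ Finset.range n, (((1 : ℝ) + x) ^ (ρ - 1) : ℝ) *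
        (ZMod.stdAddChar ((x : ZMod n) * u) : ℂ)‖ ^ k ≤ h u.val := by
    intro u
    simp only [hchar]
    by_cases hu : u.val = 0
    · simp only [hh, hu, if_true]
      refine pow_le_pow_left₀ (norm_nonneg _) ?_ _
      refine (norm_sum_le _ _).trans ?_
      refine le_trans (le_of_eq ?_) (wk_sum_rpow hρ hρ1.le n)
      refine Finset.sum_congr rfl fun i _ => ?_
      rw [norm_mul, Complex.norm_real, Real.norm_of_nonneg (Real.rpow_nonneg (by positivity) _),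
        norm_pow, hnorm, one_pow, mul_one]
    · have hult : u.val < n := ZMod.val_lt u
      have hu1 : (1 : ℝ) ≤ u.val := by exact_mod_cast Nat.one_le_iff_ne_zero.2 hu
      have hu2 : (u.val : ℝ) + 1 ≤ n := by exact_mod_cast hult
      have hx : 0 < (u.val : ℝ) / n := by positivity
      have hy : 0 < ((n : ℝ) - u.val) / n := div_pos (by linarith) hn0
      obtain ⟨t, ht⟩ : ∃ t : ℝ, (t = (u.val : ℝ) / n ∧ (u.val : ℝ) / n ≤ 1 / 2 ∨
          t = ((n : ℝ) - u.val) / n ∧ 1 / 2 ≤ (u.val : ℝ) / n) := by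
        rcases le_total ((u.val : ℝ) / n) (1 / 2) with h1 | h1
        · exact ⟨_, Or.inl ⟨rfl, h1⟩⟩
        · exact ⟨_, Or.inr ⟨rfl, h1⟩⟩
      have hd := wk_dist n u t ht
      have ht0 : 0 < t := by
        rcases ht with ⟨rfl, _⟩ | ⟨rfl, _⟩
        · exact hx
        · exact hy
      have ht1 : t ≤ 1 := by
        rcases ht with ⟨rfl, h1⟩ | ⟨rfl, _⟩
        · linarith
        · rw [div_le_one hn0]
          linarith
      have htn : 1 / t ≤ n := by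
        rcases ht with ⟨rfl, h1⟩ | ⟨rfl, _⟩
        · rw [one_div_div, div_le_iff₀ (by linarith)]
          nlinarith
        · rw [one_div_div, div_le_iff₀ (by linarith)]
          nlinarith
      have htk : t ^ (-κ) ≤ ((u.val : ℝ) / n) ^ (-κ) + (((n : ℝ) - u.val) / n) ^ (-κ) := by
        rcases ht with ⟨rfl, h1⟩ | ⟨rfl, _⟩
        · linarith [Real.rpow_nonneg hy.le (-κ)]
        · linarith [Real.rpow_nonneg hx.le (-κ)]
      have hs := wk_single hρ hρ1 (ZMod.stdAddChar u : ℂ) (hnorm u) t ht0 ht1 hd n htn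
      simp only [hh, hu, if_false]
      refine (pow_le_pow_left₀ (norm_nonneg _) hs k).trans ?_
      rw [mul_pow]
      refine mul_le_mul_of_nonneg_left (le_trans (le_of_eq ?_) htk) (by positivity)
      rw [← Real.rpow_natCast, ← Real.rpow_mul ht0.le]
      congr 1
      rw [hκ]
      ring
  have hsum : ∑ i ∈ Finset.range n, h i ≤ n * ((1 / ρ) ^ k + 2 * A ^ k / (1 - κ)) := by
    obtain ⟨m, rfl⟩ : ∃ m, n = m + 1 := ⟨n - 1, by omega⟩
    rw [Finset.sum_range_succ']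
    have hk0 : h 0 ≤ ((m + 1 : ℕ) : ℝ) * (1 / ρ) ^ k := by
      simp only [hh, if_true]
      rw [div_pow, one_div, inv_pow, div_eq_mul_inv]
      refine mul_le_mul_of_nonneg_right ?_ (by positivity)
      rw [← Real.rpow_natCast, ← Real.rpow_mul hn0.le]
      calc ((m + 1 : ℕ) : ℝ) ^ (ρ * k) ≤ ((m + 1 : ℕ) : ℝ) ^ (1 : ℝ) :=
            Real.rpow_le_rpow_of_exponent_le hn1 (by rw [mul_comm]; exact hkρ.le)
        _ = _ := Real.rpow_one _
    have hs1 : ∑ i ∈ Finset.range m, (((i + 1 : ℕ) : ℝ) / ((m + 1 : ℕ) : ℝ)) ^ (-κ) ≤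
        ((m + 1 : ℕ) : ℝ) / (1 - κ) := by
      have e : ∑ i ∈ Finset.range m, (((i + 1 : ℕ) : ℝ) / ((m + 1 : ℕ) : ℝ)) ^ (-κ) =
          ((m + 1 : ℕ) : ℝ) ^ κ * ∑ i ∈ Finset.range m, ((1 : ℝ) + i) ^ ((1 - κ) - 1) := by
        rw [Finset.mul_sum]
        refine Finset.sum_congr rfl fun i _ => ?_
        rw [Real.div_rpow (by positivity) (by positivity), Real.rpow_neg hn0.le κ, div_inv_eq_mul,
          mul_comm]
        congr 2
        · push_cast
          ring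
        · ring
      rw [e]
      have h1 := wk_sum_rpow (ρ := 1 - κ) (by linarith) (by linarith) m
      have h2 : (m : ℝ) ^ (1 - κ) ≤ ((m + 1 : ℕ) : ℝ) ^ (1 - κ) :=
        Real.rpow_le_rpow (by positivity) (by push_cast; linarith) (by linarith)
      have h3 : ((m + 1 : ℕ) : ℝ) ^ κ * ((m + 1 : ℕ) : ℝ) ^ (1 - κ) = ((m + 1 : ℕ) : ℝ) := by
        rw [← Real.rpow_add hn0]
        rw [show κ + (1 - κ) = 1 by ring, Real.rpow_one]
      calc ((m + 1 : ℕ) : ℝ) ^ κ * ∑ i ∈ Finset.range m, ((1 : ℝ) + i) ^ ((1 - κ) - 1) ≤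
          ((m + 1 : ℕ) : ℝ) ^ κ * (((m + 1 : ℕ) : ℝ) ^ (1 - κ) / (1 - κ)) :=
            mul_le_mul_of_nonneg_left (h1.trans (div_le_div_of_nonneg_right h2 (by linarith)))
              (Real.rpow_nonneg hn0.le _)
        _ = ((m + 1 : ℕ) : ℝ) / (1 - κ) := by
          rw [← mul_div_assoc, h3]
    have hs2 : ∑ i ∈ Finset.range m,
        ((((m + 1 : ℕ) : ℝ) - ((i + 1 : ℕ) : ℝ)) / ((m + 1 : ℕ) : ℝ)) ^ (-κ) ≤
        ((m + 1 : ℕ) : ℝ) / (1 - κ) := by
      refine le_trans (le_of_eq ?_) hs1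
      rw [← Finset.sum_range_reflect]
      refine Finset.sum_congr rfl fun i hi => ?_
      have hi' := Finset.mem_range.1 hi
      congr 2
      have : ((m - 1 - i : ℕ) : ℝ) = (m : ℝ) - 1 - i := by
        rw [Nat.cast_sub (by omega), Nat.cast_sub (by omega)]
        simp
      push_cast
      rw [this]
      ring
    have hrest : ∑ i ∈ Finset.range m, h (i + 1) ≤
        ((m + 1 : ℕ) : ℝ) * (2 * A ^ k / (1 - κ)) := by
      have e : ∑ i ∈ Finset.range m, h (i + 1) = A ^ k *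
          (∑ i ∈ Finset.range m, (((i + 1 : ℕ) : ℝ) / ((m + 1 : ℕ) : ℝ)) ^ (-κ) +
          ∑ i ∈ Finset.range m,
          ((((m + 1 : ℕ) : ℝ) - ((i + 1 : ℕ) : ℝ)) / ((m + 1 : ℕ) : ℝ)) ^ (-κ)) := by
        rw [← Finset.sum_add_distrib, Finset.mul_sum]
        refine Finset.sum_congr rfl fun i _ => ?_
        simp only [hh, Nat.succ_ne_zero, if_false]
      rw [e]
      calc _ ≤ A ^ k * (((m + 1 : ℕ) : ℝ) / (1 - κ) + ((m + 1 : ℕ) : ℝ) / (1 - κ)) :=
            mul_le_mul_of_nonneg_left (add_le_add hs1 hs2) (by positivity)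
        _ = _ := by ring
    rw [mul_add]
    linarith
  calc (1 / (n : ℝ)) * ∑ u : ZMod n, _ ≤ (1 / (n : ℝ)) * ∑ u : ZMod n, h u.val :=
        mul_le_mul_of_nonneg_left (Finset.sum_le_sum fun u _ => hpt u) (by positivity)
    _ = (1 / (n : ℝ)) * ∑ i ∈ Finset.range n, h i := by rw [wk_sum_zmod n h]
    _ ≤ (1 / (n : ℝ)) * (n * ((1 / ρ) ^ k + 2 * A ^ k / (1 - κ))) :=
        mul_le_mul_of_nonneg_left hsum (by positivity)
    _ = _ := by
      rw [← mul_assoc, one_div, inv_mul_cancel₀ hn0.ne', one_mul]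

end Pool.Agent.Helper256.KM
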