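import Mathlib
import Pool.Agent.Helper256.KM.Defs
import Pool.Agent.Helper256.KM.WK

set_option autoImplicit false

namespace Pool.Agent.Helper256.KM

open Finset ArithmeticFunction

theorem four_aux0 {A R : Type*} [AddCommMonoid A] [CommMonoid R] {ι : Type*} (ψ : AddChar A R)
    (f : ι → A) (s : Finset ι) : ψ (∑ i ∈ s, f i) = ∏ i ∈ s, ψ (f i) := by
  classical
  induction s using Finset.induction_on with
  | empty => simp
  | insert a s ha ih => rw [Finset.sum_insert ha, Finset.prod_insert ha, AddChar.map_add_eq_mul, ih]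

theorem four_aux1 {k n : ℕ} [NeZero n] (Y : Fin k → ZMod n) :
    ∑ t : Fin k → ZMod n, ∏ j, (ZMod.stdAddChar (t j * Y j) : ℂ) =
      if ∀ j, Y j = 0 then (n:ℂ)^k else 0 := by
  rw [← Fintype.piFinset_univ, ← Finset.prod_univ_sum (fun _ => Finset.univ)
    (fun j s => (ZMod.stdAddChar (s * Y j) : ℂ))]
  simp_rw [AddChar.sum_mulShift _ (ZMod.isPrimitive_stdAddChar n)]
  split_ifs with h
  · simp [h]
  · push Not at h
    obtain ⟨j, hj⟩ := h
    exact Finset.prod_eq_zero (Finset.mem_univ j) (by simp [hj])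

theorem four_aux2 {k n : ℕ} [NeZero n] (σ : Fin k → Fin k) (t : Fin k → ZMod n)
    (x : Fin k → Fin k → ℕ) :
    ∑ j, t j * ((∑ i, (x i j : ZMod n)) -
      ∑ i ∈ Finset.univ.filter (fun i => σ i = j), ∑ j', (x i j' : ZMod n))
      = ∑ i, ∑ j, (x i j : ZMod n) * (t j - t (σ i)) := by
  simp_rw [mul_sub, Finset.sum_sub_distrib]
  congr 1
  · simp_rw [Finset.mul_sum]
    rw [Finset.sum_comm]
    refine Finset.sum_congr rfl fun i _ => Finset.sum_congr rfl fun j _ => by ring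
  · simp_rw [Finset.sum_filter, Finset.mul_sum]
    rw [Finset.sum_comm]
    refine Finset.sum_congr rfl fun i _ => ?_
    rw [Finset.sum_eq_single (σ i)]
    · simp only [if_true]
      rw [Finset.mul_sum]
      refine Finset.sum_congr rfl fun j _ => by ring
    · intro b _ hb
      rw [if_neg (Ne.symm hb)]
      simp
    · intro h; exact absurd (Finset.mem_univ _) h

theorem four_aux3 {k n : ℕ} [NeZero n] (g : ZMod n → ℝ) (j0 : Fin k) :
    ∑ t : Fin k → ZMod n, ∏ j, (if j = j0 then 1 else g (t j - t j0)) =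
      n * (∑ u : ZMod n, g u) ^ (k - 1) := by
  classical
  have h1 : ∀ t : Fin k → ZMod n, ∏ j, (if j = j0 then 1 else g (t j - t j0)) =
      ∑ c : ZMod n, ∏ j, (if j = j0 then (if t j = c then 1 else 0) else g (t j - c)) := by
    intro t
    rw [Finset.sum_eq_single (t j0)]
    · refine Finset.prod_congr rfl fun j _ => ?_
      by_cases hj : j = j0
      · subst hj; simp
      · simp [hj]
    · intro c _ hc
      refine Finset.prod_eq_zero (Finset.mem_univ j0) ?_
      simp [Ne.symm hc]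
    · intro h; exact absurd (Finset.mem_univ _) h
  simp_rw [h1]
  rw [Finset.sum_comm]
  have h2 : ∀ c : ZMod n, ∑ t : Fin k → ZMod n,
      ∏ j, (if j = j0 then (if t j = c then 1 else 0) else g (t j - c)) =
      (∑ u : ZMod n, g u) ^ (k - 1) := by
    intro c
    rw [← Fintype.piFinset_univ, ← Finset.prod_univ_sum (fun _ => Finset.univ)
      (fun j s => (if j = j0 then (if s = c then 1 else 0) else g (s - c)))]
    have h3 : ∀ j : Fin k, ∑ s : ZMod n, (if j = j0 then (if s = c then (1:ℝ) else 0) else g (s - c)) =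
        if j = j0 then 1 else ∑ u : ZMod n, g u := by
      intro j
      by_cases hj : j = j0
      · simp [hj]
      · simp only [hj, if_false]
        exact Fintype.sum_equiv (Equiv.subRight c) _ _ (fun s => by simp)
    simp_rw [h3]
    rw [Finset.prod_ite]
    simp [Finset.filter_ne', Finset.card_erase_of_mem]
  simp_rw [h2]
  simp [ZMod.card]

theorem four {k : ℕ} (hk : 1 ≤ k) {ρ : ℝ} (hρ : 0 < ρ) (hkρ : k * ρ < 1) : ∃ C : ℝ, 0 < C ∧
    ∀ (R : ℕ) (σ : Fin k → Fin k) (E : Fin k → ℤ),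
    ∑ x ∈ (Fintype.piFinset fun i => Fintype.piFinset fun j =>
        if j = σ i then {0} else Finset.range R).filter
        (fun x : Fin k → Fin k → ℕ => ∀ j, (∑ i, (x i j : ℤ)) -
          ∑ i ∈ Finset.univ.filter (fun i => σ i = j), ∑ j', (x i j' : ℤ) = E j),
      ∏ i, ∏ j, ((1 : ℝ) + x i j) ^ (ρ - 1) ≤ C := by
  classical
  obtain ⟨C, hC, hW⟩ := Wk_bound hk hρ hkρ
  refine ⟨k * C ^ (k-1), by positivity, ?_⟩
  intro R σ E
  obtain ⟨n, hn⟩ : ∃ n, n = R + 1 := ⟨_, rfl⟩
  haveI : NeZero n := ⟨by omega⟩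
  have hn0 : (0:ℝ) < n := by exact_mod_cast Nat.pos_of_ne_zero (NeZero.ne n)
  have hWn := hW n
  set W : ZMod n → ℝ := fun u => ‖∑ x ∈ Finset.range n, (((1 : ℝ) + x) ^ (ρ - 1) : ℝ) *
        (ZMod.stdAddChar ((x : ZMod n) * u) : ℂ)‖ with hWdef
  have hWn' : (1 / (n : ℝ)) * ∑ u : ZMod n, (W u) ^ k ≤ C := hWn
  have hW0 : ∀ u, 0 ≤ W u := fun u => norm_nonneg _
  -- the big box
  set S : Fin k → Fin k → Finset ℕ := fun i j => if j = σ i then {0} else Finset.range n with hS
  set B : Finset (Fin k → Fin k → ℕ) :=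
    Fintype.piFinset fun i => Fintype.piFinset fun j => S i j with hB
  set v : ℕ → ℝ := fun m => ((1:ℝ) + m) ^ (ρ - 1) with hv
  have hv0 : ∀ m, 0 ≤ v m := fun m => by
    simp only [hv]; positivity
  set P : (Fin k → Fin k → ℕ) → ℝ := fun x => ∏ i, ∏ j, v (x i j) with hP
  have hP0 : ∀ x, 0 ≤ P x := fun x => Finset.prod_nonneg fun i _ => Finset.prod_nonneg fun j _ => hv0 _
  set Y : (Fin k → Fin k → ℕ) → Fin k → ZMod n := fun x j => (∑ i, (x i j : ZMod n)) -
      ∑ i ∈ Finset.univ.filter (fun i => σ i = j), ∑ j', (x i j' : ZMod n) with hY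
  -- step 1
  have step1 : ∑ x ∈ (Fintype.piFinset fun i => Fintype.piFinset fun j =>
        if j = σ i then {0} else Finset.range R).filter
        (fun x : Fin k → Fin k → ℕ => ∀ j, (∑ i, (x i j : ℤ)) -
          ∑ i ∈ Finset.univ.filter (fun i => σ i = j), ∑ j', (x i j' : ℤ) = E j),
      ∏ i, ∏ j, ((1 : ℝ) + x i j) ^ (ρ - 1) ≤
      ∑ x ∈ B.filter (fun x => ∀ j, Y x j - (E j : ZMod n) = 0), P x := by
    apply Finset.sum_le_sum_of_subset_of_nonneg
    · intro x hx
      rw [Finset.mem_filter] at hx ⊢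
      refine ⟨?_, ?_⟩
      · rw [hB, Fintype.mem_piFinset]
        intro i
        rw [Fintype.mem_piFinset]
        intro j
        have h1 := Fintype.mem_piFinset.1 (Fintype.mem_piFinset.1 hx.1 i) j
        simp only [hS]
        by_cases hj : j = σ i
        · simpa [hj] using h1
        · simp only [hj, if_false, Finset.mem_range] at h1 ⊢
          omega
      · intro j
        have h2 := hx.2 j
        have h3 : (((∑ i, (x i j : ℤ)) -
          ∑ i ∈ Finset.univ.filter (fun i => σ i = j), ∑ j', (x i j' : ℤ) : ℤ) : ZMod n) = (E j : ZMod n) := by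
          rw [h2]
        rw [← h3]
        simp [hY]
    · intro x _ _
      exact hP0 x
  refine step1.trans ?_
  -- step 2: fourier
  have step2 : ((∑ x ∈ B.filter (fun x => ∀ j, Y x j - (E j : ZMod n) = 0), P x : ℝ) : ℂ) * (n:ℂ)^k =
      ∑ t : Fin k → ZMod n, ∑ x ∈ B, (P x : ℂ) * ∏ j, (ZMod.stdAddChar (t j * (Y x j - (E j : ZMod n))) : ℂ) := by
    rw [Finset.sum_comm]
    simp_rw [← Finset.mul_sum, four_aux1]
    rw [Finset.sum_filter]
    push_cast
    rw [Finset.sum_mul]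
    refine Finset.sum_congr rfl fun x _ => ?_
    split_ifs <;> simp
  have step3 : ∀ t : Fin k → ZMod n,
      ∑ x ∈ B, (P x : ℂ) * ∏ j, (ZMod.stdAddChar (t j * (Y x j - (E j : ZMod n))) : ℂ) =
      (ZMod.stdAddChar (-∑ j, t j * (E j : ZMod n)) : ℂ) *
        ∏ i, ∏ j, ∑ m ∈ S i j, (v m : ℂ) * (ZMod.stdAddChar ((m : ZMod n) * (t j - t (σ i))) : ℂ) := by
    intro t
    have h1 : ∀ i, ∏ j, ∑ m ∈ S i j, (v m : ℂ) * (ZMod.stdAddChar ((m : ZMod n) * (t j - t (σ i))) : ℂ) =
        ∑ y ∈ Fintype.piFinset (S i), ∏ j, ((v (y j) : ℂ) * (ZMod.stdAddChar ((y j : ZMod n) * (t j - t (σ i))) : ℂ)) := by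
      intro i
      rw [Finset.prod_univ_sum]
    simp_rw [h1]
    rw [Finset.prod_univ_sum, Finset.mul_sum]
    refine Finset.sum_congr rfl fun x _ => ?_
    simp_rw [Finset.prod_mul_distrib]
    have h2 : ∏ j, (ZMod.stdAddChar (t j * (Y x j - (E j : ZMod n))) : ℂ) =
        (ZMod.stdAddChar (∑ j, t j * (Y x j - (E j : ZMod n))) : ℂ) := by
      rw [four_aux0]
    have h3 : ∏ i, ∏ j, (ZMod.stdAddChar ((x i j : ZMod n) * (t j - t (σ i))) : ℂ) =
        (ZMod.stdAddChar (∑ i, ∑ j, (x i j : ZMod n) * (t j - t (σ i))) : ℂ) := by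
      rw [four_aux0]
      refine Finset.prod_congr rfl fun i _ => ?_
      rw [four_aux0]
    rw [h2, h3, ← four_aux2 σ t x]
    have h4 : ∑ j, t j * (Y x j - (E j : ZMod n)) = -∑ j, t j * (E j : ZMod n) + ∑ j, t j * Y x j := by
      simp_rw [mul_sub, Finset.sum_sub_distrib]
      ring
    rw [h4, AddChar.map_add_eq_mul]
    have h5 : (P x : ℂ) = ∏ i, ∏ j, (v (x i j) : ℂ) := by
      simp only [hP]; push_cast; rfl
    rw [h5]
    ring
  -- norms
  have step4 : ∀ t : Fin k → ZMod n,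
      ‖∑ x ∈ B, (P x : ℂ) * ∏ j, (ZMod.stdAddChar (t j * (Y x j - (E j : ZMod n))) : ℂ)‖ =
      ∏ i, ∏ j, (if j = σ i then 1 else W (t j - t (σ i))) := by
    intro t
    rw [step3 t, norm_mul, AddChar.norm_apply, one_mul, norm_prod]
    refine Finset.prod_congr rfl fun i _ => ?_
    rw [norm_prod]
    refine Finset.prod_congr rfl fun j _ => ?_
    by_cases hj : j = σ i
    · simp [hS, hj, hv]
    · simp only [hS, hj, if_false, hWdef]
      rfl
  have step5 : ∀ t : Fin k → ZMod n,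
      ∏ i, ∏ j, (if j = σ i then 1 else W (t j - t (σ i))) ≤
      ∑ i, ∏ j, (if j = σ i then 1 else (W (t j - t (σ i))) ^ k) := by
    intro t
    haveI : Nonempty (Fin k) := ⟨⟨0, hk⟩⟩
    set a : Fin k → ℝ := fun i => ∏ j, (if j = σ i then 1 else W (t j - t (σ i))) with ha
    have ha0 : ∀ i, 0 ≤ a i := fun i => Finset.prod_nonneg fun j _ => by
      split_ifs
      · exact zero_le_one
      · exact hW0 _
    obtain ⟨i0, -, hi0⟩ := Finset.exists_max_image (Finset.univ : Finset (Fin k)) a Finset.univ_nonempty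
    have h1 : ∏ i, a i ≤ a i0 ^ k := by
      calc ∏ i, a i ≤ ∏ i : Fin k, a i0 := Finset.prod_le_prod (fun i _ => ha0 i) (fun i hi => hi0 i hi)
        _ = a i0 ^ k := by simp
    have h2 : ∀ i, a i ^ k = ∏ j, (if j = σ i then 1 else (W (t j - t (σ i))) ^ k) := by
      intro i
      simp only [ha]
      rw [← Finset.prod_pow]
      refine Finset.prod_congr rfl fun j _ => ?_
      split_ifs <;> simp
    calc ∏ i, a i ≤ a i0 ^ k := h1
      _ ≤ ∑ i, a i ^ k := Finset.single_le_sum (f := fun i => a i ^ k) (fun i _ => pow_nonneg (ha0 i) k) (Finset.mem_univ i0)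
      _ = _ := Finset.sum_congr rfl fun i _ => h2 i
  have step6 : ∑ t : Fin k → ZMod n, ∑ i, ∏ j, (if j = σ i then 1 else (W (t j - t (σ i))) ^ k) ≤
      k * C ^ (k-1) * n ^ k := by
    rw [Finset.sum_comm]
    have h1 : ∀ i : Fin k, ∑ t : Fin k → ZMod n, ∏ j, (if j = σ i then 1 else (W (t j - t (σ i))) ^ k) ≤
        C ^ (k-1) * n ^ k := by
      intro i
      have h2 := four_aux3 (fun u => (W u) ^ k) (σ i)

      rw [h2]
      have h3 : ∑ u : ZMod n, (W u) ^ k ≤ C * n := by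
        have := mul_le_mul_of_nonneg_right hWn' hn0.le
        have h4 : 1 / (n:ℝ) * (∑ u : ZMod n, (W u) ^ k) * n = ∑ u : ZMod n, (W u) ^ k := by
          field_simp
        linarith
      have h5 : 0 ≤ ∑ u : ZMod n, (W u) ^ k := Finset.sum_nonneg fun u _ => pow_nonneg (hW0 u) k
      calc (n:ℝ) * (∑ u : ZMod n, (W u) ^ k) ^ (k-1) ≤ n * (C * n) ^ (k-1) := by gcongr
        _ = C ^ (k-1) * n ^ (k - 1 + 1) := by rw [mul_pow]; ring
        _ = C ^ (k-1) * n ^ k := by rw [Nat.sub_add_cancel hk]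
    calc _ ≤ ∑ i : Fin k, C ^ (k-1) * (n:ℝ) ^ k := Finset.sum_le_sum fun i _ => h1 i
      _ = _ := by simp; ring
  have hnk : (0:ℝ) < (n:ℝ)^k := by positivity
  have hsum0 : 0 ≤ ∑ x ∈ B.filter (fun x => ∀ j, Y x j - (E j : ZMod n) = 0), P x :=
    Finset.sum_nonneg fun x _ => hP0 x
  have final : (∑ x ∈ B.filter (fun x => ∀ j, Y x j - (E j : ZMod n) = 0), P x) * (n:ℝ)^k ≤
      k * C ^ (k-1) * n ^ k := by
    have h1 : ‖((∑ x ∈ B.filter (fun x => ∀ j, Y x j - (E j : ZMod n) = 0), P x : ℝ) : ℂ) * (n:ℂ)^k‖ =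
        (∑ x ∈ B.filter (fun x => ∀ j, Y x j - (E j : ZMod n) = 0), P x) * (n:ℝ)^k := by
      rw [norm_mul, norm_pow, Complex.norm_natCast, Complex.norm_real, Real.norm_of_nonneg hsum0]
    rw [← h1, step2]
    calc _ ≤ ∑ t : Fin k → ZMod n, ‖∑ x ∈ B, (P x : ℂ) * ∏ j, (ZMod.stdAddChar (t j * (Y x j - (E j : ZMod n))) : ℂ)‖ := norm_sum_le _ _
      _ ≤ ∑ t : Fin k → ZMod n, ∑ i, ∏ j, (if j = σ i then 1 else (W (t j - t (σ i))) ^ k) := by
          refine Finset.sum_le_sum fun t _ => ?_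
          rw [step4 t]
          exact step5 t
      _ ≤ _ := step6
  exact le_of_mul_le_mul_right final hnk

end Pool.Agent.Helper256.KM
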