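import Mathlib
import Pool.Agent.Helper256.KM.Defs
import Pool.Agent.Helper256.KM.Mertens

set_option autoImplicit false

namespace Pool.Agent.Helper256.KM

open Finset ArithmeticFunction

/-- ρ^Ω(g)/g as a function. -/
private noncomputable def fm (ρ : ℝ) (g : ℕ) : ℝ := ρ ^ (cardFactors g) / (g : ℝ)

private theorem fm_nonneg {ρ : ℝ} (hρ : 0 < ρ) (g : ℕ) : 0 ≤ fm ρ g := by
  unfold fm; positivity

private theorem fm_mul {ρ : ℝ} (a b : ℕ) : fm ρ (a * b) = fm ρ a * fm ρ b := by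
  unfold fm
  rcases eq_or_ne a 0 with rfl | ha
  · simp
  rcases eq_or_ne b 0 with rfl | hb
  · simp
  rw [cardFactors_mul ha hb, pow_add]
  push_cast
  rw [mul_div_mul_comm]

/-- the monoid hom -/
private noncomputable def fh_WB (ρ : ℝ) : ℕ →* ℝ where
  toFun := fm ρ
  map_one' := by simp [fm]
  map_mul' := fm_mul

private theorem fm_prime {ρ : ℝ} {p : ℕ} (hp : p.Prime) : fm ρ p = ρ / p := by
  simp [fm, cardFactors_apply_prime hp]

private theorem euler_bound {ρ : ℝ} (hρ : 0 < ρ) (hρ1 : ρ < 1) (Z : ℕ) :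
    ∑ g ∈ Finset.Icc 1 Z, fm ρ g ≤ ∏ p ∈ (Z + 1).primesBelow, (1 - fm ρ p)⁻¹ := by
  have hlt : ∀ {p : ℕ}, p.Prime → ‖fh_WB ρ p‖ < 1 := by
    intro p hp
    have h1 : fh_WB ρ p = ρ / p := fm_prime hp
    rw [h1, Real.norm_of_nonneg (by positivity)]
    rw [div_lt_one (by exact_mod_cast hp.pos)]
    have : (2:ℝ) ≤ p := by exact_mod_cast hp.two_le
    linarith
  obtain ⟨h1, h2⟩ := EulerProduct.summable_and_hasSum_smoothNumbers_prod_primesBelow_geometric
    (f := fh_WB ρ) hlt (Z + 1)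
  have h3 : (∏ p ∈ (Z + 1).primesBelow, (1 - fm ρ p)⁻¹) =
      ∑' m : (Z + 1).smoothNumbers, fm ρ m := h2.tsum_eq.symm
  rw [h3]
  let s : Finset ((Z + 1).smoothNumbers) :=
    (Finset.Icc 1 Z).attach.map ⟨fun g => ⟨g.1, Nat.mem_smoothNumbers_of_lt
      (Finset.mem_Icc.1 g.2).1 (Nat.lt_succ_of_le (Finset.mem_Icc.1 g.2).2)⟩,
      fun a b h => by
        apply Subtype.ext
        exact congrArg (fun z : (Z + 1).smoothNumbers => (z : ℕ)) h⟩
  have h4 : ∑ g ∈ Finset.Icc 1 Z, fm ρ g = ∑ m ∈ s, fm ρ (m : ℕ) := by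
    simp only [s, Finset.sum_map, Function.Embedding.coeFn_mk]
    exact (Finset.sum_attach (Finset.Icc 1 Z) (fun g => fm ρ g)).symm
  rw [h4]
  exact h2.summable.sum_le_tsum s (fun m _ => fm_nonneg hρ _)

private theorem euler_bound2 {ρ : ℝ} (hρ : 0 < ρ) (hρ1 : ρ < 1) : ∃ C : ℝ, 0 < C ∧
    ∀ Z : ℕ, 3 ≤ Z → ∑ g ∈ Finset.Icc 1 Z, fm ρ g ≤ C * Real.log Z ^ ρ := by
  obtain ⟨C, hC⟩ := mertens_inv
  have hsum : Summable fun n : ℕ => (1:ℝ) / (n:ℝ) ^ 2 :=
    Real.summable_one_div_nat_pow.2 (by norm_num)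
  refine ⟨Real.exp (ρ * C + 2 * ∑' n : ℕ, (1:ℝ) / (n:ℝ) ^ 2), Real.exp_pos _, ?_⟩
  intro Z hZ
  refine (euler_bound hρ hρ1 Z).trans ?_
  have h1 : ∀ p ∈ (Z + 1).primesBelow, (1 - fm ρ p)⁻¹ ≤
      Real.exp (ρ * (1 / p) + 2 * (1 / (p:ℝ) ^ 2)) := by
    intro p hp
    have hp' : p.Prime := Nat.prime_of_mem_primesBelow hp
    rw [fm_prime hp']
    have hp2 : (2:ℝ) ≤ p := by exact_mod_cast hp'.two_le
    have hp0 : (0:ℝ) < p := by linarith
    have h2 : ρ / p ≤ 1 / 2 := by
      rw [div_le_div_iff₀ hp0 (by norm_num)]; nlinarith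
    have h3 : (1 - ρ / p)⁻¹ ≤ ρ * (1 / p) + 2 * (1 / (p:ℝ) ^ 2) + 1 := by
      have h4 : 0 < 1 - ρ / p := by linarith
      rw [inv_le_iff_one_le_mul₀ h4]
      set t : ℝ := 1 / p with ht
      have ht0 : 0 < t := by positivity
      have ht1 : t ≤ 1 / 2 := by
        rw [ht, div_le_div_iff₀ hp0 (by norm_num)]; linarith
      have e1 : ρ / p = ρ * t := by rw [ht]; ring
      have e2 : (1:ℝ) / p ^ 2 = t ^ 2 := by rw [ht]; field_simp
      rw [e1, e2]
      have h5 : ρ * t * t ≤ 1 / 2 * t := by nlinarith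
      nlinarith [mul_pos hρ ht0, sq_nonneg t, mul_pos ht0 ht0, mul_nonneg (mul_nonneg hρ.le ht0.le) (sq_nonneg t), mul_nonneg (sq_nonneg t) (by linarith : (0:ℝ) ≤ 1 - ρ), mul_nonneg (sq_nonneg t) (by linarith : (0:ℝ) ≤ 1/2 - t)]
    exact h3.trans (Real.add_one_le_exp _)
  have h2 : ∏ p ∈ (Z + 1).primesBelow, (1 - fm ρ p)⁻¹ ≤
      ∏ p ∈ (Z + 1).primesBelow, Real.exp (ρ * (1 / p) + 2 * (1 / (p:ℝ) ^ 2)) := by
    apply Finset.prod_le_prod _ h1
    intro p hp
    have hp' : p.Prime := Nat.prime_of_mem_primesBelow hp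
    rw [fm_prime hp']
    have hp2 : (2:ℝ) ≤ p := by exact_mod_cast hp'.two_le
    have hp0 : (0:ℝ) < p := by linarith
    have h2 : ρ / p ≤ 1 / 2 := by
      rw [div_le_div_iff₀ hp0 (by norm_num)]; nlinarith
    exact inv_nonneg.2 (by linarith)
  refine h2.trans ?_
  rw [← Real.exp_sum, Finset.sum_add_distrib, ← Finset.mul_sum, ← Finset.mul_sum]
  have hset : (Z + 1).primesBelow = (Finset.Icc 1 Z).filter Nat.Prime := by
    ext p
    simp only [Nat.primesBelow, Finset.mem_filter, Finset.mem_range, Finset.mem_Icc]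
    constructor
    · rintro ⟨h, hp⟩; exact ⟨⟨hp.one_lt.le, by omega⟩, hp⟩
    · rintro ⟨h, hp⟩; exact ⟨by omega, hp⟩
  have h3 : ∑ p ∈ (Z + 1).primesBelow, (1:ℝ) / p ≤ Real.log (Real.log Z) + C := by
    rw [hset]
    have := (abs_le.1 (hC Z hZ)).2
    linarith
  have h4 : ∑ p ∈ (Z + 1).primesBelow, (1:ℝ) / (p:ℝ) ^ 2 ≤ ∑' n : ℕ, (1:ℝ) / (n:ℝ) ^ 2 :=
    hsum.sum_le_tsum _ (fun n _ => by positivity)
  have hlog : 0 < Real.log Z := Real.log_pos (by
    have : (3:ℝ) ≤ Z := by exact_mod_cast hZ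
    linarith)
  calc Real.exp (ρ * ∑ p ∈ (Z + 1).primesBelow, (1:ℝ) / p +
        2 * ∑ p ∈ (Z + 1).primesBelow, (1:ℝ) / (p:ℝ) ^ 2)
      ≤ Real.exp (ρ * (Real.log (Real.log Z) + C) + 2 * ∑' n : ℕ, (1:ℝ) / (n:ℝ) ^ 2) := by
        apply Real.exp_le_exp.2
        have := mul_le_mul_of_nonneg_left h3 hρ.le
        linarith
    _ = _ := by
        rw [Real.rpow_def_of_pos hlog, ← Real.exp_add]
        congr 1; ring

private theorem block_bound_WB {ρ : ℝ} (hρ : 0 < ρ) (hρ1 : ρ < 1) (x G Z : ℕ) (hx : 1 ≤ x)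
    (hZ : Z = ⌊Real.exp ((x:ℝ) + 1)⌋₊) :
    (x : ℝ) * ∑ g ∈ (Finset.Icc 1 G).filter (fun g : ℕ => ⌊Real.log (g : ℝ)⌋₊ = x), fm ρ g ≤
      (Real.log 4 + 4) * Real.exp 1 * ∑ g ∈ Finset.Icc 1 Z, fm ρ g := by
  set I := (Finset.Icc 1 G).filter (fun g : ℕ => ⌊Real.log (g : ℝ)⌋₊ = x) with hI
  have hIg : ∀ g ∈ I, 1 ≤ g ∧ (x:ℝ) ≤ Real.log g ∧ Real.log g < x + 1 := by
    intro g hg
    rw [hI, Finset.mem_filter, Finset.mem_Icc] at hg
    have h1 : 1 ≤ g := hg.1.1
    have h2 : 0 ≤ Real.log g := Real.log_natCast_nonneg g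
    obtain ⟨h3, h4⟩ := (Nat.floor_eq_iff h2).1 hg.2
    exact ⟨h1, h3, h4⟩
  have hIexp : ∀ g ∈ I, Real.exp x ≤ g ∧ (g:ℝ) ≤ Real.exp (x + 1) := by
    intro g hg
    obtain ⟨h1, h2, h3⟩ := hIg g hg
    have hg0 : (0:ℝ) < g := by exact_mod_cast h1
    exact ⟨(Real.le_log_iff_exp_le hg0).1 h2, ((Real.log_lt_iff_lt_exp hg0).1 h3).le⟩
  let h : ℕ × ℕ → ℝ := fun p => fm ρ p.2 * p.2 * Real.exp (-x) * vonMangoldt p.1
  have hh0 : ∀ p, 0 ≤ h p := fun p => by
    have := fm_nonneg hρ p.2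
    have h2 : 0 ≤ vonMangoldt p.1 := vonMangoldt_nonneg
    simp only [h]; positivity
  calc (x : ℝ) * ∑ g ∈ I, fm ρ g = ∑ g ∈ I, x * fm ρ g := Finset.mul_sum _ _ _
    _ ≤ ∑ g ∈ I, ∑ p ∈ g.divisorsAntidiagonal, h p := by
        apply Finset.sum_le_sum
        intro g hg
        obtain ⟨h1, h2, h3⟩ := hIg g hg
        have hf := fm_nonneg hρ g
        calc (x:ℝ) * fm ρ g ≤ Real.log g * fm ρ g := mul_le_mul_of_nonneg_right h2 hf
          _ = ∑ q ∈ g.divisors, vonMangoldt q * fm ρ g := by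
              rw [← vonMangoldt_sum, Finset.sum_mul]
          _ = ∑ p ∈ g.divisorsAntidiagonal, vonMangoldt p.1 * fm ρ g := by
              rw [← Nat.map_div_right_divisors]
              simp
          _ ≤ ∑ p ∈ g.divisorsAntidiagonal, h p := by
              apply Finset.sum_le_sum
              rintro ⟨q, g'⟩ hp
              rw [Nat.mem_divisorsAntidiagonal] at hp
              simp only at hp
              obtain ⟨hqg, hg0⟩ := hp
              have hq0 : q ≠ 0 := by rintro rfl; simp at hqg; omega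
              have hg'0 : g' ≠ 0 := by rintro rfl; simp at hqg; omega
              simp only [h]
              rw [← hqg, fm_mul]
              have hL : 0 ≤ vonMangoldt q := vonMangoldt_nonneg
              have hfg := fm_nonneg hρ g'
              have h5 : fm ρ q ≤ 1 / q := by
                unfold fm
                apply div_le_div_of_nonneg_right _ (by positivity)
                exact pow_le_one₀ hρ.le hρ1.le
              have h6 : (1:ℝ) / q ≤ g' * Real.exp (-x) := by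
                have hq : (0:ℝ) < q := by exact_mod_cast Nat.pos_of_ne_zero hq0
                have h7 := (hIexp g hg).1
                rw [← hqg] at h7
                push_cast at h7
                rw [Real.exp_neg, div_le_iff₀ hq, mul_assoc, mul_comm _ (q:ℝ), ← mul_assoc,
                  ← div_eq_mul_inv, le_div_iff₀ (Real.exp_pos _)]
                linarith
              calc vonMangoldt q * (fm ρ q * fm ρ g') ≤
                  vonMangoldt q * ((g' * Real.exp (-x)) * fm ρ g') := by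
                    apply mul_le_mul_of_nonneg_left _ hL
                    exact mul_le_mul_of_nonneg_right (h5.trans h6) hfg
                _ = _ := by ring
    _ = ∑ p ∈ I.biUnion (fun g => g.divisorsAntidiagonal), h p := by
        rw [Finset.sum_biUnion]
        intro a _ b _ hab
        simp only [Function.onFun]
        rw [Finset.disjoint_left]
        intro p hp hp'
        rw [Nat.mem_divisorsAntidiagonal] at hp hp'
        exact hab (hp.1.symm.trans hp'.1)
    _ ≤ ∑ p ∈ (Finset.Icc 1 Z ×ˢ Finset.Icc 1 Z).filter (fun p : ℕ × ℕ => p.1 * p.2 ≤ Z), h p := by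
        apply Finset.sum_le_sum_of_subset_of_nonneg
        · intro p hp
          rw [Finset.mem_biUnion] at hp
          obtain ⟨g, hg, hp⟩ := hp
          rw [Nat.mem_divisorsAntidiagonal] at hp
          obtain ⟨hpg, hg0⟩ := hp
          have hgZ : g ≤ Z := by
            rw [hZ]; exact Nat.le_floor (hIexp g hg).2
          have hq0 : p.1 ≠ 0 := by intro h; rw [h] at hpg; simp at hpg; omega
          have hg'0 : p.2 ≠ 0 := by intro h; rw [h] at hpg; simp at hpg; omega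
          rw [Finset.mem_filter, Finset.mem_product, Finset.mem_Icc, Finset.mem_Icc]
          have h1 : p.1 ≤ p.1 * p.2 := Nat.le_mul_of_pos_right _ (Nat.pos_of_ne_zero hg'0)
          have h2 : p.2 ≤ p.1 * p.2 := Nat.le_mul_of_pos_left _ (Nat.pos_of_ne_zero hq0)
          refine ⟨⟨⟨Nat.pos_of_ne_zero hq0, by omega⟩, ⟨Nat.pos_of_ne_zero hg'0, by omega⟩⟩, by omega⟩
        · intro p _ _; exact hh0 p
    _ = ∑ g' ∈ Finset.Icc 1 Z, ∑ q ∈ (Finset.Icc 1 Z).filter (fun q => q * g' ≤ Z), h (q, g') := by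
        rw [Finset.sum_filter, Finset.sum_product_right]
        refine Finset.sum_congr rfl fun g' _ => ?_
        rw [Finset.sum_filter]
    _ ≤ ∑ g' ∈ Finset.Icc 1 Z, (Real.log 4 + 4) * Real.exp 1 * fm ρ g' := by
        apply Finset.sum_le_sum
        intro g' hg'
        rw [Finset.mem_Icc] at hg'
        have hg0 : (0:ℝ) < g' := by exact_mod_cast hg'.1
        have hf := fm_nonneg hρ g'
        simp only [h]
        rw [← Finset.mul_sum]
        have h1 : ∑ q ∈ (Finset.Icc 1 Z).filter (fun q => q * g' ≤ Z), vonMangoldt q ≤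
            (Real.log 4 + 4) * (Real.exp (x + 1) / g') := by
          refine le_trans ?_ (Chebyshev.psi_le_const_mul_self (x := Real.exp (x + 1) / g')
            (by positivity))
          unfold Chebyshev.psi
          apply Finset.sum_le_sum_of_subset_of_nonneg
          · intro q hq
            rw [Finset.mem_filter, Finset.mem_Icc] at hq
            rw [Finset.mem_Ioc]
            refine ⟨hq.1.1, Nat.le_floor ?_⟩
            rw [le_div_iff₀ hg0]
            have h2 : ((q * g' : ℕ) : ℝ) ≤ Z := by exact_mod_cast hq.2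
            push_cast at h2
            refine h2.trans ?_
            rw [hZ]
            exact Nat.floor_le (Real.exp_pos _).le
          · intro q _ _; exact vonMangoldt_nonneg
        calc fm ρ g' * g' * Real.exp (-x) * ∑ q ∈ (Finset.Icc 1 Z).filter (fun q => q * g' ≤ Z), vonMangoldt q
            ≤ fm ρ g' * g' * Real.exp (-x) * ((Real.log 4 + 4) * (Real.exp (x + 1) / g')) := by
              apply mul_le_mul_of_nonneg_left h1; positivity
          _ = (Real.log 4 + 4) * (Real.exp (-x) * Real.exp (x + 1)) * fm ρ g' := by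
              field_simp
          _ = _ := by
              rw [← Real.exp_add]
              congr 3
              ring
    _ = _ := by rw [← Finset.mul_sum]

theorem w_bound {ρ : ℝ} (hρ : 0 < ρ) (hρ1 : ρ < 1) : ∃ C : ℝ, 1 ≤ C ∧ ∀ x G : ℕ,
    ∑ g ∈ (Finset.Icc 1 G).filter (fun g : ℕ => ⌊Real.log (g : ℝ)⌋₊ = x),
      ρ ^ (cardFactors g) / (g : ℝ) ≤ C * ((1 : ℝ) + x) ^ (ρ - 1) := by
  obtain ⟨C, hC0, hC⟩ := euler_bound2 hρ hρ1
  have hl4 : 0 < Real.log 4 := Real.log_pos (by norm_num)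
  set K : ℝ := (Real.log 4 + 4) * Real.exp 1 * C * 2 with hK
  have hK0 : 0 < K := by positivity
  refine ⟨max 2 K, le_trans (by norm_num) (le_max_left _ _), ?_⟩
  intro x G
  rcases Nat.eq_zero_or_pos x with rfl | hx
  · -- x = 0
    have hsub : (Finset.Icc 1 G).filter (fun g : ℕ => ⌊Real.log (g : ℝ)⌋₊ = 0) ⊆
        Finset.Icc 1 2 := by
      intro g hg
      rw [Finset.mem_filter, Finset.mem_Icc] at hg
      rw [Finset.mem_Icc]
      refine ⟨hg.1.1, ?_⟩
      by_contra h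
      push Not at h
      have h1 := Nat.floor_eq_zero.1 hg.2
      have h3 : (3:ℝ) ≤ g := by exact_mod_cast h
      have h2 : Real.exp 1 ≤ g := by
        have := Real.exp_one_lt_d9
        linarith
      have h4 : 1 ≤ Real.log g := by
        rw [Real.le_log_iff_exp_le (by linarith)]; exact h2
      linarith
    have h1 : ∑ g ∈ (Finset.Icc 1 G).filter (fun g : ℕ => ⌊Real.log (g : ℝ)⌋₊ = 0),
        ρ ^ (cardFactors g) / (g : ℝ) ≤ ∑ g ∈ Finset.Icc 1 2, ρ ^ (cardFactors g) / (g : ℝ) :=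
      Finset.sum_le_sum_of_subset_of_nonneg hsub (fun g _ _ => by positivity)
    have h2 : ∑ g ∈ Finset.Icc 1 2, ρ ^ (cardFactors g) / (g : ℝ) ≤ ∑ g ∈ Finset.Icc 1 2, (1:ℝ) := by
      apply Finset.sum_le_sum
      intro g hg
      rw [Finset.mem_Icc] at hg
      have hg1 : (1:ℝ) ≤ g := by exact_mod_cast hg.1
      rw [div_le_one (by linarith)]
      exact (pow_le_one₀ hρ.le hρ1.le).trans hg1
    have h3 : ∑ g ∈ Finset.Icc 1 2, (1:ℝ) = 2 := by norm_num
    have h4 : ((1:ℝ) + ((0:ℕ):ℝ)) ^ (ρ - 1) = 1 := by simp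
    rw [h4, mul_one]
    exact (h1.trans (h2.trans h3.le)).trans (le_max_left _ _)
  · -- x ≥ 1
    have hx1 : (1:ℝ) ≤ x := by exact_mod_cast hx
    set Z := ⌊Real.exp ((x:ℝ) + 1)⌋₊ with hZ
    have h1 := block_bound_WB hρ hρ1 x G Z hx hZ
    have hZ3 : 3 ≤ Z := by
      apply Nat.le_floor
      have := Real.add_one_le_exp ((x:ℝ) + 1)
      push_cast
      linarith
    have h2 := hC Z hZ3
    have hlogZ : Real.log Z ≤ 1 + x := by
      have hZ0 : (0:ℝ) < Z := by exact_mod_cast (by omega : 0 < Z)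
      rw [Real.log_le_iff_le_exp hZ0, add_comm]
      exact Nat.floor_le (Real.exp_pos _).le
    have hlogZ0 : 0 ≤ Real.log Z := Real.log_natCast_nonneg Z
    have h3 : Real.log Z ^ ρ ≤ ((1:ℝ) + x) ^ ρ := Real.rpow_le_rpow hlogZ0 hlogZ hρ.le
    have hxp : (0:ℝ) < 1 + x := by linarith
    have h4 : ((1:ℝ) + x) ^ ρ = (1 + x) ^ (ρ - 1) * (1 + x) := by
      rw [← Real.rpow_add_one hxp.ne']; ring_nf
    have hp0 : 0 < ((1:ℝ) + x) ^ (ρ - 1) := Real.rpow_pos_of_pos hxp _
    have hx0 : (0:ℝ) < x := by linarith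
    have h5 : (x:ℝ) * ∑ g ∈ (Finset.Icc 1 G).filter (fun g : ℕ => ⌊Real.log (g : ℝ)⌋₊ = x), fm ρ g
        ≤ x * (K * (1 + x) ^ (ρ - 1)) := by
      refine h1.trans ?_
      have hc : 0 < (Real.log 4 + 4) * Real.exp 1 := by positivity
      calc (Real.log 4 + 4) * Real.exp 1 * ∑ g ∈ Finset.Icc 1 Z, fm ρ g
          ≤ (Real.log 4 + 4) * Real.exp 1 * (C * ((1 + x) ^ (ρ - 1) * (1 + x))) := by
            apply mul_le_mul_of_nonneg_left _ hc.le
            rw [← h4]
            exact h2.trans (mul_le_mul_of_nonneg_left h3 hC0.le)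
        _ ≤ (Real.log 4 + 4) * Real.exp 1 * (C * ((1 + x) ^ (ρ - 1) * (2 * x))) := by
            apply mul_le_mul_of_nonneg_left _ hc.le
            apply mul_le_mul_of_nonneg_left _ hC0.le
            apply mul_le_mul_of_nonneg_left _ hp0.le
            linarith
        _ = _ := by rw [hK]; ring
    have h6 := le_of_mul_le_mul_left h5 hx0
    refine h6.trans ?_
    exact mul_le_mul_of_nonneg_right (le_max_right _ _) hp0.le

end Pool.Agent.Helper256.KM
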