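import Mathlib
import Pool.Agent.Helper256.KM.Defs
import Pool.Agent.Helper256.KM.WB
import Pool.Agent.Helper256.KM.FO

set_option autoImplicit false

namespace Pool.Agent.Helper256.KM

open Finset ArithmeticFunction

/-- integer parts of the logarithms -/
noncomputable def sb_x {k : ℕ} (o : Fin k → Fin k → ℕ) : Fin k → Fin k → ℕ :=
  fun i j => ⌊Real.log (o i j : ℝ)⌋₊

/-- the integer defects -/
def sb_Y {k : ℕ} (σ : Fin k → Fin k) (x : Fin k → Fin k → ℕ) : Fin k → ℤ :=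
  fun j => (∑ i, (x i j : ℤ)) -
    ∑ i ∈ Finset.univ.filter (fun i => σ i = j), ∑ j', (x i j' : ℤ)

/-- the shift -/
noncomputable def sb_D {k : ℕ} (σ : Fin k → Fin k) (M : ℝ) (j : Fin k) : ℝ :=
  (((Finset.univ.filter (fun i => σ i = j)).card : ℝ) - 1) * Real.log M

theorem sb_mem {k : ℕ} {M : ℝ} {σ : Fin k → Fin k} {o : Fin k → Fin k → ℕ} (ho : o ∈ Off k M σ) :
    (∀ i, o i (σ i) = 1) ∧ (∀ i j, 1 ≤ o i j) ∧ (∀ i j, j ≠ σ i → o i j ≤ ⌊M⌋₊) ∧
      ∀ j, |XX σ M o j| ≤ k := by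
  unfold Off at ho
  rw [Finset.mem_filter, Fintype.mem_piFinset] at ho
  obtain ⟨h1, h2⟩ := ho
  have h3 : ∀ i j, o i j ∈ (if j = σ i then ({1} : Finset ℕ) else Finset.Icc 1 ⌊M⌋₊) := by
    intro i j
    have := h1 i
    rw [Fintype.mem_piFinset] at this
    exact this j
  refine ⟨fun i => ?_, fun i j => ?_, fun i j hij => ?_, h2⟩
  · have := h3 i (σ i)
    rw [if_pos rfl, Finset.mem_singleton] at this
    exact this
  · have := h3 i j
    split_ifs at this
    · rw [Finset.mem_singleton] at this; omega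
    · exact (Finset.mem_Icc.1 this).1
  · have := h3 i j
    rw [if_neg hij] at this
    exact (Finset.mem_Icc.1 this).2

theorem sb_near {k : ℕ} {M : ℝ} {σ : Fin k → Fin k} {o : Fin k → Fin k → ℕ}
    (ho : o ∈ Off k M σ) (j : Fin k) :
    |(sb_Y σ (sb_x o) j : ℝ) + sb_D σ M j| ≤ 2 * k + k ^ 2 := by
  obtain ⟨h1, h2, h3, h4⟩ := sb_mem ho
  have hfl : ∀ i j, 0 ≤ Real.log (o i j : ℝ) - (sb_x o i j : ℝ) ∧
      Real.log (o i j : ℝ) - (sb_x o i j : ℝ) ≤ 1 := by
    intro i j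
    have h0 : 0 ≤ Real.log (o i j : ℝ) := Real.log_nonneg (by exact_mod_cast h2 i j)
    have h5 := Nat.floor_le h0
    have h6 := Nat.lt_floor_add_one (Real.log (o i j : ℝ))
    unfold sb_x
    constructor <;> linarith
  have hne : ∀ i j, ((o i j : ℕ) : ℝ) ≠ 0 := fun i j => by
    have := h2 i j
    positivity
  have hXX : XX σ M o j = (∑ i, Real.log (o i j : ℝ)) -
      (∑ i ∈ Finset.univ.filter (fun i => σ i = j), ∑ j', Real.log (o i j' : ℝ)) + sb_D σ M j := by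
    unfold XX sb_D
    congr 2
    · push_cast
      rw [Real.log_prod]
      intro i _; exact hne i j
    · refine Finset.sum_congr rfl fun i _ => ?_
      push_cast
      rw [Real.log_prod]
      intro j' _; exact hne i j'
  have hY : (sb_Y σ (sb_x o) j : ℝ) = (∑ i, (sb_x o i j : ℝ)) -
      ∑ i ∈ Finset.univ.filter (fun i => σ i = j), ∑ j', (sb_x o i j' : ℝ) := by
    unfold sb_Y
    push_cast
    rfl
  have e1 : 0 ≤ ∑ i, (Real.log (o i j : ℝ) - (sb_x o i j : ℝ)) :=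
    Finset.sum_nonneg fun i _ => (hfl i j).1
  have e2 : ∑ i, (Real.log (o i j : ℝ) - (sb_x o i j : ℝ)) ≤ k := by
    calc ∑ i, (Real.log (o i j : ℝ) - (sb_x o i j : ℝ)) ≤ ∑ _i : Fin k, (1 : ℝ) :=
          Finset.sum_le_sum fun i _ => (hfl i j).2
      _ = k := by simp
  have e3 : 0 ≤ ∑ i ∈ Finset.univ.filter (fun i => σ i = j), ∑ j',
      (Real.log (o i j' : ℝ) - (sb_x o i j' : ℝ)) :=
    Finset.sum_nonneg fun i _ => Finset.sum_nonneg fun j' _ => (hfl i j').1
  have e4 : ∑ i ∈ Finset.univ.filter (fun i => σ i = j), ∑ j',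
      (Real.log (o i j' : ℝ) - (sb_x o i j' : ℝ)) ≤ (k : ℝ) ^ 2 := by
    calc ∑ i ∈ Finset.univ.filter (fun i => σ i = j), ∑ j',
          (Real.log (o i j' : ℝ) - (sb_x o i j' : ℝ))
        ≤ ∑ i : Fin k, ∑ j', (Real.log (o i j' : ℝ) - (sb_x o i j' : ℝ)) :=
          Finset.sum_le_sum_of_subset_of_nonneg (Finset.filter_subset _ _)
            fun i _ _ => Finset.sum_nonneg fun j' _ => (hfl i j').1
      _ ≤ ∑ _i : Fin k, ∑ _j' : Fin k, (1 : ℝ) :=
          Finset.sum_le_sum fun i _ => Finset.sum_le_sum fun j' _ => (hfl i j').2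
      _ = (k : ℝ) ^ 2 := by simp; ring
  simp only [Finset.sum_sub_distrib] at e1 e2 e3 e4
  have h5 := h4 j
  rw [hXX] at h5
  rw [hY]
  rw [abs_le] at h5 ⊢
  constructor <;> nlinarith [h5.1, h5.2]

theorem S_bound {k : ℕ} (hk : 1 ≤ k) {ρ : ℝ} (hρ : 0 < ρ) (hkρ : k * ρ < 1) : ∃ C : ℝ, 0 < C ∧
    ∀ (M : ℝ) (σ : Fin k → Fin k), 1 ≤ M →
    ∑ o ∈ Off k M σ, ∏ i, ∏ j, ρ ^ (cardFactors (o i j)) / (o i j : ℝ) ≤ C := by
  classical
  have hk1 : (1 : ℝ) ≤ k := by exact_mod_cast hk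
  have hρ1 : ρ < 1 := by nlinarith
  obtain ⟨Cw, hCw, hw⟩ := w_bound hρ hρ1
  obtain ⟨C4, hC4, h4⟩ := four hk hρ hkρ
  set K : ℕ := 2 * k + k ^ 2 with hK
  refine ⟨((2 * K + 2 : ℕ) : ℝ) ^ k * (Cw ^ (k * k) * C4), by positivity, ?_⟩
  intro M σ hM
  have hlogM : 0 ≤ Real.log M := Real.log_nonneg hM
  set R : ℕ := ⌊Real.log M⌋₊ + 1 with hR
  set f : (Fin k → Fin k → ℕ) → ℝ := fun o => ∏ i, ∏ j, ρ ^ (cardFactors (o i j)) / (o i j : ℝ)
    with hf
  have hf0 : ∀ o, 0 ≤ f o := fun o =>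
    Finset.prod_nonneg fun i _ => Finset.prod_nonneg fun j _ => by positivity
  set EE : Finset (Fin k → ℤ) := Fintype.piFinset fun j =>
    Finset.Icc (-(K : ℤ) - ⌊sb_D σ M j⌋ - 1) ((K : ℤ) - ⌊sb_D σ M j⌋) with hEE
  set SE : (Fin k → ℤ) → Finset (Fin k → Fin k → ℕ) := fun E =>
    (Fintype.piFinset fun i => Fintype.piFinset fun j =>
        if j = σ i then {0} else Finset.range R).filter
        (fun x : Fin k → Fin k → ℕ => ∀ j, (∑ i, (x i j : ℤ)) -
          ∑ i ∈ Finset.univ.filter (fun i => σ i = j), ∑ j', (x i j' : ℤ) = E j) with hSE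
  set A : (Fin k → Fin k → ℕ) → Fin k → Fin k → Finset ℕ := fun x i j =>
    if j = σ i then {1} else
      (Finset.Icc 1 ⌊M⌋₊).filter (fun g : ℕ => ⌊Real.log (g : ℝ)⌋₊ = x i j) with hA
  set P : (Fin k → Fin k → ℕ) → Finset (Fin k → Fin k → ℕ) := fun x =>
    Fintype.piFinset fun i => Fintype.piFinset fun j => A x i j with hP
  have hcardE : EE.card = (2 * K + 2) ^ k := by
    rw [hEE, Fintype.card_piFinset]
    have : ∀ j : Fin k, (Finset.Icc (-(K : ℤ) - ⌊sb_D σ M j⌋ - 1)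
        ((K : ℤ) - ⌊sb_D σ M j⌋)).card = 2 * K + 2 := by
      intro j
      rw [Int.card_Icc]
      omega
    simp_rw [this]
    simp
  -- the map to `EE`
  have hmapE : ∀ o ∈ Off k M σ, sb_Y σ (sb_x o) ∈ EE := by
    intro o ho
    rw [hEE, Fintype.mem_piFinset]
    intro j
    have h1 := sb_near ho j
    rw [abs_le] at h1
    have h2 := Int.floor_le (sb_D σ M j)
    have h3 := Int.lt_floor_add_one (sb_D σ M j)
    have hKr : ((K : ℕ) : ℝ) = 2 * k + k ^ 2 := by rw [hK]; push_cast; ring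
    rw [← hKr] at h1
    rw [Finset.mem_Icc]
    constructor
    · have h5 : (-(K : ℝ) - (⌊sb_D σ M j⌋ : ℝ) - 1) < (sb_Y σ (sb_x o) j : ℝ) := by
        linarith [h1.1]
      have h6 : ((-(K : ℤ) - ⌊sb_D σ M j⌋ - 1 : ℤ) : ℝ) < (sb_Y σ (sb_x o) j : ℝ) := by
        push_cast; exact h5
      exact le_of_lt (by exact_mod_cast h6)
    · have h5 : (sb_Y σ (sb_x o) j : ℝ) ≤ (K : ℝ) - (⌊sb_D σ M j⌋ : ℝ) := by
        linarith [h1.2]
      have h6 : (sb_Y σ (sb_x o) j : ℝ) ≤ (((K : ℤ) - ⌊sb_D σ M j⌋ : ℤ) : ℝ) := by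
        push_cast; exact h5
      exact_mod_cast h6
  have hmapS : ∀ E, ∀ o ∈ (Off k M σ).filter (fun o => sb_Y σ (sb_x o) = E), sb_x o ∈ SE E := by
    intro E o ho
    rw [Finset.mem_filter] at ho
    obtain ⟨ho, hE⟩ := ho
    obtain ⟨h1, h2, h3, -⟩ := sb_mem ho
    rw [hSE]
    simp only [Finset.mem_filter, Fintype.mem_piFinset]
    refine ⟨fun i j => ?_, fun j => congrFun hE j⟩
    split_ifs with hij
    · rw [Finset.mem_singleton, hij]
      unfold sb_x
      rw [h1 i]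
      simp
    · rw [Finset.mem_range, hR]
      unfold sb_x
      apply Nat.lt_succ_of_le
      apply Nat.floor_mono
      apply Real.log_le_log
      · exact_mod_cast h2 i j
      · have h5 : ((o i j : ℕ) : ℝ) ≤ ((⌊M⌋₊ : ℕ) : ℝ) := by exact_mod_cast h3 i j hij
        exact h5.trans (Nat.floor_le (by linarith))
  have hsubP : ∀ E, ∀ x, ((Off k M σ).filter (fun o => sb_Y σ (sb_x o) = E)).filter
      (fun o => sb_x o = x) ⊆ P x := by
    intro E x o ho
    rw [Finset.mem_filter, Finset.mem_filter] at ho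
    obtain ⟨⟨ho, -⟩, hx⟩ := ho
    obtain ⟨h1, h2, h3, -⟩ := sb_mem ho
    rw [hP]
    simp only [Fintype.mem_piFinset]
    intro i j
    rw [hA]
    simp only
    split_ifs with hij
    · rw [Finset.mem_singleton, hij, h1 i]
    · rw [Finset.mem_filter, Finset.mem_Icc]
      refine ⟨⟨h2 i j, h3 i j hij⟩, ?_⟩
      rw [← hx]
      rfl
  -- the sum over `P x`
  have hPx : ∀ x, (∀ i, x i (σ i) = 0) → ∑ o ∈ P x, f o ≤
      Cw ^ (k * k) * ∏ i, ∏ j, ((1 : ℝ) + x i j) ^ (ρ - 1) := by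
    intro x hx
    have e1 : ∑ o ∈ P x, f o = ∏ i, ∏ j, ∑ g ∈ A x i j, ρ ^ (cardFactors g) / (g : ℝ) := by
      rw [hP, hf]
      have e2 : ∀ i, ∏ j, ∑ g ∈ A x i j, ρ ^ (cardFactors g) / (g : ℝ) =
          ∑ r ∈ Fintype.piFinset (fun j => A x i j), ∏ j, ρ ^ (cardFactors (r j)) / ((r j : ℕ) : ℝ) :=
        fun i => Finset.prod_univ_sum (fun j => A x i j)
          (fun _ g => ρ ^ (cardFactors g) / ((g : ℕ) : ℝ))
      simp_rw [e2]
      rw [Finset.prod_univ_sum]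
    rw [e1]
    have e3 : ∀ i j, ∑ g ∈ A x i j, ρ ^ (cardFactors g) / (g : ℝ) ≤
        Cw * ((1 : ℝ) + x i j) ^ (ρ - 1) := by
      intro i j
      by_cases hij : j = σ i
      · rw [hA]
        simp only [if_pos hij, Finset.sum_singleton]
        rw [hij, hx i]
        simpa using hCw
      · rw [hA]
        simp only [if_neg hij]
        exact hw _ _
    calc ∏ i, ∏ j, ∑ g ∈ A x i j, ρ ^ (cardFactors g) / (g : ℝ)
        ≤ ∏ i, ∏ j, (Cw * ((1 : ℝ) + x i j) ^ (ρ - 1)) := by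
          refine Finset.prod_le_prod (fun i _ => Finset.prod_nonneg fun j _ =>
            Finset.sum_nonneg fun g _ => by positivity) fun i _ => ?_
          exact Finset.prod_le_prod (fun j _ => Finset.sum_nonneg fun g _ => by positivity)
            fun j _ => e3 i j
      _ = Cw ^ (k * k) * ∏ i, ∏ j, ((1 : ℝ) + x i j) ^ (ρ - 1) := by
          simp only [Finset.prod_mul_distrib, Finset.prod_const, Finset.card_univ,
            Fintype.card_fin]
          rw [← pow_mul]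
  have hCw0 : 0 ≤ Cw := by linarith
  calc ∑ o ∈ Off k M σ, f o
      = ∑ E ∈ EE, ∑ o ∈ (Off k M σ).filter (fun o => sb_Y σ (sb_x o) = E), f o :=
        (Finset.sum_fiberwise_of_maps_to hmapE _).symm
    _ ≤ ∑ E ∈ EE, Cw ^ (k * k) * C4 := by
        refine Finset.sum_le_sum fun E _ => ?_
        rw [← Finset.sum_fiberwise_of_maps_to (hmapS E)]
        calc ∑ x ∈ SE E, ∑ o ∈ ((Off k M σ).filter (fun o => sb_Y σ (sb_x o) = E)).filter
              (fun o => sb_x o = x), f o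
            ≤ ∑ x ∈ SE E, Cw ^ (k * k) * ∏ i, ∏ j, ((1 : ℝ) + x i j) ^ (ρ - 1) := by
              refine Finset.sum_le_sum fun x hx => ?_
              refine (Finset.sum_le_sum_of_subset_of_nonneg (hsubP E x)
                fun o _ _ => hf0 o).trans (hPx x fun i => ?_)
              rw [hSE] at hx
              simp only [Finset.mem_filter, Fintype.mem_piFinset] at hx
              have := hx.1 i (σ i)
              rw [if_pos rfl, Finset.mem_singleton] at this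
              exact this
          _ = Cw ^ (k * k) * ∑ x ∈ SE E, ∏ i, ∏ j, ((1 : ℝ) + x i j) ^ (ρ - 1) := by
              rw [Finset.mul_sum]
          _ ≤ Cw ^ (k * k) * C4 :=
              mul_le_mul_of_nonneg_left (h4 R σ E) (pow_nonneg hCw0 _)
    _ = ((2 * K + 2 : ℕ) : ℝ) ^ k * (Cw ^ (k * k) * C4) := by
        rw [Finset.sum_const, hcardE, nsmul_eq_mul]
        push_cast
        ring

end Pool.Agent.Helper256.KM
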