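import Mathlib
import Pool.Agent.Helper256.KM.Defs
import Pool.Agent.Helper256.KM.EM
import Pool.Agent.Helper256.KM.RP
import Pool.Agent.Helper256.KM.DS
import Pool.Agent.Helper256.KM.CE
import Pool.Agent.Helper256.KM.SB

set_option autoImplicit false

namespace Pool.Agent.Helper256.KM

open Finset ArithmeticFunction

theorem block_bound {k : ℕ} (hk : 1 ≤ k) {ρ : ℝ} (hρ : 0 < ρ) (hkρ : k * ρ < 1) : ∃ C : ℝ, 0 < C ∧
    ∀ (M : ℝ) (r : ℕ), 4 ≤ M → (r : ℝ) ≤ ρ * p1 (pr ⌊M⌋₊) →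
    (TT k (blk M (r + 1)) : ℝ) ≤ C * (M / Real.log M * hh (pr ⌊M⌋₊) r) ^ k := by
  have hk' : (1 : ℝ) ≤ k := by exact_mod_cast hk
  have hρ1 : ρ < 1 := by nlinarith
  obtain ⟨CS, hCS, hS⟩ := S_bound hk hρ hkρ
  obtain ⟨c, hc⟩ : ∃ c : ℝ, c = Real.log 4 + 4 := ⟨_, rfl⟩
  have hc0 : 0 < c := by
    have := Real.log_pos (show (1 : ℝ) < 4 by norm_num)
    linarith
  have h1ρ : 0 < (1 - ρ)⁻¹ := inv_pos.mpr (by linarith)
  have hcard : 0 < (Fintype.card (Fin k → Fin k) : ℝ) := by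
    have : 0 < Fintype.card (Fin k → Fin k) := Fintype.card_pos_iff.mpr ⟨id⟩
    exact_mod_cast this
  refine ⟨(Fintype.card (Fin k → Fin k) : ℝ) * CS * (2 * c * (1 - ρ)⁻¹) ^ k, by positivity, ?_⟩
  intro M r hM hr
  obtain ⟨P, hP⟩ : ∃ P, P = hh (pr ⌊M⌋₊) r := ⟨_, rfl⟩
  have hP0 : 0 ≤ P := by
    rw [hP]; unfold hh
    exact Finset.sum_nonneg fun n _ => by positivity
  have hM0 : 0 < M := by linarith
  have hlog : 0 < Real.log M := Real.log_pos (by linarith)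
  obtain ⟨H, hH⟩ : ∃ H : ℝ, H = (1 - ρ)⁻¹ * P := ⟨_, rfl⟩
  have hH0 : 0 ≤ H := by rw [hH]; positivity
  have hcell : ∀ b : ℕ, ∑ d ∈ (Finset.Icc 1 ⌊M⌋₊).filter (fun d => cardFactors d + b + 1 ≤ r + 1),
      (1 : ℝ) / d ≤ H * ρ ^ b := by
    intro b
    have h := cell_sum (b := b) hρ.le hρ1 hr
    rw [← hP, ← hH] at h
    simpa using h
  have hσ : ∀ σ : Fin k → Fin k, ∑ g ∈ GG k M (r + 1), ∏ i, Real.log (g i (σ i)) ≤
      (c * M) ^ k * (H ^ k * CS) := by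
    intro σ
    refine le_trans (remove_powers hk hM (r + 1) σ) ?_
    have h2 : ∑ g ∈ G1 k M (r + 1) σ, ∏ i, Chebyshev.psi (M / ((∏ j, g i j : ℕ) : ℝ)) ≤
        ∑ g ∈ G1 k M (r + 1) σ, (c * M) ^ k * ∏ i, (1 : ℝ) / ((∏ j, g i j : ℕ) : ℝ) := by
      refine Finset.sum_le_sum fun g _ => ?_
      calc ∏ i, Chebyshev.psi (M / ((∏ j, g i j : ℕ) : ℝ)) ≤
          ∏ i : Fin k, (c * M) * ((1 : ℝ) / ((∏ j, g i j : ℕ) : ℝ)) := by
            refine Finset.prod_le_prod (fun i _ => Chebyshev.psi_nonneg _) fun i _ => ?_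
            have h3 := Chebyshev.psi_le_const_mul_self (x := M / ((∏ j, g i j : ℕ) : ℝ)) (by positivity)
            rw [← hc] at h3
            refine le_trans h3 (le_of_eq ?_)
            ring
        _ = (c * M) ^ k * ∏ i, (1 : ℝ) / ((∏ j, g i j : ℕ) : ℝ) := by
            rw [Finset.prod_mul_distrib]
            simp
    refine le_trans h2 ?_
    rw [← Finset.mul_sum]
    refine mul_le_mul_of_nonneg_left ?_ (by positivity)
    refine le_trans (diag_sum hk (by linarith) (r + 1) σ hρ.le hH0 hcell) ?_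
    exact mul_le_mul_of_nonneg_left (hS M σ (by linarith)) (by positivity)
  have h4 := energy_le_mat k hM (r + 1)
  have h5 : ∑ σ : Fin k → Fin k, ∑ g ∈ GG k M (r + 1), ∏ i, Real.log (g i (σ i)) ≤
      ∑ _σ : Fin k → Fin k, (c * M) ^ k * (H ^ k * CS) := Finset.sum_le_sum fun σ _ => hσ σ
  rw [Finset.sum_const, Finset.card_univ, nsmul_eq_mul] at h5
  have h6 := le_trans h4 h5
  rw [← hP]
  rw [← le_div_iff₀ (by positivity)] at h6
  refine le_trans h6 (le_of_eq ?_)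
  rw [hH]
  rw [mul_pow, mul_pow, mul_pow, mul_pow, mul_pow, div_pow, div_pow]
  field_simp

end Pool.Agent.Helper256.KM
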