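import Mathlib
import Pool.Agent.Helper256.KM.Defs
import Pool.Agent.Helper256.KM.DS

set_option autoImplicit false

namespace Pool.Agent.Helper256.KM

open Finset ArithmeticFunction

theorem diag_sum2 {k : ℕ} (hk : 1 ≤ k) {M : ℝ} (hM : 1 ≤ M) (m : ℕ) (σ : Fin k → Fin k) :
    ∑ g ∈ G2 k M m σ, ∏ i, (1 : ℝ) / ((∏ j, g i j : ℕ) : ℝ) ≤
      ∑ o ∈ Off2 k M m σ, (∏ i, Hf M m (cardFactors (∏ j, o i j))) *
        ∏ i, ∏ j, (1 : ℝ) / (o i j : ℝ) := by
  classical
  have hG1 : ∀ g ∈ G2 k M m σ, g ∈ G1 k M m σ := fun g hg => (Finset.mem_filter.1 hg).1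
  have hpos : ∀ g ∈ G2 k M m σ, ∀ i j, 1 ≤ g i j ∧ g i j ≤ ⌊M⌋₊ := by
    intro g hg i j
    have hg := hG1 g hg
    unfold G1 at hg
    rw [Finset.mem_filter] at hg
    have h1 := Fintype.mem_piFinset.1 (Fintype.mem_piFinset.1 hg.1 i) j
    exact Finset.mem_Icc.1 h1
  let D : (Fin k → Fin k → ℕ) → Finset (Fin k → ℕ) := fun o =>
    Fintype.piFinset fun i => (Finset.Icc 1 ⌊M⌋₊).filter
      (fun d => cardFactors d + cardFactors (∏ j, o i j) + 1 ≤ m)
  let Φ : (Fin k → Fin k → ℕ) → (_ : Fin k → Fin k → ℕ) × (Fin k → ℕ) := fun g =>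
    ⟨j4939_o σ g, fun i => g i (σ i)⟩
  let F' : ((_ : Fin k → Fin k → ℕ) × (Fin k → ℕ)) → ℝ := fun x =>
    ∏ i, ((1 : ℝ) / ((∏ j, x.1 i j : ℕ) : ℝ)) * (1 / (x.2 i : ℝ))
  have hFΦ : ∀ g, ∏ i, (1 : ℝ) / ((∏ j, g i j : ℕ) : ℝ) = F' (Φ g) := by
    intro g
    refine Finset.prod_congr rfl fun i _ => ?_
    show _ = (1 : ℝ) / ((∏ j, j4939_o σ g i j : ℕ) : ℝ) * (1 / (g i (σ i) : ℝ))
    rw [j4939_row σ g i, Nat.cast_mul, one_div_mul_one_div]
  have hinj : Set.InjOn Φ (G2 k M m σ) := by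
    intro g _ g' _ h
    have h1 : j4939_o σ g = j4939_o σ g' := by
      have := congrArg Sigma.fst h
      exact this
    have h2 : (fun i => g i (σ i)) = fun i => g' i (σ i) := by
      have := congrArg (fun x : (_ : Fin k → Fin k → ℕ) × (Fin k → ℕ) => x.2) h
      exact this
    funext i j
    rw [j4939_cell σ g i j, j4939_cell σ g' i j, h1]
    have := congrFun h2 i
    rw [this]
  have hsub : (G2 k M m σ).image Φ ⊆ (Off2 k M m σ).sigma D := by
    intro x hx
    obtain ⟨g, hg, rfl⟩ := Finset.mem_image.1 hx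
    have hp := hpos g hg
    have hg1 : ∀ i j, 1 ≤ g i j := fun i j => (hp i j).1
    have ho := j4939_opos σ g hg1
    have hg2 := (Finset.mem_filter.1 hg).2
    have hg' := hG1 g hg
    unfold G1 at hg'
    rw [Finset.mem_filter] at hg'
    have hrow0 : ∀ i, ∏ j, j4939_o σ g i j ≠ 0 := fun i =>
      Finset.prod_ne_zero_iff.2 fun j _ => by
        have := ho i j
        omega
    have hcol0 : ∀ j, ∏ i, j4939_o σ g i j ≠ 0 := fun j =>
      Finset.prod_ne_zero_iff.2 fun i _ => by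
        have := ho i j
        omega
    rw [Finset.mem_sigma]
    refine ⟨?_, ?_⟩
    · show j4939_o σ g ∈ Off2 k M m σ
      unfold Off2
      rw [Finset.mem_filter]
      refine ⟨?_, ?_, ?_⟩
      · unfold Off
        rw [Finset.mem_filter]
        refine ⟨?_, ?_⟩
        · rw [Fintype.mem_piFinset]
          intro i
          rw [Fintype.mem_piFinset]
          intro j
          show j4939_o σ g i j ∈ _
          unfold j4939_o
          split_ifs with h
          · exact Finset.mem_singleton_self 1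
          · exact Finset.mem_Icc.2 (hp i j)
        · intro j
          show |XX σ M (j4939_o σ g) j| ≤ k
          rw [j4939_XX σ M g hg1 j]
          exact hg'.2.2 j
      · intro j hj
        have h1 := hg2.1 j hj
        rw [j4939_col σ g j] at h1
        have h2 : Finset.univ.filter (fun i => σ i = j) = ∅ :=
          Finset.filter_eq_empty_iff.2 fun i _ => hj i
        rw [h2, Finset.prod_empty, mul_one] at h1
        exact h1
      · intro hσ i
        have h1 := hg2.2 hσ i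
        have h2 : Finset.univ.filter (fun i' => σ i' = σ i) = {i} := by
          ext i'
          simp only [Finset.mem_filter, Finset.mem_univ, true_and, Finset.mem_singleton]
          exact ⟨fun h => hσ.1 h, fun h => by rw [h]⟩
        rw [j4939_col σ g (σ i), h2, Finset.prod_singleton, j4939_row σ g i,
          cardFactors_mul (hcol0 _) (by have := hg1 i (σ i); omega),
          cardFactors_mul (hrow0 _) (by have := hg1 i (σ i); omega)] at h1
        omega
    · show (fun i => g i (σ i)) ∈ D (j4939_o σ g)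
      rw [Fintype.mem_piFinset]
      intro i
      rw [Finset.mem_filter]
      refine ⟨Finset.mem_Icc.2 (hp i _), ?_⟩
      have h1 := hg'.2.1 i
      rw [j4939_row σ g i, cardFactors_mul (hrow0 i) (by have := hg1 i (σ i); omega)] at h1
      omega
  have hF'0 : ∀ x, 0 ≤ F' x := by
    intro x
    refine Finset.prod_nonneg fun i _ => ?_
    positivity
  calc ∑ g ∈ G2 k M m σ, ∏ i, (1 : ℝ) / ((∏ j, g i j : ℕ) : ℝ)
      = ∑ g ∈ G2 k M m σ, F' (Φ g) := Finset.sum_congr rfl fun g _ => hFΦ g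
    _ = ∑ x ∈ (G2 k M m σ).image Φ, F' x := (Finset.sum_image hinj).symm
    _ ≤ ∑ x ∈ (Off2 k M m σ).sigma D, F' x :=
        Finset.sum_le_sum_of_subset_of_nonneg hsub fun x _ _ => hF'0 x
    _ = ∑ o ∈ Off2 k M m σ, ∑ d ∈ D o, F' ⟨o, d⟩ := Finset.sum_sigma _ _ _
    _ = ∑ o ∈ Off2 k M m σ, (∏ i, Hf M m (cardFactors (∏ j, o i j))) *
        ∏ i, ∏ j, (1 : ℝ) / (o i j : ℝ) := by
        refine Finset.sum_congr rfl fun o _ => ?_
        have e1 : ∑ d ∈ D o, F' ⟨o, d⟩ = (∏ i, (1 : ℝ) / ((∏ j, o i j : ℕ) : ℝ)) *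
            ∑ d ∈ D o, ∏ i, (1 : ℝ) / (d i : ℝ) := by
          rw [Finset.mul_sum]
          refine Finset.sum_congr rfl fun d _ => ?_
          exact Finset.prod_mul_distrib
        have e2 : ∑ d ∈ D o, ∏ i, (1 : ℝ) / (d i : ℝ) =
            ∏ i, ∑ d ∈ (Finset.Icc 1 ⌊M⌋₊).filter
              (fun d => cardFactors d + cardFactors (∏ j, o i j) + 1 ≤ m), (1 : ℝ) / d := by
          rw [Finset.prod_univ_sum]
        rw [e1, e2, mul_comm]
        congr 1
        refine Finset.prod_congr rfl fun i _ => ?_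
        rw [Nat.cast_prod, Finset.prod_div_distrib, Finset.prod_const_one]

end Pool.Agent.Helper256.KM
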