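import Mathlib
import Pool.Agent.Helper256.KM.Defs
import Pool.Agent.Helper256.KM.RP

set_option autoImplicit false

namespace Pool.Agent.Helper256.KM

open Finset ArithmeticFunction

theorem facts2 {k : ℕ} {M : ℝ} (hM : 4 ≤ M) (m : ℕ) (σ : Fin k → Fin k)
    {g : Fin k → Fin k → ℕ} (hg : g ∈ GG k M m) {q : Fin k → ℕ} (hq : ∀ i, q i ∣ g i (σ i))
    (hΛ : ∀ i, vonMangoldt (q i) ≠ 0) :
    (∀ j, (∀ i, σ i ≠ j) → cardFactors (∏ i, gd σ g q i j) = m) ∧
    (Function.Bijective σ → ∀ i, cardFactors (∏ i', gd σ g q i' (σ i)) =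
      cardFactors (∏ j, gd σ g q i j)) := by
  classical
  have hM0 : 0 < M := by linarith
  unfold GG at hg
  rw [Finset.mem_filter] at hg
  obtain ⟨hg1, hg2, hg3⟩ := hg
  have hgij : ∀ i j, 1 ≤ g i j ∧ g i j ≤ ⌊M⌋₊ := by
    intro i j
    have := Fintype.mem_piFinset.mp (Fintype.mem_piFinset.mp hg1 i) j
    exact Finset.mem_Icc.mp this
  set g' := gd σ g q with hg'
  have hmul : ∀ i j, g i j = g' i j * (if j = σ i then q i else 1) := gd_mul hq
  have hg'pos : ∀ i j, 1 ≤ g' i j := by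
    intro i j
    by_contra h
    have h0 : g' i j = 0 := by omega
    have h1 := hmul i j
    rw [h0, zero_mul] at h1
    have := (hgij i j).1
    omega
  have hqpos : ∀ i, 2 ≤ q i := by
    intro i
    have h1 : IsPrimePow (q i) := vonMangoldt_ne_zero_iff.mp (hΛ i)
    exact h1.two_le
  have hupos : ∀ i, 0 < ∏ j, g' i j := fun i => Finset.prod_pos fun j _ => hg'pos i j
  have hcpos : ∀ j, 0 < ∏ i, g' i j := fun j => Finset.prod_pos fun i _ => hg'pos i j
  have hrow : ∀ i, ∏ j, g i j = (∏ j, g' i j) * q i := by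
    intro i
    rw [Finset.prod_congr rfl fun j _ => hmul i j, Finset.prod_mul_distrib]
    congr 1
    simp
  have hcol : ∀ j, ∏ i, g i j = (∏ i, g' i j) * ∏ i ∈ Finset.univ.filter (fun i => σ i = j), q i := by
    intro j
    rw [Finset.prod_congr rfl fun i _ => hmul i j, Finset.prod_mul_distrib, Finset.prod_filter]
    congr 1
    apply Finset.prod_congr rfl
    intro i _
    by_cases h : j = σ i
    · rw [if_pos h, if_pos h.symm]
    · rw [if_neg h, if_neg (fun h' => h h'.symm)]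
  have hblk : ∀ n ∈ blk M m, cardFactors n = m := by
    intro n hn
    unfold blk at hn
    rw [Finset.mem_filter, Finset.mem_Icc] at hn
    exact hn.2.2
  constructor
  · intro j hj
    have h1 := hblk _ (hg3 j)
    rw [hcol j] at h1
    have h2 : Finset.univ.filter (fun i => σ i = j) = ∅ := by
      rw [Finset.filter_eq_empty_iff]
      intro i _
      exact hj i
    rw [h2, Finset.prod_empty, mul_one] at h1
    exact h1
  · intro hσ i
    have h1 := hblk _ (hg3 (σ i))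
    rw [hcol (σ i)] at h1
    have h2 : Finset.univ.filter (fun i' => σ i' = σ i) = {i} := by
      ext i'
      rw [Finset.mem_filter, Finset.mem_singleton]
      constructor
      · rintro ⟨_, h⟩; exact hσ.1 h
      · rintro rfl; exact ⟨Finset.mem_univ _, rfl⟩
    rw [h2, Finset.prod_singleton,
      cardFactors_mul (hcpos _).ne' (by have := hqpos i; omega)] at h1
    have h3 := hblk _ (hg2 i)
    rw [hrow i, cardFactors_mul (hupos i).ne' (by have := hqpos i; omega)] at h3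
    omega

theorem remove_powers2 {k : ℕ} (hk : 1 ≤ k) {M : ℝ} (hM : 4 ≤ M) (m : ℕ) (σ : Fin k → Fin k) :
    ∑ g ∈ GG k M m, ∏ i, Real.log (g i (σ i)) ≤
      ∑ g ∈ G2 k M m σ, ∏ i, Chebyshev.psi (M / ((∏ j, g i j : ℕ) : ℝ)) := by
  classical
  have hL : ∀ g ∈ GG k M m, ∏ i, Real.log (g i (σ i)) =
      ∑ q ∈ (Fintype.piFinset fun i => (g i (σ i)).divisors).filter
        (fun q => ∀ i, vonMangoldt (q i) ≠ 0), ∏ i, vonMangoldt (q i) := by
    intro g _
    have h1 : ∀ i, Real.log (g i (σ i)) = ∑ q ∈ (g i (σ i)).divisors, vonMangoldt q :=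
      fun i => vonMangoldt_sum.symm
    rw [Finset.prod_congr rfl fun i _ => h1 i, Finset.prod_univ_sum]
    symm
    apply Finset.sum_filter_of_ne
    intro q _ hq i hi
    exact hq (Finset.prod_eq_zero (Finset.mem_univ i) hi)
  have hR : ∀ g ∈ G2 k M m σ, ∏ i, Chebyshev.psi (M / ((∏ j, g i j : ℕ) : ℝ)) =
      ∑ q ∈ Fintype.piFinset fun i => Finset.Ioc 0 ⌊M / ((∏ j, g i j : ℕ) : ℝ)⌋₊,
        ∏ i, vonMangoldt (q i) := by
    intro g _
    unfold Chebyshev.psi
    rw [Finset.prod_univ_sum]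
  rw [Finset.sum_congr rfl hL, Finset.sum_congr rfl hR, Finset.sum_sigma', Finset.sum_sigma']
  set A := (GG k M m).sigma (fun g => (Fintype.piFinset fun i => (g i (σ i)).divisors).filter
        (fun q => ∀ i, vonMangoldt (q i) ≠ 0)) with hA
  set B := (G2 k M m σ).sigma (fun g => Fintype.piFinset fun i =>
    Finset.Ioc 0 ⌊M / ((∏ j, g i j : ℕ) : ℝ)⌋₊) with hB
  let φ : (Σ _ : Fin k → Fin k → ℕ, Fin k → ℕ) → (Σ _ : Fin k → Fin k → ℕ, Fin k → ℕ) :=
    fun x => ⟨gd σ x.1 x.2, x.2⟩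
  have hA' : ∀ x ∈ A, x.1 ∈ GG k M m ∧ (∀ i, x.2 i ∣ x.1 i (σ i)) ∧
      ∀ i, vonMangoldt (x.2 i) ≠ 0 := by
    intro x hx
    rw [hA, Finset.mem_sigma, Finset.mem_filter] at hx
    refine ⟨hx.1, fun i => ?_, hx.2.2⟩
    exact Nat.dvd_of_mem_divisors (Fintype.mem_piFinset.mp hx.2.1 i)
  have hmaps : ∀ x ∈ A, φ x ∈ B := by
    intro x hx
    obtain ⟨h1, h2, h3⟩ := hA' x hx
    obtain ⟨h4, h5⟩ := facts hk hM m σ h1 h2 h3
    rw [hB, Finset.mem_sigma]
    refine ⟨?_, Fintype.mem_piFinset.mpr h5⟩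
    unfold G2
    rw [Finset.mem_filter]
    exact ⟨h4, facts2 hM m σ h1 h2 h3⟩
  have hinj : Set.InjOn φ A := by
    intro x hx y hy hxy
    obtain ⟨_, h2, _⟩ := hA' x hx
    obtain ⟨_, h2', _⟩ := hA' y hy
    have e1 : gd σ x.1 x.2 = gd σ y.1 y.2 := congrArg (fun z => z.1) hxy
    have e2 : (φ x).2 = (φ y).2 := congrArg (fun z : (Σ _ : Fin k → Fin k → ℕ, Fin k → ℕ) => z.2) hxy
    change x.2 = y.2 at e2
    have e3 : x.1 = y.1 := by
      funext i j
      rw [gd_mul h2 i j, gd_mul h2' i j, e1, e2]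
    exact Sigma.ext e3 (heq_of_eq e2)
  calc ∑ x ∈ A, ∏ i, vonMangoldt (x.2 i) = ∑ x ∈ A, ∏ i, vonMangoldt ((φ x).2 i) := rfl
    _ = ∑ y ∈ A.image φ, ∏ i, vonMangoldt (y.2 i) :=
        (Finset.sum_image (f := fun y : (Σ _ : Fin k → Fin k → ℕ, Fin k → ℕ) =>
          ∏ i, vonMangoldt (y.2 i)) hinj).symm
    _ ≤ ∑ y ∈ B, ∏ i, vonMangoldt (y.2 i) :=
        Finset.sum_le_sum_of_subset_of_nonneg (Finset.image_subset_iff.mpr hmaps)
          (fun _ _ _ => Finset.prod_nonneg fun _ _ => vonMangoldt_nonneg)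

end Pool.Agent.Helper256.KM
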