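import Mathlib
import Pool.Agent.Helper256.KM.Defs
import Pool.Agent.Helper256.KM.EM
import Pool.Agent.Helper256.KM.R2
import Pool.Agent.Helper256.KM.D2

set_option autoImplicit false

namespace Pool.Agent.Helper256.KM

open Finset ArithmeticFunction

theorem block2 {k : ℕ} (hk : 1 ≤ k) : ∃ C : ℝ, 0 < C ∧ ∀ (M : ℝ) (m : ℕ), 4 ≤ M →
    (TT k (blk M m) : ℝ) ≤ C * (M / Real.log M) ^ k * ∑ σ : Fin k → Fin k,
      ∑ o ∈ Off2 k M m σ, (∏ i, Hf M m (cardFactors (∏ j, o i j))) *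
        ∏ i, ∏ j, (1 : ℝ) / (o i j : ℝ) := by
  have hc : 0 < Real.log 4 + 4 := by
    have := Real.log_nonneg (show (1 : ℝ) ≤ 4 by norm_num)
    linarith
  refine ⟨(2 * (Real.log 4 + 4)) ^ k, by positivity, fun M m hM => ?_⟩
  have hM0 : 0 < M := by linarith
  have hlog : 0 < Real.log M := Real.log_pos (by linarith)
  have h1 := energy_le_mat k hM m
  have h2 : ∀ σ : Fin k → Fin k, ∑ g ∈ GG k M m, ∏ i, Real.log (g i (σ i)) ≤
      ((Real.log 4 + 4) * M) ^ k * ∑ o ∈ Off2 k M m σ,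
        (∏ i, Hf M m (cardFactors (∏ j, o i j))) * ∏ i, ∏ j, (1 : ℝ) / (o i j : ℝ) := by
    intro σ
    refine (remove_powers2 hk hM m σ).trans ?_
    have h3 : ∑ g ∈ G2 k M m σ, ∏ i, Chebyshev.psi (M / ((∏ j, g i j : ℕ) : ℝ)) ≤
        ((Real.log 4 + 4) * M) ^ k * ∑ g ∈ G2 k M m σ, ∏ i, (1 : ℝ) / ((∏ j, g i j : ℕ) : ℝ) := by
      rw [Finset.mul_sum]
      apply Finset.sum_le_sum
      intro g _
      have h4 : ((Real.log 4 + 4) * M) ^ k * ∏ i, (1 : ℝ) / ((∏ j, g i j : ℕ) : ℝ) =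
          ∏ i, ((Real.log 4 + 4) * (M / ((∏ j, g i j : ℕ) : ℝ))) := by
        have h7 : ((Real.log 4 + 4) * M) ^ k = ∏ _i : Fin k, ((Real.log 4 + 4) * M) := by
          rw [Finset.prod_const, Finset.card_univ, Fintype.card_fin]
        rw [h7, ← Finset.prod_mul_distrib]
        apply Finset.prod_congr rfl
        intro i _
        ring
      rw [h4]
      apply Finset.prod_le_prod
      · intro i _
        exact Chebyshev.psi_nonneg _
      · intro i _
        apply Chebyshev.psi_le_const_mul_self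
        positivity
    refine h3.trans ?_
    have := diag_sum2 hk (show 1 ≤ M by linarith) m σ
    gcongr
  have h5 := h1.trans (Finset.sum_le_sum (fun σ _ => h2 σ))
  rw [← Finset.mul_sum] at h5
  have h6 : (0 : ℝ) < (Real.log M / 2) ^ k := by positivity
  rw [← le_div_iff₀ h6] at h5
  refine h5.trans (le_of_eq ?_)
  rw [mul_pow, mul_pow, div_pow, div_pow]
  field_simp

end Pool.Agent.Helper256.KM
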