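import Mathlib
import Pool.Agent.Helper256.KM.Defs
import Pool.Agent.Helper256.KM.A1
import Pool.Agent.Helper256.KM.HP
import Pool.Agent.Helper256.KM.CE

set_option autoImplicit false

namespace Pool.Agent.Helper256.KM

open Finset ArithmeticFunction

theorem hh_le' {Q : Finset ℕ} (hQ : ∀ p ∈ Q, p.Prime) {r : ℕ} (h : (r : ℝ) ≤ p1 Q) :
    hh Q r ≤ Real.exp 1 * (p1 Q ^ r / (r.factorial : ℝ)) := hh_le hQ h

theorem hh_shift' {Q : Finset ℕ} (hQ : ∀ p ∈ Q, p.Prime) {ρ : ℝ} (hρ : 0 ≤ ρ) {r a : ℕ}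
    (h : (r : ℝ) ≤ ρ * p1 Q) (ha : a ≤ r) : hh Q (r - a) ≤ ρ ^ a * hh Q r := hh_shift hQ hρ h ha

theorem h441_step {p ρ s : ℝ} {r : ℕ} (hr : 0 < r) (hp : 0 < p) (hρ : 0 < ρ)
    (h : (r : ℝ) ≤ p * ρ * Real.exp s) (b : ℕ) (hb : b ≤ r) :
    p ^ (r - b) / ((r - b).factorial : ℝ) ≤
      (p ^ r / (r.factorial : ℝ)) * ρ ^ b * Real.exp (s * b - (b : ℝ) * (b - 1) / (2 * r)) := by
  have hr' : (0 : ℝ) < r := by exact_mod_cast hr
  induction b with
  | zero => simp
  | succ b ih =>
    have ih' := ih (by omega)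
    have hrb : r - b = (r - (b + 1)) + 1 := by omega
    have hcast : ((r - (b + 1) : ℕ) : ℝ) + 1 = r - b := by
      rw [Nat.cast_sub (by omega)]
      push_cast
      ring
    have hrb' : (0 : ℝ) < (r : ℝ) - b := by
      have : (b : ℝ) + 1 ≤ r := by exact_mod_cast hb
      linarith
    have e1 : p ^ (r - (b + 1)) / ((r - (b + 1)).factorial : ℝ) =
        (p ^ (r - b) / ((r - b).factorial : ℝ)) * (((r : ℝ) - b) / p) := by
      rw [hrb, pow_succ, Nat.factorial_succ]
      push_cast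
      rw [hcast]
      have hf : ((r - (b + 1)).factorial : ℝ) ≠ 0 := by
        exact_mod_cast Nat.factorial_ne_zero _
      field_simp
    have e2 : ((r : ℝ) - b) / p ≤ ρ * Real.exp s * Real.exp (-((b : ℝ) / r)) := by
      rw [div_le_iff₀ hp]
      have h1 : ((r : ℝ) - b) = r * (1 - (b : ℝ) / r) := by field_simp
      have h2 : 1 - (b : ℝ) / r ≤ Real.exp (-((b : ℝ) / r)) := by
        have := Real.add_one_le_exp (-((b : ℝ) / r))
        linarith
      rw [h1]
      calc (r : ℝ) * (1 - (b : ℝ) / r) ≤ r * Real.exp (-((b : ℝ) / r)) :=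
            mul_le_mul_of_nonneg_left h2 hr'.le
        _ ≤ (p * ρ * Real.exp s) * Real.exp (-((b : ℝ) / r)) :=
            mul_le_mul_of_nonneg_right h (Real.exp_pos _).le
        _ = ρ * Real.exp s * Real.exp (-((b : ℝ) / r)) * p := by ring
    rw [e1]
    have hnn : 0 ≤ ((r : ℝ) - b) / p := by positivity
    calc (p ^ (r - b) / ((r - b).factorial : ℝ)) * (((r : ℝ) - b) / p)
        ≤ ((p ^ r / (r.factorial : ℝ)) * ρ ^ b *
            Real.exp (s * b - (b : ℝ) * (b - 1) / (2 * r))) *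
            (ρ * Real.exp s * Real.exp (-((b : ℝ) / r))) := by
          apply mul_le_mul ih' e2 hnn
          positivity
      _ = (p ^ r / (r.factorial : ℝ)) * ρ ^ (b + 1) *
            (Real.exp (s * b - (b : ℝ) * (b - 1) / (2 * r)) * Real.exp s *
              Real.exp (-((b : ℝ) / r))) := by ring
      _ = (p ^ r / (r.factorial : ℝ)) * ρ ^ (b + 1) *
            Real.exp (s * ((b + 1 : ℕ) : ℝ) - ((b + 1 : ℕ) : ℝ) * (((b + 1 : ℕ) : ℝ) - 1) / (2 * r)) := by
          rw [← Real.exp_add, ← Real.exp_add]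
          congr 2
          push_cast
          field_simp
          ring

theorem h441_p1_nonneg (Q : Finset ℕ) : 0 ≤ p1 Q := by
  unfold p1
  positivity

theorem Hf_le : ∃ C : ℝ, 0 < C ∧ ∀ (M : ℝ) (r b : ℕ) (ρ s : ℝ), 1 ≤ M →
    (r : ℝ) ≤ p1 (pr ⌊M⌋₊) / 2 → 0 < ρ → 0 ≤ s →
    (r : ℝ) ≤ p1 (pr ⌊M⌋₊) * ρ * Real.exp s →
    Hf M (r + 1) b ≤ C * (p1 (pr ⌊M⌋₊) ^ r / (r.factorial : ℝ)) * ρ ^ b *
      Real.exp (s * b - (b : ℝ) ^ 2 / (2 * r)) := by
  refine ⟨2 * Real.exp 1 * Real.exp (1 / 2), by positivity, ?_⟩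
  intro M r b ρ s hM hr hρ hs hrp
  have hpnn := h441_p1_nonneg (pr ⌊M⌋₊)
  set p := p1 (pr ⌊M⌋₊) with hp
  rcases lt_or_ge r b with hb | hb
  · have h0 : Hf M (r + 1) b = 0 := by
      unfold Hf
      rw [Finset.filter_false_of_mem]
      · simp
      · intro d _
        omega
    rw [h0]
    positivity
  · have hcell := cell_sum (N := ⌊M⌋₊) (r := r - b) (b := 0) (ρ := 1 / 2) (by norm_num)
      (by norm_num) (by
        have : ((r - b : ℕ) : ℝ) ≤ r := by exact_mod_cast Nat.sub_le r b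
        rw [← hp]
        linarith)
    have hHf : Hf M (r + 1) b = ∑ d ∈ (Finset.Icc 1 ⌊M⌋₊).filter
        (fun d => cardFactors d + 0 ≤ r - b), (1 : ℝ) / d := by
      unfold Hf
      apply Finset.sum_congr _ (fun _ _ => rfl)
      ext d
      simp only [Finset.mem_filter]
      constructor
      · rintro ⟨h1, h2⟩
        exact ⟨h1, by omega⟩
      · rintro ⟨h1, h2⟩
        exact ⟨h1, by omega⟩
    have hhh := hh_le' (Q := pr ⌊M⌋₊) (by
      intro q hq
      exact (Finset.mem_filter.mp hq).2) (r := r - b) (by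
        have : ((r - b : ℕ) : ℝ) ≤ r := by exact_mod_cast Nat.sub_le r b
        rw [← hp]
        linarith)
    rw [← hp] at hhh
    have h2 : Hf M (r + 1) b ≤ 2 * (Real.exp 1 * (p ^ (r - b) / ((r - b).factorial : ℝ))) := by
      rw [hHf]
      refine hcell.trans ?_
      rw [pow_zero, mul_one]
      have : ((1 : ℝ) - 1 / 2)⁻¹ = 2 := by norm_num
      rw [this]
      exact mul_le_mul_of_nonneg_left hhh (by norm_num)
    refine h2.trans ?_
    have h3 : p ^ (r - b) / ((r - b).factorial : ℝ) ≤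
        (p ^ r / (r.factorial : ℝ)) * ρ ^ b *
          (Real.exp (1 / 2) * Real.exp (s * b - (b : ℝ) ^ 2 / (2 * r))) := by
      rcases Nat.eq_zero_or_pos r with h0 | h0
      · subst h0
        have hb0 : b = 0 := by omega
        subst hb0
        simp
      · have hr' : (0 : ℝ) < r := by exact_mod_cast h0
        refine (h441_step h0 (by linarith) hρ hrp b hb).trans ?_
        apply mul_le_mul_of_nonneg_left _ (by positivity)
        rw [← Real.exp_add]
        apply Real.exp_le_exp.mpr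
        have hbr : (b : ℝ) ≤ r := by exact_mod_cast hb
        have h5 : (b : ℝ) * (b - 1) / (2 * r) = (b : ℝ) ^ 2 / (2 * r) - b / (2 * r) := by
          field_simp
        have h6 : (b : ℝ) / (2 * r) ≤ 1 / 2 := by
          rw [div_le_div_iff₀ (by positivity) (by norm_num)]
          linarith
        rw [h5]
        linarith
    calc 2 * (Real.exp 1 * (p ^ (r - b) / ((r - b).factorial : ℝ)))
        ≤ 2 * (Real.exp 1 * ((p ^ r / (r.factorial : ℝ)) * ρ ^ b *
          (Real.exp (1 / 2) * Real.exp (s * b - (b : ℝ) ^ 2 / (2 * r))))) := by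
          apply mul_le_mul_of_nonneg_left _ (by norm_num)
          exact mul_le_mul_of_nonneg_left h3 (Real.exp_pos _).le
      _ = _ := by ring

end Pool.Agent.Helper256.KM

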