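import Mathlib
import Pool.Agent.Helper256.KM.Defs
import Pool.Agent.Helper256.KM.SB
import Pool.Agent.Helper256.KM.HF

set_option autoImplicit false

namespace Pool.Agent.Helper256.KM

open Finset ArithmeticFunction

theorem cardFactors_prod_aux {ι : Type} (s : Finset ι) (f : ι → ℕ) (h : ∀ i ∈ s, f i ≠ 0) :
    cardFactors (∏ i ∈ s, f i) = ∑ i ∈ s, cardFactors (f i) := by
  classical
  induction s using Finset.induction_on with
  | empty => simp
  | insert a s ha ih =>
    rw [Finset.prod_insert ha, Finset.sum_insert ha, cardFactors_mul (h a (Finset.mem_insert_self _ _))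
      (Finset.prod_ne_zero_iff.2 fun i hi => h i (Finset.mem_insert_of_mem hi)),
      ih fun i hi => h i (Finset.mem_insert_of_mem hi)]

theorem nonperm_s (k : ℕ) (hk : 3 ≤ k) : ∃ δ s : ℝ, 0 < δ ∧ δ < 1 ∧ 0 ≤ s ∧ s ≤ 1 / (2 * k) ∧
    (1 - δ) * Real.exp s = 1 + δ ∧ (1 + δ) / k ≤ 1 / 2 := by
  have hk' : (3:ℝ) ≤ k := by exact_mod_cast hk
  have hk0 : (0:ℝ) < k := by linarith
  set δ : ℝ := 1 / (8 * k) with hδ
  have hδ0 : 0 < δ := by positivity
  have hδ1 : δ ≤ 1 / 24 := by
    rw [hδ, div_le_div_iff₀ (by positivity) (by norm_num)]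
    linarith
  have h1 : 0 < 1 - δ := by linarith
  refine ⟨δ, Real.log ((1 + δ) / (1 - δ)), hδ0, by linarith, ?_, ?_, ?_, ?_⟩
  · apply Real.log_nonneg
    rw [le_div_iff₀ h1]
    linarith
  · have h2 := Real.log_le_sub_one_of_pos (show 0 < (1 + δ) / (1 - δ) by positivity)
    refine h2.trans ?_
    have h3 : (1 + δ) / (1 - δ) - 1 = 2 * δ / (1 - δ) := by
      field_simp
      ring
    rw [h3, div_le_div_iff₀ h1 (by positivity)]
    have h4 : δ * (8 * k) = 1 := by
      rw [hδ]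
      field_simp
    nlinarith
  · rw [Real.exp_log (by positivity)]
    field_simp
  · rw [div_le_div_iff₀ hk0 (by norm_num)]
    linarith

theorem nonperm {k : ℕ} (hk : 3 ≤ k) : ∃ η C : ℝ, 0 < η ∧ 0 < C ∧ ∀ (M : ℝ) (r : ℕ), 1 ≤ M →
    k * (r : ℝ) ≤ (1 + η) * p1 (pr ⌊M⌋₊) → ∀ σ : Fin k → Fin k, ¬ Function.Bijective σ →
    ∑ o ∈ Off2 k M (r + 1) σ, (∏ i, Hf M (r + 1) (cardFactors (∏ j, o i j))) *
        ∏ i, ∏ j, (1 : ℝ) / (o i j : ℝ) ≤
      C * (p1 (pr ⌊M⌋₊) ^ r / (r.factorial : ℝ)) ^ k := by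
  classical
  obtain ⟨δ, s, hδ0, hδ1, hs0, hs1, hes, hhalf⟩ := nonperm_s k hk
  have hk' : (3:ℝ) ≤ k := by exact_mod_cast hk
  have hk0 : (0:ℝ) < k := by linarith
  set ρ : ℝ := (1 - δ) / k with hρ
  have hρ0 : 0 < ρ := div_pos (by linarith) hk0
  have hkρ : k * ρ < 1 := by
    rw [hρ, mul_div_cancel₀ _ hk0.ne']
    linarith
  obtain ⟨CS, hCS, hS⟩ := S_bound (k := k) (by omega) hρ0 hkρ
  obtain ⟨C1, hC1, hH⟩ := Hf_le
  refine ⟨δ, C1 ^ k * CS, hδ0, by positivity, ?_⟩
  intro M r hM hr σ hσ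
  set p := p1 (pr ⌊M⌋₊) with hp
  have hp0 : 0 ≤ p := Finset.sum_nonneg fun q _ => by positivity
  have hr' : (r:ℝ) ≤ (1 + δ) / k * p := by
    rw [div_mul_eq_mul_div, le_div_iff₀ hk0]
    linarith
  have hr2 : (r:ℝ) ≤ p / 2 := by
    calc (r:ℝ) ≤ (1 + δ) / k * p := hr'
      _ ≤ 1 / 2 * p := mul_le_mul_of_nonneg_right hhalf hp0
      _ = p / 2 := by ring
  have hr3 : (r:ℝ) ≤ p * ρ * Real.exp s := by
    have : p * ρ * Real.exp s = (1 + δ) / k * p := by
      rw [hρ, ← hes]
      ring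
    rw [this]
    exact hr'
  set W : ℝ := p ^ r / (r.factorial : ℝ) with hW
  have hW0 : 0 ≤ W := by positivity
  -- a missed column
  obtain ⟨j₀, hj₀⟩ : ∃ j, ∀ i, σ i ≠ j := by
    by_contra hcon
    push Not at hcon
    exact hσ ((Finite.surjective_iff_bijective).1 hcon)
  -- termwise bound
  have hterm : ∀ o ∈ Off2 k M (r + 1) σ,
      (∏ i, Hf M (r + 1) (cardFactors (∏ j, o i j))) * ∏ i, ∏ j, (1 : ℝ) / (o i j : ℝ) ≤
      (C1 * W) ^ k * ∏ i, ∏ j, ρ ^ (cardFactors (o i j)) / (o i j : ℝ) := by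
    intro o ho
    unfold Off2 at ho
    rw [Finset.mem_filter] at ho
    obtain ⟨ho1, ho2, _⟩ := ho
    unfold Off at ho1
    rw [Finset.mem_filter, Fintype.mem_piFinset] at ho1
    have hpos : ∀ i j, 1 ≤ o i j := by
      intro i j
      have h1 := ho1.1 i
      rw [Fintype.mem_piFinset] at h1
      have h2 := h1 j
      split_ifs at h2 with h3
      · rw [Finset.mem_singleton] at h2
        omega
      · rw [Finset.mem_Icc] at h2
        exact h2.1
    have hne : ∀ i j, o i j ≠ 0 := fun i j => by have := hpos i j; omega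
    set bb : Fin k → ℕ := fun i => cardFactors (∏ j, o i j) with hbb
    have hbsum : ∀ i, bb i = ∑ j, cardFactors (o i j) := by
      intro i
      show cardFactors (∏ j, o i j) = _
      rw [cardFactors_prod_aux Finset.univ (fun j => o i j) (fun j _ => hne i j)]
    have hcol : cardFactors (∏ i, o i j₀) = ∑ i, cardFactors (o i j₀) :=
      cardFactors_prod_aux Finset.univ (fun i => o i j₀) (fun i _ => hne i j₀)
    have hB : r + 1 ≤ ∑ i, bb i := by
      have h1 := ho2 j₀ hj₀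
      rw [← h1, hcol]
      refine Finset.sum_le_sum fun i _ => ?_
      rw [hbsum]
      exact Finset.single_le_sum (f := fun j => cardFactors (o i j)) (fun _ _ => Nat.zero_le _)
        (Finset.mem_univ j₀)
    have hprodpos : 0 ≤ ∏ i, ∏ j, (1 : ℝ) / (o i j : ℝ) :=
      Finset.prod_nonneg fun i _ => Finset.prod_nonneg fun j _ => by positivity
    have hHf0 : ∀ m b, 0 ≤ Hf M m b := fun m b => Finset.sum_nonneg fun d _ => by positivity
    have hsplit : ∏ i, ∏ j, ρ ^ (cardFactors (o i j)) / (o i j : ℝ) =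
        (∏ i, ρ ^ bb i) * ∏ i, ∏ j, (1 : ℝ) / (o i j : ℝ) := by
      rw [← Finset.prod_mul_distrib]
      refine Finset.prod_congr rfl fun i _ => ?_
      rw [hbsum, ← Finset.prod_pow_eq_pow_sum, ← Finset.prod_mul_distrib]
      refine Finset.prod_congr rfl fun j _ => ?_
      ring
    have hmain : (∏ i, Hf M (r + 1) (bb i)) ≤ (C1 * W) ^ k * ∏ i, ρ ^ bb i := by
      rcases Nat.eq_zero_or_pos r with hr0 | hr0
      · -- r = 0
        obtain ⟨i, hi⟩ : ∃ i, 1 ≤ bb i := by
          by_contra hcon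
          push Not at hcon
          have : ∑ i, bb i = 0 := Finset.sum_eq_zero fun i _ => by have := hcon i; omega
          omega
        have hz : Hf M (r + 1) (bb i) = 0 := by
          unfold Hf
          rw [Finset.filter_false_of_mem]
          · simp
          · intro d _
            omega
        rw [Finset.prod_eq_zero (Finset.mem_univ i) hz]
        refine mul_nonneg (by positivity) (Finset.prod_nonneg fun i _ => by positivity)
      · have hr0' : (0:ℝ) < r := by exact_mod_cast hr0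
        have h1 : ∀ i, Hf M (r + 1) (bb i) ≤ C1 * W * ρ ^ bb i *
            Real.exp (s * bb i - (bb i : ℝ) ^ 2 / (2 * r)) := fun i =>
          hH M r (bb i) ρ s hM hr2 hρ0 hs0 hr3
        have h2 : ∏ i, (C1 * W * ρ ^ bb i * Real.exp (s * bb i - (bb i : ℝ) ^ 2 / (2 * r))) =
            (C1 * W) ^ k * (∏ i, ρ ^ bb i) *
              Real.exp (∑ i, (s * bb i - (bb i : ℝ) ^ 2 / (2 * r))) := by
          rw [Finset.prod_mul_distrib, Finset.prod_mul_distrib, Real.exp_sum, Finset.prod_const,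
            Finset.card_univ, Fintype.card_fin]
        have h3 : Real.exp (∑ i, (s * bb i - (bb i : ℝ) ^ 2 / (2 * r))) ≤ 1 := by
          rw [Real.exp_le_one_iff, Finset.sum_sub_distrib, ← Finset.mul_sum, ← Finset.sum_div]
          set Bs : ℝ := ∑ i, (bb i : ℝ) with hBs
          have hBr : (r:ℝ) ≤ Bs := by
            have : ((r + 1 : ℕ) : ℝ) ≤ ((∑ i, bb i : ℕ) : ℝ) := by exact_mod_cast hB
            push_cast at this
            linarith
          have hcs : Bs ^ 2 ≤ k * ∑ i, (bb i : ℝ) ^ 2 := by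
            have := sq_sum_le_card_mul_sum_sq (s := (Finset.univ : Finset (Fin k)))
              (f := fun i => (bb i : ℝ))
            rwa [Finset.card_univ, Fintype.card_fin] at this
          have hBs0 : 0 ≤ Bs := hr0'.le.trans hBr
          have h4 : s * Bs ≤ Bs / (2 * k) := by
            calc s * Bs ≤ 1 / (2 * k) * Bs := mul_le_mul_of_nonneg_right hs1 hBs0
              _ = _ := by ring
          have h5 : Bs / (2 * k) ≤ (∑ i, (bb i : ℝ) ^ 2) / (2 * r) := by
            rw [div_le_div_iff₀ (by positivity) (by positivity)]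
            nlinarith
          linarith
        calc ∏ i, Hf M (r + 1) (bb i) ≤
            ∏ i, (C1 * W * ρ ^ bb i * Real.exp (s * bb i - (bb i : ℝ) ^ 2 / (2 * r))) :=
              Finset.prod_le_prod (fun i _ => hHf0 _ _) fun i _ => h1 i
          _ = _ := h2
          _ ≤ (C1 * W) ^ k * (∏ i, ρ ^ bb i) * 1 := by
              refine mul_le_mul_of_nonneg_left h3 (mul_nonneg (by positivity)
                (Finset.prod_nonneg fun i _ => by positivity))
          _ = _ := mul_one _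
    rw [hsplit]
    calc (∏ i, Hf M (r + 1) (bb i)) * ∏ i, ∏ j, (1 : ℝ) / (o i j : ℝ) ≤
        ((C1 * W) ^ k * ∏ i, ρ ^ bb i) * ∏ i, ∏ j, (1 : ℝ) / (o i j : ℝ) :=
          mul_le_mul_of_nonneg_right hmain hprodpos
      _ = _ := by ring
  calc ∑ o ∈ Off2 k M (r + 1) σ, (∏ i, Hf M (r + 1) (cardFactors (∏ j, o i j))) *
        ∏ i, ∏ j, (1 : ℝ) / (o i j : ℝ) ≤
      ∑ o ∈ Off2 k M (r + 1) σ,
        (C1 * W) ^ k * ∏ i, ∏ j, ρ ^ (cardFactors (o i j)) / (o i j : ℝ) :=
        Finset.sum_le_sum hterm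
    _ ≤ ∑ o ∈ Off k M σ,
        (C1 * W) ^ k * ∏ i, ∏ j, ρ ^ (cardFactors (o i j)) / (o i j : ℝ) := by
        refine Finset.sum_le_sum_of_subset_of_nonneg (Finset.filter_subset _ _) fun o _ _ => ?_
        refine mul_nonneg (by positivity) (Finset.prod_nonneg fun i _ =>
          Finset.prod_nonneg fun j _ => by positivity)
    _ = (C1 * W) ^ k * ∑ o ∈ Off k M σ,
        ∏ i, ∏ j, ρ ^ (cardFactors (o i j)) / (o i j : ℝ) := by rw [Finset.mul_sum]
    _ ≤ (C1 * W) ^ k * CS := mul_le_mul_of_nonneg_left (hS M σ hM) (by positivity)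
    _ = C1 ^ k * CS * W ^ k := by rw [mul_pow]; ring

end Pool.Agent.Helper256.KM
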