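import Mathlib
import Pool.Agent.Helper256.KM.Defs

set_option autoImplicit false

namespace Pool.Agent.Helper256.KM

open Finset ArithmeticFunction

/-- signed balance -/
def Dd {k : ℕ} (π : Fin k → Fin k) (v : Fin k → Fin k → ℤ) (b : Fin k) : ℤ :=
  (∑ i, ∑ j, if π j = b ∧ π i ≠ b then v i j else 0) -
    (∑ i, ∑ j, if π i = b ∧ π j ≠ b then v i j else 0)

theorem Dd_eq {k : ℕ} (π : Fin k → Fin k) (v : Fin k → Fin k → ℤ) (b : Fin k) :
    Dd π v b = ∑ i, ∑ j, ((if π j = b ∧ π i ≠ b then v i j else 0) -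
      (if π i = b ∧ π j ≠ b then v i j else 0)) := by
  simp only [Dd, Finset.sum_sub_distrib]

theorem Dd_mrg_A {k : ℕ} (π : Fin k → Fin k) (i0 j0 : Fin k) (h : π i0 ≠ π j0)
    (v v' : Fin k → Fin k → ℤ)
    (hv : ∀ i j, mrg π i0 j0 i ≠ mrg π i0 j0 j → v' i j = v i j) :
    Dd (mrg π i0 j0) v' (π i0) = Dd π v (π i0) + Dd π v (π j0) := by
  rw [Dd_eq, Dd_eq, Dd_eq, ← Finset.sum_add_distrib]
  refine Finset.sum_congr rfl fun i _ => ?_
  rw [← Finset.sum_add_distrib]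
  refine Finset.sum_congr rfl fun j _ => ?_
  have hv1 := hv i j
  unfold mrg at hv1 ⊢
  by_cases hiB : π i = π j0 <;> by_cases hjB : π j = π j0 <;>
    by_cases hiA : π i = π i0 <;> by_cases hjA : π j = π i0 <;>
    simp_all [eq_comm]

theorem Dd_mrg_B {k : ℕ} (π : Fin k → Fin k) (i0 j0 : Fin k) (h : π i0 ≠ π j0)
    (v' : Fin k → Fin k → ℤ) :
    Dd (mrg π i0 j0) v' (π j0) = 0 := by
  rw [Dd_eq]
  refine Finset.sum_eq_zero fun i _ => Finset.sum_eq_zero fun j _ => ?_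
  unfold mrg
  by_cases hiB : π i = π j0 <;> by_cases hjB : π j = π j0 <;> simp_all [eq_comm]

theorem Dd_mrg_o {k : ℕ} (π : Fin k → Fin k) (i0 j0 : Fin k) (h : π i0 ≠ π j0)
    (v v' : Fin k → Fin k → ℤ)
    (hv : ∀ i j, mrg π i0 j0 i ≠ mrg π i0 j0 j → v' i j = v i j) (b : Fin k)
    (hbA : b ≠ π i0) (hbB : b ≠ π j0) :
    Dd (mrg π i0 j0) v' b = Dd π v b := by
  rw [Dd_eq, Dd_eq]
  refine Finset.sum_congr rfl fun i _ => Finset.sum_congr rfl fun j _ => ?_
  have hv1 := hv i j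
  have hmj : ∀ j, (mrg π i0 j0 j = b ↔ π j = b) := by
    intro j
    unfold mrg
    by_cases hjB : π j = π j0
    · rw [if_pos hjB]
      constructor
      · intro h1; exact absurd h1.symm hbA
      · intro h1; exact absurd (h1.symm.trans hjB) hbB
    · rw [if_neg hjB]
  simp only [hmj, ne_eq]
  by_cases h1 : π j = b <;> by_cases h2 : π i = b
  · simp [h1, h2]
  · have : v' i j = v i j := hv1 (by
      intro h3
      have := (hmj j).2 h1
      exact h2 ((hmj i).1 (h3.trans this)))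
    simp [h1, h2, this]
  · have : v' i j = v i j := hv1 (by
      intro h3
      have := (hmj i).2 h2
      exact h1 ((hmj j).1 (h3.symm.trans this)))
    simp [h1, h2, this]
  · simp [h1, h2]

theorem Dd_inj {k : ℕ} (π : Fin k → Fin k) (i0 j0 : Fin k) (h : π i0 ≠ π j0)
    (v v' : Fin k → Fin k → ℤ) (hv : ∀ i j, ¬ (i = i0 ∧ j = j0) → v i j = v' i j)
    (hD : Dd π v (π j0) = Dd π v' (π j0)) : v i0 j0 = v' i0 j0 := by
  have h1 : Dd π v (π j0) - Dd π v' (π j0) = v i0 j0 - v' i0 j0 := by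
    rw [Dd_eq, Dd_eq, ← Finset.sum_sub_distrib]
    rw [Finset.sum_eq_single i0]
    · rw [← Finset.sum_sub_distrib, Finset.sum_eq_single j0]
      · simp [h]
      · intro j _ hj
        rw [hv i0 j (fun h2 => hj h2.2)]
        ring
      · intro h2; exact absurd (Finset.mem_univ _) h2
    · intro i _ hi
      rw [← Finset.sum_sub_distrib]
      refine Finset.sum_eq_zero fun j _ => ?_
      rw [hv i j (fun h2 => hi h2.1)]
      ring
    · intro h2; exact absurd (Finset.mem_univ _) h2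
  linarith

theorem mem_LS {k K : ℕ} {π : Fin k → Fin k} {E G : ℕ} {f : Fin k → Fin k → ℕ × ℕ} :
    f ∈ LS k K π E G ↔ (∀ i j, f i j ∈ (if π i = π j then {((0 : ℕ), (0 : ℕ))} else
      Finset.range (2 ^ E - 1) ×ˢ Finset.range G : Finset (ℕ × ℕ))) ∧
      ∀ b, |Dd π (fun i j => ((f i j).1 : ℤ)) b| ≤ K ∧ Dd π (fun i j => ((f i j).2 : ℤ)) b = 0 := by
  unfold LS
  rw [Finset.mem_filter]
  simp only [Fintype.mem_piFinset, Dd, sub_eq_zero]

theorem wt_eq {k : ℕ} (om : ℕ → ℕ → ℝ) (π : Fin k → Fin k) (f : Fin k → Fin k → ℕ × ℕ) :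
    wt om π f = ∏ c ∈ Finset.univ.filter (fun c : Fin k × Fin k => π c.1 ≠ π c.2),
      om (f c.1 c.2).1 (f c.1 c.2).2 := by
  unfold wt
  rw [Finset.prod_filter, ← Finset.univ_product_univ, Finset.prod_product]
  refine Finset.prod_congr rfl fun i _ => Finset.prod_congr rfl fun j _ => ?_
  by_cases h : π i = π j <;> simp [h]

theorem wt_nonneg {k : ℕ} {om : ℕ → ℕ → ℝ} (hom : ∀ x a, 0 ≤ om x a) (π : Fin k → Fin k)
    (f : Fin k → Fin k → ℕ × ℕ) : 0 ≤ wt om π f := by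
  rw [wt_eq]
  exact Finset.prod_nonneg fun c _ => hom _ _

theorem cell_bound {k K : ℕ} (om : ℕ → ℕ → ℝ) (hom : ∀ x a, 0 ≤ om x a) (π : Fin k → Fin k)
    (e G : ℕ) {S Mx : ℝ} (hS0 : 0 ≤ S) (hM0 : 0 ≤ Mx)
    (hS : ∑ x ∈ Finset.range (2 ^ (e + 1) - 1), ∑ a ∈ Finset.range G, om x a ≤ S)
    (hM : ∀ x a, 2 ^ e ≤ x + 1 → x + 1 < 2 ^ (e + 1) → om x a ≤ Mx) (i0 j0 : Fin k)
    (h0 : π i0 ≠ π j0) :
    ∑ f ∈ (LS k K π (e + 1) G).filter (fun f => 2 ^ e ≤ (f i0 j0).1 + 1), wt om π f ≤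
      (2 * (K : ℝ) + 1) * Mx * S ^ (nact π - nact (mrg π i0 j0) - 1) *
        ∑ g ∈ LS k (2 * K) (mrg π i0 j0) (e + 1) G, wt om (mrg π i0 j0) g := by
  classical
  set π' := mrg π i0 j0 with hπ'
  set Act : Finset (Fin k × Fin k) := Finset.univ.filter (fun c => π c.1 ≠ π c.2) with hAct
  set Act' : Finset (Fin k × Fin k) := Finset.univ.filter (fun c => π' c.1 ≠ π' c.2) with hAct'
  have hsub : Act' ⊆ Act := by
    intro c hc
    rw [hAct', Finset.mem_filter] at hc
    rw [hAct, Finset.mem_filter]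
    refine ⟨Finset.mem_univ _, fun h => hc.2 ?_⟩
    rw [hπ']
    unfold mrg
    rw [h]
  have hc0 : (i0, j0) ∈ Act \ Act' := by
    rw [Finset.mem_sdiff, hAct, hAct', Finset.mem_filter, Finset.mem_filter]
    refine ⟨⟨Finset.mem_univ _, h0⟩, fun h => h.2 ?_⟩
    rw [hπ']
    simp [mrg]
  set R : Finset (Fin k × Fin k) := (Act \ Act').erase (i0, j0) with hR
  have hRcard : R.card = nact π - nact π' - 1 := by
    rw [hR, Finset.card_erase_of_mem hc0, Finset.card_sdiff_of_subset hsub]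
    rfl
  set P : Finset (ℕ × ℕ) := Finset.range (2 ^ (e + 1) - 1) ×ˢ Finset.range G with hP
  set gg : (Fin k → Fin k → ℕ × ℕ) → (Fin k → Fin k → ℕ × ℕ) := fun f i j =>
    if π' i = π' j then (0, 0) else f i j with hgg
  set hh : (Fin k → Fin k → ℕ × ℕ) → (R → ℕ × ℕ) := fun f c => f c.1.1 c.1.2 with hhh
  set tt : (Fin k → Fin k → ℕ × ℕ) → ℕ := fun f =>
    (Dd π (fun i j => ((f i j).1 : ℤ)) (π j0) + K).toNat with htt
  set Φ : (Fin k → Fin k → ℕ × ℕ) → (Fin k → Fin k → ℕ × ℕ) × ((R → ℕ × ℕ) × ℕ) :=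
    fun f => (gg f, (hh f, tt f)) with hΦ
  set ω : (Fin k → Fin k → ℕ × ℕ) × ((R → ℕ × ℕ) × ℕ) → ℝ :=
    fun x => wt om π' x.1 * ∏ c : R, om (x.2.1 c).1 (x.2.1 c).2 with hω
  set F := (LS k K π (e + 1) G).filter (fun f => 2 ^ e ≤ (f i0 j0).1 + 1) with hF
  set T : Finset ((Fin k → Fin k → ℕ × ℕ) × ((R → ℕ × ℕ) × ℕ)) :=
    LS k (2 * K) π' (e + 1) G ×ˢ ((Fintype.piFinset fun _ : R => P) ×ˢ Finset.range (2 * K + 1)) with hT
  -- membership facts
  have hfP : ∀ f ∈ F, ∀ i j, π i ≠ π j → f i j ∈ P := by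
    intro f hf i j hij
    have h1 := (mem_LS.1 (Finset.mem_filter.1 hf).1).1 i j
    rwa [if_neg hij] at h1
  have hf0 : ∀ f ∈ F, ∀ i j, π i = π j → f i j = (0, 0) := by
    intro f hf i j hij
    have h1 := (mem_LS.1 (Finset.mem_filter.1 hf).1).1 i j
    rw [if_pos hij, Finset.mem_singleton] at h1
    exact h1
  have hfb : ∀ f ∈ F, ∀ b, |Dd π (fun i j => ((f i j).1 : ℤ)) b| ≤ K ∧
      Dd π (fun i j => ((f i j).2 : ℤ)) b = 0 := fun f hf =>
    (mem_LS.1 (Finset.mem_filter.1 hf).1).2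
  have hmaps : ∀ f ∈ F, Φ f ∈ T := by
    intro f hf
    rw [hT, Finset.mem_product, Finset.mem_product]
    refine ⟨?_, ?_, ?_⟩
    · change gg f ∈ LS k (2 * K) π' (e + 1) G
      rw [mem_LS]
      constructor
      · intro i j
        by_cases hij : π' i = π' j
        · rw [if_pos hij]
          simp only [hgg]
          rw [if_pos hij]
          exact Finset.mem_singleton_self _
        · rw [if_neg hij]
          simp only [hgg]
          rw [if_neg hij]
          refine hfP f hf i j fun h => hij ?_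
          rw [hπ']; unfold mrg; rw [h]
      · intro b
        have hv1 : ∀ i j, mrg π i0 j0 i ≠ mrg π i0 j0 j →
            (fun i j => (((gg f) i j).1 : ℤ)) i j = (fun i j => ((f i j).1 : ℤ)) i j := by
          intro i j hij
          simp only [hgg]
          rw [if_neg hij]
        have hv2 : ∀ i j, mrg π i0 j0 i ≠ mrg π i0 j0 j →
            (fun i j => (((gg f) i j).2 : ℤ)) i j = (fun i j => ((f i j).2 : ℤ)) i j := by
          intro i j hij
          simp only [hgg]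
          rw [if_neg hij]
        by_cases hbA : b = π i0
        · subst hbA
          rw [hπ', Dd_mrg_A π i0 j0 h0 _ _ hv1, Dd_mrg_A π i0 j0 h0 _ _ hv2]
          obtain ⟨a1, a2⟩ := hfb f hf (π i0)
          obtain ⟨a3, a4⟩ := hfb f hf (π j0)
          constructor
          · refine (abs_add_le _ _).trans ?_
            push_cast
            linarith
          · rw [a2, a4, add_zero]
        · by_cases hbB : b = π j0
          · subst hbB
            rw [hπ', Dd_mrg_B π i0 j0 h0, Dd_mrg_B π i0 j0 h0]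
            simp
          · rw [hπ', Dd_mrg_o π i0 j0 h0 _ _ hv1 b hbA hbB, Dd_mrg_o π i0 j0 h0 _ _ hv2 b hbA hbB]
            obtain ⟨a1, a2⟩ := hfb f hf b
            refine ⟨a1.trans ?_, a2⟩
            push_cast
            have : (0 : ℤ) ≤ K := Int.natCast_nonneg K
            linarith
    · change hh f ∈ Fintype.piFinset fun _ : R => P
      rw [Fintype.mem_piFinset]
      rintro ⟨⟨i, j⟩, hc⟩
      have h1 : (i, j) ∈ Act := (Finset.mem_sdiff.1 (Finset.mem_of_mem_erase hc)).1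
      rw [hAct, Finset.mem_filter] at h1
      exact hfP f hf i j h1.2
    · change tt f ∈ Finset.range (2 * K + 1)
      rw [Finset.mem_range]
      simp only [htt]
      have h1 := abs_le.1 (hfb f hf (π j0)).1
      omega
  have hinj : Set.InjOn Φ (F : Set (Fin k → Fin k → ℕ × ℕ)) := by
    intro f hf f' hf' heq
    have hf1 : f ∈ F := hf
    have hf1' : f' ∈ F := hf'
    simp only [hΦ, Prod.mk.injEq] at heq
    obtain ⟨e1, e2, e3⟩ := heq
    have hne : ∀ i j, ¬ (i = i0 ∧ j = j0) → f i j = f' i j := by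
      intro i j hij
      by_cases h1 : π i = π j
      · rw [hf0 f hf1 i j h1, hf0 f' hf1' i j h1]
      · by_cases h2 : π' i = π' j
        · have hc : (i, j) ∈ R := by
            rw [hR, Finset.mem_erase, Finset.mem_sdiff, hAct, hAct', Finset.mem_filter, Finset.mem_filter]
            refine ⟨fun h3 => hij ?_, ⟨Finset.mem_univ _, h1⟩, fun h3 => h3.2 h2⟩
            rw [Prod.mk.injEq] at h3
            exact h3
          exact congrFun e2 ⟨(i, j), hc⟩
        · have h3 := congrFun (congrFun e1 i) j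
          simp only [hgg] at h3
          rwa [if_neg h2, if_neg h2] at h3
    have hx : ((f i0 j0).1 : ℤ) = ((f' i0 j0).1 : ℤ) := by
      refine Dd_inj π i0 j0 h0 (fun i j => ((f i j).1 : ℤ)) (fun i j => ((f' i j).1 : ℤ)) ?_ ?_
      · intro i j hij
        simp only [hne i j hij]
      · have h1 := abs_le.1 (hfb f hf1 (π j0)).1
        have h2 := abs_le.1 (hfb f' hf1' (π j0)).1
        simp only [htt] at e3
        omega
    have ha : ((f i0 j0).2 : ℤ) = ((f' i0 j0).2 : ℤ) := by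
      refine Dd_inj π i0 j0 h0 (fun i j => ((f i j).2 : ℤ)) (fun i j => ((f' i j).2 : ℤ)) ?_ ?_
      · intro i j hij
        simp only [hne i j hij]
      · rw [(hfb f hf1 (π j0)).2, (hfb f' hf1' (π j0)).2]
    funext i j
    by_cases hij : i = i0 ∧ j = j0
    · obtain ⟨rfl, rfl⟩ := hij
      exact Prod.ext (by exact_mod_cast hx) (by exact_mod_cast ha)
    · exact hne i j hij
  have hwt : ∀ f ∈ F, wt om π f ≤ Mx * ω (Φ f) := by
    intro f hf
    have h1 : wt om π f = (om (f i0 j0).1 (f i0 j0).2 * ∏ c ∈ R, om (f c.1 c.2).1 (f c.1 c.2).2) *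
        ∏ c ∈ Act', om (f c.1 c.2).1 (f c.1 c.2).2 := by
      rw [wt_eq, ← Finset.prod_sdiff hsub, ← Finset.mul_prod_erase _ _ hc0]
    have h2 : wt om π' (gg f) = ∏ c ∈ Act', om (f c.1 c.2).1 (f c.1 c.2).2 := by
      rw [wt_eq]
      refine Finset.prod_congr rfl fun c hc => ?_
      rw [Finset.mem_filter] at hc
      simp only [hgg]
      rw [if_neg hc.2]
    have h3 : ∏ c : R, om (hh f c).1 (hh f c).2 = ∏ c ∈ R, om (f c.1 c.2).1 (f c.1 c.2).2 :=
      Finset.prod_coe_sort R (fun c => om (f c.1 c.2).1 (f c.1 c.2).2)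
    have h4 : om (f i0 j0).1 (f i0 j0).2 ≤ Mx := by
      have h5 := hfP f hf i0 j0 h0
      rw [hP, Finset.mem_product, Finset.mem_range] at h5
      have h6 := (Finset.mem_filter.1 hf).2
      refine hM _ _ h6 ?_
      have := h5.1
      omega
    have h7 : ω (Φ f) = wt om π' (gg f) * ∏ c : R, om (hh f c).1 (hh f c).2 := rfl
    rw [h7, h3, h2, h1]
    have h8 : 0 ≤ ∏ c ∈ R, om (f c.1 c.2).1 (f c.1 c.2).2 := Finset.prod_nonneg fun c _ => hom _ _
    have h9 : 0 ≤ ∏ c ∈ Act', om (f c.1 c.2).1 (f c.1 c.2).2 := Finset.prod_nonneg fun c _ => hom _ _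
    have h10 := mul_le_mul_of_nonneg_right (mul_le_mul_of_nonneg_right h4 h8) h9
    linarith
  have hω0 : ∀ x, 0 ≤ ω x := fun x =>
    mul_nonneg (wt_nonneg hom _ _) (Finset.prod_nonneg fun c _ => hom _ _)
  have hsum1 : ∑ f ∈ F, wt om π f ≤ Mx * ∑ x ∈ T, ω x := by
    calc ∑ f ∈ F, wt om π f ≤ ∑ f ∈ F, Mx * ω (Φ f) := Finset.sum_le_sum hwt
      _ = Mx * ∑ f ∈ F, ω (Φ f) := by rw [Finset.mul_sum]
      _ = Mx * ∑ x ∈ F.image Φ, ω x := by rw [Finset.sum_image hinj]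
      _ ≤ Mx * ∑ x ∈ T, ω x := by
        refine mul_le_mul_of_nonneg_left ?_ hM0
        refine Finset.sum_le_sum_of_subset_of_nonneg ?_ (fun x _ _ => hω0 x)
        intro x hx
        obtain ⟨f, hf, rfl⟩ := Finset.mem_image.1 hx
        exact hmaps f hf
  have hsum2 : ∑ x ∈ T, ω x = (∑ g ∈ LS k (2 * K) π' (e + 1) G, wt om π' g) *
      ((2 * (K : ℝ) + 1) * ∏ _c : R, ∑ p ∈ P, om p.1 p.2) := by
    rw [hT, Finset.sum_product, Finset.sum_mul]
    refine Finset.sum_congr rfl fun g _ => ?_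
    rw [Finset.prod_univ_sum, Finset.sum_product, Finset.mul_sum, Finset.mul_sum]
    refine Finset.sum_congr rfl fun p _ => ?_
    simp only [hω, Finset.sum_const, Finset.card_range, nsmul_eq_mul]
    push_cast
    ring
  have hP2 : ∑ p ∈ P, om p.1 p.2 ≤ S := by
    rw [hP, Finset.sum_product]
    exact hS
  have hP0 : 0 ≤ ∑ p ∈ P, om p.1 p.2 := Finset.sum_nonneg fun p _ => hom _ _
  have hprod : ∏ _c : R, ∑ p ∈ P, om p.1 p.2 ≤ S ^ (nact π - nact π' - 1) := by
    rw [Finset.prod_const, Finset.card_univ, Fintype.card_coe, hRcard]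
    exact pow_le_pow_left₀ hP0 hP2 _
  refine hsum1.trans ?_
  rw [hsum2]
  have hL0 : 0 ≤ ∑ g ∈ LS k (2 * K) π' (e + 1) G, wt om π' g :=
    Finset.sum_nonneg fun g _ => wt_nonneg hom _ _
  have hK0 : (0:ℝ) ≤ 2 * (K : ℝ) + 1 := by positivity
  have h11 := mul_le_mul_of_nonneg_left (mul_le_mul_of_nonneg_left
    (mul_le_mul_of_nonneg_left hprod hK0) hL0) hM0
  calc _ ≤ _ := h11
    _ = _ := by ring

theorem lattice_step {k K : ℕ} (om : ℕ → ℕ → ℝ) (hom : ∀ x a, 0 ≤ om x a) (π : Fin k → Fin k)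
    (e G : ℕ) {S Mx : ℝ} (hS0 : 0 ≤ S) (hM0 : 0 ≤ Mx)
    (hS : ∑ x ∈ Finset.range (2 ^ (e + 1) - 1), ∑ a ∈ Finset.range G, om x a ≤ S)
    (hM : ∀ x a, 2 ^ e ≤ x + 1 → x + 1 < 2 ^ (e + 1) → om x a ≤ Mx) :
    ∑ f ∈ (LS k K π (e + 1) G).filter (fun f => ∃ i j, π i ≠ π j ∧ 2 ^ e ≤ (f i j).1 + 1),
      wt om π f ≤
    ∑ i0, ∑ j0, if π i0 = π j0 then 0 else
      (2 * (K : ℝ) + 1) * Mx * S ^ (nact π - nact (mrg π i0 j0) - 1) *
        ∑ g ∈ LS k (2 * K) (mrg π i0 j0) (e + 1) G, wt om (mrg π i0 j0) g := by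
  classical
  have h1 : ∑ f ∈ (LS k K π (e + 1) G).filter (fun f => ∃ i j, π i ≠ π j ∧ 2 ^ e ≤ (f i j).1 + 1),
      wt om π f ≤ ∑ f ∈ LS k K π (e + 1) G, ∑ i0, ∑ j0, (if π i0 = π j0 then 0 else
        if 2 ^ e ≤ (f i0 j0).1 + 1 then wt om π f else 0) := by
    rw [Finset.sum_filter]
    refine Finset.sum_le_sum fun f _ => ?_
    have hnn : ∀ i0 j0, 0 ≤ (if π i0 = π j0 then 0 else
        if 2 ^ e ≤ (f i0 j0).1 + 1 then wt om π f else 0) := by
      intro i0 j0
      split_ifs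
      · exact le_refl _
      · exact wt_nonneg hom _ _
      · exact le_refl _
    split_ifs with hex
    · obtain ⟨i, j, hij, hle⟩ := hex
      calc wt om π f = (if π i = π j then 0 else
            if 2 ^ e ≤ (f i j).1 + 1 then wt om π f else 0) := by rw [if_neg hij, if_pos hle]
        _ ≤ ∑ j0, (if π i = π j0 then 0 else
            if 2 ^ e ≤ (f i j0).1 + 1 then wt om π f else 0) :=
          Finset.single_le_sum (f := fun j0 => (if π i = π j0 then 0 else
            if 2 ^ e ≤ (f i j0).1 + 1 then wt om π f else 0)) (fun j0 _ => hnn i j0) (Finset.mem_univ j)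
        _ ≤ _ := Finset.single_le_sum (f := fun i0 => ∑ j0, (if π i0 = π j0 then 0 else
            if 2 ^ e ≤ (f i0 j0).1 + 1 then wt om π f else 0))
            (fun i0 _ => Finset.sum_nonneg fun j0 _ => hnn i0 j0) (Finset.mem_univ i)
    · exact Finset.sum_nonneg fun i0 _ => Finset.sum_nonneg fun j0 _ => hnn i0 j0
  refine h1.trans ?_
  rw [Finset.sum_comm]
  refine Finset.sum_le_sum fun i0 _ => ?_
  rw [Finset.sum_comm]
  refine Finset.sum_le_sum fun j0 _ => ?_
  by_cases h0 : π i0 = π j0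
  · simp [h0]
  · rw [if_neg h0]
    simp only [if_neg h0]
    rw [← Finset.sum_filter]
    exact cell_bound om hom π e G hS0 hM0 hS hM i0 j0 h0

end Pool.Agent.Helper256.KM
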