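import Mathlib
import Pool.Agent.Helper256.KM.Defs

set_option autoImplicit false

namespace Pool.Agent.Helper256.KM

open Finset ArithmeticFunction

theorem nact_eq {k : ℕ} (π : Fin k → Fin k) :
    (nact π : ℤ) = k * k - ∑ b ∈ Finset.univ.image π,
      ((Finset.univ.filter (fun i => π i = b)).card : ℤ) * (Finset.univ.filter (fun i => π i = b)).card := by
  have h1 : (Finset.univ.filter (fun c : Fin k × Fin k => π c.1 = π c.2)).card + nact π = k * k := by
    unfold nact
    rw [Finset.card_filter_add_card_filter_not, Finset.card_univ, Fintype.card_prod, Fintype.card_fin]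
  have h2 : (Finset.univ.filter (fun c : Fin k × Fin k => π c.1 = π c.2)).card =
      ∑ b ∈ Finset.univ.image π, (Finset.univ.filter (fun i => π i = b)).card *
        (Finset.univ.filter (fun i => π i = b)).card := by
    have h3 : (Finset.univ.filter (fun c : Fin k × Fin k => π c.1 = π c.2)).card =
        ∑ i : Fin k, (Finset.univ.filter (fun j => π j = π i)).card := by
      rw [Finset.card_filter, ← Finset.univ_product_univ, Finset.sum_product]
      refine Finset.sum_congr rfl fun i _ => ?_
      rw [Finset.card_filter]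
      refine Finset.sum_congr rfl fun j _ => ?_
      simp only [eq_comm]
    rw [h3, ← Finset.sum_fiberwise_of_maps_to (g := π) (t := Finset.univ.image π)
      (fun i _ => Finset.mem_image_of_mem π (Finset.mem_univ i))]
    refine Finset.sum_congr rfl fun b _ => ?_
    rw [Finset.sum_congr rfl (g := fun _ => (Finset.univ.filter (fun j => π j = b)).card)
      (fun i hi => by rw [(Finset.mem_filter.1 hi).2]), Finset.sum_const, smul_eq_mul]
  rw [h2] at h1
  have h4 : ((∑ b ∈ Finset.univ.image π, (Finset.univ.filter (fun i => π i = b)).card *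
        (Finset.univ.filter (fun i => π i = b)).card : ℕ) : ℤ) + (nact π : ℤ) = (k : ℤ) * k := by
    exact_mod_cast h1
  push_cast at h4
  linarith

theorem nact_lower {k : ℕ} (π : Fin k → Fin k) (h2 : 2 ≤ ncl π) (hk : ncl π + 1 ≤ k) :
    k * (ncl π - 1) + (k - 2) ≤ nact π := by
  set B := Finset.univ.image π with hB
  set c := ncl π with hc
  have hcB : B.card = c := rfl
  set nb : Fin k → ℕ := fun b => (Finset.univ.filter (fun i => π i = b)).card with hnb
  have hpos : ∀ b ∈ B, 1 ≤ nb b := by
    intro b hb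
    obtain ⟨i, _, hi⟩ := Finset.mem_image.1 hb
    exact Finset.card_pos.2 ⟨i, Finset.mem_filter.2 ⟨Finset.mem_univ _, hi⟩⟩
  have hsum : ∑ b ∈ B, nb b = k := by
    have := Finset.card_eq_sum_card_fiberwise (f := π) (s := Finset.univ) (t := B)
      (fun i _ => Finset.mem_image_of_mem π (Finset.mem_univ i))
    rw [Finset.card_univ, Fintype.card_fin] at this
    exact this.symm
  have hup : ∀ b ∈ B, nb b + (c - 1) ≤ k := by
    intro b hb
    have h1 : nb b + ∑ b' ∈ B.erase b, nb b' = k :=
      (Finset.add_sum_erase B nb hb).trans hsum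
    have h3 : (B.erase b).card ≤ ∑ b' ∈ B.erase b, nb b' := by
      rw [Finset.card_eq_sum_ones]
      exact Finset.sum_le_sum fun b' hb' => hpos b' (Finset.mem_of_mem_erase hb')
    rw [Finset.card_erase_of_mem hb, hcB] at h3
    omega
  have hkey : ∑ b ∈ B, ((nb b : ℤ) * nb b) ≤ ((k : ℤ) - c + 2) * k - c * ((k : ℤ) - c + 1) := by
    have h1 : ∀ b ∈ B, (nb b : ℤ) * nb b ≤ ((k : ℤ) - c + 2) * nb b - ((k : ℤ) - c + 1) := by
      intro b hb
      have a1 : (1 : ℤ) ≤ nb b := by exact_mod_cast hpos b hb
      have a2 : (nb b : ℤ) + (c - 1) ≤ k := by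
        have := hup b hb
        omega
      nlinarith
    have h3 := Finset.sum_le_sum h1
    rw [Finset.sum_sub_distrib, ← Finset.mul_sum, Finset.sum_const, hcB, nsmul_eq_mul] at h3
    have h4 : ∑ b ∈ B, (nb b : ℤ) = k := by exact_mod_cast hsum
    rw [h4] at h3
    exact h3
  have heq := nact_eq π
  have hfin : (k : ℤ) * (c - 1) + (k - 2) ≤ nact π := by
    rw [heq]
    have c2 : (2 : ℤ) ≤ c := by exact_mod_cast h2
    have ck : (c : ℤ) + 1 ≤ k := by exact_mod_cast hk
    have hkey' : ∑ b ∈ Finset.univ.image π, ((Finset.univ.filter (fun i => π i = b)).card : ℤ) *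
        (Finset.univ.filter (fun i => π i = b)).card ≤
        ((k : ℤ) - c + 2) * k - c * ((k : ℤ) - c + 1) := hkey
    nlinarith [mul_nonneg (sub_nonneg.2 c2) (sub_nonneg.2 ck)]
  have e1 : ((k * (c - 1) + (k - 2) : ℕ) : ℤ) = (k : ℤ) * (c - 1) + (k - 2) := by
    rw [Nat.cast_add, Nat.cast_mul, Nat.cast_sub (by omega), Nat.cast_sub (by omega)]
    push_cast; ring
  have : ((k * (c - 1) + (k - 2) : ℕ) : ℤ) ≤ (nact π : ℤ) := by rw [e1]; exact hfin
  exact_mod_cast this

theorem ncl_mrg {k : ℕ} (π : Fin k → Fin k) {i0 j0 : Fin k} (h : π i0 ≠ π j0) :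
    ncl (mrg π i0 j0) + 1 = ncl π := by
  have e : Finset.univ.image (mrg π i0 j0) = (Finset.univ.image π).erase (π j0) := by
    ext b
    simp only [Finset.mem_image, Finset.mem_univ, true_and, Finset.mem_erase]
    constructor
    · rintro ⟨i, hi⟩
      unfold mrg at hi
      by_cases h1 : π i = π j0
      · rw [if_pos h1] at hi
        exact ⟨by rw [← hi]; exact h, i0, hi⟩
      · rw [if_neg h1] at hi
        exact ⟨by rw [← hi]; exact h1, i, hi⟩
    · rintro ⟨hb, i, hi⟩
      refine ⟨i, ?_⟩
      unfold mrg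
      rw [if_neg (by rw [hi]; exact hb), hi]
  unfold ncl
  rw [e]
  exact Finset.card_erase_add_one (Finset.mem_image_of_mem π (Finset.mem_univ j0))

theorem mrg_inactive {k : ℕ} (π : Fin k → Fin k) {i0 j0 : Fin k} (h : π i0 ≠ π j0) :
    mrg π i0 j0 i0 = mrg π i0 j0 j0 := by
  unfold mrg
  rw [if_neg h, if_pos rfl]

theorem nact_mrg {k : ℕ} (π : Fin k → Fin k) {i0 j0 : Fin k} (h : π i0 ≠ π j0) :
    nact (mrg π i0 j0) + 2 ≤ nact π := by
  have hij : i0 ≠ j0 := fun e => h (by rw [e])
  have hpair : ({(i0, j0), (j0, i0)} : Finset (Fin k × Fin k)).card = 2 := by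
    rw [Finset.card_pair]
    intro e
    exact hij (Prod.mk.inj e).1
  have hd : Disjoint (Finset.univ.filter (fun c : Fin k × Fin k => mrg π i0 j0 c.1 ≠ mrg π i0 j0 c.2))
      {(i0, j0), (j0, i0)} := by
    rw [Finset.disjoint_left]
    intro c hc hc'
    rw [Finset.mem_filter] at hc
    rw [Finset.mem_insert, Finset.mem_singleton] at hc'
    rcases hc' with rfl | rfl
    · exact hc.2 (mrg_inactive π h)
    · exact hc.2 (mrg_inactive π h).symm
  unfold nact
  rw [← hpair, ← Finset.card_union_of_disjoint hd]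
  apply Finset.card_le_card
  intro c hc
  rw [Finset.mem_union, Finset.mem_filter, Finset.mem_insert, Finset.mem_singleton] at hc
  rw [Finset.mem_filter]
  refine ⟨Finset.mem_univ _, ?_⟩
  rcases hc with hc | rfl | rfl
  · intro e
    apply hc.2
    unfold mrg
    rw [e]
  · exact h
  · exact h.symm

theorem nact_id (k : ℕ) : nact (fun i : Fin k => i) = k * (k - 1) ∧
    ∀ i0 j0 : Fin k, i0 ≠ j0 → nact (mrg (fun i : Fin k => i) i0 j0) + 2 = k * (k - 1) ∧
      ncl (mrg (fun i : Fin k => i) i0 j0) + 1 = k := by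
  have h1 : nact (fun i : Fin k => i) = k * (k - 1) := by
    unfold nact
    have e : (Finset.univ.filter (fun c : Fin k × Fin k => c.1 ≠ c.2)) = (Finset.univ : Finset (Fin k)).offDiag := by
      ext c
      simp [Finset.mem_offDiag]
    rw [e, Finset.offDiag_card, Finset.card_univ, Fintype.card_fin, Nat.mul_sub_one]
  refine ⟨h1, fun i0 j0 hij => ⟨?_, ?_⟩⟩
  · rw [← h1]
    have hpair : ({(i0, j0), (j0, i0)} : Finset (Fin k × Fin k)).card = 2 := by
      rw [Finset.card_pair]
      intro e
      exact hij (Prod.mk.inj e).1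
    have hd : Disjoint (Finset.univ.filter (fun c : Fin k × Fin k =>
        mrg (fun i : Fin k => i) i0 j0 c.1 ≠ mrg (fun i : Fin k => i) i0 j0 c.2))
        {(i0, j0), (j0, i0)} := by
      rw [Finset.disjoint_left]
      intro c hc hc'
      rw [Finset.mem_filter] at hc
      rw [Finset.mem_insert, Finset.mem_singleton] at hc'
      rcases hc' with rfl | rfl
      · exact hc.2 (mrg_inactive (fun i : Fin k => i) hij)
      · exact hc.2 (mrg_inactive (fun i : Fin k => i) hij).symm
    unfold nact
    rw [← hpair, ← Finset.card_union_of_disjoint hd]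
    congr 1
    ext ⟨p, q⟩
    simp only [Finset.mem_union, Finset.mem_filter, Finset.mem_univ, true_and, Finset.mem_insert,
      Finset.mem_singleton, Prod.mk.injEq, mrg]
    constructor
    · rintro (hc | ⟨rfl, rfl⟩ | ⟨rfl, rfl⟩)
      · rintro rfl
        exact hc rfl
      · exact hij
      · exact hij.symm
    · intro hpq
      by_cases hp : p = j0
      · by_cases hq : q = i0
        · right; right; exact ⟨hp, hq⟩
        · left
          have hqj : q ≠ j0 := fun e => hpq (by rw [hp, e])
          rw [if_pos hp, if_neg hqj]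
          exact fun e => hq e.symm
      · by_cases hq : q = j0
        · by_cases hp' : p = i0
          · right; left; exact ⟨hp', hq⟩
          · left
            rw [if_neg hp, if_pos hq]
            exact hp'
        · left
          rw [if_neg hp, if_neg hq]
          exact hpq
  · rw [ncl_mrg (fun i : Fin k => i) hij]
    unfold ncl
    rw [Finset.image_id', Finset.card_univ, Fintype.card_fin]

end Pool.Agent.Helper256.KM
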