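import Mathlib
import Pool.Agent.Helper256.KM.Defs
import Pool.Agent.Helper256.KM.L1
import Pool.Agent.Helper256.KM.L2

set_option autoImplicit false

namespace Pool.Agent.Helper256.KM

open Finset ArithmeticFunction

/-- standing assumptions of the lattice bound -/
def L3Cond (k : ℕ) (C1 ρ : ℝ) (om : ℕ → ℕ → ℝ) : Prop :=
  (1 - 1 / (4 * (k : ℝ))) / k ≤ ρ ∧ ρ ≤ (1 + 1 / (4 * (k : ℝ))) / k ∧ (∀ x a, 0 ≤ om x a) ∧
    (∀ x G : ℕ, ∑ a ∈ Finset.range G, om x a ≤ C1 * ((1 : ℝ) + x) ^ (ρ - 1)) ∧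
    (∀ x a : ℕ, om x a ≤ C1 * ((1 : ℝ) + x) ^ (ρ - 1) * (1 + Real.log (1 + x)) ^ (-(1 / 2 : ℝ)))

theorem L3_sum_rpow {ρ : ℝ} (h0 : 0 < ρ) (h1 : ρ ≤ 1) (N : ℕ) :
    ∑ x ∈ Finset.range N, ((1 : ℝ) + x) ^ (ρ - 1) ≤ (N : ℝ) ^ ρ / ρ := by
  induction N with
  | zero => simp [Real.zero_rpow h0.ne']
  | succ N ih =>
    rw [Finset.sum_range_succ]
    have hN : (0 : ℝ) < (N : ℝ) + 1 := by positivity
    have hb := _root_.rpow_one_add_le_one_add_mul_self (s := -1 / ((N : ℝ) + 1)) (p := ρ)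
      (by rw [le_div_iff₀ hN]; nlinarith [Nat.cast_nonneg (α := ℝ) N]) h0.le h1
    have e1 : (1 : ℝ) + -1 / ((N : ℝ) + 1) = N / (N + 1) := by field_simp; ring
    rw [e1, Real.div_rpow (Nat.cast_nonneg N) hN.le] at hb
    have hp : (0 : ℝ) < ((N : ℝ) + 1) ^ ρ := Real.rpow_pos_of_pos hN _
    rw [div_le_iff₀ hp] at hb
    have e2 : ((1 : ℝ) + N) ^ (ρ - 1) = ((N : ℝ) + 1) ^ ρ / (N + 1) := by
      rw [add_comm, Real.rpow_sub_one hN.ne']
    rw [e2]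
    have e3 : (1 + ρ * (-1 / ((N : ℝ) + 1))) * ((N : ℝ) + 1) ^ ρ =
        ((N : ℝ) + 1) ^ ρ - ρ * (((N : ℝ) + 1) ^ ρ / (N + 1)) := by
      field_simp
      ring
    rw [e3] at hb
    have e4 : (((N + 1 : ℕ) : ℝ)) ^ ρ / ρ = ((N : ℝ) + 1) ^ ρ / ρ := by push_cast; ring
    rw [e4, le_div_iff₀ h0]
    have h5 : (N : ℝ) ^ ρ / ρ * ρ = (N : ℝ) ^ ρ := by field_simp
    nlinarith

theorem L3_rho {k : ℕ} (hk : 3 ≤ k) {C1 ρ : ℝ} {om : ℕ → ℕ → ℝ} (h : L3Cond k C1 ρ om) :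
    0 < ρ ∧ ρ ≤ 1 ∧ 1 / ρ ≤ 2 * k := by
  have hk' : (3 : ℝ) ≤ k := by exact_mod_cast hk
  have hk0 : (0 : ℝ) < k := by linarith
  obtain ⟨h1, h2, -⟩ := h
  have h3 : 1 / (4 * (k : ℝ)) ≤ 1 / 2 := by
    rw [div_le_div_iff₀ (by positivity) (by norm_num)]; linarith
  have h4 : 1 / (2 * (k : ℝ)) ≤ ρ := by
    refine le_trans ?_ h1
    rw [div_le_div_iff₀ (by positivity) hk0]
    nlinarith
  have h5 : 0 < ρ := lt_of_lt_of_le (by positivity) h4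
  refine ⟨h5, ?_, ?_⟩
  · refine h2.trans ?_
    rw [div_le_one hk0]; linarith
  · rw [div_le_iff₀ (by positivity)] at h4 ⊢
    linarith

theorem L3_S {k : ℕ} (hk : 3 ≤ k) {C1 ρ : ℝ} (hC1 : 1 ≤ C1) {om : ℕ → ℕ → ℝ}
    (h : L3Cond k C1 ρ om) (e G : ℕ) :
    ∑ x ∈ Finset.range (2 ^ (e + 1) - 1), ∑ a ∈ Finset.range G, om x a ≤
      2 * k * C1 * (2 : ℝ) ^ (ρ * ((e : ℝ) + 1)) := by
  obtain ⟨hρ0, hρ1, hρ2⟩ := L3_rho hk h
  obtain ⟨-, -, -, h4, -⟩ := h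
  calc ∑ x ∈ Finset.range (2 ^ (e + 1) - 1), ∑ a ∈ Finset.range G, om x a
      ≤ ∑ x ∈ Finset.range (2 ^ (e + 1) - 1), C1 * ((1 : ℝ) + x) ^ (ρ - 1) :=
        Finset.sum_le_sum fun x _ => h4 x G
    _ = C1 * ∑ x ∈ Finset.range (2 ^ (e + 1) - 1), ((1 : ℝ) + x) ^ (ρ - 1) := by
        rw [Finset.mul_sum]
    _ ≤ C1 * ((((2 ^ (e + 1) - 1 : ℕ) : ℝ)) ^ ρ / ρ) :=
        mul_le_mul_of_nonneg_left (L3_sum_rpow hρ0 hρ1 _) (by linarith)
    _ ≤ C1 * ((((2 : ℝ) ^ (e + 1))) ^ ρ / ρ) := by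
        apply mul_le_mul_of_nonneg_left _ (by linarith)
        apply div_le_div_of_nonneg_right _ hρ0.le
        apply Real.rpow_le_rpow (Nat.cast_nonneg _) _ hρ0.le
        have : ((2 ^ (e + 1) - 1 : ℕ) : ℝ) ≤ ((2 ^ (e + 1) : ℕ) : ℝ) := by
          exact_mod_cast Nat.sub_le _ _
        simpa using this
    _ = C1 * (2 : ℝ) ^ (ρ * ((e : ℝ) + 1)) * (1 / ρ) := by
        rw [← Real.rpow_natCast 2 (e + 1), ← Real.rpow_mul (by norm_num)]
        push_cast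
        rw [mul_comm ρ]; ring
    _ ≤ C1 * (2 : ℝ) ^ (ρ * ((e : ℝ) + 1)) * (2 * k) := by
        apply mul_le_mul_of_nonneg_left hρ2
        have := Real.rpow_pos_of_pos (show (0 : ℝ) < 2 by norm_num) (ρ * ((e : ℝ) + 1))
        positivity
    _ = _ := by ring

theorem L3_M {k : ℕ} (hk : 3 ≤ k) {C1 ρ : ℝ} (hC1 : 1 ≤ C1) {om : ℕ → ℕ → ℝ}
    (h : L3Cond k C1 ρ om) (e : ℕ) :
    ∀ x a : ℕ, 2 ^ e ≤ x + 1 → x + 1 < 2 ^ (e + 1) →
      om x a ≤ 2 * C1 * (2 : ℝ) ^ ((e : ℝ) * (ρ - 1)) * (1 + (e : ℝ)) ^ (-(1 / 2 : ℝ)) := by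
  intro x a hx _
  obtain ⟨hρ0, hρ1, hρ2⟩ := L3_rho hk h
  obtain ⟨-, -, -, -, h5⟩ := h
  refine (h5 x a).trans ?_
  have hx' : (2 : ℝ) ^ e ≤ 1 + (x : ℝ) := by
    have : ((2 ^ e : ℕ) : ℝ) ≤ ((x + 1 : ℕ) : ℝ) := by exact_mod_cast hx
    push_cast at this; linarith
  have h2e : (0 : ℝ) < (2 : ℝ) ^ e := by positivity
  have a1 : ((1 : ℝ) + x) ^ (ρ - 1) ≤ (2 : ℝ) ^ ((e : ℝ) * (ρ - 1)) := by
    rw [Real.rpow_mul (by norm_num), Real.rpow_natCast]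
    exact Real.rpow_le_rpow_of_nonpos h2e hx' (by linarith)
  have hlog : (e : ℝ) / 2 ≤ Real.log (1 + x) := by
    have h6 : Real.log ((2 : ℝ) ^ e) ≤ Real.log (1 + x) := Real.log_le_log h2e hx'
    rw [Real.log_pow] at h6
    have h7 : (1 / 2 : ℝ) ≤ Real.log 2 := by
      have := Real.log_two_gt_d9; linarith
    nlinarith [Nat.cast_nonneg (α := ℝ) e]
  have he0 : (0 : ℝ) ≤ e := Nat.cast_nonneg e
  have a2 : (1 + Real.log (1 + x)) ^ (-(1 / 2 : ℝ)) ≤ 2 * (1 + (e : ℝ)) ^ (-(1 / 2 : ℝ)) := by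
    have b1 : (1 + Real.log (1 + x)) ^ (-(1 / 2 : ℝ)) ≤ ((1 + (e : ℝ)) / 2) ^ (-(1 / 2 : ℝ)) :=
      Real.rpow_le_rpow_of_nonpos (by positivity) (by linarith) (by norm_num)
    have b2 : ((1 + (e : ℝ)) / 2) ^ (-(1 / 2 : ℝ)) =
        (1 + (e : ℝ)) ^ (-(1 / 2 : ℝ)) / (2 : ℝ) ^ (-(1 / 2 : ℝ)) :=
      Real.div_rpow (by positivity) (by norm_num) _
    have b3 : (1 / 2 : ℝ) ≤ (2 : ℝ) ^ (-(1 / 2 : ℝ)) := by
      have : (2 : ℝ) ^ (-1 : ℝ) ≤ (2 : ℝ) ^ (-(1 / 2 : ℝ)) :=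
        Real.rpow_le_rpow_of_exponent_le (by norm_num) (by norm_num)
      rw [Real.rpow_neg_one] at this
      linarith
    have b4 : (0 : ℝ) ≤ (1 + (e : ℝ)) ^ (-(1 / 2 : ℝ)) := by positivity
    refine b1.trans ?_
    rw [b2, div_le_iff₀ (by positivity)]
    nlinarith
  have c0 : (0 : ℝ) ≤ ((1 : ℝ) + x) ^ (ρ - 1) := by positivity
  have c1 : (0 : ℝ) ≤ (2 : ℝ) ^ ((e : ℝ) * (ρ - 1)) := by positivity
  have c2 : (0 : ℝ) ≤ (1 + Real.log (1 + x)) ^ (-(1 / 2 : ℝ)) := by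
    apply Real.rpow_nonneg
    have : (0 : ℝ) ≤ (e : ℝ) / 2 := by positivity
    linarith
  calc C1 * ((1 : ℝ) + x) ^ (ρ - 1) * (1 + Real.log (1 + x)) ^ (-(1 / 2 : ℝ))
      ≤ (C1 * (2 : ℝ) ^ ((e : ℝ) * (ρ - 1))) * (2 * (1 + (e : ℝ)) ^ (-(1 / 2 : ℝ))) := by
        apply mul_le_mul _ a2 c2 (by positivity)
        exact mul_le_mul_of_nonneg_left a1 (by linarith)
    _ = _ := by ring

theorem L3_geo (k : ℕ) : ∃ C3 : ℝ, 0 < C3 ∧ ∀ β s : ℝ, 1 / 12 ≤ β → 0 ≤ s → s ≤ k → ∀ E : ℕ,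
    ∑ e ∈ Finset.range E, (2 : ℝ) ^ (β * ((e : ℝ) + 1)) * (1 + (e : ℝ)) ^ (-s) ≤
      C3 * (2 : ℝ) ^ (β * E) * (1 + (E : ℝ)) ^ (-s) := by
  set r : ℝ := (2 : ℝ) ^ (-(1 / 12 : ℝ)) with hr
  have hr0 : 0 < r := by positivity
  have hr1 : r < 1 := Real.rpow_lt_one_of_one_lt_of_neg (by norm_num) (by norm_num)
  have hsum0 : Summable fun m : ℕ => ((m : ℝ)) ^ k * r ^ m :=
    summable_pow_mul_geometric_of_norm_lt_one k (by rw [Real.norm_of_nonneg hr0.le]; exact hr1)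
  have hsum : Summable fun m : ℕ => ((m : ℝ) + 2) ^ k * r ^ m := by
    have h1 := ((summable_nat_add_iff 2).2 hsum0).mul_left (r ^ 2)⁻¹
    refine h1.congr fun m => ?_
    push_cast
    rw [pow_add]
    field_simp
  refine ⟨∑' m : ℕ, ((m : ℝ) + 2) ^ k * r ^ m + 1, ?_, ?_⟩
  · have : 0 ≤ ∑' m : ℕ, ((m : ℝ) + 2) ^ k * r ^ m := tsum_nonneg fun m => by positivity
    linarith
  intro β s hβ hs0 hsk E
  have key : ∀ e ∈ Finset.range E, (2 : ℝ) ^ (β * ((e : ℝ) + 1)) * (1 + (e : ℝ)) ^ (-s) ≤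
      ((((E - 1 - e : ℕ) : ℝ) + 2) ^ k * r ^ (E - 1 - e)) *
        ((2 : ℝ) ^ (β * E) * (1 + (E : ℝ)) ^ (-s)) := by
    intro e he
    have he' : e < E := Finset.mem_range.1 he
    set m := E - 1 - e with hm
    have hE : E = e + 1 + m := by omega
    have hEr : (E : ℝ) = e + 1 + m := by rw [hE]; push_cast; ring
    have he0 : (0 : ℝ) ≤ e := Nat.cast_nonneg e
    have hm0 : (0 : ℝ) ≤ m := Nat.cast_nonneg m
    have a1 : (2 : ℝ) ^ (β * ((e : ℝ) + 1)) ≤ r ^ m * (2 : ℝ) ^ (β * E) := by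
      rw [← Real.rpow_natCast r m, hr, ← Real.rpow_mul (by norm_num),
        ← Real.rpow_add (by norm_num)]
      apply Real.rpow_le_rpow_of_exponent_le (by norm_num)
      rw [hEr]
      nlinarith
    have a2 : (1 + (e : ℝ)) ^ (-s) ≤ ((m : ℝ) + 2) ^ k * (1 + (E : ℝ)) ^ (-s) := by
      have b1 : (1 + (e : ℝ)) ^ (-s) = ((m : ℝ) + 2) ^ s * ((1 + (e : ℝ)) * ((m : ℝ) + 2)) ^ (-s) := by
        rw [Real.mul_rpow (by positivity) (by positivity), mul_left_comm,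
          ← Real.rpow_add (by positivity)]
        simp
      have b2 : ((1 + (e : ℝ)) * ((m : ℝ) + 2)) ^ (-s) ≤ (1 + (E : ℝ)) ^ (-s) :=
        Real.rpow_le_rpow_of_nonpos (by positivity) (by rw [hEr]; nlinarith) (by linarith)
      have b3 : ((m : ℝ) + 2) ^ s ≤ ((m : ℝ) + 2) ^ k := by
        rw [← Real.rpow_natCast _ k]
        exact Real.rpow_le_rpow_of_exponent_le (by linarith) hsk
      rw [b1]
      exact mul_le_mul b3 b2 (by positivity) (by positivity)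
    calc (2 : ℝ) ^ (β * ((e : ℝ) + 1)) * (1 + (e : ℝ)) ^ (-s)
        ≤ (r ^ m * (2 : ℝ) ^ (β * E)) * (((m : ℝ) + 2) ^ k * (1 + (E : ℝ)) ^ (-s)) :=
          mul_le_mul a1 a2 (by positivity) (by positivity)
      _ = _ := by ring
  refine (Finset.sum_le_sum key).trans ?_
  rw [← Finset.sum_mul]
  have h3 : ∑ e ∈ Finset.range E, (((E - 1 - e : ℕ) : ℝ) + 2) ^ k * r ^ (E - 1 - e) ≤
      ∑' m : ℕ, ((m : ℝ) + 2) ^ k * r ^ m := by
    rw [Finset.sum_range_reflect (fun m : ℕ => ((m : ℝ) + 2) ^ k * r ^ m) E]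
    exact hsum.sum_le_tsum _ fun m _ => by positivity
  have h4 : (0 : ℝ) ≤ (2 : ℝ) ^ (β * E) * (1 + (E : ℝ)) ^ (-s) := by positivity
  rw [mul_assoc]
  exact mul_le_mul_of_nonneg_right (by linarith) h4

theorem L3_nact_le {k : ℕ} (π : Fin k → Fin k) : nact π ≤ k * k := by
  unfold nact
  refine (Finset.card_filter_le _ _).trans ?_
  simp

theorem L3_step {k K c : ℕ} (hk : 3 ≤ k) {C1 : ℝ} (hC1 : 1 ≤ C1) {C2 : ℝ} (hC2 : 0 < C2)
    (hIH : ∀ (ρ : ℝ) (om : ℕ → ℕ → ℝ), L3Cond k C1 ρ om →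
      ∀ π : Fin k → Fin k, ncl π = c → ∀ E G : ℕ,
      ∑ f ∈ LS k (2 * K) π E G, wt om π f ≤
        C2 * (2 : ℝ) ^ ((ρ * (nact π : ℝ) - ((c : ℝ) - 1)) * E) *
          (1 + (E : ℝ)) ^ (-(((c : ℝ) - 1) / 2)))
    (hc : 1 ≤ c) (ρ : ℝ) (om : ℕ → ℕ → ℝ) (h : L3Cond k C1 ρ om) (π : Fin k → Fin k)
    (hπ : ncl π = c + 1) (e G : ℕ) :
    ∑ f ∈ (LS k K π (e + 1) G).filter (fun f => ∃ i j, π i ≠ π j ∧ 2 ^ e ≤ (f i j).1 + 1),
      wt om π f ≤
    (k * (k * ((2 * (K : ℝ) + 1) * (2 * C1) * (2 * k * C1) ^ (k * k) * C2 * 2))) *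
      ((2 : ℝ) ^ ((ρ * (nact π : ℝ) - c) * ((e : ℝ) + 1)) * (1 + (e : ℝ)) ^ (-((c : ℝ) / 2))) := by
  obtain ⟨hρ0, hρ1, hρ2⟩ := L3_rho hk h
  have hom := h.2.2.1
  have hk' : (3 : ℝ) ≤ k := by exact_mod_cast hk
  have he0 : (0 : ℝ) ≤ e := Nat.cast_nonneg e
  have hc' : (1 : ℝ) ≤ c := by exact_mod_cast hc
  set S : ℝ := 2 * k * C1 * (2 : ℝ) ^ (ρ * ((e : ℝ) + 1)) with hS
  set Mx : ℝ := 2 * C1 * (2 : ℝ) ^ ((e : ℝ) * (ρ - 1)) * (1 + (e : ℝ)) ^ (-(1 / 2 : ℝ)) with hMx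
  set B : ℝ := ((2 * (K : ℝ) + 1) * (2 * C1) * (2 * k * C1) ^ (k * k) * C2 * 2) *
      ((2 : ℝ) ^ ((ρ * (nact π : ℝ) - c) * ((e : ℝ) + 1)) * (1 + (e : ℝ)) ^ (-((c : ℝ) / 2)))
    with hB
  have hC10 : (0 : ℝ) < C1 := by linarith
  have hB0 : 0 ≤ B := by rw [hB]; positivity
  have hstep := lattice_step (K := K) om hom π e G (S := S) (Mx := Mx)
    (by rw [hS]; positivity) (by rw [hMx]; positivity) (L3_S hk hC1 h e G) (L3_M hk hC1 h e)
  refine hstep.trans ?_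
  have hterm : ∀ i0 j0 : Fin k, (if π i0 = π j0 then (0 : ℝ) else
      (2 * (K : ℝ) + 1) * Mx * S ^ (nact π - nact (mrg π i0 j0) - 1) *
        ∑ g ∈ LS k (2 * K) (mrg π i0 j0) (e + 1) G, wt om (mrg π i0 j0) g) ≤ B := by
    intro i0 j0
    split_ifs with hij
    · exact hB0
    · have h1 := ncl_mrg π hij
      have h2 := nact_mrg π hij
      have h3 := L3_nact_le π
      have h4 := hIH ρ om h (mrg π i0 j0) (by omega) (e + 1) G
      set n := nact π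
      set n' := nact (mrg π i0 j0)
      set m := n - n' - 1 with hm
      have hmr : (m : ℝ) = n - n' - 1 := by
        have : n = n' + 1 + m := by omega
        rw [this]; push_cast; ring
      have hSm : S ^ m ≤ (2 * k * C1) ^ (k * k) * (2 : ℝ) ^ (ρ * ((e : ℝ) + 1) * m) := by
        rw [hS, mul_pow, ← Real.rpow_mul_natCast (by norm_num)]
        apply mul_le_mul_of_nonneg_right _ (by positivity)
        apply pow_le_pow_right₀ _ (by omega)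
        nlinarith
      have hdec : (1 + (((e + 1 : ℕ)) : ℝ)) ^ (-(((c : ℝ) - 1) / 2)) ≤
          (1 + (e : ℝ)) ^ (-(((c : ℝ) - 1) / 2)) := by
        apply Real.rpow_le_rpow_of_nonpos (by positivity) (by push_cast; linarith)
        have : 0 ≤ ((c : ℝ) - 1) / 2 := by linarith
        linarith
      have hZ : ∑ g ∈ LS k (2 * K) (mrg π i0 j0) (e + 1) G, wt om (mrg π i0 j0) g ≤
          C2 * (2 : ℝ) ^ ((ρ * (n' : ℝ) - ((c : ℝ) - 1)) * ((e : ℝ) + 1)) *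
            (1 + (e : ℝ)) ^ (-(((c : ℝ) - 1) / 2)) := by
        refine h4.trans ?_
        have : (((e + 1 : ℕ)) : ℝ) = (e : ℝ) + 1 := by push_cast; ring
        rw [this] at hdec ⊢
        exact mul_le_mul_of_nonneg_left hdec (by positivity)
      have hZ0 : 0 ≤ ∑ g ∈ LS k (2 * K) (mrg π i0 j0) (e + 1) G, wt om (mrg π i0 j0) g := by
        apply Finset.sum_nonneg
        intro g _
        unfold wt
        apply Finset.prod_nonneg; intro i _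
        apply Finset.prod_nonneg; intro j _
        split_ifs
        · norm_num
        · exact hom _ _
      have hMx0 : 0 ≤ Mx := by rw [hMx]; positivity
      have hS0 : 0 ≤ S := by rw [hS]; positivity
      calc (2 * (K : ℝ) + 1) * Mx * S ^ m *
            ∑ g ∈ LS k (2 * K) (mrg π i0 j0) (e + 1) G, wt om (mrg π i0 j0) g
          ≤ (2 * (K : ℝ) + 1) * Mx * ((2 * k * C1) ^ (k * k) * (2 : ℝ) ^ (ρ * ((e : ℝ) + 1) * m)) *
            (C2 * (2 : ℝ) ^ ((ρ * (n' : ℝ) - ((c : ℝ) - 1)) * ((e : ℝ) + 1)) *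
            (1 + (e : ℝ)) ^ (-(((c : ℝ) - 1) / 2))) := by
            apply mul_le_mul _ hZ hZ0 (by positivity)
            exact mul_le_mul_of_nonneg_left hSm (by positivity)
        _ = ((2 * (K : ℝ) + 1) * (2 * C1) * (2 * k * C1) ^ (k * k) * C2) *
            ((2 : ℝ) ^ ((e : ℝ) * (ρ - 1)) * (2 : ℝ) ^ (ρ * ((e : ℝ) + 1) * m) *
              (2 : ℝ) ^ ((ρ * (n' : ℝ) - ((c : ℝ) - 1)) * ((e : ℝ) + 1))) *
            ((1 + (e : ℝ)) ^ (-(1 / 2 : ℝ)) * (1 + (e : ℝ)) ^ (-(((c : ℝ) - 1) / 2))) := by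
            rw [hMx]; ring
        _ = ((2 * (K : ℝ) + 1) * (2 * C1) * (2 * k * C1) ^ (k * k) * C2) *
            ((2 : ℝ) ^ (1 - ρ) * (2 : ℝ) ^ ((ρ * (n : ℝ) - c) * ((e : ℝ) + 1))) *
            ((1 + (e : ℝ)) ^ (-((c : ℝ) / 2))) := by
            rw [← Real.rpow_add (show (0 : ℝ) < 2 by norm_num),
              ← Real.rpow_add (show (0 : ℝ) < 2 by norm_num),
              ← Real.rpow_add (show (0 : ℝ) < 2 by norm_num),
              ← Real.rpow_add (show (0 : ℝ) < 1 + (e : ℝ) by linarith)]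
            congr 2
            · congr 1
              rw [hmr]; ring_nf
            · ring_nf
        _ ≤ ((2 * (K : ℝ) + 1) * (2 * C1) * (2 * k * C1) ^ (k * k) * C2) *
            (2 * (2 : ℝ) ^ ((ρ * (n : ℝ) - c) * ((e : ℝ) + 1))) *
            ((1 + (e : ℝ)) ^ (-((c : ℝ) / 2))) := by
            apply mul_le_mul_of_nonneg_right _ (by positivity)
            apply mul_le_mul_of_nonneg_left _ (by positivity)
            apply mul_le_mul_of_nonneg_right _ (by positivity)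
            calc (2 : ℝ) ^ (1 - ρ) ≤ (2 : ℝ) ^ (1 : ℝ) :=
                  Real.rpow_le_rpow_of_exponent_le (by norm_num) (by linarith)
              _ = 2 := Real.rpow_one 2
        _ = B := by rw [hB]; ring
  calc ∑ i0, ∑ j0, (if π i0 = π j0 then (0 : ℝ) else
      (2 * (K : ℝ) + 1) * Mx * S ^ (nact π - nact (mrg π i0 j0) - 1) *
        ∑ g ∈ LS k (2 * K) (mrg π i0 j0) (e + 1) G, wt om (mrg π i0 j0) g)
      ≤ ∑ _i0 : Fin k, ∑ _j0 : Fin k, B :=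
        Finset.sum_le_sum fun i0 _ => Finset.sum_le_sum fun j0 _ => hterm i0 j0
    _ = _ := by
        simp only [Finset.sum_const, Finset.card_univ, Fintype.card_fin, nsmul_eq_mul]
        rw [hB]; ring

theorem L3_cover {k K : ℕ} (π : Fin k → Fin k) (hπ : 2 ≤ ncl π) (E G : ℕ) :
    LS k K π E G ⊆ (Finset.range E).biUnion fun e =>
      (LS k K π (e + 1) G).filter (fun f => ∃ i j, π i ≠ π j ∧ 2 ^ e ≤ (f i j).1 + 1) := by
  classical
  intro f hf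
  have hact : ∃ i j, π i ≠ π j := by
    by_contra hcon
    push_neg at hcon
    have : ncl π ≤ 1 := by
      unfold ncl
      apply Finset.card_le_one.2
      intro a ha b hb
      obtain ⟨i, -, rfl⟩ := Finset.mem_image.1 ha
      obtain ⟨j, -, rfl⟩ := Finset.mem_image.1 hb
      exact hcon i j
    omega
  let Act : Finset (Fin k × Fin k) := Finset.univ.filter fun p => π p.1 ≠ π p.2
  have hne : Act.Nonempty := by
    obtain ⟨i, j, hij⟩ := hact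
    exact ⟨(i, j), by simp [Act, hij]⟩
  obtain ⟨p, hp, hmax⟩ := Finset.exists_max_image Act (fun p => (f p.1 p.2).1 + 1) hne
  have hpa : π p.1 ≠ π p.2 := (Finset.mem_filter.1 hp).2
  unfold LS at hf
  rw [Finset.mem_filter, Fintype.mem_piFinset] at hf
  obtain ⟨hf1, hf2⟩ := hf
  have hcell : ∀ i j, f i j ∈ (if π i = π j then {((0 : ℕ), (0 : ℕ))} else
      Finset.range (2 ^ E - 1) ×ˢ Finset.range G) := by
    intro i j
    have := hf1 i
    rw [Fintype.mem_piFinset] at this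
    exact this j
  have hpE : (f p.1 p.2).1 + 1 < 2 ^ E := by
    have h1 := hcell p.1 p.2
    rw [if_neg hpa, Finset.mem_product, Finset.mem_range] at h1
    omega
  set X := (f p.1 p.2).1 + 1 with hX
  have hX0 : X ≠ 0 := by omega
  rw [Finset.mem_biUnion]
  refine ⟨Nat.log 2 X, ?_, ?_⟩
  · rw [Finset.mem_range]
    exact Nat.log_lt_of_lt_pow hX0 hpE
  · have hlow : 2 ^ Nat.log 2 X ≤ X := Nat.pow_log_le_self 2 hX0
    have hhigh : X < 2 ^ (Nat.log 2 X + 1) := Nat.lt_pow_succ_log_self (by norm_num) X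
    rw [Finset.mem_filter]
    refine ⟨?_, p.1, p.2, hpa, hlow⟩
    unfold LS
    rw [Finset.mem_filter, Fintype.mem_piFinset]
    refine ⟨?_, hf2⟩
    intro i
    rw [Fintype.mem_piFinset]
    intro j
    have h1 := hcell i j
    by_cases hij : π i = π j
    · rw [if_pos hij] at h1 ⊢; exact h1
    · rw [if_neg hij] at h1 ⊢
      rw [Finset.mem_product] at h1 ⊢
      refine ⟨?_, h1.2⟩
      have h2 : (f i j).1 + 1 ≤ X := hmax (i, j) (by simp [Act, hij])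
      rw [Finset.mem_range]
      omega

theorem L3_wt_nonneg {k : ℕ} {om : ℕ → ℕ → ℝ} (hom : ∀ x a, 0 ≤ om x a) (π : Fin k → Fin k)
    (f : Fin k → Fin k → ℕ × ℕ) : 0 ≤ wt om π f := by
  unfold wt
  apply Finset.prod_nonneg; intro i _
  apply Finset.prod_nonneg; intro j _
  split_ifs
  · norm_num
  · exact hom _ _

theorem L3_sum_biUnion_le {ι α : Type*} [DecidableEq α] (s : Finset ι) (t : ι → Finset α)
    (w : α → ℝ) (hw : ∀ a, 0 ≤ w a) :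
    ∑ a ∈ s.biUnion t, w a ≤ ∑ i ∈ s, ∑ a ∈ t i, w a := by
  classical
  induction s using Finset.induction_on with
  | empty => simp
  | insert i s hi ih =>
    rw [Finset.biUnion_insert, Finset.sum_insert hi]
    have h := Finset.sum_union_inter (s₁ := t i) (s₂ := s.biUnion t) (f := w)
    have h2 : 0 ≤ ∑ a ∈ t i ∩ s.biUnion t, w a := Finset.sum_nonneg fun a _ => hw a
    linarith

theorem L3_main {k : ℕ} (hk : 3 ≤ k) {C1 : ℝ} (hC1 : 1 ≤ C1) (c : ℕ) (hc1 : 1 ≤ c)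
    (hck : c + 1 ≤ k) : ∀ K : ℕ, ∃ C2 : ℝ, 0 < C2 ∧ ∀ (ρ : ℝ) (om : ℕ → ℕ → ℝ),
    L3Cond k C1 ρ om →
    ∀ π : Fin k → Fin k, ncl π = c → ∀ E G : ℕ,
    ∑ f ∈ LS k K π E G, wt om π f ≤
      C2 * (2 : ℝ) ^ ((ρ * (nact π : ℝ) - ((c : ℝ) - 1)) * E) *
        (1 + (E : ℝ)) ^ (-(((c : ℝ) - 1) / 2)) := by
  induction c, hc1 using Nat.le_induction with
  | base =>
    intro K
    refine ⟨1, one_pos, ?_⟩
    intro ρ om _ π hπ E G
    have hall : ∀ i j, π i = π j := by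
      intro i j
      unfold ncl at hπ
      exact Finset.card_le_one.1 hπ.le _ (Finset.mem_image_of_mem _ (Finset.mem_univ i)) _
        (Finset.mem_image_of_mem _ (Finset.mem_univ j))
    have hn : nact π = 0 := by
      unfold nact
      rw [Finset.card_eq_zero, Finset.filter_eq_empty_iff]
      intro p _
      simp [hall p.1 p.2]
    have hsub : LS k K π E G ⊆ {fun _ _ => ((0 : ℕ), (0 : ℕ))} := by
      intro f hf
      unfold LS at hf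
      rw [Finset.mem_filter, Fintype.mem_piFinset] at hf
      rw [Finset.mem_singleton]
      funext i j
      have := hf.1 i
      rw [Fintype.mem_piFinset] at this
      have := this j
      rw [if_pos (hall i j), Finset.mem_singleton] at this
      exact this
    have hw : ∀ f, wt om π f = 1 := by
      intro f
      unfold wt
      apply Finset.prod_eq_one; intro i _
      apply Finset.prod_eq_one; intro j _
      rw [if_pos (hall i j)]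
    calc ∑ f ∈ LS k K π E G, wt om π f = ∑ f ∈ LS k K π E G, (1 : ℝ) :=
          Finset.sum_congr rfl fun f _ => hw f
      _ = ((LS k K π E G).card : ℝ) := by simp
      _ ≤ 1 := by
          have := Finset.card_le_card hsub
          rw [Finset.card_singleton] at this
          exact_mod_cast this
      _ ≤ _ := by
          rw [hn]
          simp
  | succ c hc ih =>
    intro K
    obtain ⟨C2, hC2, hIH⟩ := ih (by omega) (2 * K)
    obtain ⟨C3, hC3, hgeo⟩ := L3_geo k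
    have hk' : (3 : ℝ) ≤ k := by exact_mod_cast hk
    have hk0 : (0 : ℝ) < k := by linarith
    have hC10 : (0 : ℝ) < C1 := by linarith
    set D : ℝ := (k * (k * ((2 * (K : ℝ) + 1) * (2 * C1) * (2 * k * C1) ^ (k * k) * C2 * 2)))
      with hD
    have hD0 : 0 < D := by rw [hD]; positivity
    refine ⟨D * C3, by positivity, ?_⟩
    intro ρ om h π hπ E G
    have hom := h.2.2.1
    have hnl := nact_lower π (by omega) (by omega)
    rw [hπ] at hnl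
    have hck' : ((c : ℝ) + 1 + 1) ≤ k := by exact_mod_cast hck
    have hβ : 1 / 12 ≤ ρ * (nact π : ℝ) - c := by
      have h1 := h.1
      have hnl' : (k : ℝ) * c + (k - 2) ≤ nact π := by
        have h2 : ((k * (c + 1 - 1) + (k - 2) : ℕ) : ℝ) ≤ ((nact π : ℕ) : ℝ) := by
          exact_mod_cast hnl
        rw [Nat.add_sub_cancel] at h2
        push_cast [Nat.cast_sub (show 2 ≤ k by omega)] at h2
        linarith
      have h3 : (1 - 1 / (4 * (k : ℝ))) / k * ((k : ℝ) * c + (k - 2)) ≤ ρ * (nact π : ℝ) := by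
        apply mul_le_mul h1 hnl' _ (L3_rho hk h).1.le
        have : (0 : ℝ) ≤ k * c := by positivity
        linarith
      have h4 : (c : ℝ) + 1 / 12 ≤ (1 - 1 / (4 * (k : ℝ))) / k * ((k : ℝ) * c + (k - 2)) := by
        have h5 : (1 - 1 / (4 * (k : ℝ))) / k * ((k : ℝ) * c + (k - 2)) =
            ((4 * k - 1) * (k * c + k - 2)) / (4 * k * k) := by field_simp; ring
        rw [h5, le_div_iff₀ (by positivity)]
        have hc0 : (0 : ℝ) ≤ c := Nat.cast_nonneg c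
        nlinarith [mul_nonneg (sub_nonneg.2 hk') (sub_nonneg.2 hk'),
          mul_nonneg hk0.le (sub_nonneg.2 hck')]
      linarith
    have hcs : (c : ℝ) / 2 ≤ k := by
      have : (0 : ℝ) ≤ c := Nat.cast_nonneg c
      linarith
    have hcast : (((c + 1 : ℕ) : ℝ) - 1) = c := by push_cast; ring
    rw [hcast]
    classical
    calc ∑ f ∈ LS k K π E G, wt om π f
        ≤ ∑ f ∈ (Finset.range E).biUnion fun e =>
            (LS k K π (e + 1) G).filter (fun f => ∃ i j, π i ≠ π j ∧ 2 ^ e ≤ (f i j).1 + 1),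
            wt om π f :=
          Finset.sum_le_sum_of_subset_of_nonneg (L3_cover π (by omega) E G)
            fun f _ _ => L3_wt_nonneg hom π f
      _ ≤ ∑ e ∈ Finset.range E, ∑ f ∈
            (LS k K π (e + 1) G).filter (fun f => ∃ i j, π i ≠ π j ∧ 2 ^ e ≤ (f i j).1 + 1),
            wt om π f := L3_sum_biUnion_le _ _ _ (fun f => L3_wt_nonneg hom π f)
      _ ≤ ∑ e ∈ Finset.range E, D *
            ((2 : ℝ) ^ ((ρ * (nact π : ℝ) - c) * ((e : ℝ) + 1)) *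
              (1 + (e : ℝ)) ^ (-((c : ℝ) / 2))) :=
          Finset.sum_le_sum fun e _ => L3_step hk hC1 hC2 hIH hc ρ om h π hπ e G
      _ = D * ∑ e ∈ Finset.range E,
            ((2 : ℝ) ^ ((ρ * (nact π : ℝ) - c) * ((e : ℝ) + 1)) *
              (1 + (e : ℝ)) ^ (-((c : ℝ) / 2))) := by rw [Finset.mul_sum]
      _ ≤ D * (C3 * (2 : ℝ) ^ ((ρ * (nact π : ℝ) - c) * E) * (1 + (E : ℝ)) ^ (-((c : ℝ) / 2))) :=
          mul_le_mul_of_nonneg_left (hgeo _ _ hβ (by positivity) hcs E) hD0.le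
      _ = _ := by ring

theorem lattice_bound {k : ℕ} (hk : 3 ≤ k) (c : ℕ) (hc1 : 1 ≤ c) (hck : c + 1 ≤ k) {C1 : ℝ}
    (hC1 : 1 ≤ C1) : ∀ K : ℕ, ∃ C2 : ℝ, 0 < C2 ∧ ∀ (ρ : ℝ) (om : ℕ → ℕ → ℝ),
    (1 - 1 / (4 * (k : ℝ))) / k ≤ ρ → ρ ≤ (1 + 1 / (4 * (k : ℝ))) / k → (∀ x a, 0 ≤ om x a) →
    (∀ x G : ℕ, ∑ a ∈ Finset.range G, om x a ≤ C1 * ((1 : ℝ) + x) ^ (ρ - 1)) →
    (∀ x a : ℕ, om x a ≤ C1 * ((1 : ℝ) + x) ^ (ρ - 1) * (1 + Real.log (1 + x)) ^ (-(1 / 2 : ℝ))) →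
    ∀ π : Fin k → Fin k, ncl π = c → ∀ E G : ℕ,
    ∑ f ∈ LS k K π E G, wt om π f ≤
      C2 * (2 : ℝ) ^ ((ρ * (nact π : ℝ) - ((c : ℝ) - 1)) * E) * (1 + (E : ℝ)) ^ (-(((c : ℝ) - 1) / 2)) := by
  intro K
  obtain ⟨C2, hC2, h⟩ := L3_main hk hC1 c hc1 hck K
  exact ⟨C2, hC2, fun ρ om h1 h2 h3 h4 h5 => h ρ om ⟨h1, h2, h3, h4, h5⟩⟩

theorem lattice_top {k : ℕ} (hk : 3 ≤ k) {C1 : ℝ} (hC1 : 1 ≤ C1) (K : ℕ) : ∃ C2 : ℝ, 0 < C2 ∧
    ∀ (ρ : ℝ) (om : ℕ → ℕ → ℝ),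
    (1 - 1 / (4 * (k : ℝ))) / k ≤ ρ → ρ ≤ (1 + 1 / (4 * (k : ℝ))) / k → (∀ x a, 0 ≤ om x a) →
    (∀ x G : ℕ, ∑ a ∈ Finset.range G, om x a ≤ C1 * ((1 : ℝ) + x) ^ (ρ - 1)) →
    (∀ x a : ℕ, om x a ≤ C1 * ((1 : ℝ) + x) ^ (ρ - 1) * (1 + Real.log (1 + x)) ^ (-(1 / 2 : ℝ))) →
    ∀ E G : ℕ,
    ∑ f ∈ (LS k K (fun i : Fin k => i) (E + 1) G).filter
        (fun f => ∃ i j : Fin k, i ≠ j ∧ 2 ^ E ≤ (f i j).1 + 1), wt om (fun i : Fin k => i) f ≤
      C2 * (2 : ℝ) ^ (((k : ℝ) - 1) * (k * ρ - 1) * E) * (1 + (E : ℝ)) ^ (-(((k : ℝ) - 1) / 2)) := by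
  obtain ⟨C2, hC2, hIH⟩ := L3_main hk hC1 (k - 1) (by omega) (by omega) (2 * K)
  have hk' : (3 : ℝ) ≤ k := by exact_mod_cast hk
  have hk0 : (0 : ℝ) < k := by linarith
  have hC10 : (0 : ℝ) < C1 := by linarith
  set D : ℝ := (k * (k * ((2 * (K : ℝ) + 1) * (2 * C1) * (2 * k * C1) ^ (k * k) * C2 * 2)))
    with hD
  have hD0 : 0 < D := by rw [hD]; positivity
  refine ⟨D * 2, by positivity, ?_⟩
  intro ρ om h1 h2 h3 h4 h5 E G
  have h : L3Cond k C1 ρ om := ⟨h1, h2, h3, h4, h5⟩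
  have hid : ncl (fun i : Fin k => i) = k - 1 + 1 := by
    unfold ncl
    have : Finset.univ.image (fun i : Fin k => i) = Finset.univ := by
      ext i; simp
    rw [this, Finset.card_univ, Fintype.card_fin]; omega
  have hmain := L3_step (K := K) hk hC1 hC2 hIH (by omega) ρ om h (fun i : Fin k => i) hid E G
  refine hmain.trans ?_
  have hn : ((nact (fun i : Fin k => i) : ℕ) : ℝ) = k * (k - 1) := by
    rw [(nact_id k).1]
    push_cast [Nat.cast_sub (show 1 ≤ k by omega)]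
    ring
  have hkc : (((k - 1 : ℕ)) : ℝ) = k - 1 := by
    push_cast [Nat.cast_sub (show 1 ≤ k by omega)]
    ring
  rw [hn, hkc]
  have hE0 : (0 : ℝ) ≤ E := Nat.cast_nonneg E
  have hexp : (2 : ℝ) ^ ((ρ * ((k : ℝ) * (k - 1)) - (k - 1)) * ((E : ℝ) + 1)) ≤
      2 * (2 : ℝ) ^ (((k : ℝ) - 1) * (k * ρ - 1) * E) := by
    have e1 : (ρ * ((k : ℝ) * (k - 1)) - (k - 1)) * ((E : ℝ) + 1) =
        ((k : ℝ) - 1) * (k * ρ - 1) + ((k : ℝ) - 1) * (k * ρ - 1) * E := by ring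
    rw [e1, Real.rpow_add (by norm_num)]
    apply mul_le_mul_of_nonneg_right _ (by positivity)
    have e2 : ((k : ℝ) - 1) * (k * ρ - 1) ≤ 1 := by
      have h6 : k * ρ - 1 ≤ 1 / (4 * (k : ℝ)) := by
        rw [le_div_iff₀ hk0] at h2
        linarith
      have h7 : ((k : ℝ) - 1) * (k * ρ - 1) ≤ ((k : ℝ) - 1) * (1 / (4 * (k : ℝ))) :=
        mul_le_mul_of_nonneg_left h6 (by linarith)
      have h8 : ((k : ℝ) - 1) * (1 / (4 * (k : ℝ))) ≤ 1 := by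
        rw [mul_one_div, div_le_one (by positivity)]
        linarith
      linarith
    calc (2 : ℝ) ^ (((k : ℝ) - 1) * (k * ρ - 1)) ≤ (2 : ℝ) ^ (1 : ℝ) :=
          Real.rpow_le_rpow_of_exponent_le (by norm_num) e2
      _ = 2 := Real.rpow_one 2
  calc D * ((2 : ℝ) ^ ((ρ * ((k : ℝ) * (k - 1)) - (k - 1)) * ((E : ℝ) + 1)) *
        (1 + (E : ℝ)) ^ (-(((k : ℝ) - 1) / 2)))
      ≤ D * ((2 * (2 : ℝ) ^ (((k : ℝ) - 1) * (k * ρ - 1) * E)) *
        (1 + (E : ℝ)) ^ (-(((k : ℝ) - 1) / 2))) := by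
        apply mul_le_mul_of_nonneg_left _ hD0.le
        exact mul_le_mul_of_nonneg_right hexp (by positivity)
    _ = _ := by ring

end Pool.Agent.Helper256.KM
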