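import Mathlib
import Pool.Agent.Helper256.KM.Defs
import Pool.Agent.Helper256.KM.Mertens

set_option autoImplicit false

namespace Pool.Agent.Helper256.KM

open Finset ArithmeticFunction

/-! auxiliary lemmas -/

noncomputable def wuP (N : ℕ) : ℝ := ∑ p ∈ (Finset.Icc 1 N).filter Nat.Prime, (1 : ℝ) / p

noncomputable def wuE (N k : ℕ) : ℝ :=
  ∑ a ∈ (Finset.Icc 1 N).filter (fun a : ℕ => Squarefree a ∧ cardFactors a = k), (1 : ℝ) / a

theorem wuP_nonneg (N : ℕ) : 0 ≤ wuP N := Finset.sum_nonneg fun p _ => by positivity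

theorem wuE_nonneg (N k : ℕ) : 0 ≤ wuE N k := Finset.sum_nonneg fun p _ => by positivity

/-- comparison of sums along an injection -/
theorem wu_sum_inj {A B : Type*} [DecidableEq B] (s : Finset A) (t : Finset B) (e : A → B)
    (f : A → ℝ) (g : B → ℝ) (he : ∀ a ∈ s, e a ∈ t) (hi : Set.InjOn e s)
    (hfg : ∀ a ∈ s, f a ≤ g (e a)) (hg : ∀ b ∈ t, 0 ≤ g b) : ∑ a ∈ s, f a ≤ ∑ b ∈ t, g b := by
  calc ∑ a ∈ s, f a ≤ ∑ a ∈ s, g (e a) := Finset.sum_le_sum hfg
    _ = ∑ b ∈ s.image e, g b := (Finset.sum_image hi).symm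
    _ ≤ ∑ b ∈ t, g b := by
        apply Finset.sum_le_sum_of_subset_of_nonneg
        · intro b hb
          obtain ⟨a, ha, rfl⟩ := Finset.mem_image.1 hb
          exact he a ha
        · intro b hb _
          exact hg b hb

theorem wu_step (N k : ℕ) : ((k : ℝ) + 1) * wuE N (k + 1) ≤ wuP N * wuE N k := by
  classical
  have e1 : ((k : ℝ) + 1) * wuE N (k + 1)
      = ∑ z ∈ ((Finset.Icc 1 N).filter (fun a : ℕ => Squarefree a ∧ cardFactors a = k + 1)).sigma
          (fun a => a.primeFactors), (1 : ℝ) / z.1 := by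
    rw [Finset.sum_sigma, wuE, Finset.mul_sum]
    refine Finset.sum_congr rfl fun a ha => ?_
    obtain ⟨ha1, ha2, ha3⟩ := Finset.mem_filter.1 ha
    have ha0 : a ≠ 0 := by have := (Finset.mem_Icc.1 ha1).1; omega
    have hc : a.primeFactors.card = k + 1 := by
      rw [← ha3, ← (cardDistinctFactors_eq_cardFactors_iff_squarefree ha0).2 ha2,
        cardDistinctFactors_apply]
      rfl
    simp only
    rw [Finset.sum_const, hc, nsmul_eq_mul]
    push_cast
    ring
  have e2 : wuP N * wuE N k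
      = ∑ w ∈ ((Finset.Icc 1 N).filter Nat.Prime) ×ˢ
        ((Finset.Icc 1 N).filter (fun a : ℕ => Squarefree a ∧ cardFactors a = k)),
        ((1 : ℝ) / w.1) * (1 / w.2) := by
    rw [Finset.sum_product, wuP, wuE, Finset.sum_mul]
    refine Finset.sum_congr rfl fun a _ => ?_
    rw [Finset.mul_sum]
  rw [e1, e2]
  apply wu_sum_inj _ _ (fun z => (z.2, z.1 / z.2))
  · rintro ⟨a, p⟩ h
    simp only [Finset.mem_sigma, Finset.mem_filter, Finset.mem_Icc, Nat.mem_primeFactors] at h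
    obtain ⟨⟨⟨h1, h2⟩, h3, h4⟩, h5, h6, h7⟩ := h
    obtain ⟨b, rfl⟩ := h6
    have hp0 : 0 < p := h5.pos
    have hb0 : 0 < b := Nat.pos_of_ne_zero (by rintro rfl; simp at h1)
    simp only [Finset.mem_product, Finset.mem_filter, Finset.mem_Icc, Nat.mul_div_cancel_left _ hp0]
    rw [cardFactors_mul hp0.ne' hb0.ne', cardFactors_eq_one_iff_prime.2 h5] at h4
    refine ⟨⟨⟨hp0, ?_⟩, h5⟩, ⟨hb0, ?_⟩, h3.squarefree_of_dvd (Dvd.intro_left p rfl), by omega⟩
    · exact (Nat.le_mul_of_pos_right p hb0).trans h2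
    · exact (Nat.le_mul_of_pos_left b hp0).trans h2
  · rintro ⟨a, p⟩ h ⟨a', p'⟩ h' heq
    rw [Finset.mem_coe] at h h'
    simp only [Finset.mem_sigma, Finset.mem_filter, Finset.mem_Icc, Nat.mem_primeFactors] at h h'
    have e3 : p = p' := congrArg Prod.fst heq
    have e4 : a / p = a' / p' := congrArg Prod.snd heq
    subst e3
    have e5 : a = a' := by
      have h1 := Nat.mul_div_cancel' h.2.2.1
      have h2 := Nat.mul_div_cancel' h'.2.2.1
      rw [← h1, e4, h2]
    subst e5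
    rfl
  · rintro ⟨a, p⟩ h
    simp only [Finset.mem_sigma, Finset.mem_filter, Finset.mem_Icc, Nat.mem_primeFactors] at h
    obtain ⟨⟨⟨h1, h2⟩, h3, h4⟩, h5, h6, h7⟩ := h
    obtain ⟨b, rfl⟩ := h6
    have hp0 : 0 < p := h5.pos
    simp only [Nat.mul_div_cancel_left _ hp0]
    push_cast
    rw [one_div_mul_one_div]
  · rintro w _
    positivity

theorem wu_e (N k : ℕ) : wuE N k ≤ wuP N ^ k / (k.factorial : ℝ) := by
  induction k with
  | zero =>
    rw [pow_zero, Nat.factorial_zero, Nat.cast_one, div_one, wuE]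
    calc ∑ a ∈ (Finset.Icc 1 N).filter (fun a : ℕ => Squarefree a ∧ cardFactors a = 0), (1 : ℝ) / a
        ≤ ∑ a ∈ ({1} : Finset ℕ), (1 : ℝ) / a := by
          apply Finset.sum_le_sum_of_subset_of_nonneg
          · intro a ha
            obtain ⟨h1, h2, h3⟩ := Finset.mem_filter.1 ha
            rw [Finset.mem_singleton]
            rcases cardFactors_eq_zero_iff_eq_zero_or_one.1 h3 with h | h
            · have := (Finset.mem_Icc.1 h1).1; omega
            · exact h
          · intro a _ _; positivity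
      _ = 1 := by simp
  | succ k ih =>
    have h1 := wu_step N k
    have h2 : wuP N * wuE N k ≤ wuP N * (wuP N ^ k / (k.factorial : ℝ)) :=
      mul_le_mul_of_nonneg_left ih (wuP_nonneg N)
    have h3 : ((k : ℝ) + 1) * wuE N (k + 1) ≤ wuP N ^ (k + 1) / (k.factorial : ℝ) := by
      refine (h1.trans h2).trans (le_of_eq ?_)
      rw [pow_succ]; ring
    rw [Nat.factorial_succ]
    push_cast
    have hf : (0 : ℝ) < (k.factorial : ℝ) := by positivity
    have hk : (0 : ℝ) < (k : ℝ) + 1 := by positivity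
    rw [le_div_iff₀ hf] at h3
    rw [le_div_iff₀ (by positivity)]
    linarith

/-- sum over `n` split as `b ^ 2 * a` with `a` squarefree -/
theorem wu_split (N : ℕ) (f : ℕ → ℝ) (hf : ∀ n, 0 ≤ f n) :
    ∑ n ∈ Finset.Icc 1 N, f n / (n : ℝ) ≤
      ∑ b ∈ Finset.Icc 1 N, ((1 : ℝ) / (b : ℝ) ^ 2) *
        ∑ a ∈ (Finset.Icc 1 N).filter (fun a : ℕ => Squarefree a), f (b ^ 2 * a) / (a : ℝ) := by
  classical
  have e2 : ∑ b ∈ Finset.Icc 1 N, ((1 : ℝ) / (b : ℝ) ^ 2) *
        ∑ a ∈ (Finset.Icc 1 N).filter (fun a : ℕ => Squarefree a), f (b ^ 2 * a) / (a : ℝ)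
      = ∑ w ∈ (Finset.Icc 1 N) ×ˢ ((Finset.Icc 1 N).filter (fun a : ℕ => Squarefree a)),
        ((1 : ℝ) / (w.1 : ℝ) ^ 2) * (f (w.1 ^ 2 * w.2) / (w.2 : ℝ)) := by
    rw [Finset.sum_product]
    refine Finset.sum_congr rfl fun b _ => ?_
    rw [Finset.mul_sum]
  rw [e2]
  have hex : ∀ n : ℕ, ∃ w : ℕ × ℕ, 0 < n → 0 < w.1 ∧ 0 < w.2 ∧ w.1 ^ 2 * w.2 = n ∧ Squarefree w.2 := by
    intro n
    by_cases hn : 0 < n
    · obtain ⟨a, b, ha, hb, hab, hs⟩ := Nat.sq_mul_squarefree_of_pos hn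
      exact ⟨(b, a), fun _ => ⟨hb, ha, hab, hs⟩⟩
    · exact ⟨(0, 0), fun h => absurd h hn⟩
  choose e he using hex
  apply wu_sum_inj _ _ e
  · intro n hn
    obtain ⟨h1, h2⟩ := Finset.mem_Icc.1 hn
    obtain ⟨h3, h4, h5, h6⟩ := he n h1
    simp only [Finset.mem_product, Finset.mem_filter, Finset.mem_Icc]
    refine ⟨⟨h3, ?_⟩, ⟨h4, ?_⟩, h6⟩
    · calc (e n).1 ≤ (e n).1 ^ 2 * (e n).2 := by nlinarith [Nat.mul_le_mul h3 h4]
        _ ≤ N := h5.le.trans h2
    · calc (e n).2 ≤ (e n).1 ^ 2 * (e n).2 := Nat.le_mul_of_pos_left _ (by positivity)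
        _ ≤ N := h5.le.trans h2
  · intro n hn n' hn' hee
    rw [Finset.mem_coe, Finset.mem_Icc] at hn hn'
    rw [← (he n hn.1).2.2.1, ← (he n' hn'.1).2.2.1, hee]
  · intro n hn
    obtain ⟨h1, h2⟩ := Finset.mem_Icc.1 hn
    obtain ⟨h3, h4, h5, h6⟩ := he n h1
    rw [h5]
    have h7 : (n : ℝ) = ((e n).1 : ℝ) ^ 2 * ((e n).2 : ℝ) := by
      conv_lhs => rw [← h5]
      push_cast; ring
    rw [h7]
    apply le_of_eq
    have : (0 : ℝ) < ((e n).1 : ℝ) := by exact_mod_cast h3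
    have : (0 : ℝ) < ((e n).2 : ℝ) := by exact_mod_cast h4
    field_simp
  · rintro w _
    have := hf (w.1 ^ 2 * w.2)
    positivity

theorem wu_sq (N : ℕ) : ∑ b ∈ Finset.Icc 1 N, ((1 : ℝ) / (b : ℝ) ^ 2) ≤ 2 := by
  have h := sum_Ioo_inv_sq_le (α := ℝ) 0 (N + 1)
  have e : Finset.Ioo 0 (N + 1) = Finset.Icc 1 N := by
    ext b; simp only [Finset.mem_Ioo, Finset.mem_Icc]; omega
  rw [e] at h
  simp only [Nat.cast_zero, zero_add, div_one] at h
  simpa [one_div] using h

/-- Poisson weights -/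
theorem wu_poisson (lam : ℝ) (hl : 0 ≤ lam) (m : ℕ) :
    lam ^ m / (m.factorial : ℝ) ≤ 2 * Real.exp lam * (1 + lam) ^ (-(1 / 2 : ℝ)) := by
  have hsq : (1 + lam) ^ (-(1 / 2 : ℝ)) = 1 / Real.sqrt (1 + lam) := by
    rw [Real.rpow_neg (by linarith), ← Real.sqrt_eq_rpow, one_div]
  rw [hsq]
  have hs0 : 0 < Real.sqrt (1 + lam) := Real.sqrt_pos.2 (by linarith)
  -- large m
  have hbig : ∀ m : ℕ, 1 ≤ m → lam ≤ m + 1 →
      lam ^ m / (m.factorial : ℝ) ≤ 2 * Real.exp lam * (1 / Real.sqrt (1 + lam)) := by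
    intro m hm hml
    have hm0 : (0 : ℝ) < m := by exact_mod_cast hm
    have hm1 : (1 : ℝ) ≤ m := by exact_mod_cast hm
    have h1 : lam ^ m ≤ Real.exp lam * ((m : ℝ) / Real.exp 1) ^ m := by
      have h2 : lam / m ≤ Real.exp (lam / m - 1) := by
        have := Real.add_one_le_exp (lam / m - 1)
        linarith
      have h3 : (lam / m) ^ m ≤ Real.exp (lam / m - 1) ^ m :=
        pow_le_pow_left₀ (by positivity) h2 m
      rw [← Real.exp_nat_mul] at h3
      have h4 : (m : ℝ) * (lam / m - 1) = lam - m := by field_simp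
      rw [h4, Real.exp_sub] at h3
      have h5 : Real.exp (m : ℝ) = Real.exp 1 ^ m := by
        rw [← Real.exp_nat_mul, mul_one]
      rw [h5, div_pow, div_le_div_iff₀ (by positivity) (by positivity)] at h3
      rw [div_pow, mul_div_assoc', le_div_iff₀ (by positivity)]
      exact h3
    have h6 := Stirling.le_factorial_stirling m
    have h7 : Real.sqrt (1 + lam) ≤ 2 * Real.sqrt (2 * Real.pi * m) := by
      rw [show (2:ℝ) = Real.sqrt 4 by
        rw [show (4:ℝ) = 2 ^ 2 by norm_num]; exact (Real.sqrt_sq (by norm_num)).symm]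
      rw [← Real.sqrt_mul (by norm_num)]
      apply Real.sqrt_le_sqrt
      have h8 : Real.sqrt 4 = 2 := by
        rw [show (4:ℝ) = 2 ^ 2 by norm_num]; exact Real.sqrt_sq (by norm_num)
      rw [h8]
      have := Real.pi_gt_three
      nlinarith
    have hA : 0 ≤ ((m : ℝ) / Real.exp 1) ^ m := by positivity
    rw [div_le_iff₀ (by positivity)]
    calc lam ^ m ≤ Real.exp lam * ((m : ℝ) / Real.exp 1) ^ m := h1
      _ = Real.exp lam * (1 / Real.sqrt (1 + lam)) *
          (Real.sqrt (1 + lam) * ((m : ℝ) / Real.exp 1) ^ m) := by field_simp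
      _ ≤ Real.exp lam * (1 / Real.sqrt (1 + lam)) *
          (2 * Real.sqrt (2 * Real.pi * m) * ((m : ℝ) / Real.exp 1) ^ m) := by
          apply mul_le_mul_of_nonneg_left _ (by positivity)
          exact mul_le_mul_of_nonneg_right h7 hA
      _ = 2 * Real.exp lam * (1 / Real.sqrt (1 + lam)) *
          (Real.sqrt (2 * Real.pi * m) * ((m : ℝ) / Real.exp 1) ^ m) := by ring
      _ ≤ 2 * Real.exp lam * (1 / Real.sqrt (1 + lam)) * (m.factorial : ℝ) :=
          mul_le_mul_of_nonneg_left h6 (by positivity)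
  -- monotonicity for small m
  have hmono : ∀ k m : ℕ, ((m + k : ℕ) : ℝ) ≤ lam →
      lam ^ m / (m.factorial : ℝ) ≤ lam ^ (m + k) / ((m + k).factorial : ℝ) := by
    intro k
    induction k with
    | zero => intro m _; exact le_rfl
    | succ k ih =>
      intro m hmk
      have h1 := ih m (by push_cast at hmk ⊢; linarith)
      refine h1.trans ?_
      have h2 : m + (k + 1) = (m + k) + 1 := by ring
      rw [h2, Nat.factorial_succ, pow_succ]
      push_cast at hmk ⊢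
      rw [div_le_div_iff₀ (by positivity) (by positivity)]
      have h3 : 0 ≤ lam ^ (m + k) * ((m + k).factorial : ℝ) := by positivity
      nlinarith
  by_cases hm : lam ≤ m + 1
  · rcases Nat.eq_zero_or_pos m with h0 | h0
    · subst h0
      simp only [pow_zero, Nat.factorial_zero, Nat.cast_one, div_one]
      simp only [Nat.cast_zero, zero_add] at hm
      have h1 : 1 ≤ Real.exp lam := Real.one_le_exp hl
      have h2 : Real.sqrt (1 + lam) ≤ 2 := by
        rw [Real.sqrt_le_left (by norm_num)]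
        linarith
      rw [mul_one_div, le_div_iff₀ hs0]
      linarith
    · exact hbig m h0 hm
  · push Not at hm
    have hfl : (⌊lam⌋₊ : ℝ) ≤ lam := Nat.floor_le hl
    have hfl2 : lam < ⌊lam⌋₊ + 1 := Nat.lt_floor_add_one lam
    have hmf : m ≤ ⌊lam⌋₊ := by
      rw [Nat.le_floor_iff hl]; linarith
    obtain ⟨k, hk⟩ := Nat.exists_eq_add_of_le hmf
    have h1 := hmono k m (by rw [← hk]; exact hfl)
    rw [← hk] at h1
    refine h1.trans (hbig ⌊lam⌋₊ ?_ hfl2.le)
    rw [Nat.one_le_floor_iff]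
    have : (0:ℝ) ≤ (m:ℝ) := Nat.cast_nonneg m
    linarith

/-- total bound -/
theorem wu_total (N : ℕ) (ρ : ℝ) (h0 : 0 ≤ ρ) (h1 : ρ ≤ 1) :
    ∑ n ∈ Finset.Icc 1 N, ρ ^ (cardFactors n) / (n : ℝ) ≤ 2 * Real.exp (ρ * wuP N) := by
  classical
  refine (wu_split N (fun n => ρ ^ cardFactors n) (fun n => by positivity)).trans ?_
  set s := (Finset.Icc 1 N).filter (fun a : ℕ => Squarefree a) with hs
  have hin0 : ∑ a ∈ s, ρ ^ (cardFactors a) / (a : ℝ) ≤ Real.exp (ρ * wuP N) := by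
    rw [← Finset.sum_fiberwise_of_maps_to (s := s) (t := Finset.range (s.sup cardFactors + 1))
      (g := fun a => cardFactors a)
      (fun a ha => Finset.mem_range.2 (Nat.lt_succ_of_le (Finset.le_sup ha)))]
    refine le_trans (Finset.sum_le_sum fun k _ => ?_)
      (Real.sum_le_exp_of_nonneg (mul_nonneg h0 (wuP_nonneg N)) (s.sup cardFactors + 1))
    have e1 : ∑ a ∈ s.filter (fun a => cardFactors a = k), ρ ^ (cardFactors a) / (a : ℝ)
        = ρ ^ k * wuE N k := by
      rw [wuE, Finset.mul_sum, hs, Finset.filter_filter]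
      refine Finset.sum_congr rfl fun a ha => ?_
      rw [(Finset.mem_filter.1 ha).2.2]; ring
    rw [e1, mul_pow, mul_div_assoc]
    exact mul_le_mul_of_nonneg_left (wu_e N k) (by positivity)
  have hin : ∀ b ∈ Finset.Icc 1 N, ∑ a ∈ s, ρ ^ (cardFactors (b ^ 2 * a)) / (a : ℝ)
      ≤ Real.exp (ρ * wuP N) := by
    intro b hb
    refine le_trans (Finset.sum_le_sum fun a ha => ?_) hin0
    have ha1 := (Finset.mem_Icc.1 (Finset.mem_filter.1 ha).1).1
    have hb1 := (Finset.mem_Icc.1 hb).1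
    apply div_le_div_of_nonneg_right _ (by positivity)
    apply pow_le_pow_of_le_one h0 h1
    rw [cardFactors_mul (pow_ne_zero 2 (by omega)) (by omega)]
    exact Nat.le_add_left _ _
  calc ∑ b ∈ Finset.Icc 1 N, ((1 : ℝ) / (b : ℝ) ^ 2) *
        ∑ a ∈ s, ρ ^ (cardFactors (b ^ 2 * a)) / (a : ℝ)
      ≤ ∑ b ∈ Finset.Icc 1 N, ((1 : ℝ) / (b : ℝ) ^ 2) * Real.exp (ρ * wuP N) :=
        Finset.sum_le_sum fun b hb => mul_le_mul_of_nonneg_left (hin b hb) (by positivity)
    _ = (∑ b ∈ Finset.Icc 1 N, ((1 : ℝ) / (b : ℝ) ^ 2)) * Real.exp (ρ * wuP N) := by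
        rw [Finset.sum_mul]
    _ ≤ 2 * Real.exp (ρ * wuP N) := mul_le_mul_of_nonneg_right (wu_sq N) (Real.exp_pos _).le

/-- bound for fixed number of prime factors -/
theorem wu_fixed (N : ℕ) (ρ : ℝ) (h0 : 0 ≤ ρ) (h1 : ρ ≤ 1) (r : ℕ) :
    ∑ n ∈ (Finset.Icc 1 N).filter (fun n => cardFactors n = r), ρ ^ r / (n : ℝ)
      ≤ 2 * (2 * Real.exp (ρ * wuP N) * (1 + ρ * wuP N) ^ (-(1 / 2 : ℝ))) := by
  classical
  have hlam : 0 ≤ ρ * wuP N := mul_nonneg h0 (wuP_nonneg N)
  set W := 2 * Real.exp (ρ * wuP N) * (1 + ρ * wuP N) ^ (-(1 / 2 : ℝ)) with hW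
  have hW0 : 0 ≤ W := by positivity
  have e0 : ∑ n ∈ (Finset.Icc 1 N).filter (fun n => cardFactors n = r), ρ ^ r / (n : ℝ)
      = ∑ n ∈ Finset.Icc 1 N, (if cardFactors n = r then ρ ^ r else 0) / (n : ℝ) := by
    rw [Finset.sum_filter]
    refine Finset.sum_congr rfl fun n _ => ?_
    split_ifs <;> simp
  rw [e0]
  refine (wu_split N (fun n => if cardFactors n = r then ρ ^ r else 0)
    (fun n => by split_ifs <;> positivity)).trans ?_
  set s := (Finset.Icc 1 N).filter (fun a : ℕ => Squarefree a) with hs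
  have hin : ∀ b ∈ Finset.Icc 1 N,
      ∑ a ∈ s, (if cardFactors (b ^ 2 * a) = r then ρ ^ r else 0) / (a : ℝ) ≤ W := by
    intro b hb
    have hb1 := (Finset.mem_Icc.1 hb).1
    by_cases hc : cardFactors (b ^ 2) ≤ r
    · obtain ⟨k, hk⟩ := Nat.exists_eq_add_of_le hc
      have e1 : ∑ a ∈ s, (if cardFactors (b ^ 2 * a) = r then ρ ^ r else 0) / (a : ℝ)
          = ρ ^ r * wuE N k := by
        rw [wuE, Finset.mul_sum, ← Finset.filter_filter, Finset.sum_filter (s := s)]
        refine Finset.sum_congr rfl fun a ha => ?_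
        have ha1 := (Finset.mem_Icc.1 (Finset.mem_filter.1 ha).1).1
        rw [cardFactors_mul (pow_ne_zero 2 (by omega)) (by omega), hk]
        by_cases hak : cardFactors a = k
        · rw [if_pos (by omega), if_pos hak]; ring
        · rw [if_neg (by omega), if_neg hak]; simp
      rw [e1]
      calc ρ ^ r * wuE N k ≤ ρ ^ k * wuE N k := by
            apply mul_le_mul_of_nonneg_right _ (wuE_nonneg N k)
            exact pow_le_pow_of_le_one h0 h1 (by omega)
        _ ≤ ρ ^ k * (wuP N ^ k / (k.factorial : ℝ)) :=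
            mul_le_mul_of_nonneg_left (wu_e N k) (by positivity)
        _ = (ρ * wuP N) ^ k / (k.factorial : ℝ) := by rw [mul_pow, mul_div_assoc]
        _ ≤ W := wu_poisson _ hlam k
    · have e1 : ∑ a ∈ s, (if cardFactors (b ^ 2 * a) = r then ρ ^ r else 0) / (a : ℝ) = 0 := by
        apply Finset.sum_eq_zero
        intro a ha
        have ha1 := (Finset.mem_Icc.1 (Finset.mem_filter.1 ha).1).1
        rw [cardFactors_mul (pow_ne_zero 2 (by omega)) (by omega), if_neg (by omega), zero_div]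
      rw [e1]; exact hW0
  calc ∑ b ∈ Finset.Icc 1 N, ((1 : ℝ) / (b : ℝ) ^ 2) *
        ∑ a ∈ s, (if cardFactors (b ^ 2 * a) = r then ρ ^ r else 0) / (a : ℝ)
      ≤ ∑ b ∈ Finset.Icc 1 N, ((1 : ℝ) / (b : ℝ) ^ 2) * W :=
        Finset.sum_le_sum fun b hb => mul_le_mul_of_nonneg_left (hin b hb) (by positivity)
    _ = (∑ b ∈ Finset.Icc 1 N, ((1 : ℝ) / (b : ℝ) ^ 2)) * W := by
        rw [Finset.sum_mul]
    _ ≤ 2 * W := mul_le_mul_of_nonneg_right (wu_sq N) hW0

/-- insertion of the logarithm -/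
theorem wu_ins (x N : ℕ) (B : Finset ℕ)
    (hB : ∀ g ∈ B, 1 ≤ g ∧ g ≤ N ∧ Real.exp x ≤ (g : ℝ) ∧ (g : ℝ) ≤ Real.exp (x + 1))
    (f v : ℕ → ℝ) (hf : ∀ n, 0 ≤ f n) (hv : ∀ n, 0 ≤ v n)
    (hfv : ∀ q m : ℕ, 1 ≤ q → 1 ≤ m → vonMangoldt q ≠ 0 → f (q * m) ≤ v m) :
    (x : ℝ) * ∑ g ∈ B, f g / (g : ℝ)
      ≤ ((Real.log 4 + 4) * Real.exp 1) * ∑ m ∈ Finset.Icc 1 N, v m / (m : ℝ) := by
  classical
  have hstep1 : (x : ℝ) * ∑ g ∈ B, f g / (g : ℝ)
      ≤ ∑ z ∈ B.sigma (fun g => g.divisors), vonMangoldt z.2 * (f z.1 / (z.1 : ℝ)) := by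
    rw [Finset.sum_sigma, Finset.mul_sum]
    refine Finset.sum_le_sum fun g hg => ?_
    obtain ⟨h1, h2, h3, h4⟩ := hB g hg
    simp only
    rw [← Finset.sum_mul, vonMangoldt_sum]
    have hlog : (x : ℝ) ≤ Real.log g := by
      rw [Real.le_log_iff_exp_le (by exact_mod_cast h1)]; exact h3
    have := hf g
    exact mul_le_mul_of_nonneg_right hlog (by positivity)
  have hstep2 : ∑ z ∈ B.sigma (fun g => g.divisors), vonMangoldt z.2 * (f z.1 / (z.1 : ℝ))
      ≤ ∑ w ∈ (Finset.Icc 1 N ×ˢ Finset.Icc 1 N).filter (fun w => w.1 * w.2 ∈ B),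
        vonMangoldt w.1 * (v w.2 / ((w.1 * w.2 : ℕ) : ℝ)) := by
    apply wu_sum_inj _ _ (fun z : (_ : ℕ) × ℕ => (z.2, z.1 / z.2))
    · rintro ⟨g, q⟩ h
      obtain ⟨hg, hq⟩ := Finset.mem_sigma.1 h
      simp only at hg hq
      obtain ⟨h1, h2, h3, h4⟩ := hB g hg
      obtain ⟨⟨m, rfl⟩, -⟩ := Nat.mem_divisors.1 hq
      have hq0 : 0 < q := Nat.pos_of_ne_zero (by rintro rfl; simp at h1)
      have hm0 : 0 < m := Nat.pos_of_ne_zero (by rintro rfl; simp at h1)
      simp only [Finset.mem_filter, Finset.mem_product, Finset.mem_Icc,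
        Nat.mul_div_cancel_left _ hq0]
      exact ⟨⟨⟨hq0, (Nat.le_mul_of_pos_right q hm0).trans h2⟩,
        ⟨hm0, (Nat.le_mul_of_pos_left m hq0).trans h2⟩⟩, hg⟩
    · rintro ⟨g, q⟩ h ⟨g', q'⟩ h' heq
      rw [Finset.mem_coe, Finset.mem_sigma] at h h'
      have e3 : q = q' := congrArg Prod.fst heq
      have e4 : g / q = g' / q' := congrArg Prod.snd heq
      subst e3
      have e5 : g = g' := by
        have h1 := Nat.mul_div_cancel' (Nat.dvd_of_mem_divisors h.2)
        have h2 := Nat.mul_div_cancel' (Nat.dvd_of_mem_divisors h'.2)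
        simp only at h1 h2
        rw [← h1, e4, h2]
      subst e5
      rfl
    · rintro ⟨g, q⟩ h
      obtain ⟨hg, hq⟩ := Finset.mem_sigma.1 h
      simp only at hg hq
      obtain ⟨h1, h2, h3, h4⟩ := hB g hg
      obtain ⟨⟨m, rfl⟩, -⟩ := Nat.mem_divisors.1 hq
      have hq0 : 0 < q := Nat.pos_of_ne_zero (by rintro rfl; simp at h1)
      have hm0 : 0 < m := Nat.pos_of_ne_zero (by rintro rfl; simp at h1)
      simp only [Nat.mul_div_cancel_left _ hq0]
      by_cases hL : vonMangoldt q = 0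
      · rw [hL, zero_mul, zero_mul]
      · apply mul_le_mul_of_nonneg_left _ vonMangoldt_nonneg
        exact div_le_div_of_nonneg_right (hfv q m hq0 hm0 hL) (by positivity)
    · rintro w _
      have := hv w.2
      have := @vonMangoldt_nonneg w.1
      positivity
  have hstep3 : ∑ w ∈ (Finset.Icc 1 N ×ˢ Finset.Icc 1 N).filter (fun w => w.1 * w.2 ∈ B),
        vonMangoldt w.1 * (v w.2 / ((w.1 * w.2 : ℕ) : ℝ))
      = ∑ m ∈ Finset.Icc 1 N, ∑ q ∈ (Finset.Icc 1 N).filter (fun q => q * m ∈ B),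
        vonMangoldt q * (v m / ((q * m : ℕ) : ℝ)) := by
    rw [Finset.sum_filter, Finset.sum_product_right]
    refine Finset.sum_congr rfl fun m _ => ?_
    rw [Finset.sum_filter]
  have hstep4 : ∀ m ∈ Finset.Icc 1 N, ∑ q ∈ (Finset.Icc 1 N).filter (fun q => q * m ∈ B),
        vonMangoldt q * (v m / ((q * m : ℕ) : ℝ))
      ≤ ((Real.log 4 + 4) * Real.exp 1) * (v m / (m : ℝ)) := by
    intro m hm
    have hm1 : 1 ≤ m := (Finset.mem_Icc.1 hm).1
    have hm0 : (0 : ℝ) < m := by exact_mod_cast hm1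
    have hvm := hv m
    calc ∑ q ∈ (Finset.Icc 1 N).filter (fun q => q * m ∈ B),
          vonMangoldt q * (v m / ((q * m : ℕ) : ℝ))
        ≤ ∑ q ∈ (Finset.Icc 1 N).filter (fun q => q * m ∈ B),
          vonMangoldt q * (v m / Real.exp x) := by
          refine Finset.sum_le_sum fun q hq => ?_
          obtain ⟨h1, h2, h3, h4⟩ := hB _ (Finset.mem_filter.1 hq).2
          apply mul_le_mul_of_nonneg_left _ vonMangoldt_nonneg
          exact div_le_div_of_nonneg_left hvm (Real.exp_pos _) h3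
      _ = (∑ q ∈ (Finset.Icc 1 N).filter (fun q => q * m ∈ B), vonMangoldt q) *
          (v m / Real.exp x) := by rw [Finset.sum_mul]
      _ ≤ Chebyshev.psi (Real.exp (x + 1) / m) * (v m / Real.exp x) := by
          apply mul_le_mul_of_nonneg_right _ (by positivity)
          unfold Chebyshev.psi
          apply Finset.sum_le_sum_of_subset_of_nonneg
          · intro q hq
            obtain ⟨h1, h2, h3, h4⟩ := hB _ (Finset.mem_filter.1 hq).2
            have hq1 := (Finset.mem_Icc.1 (Finset.mem_filter.1 hq).1).1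
            rw [Finset.mem_Ioc]
            refine ⟨hq1, ?_⟩
            rw [Nat.le_floor_iff (by positivity), le_div_iff₀ hm0]
            push_cast at h4
            exact h4
          · intro q _ _
            exact vonMangoldt_nonneg
      _ ≤ ((Real.log 4 + 4) * (Real.exp (x + 1) / m)) * (v m / Real.exp x) := by
          apply mul_le_mul_of_nonneg_right _ (by positivity)
          exact Chebyshev.psi_le_const_mul_self (by positivity)
      _ = ((Real.log 4 + 4) * Real.exp 1) * (v m / (m : ℝ)) := by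
          rw [Real.exp_add]
          field_simp
  calc (x : ℝ) * ∑ g ∈ B, f g / (g : ℝ)
      ≤ ∑ m ∈ Finset.Icc 1 N, ∑ q ∈ (Finset.Icc 1 N).filter (fun q => q * m ∈ B),
        vonMangoldt q * (v m / ((q * m : ℕ) : ℝ)) := (hstep1.trans hstep2).trans hstep3.le
    _ ≤ ∑ m ∈ Finset.Icc 1 N, ((Real.log 4 + 4) * Real.exp 1) * (v m / (m : ℝ)) :=
        Finset.sum_le_sum hstep4
    _ = _ := by rw [Finset.mul_sum]

theorem wu_geom (ρ : ℝ) (h0 : 0 ≤ ρ) (h1 : ρ < 1) (a : ℕ) :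
    ∑ r ∈ Finset.range a, ρ ^ (a - r) ≤ 1 / (1 - ρ) := by
  have e : ∑ r ∈ Finset.range a, ρ ^ (a - r) = ∑ j ∈ Finset.range a, ρ ^ (j + 1) := by
    rw [← Finset.sum_range_reflect (fun j => ρ ^ (j + 1)) a]
    refine Finset.sum_congr rfl fun r hr => ?_
    have := Finset.mem_range.1 hr
    congr 1; omega
  rw [e, le_div_iff₀ (by linarith)]
  have h2 : (∑ j ∈ Finset.range a, ρ ^ (j + 1)) ≤ ∑ j ∈ Finset.range a, ρ ^ j :=
    Finset.sum_le_sum fun j _ => pow_le_pow_of_le_one h0 h1.le (Nat.le_succ j)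
  have h3 : (∑ j ∈ Finset.range a, ρ ^ j) * (1 - ρ) = 1 - ρ ^ a := by
    have := geom_sum_mul_neg ρ a
    exact this
  have h4 : 0 ≤ ρ ^ a := by positivity
  nlinarith

set_option maxHeartbeats 4000000 in
theorem w_unif {ρ₀ ρ₁ : ℝ} (h0 : 0 < ρ₀) (h1 : ρ₁ < 1) : ∃ C : ℝ, 1 ≤ C ∧
    ∀ ρ : ℝ, ρ₀ ≤ ρ → ρ ≤ ρ₁ → ∀ x G : ℕ,
    (∑ g ∈ (Finset.Icc 1 G).filter (fun g : ℕ => ⌊Real.log (g : ℝ)⌋₊ = x),
      ρ ^ (cardFactors g) / (g : ℝ) ≤ C * ((1 : ℝ) + x) ^ (ρ - 1)) ∧
    ∀ a : ℕ, ∑ g ∈ (Finset.Icc 1 G).filter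
        (fun g : ℕ => ⌊Real.log (g : ℝ)⌋₊ = x ∧ cardFactors g = a),
      ρ ^ a / (g : ℝ) ≤ C * ((1 : ℝ) + x) ^ (ρ - 1) * (1 + Real.log (1 + x)) ^ (-(1 / 2 : ℝ)) := by
  classical
  obtain ⟨C0, hC0⟩ := mertens_inv
  have hC00 : 0 ≤ C0 := (abs_nonneg _).trans (hC0 3 le_rfl)
  by_cases h01 : ρ₀ ≤ ρ₁
  swap
  · exact ⟨1, le_rfl, fun ρ ha hb => absurd (ha.trans hb) h01⟩
  have hρ₀1 : ρ₀ < 1 := lt_of_le_of_lt h01 h1
  set c := (Real.log 4 + 4) * Real.exp 1 with hc
  have hc0 : 0 < c := by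
    have : 0 < Real.log 4 := Real.log_pos (by norm_num)
    positivity
  set K := (2 + C0) / ρ₀ with hK
  have hK0 : 0 < K := by positivity
  have hd : 0 < 1 - ρ₁ := by linarith
  have hKh : 0 ≤ K ^ (1 / 2 : ℝ) := by positivity
  refine ⟨2 + 8 * c * Real.exp C0 * (K ^ (1 / 2 : ℝ) + 1) / (1 - ρ₁), ?_, ?_⟩
  · have : 0 ≤ 8 * c * Real.exp C0 * (K ^ (1 / 2 : ℝ) + 1) / (1 - ρ₁) := by positivity
    linarith
  intro ρ hρ0 hρ1 x G
  have hρpos : 0 < ρ := h0.trans_le hρ0
  have hρlt : ρ < 1 := lt_of_le_of_lt hρ1 h1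
  set C := 2 + 8 * c * Real.exp C0 * (K ^ (1 / 2 : ℝ) + 1) / (1 - ρ₁) with hCdef
  have hC2 : 2 ≤ C := by
    have : 0 ≤ 8 * c * Real.exp C0 * (K ^ (1 / 2 : ℝ) + 1) / (1 - ρ₁) := by positivity
    linarith
  rcases Nat.eq_zero_or_pos x with hx0 | hx0
  · -- the block of x = 0
    subst hx0
    have hblock : (Finset.Icc 1 G).filter (fun g : ℕ => ⌊Real.log (g : ℝ)⌋₊ = 0) ⊆ {1, 2} := by
      intro g hg
      obtain ⟨h2, h3⟩ := Finset.mem_filter.1 hg
      have hg1 := (Finset.mem_Icc.1 h2).1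
      rw [Nat.floor_eq_zero] at h3
      have hg3 : g < 3 := by
        by_contra hge
        push Not at hge
        have h4 : (3 : ℝ) ≤ g := by exact_mod_cast hge
        have h5 : Real.exp 1 ≤ g := by
          have := Real.exp_one_lt_d9
          linarith
        have h6 : 1 ≤ Real.log g := by
          rw [Real.le_log_iff_exp_le (by linarith)]; exact h5
        linarith
      rw [Finset.mem_insert, Finset.mem_singleton]
      omega
    have hsum12 : ∀ (s : Finset ℕ) (F : ℕ → ℝ), s ⊆ {1, 2} → (∀ g, F g ≤ 1) →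
        ∑ g ∈ s, F g / (g : ℝ) ≤ 2 := by
      intro s F hs hF
      calc ∑ g ∈ s, F g / (g : ℝ) ≤ ∑ g ∈ s, (1 : ℝ) / (g : ℝ) :=
            Finset.sum_le_sum fun g _ => div_le_div_of_nonneg_right (hF g) (by positivity)
        _ ≤ ∑ g ∈ ({1, 2} : Finset ℕ), (1 : ℝ) / (g : ℝ) :=
            Finset.sum_le_sum_of_subset_of_nonneg hs fun g _ _ => by positivity
        _ ≤ 2 := by
            rw [Finset.sum_pair (by norm_num)]
            norm_num
    have hpow1 : ∀ n : ℕ, ρ ^ n ≤ 1 := fun n => pow_le_one₀ hρpos.le hρlt.le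
    constructor
    · refine (hsum12 _ (fun g => ρ ^ cardFactors g) hblock fun g => hpow1 _).trans ?_
      simp only [Nat.cast_zero, add_zero, Real.one_rpow, mul_one]
      exact hC2
    · intro a
      refine (hsum12 _ (fun g => ρ ^ a) ?_ fun g => hpow1 _).trans ?_
      · refine Finset.Subset.trans ?_ hblock
        intro g hg
        obtain ⟨h2, h3, h4⟩ := Finset.mem_filter.1 hg
        exact Finset.mem_filter.2 ⟨h2, h3⟩
      · simp only [Nat.cast_zero, add_zero, Real.one_rpow, mul_one, Real.log_one]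
        exact hC2
  -- x ≥ 1
  have hx1 : (1 : ℝ) ≤ x := by exact_mod_cast hx0
  have hxpos : (0 : ℝ) < x := by linarith
  set N := ⌊Real.exp ((x : ℝ) + 1)⌋₊ with hN
  have hNle : (N : ℝ) ≤ Real.exp ((x : ℝ) + 1) := Nat.floor_le (Real.exp_pos _).le
  have hNgt : Real.exp ((x : ℝ) + 1) < N + 1 := Nat.lt_floor_add_one _
  have hexp3 : (3 : ℝ) ≤ Real.exp ((x : ℝ) + 1) := by
    have := Real.add_one_le_exp ((x : ℝ) + 1)
    linarith
  have hN3 : 3 ≤ N := Nat.le_floor (by exact_mod_cast hexp3)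
  have hN3' : (3 : ℝ) ≤ N := by exact_mod_cast hN3
  have hexpx : Real.exp x ≤ N := by
    have e1 : Real.exp ((x : ℝ) + 1) = Real.exp x * Real.exp 1 := Real.exp_add _ _
    have e2 : (2 : ℝ) ≤ Real.exp 1 := by
      have := Real.add_one_le_exp (1 : ℝ)
      linarith
    have e3 : (1 : ℝ) ≤ Real.exp x := Real.one_le_exp hxpos.le
    nlinarith
  have hlogN_le : Real.log N ≤ x + 1 := by
    rw [Real.log_le_iff_le_exp (by linarith)]; exact hNle
  have hlogN_ge : (x : ℝ) ≤ Real.log N := by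
    rw [Real.le_log_iff_exp_le (by linarith)]; exact hexpx
  have hP := abs_le.1 (hC0 N hN3)
  have hPle : wuP N ≤ Real.log (1 + x) + C0 := by
    have h2 : Real.log (Real.log N) ≤ Real.log (1 + x) :=
      Real.log_le_log (by linarith) (by linarith)
    have h3 := hP.2
    unfold wuP
    linarith
  have hPge : Real.log (1 + x) ≤ wuP N + C0 + 1 := by
    have h2 : Real.log x ≤ Real.log (Real.log N) := Real.log_le_log hxpos hlogN_ge
    have h3 : Real.log (1 + x) ≤ Real.log (2 * x) := Real.log_le_log (by linarith) (by linarith)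
    rw [Real.log_mul (by norm_num) hxpos.ne'] at h3
    have h4 : Real.log 2 ≤ 1 := by
      have := Real.log_two_lt_d9
      linarith
    have h5 := hP.1
    unfold wuP
    linarith
  have hPnn := wuP_nonneg N
  have hlog1x : 0 ≤ Real.log (1 + x) := Real.log_nonneg (by linarith)
  -- exponential factor
  have hE1 : Real.exp (ρ * wuP N) ≤ Real.exp C0 * (1 + x) ^ ρ := by
    rw [Real.rpow_def_of_pos (by linarith : (0 : ℝ) < 1 + x), ← Real.exp_add]
    apply Real.exp_le_exp.2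
    nlinarith
  -- square root factor
  have hE2 : (1 + ρ * wuP N) ^ (-(1 / 2 : ℝ))
      ≤ K ^ (1 / 2 : ℝ) * (1 + Real.log (1 + x)) ^ (-(1 / 2 : ℝ)) := by
    have h2 : 1 + Real.log (1 + x) ≤ K * (1 + ρ * wuP N) := by
      have h3 : 1 + Real.log (1 + x) ≤ (2 + C0) * (1 + wuP N) := by nlinarith
      have h4 : ρ₀ * (1 + wuP N) ≤ 1 + ρ * wuP N := by nlinarith
      have h5 : K * (ρ₀ * (1 + wuP N)) = (2 + C0) * (1 + wuP N) := by
        rw [hK]; field_simp
      calc 1 + Real.log (1 + x) ≤ (2 + C0) * (1 + wuP N) := h3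
        _ = K * (ρ₀ * (1 + wuP N)) := h5.symm
        _ ≤ K * (1 + ρ * wuP N) := mul_le_mul_of_nonneg_left h4 hK0.le
    have h3 : 0 < 1 + ρ * wuP N := by nlinarith [mul_nonneg hρpos.le hPnn]
    have h4 : (K * (1 + ρ * wuP N)) ^ (-(1 / 2 : ℝ)) ≤ (1 + Real.log (1 + x)) ^ (-(1 / 2 : ℝ)) :=
      Real.rpow_le_rpow_of_nonpos (by linarith) h2 (by norm_num)
    rw [Real.mul_rpow hK0.le h3.le] at h4
    have h5 : K ^ (1 / 2 : ℝ) * K ^ (-(1 / 2 : ℝ)) = 1 := by
      rw [← Real.rpow_add hK0]; norm_num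
    calc (1 + ρ * wuP N) ^ (-(1 / 2 : ℝ))
        = K ^ (1 / 2 : ℝ) * (K ^ (-(1 / 2 : ℝ)) * (1 + ρ * wuP N) ^ (-(1 / 2 : ℝ))) := by
          rw [← mul_assoc, h5, one_mul]
      _ ≤ K ^ (1 / 2 : ℝ) * (1 + Real.log (1 + x)) ^ (-(1 / 2 : ℝ)) :=
          mul_le_mul_of_nonneg_left h4 hKh
  -- membership in the block
  have hblk : ∀ g : ℕ, 1 ≤ g → ⌊Real.log (g : ℝ)⌋₊ = x →
      1 ≤ g ∧ g ≤ N ∧ Real.exp x ≤ (g : ℝ) ∧ (g : ℝ) ≤ Real.exp ((x : ℝ) + 1) := by
    intro g hg hfl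
    have hg' : (1 : ℝ) ≤ g := by exact_mod_cast hg
    have hg0 : (0 : ℝ) < g := by linarith
    rw [Nat.floor_eq_iff (Real.log_nonneg hg')] at hfl
    have h3 : Real.exp x ≤ g := (Real.le_log_iff_exp_le hg0).1 hfl.1
    have h4 : (g : ℝ) ≤ Real.exp ((x : ℝ) + 1) := (Real.log_le_iff_le_exp hg0).1 hfl.2.le
    exact ⟨hg, Nat.le_floor h4, h3, h4⟩
  have hrp : (1 + (x : ℝ)) ^ (ρ - 1) = (1 + x) ^ ρ / (1 + x) := by
    rw [Real.rpow_sub_one (by linarith)]
  have hrp0 : 0 < (1 + (x : ℝ)) ^ ρ := by positivity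
  have hinv : 1 / (x : ℝ) ≤ 2 / (1 + x) := by
    rw [div_le_div_iff₀ hxpos (by linarith)]; linarith
  constructor
  · set S := ∑ g ∈ (Finset.Icc 1 G).filter (fun g : ℕ => ⌊Real.log (g : ℝ)⌋₊ = x),
      ρ ^ (cardFactors g) / (g : ℝ) with hS
    have hins := wu_ins x N ((Finset.Icc 1 G).filter (fun g : ℕ => ⌊Real.log (g : ℝ)⌋₊ = x))
      (fun g hg => by
        obtain ⟨h2, h3⟩ := Finset.mem_filter.1 hg
        exact hblk g (Finset.mem_Icc.1 h2).1 h3)
      (fun n => ρ ^ cardFactors n) (fun n => ρ ^ cardFactors n)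
      (fun n => by positivity) (fun n => by positivity)
      (fun q m hq hm _ => by
        apply pow_le_pow_of_le_one hρpos.le hρlt.le
        rw [cardFactors_mul (by omega) (by omega)]
        exact Nat.le_add_left _ _)
    have h2 := wu_total N ρ hρpos.le hρlt.le
    have h3 : (x : ℝ) * S ≤ 2 * c * Real.exp C0 * (1 + x) ^ ρ := by
      calc (x : ℝ) * S ≤ c * ∑ m ∈ Finset.Icc 1 N, ρ ^ cardFactors m / (m : ℝ) := hins
        _ ≤ c * (2 * Real.exp (ρ * wuP N)) := mul_le_mul_of_nonneg_left h2 hc0.le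
        _ ≤ c * (2 * (Real.exp C0 * (1 + x) ^ ρ)) := by
            apply mul_le_mul_of_nonneg_left _ hc0.le
            linarith
        _ = _ := by ring
    have h4 : S ≤ (2 * c * Real.exp C0 * (1 + x) ^ ρ) * (1 / x) := by
      rw [mul_one_div, le_div_iff₀ hxpos]; linarith
    have h5 : S ≤ (2 * c * Real.exp C0 * (1 + x) ^ ρ) * (2 / (1 + x)) :=
      h4.trans (mul_le_mul_of_nonneg_left hinv (by positivity))
    have h6 : 4 * c * Real.exp C0 ≤ C := by
      have h7 : 8 * c * Real.exp C0 ≤ 8 * c * Real.exp C0 * (K ^ (1 / 2 : ℝ) + 1) / (1 - ρ₁) := by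
        rw [le_div_iff₀ hd]
        have h8 : 0 ≤ 8 * c * Real.exp C0 := by positivity
        have h9 : 0 < ρ₁ := h0.trans_le h01
        nlinarith [mul_nonneg h8 hKh, mul_nonneg h8 h9.le]
      have h8 : 0 ≤ 4 * c * Real.exp C0 := by positivity
      linarith
    rw [hrp]
    calc S ≤ (2 * c * Real.exp C0 * (1 + x) ^ ρ) * (2 / (1 + x)) := h5
      _ = (4 * c * Real.exp C0) * ((1 + x) ^ ρ / (1 + x)) := by ring
      _ ≤ C * ((1 + x) ^ ρ / (1 + x)) := mul_le_mul_of_nonneg_right h6 (by positivity)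
  · intro a
    set S := ∑ g ∈ (Finset.Icc 1 G).filter
        (fun g : ℕ => ⌊Real.log (g : ℝ)⌋₊ = x ∧ cardFactors g = a), ρ ^ a / (g : ℝ) with hS
    have hins := wu_ins x N ((Finset.Icc 1 G).filter
        (fun g : ℕ => ⌊Real.log (g : ℝ)⌋₊ = x ∧ cardFactors g = a))
      (fun g hg => by
        obtain ⟨h2, h3, h4⟩ := Finset.mem_filter.1 hg
        exact hblk g (Finset.mem_Icc.1 h2).1 h3)
      (fun n => if cardFactors n = a then ρ ^ a else 0)
      (fun n => if cardFactors n < a then ρ ^ a else 0)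
      (fun n => by split_ifs <;> positivity) (fun n => by split_ifs <;> positivity)
      (fun q m hq hm hL => by
        have hq1 : cardFactors q ≠ 0 := by
          intro h
          rcases cardFactors_eq_zero_iff_eq_zero_or_one.1 h with h | h
          · omega
          · subst h
            exact hL vonMangoldt_apply_one
        rw [cardFactors_mul (by omega) (by omega)]
        by_cases h2 : cardFactors q + cardFactors m = a
        · rw [if_pos h2, if_pos (by omega)]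
        · rw [if_neg h2]
          split_ifs <;> positivity)
    have hSeq : ∑ g ∈ (Finset.Icc 1 G).filter
        (fun g : ℕ => ⌊Real.log (g : ℝ)⌋₊ = x ∧ cardFactors g = a),
        (if cardFactors g = a then ρ ^ a else 0) / (g : ℝ) = S := by
      refine Finset.sum_congr rfl fun g hg => ?_
      rw [if_pos (Finset.mem_filter.1 hg).2.2]
    rw [hSeq] at hins
    set W := 2 * Real.exp (ρ * wuP N) * (1 + ρ * wuP N) ^ (-(1 / 2 : ℝ)) with hW
    have hlam : 0 ≤ ρ * wuP N := mul_nonneg hρpos.le hPnn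
    have hW0 : 0 ≤ W := by positivity
    have h2 : ∑ m ∈ Finset.Icc 1 N, (if cardFactors m < a then ρ ^ a else 0) / (m : ℝ)
        ≤ (1 / (1 - ρ₁)) * (2 * W) := by
      have e1 : ∑ m ∈ Finset.Icc 1 N, (if cardFactors m < a then ρ ^ a else 0) / (m : ℝ)
          = ∑ m ∈ (Finset.Icc 1 N).filter (fun m => cardFactors m < a), ρ ^ a / (m : ℝ) := by
        rw [Finset.sum_filter]
        refine Finset.sum_congr rfl fun m _ => ?_
        split_ifs <;> simp
      rw [e1, ← Finset.sum_fiberwise_of_maps_to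
        (s := (Finset.Icc 1 N).filter (fun m => cardFactors m < a)) (t := Finset.range a)
        (g := fun m => cardFactors m) (fun m hm => Finset.mem_range.2 (Finset.mem_filter.1 hm).2)]
      calc ∑ r ∈ Finset.range a, ∑ m ∈ ((Finset.Icc 1 N).filter
            (fun m => cardFactors m < a)).filter (fun m => cardFactors m = r), ρ ^ a / (m : ℝ)
          ≤ ∑ r ∈ Finset.range a, ρ ^ (a - r) * (2 * W) := by
            refine Finset.sum_le_sum fun r hr => ?_
            have hra := Finset.mem_range.1 hr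
            have e2 : ((Finset.Icc 1 N).filter (fun m => cardFactors m < a)).filter
                (fun m => cardFactors m = r)
                = (Finset.Icc 1 N).filter (fun m => cardFactors m = r) := by
              rw [Finset.filter_filter]
              refine Finset.filter_congr fun m _ => ?_
              constructor
              · exact fun h => h.2
              · exact fun h => ⟨by omega, h⟩
            rw [e2]
            have e3 : ∑ m ∈ (Finset.Icc 1 N).filter (fun m => cardFactors m = r), ρ ^ a / (m : ℝ)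
                = ρ ^ (a - r) *
                  ∑ m ∈ (Finset.Icc 1 N).filter (fun m => cardFactors m = r), ρ ^ r / (m : ℝ) := by
              rw [Finset.mul_sum]
              refine Finset.sum_congr rfl fun m _ => ?_
              have : ρ ^ a = ρ ^ (a - r) * ρ ^ r := by
                rw [← pow_add]; congr 1; omega
              rw [this]; ring
            rw [e3]
            exact mul_le_mul_of_nonneg_left (wu_fixed N ρ hρpos.le hρlt.le r) (by positivity)
        _ = (∑ r ∈ Finset.range a, ρ ^ (a - r)) * (2 * W) := by rw [Finset.sum_mul]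
        _ ≤ (1 / (1 - ρ)) * (2 * W) :=
            mul_le_mul_of_nonneg_right (wu_geom ρ hρpos.le hρlt a) (by positivity)
        _ ≤ (1 / (1 - ρ₁)) * (2 * W) := by
            apply mul_le_mul_of_nonneg_right _ (by positivity)
            exact one_div_le_one_div_of_le hd (by linarith)
    set L := (1 + Real.log (1 + (x : ℝ))) ^ (-(1 / 2 : ℝ)) with hL
    have hL0 : 0 < L := by positivity
    have hWle : W ≤ 2 * (Real.exp C0 * (1 + x) ^ ρ) * (K ^ (1 / 2 : ℝ) * L) := by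
      rw [hW]
      apply mul_le_mul _ hE2 (by positivity) (by positivity)
      linarith
    have h3 : (x : ℝ) * S
        ≤ c * ((1 / (1 - ρ₁)) * (2 * (2 * (Real.exp C0 * (1 + x) ^ ρ) * (K ^ (1 / 2 : ℝ) * L)))) := by
      calc (x : ℝ) * S ≤ c * ∑ m ∈ Finset.Icc 1 N,
            (if cardFactors m < a then ρ ^ a else 0) / (m : ℝ) := hins
        _ ≤ c * ((1 / (1 - ρ₁)) * (2 * W)) := mul_le_mul_of_nonneg_left h2 hc0.le
        _ ≤ _ := by
            apply mul_le_mul_of_nonneg_left _ hc0.le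
            apply mul_le_mul_of_nonneg_left _ (by positivity)
            linarith
    have h4 : S ≤ (c * ((1 / (1 - ρ₁)) *
        (2 * (2 * (Real.exp C0 * (1 + x) ^ ρ) * (K ^ (1 / 2 : ℝ) * L))))) * (1 / x) := by
      rw [mul_one_div, le_div_iff₀ hxpos]; linarith
    have h5 : S ≤ (c * ((1 / (1 - ρ₁)) *
        (2 * (2 * (Real.exp C0 * (1 + x) ^ ρ) * (K ^ (1 / 2 : ℝ) * L))))) * (2 / (1 + x)) :=
      h4.trans (mul_le_mul_of_nonneg_left hinv (by positivity))
    have h6 : 8 * c * Real.exp C0 * K ^ (1 / 2 : ℝ) / (1 - ρ₁) ≤ C := by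
      have h7 : 8 * c * Real.exp C0 * K ^ (1 / 2 : ℝ) / (1 - ρ₁)
          ≤ 8 * c * Real.exp C0 * (K ^ (1 / 2 : ℝ) + 1) / (1 - ρ₁) := by
        apply div_le_div_of_nonneg_right _ hd.le
        apply mul_le_mul_of_nonneg_left _ (by positivity)
        linarith
      linarith
    rw [hrp]
    calc S ≤ (c * ((1 / (1 - ρ₁)) *
        (2 * (2 * (Real.exp C0 * (1 + x) ^ ρ) * (K ^ (1 / 2 : ℝ) * L))))) * (2 / (1 + x)) := h5
      _ = (8 * c * Real.exp C0 * K ^ (1 / 2 : ℝ) / (1 - ρ₁)) * ((1 + x) ^ ρ / (1 + x)) * L := by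
          ring
      _ ≤ C * ((1 + x) ^ ρ / (1 + x)) * L := by
          apply mul_le_mul_of_nonneg_right _ hL0.le
          exact mul_le_mul_of_nonneg_right h6 (by positivity)

end Pool.Agent.Helper256.KM
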