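import Mathlib
import Pool.Agent.Helper256.KM.Defs
import Pool.Agent.Helper256.KM.HF
import Pool.Agent.Helper256.KM.WU
import Pool.Agent.Helper256.KM.L3

set_option autoImplicit false

namespace Pool.Agent.Helper256.KM

open Finset ArithmeticFunction

theorem Om_prod {ι : Type*} (s : Finset ι) (g : ι → ℕ) (hg : ∀ i ∈ s, g i ≠ 0) :
    cardFactors (∏ i ∈ s, g i) = ∑ i ∈ s, cardFactors (g i) := by
  classical
  induction s using Finset.induction_on with
  | empty => simp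
  | insert a s ha ih =>
    rw [Finset.prod_insert ha, Finset.sum_insert ha,
      cardFactors_mul (hg a (Finset.mem_insert_self a s))
        (Finset.prod_ne_zero_iff.2 fun i hi => hg i (Finset.mem_insert_of_mem hi)),
      ih fun i hi => hg i (Finset.mem_insert_of_mem hi)]

theorem p1_nonneg (Q : Finset ℕ) : 0 ≤ p1 Q := Finset.sum_nonneg fun p _ => by positivity

theorem Hf_le' {CH : ℝ} (hCH : 0 < CH) (hH : ∀ (M : ℝ) (r b : ℕ) (ρ s : ℝ), 1 ≤ M →
    (r : ℝ) ≤ p1 (pr ⌊M⌋₊) / 2 → 0 < ρ → 0 ≤ s →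
    (r : ℝ) ≤ p1 (pr ⌊M⌋₊) * ρ * Real.exp s →
    Hf M (r + 1) b ≤ CH * (p1 (pr ⌊M⌋₊) ^ r / (r.factorial : ℝ)) * ρ ^ b *
      Real.exp (s * b - (b : ℝ) ^ 2 / (2 * r)))
    (M : ℝ) (r b : ℕ) (ρ s : ℝ) (hM : 1 ≤ M) (hr : (r : ℝ) ≤ p1 (pr ⌊M⌋₊) / 2) (hρ : 0 < ρ)
    (hs : 0 ≤ s) (hrs : (r : ℝ) ≤ p1 (pr ⌊M⌋₊) * ρ * Real.exp s) :
    Hf M (r + 1) b ≤ CH * (p1 (pr ⌊M⌋₊) ^ r / (r.factorial : ℝ)) * ρ ^ b *
      Real.exp (r * s ^ 2 / 2) := by
  have hp := p1_nonneg (pr ⌊M⌋₊)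
  rcases Nat.eq_zero_or_pos r with h0 | h0
  · subst h0
    rcases Nat.eq_zero_or_pos b with hb | hb
    · subst hb
      refine (hH M 0 0 ρ s hM hr hρ hs hrs).trans ?_
      simp
    · have : Hf M (0 + 1) b = 0 := by
        unfold Hf
        rw [Finset.filter_false_of_mem, Finset.sum_empty]
        intro d _
        omega
      rw [this]
      positivity
  · refine (hH M r b ρ s hM hr hρ hs hrs).trans ?_
    refine mul_le_mul_of_nonneg_left ?_ (by positivity)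
    rw [Real.exp_le_exp]
    have hr0 : (0:ℝ) < r := by exact_mod_cast h0
    have h1 : 0 ≤ ((b:ℝ) - s * r) ^ 2 / (2 * r) := by positivity
    have h2 : ((b:ℝ) - s * r) ^ 2 / (2 * r) = (b:ℝ)^2 / (2 * r) - s * b + r * s ^ 2 / 2 := by
      field_simp
      ring
    linarith

/-- the array of a matrix -/
noncomputable def fo {k : ℕ} (τ : Fin k → Fin k) (o : Fin k → Fin k → ℕ) : Fin k → Fin k → ℕ × ℕ :=
  fun i j => (⌊Real.log (o (τ i) j : ℝ)⌋₊, cardFactors (o (τ i) j))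

/-- the scale of a matrix -/
noncomputable def Ef {k : ℕ} (τ : Fin k → Fin k) (o : Fin k → Fin k → ℕ) : ℕ :=
  Nat.log 2 ((Finset.univ.sup fun c : Fin k × Fin k => (fo τ o c.1 c.2).1) + 1)

/-- the cell sums -/
noncomputable def omm (ρ : ℝ) (N : ℕ) (x a : ℕ) : ℝ :=
  ∑ g ∈ (Finset.Icc 1 N).filter (fun g : ℕ => ⌊Real.log (g : ℝ)⌋₊ = x ∧ cardFactors g = a),
    ρ ^ a / (g : ℝ)

theorem diag_sum_PM {k : ℕ} (v : Fin k → Fin k → ℤ) (hv : ∀ i, v i i = 0) (b : Fin k) :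
    (∑ i, ∑ j, if j = b ∧ i ≠ b then v i j else 0) = ∑ i, v i b := by
  refine Finset.sum_congr rfl fun i _ => ?_
  by_cases hi : i = b
  · subst hi
    simp [hv]
  · simp [hi]

theorem diag_sum' {k : ℕ} (v : Fin k → Fin k → ℤ) (hv : ∀ i, v i i = 0) (b : Fin k) :
    (∑ i, ∑ j, if i = b ∧ j ≠ b then v i j else 0) = ∑ j, v b j := by
  rw [Finset.sum_comm]
  exact diag_sum_PM (fun j i => v i j) hv b

theorem floor_bal {k : ℕ} (g h : Fin k → ℕ) (hg : ∀ i, 0 ≤ Real.log (g i : ℝ))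
    (hh : ∀ i, 0 ≤ Real.log (h i : ℝ))
    (hX : |∑ i, Real.log (g i : ℝ) - ∑ i, Real.log (h i : ℝ)| ≤ k) :
    |(∑ i, ((⌊Real.log (g i : ℝ)⌋₊ : ℕ) : ℤ)) - ∑ i, ((⌊Real.log (h i : ℝ)⌋₊ : ℕ) : ℤ)| ≤
      ((3 * k : ℕ) : ℤ) := by
  have hA : ∀ (g : Fin k → ℕ), (∀ i, 0 ≤ Real.log (g i : ℝ)) →
      (∑ i, ((⌊Real.log (g i : ℝ)⌋₊ : ℕ) : ℝ)) ≤ ∑ i, Real.log (g i : ℝ) ∧
      ∑ i, Real.log (g i : ℝ) ≤ (∑ i, ((⌊Real.log (g i : ℝ)⌋₊ : ℕ) : ℝ)) + k := by
    intro g hg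
    constructor
    · exact Finset.sum_le_sum fun i _ => Nat.floor_le (hg i)
    · have : (k : ℝ) = ∑ _i : Fin k, (1:ℝ) := by simp
      rw [this, ← Finset.sum_add_distrib]
      exact Finset.sum_le_sum fun i _ => (Nat.lt_floor_add_one _).le
  have h1 := hA g hg
  have h2 := hA h hh
  have h3 := abs_le.1 hX
  have hk0 : (0:ℝ) ≤ k := Nat.cast_nonneg k
  have h4 : |((∑ i, ((⌊Real.log (g i : ℝ)⌋₊ : ℕ) : ℝ)) - ∑ i, ((⌊Real.log (h i : ℝ)⌋₊ : ℕ) : ℝ))| ≤
      3 * (k : ℝ) := by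
    rw [abs_le]
    constructor
    · linarith [h1.1, h1.2, h2.1, h2.2, h3.1, h3.2]
    · linarith [h1.1, h1.2, h2.1, h2.2, h3.1, h3.2]
  have h5 : ((|(∑ i, ((⌊Real.log (g i : ℝ)⌋₊ : ℕ) : ℤ)) -
      ∑ i, ((⌊Real.log (h i : ℝ)⌋₊ : ℕ) : ℤ)| : ℤ) : ℝ) ≤ (((3 * k : ℕ) : ℤ) : ℝ) := by
    push_cast
    exact h4
  exact_mod_cast h5

theorem fo_mem {k : ℕ} (hk : 3 ≤ k) (M : ℝ) (m : ℕ) (σ : Equiv.Perm (Fin k)) (G : ℕ)
    (hG : ∀ g ∈ Finset.Icc 1 ⌊M⌋₊, cardFactors g < G)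
    (o : Fin k → Fin k → ℕ) (ho : o ∈ Off2 k M m σ) :
    fo (σ.symm) o ∈ (LS k (3 * k) (fun i : Fin k => i) (Ef σ.symm o + 1) G).filter
        (fun f => ∃ i j : Fin k, i ≠ j ∧ 2 ^ (Ef σ.symm o) ≤ (f i j).1 + 1) := by
  classical
  obtain ⟨ho1, ho2⟩ := Finset.mem_filter.1 ho
  obtain ⟨ho3, ho4⟩ := Finset.mem_filter.1 ho1
  have hmem : ∀ i j, o i j ∈ (if j = σ i then {1} else Finset.Icc 1 ⌊M⌋₊ : Finset ℕ) := by
    intro i j
    exact Fintype.mem_piFinset.1 (Fintype.mem_piFinset.1 ho3 i) j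
  have hone : ∀ i, o i (σ i) = 1 := by
    intro i
    have := hmem i (σ i)
    rwa [if_pos rfl, Finset.mem_singleton] at this
  have hpos : ∀ i j, 1 ≤ o i j := by
    intro i j
    have := hmem i j
    split_ifs at this
    · rw [Finset.mem_singleton] at this; omega
    · exact (Finset.mem_Icc.1 this).1
  have hdiag : ∀ i, fo (σ.symm) o i i = (0, 0) := by
    intro i
    have h1 : o (σ.symm i) i = 1 := by
      have := hone (σ.symm i)
      rwa [Equiv.apply_symm_apply] at this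
    unfold fo
    rw [h1]
    simp
  have hlog0 : ∀ i j, 0 ≤ Real.log (o i j : ℝ) := fun i j =>
    Real.log_nonneg (by exact_mod_cast hpos i j)
  have hle : ∀ i j, (fo (σ.symm) o i j).1 ≤
      Finset.univ.sup fun c : Fin k × Fin k => (fo (σ.symm) o c.1 c.2).1 := fun i j =>
    Finset.le_sup (f := fun c : Fin k × Fin k => (fo (σ.symm) o c.1 c.2).1) (Finset.mem_univ (i, j))
  have hlt : ∀ i j, (fo (σ.symm) o i j).1 + 1 < 2 ^ (Ef σ.symm o + 1) := by
    intro i j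
    have h1 := hle i j
    have h2 := Nat.lt_pow_succ_log_self (b := 2) (by norm_num)
      ((Finset.univ.sup fun c : Fin k × Fin k => (fo (σ.symm) o c.1 c.2).1) + 1)
    unfold Ef
    omega
  rw [Finset.mem_filter]
  constructor
  · unfold LS
    rw [Finset.mem_filter]
    constructor
    · rw [Fintype.mem_piFinset]
      intro i
      rw [Fintype.mem_piFinset]
      intro j
      by_cases hij : i = j
      · subst hij
        rw [if_pos rfl, hdiag, Finset.mem_singleton]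
      · rw [if_neg hij, Finset.mem_product, Finset.mem_range, Finset.mem_range]
        constructor
        · have := hlt i j
          omega
        · have h1 := hmem (σ.symm i) j
          rw [if_neg (by rw [Equiv.apply_symm_apply]; exact fun h => hij h.symm)] at h1
          exact hG _ h1
    · intro b
      have hd1 : ∀ i, ((fo (σ.symm) o i i).1 : ℤ) = 0 := fun i => by rw [hdiag]; rfl
      have hd2 : ∀ i, ((fo (σ.symm) o i i).2 : ℤ) = 0 := fun i => by rw [hdiag]; rfl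
      rw [diag_sum_PM (fun i j => ((fo (σ.symm) o i j).1 : ℤ)) hd1 b,
        diag_sum' (fun i j => ((fo (σ.symm) o i j).1 : ℤ)) hd1 b,
        diag_sum_PM (fun i j => ((fo (σ.symm) o i j).2 : ℤ)) hd2 b,
        diag_sum' (fun i j => ((fo (σ.symm) o i j).2 : ℤ)) hd2 b]
      have hfil : Finset.univ.filter (fun i => σ i = b) = {σ.symm b} := by
        ext i
        rw [Finset.mem_filter, Finset.mem_singleton]
        constructor
        · rintro ⟨_, h⟩; rw [← h, Equiv.symm_apply_apply]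
        · rintro rfl; exact ⟨Finset.mem_univ _, Equiv.apply_symm_apply _ _⟩
      constructor
      · have hX := ho4 b
        unfold XX at hX
        rw [hfil, Finset.sum_singleton, Finset.card_singleton] at hX
        rw [Nat.cast_prod, Nat.cast_prod,
          Real.log_prod (fun i _ => by have := hpos i b; positivity),
          Real.log_prod (fun j _ => by have := hpos (σ.symm b) j; positivity)] at hX
        have e1 : ∑ i, ((fo (σ.symm) o i b).1 : ℤ) = ∑ i, ((⌊Real.log (o i b : ℝ)⌋₊ : ℕ) : ℤ) :=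
          Equiv.sum_comp σ.symm (fun i => ((⌊Real.log (o i b : ℝ)⌋₊ : ℕ) : ℤ))
        have e2 : ∑ j, ((fo (σ.symm) o b j).1 : ℤ) = ∑ j, ((⌊Real.log (o (σ.symm b) j : ℝ)⌋₊ : ℕ) : ℤ) := rfl
        rw [e1, e2]
        refine floor_bal (fun i => o i b) (fun j => o (σ.symm b) j) (fun i => hlog0 i b)
          (fun j => hlog0 (σ.symm b) j) ?_
        rwa [Nat.cast_one, sub_self, zero_mul, add_zero] at hX
      · have e1 : ∑ i, ((fo (σ.symm) o i b).2 : ℤ) = ∑ i, ((cardFactors (o i b) : ℕ) : ℤ) :=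
          Equiv.sum_comp σ.symm (fun i => ((cardFactors (o i b) : ℕ) : ℤ))
        have e2 : ∑ j, ((fo (σ.symm) o b j).2 : ℤ) = ∑ j, ((cardFactors (o (σ.symm b) j) : ℕ) : ℤ) := rfl
        rw [e1, e2]
        have h1 := ho2.2 σ.bijective (σ.symm b)
        rw [Equiv.apply_symm_apply, Om_prod _ _ (fun i _ => by have := hpos i b; omega),
          Om_prod _ _ (fun j _ => by have := hpos (σ.symm b) j; omega)] at h1
        exact_mod_cast h1
  · -- attained
    have hne : (Finset.univ : Finset (Fin k × Fin k)).Nonempty := ⟨(⟨0, by omega⟩, ⟨0, by omega⟩), Finset.mem_univ _⟩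
    obtain ⟨c, _, hc⟩ := Finset.exists_mem_eq_sup _ hne
      (fun c : Fin k × Fin k => (fo (σ.symm) o c.1 c.2).1)
    have hself := Nat.pow_log_le_self 2 (x := (Finset.univ.sup fun c : Fin k × Fin k => (fo (σ.symm) o c.1 c.2).1) + 1)
      (by omega)
    by_cases hcc : c.1 = c.2
    · refine ⟨⟨0, by omega⟩, ⟨1, by omega⟩, by simp, ?_⟩
      have h0 : (Finset.univ.sup fun c : Fin k × Fin k => (fo (σ.symm) o c.1 c.2).1) = 0 := by
        rw [hc, hcc, hdiag]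
      unfold Ef
      rw [h0]
      simp
    · refine ⟨c.1, c.2, hcc, ?_⟩
      unfold Ef
      refine hself.trans ?_
      rw [hc]

theorem cell_sum_PM {k : ℕ} (σ : Equiv.Perm (Fin k)) (ρ : ℝ) (hρ : 0 < ρ) (N : ℕ)
    (O : Finset (Fin k → Fin k → ℕ)) (hone : ∀ o ∈ O, ∀ i, o i (σ i) = 1)
    (hIcc : ∀ o ∈ O, ∀ i j, j ≠ σ i → o i j ∈ Finset.Icc 1 N) (f : Fin k → Fin k → ℕ × ℕ)
    (hf : ∀ o ∈ O, fo σ.symm o = f) :
    ∑ o ∈ O, ∏ i, ∏ j, ρ ^ (cardFactors (o i j)) / (o i j : ℝ) ≤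
      wt (omm ρ N) (fun i : Fin k => i) f := by
  classical
  set w : ℕ → ℝ := fun g => ρ ^ (cardFactors g) / (g : ℝ) with hw
  have hw0 : ∀ g, 0 ≤ w g := fun g => by positivity
  set t : Fin k → Fin k → Finset ℕ := fun i j => if i = j then {1} else
    (Finset.Icc 1 N).filter (fun g : ℕ => ⌊Real.log (g : ℝ)⌋₊ = (f i j).1 ∧ cardFactors g = (f i j).2)
    with ht
  have h1 : wt (omm ρ N) (fun i : Fin k => i) f = ∏ i, ∏ j, ∑ g ∈ t i j, w g := by
    unfold wt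
    refine Finset.prod_congr rfl fun i _ => Finset.prod_congr rfl fun j _ => ?_
    by_cases hij : i = j
    · rw [if_pos hij]
      simp only [ht]
      rw [if_pos hij, Finset.sum_singleton]
      simp [hw]
    · rw [if_neg hij]
      simp only [ht]
      rw [if_neg hij]
      unfold omm
      refine Finset.sum_congr rfl fun g hg => ?_
      simp only [hw]
      rw [(Finset.mem_filter.1 hg).2.2]
  have h2 : ∏ i, ∏ j, ∑ g ∈ t i j, w g =
      ∑ h ∈ Fintype.piFinset (fun i => Fintype.piFinset (t i)), ∏ i, ∏ j, w (h i j) := by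
    simp only [Finset.prod_univ_sum]
  rw [h1, h2]
  have h3 : ∑ o ∈ O, ∏ i, ∏ j, w (o i j) = ∑ o ∈ O, ∏ i, ∏ j, w (o (σ.symm i) j) := by
    refine Finset.sum_congr rfl fun o _ => ?_
    exact (Equiv.prod_comp σ.symm (fun i => ∏ j, w (o i j))).symm
  change ∑ o ∈ O, ∏ i, ∏ j, w (o i j) ≤ _
  rw [h3]
  have hinj : Set.InjOn (fun (o : Fin k → Fin k → ℕ) => (fun i j => o (σ.symm i) j : Fin k → Fin k → ℕ))
      (O : Set (Fin k → Fin k → ℕ)) := by
    intro o _ o' _ h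
    funext i j
    have := congrFun (congrFun h (σ i)) j
    simpa using this
  rw [← Finset.sum_image (f := fun h : Fin k → Fin k → ℕ => ∏ i, ∏ j, w (h i j)) hinj]
  refine Finset.sum_le_sum_of_subset_of_nonneg ?_
    (fun h _ _ => Finset.prod_nonneg fun i _ => Finset.prod_nonneg fun j _ => hw0 _)
  intro h hh
  obtain ⟨o, ho, rfl⟩ := Finset.mem_image.1 hh
  rw [Fintype.mem_piFinset]
  intro i
  rw [Fintype.mem_piFinset]
  intro j
  simp only [ht]
  by_cases hij : i = j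
  · subst hij
    rw [if_pos rfl, Finset.mem_singleton]
    have := hone o ho (σ.symm i)
    rwa [Equiv.apply_symm_apply] at this
  · rw [if_neg hij, Finset.mem_filter]
    refine ⟨hIcc o ho _ _ (by rw [Equiv.apply_symm_apply]; exact fun h => hij h.symm), ?_⟩
    have h4 := congrFun (congrFun (hf o ho) i) j
    unfold fo at h4
    rw [← h4]
    exact ⟨rfl, rfl⟩

theorem perm_bound {k : ℕ} (hk : 3 ≤ k) : ∃ C : ℝ, 0 < C ∧ ∀ (M : ℝ) (r : ℕ), 1 ≤ M →
    (r : ℝ) ≤ p1 (pr ⌊M⌋₊) / 2 → ∀ σ : Fin k → Fin k, Function.Bijective σ →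
    ∀ (rs ss : ℕ → ℝ), (∀ E, (1 - 1 / (4 * (k : ℝ))) / k ≤ rs E ∧
      rs E ≤ (1 + 1 / (4 * (k : ℝ))) / k ∧ 0 ≤ ss E ∧
      (r : ℝ) ≤ p1 (pr ⌊M⌋₊) * rs E * Real.exp (ss E)) →
    ∃ E₀ : ℕ, ∑ o ∈ Off2 k M (r + 1) σ, (∏ i, Hf M (r + 1) (cardFactors (∏ j, o i j))) *
        ∏ i, ∏ j, (1 : ℝ) / (o i j : ℝ) ≤
      C * (p1 (pr ⌊M⌋₊) ^ r / (r.factorial : ℝ)) ^ k * ∑ E ∈ Finset.range E₀,
        Real.exp (k * r * ss E ^ 2 / 2) * (2 : ℝ) ^ (((k : ℝ) - 1) * (k * rs E - 1) * E) *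
          (1 + (E : ℝ)) ^ (-(((k : ℝ) - 1) / 2)) := by
  classical
  have hk0 : (0:ℝ) < k := by
    have : 0 < k := by omega
    exact_mod_cast this
  have hk3 : (3:ℝ) ≤ k := by exact_mod_cast hk
  have hρ0 : 0 < (1 - 1 / (4 * (k : ℝ))) / k := by
    apply div_pos _ hk0
    rw [sub_pos, div_lt_one (by positivity)]
    linarith
  have hρ1 : (1 + 1 / (4 * (k : ℝ))) / k < 1 := by
    rw [div_lt_one hk0]
    have : 1 / (4 * (k : ℝ)) ≤ 1 := by
      rw [div_le_one (by positivity)]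
      linarith
    linarith
  obtain ⟨CH, hCH, hH⟩ := Hf_le
  obtain ⟨C1, hC1, hW⟩ := w_unif hρ0 hρ1
  obtain ⟨C2, hC2, hL⟩ := lattice_top hk hC1 (3 * k)
  refine ⟨CH ^ k * C2, by positivity, ?_⟩
  intro M r hM hr σ0 hσ0 rs ss hrs
  set σ : Equiv.Perm (Fin k) := Equiv.ofBijective σ0 hσ0 with hσ
  have hσe : (σ : Fin k → Fin k) = σ0 := rfl
  rw [← hσe]
  set p := p1 (pr ⌊M⌋₊) with hp
  have hp0 : 0 ≤ p := p1_nonneg _
  set G : ℕ := (Finset.Icc 1 ⌊M⌋₊).sup (fun g => cardFactors g) + 1 with hGdef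
  have hG : ∀ g ∈ Finset.Icc 1 ⌊M⌋₊, cardFactors g < G := by
    intro g hg
    have h9 : cardFactors g ≤ (Finset.Icc 1 ⌊M⌋₊).sup (fun g => cardFactors g) :=
      Finset.le_sup (f := fun g => cardFactors g) hg
    omega
  set O := Off2 k M (r + 1) σ with hO
  refine ⟨O.sup (Ef σ.symm) + 1, ?_⟩
  have hmaps : ∀ o ∈ O, Ef σ.symm o ∈ Finset.range (O.sup (Ef σ.symm) + 1) := by
    intro o ho
    rw [Finset.mem_range]
    have := Finset.le_sup (f := Ef σ.symm) ho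
    omega
  rw [← Finset.sum_fiberwise_of_maps_to hmaps, Finset.mul_sum]
  refine Finset.sum_le_sum fun E _ => ?_
  obtain ⟨hr1, hr2, hs0, hr3⟩ := hrs E
  have hρpos : 0 < rs E := lt_of_lt_of_le hρ0 hr1
  set ρ := rs E with hρ
  set s := ss E with hs
  have hone : ∀ o ∈ O, ∀ i, o i (σ i) = 1 := by
    intro o ho i
    have h1 := Fintype.mem_piFinset.1 (Fintype.mem_piFinset.1
      (Finset.mem_filter.1 (Finset.mem_filter.1 ho).1).1 i) (σ i)
    rwa [if_pos rfl, Finset.mem_singleton] at h1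
  have hIcc : ∀ o ∈ O, ∀ i j, j ≠ σ i → o i j ∈ Finset.Icc 1 ⌊M⌋₊ := by
    intro o ho i j hij
    have h1 := Fintype.mem_piFinset.1 (Fintype.mem_piFinset.1
      (Finset.mem_filter.1 (Finset.mem_filter.1 ho).1).1 i) j
    rwa [if_neg hij] at h1
  have hpos : ∀ o ∈ O, ∀ i j, 1 ≤ o i j := by
    intro o ho i j
    by_cases hij : j = σ i
    · rw [hij, hone o ho i]
    · exact (Finset.mem_Icc.1 (hIcc o ho i j hij)).1
  have hterm : ∀ o ∈ O, (∏ i, Hf M (r + 1) (cardFactors (∏ j, o i j))) *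
        ∏ i, ∏ j, (1 : ℝ) / (o i j : ℝ) ≤
      (CH ^ k * (p ^ r / (r.factorial : ℝ)) ^ k * Real.exp (k * r * s ^ 2 / 2)) *
        ∏ i, ∏ j, ρ ^ (cardFactors (o i j)) / (o i j : ℝ) := by
    intro o ho
    have h1 : ∏ i, Hf M (r + 1) (cardFactors (∏ j, o i j)) ≤
        ∏ i : Fin k, (CH * (p ^ r / (r.factorial : ℝ)) * ρ ^ (cardFactors (∏ j, o i j)) *
          Real.exp (r * s ^ 2 / 2)) := by
      refine Finset.prod_le_prod (fun i _ => ?_) (fun i _ => ?_)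
      · unfold Hf
        exact Finset.sum_nonneg fun d _ => by positivity
      · exact Hf_le' hCH hH M r _ ρ s hM hr hρpos hs0 hr3
    have h2 : ∏ i : Fin k, (CH * (p ^ r / (r.factorial : ℝ)) * ρ ^ (cardFactors (∏ j, o i j)) *
          Real.exp (r * s ^ 2 / 2)) = (CH ^ k * (p ^ r / (r.factorial : ℝ)) ^ k *
            Real.exp (k * r * s ^ 2 / 2)) * ∏ i, ∏ j, ρ ^ (cardFactors (o i j)) := by
      rw [Finset.prod_mul_distrib, Finset.prod_mul_distrib, Finset.prod_mul_distrib,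
        Finset.prod_const, Finset.prod_const, Finset.prod_const, Finset.card_univ, Fintype.card_fin,
        ← Real.exp_nat_mul]
      have h3 : ∏ i : Fin k, ρ ^ (cardFactors (∏ j, o i j)) = ∏ i, ∏ j, ρ ^ (cardFactors (o i j)) := by
        refine Finset.prod_congr rfl fun i _ => ?_
        rw [Om_prod _ _ (fun j _ => by have := hpos o ho i j; omega), Finset.prod_pow_eq_pow_sum]
      rw [h3]
      have h4 : (k:ℝ) * (r * s ^ 2 / 2) = k * r * s ^ 2 / 2 := by ring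
      rw [h4]
      ring
    have h5 : 0 ≤ ∏ i, ∏ j, (1 : ℝ) / (o i j : ℝ) :=
      Finset.prod_nonneg fun i _ => Finset.prod_nonneg fun j _ => by positivity
    refine (mul_le_mul_of_nonneg_right (h1.trans_eq h2) h5).trans_eq ?_
    rw [mul_assoc, ← Finset.prod_mul_distrib]
    congr 1
    refine Finset.prod_congr rfl fun i _ => ?_
    rw [← Finset.prod_mul_distrib]
    refine Finset.prod_congr rfl fun j _ => ?_
    rw [mul_one_div]
  have hA0 : 0 ≤ CH ^ k * (p ^ r / (r.factorial : ℝ)) ^ k * Real.exp (k * r * s ^ 2 / 2) := by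
    positivity
  have hsum1 : ∑ o ∈ O.filter (fun o => Ef σ.symm o = E),
      (∏ i, Hf M (r + 1) (cardFactors (∏ j, o i j))) * ∏ i, ∏ j, (1 : ℝ) / (o i j : ℝ) ≤
      (CH ^ k * (p ^ r / (r.factorial : ℝ)) ^ k * Real.exp (k * r * s ^ 2 / 2)) *
        ∑ o ∈ O.filter (fun o => Ef σ.symm o = E),
          ∏ i, ∏ j, ρ ^ (cardFactors (o i j)) / (o i j : ℝ) := by
    rw [Finset.mul_sum]
    exact Finset.sum_le_sum fun o ho => hterm o (Finset.mem_filter.1 ho).1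
  have hsum2 : ∑ o ∈ O.filter (fun o => Ef σ.symm o = E),
          ∏ i, ∏ j, ρ ^ (cardFactors (o i j)) / (o i j : ℝ) ≤
      ∑ f ∈ (LS k (3 * k) (fun i : Fin k => i) (E + 1) G).filter
        (fun f => ∃ i j : Fin k, i ≠ j ∧ 2 ^ E ≤ (f i j).1 + 1),
        wt (omm ρ ⌊M⌋₊) (fun i : Fin k => i) f := by
    have hmf : ∀ o ∈ O.filter (fun o => Ef σ.symm o = E), fo σ.symm o ∈
        (LS k (3 * k) (fun i : Fin k => i) (E + 1) G).filter
        (fun f => ∃ i j : Fin k, i ≠ j ∧ 2 ^ E ≤ (f i j).1 + 1) := by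
      intro o ho
      obtain ⟨ho1, ho2⟩ := Finset.mem_filter.1 ho
      have := fo_mem hk M (r + 1) σ G hG o ho1
      rwa [ho2] at this
    rw [← Finset.sum_fiberwise_of_maps_to hmf]
    refine Finset.sum_le_sum fun f _ => ?_
    refine cell_sum_PM σ ρ hρpos ⌊M⌋₊ _ ?_ ?_ f ?_
    · intro o ho
      exact hone o (Finset.mem_filter.1 (Finset.mem_filter.1 ho).1).1
    · intro o ho
      exact hIcc o (Finset.mem_filter.1 (Finset.mem_filter.1 ho).1).1
    · intro o ho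
      exact (Finset.mem_filter.1 ho).2
  have hsum3 := hL ρ (omm ρ ⌊M⌋₊) hr1 hr2
    (fun x a => Finset.sum_nonneg fun g _ => by positivity)
    (by
      intro x G'
      refine le_trans ?_ ((hW ρ hr1 hr2 x ⌊M⌋₊).1)
      have h1 : ∀ a, omm ρ ⌊M⌋₊ x a = ∑ g ∈ ((Finset.Icc 1 ⌊M⌋₊).filter
          (fun g : ℕ => ⌊Real.log (g : ℝ)⌋₊ = x)).filter (fun g => cardFactors g = a),
          ρ ^ (cardFactors g) / (g : ℝ) := by
        intro a
        unfold omm
        rw [Finset.filter_filter]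
        refine Finset.sum_congr rfl fun g hg => ?_
        rw [(Finset.mem_filter.1 hg).2.2]
      simp only [h1]
      rw [Finset.sum_fiberwise_eq_sum_filter]
      exact Finset.sum_le_sum_of_subset_of_nonneg (Finset.filter_subset _ _)
        (fun g _ _ => by positivity))
    (by
      intro x a
      exact (hW ρ hr1 hr2 x ⌊M⌋₊).2 a) E G
  refine hsum1.trans ((mul_le_mul_of_nonneg_left (hsum2.trans hsum3) hA0).trans_eq ?_)
  ring

end Pool.Agent.Helper256.KM
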