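import Mathlib
import Pool.Agent.Helper256.KM.Defs

set_option autoImplicit false

namespace Pool.Agent.Helper256.KM

open Finset ArithmeticFunction

/-- pointwise exponent bound -/
theorem sb_F {h D z : ℝ} (hh : 0 < h) (hh1 : h ≤ 1 / 16) (hD : 0 ≤ D) (hDh : D ≤ h / 4) (hz : 0 ≤ z) :
    let w := min z ((D + h) / (1 - h))
    (1 + D) * w ^ 2 / 2 + z * ((1 + D) / (1 + w) - 1) ≤ 0 ∨
    (1 + D) * w ^ 2 / 2 + z * ((1 + D) / (1 + w) - 1) ≤ D * z - z ^ 2 / 2 + 128 * D ^ 3 := by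
  intro w
  have h1h : 0 < 1 - h := by linarith
  rcases le_or_gt z ((D + h) / (1 - h)) with hle | hgt
  · have hw : w = z := min_eq_left hle
    rw [hw]
    have hz1 : z ≤ 1 / 12 := by
      refine hle.trans ?_
      rw [div_le_iff₀ h1h]
      nlinarith
    have hinv : (1 + D) / (1 + z) ≤ (1 + D) * (1 - z + z ^ 2) := by
      rw [div_le_iff₀ (by linarith)]
      have : 0 ≤ z ^ 3 := by positivity
      nlinarith [mul_nonneg (by linarith : (0:ℝ) ≤ 1 + D) this]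
    have hF : (1 + D) * z ^ 2 / 2 + z * ((1 + D) / (1 + z) - 1) ≤
        D * z - (1 + D) * z ^ 2 / 2 + (1 + D) * z ^ 3 := by
      have := mul_le_mul_of_nonneg_left hinv hz
      nlinarith
    rcases le_or_gt z (4 * D) with h4 | h4
    · right
      refine hF.trans ?_
      have hz3 : z ^ 3 ≤ (4 * D) ^ 3 := pow_le_pow_left₀ hz h4 3
      have hD3 : 0 ≤ D ^ 3 := by positivity
      have hD1 : D ≤ 1 := by linarith
      have : (1 + D) * z ^ 3 ≤ 2 * (4 * D) ^ 3 := by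
        have h0 : 0 ≤ z ^ 3 := by positivity
        nlinarith
      nlinarith [mul_nonneg hD (sq_nonneg z)]
    · left
      refine hF.trans ?_
      have hz2 : 0 ≤ z ^ 2 := sq_nonneg z
      have e1 : D * z ≤ z ^ 2 / 4 := by nlinarith
      have e2 : (1 + D) * z ^ 3 ≤ (1 + D) * (z ^ 2 / 12) := by
        apply mul_le_mul_of_nonneg_left _ (by linarith)
        have : z ^ 3 = z ^ 2 * z := by ring
        rw [this]
        nlinarith
      nlinarith [mul_nonneg hD hz2]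
  · left
    have hw : w = (D + h) / (1 - h) := min_eq_right hgt.le
    have e1 : 1 + w = (1 + D) / (1 - h) := by
      rw [hw]; field_simp; ring
    have e2 : (1 + D) / (1 + w) = 1 - h := by
      rw [e1]; field_simp
    rw [e2]
    have hw0 : 0 ≤ w := by rw [hw]; positivity
    have hwz : w < z := by rw [hw]; exact hgt
    have hk : (1 + D) * w ≤ 2 * h := by
      rw [hw]
      rw [← mul_div_assoc, div_le_iff₀ h1h]
      nlinarith
    nlinarith [mul_le_mul_of_nonneg_right hk hw0]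

/-- one Gaussian term against an arctan increment -/
theorem sb_gauss_term {c a : ℝ} (hc : 0 < c) (hc1 : c ≤ 1) :
    Real.exp (-(a ^ 2 / 2)) ≤ 4 / c * (Real.arctan (a + c) - Real.arctan a) := by
  have hmv : c * (1 / (1 + (|a| + 1) ^ 2)) ≤ Real.arctan (a + c) - Real.arctan a := by
    have := Convex.mul_sub_le_image_sub_of_le_deriv (D := Set.Icc a (a + c)) (convex_Icc a (a + c))
      (f := Real.arctan) Real.continuous_arctan.continuousOn
      Real.differentiable_arctan.differentiableOn (C := 1 / (1 + (|a| + 1) ^ 2)) ?_ a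
      (Set.left_mem_Icc.2 (by linarith)) (a + c) (Set.right_mem_Icc.2 (by linarith)) (by linarith)
    · have e : a + c - a = c := by ring
      rw [e, mul_comm] at this
      exact this
    · intro t ht
      rw [interior_Icc] at ht
      rw [Real.deriv_arctan]
      apply one_div_le_one_div_of_le (by positivity)
      have : |t| ≤ |a| + 1 := by
        rw [abs_le]
        have h1 := neg_abs_le a
        have h2 := le_abs_self a
        constructor <;> linarith [ht.1, ht.2]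
      have : t ^ 2 ≤ (|a| + 1) ^ 2 := by
        rw [← sq_abs t]
        exact pow_le_pow_left₀ (abs_nonneg t) this 2
      linarith
  have hexp : Real.exp (-(a ^ 2 / 2)) ≤ 4 * (1 / (1 + (|a| + 1) ^ 2)) := by
    rw [Real.exp_neg]
    have h1 : 1 + a ^ 2 / 2 ≤ Real.exp (a ^ 2 / 2) := by
      have := Real.add_one_le_exp (a ^ 2 / 2); linarith
    have h2 : (Real.exp (a ^ 2 / 2))⁻¹ ≤ (1 + a ^ 2 / 2)⁻¹ := inv_anti₀ (by positivity) h1
    refine h2.trans ?_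
    rw [mul_one_div, inv_eq_one_div, div_le_div_iff₀ (by positivity) (by positivity)]
    have : |a| ^ 2 = a ^ 2 := sq_abs a
    nlinarith [sq_nonneg (|a| - 1)]
  calc Real.exp (-(a ^ 2 / 2)) ≤ 4 * (1 / (1 + (|a| + 1) ^ 2)) := hexp
    _ = 4 / c * (c * (1 / (1 + (|a| + 1) ^ 2))) := by field_simp
    _ ≤ 4 / c * (Real.arctan (a + c) - Real.arctan a) := by
        apply mul_le_mul_of_nonneg_left hmv (by positivity)

theorem sb_gauss {c x : ℝ} (hc : 0 < c) (hc1 : c ≤ 1) (E₀ : ℕ) :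
    ∑ E ∈ Finset.range E₀, Real.exp (-((c * E - x) ^ 2 / 2)) ≤ 4 * Real.pi / c := by
  have h1 : ∑ E ∈ Finset.range E₀, Real.exp (-((c * E - x) ^ 2 / 2)) ≤
      ∑ E ∈ Finset.range E₀, 4 / c * (Real.arctan (c * (E + 1 : ℕ) - x) - Real.arctan (c * E - x)) := by
    apply Finset.sum_le_sum
    intro E _
    have := sb_gauss_term (c := c) (a := c * E - x) hc hc1
    have e : c * (E : ℝ) - x + c = c * ((E + 1 : ℕ) : ℝ) - x := by push_cast; ring
    rw [e] at this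
    exact this
  refine h1.trans ?_
  rw [← Finset.mul_sum, Finset.sum_range_sub (fun E : ℕ => Real.arctan (c * E - x))]
  have h5 : ∀ y z : ℝ, Real.arctan y - Real.arctan z ≤ Real.pi := by
    intro y z
    have h2 := Real.arctan_lt_pi_div_two y
    have h3 := Real.neg_pi_div_two_lt_arctan z
    linarith
  have h4 : 4 * Real.pi / c = 4 / c * Real.pi := by ring
  rw [h4]
  exact mul_le_mul_of_nonneg_left (h5 _ _) (by positivity)

theorem sb_ev (A B κ : ℝ) : ∃ ℓ₀ : ℝ, 2 ≤ ℓ₀ ∧ ∀ ℓ, ℓ₀ ≤ ℓ → κ * ℓ ^ 3 ≤ Real.exp ℓ ∧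
    A * Real.log ℓ + B ≤ ℓ / 16 := by
  have h1 : ∀ᶠ ℓ : ℝ in Filter.atTop, κ * ℓ ^ 3 ≤ Real.exp ℓ := by
    have := (Real.isLittleO_pow_exp_atTop (n := 3)).bound (c := 1 / (|κ| + 1)) (by positivity)
    filter_upwards [this, Filter.eventually_ge_atTop 0] with ℓ h h0
    rw [Real.norm_of_nonneg (by positivity), Real.norm_of_nonneg (Real.exp_pos ℓ).le] at h
    have hk : κ ≤ |κ| + 1 := by linarith [le_abs_self κ]
    calc κ * ℓ ^ 3 ≤ (|κ| + 1) * ℓ ^ 3 := mul_le_mul_of_nonneg_right hk (by positivity)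
      _ ≤ (|κ| + 1) * (1 / (|κ| + 1) * Real.exp ℓ) := by
          apply mul_le_mul_of_nonneg_left h (by positivity)
      _ = Real.exp ℓ := by field_simp
  have h2 : ∀ᶠ ℓ : ℝ in Filter.atTop, A * Real.log ℓ + B ≤ ℓ / 16 := by
    have := Real.isLittleO_log_id_atTop.bound (c := 1 / (32 * (|A| + 1))) (by positivity)
    filter_upwards [this, Filter.eventually_ge_atTop (max 0 (32 * B))] with ℓ h h0
    have hl0 : 0 ≤ ℓ := (le_max_left _ _).trans h0
    have hlB : 32 * B ≤ ℓ := (le_max_right _ _).trans h0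
    simp only [id] at h
    rw [Real.norm_of_nonneg hl0, Real.norm_eq_abs] at h
    have e1 : A * Real.log ℓ ≤ ℓ / 32 := by
      calc A * Real.log ℓ ≤ |A * Real.log ℓ| := le_abs_self _
        _ = |A| * |Real.log ℓ| := abs_mul _ _
        _ ≤ (|A| + 1) * (1 / (32 * (|A| + 1)) * ℓ) := by
            apply mul_le_mul _ h (abs_nonneg _) (by positivity)
            linarith
        _ = ℓ / 32 := by field_simp
    linarith
  obtain ⟨ℓ₀, h⟩ := Filter.eventually_atTop.1 (h1.and h2)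
  exact ⟨max 2 ℓ₀, le_max_left _ _, fun ℓ hl => h ℓ ((le_max_right _ _).trans hl)⟩

theorem sb_summable : Summable (fun E : ℕ => (1 + (E : ℝ)) ^ (-(9 / 8 : ℝ))) := by
  have h : Summable (fun n : ℕ => (n : ℝ) ^ (-(9 / 8 : ℝ))) := by
    rw [Real.summable_nat_rpow]; norm_num
  have h2 := (summable_nat_add_iff 1).2 h
  refine h2.congr fun E => ?_
  push_cast
  rw [add_comm]

/-- region I estimate -/
theorem sb_regionI {s x c v E Φ : ℝ} (hs : 3 / 2 ≤ s) (hx : 0 < x) (hc : 0 < c) (hE : 0 ≤ E)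
    (hv : v = c * E) (hΦ : x ^ 2 = Φ)
    (hB : Real.exp (Φ / 4) * (x * c) ^ (s - 9 / 8) ≤ 1) :
    Real.exp (1 + x * v - v ^ 2 / 2) * (1 + E) ^ (-s) ≤
      (Real.exp 2 + Real.exp 1) * (1 + E) ^ (-(9 / 8 : ℝ)) +
      Real.exp 1 * (Real.exp (Φ / 2) * (4 * c / x) ^ s) * Real.exp (-((c * E - x) ^ 2 / 2)) := by
  have hE1 : 1 ≤ 1 + E := by linarith
  have hE0 : 0 < 1 + E := by linarith
  have hv0 : 0 ≤ v := by rw [hv]; positivity
  have hmono : (1 + E) ^ (-s) ≤ (1 + E) ^ (-(9 / 8 : ℝ)) :=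
    Real.rpow_le_rpow_of_exponent_le hE1 (by linarith)
  have hp98 : 0 < (1 + E) ^ (-(9 / 8 : ℝ)) := Real.rpow_pos_of_pos hE0 _
  have hlast : 0 ≤ Real.exp 1 * (Real.exp (Φ / 2) * (4 * c / x) ^ s) * Real.exp (-((c * E - x) ^ 2 / 2)) := by
    positivity
  rcases le_or_gt (x * v) 1 with h1 | h1
  · have : Real.exp (1 + x * v - v ^ 2 / 2) ≤ Real.exp 2 := by
      apply Real.exp_le_exp.2; nlinarith [sq_nonneg v]
    have h2 : Real.exp (1 + x * v - v ^ 2 / 2) * (1 + E) ^ (-s) ≤ Real.exp 2 * (1 + E) ^ (-(9 / 8 : ℝ)) :=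
      mul_le_mul this hmono (Real.rpow_nonneg hE0.le _) (Real.exp_pos _).le
    have h3 : 0 ≤ Real.exp 1 * (1 + E) ^ (-(9 / 8 : ℝ)) := by positivity
    linarith
  · rcases le_or_gt v (x / 4) with h4 | h4
    · -- Ib
      have e1 : Real.exp (1 + x * v - v ^ 2 / 2) ≤ Real.exp 1 * Real.exp (Φ / 4) := by
        rw [← Real.exp_add]
        apply Real.exp_le_exp.2
        nlinarith [sq_nonneg v]
      have hxc : 0 < x * c := by positivity
      have hge : (x * c)⁻¹ ≤ 1 + E := by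
        have h5 : 1 < x * c * E := by rw [hv] at h1; nlinarith
        have h6 : (x * c)⁻¹ ≤ E := by
          rw [inv_le_iff_one_le_mul₀ hxc]
          nlinarith
        linarith
      have e2 : (1 + E) ^ (-s) ≤ (1 + E) ^ (-(9 / 8 : ℝ)) * (x * c) ^ (s - 9 / 8) := by
        have e3 : (1 + E) ^ (-s) = (1 + E) ^ (-(9 / 8 : ℝ)) * (1 + E) ^ (-(s - 9 / 8)) := by
          rw [← Real.rpow_add hE0]; congr 1; ring
        rw [e3]
        apply mul_le_mul_of_nonneg_left _ hp98.le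
        have e4 : (x * c) ^ (s - 9 / 8) = ((x * c)⁻¹) ^ (-(s - 9 / 8)) := by
          rw [Real.inv_rpow hxc.le, Real.rpow_neg hxc.le, inv_inv]
        rw [e4]
        exact Real.rpow_le_rpow_of_nonpos (by positivity) hge (by linarith)
      have h7 : Real.exp (1 + x * v - v ^ 2 / 2) * (1 + E) ^ (-s) ≤
          (Real.exp 1 * Real.exp (Φ / 4)) * ((1 + E) ^ (-(9 / 8 : ℝ)) * (x * c) ^ (s - 9 / 8)) :=
        mul_le_mul e1 e2 (Real.rpow_nonneg hE0.le _) (by positivity)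
      have h8 : (Real.exp 1 * Real.exp (Φ / 4)) * ((1 + E) ^ (-(9 / 8 : ℝ)) * (x * c) ^ (s - 9 / 8)) =
          Real.exp 1 * (1 + E) ^ (-(9 / 8 : ℝ)) * (Real.exp (Φ / 4) * (x * c) ^ (s - 9 / 8)) := by ring
      have h9 : Real.exp 1 * (1 + E) ^ (-(9 / 8 : ℝ)) * (Real.exp (Φ / 4) * (x * c) ^ (s - 9 / 8)) ≤
          Real.exp 1 * (1 + E) ^ (-(9 / 8 : ℝ)) * 1 :=
        mul_le_mul_of_nonneg_left hB (by positivity)
      have h10 : 0 ≤ Real.exp 2 * (1 + E) ^ (-(9 / 8 : ℝ)) := by positivity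
      linarith
    · -- Ic
      have e1 : Real.exp (1 + x * v - v ^ 2 / 2) =
          Real.exp 1 * Real.exp (Φ / 2) * Real.exp (-((c * E - x) ^ 2 / 2)) := by
        rw [← Real.exp_add, ← Real.exp_add, ← hΦ, hv]; congr 1; ring
      have e2 : (1 + E) ^ (-s) ≤ (4 * c / x) ^ s := by
        have h5 : (4 * c / x)⁻¹ ≤ 1 + E := by
          have : (4 * c / x)⁻¹ ≤ E := by
            rw [inv_div, div_le_iff₀ (by positivity)]
            rw [hv] at h4
            nlinarith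
          linarith
        have e4 : (4 * c / x) ^ s = ((4 * c / x)⁻¹) ^ (-s) := by
          rw [Real.inv_rpow (by positivity), Real.rpow_neg (by positivity), inv_inv]
        rw [e4]
        exact Real.rpow_le_rpow_of_nonpos (by positivity) h5 (by linarith)
      have h7 : Real.exp (1 + x * v - v ^ 2 / 2) * (1 + E) ^ (-s) ≤
          Real.exp 1 * Real.exp (Φ / 2) * Real.exp (-((c * E - x) ^ 2 / 2)) * (4 * c / x) ^ s := by
        rw [e1]
        exact mul_le_mul_of_nonneg_left e2 (by positivity)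
      have h8 : 0 ≤ (Real.exp 2 + Real.exp 1) * (1 + E) ^ (-(9 / 8 : ℝ)) := by positivity
      have h9 : Real.exp 1 * Real.exp (Φ / 2) * Real.exp (-((c * E - x) ^ 2 / 2)) * (4 * c / x) ^ s =
        Real.exp 1 * (Real.exp (Φ / 2) * (4 * c / x) ^ s) * Real.exp (-((c * E - x) ^ 2 / 2)) := by ring
      linarith

theorem sb_hB {k K ℓ P Φ m' : ℝ} (hk : 4 ≤ k) (hℓ : 2 ≤ ℓ) (hP : P = Real.exp (ℓ / 2)) (hm : 0 < m')
    (hΦ : Φ = (k - 3) / 2 * ℓ + (k - 1) / 2 * Real.log ℓ + K) (hΦ0 : 0 < Φ) (hΦ1 : Φ ≤ k * ℓ)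
    (hc5 : ((k - 1) / 8 + ((k - 1) / 2 - 9 / 8) / 2) * Real.log ℓ +
      (K / 4 + ((k - 1) / 2 - 9 / 8) / 2 * Real.log k + ((k - 1) / 2 - 9 / 8) * Real.log m') ≤ ℓ / 16) :
    Real.exp (Φ / 4) * (Real.sqrt Φ * (m' / P)) ^ ((k - 1) / 2 - 9 / 8) ≤ 1 := by
  have hPpos : 0 < P := by rw [hP]; positivity
  have hx : 0 < Real.sqrt Φ := Real.sqrt_pos.2 hΦ0
  have hℓ0 : 0 < ℓ := by linarith
  have hk0 : 0 < k := by linarith
  rw [Real.rpow_def_of_pos (by positivity), ← Real.exp_add]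
  rw [Real.exp_le_one_iff]
  rw [Real.log_mul hx.ne' (by positivity), Real.log_div hm.ne' hPpos.ne', hP, Real.log_exp,
    Real.log_sqrt hΦ0.le]
  have hlogΦ : Real.log Φ ≤ Real.log k + Real.log ℓ := by
    rw [← Real.log_mul hk0.ne' hℓ0.ne']
    exact Real.log_le_log hΦ0 hΦ1
  have hq : 0 ≤ (k - 1) / 2 - 9 / 8 := by linarith
  have h1 : (Real.log Φ / 2 + (Real.log m' - ℓ / 2)) * ((k - 1) / 2 - 9 / 8) ≤
      ((Real.log k + Real.log ℓ) / 2 + (Real.log m' - ℓ / 2)) * ((k - 1) / 2 - 9 / 8) :=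
    mul_le_mul_of_nonneg_right (by linarith) hq
  have h2 : Φ / 4 = (k - 3) / 8 * ℓ + (k - 1) / 8 * Real.log ℓ + K / 4 := by rw [hΦ]; ring
  have h3 : (7 - 2 * k) / 16 * ℓ ≤ - (1 / 16) * ℓ := by
    apply mul_le_mul_of_nonneg_right _ hℓ0.le
    linarith
  nlinarith

theorem sb_Ic {k K ℓ P Φ m' : ℝ} (hk : 4 ≤ k) (hℓ : 2 ≤ ℓ) (hP : P = Real.exp (ℓ / 2)) (hm : 0 < m')
    (hΦ : Φ = (k - 3) / 2 * ℓ + (k - 1) / 2 * Real.log ℓ + K) (hΦ0 : ℓ / 4 ≤ Φ) :
    Real.exp (Φ / 2) * (4 * (m' / P) / Real.sqrt Φ) ^ ((k - 1) / 2) / (m' / P) ≤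
      Real.exp (K / 2 + (k - 1) / 2 * Real.log 4 + ((k - 1) / 2 - 1) * Real.log m' +
        (k - 1) / 2 / 2 * Real.log 4) := by
  have hPpos : 0 < P := by rw [hP]; positivity
  have hℓ0 : 0 < ℓ := by linarith
  have hΦp : 0 < Φ := by linarith
  have hx : 0 < Real.sqrt Φ := Real.sqrt_pos.2 hΦp
  have hc : 0 < m' / P := by positivity
  have e0 : (m' / P) = Real.exp (Real.log m' - ℓ / 2) := by
    rw [Real.exp_sub, Real.exp_log hm, hP]
  have e1 : Real.log (4 * (m' / P) / Real.sqrt Φ) =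
      Real.log 4 + (Real.log m' - ℓ / 2) - Real.log Φ / 2 := by
    rw [Real.log_div (by positivity) hx.ne', Real.log_mul (by norm_num) hc.ne',
      Real.log_div hm.ne' hPpos.ne', Real.log_sqrt hΦp.le, hP, Real.log_exp]
  rw [Real.rpow_def_of_pos (by positivity), e1]
  conv_lhs => rw [e0]
  rw [← Real.exp_add, ← Real.exp_sub]
  apply Real.exp_le_exp.2
  have hlogΦ : Real.log ℓ - Real.log 4 ≤ Real.log Φ := by
    rw [← Real.log_div hℓ0.ne' (by norm_num)]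
    exact Real.log_le_log (by positivity) hΦ0
  have h1 : 0 ≤ (k - 1) / 4 * (Real.log Φ - (Real.log ℓ - Real.log 4)) :=
    mul_nonneg (by linarith) (by linarith)
  rw [hΦ] at h1 ⊢
  nlinarith

theorem sb_exp {kr p r D m' w E : ℝ} (hkr0 : 0 < kr) (hp0 : 0 < p) (hD0 : 0 ≤ D)
    (hm' : m' = (kr - 1) * Real.log 2) (h0 : 0 ≤ w) (hr : kr * r ≤ p + p * D) :
    Real.exp (kr * r * Real.log (1 + w) ^ 2 / 2) *
        (2 : ℝ) ^ ((kr - 1) * (kr * ((1 + D) / ((1 + w) * kr)) - 1) * E) ≤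
        Real.exp (p * ((1 + D) * w ^ 2 / 2 + (m' * E / p) * ((1 + D) / (1 + w) - 1))) := by
  rw [Real.rpow_def_of_pos (by norm_num), ← Real.exp_add]
  apply Real.exp_le_exp.2
  have hl0 : 0 ≤ Real.log (1 + w) := Real.log_nonneg (by linarith)
  have hl1 : Real.log (1 + w) ≤ w := by
    have := Real.log_le_sub_one_of_pos (show 0 < 1 + w by linarith); linarith
  have hl2 : Real.log (1 + w) ^ 2 ≤ w ^ 2 := pow_le_pow_left₀ hl0 hl1 2
  have h2 : kr * r * Real.log (1 + w) ^ 2 / 2 ≤ p * ((1 + D) * w ^ 2 / 2) := by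
    have h3 : kr * r * Real.log (1 + w) ^ 2 ≤ (p + p * D) * w ^ 2 :=
      mul_le_mul hr hl2 (sq_nonneg _) (by positivity)
    linarith
  have h4 : Real.log 2 * ((kr - 1) * (kr * ((1 + D) / ((1 + w) * kr)) - 1) * E) =
      p * ((m' * E / p) * ((1 + D) / (1 + w) - 1)) := by
    have : 1 + w ≠ 0 := by positivity
    have e1 : kr * ((1 + D) / ((1 + w) * kr)) = (1 + D) / (1 + w) := by
      field_simp
    have e2 : p * ((m' * E / p) * ((1 + D) / (1 + w) - 1)) = m' * E * ((1 + D) / (1 + w) - 1) := by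
      field_simp
    rw [e1, e2, hm']
    ring
  rw [h4, mul_add]
  linarith

theorem sb_term {kr p r D m' c w E h x P Φ : ℝ} (hkr4 : 4 ≤ kr) (hp0 : 0 < p) (hD0 : 0 ≤ D)
    (hm' : m' = (kr - 1) * Real.log 2) (hm'0 : 0 < m') (hr : kr * r ≤ p + p * D)
    (hh0 : 0 < h) (hh1 : h ≤ 1 / 16) (hDh : D ≤ h / 4) (hE0 : 0 ≤ E) (hP0 : 0 < P) (hPsq : P ^ 2 = p)
    (hD : D = x / P) (hc : c = m' / P) (hx0 : 0 < x) (hxsq : x ^ 2 = Φ) (hx3 : 128 * x ^ 3 ≤ P)
    (hw : w = min (m' * E / p) ((D + h) / (1 - h)))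
    (hB : Real.exp (Φ / 4) * (x * c) ^ ((kr - 1) / 2 - 9 / 8) ≤ 1) :
    Real.exp (kr * r * Real.log (1 + w) ^ 2 / 2) *
        (2 : ℝ) ^ ((kr - 1) * (kr * ((1 + D) / ((1 + w) * kr)) - 1) * E) *
          (1 + E) ^ (-((kr - 1) / 2)) ≤
        (Real.exp 2 + Real.exp 1) * (1 + E) ^ (-(9 / 8 : ℝ)) +
      Real.exp 1 * (Real.exp (Φ / 2) * (4 * c / x) ^ ((kr - 1) / 2)) *
        Real.exp (-((c * E - x) ^ 2 / 2)) := by
  have hkr0 : 0 < kr := by linarith
  have hc0 : 0 < c := by rw [hc]; positivity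
  have h1h : 0 < 1 - h := by linarith
  have hz0 : 0 ≤ m' * E / p := by positivity
  have h0 : 0 ≤ w := by rw [hw]; exact le_min hz0 (by positivity)
  have hF := sb_F hh0 hh1 hD0 hDh hz0
  simp only [← hw] at hF
  have hexp := sb_exp (E := E) hkr0 hp0 hD0 hm' h0 hr
  have hrp : 0 ≤ (1 + E) ^ (-((kr - 1) / 2)) := Real.rpow_nonneg (by linarith) _
  refine (mul_le_mul_of_nonneg_right hexp hrp).trans ?_
  rcases hF with hF | hF
  · have h1 : Real.exp (p * ((1 + D) * w ^ 2 / 2 + (m' * E / p) * ((1 + D) / (1 + w) - 1))) ≤ 1 := by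
      rw [Real.exp_le_one_iff]
      exact mul_nonpos_of_nonneg_of_nonpos hp0.le hF
    have h2 : (1 + E) ^ (-((kr - 1) / 2)) ≤ (1 + E) ^ (-(9 / 8 : ℝ)) :=
      Real.rpow_le_rpow_of_exponent_le (by linarith) (by linarith)
    have h3 := mul_le_mul h1 h2 hrp (by norm_num)
    have h4 : 0 ≤ Real.exp 1 * (Real.exp (Φ / 2) * (4 * c / x) ^ ((kr - 1) / 2)) *
      Real.exp (-((c * E - x) ^ 2 / 2)) := by positivity
    have h5 : 0 ≤ (1 + E) ^ (-(9 / 8 : ℝ)) := Real.rpow_nonneg (by linarith) _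
    have h6 : (1 : ℝ) ≤ Real.exp 2 + Real.exp 1 := by
      have := Real.add_one_le_exp (2:ℝ)
      have := Real.exp_pos (1:ℝ)
      linarith
    have h7 := mul_le_mul_of_nonneg_right h6 h5
    linarith
  · have h1 : Real.exp (p * ((1 + D) * w ^ 2 / 2 + (m' * E / p) * ((1 + D) / (1 + w) - 1))) ≤
        Real.exp (1 + x * (c * E) - (c * E) ^ 2 / 2) := by
      apply Real.exp_le_exp.2
      have h2 := mul_le_mul_of_nonneg_left hF hp0.le
      refine h2.trans ?_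
      have h3 : p * (D * (m' * E / p) - (m' * E / p) ^ 2 / 2 + 128 * D ^ 3) =
          x * (c * E) - (c * E) ^ 2 / 2 + 128 * x ^ 3 / P := by
        rw [hD, hc, ← hPsq]
        field_simp
      rw [h3]
      have h4 : 128 * x ^ 3 / P ≤ 1 := by rw [div_le_one hP0]; exact hx3
      linarith
    refine (mul_le_mul_of_nonneg_right h1 hrp).trans ?_
    exact sb_regionI (s := (kr - 1) / 2) (by linarith) hx0 hc0 hE0 rfl hxsq hB

theorem sumE_bound {k : ℕ} (hk : 4 ≤ k) (K : ℝ) : ∃ C p₀ : ℝ, 0 < C ∧ 4 ≤ p₀ ∧ ∀ (p : ℝ) (r : ℕ), p₀ ≤ p →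
    (k : ℝ) * r ≤ p + Real.sqrt (p * (((k : ℝ) - 3) / 2 * Real.log p +
      ((k : ℝ) - 1) / 2 * Real.log (Real.log p) + K)) →
    ∃ rs ss : ℕ → ℝ, (∀ E, (1 - 1 / (4 * (k : ℝ))) / k ≤ rs E ∧
      rs E ≤ (1 + 1 / (4 * (k : ℝ))) / k ∧ 0 ≤ ss E ∧ (r : ℝ) ≤ p * rs E * Real.exp (ss E)) ∧
    ∀ E₀ : ℕ, ∑ E ∈ Finset.range E₀,
        Real.exp (k * r * ss E ^ 2 / 2) * (2 : ℝ) ^ (((k : ℝ) - 1) * (k * rs E - 1) * E) *
          (1 + (E : ℝ)) ^ (-(((k : ℝ) - 1) / 2)) ≤ C := by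
  set kr : ℝ := (k : ℝ) with hkr
  have hkr4 : 4 ≤ kr := by rw [hkr]; exact_mod_cast hk
  have hkr0 : 0 < kr := by linarith
  have hlog2 : 0 < Real.log 2 := Real.log_pos (by norm_num)
  have hlog21 : Real.log 2 ≤ 1 := by
    have := Real.log_le_sub_one_of_pos (show (0:ℝ) < 2 by norm_num); linarith
  set m' : ℝ := (kr - 1) * Real.log 2 with hm'
  have hm'0 : 0 < m' := mul_pos (by linarith) hlog2
  have hm'k : m' ≤ kr := by rw [hm']; nlinarith
  obtain ⟨ℓ₀, hℓ₀2, hℓ₀⟩ := sb_ev ((kr - 1) / 8 + ((kr - 1) / 2 - 9 / 8) / 2)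
    (K / 4 + ((kr - 1) / 2 - 9 / 8) / 2 * Real.log kr + ((kr - 1) / 2 - 9 / 8) * Real.log m')
    (16384 * kr ^ 3)
  set Z : ℝ := ∑' E : ℕ, (1 + (E : ℝ)) ^ (-(9 / 8 : ℝ)) with hZ
  set M : ℝ := Real.exp (K / 2 + (kr - 1) / 2 * Real.log 4 + ((kr - 1) / 2 - 1) * Real.log m' +
        (kr - 1) / 2 / 2 * Real.log 4) with hM
  have hZ0 : 0 ≤ Z := tsum_nonneg fun E => by positivity
  refine ⟨(Real.exp 2 + Real.exp 1) * Z + Real.exp 1 * M * (4 * Real.pi), max 4 (Real.exp (max ℓ₀ (max (-4 * K) K))),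
    by positivity, le_max_left _ _, ?_⟩
  intro p r hp hr
  have hp4 : 4 ≤ p := (le_max_left _ _).trans hp
  have hp0 : 0 < p := by linarith
  set ℓ : ℝ := Real.log p with hℓ
  have hℓge : max ℓ₀ (max (-4 * K) K) ≤ ℓ := by
    rw [hℓ, Real.le_log_iff_exp_le hp0]
    exact (le_max_right _ _).trans hp
  have hℓ1 : ℓ₀ ≤ ℓ := (le_max_left _ _).trans hℓge
  have hℓ2 : 2 ≤ ℓ := hℓ₀2.trans hℓ1
  have hℓK : -4 * K ≤ ℓ := ((le_max_left _ _).trans (le_max_right _ _)).trans hℓge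
  have hℓK' : K ≤ ℓ := ((le_max_right _ _).trans (le_max_right _ _)).trans hℓge
  obtain ⟨hcub, hc5⟩ := hℓ₀ ℓ hℓ1
  set Φ : ℝ := (kr - 3) / 2 * ℓ + (kr - 1) / 2 * Real.log ℓ + K with hΦ
  have hlam0 : 0 ≤ Real.log ℓ := Real.log_nonneg (by linarith)
  have hlam1 : Real.log ℓ ≤ ℓ := by
    have := Real.log_le_sub_one_of_pos (show 0 < ℓ by linarith); linarith
  have hΦlow : ℓ / 4 ≤ Φ := by
    have h1 : 1 / 2 * ℓ ≤ (kr - 3) / 2 * ℓ := mul_le_mul_of_nonneg_right (by linarith) (by linarith)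
    have h2 : 0 ≤ (kr - 1) / 2 * Real.log ℓ := mul_nonneg (by linarith) hlam0
    linarith
  have hΦup : Φ ≤ kr * ℓ := by
    have h2 : (kr - 1) / 2 * Real.log ℓ ≤ (kr - 1) / 2 * ℓ := mul_le_mul_of_nonneg_left hlam1 (by linarith)
    have h3 : (kr - 3) / 2 * ℓ + (kr - 1) / 2 * ℓ = kr * ℓ - 2 * ℓ := by ring
    linarith
  have hΦ0 : 0 < Φ := by linarith
  set P : ℝ := Real.sqrt p with hPdef
  have hP0 : 0 < P := Real.sqrt_pos.2 hp0
  have hPsq : P ^ 2 = p := Real.sq_sqrt hp0.le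
  have hexpℓ : Real.exp ℓ = p := Real.exp_log hp0
  have hPexp : P = Real.exp (ℓ / 2) := by
    rw [hPdef, ← hexpℓ, Real.sqrt_eq_iff_mul_self_eq (Real.exp_pos _).le (Real.exp_pos _).le,
      ← Real.exp_add]
    congr 1; ring
  set x : ℝ := Real.sqrt Φ with hx
  have hx0 : 0 < x := Real.sqrt_pos.2 hΦ0
  have hxsq : x ^ 2 = Φ := Real.sq_sqrt hΦ0.le
  set D : ℝ := x / P with hD
  have hD0 : 0 ≤ D := by positivity
  set c : ℝ := m' / P with hc
  have hc0 : 0 < c := by positivity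
  set h : ℝ := 1 / (4 * kr) with hh
  have hh0 : 0 < h := by positivity
  have hh1 : h ≤ 1 / 16 := by
    rw [hh]; apply one_div_le_one_div_of_le (by norm_num); linarith
  have hcubp : 16384 * kr ^ 3 * ℓ ^ 3 ≤ p := by rw [← hexpℓ]; exact hcub
  -- cubic condition
  have hx3 : 128 * x ^ 3 ≤ P := by
    have h1 : (128 * x ^ 3) ^ 2 ≤ P ^ 2 := by
      rw [hPsq]
      have : (128 * x ^ 3) ^ 2 = 16384 * (x ^ 2) ^ 3 := by ring
      rw [this, hxsq]
      have h2 : Φ ^ 3 ≤ (kr * ℓ) ^ 3 := pow_le_pow_left₀ hΦ0.le hΦup 3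
      calc 16384 * Φ ^ 3 ≤ 16384 * (kr * ℓ) ^ 3 := by linarith
        _ = 16384 * kr ^ 3 * ℓ ^ 3 := by ring
        _ ≤ p := hcubp
    exact le_of_sq_le_sq h1 hP0.le
  have hDh : D ≤ h / 4 := by
    rw [hD, hh, div_le_iff₀ hP0]
    have h1 : (16 * kr * x) ^ 2 ≤ P ^ 2 := by
      rw [hPsq]
      have : (16 * kr * x) ^ 2 = 256 * kr ^ 2 * x ^ 2 := by ring
      rw [this, hxsq]
      calc 256 * kr ^ 2 * Φ ≤ 256 * kr ^ 2 * (kr * ℓ) := by
            apply mul_le_mul_of_nonneg_left hΦup (by positivity)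
        _ = 256 * kr ^ 3 * ℓ := by ring
        _ ≤ 16384 * kr ^ 3 * ℓ ^ 3 := by
            have h3 : ℓ ≤ ℓ ^ 3 := le_self_pow₀ (by linarith) (by norm_num)
            have h4 : kr ^ 3 * ℓ ≤ kr ^ 3 * ℓ ^ 3 :=
              mul_le_mul_of_nonneg_left h3 (by positivity)
            have h5 : 0 ≤ kr ^ 3 * ℓ ^ 3 := by positivity
            have h6 : 256 * kr ^ 3 * ℓ = 256 * (kr ^ 3 * ℓ) := by ring
            have h7 : 16384 * kr ^ 3 * ℓ ^ 3 = 16384 * (kr ^ 3 * ℓ ^ 3) := by ring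
            rw [h6, h7]
            linarith
        _ ≤ p := hcubp
    have h2 : 16 * kr * x ≤ P := le_of_sq_le_sq h1 hP0.le
    have h3 : 1 / (4 * kr) / 4 * P = P / (16 * kr) := by field_simp; ring
    rw [h3, le_div_iff₀ (by positivity)]
    linarith
  have hc1 : c ≤ 1 := by
    rw [hc, div_le_one hP0]
    have h1 : kr ^ 2 ≤ P ^ 2 := by
      rw [hPsq]
      refine le_trans ?_ hcubp
      have h3 : 1 ≤ ℓ ^ 3 := by
        have : (1:ℝ) ^ 3 ≤ ℓ ^ 3 := pow_le_pow_left₀ (by norm_num) (by linarith) 3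
        simpa using this
      have h4 : kr ^ 2 ≤ kr ^ 3 := pow_le_pow_right₀ (by linarith) (by norm_num)
      have h5 : 0 ≤ kr ^ 3 := by positivity
      have h6 : kr ^ 3 * 1 ≤ kr ^ 3 * ℓ ^ 3 := mul_le_mul_of_nonneg_left h3 h5
      have h7 : 16384 * kr ^ 3 * ℓ ^ 3 = 16384 * (kr ^ 3 * ℓ ^ 3) := by ring
      rw [h7]
      linarith
    exact hm'k.trans (le_of_sq_le_sq h1 hP0.le)
  have h1h : 0 < 1 - h := by linarith
  have hpD : p * D = P * x := by
    rw [hD, ← hPsq]; field_simp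
  have hsqrt : Real.sqrt (p * Φ) = p * D := by
    rw [Real.sqrt_mul hp0.le, hpD]
  rw [hsqrt] at hr
  set w : ℕ → ℝ := fun E => min (m' * E / p) ((D + h) / (1 - h)) with hw
  have hw0 : ∀ E, 0 ≤ w E := fun E => le_min (by positivity) (by positivity)
  have hw1 : ∀ E, w E ≤ (D + h) / (1 - h) := fun E => min_le_right _ _
  refine ⟨fun E => (1 + D) / ((1 + w E) * kr), fun E => Real.log (1 + w E), ?_, ?_⟩
  · intro E
    have h0 := hw0 E
    have h1 := hw1 E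
    rw [le_div_iff₀ h1h] at h1
    refine ⟨?_, ?_, Real.log_nonneg (by linarith), ?_⟩
    · rw [div_le_div_iff₀ hkr0 (by positivity)]
      have : (1 - h) * (1 + w E) ≤ 1 + D := by nlinarith
      calc (1 - h) * ((1 + w E) * kr) = ((1 - h) * (1 + w E)) * kr := by ring
        _ ≤ (1 + D) * kr := mul_le_mul_of_nonneg_right this hkr0.le
    · rw [div_le_div_iff₀ (by positivity) hkr0]
      have h2 : 1 + D ≤ (1 + h) * (1 + w E) := by nlinarith
      calc (1 + D) * kr ≤ ((1 + h) * (1 + w E)) * kr := mul_le_mul_of_nonneg_right h2 hkr0.le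
        _ = (1 + h) * ((1 + w E) * kr) := by ring
    · rw [Real.exp_log (by linarith)]
      have h2 : p * ((1 + D) / ((1 + w E) * kr)) * (1 + w E) = (p + p * D) / kr := by
        have : 1 + w E ≠ 0 := by positivity
        field_simp
      rw [h2, le_div_iff₀ hkr0]
      linarith
  · intro E₀
    have hB := sb_hB (k := kr) (K := K) (ℓ := ℓ) (P := P) (Φ := Φ) (m' := m') hkr4 hℓ2 hPexp hm'0 hΦ hΦ0
      hΦup hc5
    have hIc := sb_Ic (k := kr) (K := K) (ℓ := ℓ) (P := P) (Φ := Φ) (m' := m') hkr4 hℓ2 hPexp hm'0 hΦ hΦlow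
    have hterm : ∀ E : ℕ, Real.exp (kr * r * Real.log (1 + w E) ^ 2 / 2) *
        (2 : ℝ) ^ ((kr - 1) * (kr * ((1 + D) / ((1 + w E) * kr)) - 1) * E) *
          (1 + (E : ℝ)) ^ (-((kr - 1) / 2)) ≤
        (Real.exp 2 + Real.exp 1) * (1 + (E : ℝ)) ^ (-(9 / 8 : ℝ)) +
      Real.exp 1 * (Real.exp (Φ / 2) * (4 * c / x) ^ ((kr - 1) / 2)) *
        Real.exp (-((c * E - x) ^ 2 / 2)) := by
      intro E
      exact sb_term hkr4 hp0 hD0 hm' hm'0 hr hh0 hh1 hDh (Nat.cast_nonneg E) hP0 hPsq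
        hD hc hx0 hxsq hx3 rfl hB
    calc _ ≤ ∑ E ∈ Finset.range E₀, ((Real.exp 2 + Real.exp 1) * (1 + (E : ℝ)) ^ (-(9 / 8 : ℝ)) +
          Real.exp 1 * (Real.exp (Φ / 2) * (4 * c / x) ^ ((kr - 1) / 2)) *
          Real.exp (-((c * E - x) ^ 2 / 2))) := Finset.sum_le_sum fun E _ => hterm E
      _ = (Real.exp 2 + Real.exp 1) * ∑ E ∈ Finset.range E₀, (1 + (E : ℝ)) ^ (-(9 / 8 : ℝ)) +
          Real.exp 1 * (Real.exp (Φ / 2) * (4 * c / x) ^ ((kr - 1) / 2)) *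
          ∑ E ∈ Finset.range E₀, Real.exp (-((c * E - x) ^ 2 / 2)) := by
          rw [Finset.sum_add_distrib, Finset.mul_sum, Finset.mul_sum]
      _ ≤ (Real.exp 2 + Real.exp 1) * Z +
          Real.exp 1 * (Real.exp (Φ / 2) * (4 * c / x) ^ ((kr - 1) / 2)) * (4 * Real.pi / c) := by
          apply add_le_add
          · apply mul_le_mul_of_nonneg_left _ (by positivity)
            exact sb_summable.sum_le_tsum _ (fun E _ => by positivity)
          · apply mul_le_mul_of_nonneg_left (sb_gauss hc0 hc1 E₀) (by positivity)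
      _ = (Real.exp 2 + Real.exp 1) * Z + Real.exp 1 *
          (Real.exp (Φ / 2) * (4 * c / x) ^ ((kr - 1) / 2) / c) * (4 * Real.pi) := by ring
      _ ≤ (Real.exp 2 + Real.exp 1) * Z + Real.exp 1 * M * (4 * Real.pi) := by
          apply add_le_add le_rfl
          apply mul_le_mul_of_nonneg_right _ (by positivity)
          apply mul_le_mul_of_nonneg_left hIc (by positivity)

end Pool.Agent.Helper256.KM
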