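import Mathlib
import Pool.Agent.Helper256.KM.Defs
import Pool.Agent.Helper256.KM.K2
import Pool.Agent.Helper256.KM.NP
import Pool.Agent.Helper256.KM.PM
import Pool.Agent.Helper256.KM.UA
import Pool.Agent.Helper256.KM.Mertens

set_option autoImplicit false

namespace Pool.Agent.Helper256.KM

open Finset ArithmeticFunction

theorem p1_tendsto : Filter.Tendsto (fun M : ℝ => p1 (pr ⌊M⌋₊)) Filter.atTop Filter.atTop := by
  obtain ⟨C, hC⟩ := mertens_inv
  have h1 : Filter.Tendsto (fun N : ℕ => p1 (pr N)) Filter.atTop Filter.atTop := by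
    have h2 : Filter.Tendsto (fun N : ℕ => Real.log (Real.log N) - C) Filter.atTop Filter.atTop := by
      apply Filter.tendsto_atTop_add_const_right
      exact Real.tendsto_log_atTop.comp (Real.tendsto_log_atTop.comp tendsto_natCast_atTop_atTop)
    refine Filter.tendsto_atTop_mono' _ ?_ h2
    filter_upwards [Filter.eventually_ge_atTop 3] with N hN
    have := (abs_le.1 (hC N hN)).1
    unfold p1 pr
    linarith
  exact h1.comp tendsto_nat_floor_atTop

theorem growth_aux (A B K η : ℝ) (hB : 0 ≤ B) (hη : 0 < η) : ∀ᶠ p : ℝ in Filter.atTop,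
    Real.sqrt (p * (A * Real.log p + B * Real.log (Real.log p) + K)) ≤ η * p := by
  have h1 : (fun p : ℝ => (A + B) * Real.log p) =o[Filter.atTop] (id : ℝ → ℝ) :=
    Real.isLittleO_log_id_atTop.const_mul_left _
  have h2 := h1.bound (show 0 < η ^ 2 / 2 by positivity)
  have h3 : ∀ᶠ p : ℝ in Filter.atTop, K ≤ η ^ 2 / 2 * p := by
    have : Filter.Tendsto (fun p : ℝ => η ^ 2 / 2 * p) Filter.atTop Filter.atTop :=
      Filter.Tendsto.const_mul_atTop (by positivity) Filter.tendsto_id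
    exact this.eventually_ge_atTop K
  filter_upwards [h2, h3, Filter.eventually_gt_atTop 1] with p hp2 hp3 hp1
  have hlog : 0 < Real.log p := Real.log_pos hp1
  have hll : Real.log (Real.log p) ≤ Real.log p := by
    have := Real.log_le_sub_one_of_pos hlog
    linarith
  have hX : A * Real.log p + B * Real.log (Real.log p) + K ≤ η ^ 2 * p := by
    have h4 : B * Real.log (Real.log p) ≤ B * Real.log p := mul_le_mul_of_nonneg_left hll hB
    have h5 : (A + B) * Real.log p ≤ η ^ 2 / 2 * p := by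
      refine (le_abs_self _).trans ?_
      rw [Real.norm_eq_abs, Real.norm_eq_abs, id] at hp2
      rwa [abs_of_pos (by linarith : 0 < p)] at hp2
    nlinarith
  have hp0 : 0 ≤ p := by linarith
  calc Real.sqrt (p * (A * Real.log p + B * Real.log (Real.log p) + K))
      ≤ Real.sqrt ((η * p) ^ 2) := by
        apply Real.sqrt_le_sqrt
        calc p * (A * Real.log p + B * Real.log (Real.log p) + K) ≤ p * (η ^ 2 * p) :=
              mul_le_mul_of_nonneg_left hX hp0
          _ = (η * p) ^ 2 := by ring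
    _ = η * p := Real.sqrt_sq (by positivity)

theorem block_window {k : ℕ} (hk : 4 ≤ k) (K : ℝ) : ∃ C M₀ : ℝ, 0 < C ∧ 4 ≤ M₀ ∧
    ∀ (M p : ℝ) (r : ℕ), M₀ ≤ M → p = p1 (pr ⌊M⌋₊) →
    (k : ℝ) * r ≤ p + Real.sqrt (p * (((k : ℝ) - 3) / 2 * Real.log p +
      ((k : ℝ) - 1) / 2 * Real.log (Real.log p) + K)) →
    (TT k (blk M (r + 1)) : ℝ) ≤ C * (M / Real.log M * (p ^ r / (r.factorial : ℝ))) ^ k := by
  obtain ⟨C2, hC2, hblock⟩ := block2 (k := k) (by omega)
  obtain ⟨η, Cn, hη, hCn, hnon⟩ := nonperm (k := k) (by omega)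
  obtain ⟨Cp, hCp, hperm⟩ := perm_bound (k := k) (by omega)
  obtain ⟨Cs, p0, hCs, hp0, hsum⟩ := sumE_bound hk K
  have hkR : (4 : ℝ) ≤ k := by exact_mod_cast hk
  have hη1 : 0 < min η 1 := lt_min hη one_pos
  obtain ⟨p2, hp2⟩ := Filter.eventually_atTop.1 (growth_aux (((k : ℝ) - 3) / 2) (((k : ℝ) - 1) / 2) K
    (min η 1) (by linarith) hη1)
  obtain ⟨M1, hM1⟩ := Filter.eventually_atTop.1 (p1_tendsto.eventually_ge_atTop (max p0 p2))
  refine ⟨C2 * ((Fintype.card (Fin k → Fin k) : ℝ) * (Cn + Cp * Cs)) + 1, max 4 M1, by positivity,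
    le_max_left _ _, ?_⟩
  intro M p r hM hp hr
  have hM4 : 4 ≤ M := (le_max_left _ _).trans hM
  have hpge := hM1 M ((le_max_right _ _).trans hM)
  rw [← hp] at hpge
  have hpp0 : p0 ≤ p := (le_max_left _ _).trans hpge
  have hpp2 : p2 ≤ p := (le_max_right _ _).trans hpge
  have hppos : 0 < p := by linarith
  have hr1 : (k : ℝ) * r ≤ (1 + min η 1) * p := by
    have := hp2 p hpp2
    linarith
  have hr2 : (k : ℝ) * r ≤ (1 + η) * p := by
    refine hr1.trans ?_
    apply mul_le_mul_of_nonneg_right _ hppos.le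
    linarith [min_le_left η 1]
  have hr3 : (r : ℝ) ≤ p / 2 := by
    have h1 : (k : ℝ) * r ≤ 2 * p := by
      refine hr1.trans ?_
      apply mul_le_mul_of_nonneg_right _ hppos.le
      linarith [min_le_right η 1]
    have h2 : (4 : ℝ) * r ≤ k * r := mul_le_mul_of_nonneg_right hkR (Nat.cast_nonneg _)
    linarith
  obtain ⟨rs, ss, hrs, hE⟩ := hsum p r hpp0 hr
  set Q : ℝ := (p ^ r / (r.factorial : ℝ)) ^ k with hQ
  have hQ0 : 0 ≤ Q := by positivity
  have hσ : ∀ σ : Fin k → Fin k, ∑ o ∈ Off2 k M (r + 1) σ,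
      (∏ i, Hf M (r + 1) (cardFactors (∏ j, o i j))) * ∏ i, ∏ j, (1 : ℝ) / (o i j : ℝ) ≤
      (Cn + Cp * Cs) * Q := by
    intro σ
    by_cases hb : Function.Bijective σ
    · obtain ⟨E₀, hE₀⟩ := hperm M r (by linarith) (by rw [← hp]; exact hr3) σ hb rs ss
        (by rw [← hp]; exact hrs)
      refine hE₀.trans ?_
      rw [← hp]
      have h1 : Cp * (p ^ r / (r.factorial : ℝ)) ^ k * ∑ E ∈ Finset.range E₀,
        Real.exp (k * r * ss E ^ 2 / 2) * (2 : ℝ) ^ (((k : ℝ) - 1) * (k * rs E - 1) * E) *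
          (1 + (E : ℝ)) ^ (-(((k : ℝ) - 1) / 2)) ≤ Cp * (p ^ r / (r.factorial : ℝ)) ^ k * Cs :=
        mul_le_mul_of_nonneg_left (hE E₀) (by positivity)
      refine h1.trans ?_
      rw [← hQ]
      nlinarith [mul_nonneg hCn.le hQ0]
    · have h1 := hnon M r (by linarith) (by rw [← hp]; exact hr2) σ hb
      rw [← hp, ← hQ] at h1
      refine h1.trans ?_
      have : 0 ≤ Cp * Cs * Q := by positivity
      linarith
  have hML : 0 ≤ (M / Real.log M) ^ k := by
    have : 0 ≤ Real.log M := Real.log_nonneg (by linarith)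
    positivity
  calc (TT k (blk M (r + 1)) : ℝ) ≤ C2 * (M / Real.log M) ^ k * ∑ σ : Fin k → Fin k,
      ∑ o ∈ Off2 k M (r + 1) σ, (∏ i, Hf M (r + 1) (cardFactors (∏ j, o i j))) *
        ∏ i, ∏ j, (1 : ℝ) / (o i j : ℝ) := hblock M (r + 1) hM4
    _ ≤ C2 * (M / Real.log M) ^ k * ∑ σ : Fin k → Fin k, (Cn + Cp * Cs) * Q := by
        apply mul_le_mul_of_nonneg_left _ (by positivity)
        exact Finset.sum_le_sum fun σ _ => hσ σ
    _ = (C2 * ((Fintype.card (Fin k → Fin k) : ℝ) * (Cn + Cp * Cs))) * ((M / Real.log M) ^ k * Q) := by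
        rw [Finset.sum_const, Finset.card_univ, nsmul_eq_mul]; ring
    _ ≤ (C2 * ((Fintype.card (Fin k → Fin k) : ℝ) * (Cn + Cp * Cs)) + 1) *
        ((M / Real.log M) ^ k * Q) := by
        apply mul_le_mul_of_nonneg_right _ (mul_nonneg hML hQ0)
        linarith
    _ = _ := by rw [hQ, ← mul_pow]

end Pool.Agent.Helper256.KM
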