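import Mathlib
import Pool.Agent.Helper256.KM.Defs

set_option autoImplicit false

namespace Pool.Agent.Helper256.KM

open Finset ArithmeticFunction

theorem w_prod_aux (w : ℕ → ℝ) (hw1 : w 1 = 1)
    (hwm : ∀ a b, a ≠ 0 → b ≠ 0 → w (a * b) = w a * w b) {ι : Type} [DecidableEq ι]
    (n : ι → ℕ) (hn : ∀ i, n i ≠ 0) (s : Finset ι) :
    w (∏ i ∈ s, n i) = ∏ i ∈ s, w (n i) := by
  induction s using Finset.induction_on with
  | empty => simp [hw1]
  | insert a s ha ih =>
    rw [Finset.prod_insert ha, Finset.prod_insert ha,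
      hwm _ _ (hn a) (Finset.prod_ne_zero_iff.2 fun i _ => hn i), ih]

theorem cs_energy (k : ℕ) {α : Type} [DecidableEq α] (A : Finset ℕ) (hA : ∀ n ∈ A, n ≠ 0)
    (lab : ℕ → α) (w : ℕ → ℝ) (hw0 : ∀ n, 0 ≤ w n) (hw1 : w 1 = 1)
    (hwm : ∀ a b, a ≠ 0 → b ≠ 0 → w (a * b) = w a * w b) :
    (∑ n ∈ A, w n) ^ (2 * k) ≤ (TT k A : ℝ) *
      ∑ L ∈ Fintype.piFinset (fun _ : Fin k => A.image lab),
        ∑ x ∈ (Fintype.piFinset (fun i => A.filter (fun n => lab n = L i))).image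
          (fun n => ∏ i, n i), (w x) ^ 2 := by
  classical
  set P := Fintype.piFinset (fun _ : Fin k => A) with hP
  let f : (Fin k → ℕ) → (Fin k → α) × ℕ := fun n => (fun i => lab (n i), ∏ i, n i)
  set S := P.image f with hS
  let r : (Fin k → α) × ℕ → ℕ := fun s => (P.filter (fun n => f n = s)).card
  have e1 : (∑ n ∈ A, w n) ^ k = ∑ s ∈ S, (r s : ℝ) * w s.2 := by
    rw [Finset.sum_pow']
    have h1 : ∑ p ∈ P, ∏ i, w (p i) = ∑ p ∈ P, w (f p).2 := by
      refine Finset.sum_congr rfl fun p hp => ?_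
      rw [hP, Fintype.mem_piFinset] at hp
      exact (w_prod_aux w hw1 hwm p (fun i => hA _ (hp i)) Finset.univ).symm
    rw [h1, ← Finset.sum_fiberwise_of_maps_to (t := S) (g := f)
      (fun x hx => Finset.mem_image_of_mem _ hx)]
    refine Finset.sum_congr rfl fun s _ => ?_
    rw [Finset.sum_congr rfl (g := fun _ => w s.2)
      (fun x hx => by rw [(Finset.mem_filter.1 hx).2]), Finset.sum_const, nsmul_eq_mul]
  have e2 : (∑ s ∈ S, (r s : ℝ) * w s.2) ^ 2 ≤ (∑ s ∈ S, (r s : ℝ) ^ 2) * ∑ s ∈ S, (w s.2) ^ 2 :=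
    Finset.sum_mul_sq_le_sq_mul_sq _ _ _
  have e3 : (∑ s ∈ S, (r s : ℝ) ^ 2) ≤ (TT k A : ℝ) := by
    have h2 : (∑ s ∈ S, (r s) ^ 2) ≤ TT k A := by
      set E := (P ×ˢ P).filter (fun z => f z.1 = f z.2) with hE
      have h3 : E.card = ∑ s ∈ S, (r s) ^ 2 := by
        rw [Finset.card_eq_sum_card_fiberwise (t := S) (f := fun z => f z.1)]
        · refine Finset.sum_congr rfl fun s _ => ?_
          have : E.filter (fun z => f z.1 = s)
              = (P.filter (fun n => f n = s)) ×ˢ (P.filter (fun n => f n = s)) := by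
            ext ⟨a, b⟩
            simp only [hE, Finset.mem_filter, Finset.mem_product]
            constructor
            · rintro ⟨⟨⟨ha, hb⟩, hab⟩, h⟩
              exact ⟨⟨ha, h⟩, hb, hab ▸ h⟩
            · rintro ⟨⟨ha, h⟩, hb, h'⟩
              exact ⟨⟨⟨ha, hb⟩, h.trans h'.symm⟩, h⟩
          rw [this, Finset.card_product, sq]
        · intro z hz
          have hz' : z ∈ E := by simpa using hz
          rw [hE, Finset.mem_filter, Finset.mem_product] at hz'
          have : f z.1 ∈ S := Finset.mem_image_of_mem _ hz'.1.1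
          simpa using this
      rw [← h3]
      apply Finset.card_le_card
      intro z hz
      rw [hE, Finset.mem_filter] at hz
      rw [Finset.mem_filter]
      exact ⟨hz.1, congrArg Prod.snd hz.2⟩
    exact_mod_cast h2
  have e4 : ∑ s ∈ S, (w s.2) ^ 2 ≤ ∑ L ∈ Fintype.piFinset (fun _ : Fin k => A.image lab),
        ∑ x ∈ (Fintype.piFinset (fun i => A.filter (fun n => lab n = L i))).image
          (fun n => ∏ i, n i), (w x) ^ 2 := by
    rw [Finset.sum_sigma']
    have h1 : ∑ s ∈ S, (w s.2) ^ 2 = ∑ t ∈ S.image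
        (fun s => (⟨s.1, s.2⟩ : Σ _ : Fin k → α, ℕ)), (w t.2) ^ 2 := by
      have hinj : Set.InjOn (fun s : (Fin k → α) × ℕ => (⟨s.1, s.2⟩ : Σ _ : Fin k → α, ℕ)) S := by
        rintro ⟨a, b⟩ _ ⟨c, d⟩ _ h
        simp only [Sigma.mk.injEq, heq_eq_eq] at h
        exact Prod.ext h.1 h.2
      exact (Finset.sum_image (f := fun t : (Σ _ : Fin k → α, ℕ) => (w t.2) ^ 2) hinj).symm
    rw [h1]
    apply Finset.sum_le_sum_of_subset_of_nonneg
    · intro t ht
      rw [Finset.mem_image] at ht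
      obtain ⟨s, hs, rfl⟩ := ht
      rw [hS, Finset.mem_image] at hs
      obtain ⟨n, hn, rfl⟩ := hs
      rw [hP, Fintype.mem_piFinset] at hn
      rw [Finset.mem_sigma]
      refine ⟨?_, ?_⟩
      · rw [Fintype.mem_piFinset]
        intro i
        exact Finset.mem_image_of_mem _ (hn i)
      · rw [Finset.mem_image]
        refine ⟨n, ?_, rfl⟩
        rw [Fintype.mem_piFinset]
        intro i
        rw [Finset.mem_filter]
        exact ⟨hn i, rfl⟩
    · intro t _ _
      positivity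
  calc (∑ n ∈ A, w n) ^ (2 * k) = ((∑ n ∈ A, w n) ^ k) ^ 2 := by rw [← pow_mul, mul_comm]
    _ = (∑ s ∈ S, (r s : ℝ) * w s.2) ^ 2 := by rw [e1]
    _ ≤ (∑ s ∈ S, (r s : ℝ) ^ 2) * ∑ s ∈ S, (w s.2) ^ 2 := e2
    _ ≤ _ := mul_le_mul e3 e4 (Finset.sum_nonneg fun _ _ => by positivity) (by positivity)

end Pool.Agent.Helper256.KM
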