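import Mathlib
import Pool.Agent.Helper256.KM.Defs

set_option autoImplicit false

namespace Pool.Agent.Helper256.KM

open Finset ArithmeticFunction

theorem cs_trivial (k : ℕ) (A B : Finset ℕ)
    (hB : ∀ n ∈ Fintype.piFinset (fun _ : Fin k => A), ∏ i, n i ∈ B) :
    (A.card : ℝ) ^ (2 * k) ≤ (TT k A : ℝ) * B.card := by
  set P := Fintype.piFinset (fun _ : Fin k => A) with hP
  set f : (Fin k → ℕ) → ℕ := fun n => ∏ i, n i with hf
  set r : ℕ → ℕ := fun x => (P.filter (fun n => f n = x)).card with hr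
  have hcard : P.card = A.card ^ k := by
    rw [hP, Fintype.card_piFinset]; simp
  have h1 : P.card = ∑ x ∈ B, r x := Finset.card_eq_sum_card_fiberwise (fun n hn => hB n hn)
  have h2 : TT k A = ∑ x ∈ B, r x ^ 2 := by
    unfold TT
    rw [Finset.card_eq_sum_card_fiberwise (f := fun z : (Fin k → ℕ) × (Fin k → ℕ) => f z.1) (t := B)]
    · refine Finset.sum_congr rfl fun x _ => ?_
      have : (((P ×ˢ P).filter (fun z => ∏ i, z.1 i = ∏ i, z.2 i)).filter
          (fun z : (Fin k → ℕ) × (Fin k → ℕ) => f z.1 = x))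
          = (P.filter (fun n => f n = x)) ×ˢ (P.filter (fun n => f n = x)) := by
        ext z
        simp only [Finset.mem_filter, Finset.mem_product, hf]
        constructor
        · rintro ⟨⟨⟨h1, h2⟩, h3⟩, h4⟩
          exact ⟨⟨h1, h4⟩, ⟨h2, h3 ▸ h4⟩⟩
        · rintro ⟨⟨h1, h4⟩, ⟨h2, h5⟩⟩
          exact ⟨⟨⟨h1, h2⟩, h4.trans h5.symm⟩, h4⟩
      rw [this, Finset.card_product, sq]
    · intro z hz
      have hz' := Finset.mem_filter.1 hz
      exact hB z.1 (Finset.mem_product.1 hz'.1).1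
  have h3 : (∑ x ∈ B, (r x : ℝ)) ^ 2 ≤ (B.card : ℝ) * ∑ x ∈ B, (r x : ℝ) ^ 2 :=
    sq_sum_le_card_mul_sum_sq
  have h4 : (A.card : ℝ) ^ (2 * k) = (∑ x ∈ B, (r x : ℝ)) ^ 2 := by
    have : (A.card : ℝ) ^ k = ∑ x ∈ B, (r x : ℝ) := by
      have h5 := hcard.symm.trans h1
      exact_mod_cast h5
    rw [← this, ← pow_mul, mul_comm]
  rw [h4, h2]
  push_cast
  rw [mul_comm]
  exact h3

end Pool.Agent.Helper256.KM
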