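import Mathlib
import Pool.Agent.Helper256.KM.Defs
import Pool.Agent.Helper256.KM.B1
import Pool.Agent.Helper256.KM.A4

set_option autoImplicit false

namespace Pool.Agent.Helper256.KM

open Finset ArithmeticFunction

theorem card_upper {ε : ℝ} (hε : 0 < ε) (hε1 : ε ≤ 1) : ∃ C : ℝ, 0 < C ∧
    ∀ (P : Finset ℕ) (N r : ℕ) (ρ : ℝ), (∀ p ∈ P, p.Prime) → P ⊆ pr N → 2 ≤ N → 0 ≤ ρ → ρ ≤ 1 - ε →
    (r : ℝ) ≤ ρ * p1 (pr N \ P) →
    ((AA N (r + 1)).card : ℝ) ≤
      C * (N / Real.log N) * ((∏ p ∈ P, (1 - ρ / p)⁻¹) * hh (pr N \ P) r) := by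
  obtain ⟨C, hC, h⟩ := upper_count hε hε1
  refine ⟨C, hC, ?_⟩
  intro P N r ρ hP hPN hN hρ0 hρ hr
  have h1 : AA N (r + 1) = RR ∅ (r + 1) (N : ℝ) := by
    unfold AA RR
    rw [Nat.floor_natCast]
    apply Finset.filter_congr
    intro n _
    simp
  have h2 : p1 (pr N \ P) ≤ p1 (pr N) := by
    unfold p1
    apply Finset.sum_le_sum_of_subset_of_nonneg Finset.sdiff_subset
    intro p _ _
    positivity
  have hN1 : (1 : ℝ) ≤ N := by exact_mod_cast (by omega : 1 ≤ N)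
  have hsq : Real.sqrt (N : ℝ) ≤ N := by
    rw [Real.sqrt_le_left (by linarith)]
    nlinarith
  have h3 := h ∅ N r (N : ℝ) ρ hN hsq le_rfl hρ0 hρ (by
    rw [Finset.sdiff_empty]
    exact hr.trans (mul_le_mul_of_nonneg_left h2 hρ0))
  rw [Finset.sdiff_empty, ← h1] at h3
  have h4 : pr N = P ∪ (pr N \ P) := (Finset.union_sdiff_of_subset hPN).symm
  have h5 := hh_split (P := P) (Q := pr N \ P) hP
    (fun p hp => (Finset.mem_filter.1 (Finset.sdiff_subset hp)).2)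
    Finset.disjoint_sdiff hρ0 (by linarith) hr
  rw [← h4] at h5
  have hlog : 0 ≤ Real.log (N : ℝ) := Real.log_nonneg hN1
  have h6 : 0 ≤ C * (N / Real.log N) := by positivity
  exact h3.trans (mul_le_mul_of_nonneg_left h5 h6)

end Pool.Agent.Helper256.KM
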