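import Mathlib
import Pool.Agent.Helper256.KM.Defs

set_option autoImplicit false

namespace Pool.Agent.Helper256.KM

open Finset ArithmeticFunction

theorem denom_sp_ne {P : Finset ℕ} (hP : ∀ p ∈ P, p.Prime) (n : ℕ) : sp P n ≠ 0 :=
  Finset.prod_ne_zero_iff.2 fun p hp => pow_ne_zero _ (hP p hp).ne_zero

theorem denom_sp_prod {P : Finset ℕ} {ι : Type} (s : Finset ι) (n : ι → ℕ)
    (hn : ∀ i ∈ s, n i ≠ 0) : sp P (∏ i ∈ s, n i) = ∏ i ∈ s, sp P (n i) := by
  unfold sp
  rw [Finset.prod_comm]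
  refine Finset.prod_congr rfl fun p _ => ?_
  rw [Nat.factorization_prod_apply hn, Finset.prod_pow_eq_pow_sum]

theorem denom_cf_prod {ι : Type} (s : Finset ι) (n : ι → ℕ) (hn : ∀ i ∈ s, n i ≠ 0) :
    cardFactors (∏ i ∈ s, n i) = ∑ i ∈ s, cardFactors (n i) := by
  classical
  induction s using Finset.induction_on with
  | empty => simp
  | insert a s ha ih =>
    rw [Finset.prod_insert ha, Finset.sum_insert ha, cardFactors_mul (hn a (by simp)), ih]
    · intro i hi; exact hn i (by simp [hi])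
    · exact Finset.prod_ne_zero_iff.2 fun i hi => hn i (by simp [hi])

theorem denom_sp_dvd {P : Finset ℕ} (hP : ∀ p ∈ P, p.Prime) (n : ℕ) : sp P n ∣ n := by
  refine Finset.prod_dvd_of_isRelPrime ?_ fun p hp => Nat.ordProj_dvd n p
  intro p hp q hq hpq
  show IsRelPrime _ _
  rw [← Nat.coprime_iff_isRelPrime]
  exact Nat.Coprime.pow _ _ ((Nat.coprime_primes (hP p hp) (hP q hq)).2 hpq)

theorem denom_sp_fact {P : Finset ℕ} (hP : ∀ p ∈ P, p.Prime) (n : ℕ) :
    sp P n ∈ Nat.factoredNumbers P := by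
  refine ⟨denom_sp_ne hP n, fun q hq => ?_⟩
  have hq' := (Nat.mem_primeFactorsList (denom_sp_ne hP n)).1 hq
  obtain ⟨p, hp, hqp⟩ := (Nat.Prime.prime hq'.1).exists_mem_finset_dvd hq'.2
  have := (Nat.prime_dvd_prime_iff_eq hq'.1 (hP p hp)).1 (hq'.1.dvd_of_dvd_pow hqp)
  rwa [this]

/-- the condition on `s` for a label tuple `L` -/
def DCond (k : ℕ) (L : Fin k → ℕ × ℕ) (s : ℕ) : Prop :=
  cardFactors s = ∑ i, (L i).2 ∧ ((∑ i, (L i).1 : ℕ) : ℝ) ≤ Real.log s ∧
    Real.log s < ((∑ i, (L i).1 : ℕ) : ℝ) + k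

open Classical in
theorem denom_inner (k : ℕ) (hk : 1 ≤ k) (P : Finset ℕ) (hP : ∀ p ∈ P, p.Prime) (A : Finset ℕ)
    (hA : ∀ n ∈ A, n ≠ 0) (Y : ℝ) (hY1 : 1 ≤ Y) (hY : ∀ n ∈ A, (sp P n : ℝ) ≤ Y) (W lam : ℝ)
    (hW : 0 ≤ W) (hlam : 0 ≤ lam)
    (hU : ∀ d a : ℕ, (((A.filter (fun n => lab P n = (d, a))).image (fun n => n / sp P n)).card : ℝ)
      ≤ W * lam ^ a * Real.exp (-(d : ℝ))) (L : Fin k → ℕ × ℕ) :
    ∑ x ∈ (Fintype.piFinset (fun i => A.filter (fun n => lab P n = L i))).image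
          (fun n => ∏ i, n i), ((k : ℝ) ^ (cardFactors (sp P x))) ^ 2
      ≤ W ^ k * Real.exp k *
        ∑ s ∈ (Finset.Icc 1 ⌊(Real.exp 1 * Y) ^ k⌋₊).filter (fun s => s ∈ Nat.factoredNumbers P),
          if DCond k L s then ((k : ℝ) ^ 2 * lam) ^ (cardFactors s) / s else 0 := by
  set S := (Finset.Icc 1 ⌊(Real.exp 1 * Y) ^ k⌋₊).filter (fun s => s ∈ Nat.factoredNumbers P) with hS
  set a := ∑ i, (L i).2 with ha
  set D := ∑ i, (L i).1 with hD
  set X := (Fintype.piFinset (fun i => A.filter (fun n => lab P n = L i))).image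
          (fun n => ∏ i, n i) with hX
  let U : Fin k → Finset ℕ := fun i =>
    (A.filter (fun n => lab P n = L i)).image (fun n => n / sp P n)
  -- facts about elements
  have key : ∀ x ∈ X, cardFactors (sp P x) = a ∧ sp P x ∈ S.filter (fun s => DCond k L s) ∧
      ∃ l ∈ Fintype.piFinset U, sp P x * ∏ i, l i = x := by
    intro x hx
    rw [hX, Finset.mem_image] at hx
    obtain ⟨n, hn, rfl⟩ := hx
    rw [Fintype.mem_piFinset] at hn
    have hnA : ∀ i, n i ∈ A := fun i => (Finset.mem_filter.1 (hn i)).1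
    have hnL : ∀ i, lab P (n i) = L i := fun i => (Finset.mem_filter.1 (hn i)).2
    have hn0 : ∀ i, n i ≠ 0 := fun i => hA _ (hnA i)
    have hsp : sp P (∏ i, n i) = ∏ i, sp P (n i) := denom_sp_prod _ _ fun i _ => hn0 i
    have hcf : cardFactors (sp P (∏ i, n i)) = a := by
      rw [hsp, denom_cf_prod _ _ fun i _ => denom_sp_ne hP (n i), ha]
      exact Finset.sum_congr rfl fun i _ => by rw [← hnL i]; rfl
    have hpos : ∀ i, (1 : ℝ) ≤ (sp P (n i) : ℝ) := fun i => by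
      exact_mod_cast Nat.one_le_iff_ne_zero.2 (denom_sp_ne hP (n i))
    have hlog : Real.log (sp P (∏ i, n i) : ℕ) = ∑ i, Real.log (sp P (n i)) := by
      rw [hsp, Nat.cast_prod, Real.log_prod]
      intro i _
      exact (lt_of_lt_of_le one_pos (hpos i)).ne'
    have hl1 : ∀ i, ((L i).1 : ℝ) ≤ Real.log (sp P (n i)) := fun i => by
      rw [← hnL i]
      exact Nat.floor_le (Real.log_nonneg (hpos i))
    have hl2 : ∀ i, Real.log (sp P (n i)) < ((L i).1 : ℝ) + 1 := fun i => by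
      rw [← hnL i]
      exact Nat.lt_floor_add_one _
    refine ⟨hcf, ?_, ?_⟩
    · rw [Finset.mem_filter, hS, Finset.mem_filter, Finset.mem_Icc]
      refine ⟨⟨⟨Nat.one_le_iff_ne_zero.2 (denom_sp_ne hP _), ?_⟩, denom_sp_fact hP _⟩, hcf, ?_, ?_⟩
      · apply Nat.le_floor
        rw [hsp, Nat.cast_prod]
        calc ∏ i, (sp P (n i) : ℝ) ≤ ∏ _i : Fin k, Y :=
              Finset.prod_le_prod (fun i _ => Nat.cast_nonneg _) fun i _ => hY _ (hnA i)
          _ = Y ^ k := by simp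
          _ ≤ (Real.exp 1 * Y) ^ k := by
              refine pow_le_pow_left₀ (by linarith) ?_ k
              have : (1 : ℝ) ≤ Real.exp 1 := Real.one_le_exp (by norm_num)
              nlinarith
      · rw [hlog, Nat.cast_sum]
        exact Finset.sum_le_sum fun i _ => hl1 i
      · rw [hlog, Nat.cast_sum]
        have e : (∑ i, ((L i).1 : ℝ)) + (k : ℝ) = ∑ i : Fin k, (((L i).1 : ℝ) + 1) := by
          rw [Finset.sum_add_distrib]; simp
        rw [e]
        exact Finset.sum_lt_sum_of_nonempty ⟨⟨0, hk⟩, Finset.mem_univ _⟩ fun i _ => hl2 i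
    · refine ⟨fun i => n i / sp P (n i), ?_, ?_⟩
      · rw [Fintype.mem_piFinset]
        intro i
        exact Finset.mem_image_of_mem _ (hn i)
      · rw [hsp, ← Finset.prod_mul_distrib]
        exact Finset.prod_congr rfl fun i _ => Nat.mul_div_cancel' (denom_sp_dvd hP (n i))
  -- cardinality
  have hcard : X.card ≤ (S.filter (fun s => DCond k L s)).card * ∏ i, (U i).card := by
    rw [← Fintype.card_piFinset, ← Finset.card_product]
    refine (Finset.card_le_card ?_).trans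
      (Finset.card_image_le (f := fun q : ℕ × (Fin k → ℕ) => q.1 * ∏ i, q.2 i))
    intro x hx
    obtain ⟨_, h2, l, hl, h3⟩ := key x hx
    rw [Finset.mem_image]
    exact ⟨(sp P x, l), Finset.mem_product.2 ⟨h2, hl⟩, h3⟩
  have hUp : (∏ i, ((U i).card : ℝ)) ≤ W ^ k * lam ^ a * Real.exp (-(D : ℝ)) := by
    calc (∏ i, ((U i).card : ℝ)) ≤ ∏ i, (W * lam ^ (L i).2 * Real.exp (-((L i).1 : ℝ))) :=
          Finset.prod_le_prod (fun i _ => Nat.cast_nonneg _) fun i _ => hU (L i).1 (L i).2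
      _ = W ^ k * lam ^ a * Real.exp (-(D : ℝ)) := by
          rw [Finset.prod_mul_distrib, Finset.prod_mul_distrib, Finset.prod_const, Finset.card_univ,
            Fintype.card_fin, Finset.prod_pow_eq_pow_sum, ← Real.exp_sum, hD, Nat.cast_sum,
            Finset.sum_neg_distrib]
  have e1 : ∑ x ∈ X, ((k : ℝ) ^ (cardFactors (sp P x))) ^ 2 = X.card * ((k : ℝ) ^ 2) ^ a := by
    rw [Finset.sum_congr rfl (g := fun _ => ((k : ℝ) ^ 2) ^ a)]
    · simp
    · intro x hx
      rw [(key x hx).1, ← pow_mul, ← pow_mul, mul_comm]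
  rw [e1, ← Finset.sum_filter]
  have hk2 : (0 : ℝ) ≤ ((k : ℝ) ^ 2) ^ a := by positivity
  have h1 : (X.card : ℝ) * ((k : ℝ) ^ 2) ^ a
      ≤ ((S.filter (fun s => DCond k L s)).card * (W ^ k * lam ^ a * Real.exp (-(D : ℝ))))
        * ((k : ℝ) ^ 2) ^ a := by
    refine mul_le_mul_of_nonneg_right ?_ hk2
    have hcard' : (X.card : ℝ) ≤ (S.filter (fun s => DCond k L s)).card * ∏ i, ((U i).card : ℝ) := by
      exact_mod_cast hcard
    exact hcard'.trans (mul_le_mul_of_nonneg_left hUp (Nat.cast_nonneg _))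
  refine h1.trans ?_
  rw [Finset.mul_sum]
  have e2 : ((S.filter (fun s => DCond k L s)).card * (W ^ k * lam ^ a * Real.exp (-(D : ℝ))))
        * ((k : ℝ) ^ 2) ^ a = ∑ _s ∈ S.filter (fun s => DCond k L s),
          W ^ k * (((k : ℝ) ^ 2 * lam) ^ a * Real.exp (-(D : ℝ))) := by
    rw [Finset.sum_const, nsmul_eq_mul, mul_pow]; ring
  rw [e2]
  refine Finset.sum_le_sum fun s hs => ?_
  rw [Finset.mem_filter, hS, Finset.mem_filter, Finset.mem_Icc] at hs
  obtain ⟨⟨⟨hs1, _⟩, _⟩, hs2, hs3, hs4⟩ := hs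
  rw [hs2, mul_assoc (W ^ k)]
  refine mul_le_mul_of_nonneg_left ?_ (pow_nonneg hW k)
  have hspos : (0 : ℝ) < s := by exact_mod_cast hs1
  rw [mul_comm (Real.exp k), div_mul_eq_mul_div, le_div_iff₀ hspos, mul_assoc]
  refine mul_le_mul_of_nonneg_left ?_ (by positivity)
  have h5 : (s : ℝ) ≤ Real.exp ((D : ℝ) + k) := by
    rw [← Real.exp_log hspos]
    exact Real.exp_le_exp.2 hs4.le
  calc Real.exp (-(D : ℝ)) * s ≤ Real.exp (-(D : ℝ)) * Real.exp ((D : ℝ) + k) :=
        mul_le_mul_of_nonneg_left h5 (Real.exp_nonneg _)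
    _ = Real.exp k := by rw [← Real.exp_add]; congr 1; ring

open Classical in
theorem denom_count_d (k : ℕ) (M : ℕ) (v : ℝ) (hv : 0 ≤ v) :
    ((Fintype.piFinset (fun _ : Fin (k + 1) => Finset.range M)).filter
      (fun d => ((∑ i, d i : ℕ) : ℝ) ≤ v ∧ v < ((∑ i, d i : ℕ) : ℝ) + (k + 1 : ℕ))).card
      ≤ M ^ k * (k + 1) := by
  have h1 : ((Fintype.piFinset (fun _ : Fin k => Finset.range M)) ×ˢ
      (Finset.Icc (⌊v⌋₊ + 1 - (k + 1)) ⌊v⌋₊)).card ≤ M ^ k * (k + 1) := by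
    rw [Finset.card_product, Fintype.card_piFinset, Finset.prod_const, Finset.card_range,
      Finset.card_univ, Fintype.card_fin, Nat.card_Icc]
    exact Nat.mul_le_mul_left _ (by omega)
  refine le_trans (Finset.card_le_card_of_injOn (fun d => (Fin.tail d, ∑ i, d i)) ?_ ?_) h1
  · intro d hd
    rw [Finset.mem_coe, Finset.mem_filter, Fintype.mem_piFinset] at hd
    obtain ⟨hd1, hd2, hd3⟩ := hd
    rw [Finset.mem_coe, Finset.mem_product, Fintype.mem_piFinset, Finset.mem_Icc]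
    refine ⟨fun i => hd1 _, ?_, Nat.le_floor hd2⟩
    have : ⌊v⌋₊ < (∑ i, d i) + (k + 1) := by
      rw [Nat.floor_lt hv]
      push_cast
      push_cast at hd3
      linarith
    show ⌊v⌋₊ + 1 - (k + 1) ≤ ∑ i, d i
    omega
  · intro d _ d' _ h
    simp only [Prod.mk.injEq] at h
    obtain ⟨h2, h3⟩ := h
    rw [Fin.sum_univ_succ, Fin.sum_univ_succ] at h3
    have h4 : ∀ i : Fin k, d i.succ = d' i.succ := fun i => congrFun h2 i
    have h5 : ∑ i : Fin k, d i.succ = ∑ i : Fin k, d' i.succ := Finset.sum_congr rfl fun i _ => h4 i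
    have h6 : d 0 = d' 0 := by omega
    funext i
    refine Fin.cases h6 h4 i

open Classical in
theorem denom_count (k : ℕ) (hk : 1 ≤ k) (P : Finset ℕ) (hP : ∀ p ∈ P, p.Prime) (A : Finset ℕ)
    (Y : ℝ) (hY1 : 1 ≤ Y) (hY : ∀ n ∈ A, (sp P n : ℝ) ≤ Y) (s : ℕ) (hs : 1 ≤ s) :
    (((Fintype.piFinset (fun _ : Fin k => A.image (lab P))).filter (fun L => DCond k L s)).card : ℝ)
      ≤ ((cardFactors s : ℝ) + 1) ^ k * (k * (Real.log Y + 1) ^ (k - 1)) := by
  obtain ⟨k, rfl⟩ : ∃ j, k = j + 1 := ⟨k - 1, by omega⟩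
  set ω := cardFactors s with hω
  set M := ⌊Real.log Y⌋₊ + 1 with hM
  have hlogY : 0 ≤ Real.log Y := Real.log_nonneg hY1
  have hlogs : 0 ≤ Real.log s := Real.log_nonneg (by exact_mod_cast hs)
  have h1 : ((Fintype.piFinset (fun _ : Fin (k + 1) => A.image (lab P))).filter
      (fun L => DCond (k + 1) L s)).card ≤ (ω + 1) ^ (k + 1) * (M ^ k * (k + 1)) := by
    refine le_trans ?_ (Nat.mul_le_mul_left _ (denom_count_d k M (Real.log s) hlogs))
    have e : (ω + 1) ^ (k + 1) = (Fintype.piFinset (fun _ : Fin (k + 1) => Finset.range (ω + 1))).card := by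
      rw [Fintype.card_piFinset, Finset.prod_const, Finset.card_range, Finset.card_univ,
        Fintype.card_fin]
    rw [e, ← Finset.card_product]
    refine Finset.card_le_card_of_injOn
      (fun L : Fin (k + 1) → ℕ × ℕ => ((fun i => (L i).2), (fun i => (L i).1))) ?_ ?_
    · intro L hL
      rw [Finset.mem_coe, Finset.mem_filter, Fintype.mem_piFinset] at hL
      obtain ⟨hL1, hL2, hL3, hL4⟩ := hL
      rw [Finset.mem_coe, Finset.mem_product, Fintype.mem_piFinset, Finset.mem_filter,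
        Fintype.mem_piFinset]
      refine ⟨fun i => ?_, fun i => ?_, hL3, hL4⟩
      · rw [Finset.mem_range]
        have : (L i).2 ≤ ∑ i, (L i).2 :=
          Finset.single_le_sum (f := fun i => (L i).2) (fun _ _ => Nat.zero_le _) (Finset.mem_univ i)
        show (L i).2 < ω + 1
        omega
      · rw [Finset.mem_range]
        obtain ⟨n, hn, hnL⟩ := Finset.mem_image.1 (hL1 i)
        show (L i).1 < M
        rw [← hnL, hM, Nat.lt_succ_iff]
        refine Nat.floor_le_floor (Real.log_le_log ?_ (hY n hn))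
        exact_mod_cast Nat.pos_of_ne_zero (denom_sp_ne hP n)
    · intro L _ L' _ h
      simp only [Prod.mk.injEq] at h
      funext i
      exact Prod.ext (congrFun h.2 i) (congrFun h.1 i)
  have h2 : (M : ℝ) ≤ Real.log Y + 1 := by
    rw [hM]; push_cast
    linarith [Nat.floor_le hlogY]
  have h3 : (((Fintype.piFinset (fun _ : Fin (k + 1) => A.image (lab P))).filter
      (fun L => DCond (k + 1) L s)).card : ℝ) ≤ ((ω : ℝ) + 1) ^ (k + 1) * ((M : ℝ) ^ k * (k + 1)) := by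
    exact_mod_cast h1
  refine h3.trans (mul_le_mul_of_nonneg_left ?_ (by positivity))
  rw [mul_comm, Nat.add_sub_cancel]
  push_cast
  refine mul_le_mul_of_nonneg_left (pow_le_pow_left₀ (Nat.cast_nonneg _) h2 k) (by positivity)

theorem denom (k : ℕ) (hk : 1 ≤ k) (P : Finset ℕ) (hP : ∀ p ∈ P, p.Prime) (A : Finset ℕ)
    (hA : ∀ n ∈ A, n ≠ 0) (Y : ℝ) (hY1 : 1 ≤ Y) (hY : ∀ n ∈ A, (sp P n : ℝ) ≤ Y) (W lam : ℝ)
    (hW : 0 ≤ W) (hlam : 0 ≤ lam)
    (hU : ∀ d a : ℕ, (((A.filter (fun n => lab P n = (d, a))).image (fun n => n / sp P n)).card : ℝ)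
      ≤ W * lam ^ a * Real.exp (-(d : ℝ))) :
    ∑ L ∈ Fintype.piFinset (fun _ : Fin k => A.image (lab P)),
        ∑ x ∈ (Fintype.piFinset (fun i => A.filter (fun n => lab P n = L i))).image
          (fun n => ∏ i, n i), ((k : ℝ) ^ (cardFactors (sp P x))) ^ 2
      ≤ W ^ k * (k * Real.exp k * (Real.log Y + 1) ^ (k - 1)) *
        ∑ s ∈ (Finset.Icc 1 ⌊(Real.exp 1 * Y) ^ k⌋₊).filter (fun s => s ∈ Nat.factoredNumbers P),
          ((k : ℝ) ^ 2 * lam) ^ (cardFactors s) * ((cardFactors s : ℝ) + 1) ^ k / s := by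
  classical
  have h1 := Finset.sum_le_sum fun L (_ : L ∈ Fintype.piFinset (fun _ : Fin k => A.image (lab P))) =>
    denom_inner k hk P hP A hA Y hY1 hY W lam hW hlam hU L
  refine (le_trans (le_of_eq ?_) h1).trans ?_
  · refine Finset.sum_congr rfl fun L _ => ?_
    congr!
  rw [← Finset.mul_sum, Finset.sum_comm]
  have hWk : 0 ≤ W ^ k * Real.exp k := by positivity
  have e : W ^ k * (k * Real.exp k * (Real.log Y + 1) ^ (k - 1)) *
        ∑ s ∈ (Finset.Icc 1 ⌊(Real.exp 1 * Y) ^ k⌋₊).filter (fun s => s ∈ Nat.factoredNumbers P),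
          ((k : ℝ) ^ 2 * lam) ^ (cardFactors s) * ((cardFactors s : ℝ) + 1) ^ k / s
      = W ^ k * Real.exp k *
        ∑ s ∈ (Finset.Icc 1 ⌊(Real.exp 1 * Y) ^ k⌋₊).filter (fun s => s ∈ Nat.factoredNumbers P),
          (((k : ℝ) ^ 2 * lam) ^ (cardFactors s) / s) *
            (((cardFactors s : ℝ) + 1) ^ k * (k * (Real.log Y + 1) ^ (k - 1))) := by
    rw [Finset.mul_sum, Finset.mul_sum]
    refine Finset.sum_congr rfl fun s _ => ?_
    ring
  rw [e]
  refine mul_le_mul_of_nonneg_left ?_ hWk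
  refine le_trans (le_of_eq ?_) (Finset.sum_le_sum fun s hs => mul_le_mul_of_nonneg_left
    (denom_count k hk P hP A Y hY1 hY s ?_) ?_)
  · refine Finset.sum_congr ?_ fun s _ => ?_
    · congr!
    · rw [← Finset.sum_filter, Finset.sum_const, nsmul_eq_mul, mul_comm]
  · exact (Finset.mem_Icc.1 (Finset.mem_filter.1 hs).1).1
  · positivity

end Pool.Agent.Helper256.KM
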