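import Mathlib
import Pool.Agent.Helper256.KM.Defs
import Pool.Agent.Helper256.KM.Mertens

set_option autoImplicit false

namespace Pool.Agent.Helper256.KM

open Finset ArithmeticFunction

/-- multiplicative truncation to factored numbers -/
noncomputable def gHom (P : Finset ℕ) (F : ℕ → ℝ) (h1 : F 1 = 1)
    (hmul : ∀ m n : ℕ, m ≠ 0 → n ≠ 0 → F (m * n) = F m * F n) : ℕ →* ℝ where
  toFun := fun n => by
    classical exact if n ∈ Nat.factoredNumbers P then F n else 0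
  map_one' := by
    classical
    have : (1 : ℕ) ∈ Nat.factoredNumbers P := by
      rw [Nat.mem_factoredNumbers']
      intro p hp hp1
      exact absurd (Nat.dvd_one.1 hp1) hp.one_lt.ne'
    simp [this, h1]
  map_mul' := by
    classical
    intro m n
    by_cases hm : m ∈ Nat.factoredNumbers P
    · by_cases hn : n ∈ Nat.factoredNumbers P
      · have hmn := Nat.mul_mem_factoredNumbers hm hn
        have e1 := Nat.ne_zero_of_mem_factoredNumbers hm
        have e2 := Nat.ne_zero_of_mem_factoredNumbers hn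
        simp only [hm, hn, hmn, if_true]
        exact hmul m n e1 e2
      · have hmn : m * n ∉ Nat.factoredNumbers P := fun h =>
          hn (Nat.mem_factoredNumbers_of_dvd h (Dvd.intro_left m rfl))
        simp [hn, hmn]
    · have hmn : m * n ∉ Nat.factoredNumbers P := fun h =>
        hm (Nat.mem_factoredNumbers_of_dvd h (Dvd.intro n rfl))
      simp [hm, hmn]

open Classical in
theorem gHom_apply (P : Finset ℕ) (F : ℕ → ℝ) (h1 : F 1 = 1)
    (hmul : ∀ m n : ℕ, m ≠ 0 → n ≠ 0 → F (m * n) = F m * F n) (n : ℕ) :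
    gHom P F h1 hmul n = if n ∈ Nat.factoredNumbers P then F n else 0 := by
  rfl

theorem prime_mem_fn (P : Finset ℕ) (p : ℕ) (hp : p.Prime) :
    p ∈ Nat.factoredNumbers P ↔ p ∈ P := by
  rw [Nat.mem_factoredNumbers']
  constructor
  · intro h
    exact h p hp (dvd_refl p)
  · intro h q hq hqp
    rwa [(Nat.prime_dvd_prime_iff_eq hq hp).mp hqp]

open Classical in
theorem euler_gen (P : Finset ℕ) (hP : ∀ p ∈ P, p.Prime) (F : ℕ → ℝ) (h1 : F 1 = 1)
    (hmul : ∀ m n : ℕ, m ≠ 0 → n ≠ 0 → F (m * n) = F m * F n)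
    (h0 : ∀ n, 0 ≤ F n) (hlt : ∀ p ∈ P, F p < 1) :
    HasSum (fun n : ℕ => if n ∈ Nat.factoredNumbers P then F n else 0)
      (∏ p ∈ P, (1 - F p)⁻¹) := by
  have hh : ∀ {p : ℕ}, p.Prime → ‖gHom P F h1 hmul p‖ < 1 := by
    intro p hp
    rw [gHom_apply]
    by_cases h : p ∈ Nat.factoredNumbers P
    · rw [if_pos h, Real.norm_of_nonneg (h0 p)]
      exact hlt p ((prime_mem_fn P p hp).1 h)
    · rw [if_neg h]; simp
  have key := (EulerProduct.summable_and_hasSum_factoredNumbers_prod_filter_prime_geometric hh P).2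
  have hfilt : P.filter Nat.Prime = P := Finset.filter_true_of_mem hP
  rw [hfilt] at key
  have hprod : ∏ p ∈ P, (1 - gHom P F h1 hmul p)⁻¹ = ∏ p ∈ P, (1 - F p)⁻¹ := by
    refine Finset.prod_congr rfl fun p hp => ?_
    rw [gHom_apply, if_pos ((prime_mem_fn P p (hP p hp)).2 hp)]
  rw [hprod] at key
  have h2 := (hasSum_subtype_iff_of_support_subset (f := fun n : ℕ => gHom P F h1 hmul n)
    (s := Nat.factoredNumbers P) (a := ∏ p ∈ P, (1 - F p)⁻¹) (by
      intro n hn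
      by_contra hcon
      apply hn
      show gHom P F h1 hmul n = 0
      rw [gHom_apply, if_neg hcon])).1 key
  exact h2

/-- `τ^Ω(n) n^δ / n` -/
noncomputable def Fd (τ δ : ℝ) (n : ℕ) : ℝ := τ ^ (cardFactors n) * (n : ℝ) ^ δ / n

theorem Fd_one (τ δ : ℝ) : Fd τ δ 1 = 1 := by
  simp [Fd]

theorem Fd_mul (τ δ : ℝ) (m n : ℕ) (hm : m ≠ 0) (hn : n ≠ 0) :
    Fd τ δ (m * n) = Fd τ δ m * Fd τ δ n := by
  unfold Fd
  rw [cardFactors_mul hm hn, pow_add]
  push_cast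
  rw [Real.mul_rpow (Nat.cast_nonneg m) (Nat.cast_nonneg n)]
  have e1 : (m : ℝ) ≠ 0 := Nat.cast_ne_zero.2 hm
  have e2 : (n : ℝ) ≠ 0 := Nat.cast_ne_zero.2 hn
  field_simp

theorem Fd_nonneg (τ δ : ℝ) (hτ : 0 ≤ τ) (n : ℕ) : 0 ≤ Fd τ δ n := by
  unfold Fd
  positivity

theorem Fd_prime (τ δ : ℝ) (p : ℕ) (hp : p.Prime) : Fd τ δ p = τ * (p : ℝ) ^ δ / p := by
  unfold Fd
  rw [cardFactors_apply_prime hp, pow_one]

theorem Fd_zero (τ : ℝ) (n : ℕ) : Fd τ 0 n = τ ^ (cardFactors n) / n := by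
  unfold Fd
  rw [Real.rpow_zero, mul_one]

theorem mem_PB {B0 : ℕ} {y : ℝ} {p : ℕ} : p ∈ PB B0 y ↔ (B0 < p ∧ p ≤ ⌊y⌋₊) ∧ p.Prime := by
  simp [PB]

theorem inv_one_sub_le_exp {x : ℝ} (h0 : 0 ≤ x) (h1 : x ≤ 1 / 2) :
    (1 - x)⁻¹ ≤ Real.exp (x + x ^ 2) := by
  have hq := Real.quadratic_le_exp_of_nonneg (x := x + x ^ 2) (by positivity)
  rw [inv_eq_one_div, div_le_iff₀ (by linarith)]
  have h2 : 1 ≤ (1 + (x + x ^ 2) + (x + x ^ 2) ^ 2 / 2) * (1 - x) := by
    have e : (1 + (x + x ^ 2) + (x + x ^ 2) ^ 2 / 2) * (1 - x) =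
      1 + x ^ 2 * ((1 - x - x ^ 2 - x ^ 3) / 2) := by ring
    rw [e]
    have : 0 ≤ 1 - x - x ^ 2 - x ^ 3 := by
      have a1 : x ^ 2 ≤ 1 / 4 := by nlinarith
      have a2 : x ^ 3 ≤ 1 / 8 := by
        have : x ^ 3 = x * x ^ 2 := by ring
        rw [this]; nlinarith
      linarith
    have := mul_nonneg (sq_nonneg x) this
    nlinarith
  exact h2.trans (mul_le_mul_of_nonneg_right hq (by linarith))

theorem exp_le_inv_one_sub {x : ℝ} (h1 : x < 1) : Real.exp x ≤ (1 - x)⁻¹ := by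
  rw [inv_eq_one_div, le_div_iff₀ (by linarith)]
  have := Real.add_one_le_exp (-x)
  have h2 : Real.exp x * (1 - x) ≤ Real.exp x * Real.exp (-x) :=
    mul_le_mul_of_nonneg_left (by linarith) (Real.exp_pos x).le
  rwa [← Real.exp_add, add_neg_cancel, Real.exp_zero] at h2

theorem sum_sq_PB (B0 : ℕ) (hB : 1 ≤ B0) (y : ℝ) : ∑ p ∈ PB B0 y, 1 / (p : ℝ) ^ 2 ≤ 1 := by
  have h1 : ∑ p ∈ PB B0 y, 1 / (p : ℝ) ^ 2 ≤ ∑ p ∈ Finset.Ioc B0 ⌊y⌋₊, ((p : ℝ) ^ 2)⁻¹ := by
    unfold PB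
    simp only [one_div]
    exact Finset.sum_le_sum_of_subset_of_nonneg (Finset.filter_subset _ _)
      (fun i _ _ => by positivity)
  refine h1.trans ?_
  by_cases h : B0 ≤ ⌊y⌋₊
  · have h2 := sum_Ioc_inv_sq_le_sub (α := ℝ) (k := B0) (n := ⌊y⌋₊) (by omega) h
    have h3 : (B0 : ℝ)⁻¹ ≤ 1 := inv_le_one_of_one_le₀ (by exact_mod_cast hB)
    have h4 : (0 : ℝ) ≤ ((⌊y⌋₊ : ℕ) : ℝ)⁻¹ := by positivity
    linarith
  · rw [Finset.Ioc_eq_empty (by omega)]
    simp

theorem mertens_upper : ∃ C₁ : ℝ, 0 ≤ C₁ ∧ ∀ y : ℝ, 2 ≤ y →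
    ∑ p ∈ (Finset.Icc 1 ⌊y⌋₊).filter Nat.Prime, (1 : ℝ) / p ≤ Real.log (Real.log y) + C₁ := by
  obtain ⟨C, hC⟩ := mertens_inv
  refine ⟨|C| + 1 + |Real.log (Real.log 2)|, by positivity, ?_⟩
  intro y hy
  have hN2 : 2 ≤ ⌊y⌋₊ := Nat.le_floor (by exact_mod_cast hy)
  have hNy : ((⌊y⌋₊ : ℕ) : ℝ) ≤ y := Nat.floor_le (by linarith)
  rcases Nat.eq_or_lt_of_le hN2 with h | h
  · have e : (Finset.Icc 1 ⌊y⌋₊).filter Nat.Prime = {2} := by
      rw [← h]; decide
    rw [e, Finset.sum_singleton]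
    have h1 : Real.log (Real.log 2) ≤ Real.log (Real.log y) :=
      Real.log_le_log (Real.log_pos (by norm_num)) (Real.log_le_log (by norm_num) hy)
    have h2 := neg_abs_le (Real.log (Real.log 2))
    have h3 := abs_nonneg C
    push_cast
    linarith
  · have h1 := hC ⌊y⌋₊ h
    have h2 := (abs_le.1 h1).2
    have hN3 : (3 : ℝ) ≤ ((⌊y⌋₊ : ℕ) : ℝ) := by exact_mod_cast h
    have h3 : Real.log (Real.log ((⌊y⌋₊ : ℕ) : ℝ)) ≤ Real.log (Real.log y) :=
      Real.log_le_log (Real.log_pos (by linarith)) (Real.log_le_log (by linarith) hNy)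
    have h4 := le_abs_self C
    have h5 := abs_nonneg (Real.log (Real.log 2))
    linarith

theorem mertens_lower : ∃ C₂ : ℝ, 0 ≤ C₂ ∧ ∀ y : ℝ, 2 ≤ y →
    Real.log (Real.log y) - C₂ ≤ ∑ p ∈ (Finset.Icc 1 ⌊y⌋₊).filter Nat.Prime, (1 : ℝ) / p := by
  obtain ⟨C, hC⟩ := mertens_inv
  refine ⟨|C| + 1, by positivity, ?_⟩
  intro y hy
  have hN2 : 2 ≤ ⌊y⌋₊ := Nat.le_floor (by exact_mod_cast hy)
  have hN2' : (2 : ℝ) ≤ ((⌊y⌋₊ : ℕ) : ℝ) := by exact_mod_cast hN2
  have hNy : y < ((⌊y⌋₊ : ℕ) : ℝ) + 1 := Nat.lt_floor_add_one y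
  have hlogN : 0 < Real.log ((⌊y⌋₊ : ℕ) : ℝ) := Real.log_pos (by linarith)
  have hlog : Real.log y ≤ 2 * Real.log ((⌊y⌋₊ : ℕ) : ℝ) := by
    have : Real.log y ≤ Real.log (((⌊y⌋₊ : ℕ) : ℝ) ^ 2) :=
      Real.log_le_log (by linarith) (by nlinarith)
    rwa [Real.log_pow, Nat.cast_ofNat] at this
  have hll : Real.log (Real.log y) ≤ Real.log 2 + Real.log (Real.log ((⌊y⌋₊ : ℕ) : ℝ)) := by
    rw [← Real.log_mul (by norm_num) hlogN.ne']
    exact Real.log_le_log (Real.log_pos (by linarith)) hlog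
  have hl2 : Real.log 2 ≤ 1 := by
    have := Real.log_two_lt_d9; linarith
  rcases Nat.eq_or_lt_of_le hN2 with h | h
  · have h0 : (0 : ℝ) ≤ ∑ p ∈ (Finset.Icc 1 ⌊y⌋₊).filter Nat.Prime, (1 : ℝ) / p :=
      Finset.sum_nonneg (fun i _ => by positivity)
    rw [← h] at hll
    have h1 : Real.log (Real.log ((2 : ℕ) : ℝ)) ≤ 0 := by
      apply Real.log_nonpos
      · exact (Real.log_pos (by norm_num)).le
      · push_cast; exact hl2
    have := abs_nonneg C
    linarith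
  · have h1 := hC ⌊y⌋₊ h
    have h2 := (abs_le.1 h1).1
    have h4 := le_abs_self C
    linarith

theorem smooth_upper (K : ℝ) (B0 : ℕ) (hK : 1 ≤ K) (hB : 2 * K ≤ B0) : ∃ C : ℝ, 0 < C ∧
    ∀ y : ℝ, 2 ≤ y → ∀ τ : ℝ, 0 ≤ τ → τ ≤ K →
    (∏ p ∈ PB B0 y, (1 - τ / p)⁻¹ ≤ C * (Real.log y) ^ τ) ∧
    ∀ Z : ℕ, ∑ s ∈ (Finset.Icc 1 Z).filter (fun s => s ∈ Nat.factoredNumbers (PB B0 y)),
      τ ^ (cardFactors s) / (s : ℝ) ≤ C * (Real.log y) ^ τ := by
  classical
  obtain ⟨C₁, hC₁, hM⟩ := mertens_upper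
  refine ⟨Real.exp (K * C₁ + K ^ 2), Real.exp_pos _, ?_⟩
  intro y hy τ hτ0 hτK
  have hB0 : (2 : ℝ) ≤ B0 := by linarith
  have hB0' : 2 ≤ B0 := by exact_mod_cast hB0
  have hlogy : 0 < Real.log y := Real.log_pos (by linarith)
  have hhalf : ∀ p ∈ PB B0 y, τ / (p : ℝ) ≤ 1 / 2 := by
    intro p hp
    have hp' := (mem_PB.1 hp).1.1
    have hp2 : (B0 : ℝ) < p := by exact_mod_cast hp'
    rw [div_le_iff₀ (by linarith)]
    linarith
  have hprodle : ∏ p ∈ PB B0 y, (1 - τ / (p : ℝ))⁻¹ ≤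
      Real.exp (K * C₁ + K ^ 2) * (Real.log y) ^ τ := by
    have h1 : ∏ p ∈ PB B0 y, (1 - τ / (p : ℝ))⁻¹ ≤
        ∏ p ∈ PB B0 y, Real.exp (τ / p + (τ / p) ^ 2) := by
      apply Finset.prod_le_prod
      · intro p hp
        have := hhalf p hp
        exact inv_nonneg.2 (by linarith)
      · intro p hp
        exact inv_one_sub_le_exp (by positivity) (hhalf p hp)
    refine h1.trans ?_
    rw [← Real.exp_sum]
    have e : (Real.log y) ^ τ = Real.exp (Real.log (Real.log y) * τ) :=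
      Real.rpow_def_of_pos hlogy τ
    rw [e, ← Real.exp_add]
    apply Real.exp_le_exp.2
    have s1 : ∑ p ∈ PB B0 y, (τ / (p : ℝ) + (τ / p) ^ 2) =
        τ * (∑ p ∈ PB B0 y, 1 / (p : ℝ)) + τ ^ 2 * ∑ p ∈ PB B0 y, 1 / (p : ℝ) ^ 2 := by
      rw [Finset.sum_add_distrib, Finset.mul_sum, Finset.mul_sum]
      congr 1
      · exact Finset.sum_congr rfl fun p _ => by ring
      · exact Finset.sum_congr rfl fun p _ => by ring
    rw [s1]
    have s2 : ∑ p ∈ PB B0 y, 1 / (p : ℝ) ≤ Real.log (Real.log y) + C₁ := by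
      refine le_trans ?_ (hM y hy)
      apply Finset.sum_le_sum_of_subset_of_nonneg
      · intro p hp
        rw [mem_PB] at hp
        rw [Finset.mem_filter, Finset.mem_Icc]
        exact ⟨⟨hp.2.one_lt.le, hp.1.2⟩, hp.2⟩
      · intro i _ _; positivity
    have s3 := sum_sq_PB B0 (by omega) y
    have s4 : τ * (∑ p ∈ PB B0 y, 1 / (p : ℝ)) ≤ τ * (Real.log (Real.log y) + C₁) :=
      mul_le_mul_of_nonneg_left s2 hτ0
    have s5 : τ ^ 2 * ∑ p ∈ PB B0 y, 1 / (p : ℝ) ^ 2 ≤ τ ^ 2 * 1 :=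
      mul_le_mul_of_nonneg_left s3 (by positivity)
    have s6 : τ ^ 2 ≤ K ^ 2 := pow_le_pow_left₀ hτ0 hτK 2
    have s7 : τ * C₁ ≤ K * C₁ := mul_le_mul_of_nonneg_right hτK hC₁
    nlinarith
  refine ⟨hprodle, ?_⟩
  intro Z
  have hsum := euler_gen (PB B0 y) (fun p hp => (mem_PB.1 hp).2) (Fd τ 0) (Fd_one τ 0)
    (Fd_mul τ 0) (Fd_nonneg τ 0 hτ0) (by
      intro p hp
      rw [Fd_zero, cardFactors_apply_prime (mem_PB.1 hp).2, pow_one]
      have := hhalf p hp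
      linarith)
  have hprod : ∏ p ∈ PB B0 y, (1 - Fd τ 0 p)⁻¹ = ∏ p ∈ PB B0 y, (1 - τ / (p : ℝ))⁻¹ := by
    refine Finset.prod_congr rfl fun p hp => ?_
    rw [Fd_zero, cardFactors_apply_prime (mem_PB.1 hp).2, pow_one]
  rw [hprod] at hsum
  have hle := sum_le_hasSum ((Finset.Icc 1 Z).filter (fun s => s ∈ Nat.factoredNumbers (PB B0 y)))
    (fun i _ => by
      show (0 : ℝ) ≤ if i ∈ Nat.factoredNumbers (PB B0 y) then Fd τ 0 i else 0
      split_ifs
      · exact Fd_nonneg τ 0 hτ0 i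
      · exact le_rfl) hsum
  refine le_trans (le_of_eq ?_) (hle.trans hprodle)
  refine Finset.sum_congr ?_ ?_
  · ext s; simp
  · intro s hs
    have hs2 : s ∈ Nat.factoredNumbers (PB B0 y) := (Finset.mem_filter.1 hs).2
    rw [if_pos hs2, Fd_zero]

theorem theta_succ (N : ℕ) : Chebyshev.theta ((N + 1 : ℕ) : ℝ) =
    Chebyshev.theta ((N : ℕ) : ℝ) + (if (N + 1).Prime then Real.log ((N + 1 : ℕ) : ℝ) else 0) := by
  rw [Chebyshev.theta_eq_sum_Icc, Chebyshev.theta_eq_sum_Icc, Nat.floor_natCast, Nat.floor_natCast]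
  rw [Finset.sum_filter, Finset.sum_filter]
  rw [← Finset.insert_Icc_right_eq_Icc_add_one (by omega : 0 ≤ N + 1), Finset.sum_insert (by simp), add_comm]

theorem e1_mertens_log (N : ℕ) : ∑ p ∈ (Finset.Icc 1 N).filter Nat.Prime, Real.log p / p ≤
    Chebyshev.theta ((N : ℕ) : ℝ) / (N + 1) + Real.log 4 * Real.log (N + 1) := by
  induction N with
  | zero =>
    simp [Chebyshev.theta_zero]
  | succ N ih =>
    have e1 : ∑ p ∈ (Finset.Icc 1 (N + 1)).filter Nat.Prime, Real.log p / p =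
        ∑ p ∈ (Finset.Icc 1 N).filter Nat.Prime, Real.log p / p +
        (if (N + 1).Prime then Real.log ((N + 1 : ℕ) : ℝ) / ((N + 1 : ℕ) : ℝ) else 0) := by
      rw [Finset.sum_filter, Finset.sum_filter]
      rw [← Finset.insert_Icc_right_eq_Icc_add_one (by omega : 1 ≤ N + 1),
        Finset.sum_insert (by simp), add_comm]
    rw [e1]
    have e2 := theta_succ N
    have hpos : (0 : ℝ) < (N : ℝ) + 1 := by positivity
    have e3 : (if (N + 1).Prime then Real.log ((N + 1 : ℕ) : ℝ) / ((N + 1 : ℕ) : ℝ) else 0) =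
        (Chebyshev.theta ((N + 1 : ℕ) : ℝ) - Chebyshev.theta ((N : ℕ) : ℝ)) / ((N : ℝ) + 1) := by
      rw [e2]
      split_ifs <;> push_cast <;> ring
    rw [e3]
    have h4 : Chebyshev.theta ((N + 1 : ℕ) : ℝ) ≤ Real.log 4 * ((N : ℝ) + 1) := by
      have := Chebyshev.theta_le_log4_mul_x (x := ((N + 1 : ℕ) : ℝ)) (by positivity)
      push_cast at this ⊢
      exact this
    have h5 : 1 / ((N : ℝ) + 2) ≤ Real.log ((N : ℝ) + 1 + 1) - Real.log ((N : ℝ) + 1) := by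
      rw [← Real.log_div (by positivity) (by positivity)]
      have := Real.one_sub_inv_le_log_of_pos (x := ((N : ℝ) + 1 + 1) / ((N : ℝ) + 1)) (by positivity)
      refine le_trans (le_of_eq ?_) this
      field_simp
      ring
    have hlog4 : 0 < Real.log 4 := Real.log_pos (by norm_num)
    have h6 : Chebyshev.theta ((N + 1 : ℕ) : ℝ) / ((N : ℝ) + 1) -
        Chebyshev.theta ((N + 1 : ℕ) : ℝ) / ((N : ℝ) + 2) ≤ Real.log 4 * (1 / ((N : ℝ) + 2)) := by
      have : Chebyshev.theta ((N + 1 : ℕ) : ℝ) / ((N : ℝ) + 1) -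
        Chebyshev.theta ((N + 1 : ℕ) : ℝ) / ((N : ℝ) + 2) =
        Chebyshev.theta ((N + 1 : ℕ) : ℝ) / (((N : ℝ) + 1) * ((N : ℝ) + 2)) := by
        field_simp
        ring
      rw [this, div_le_iff₀ (by positivity)]
      refine h4.trans (le_of_eq ?_)
      field_simp
    have h7 : Real.log 4 * (1 / ((N : ℝ) + 2)) ≤
        Real.log 4 * (Real.log ((N : ℝ) + 1 + 1) - Real.log ((N : ℝ) + 1)) :=
      mul_le_mul_of_nonneg_left h5 hlog4.le
    have e8 : (Chebyshev.theta ((N + 1 : ℕ) : ℝ) - Chebyshev.theta ((N : ℕ) : ℝ)) / ((N : ℝ) + 1)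
      = Chebyshev.theta ((N + 1 : ℕ) : ℝ) / ((N : ℝ) + 1) -
        Chebyshev.theta ((N : ℕ) : ℝ) / ((N : ℝ) + 1) := by ring
    rw [e8]
    have e9 : (((N + 1 : ℕ) : ℝ) + 1) = (N : ℝ) + 2 := by push_cast; ring
    rw [e9]
    have e10 : (N : ℝ) + 1 + 1 = (N : ℝ) + 2 := by ring
    rw [e10] at h7
    linarith

theorem e1_mertens_log' : ∃ C₃ : ℝ, 0 ≤ C₃ ∧ ∀ y : ℝ, 2 ≤ y →
    ∑ p ∈ (Finset.Icc 1 ⌊y⌋₊).filter Nat.Prime, Real.log p / p ≤ C₃ * Real.log y := by
  have hlog4 : 0 < Real.log 4 := Real.log_pos (by norm_num)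
  have hlog2 : 0 < Real.log 2 := Real.log_pos (by norm_num)
  refine ⟨Real.log 4 * (1 / Real.log 2 + 2), by positivity, ?_⟩
  intro y hy
  have hNy : ((⌊y⌋₊ : ℕ) : ℝ) ≤ y := Nat.floor_le (by linarith)
  have h1 := e1_mertens_log ⌊y⌋₊
  have hN0 : (0 : ℝ) ≤ ((⌊y⌋₊ : ℕ) : ℝ) := Nat.cast_nonneg _
  have h2 : Chebyshev.theta ((⌊y⌋₊ : ℕ) : ℝ) / (((⌊y⌋₊ : ℕ) : ℝ) + 1) ≤ Real.log 4 := by
    rw [div_le_iff₀ (by positivity)]
    have := Chebyshev.theta_le_log4_mul_x (x := ((⌊y⌋₊ : ℕ) : ℝ)) hN0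
    nlinarith
  have h3 : Real.log (((⌊y⌋₊ : ℕ) : ℝ) + 1) ≤ 2 * Real.log y := by
    have : Real.log (((⌊y⌋₊ : ℕ) : ℝ) + 1) ≤ Real.log (y ^ 2) :=
      Real.log_le_log (by positivity) (by nlinarith)
    rwa [Real.log_pow, Nat.cast_ofNat] at this
  have h4 : 1 ≤ 1 / Real.log 2 * Real.log y := by
    rw [one_div, inv_mul_eq_div, le_div_iff₀ hlog2, one_mul]
    exact Real.log_le_log (by norm_num) hy
  have h5 : Real.log 4 * Real.log (((⌊y⌋₊ : ℕ) : ℝ) + 1) ≤ Real.log 4 * (2 * Real.log y) :=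
    mul_le_mul_of_nonneg_left h3 hlog4.le
  have h6 : Real.log 4 * 1 ≤ Real.log 4 * (1 / Real.log 2 * Real.log y) :=
    mul_le_mul_of_nonneg_left h4 hlog4.le
  nlinarith

theorem smooth_lower (K : ℝ) (B0 : ℕ) (hK : 1 ≤ K) (hB : 6 * K ≤ B0) : ∃ (B : ℕ) (c : ℝ), 1 ≤ B ∧ 0 < c ∧
    ∀ y : ℝ, 2 ≤ y → ∀ τ : ℝ, 0 ≤ τ → τ ≤ K →
    c * (Real.log y) ^ τ ≤
      ∑ s ∈ (Finset.Icc 1 ⌊y ^ B⌋₊).filter (fun s => s ∈ Nat.factoredNumbers (PB B0 y)),
      τ ^ (cardFactors s) / (s : ℝ) := by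
  classical
  obtain ⟨C₂, hC₂, hM⟩ := mertens_lower
  obtain ⟨C₃, hC₃, hL⟩ := e1_mertens_log'
  obtain ⟨B, hBge⟩ := exists_nat_ge (6 * K * C₃ + 1)
  have hK0 : 0 < K := by linarith
  have hB1 : 1 ≤ B := by
    have : (0 : ℝ) < B := by
      have : 0 ≤ 6 * K * C₃ := by positivity
      linarith
    exact_mod_cast this
  have hexpB : 2 * Real.exp (6 * K * C₃) ≤ Real.exp B := by
    have h1 : Real.exp (6 * K * C₃ + 1) ≤ Real.exp B := Real.exp_le_exp.2 hBge
    rw [Real.exp_add] at h1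
    have h2 := Real.add_one_le_exp (1 : ℝ)
    have h3 := Real.exp_pos (6 * K * C₃)
    nlinarith
  refine ⟨B, Real.exp (-(K * (C₂ + B0))) / 2, hB1, by positivity, ?_⟩
  intro y hy τ hτ0 hτK
  have hB0 : (6 : ℝ) ≤ B0 := by linarith
  have hlogy : 0 < Real.log y := Real.log_pos (by linarith)
  have hy0 : 0 < y := by linarith
  set δ : ℝ := 1 / Real.log y with hδ
  have hδ0 : 0 < δ := by positivity
  have hyδ : y ^ δ = Real.exp 1 := by
    rw [Real.rpow_def_of_pos hy0, hδ, mul_one_div_cancel hlogy.ne']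
  have hexp1 : Real.exp 1 ≤ 3 := by
    have := Real.exp_one_lt_d9; linarith
  -- facts about primes
  have hprime : ∀ p ∈ PB B0 y, (B0 : ℝ) < p ∧ (p : ℝ) ≤ y ∧ p.Prime := by
    intro p hp
    obtain ⟨⟨h1, h2⟩, h3⟩ := mem_PB.1 hp
    refine ⟨by exact_mod_cast h1, ?_, h3⟩
    exact le_trans (by exact_mod_cast h2) (Nat.floor_le hy0.le)
  have hpδ : ∀ p ∈ PB B0 y, (p : ℝ) ^ δ ≤ 3 := by
    intro p hp
    obtain ⟨h1, h2, h3⟩ := hprime p hp
    calc (p : ℝ) ^ δ ≤ y ^ δ := Real.rpow_le_rpow (by positivity) h2 hδ0.le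
      _ = Real.exp 1 := hyδ
      _ ≤ 3 := hexp1
  have hpδ1 : ∀ p ∈ PB B0 y, 1 ≤ (p : ℝ) ^ δ := by
    intro p hp
    obtain ⟨h1, h2, h3⟩ := hprime p hp
    exact Real.one_le_rpow (by linarith) hδ0.le
  have ha_half : ∀ p ∈ PB B0 y, τ * (p : ℝ) ^ δ / p ≤ 1 / 2 := by
    intro p hp
    obtain ⟨h1, h2, h3⟩ := hprime p hp
    have h4 := hpδ p hp
    rw [div_le_iff₀ (by linarith)]
    have : τ * (p : ℝ) ^ δ ≤ K * 3 := mul_le_mul hτK h4 (by positivity) hK0.le
    linarith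
  have hb_le_a : ∀ p ∈ PB B0 y, τ / (p : ℝ) ≤ τ * (p : ℝ) ^ δ / p := by
    intro p hp
    obtain ⟨h1, h2, h3⟩ := hprime p hp
    have h4 := hpδ1 p hp
    apply div_le_div_of_nonneg_right _ (by linarith)
    nlinarith
  -- the two Euler products
  set T0 : ℝ := ∏ p ∈ PB B0 y, (1 - τ / (p : ℝ))⁻¹ with hT0
  set Tδ : ℝ := ∏ p ∈ PB B0 y, (1 - τ * (p : ℝ) ^ δ / p)⁻¹ with hTδ
  have hsum0 : HasSum (fun n : ℕ => if n ∈ Nat.factoredNumbers (PB B0 y) then Fd τ 0 n else 0) T0 := by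
    have h := euler_gen (PB B0 y) (fun p hp => (mem_PB.1 hp).2) (Fd τ 0) (Fd_one τ 0)
      (Fd_mul τ 0) (Fd_nonneg τ 0 hτ0) (by
        intro p hp
        rw [Fd_zero, cardFactors_apply_prime (mem_PB.1 hp).2, pow_one]
        have h1 := hb_le_a p hp
        have h2 := ha_half p hp
        linarith)
    have hprod : ∏ p ∈ PB B0 y, (1 - Fd τ 0 p)⁻¹ = T0 := by
      refine Finset.prod_congr rfl fun p hp => ?_
      rw [Fd_zero, cardFactors_apply_prime (mem_PB.1 hp).2, pow_one]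
    rwa [hprod] at h
  have hsumδ : HasSum (fun n : ℕ => if n ∈ Nat.factoredNumbers (PB B0 y) then Fd τ δ n else 0) Tδ := by
    have h := euler_gen (PB B0 y) (fun p hp => (mem_PB.1 hp).2) (Fd τ δ) (Fd_one τ δ)
      (Fd_mul τ δ) (Fd_nonneg τ δ hτ0) (by
        intro p hp
        rw [Fd_prime τ δ p (mem_PB.1 hp).2]
        have h2 := ha_half p hp
        linarith)
    have hprod : ∏ p ∈ PB B0 y, (1 - Fd τ δ p)⁻¹ = Tδ := by
      refine Finset.prod_congr rfl fun p hp => ?_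
      rw [Fd_prime τ δ p (mem_PB.1 hp).2]
    rwa [hprod] at h
  -- comparison of the products
  have hTle : Tδ ≤ T0 * Real.exp (6 * K * C₃) := by
    have h1 : Tδ ≤ ∏ p ∈ PB B0 y, ((1 - τ / (p : ℝ))⁻¹ *
        Real.exp (2 * (τ * (p : ℝ) ^ δ / p - τ / p))) := by
      rw [hTδ]
      apply Finset.prod_le_prod
      · intro p hp
        have := ha_half p hp
        exact inv_nonneg.2 (by linarith)
      · intro p hp
        have h1 := ha_half p hp
        have h2 := hb_le_a p hp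
        set a := τ * (p : ℝ) ^ δ / p with ha
        set b := τ / (p : ℝ) with hb
        have hb0 : 0 ≤ b := by positivity
        have h3 : 1 + 2 * (a - b) ≤ Real.exp (2 * (a - b)) := by
          have := Real.add_one_le_exp (2 * (a - b)); linarith
        have h4 : (1 - a)⁻¹ ≤ (1 - b)⁻¹ * (1 + 2 * (a - b)) := by
          rw [inv_eq_one_div, inv_eq_one_div, div_mul_eq_mul_div, one_mul,
            div_le_div_iff₀ (by linarith) (by linarith)]
          nlinarith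
        exact h4.trans (mul_le_mul_of_nonneg_left h3 (inv_nonneg.2 (by linarith)))
    refine h1.trans ?_
    rw [Finset.prod_mul_distrib, ← hT0, ← Real.exp_sum]
    have hT0pos : 0 ≤ T0 := by
      rw [hT0]
      apply Finset.prod_nonneg
      intro p hp
      have h1 := hb_le_a p hp
      have h2 := ha_half p hp
      exact inv_nonneg.2 (by linarith)
    apply mul_le_mul_of_nonneg_left _ hT0pos
    apply Real.exp_le_exp.2
    have h2 : ∀ p ∈ PB B0 y, 2 * (τ * (p : ℝ) ^ δ / p - τ / p) ≤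
        6 * K * δ * (Real.log p / p) := by
      intro p hp
      obtain ⟨h1, h2, h3⟩ := hprime p hp
      have hp0 : (0 : ℝ) < p := by linarith
      have hp1 : (1 : ℝ) ≤ p := by linarith
      have hlogp : 0 ≤ Real.log p := Real.log_nonneg hp1
      have e1 : (p : ℝ) ^ δ = Real.exp (Real.log p * δ) := Real.rpow_def_of_pos hp0 δ
      have e2 : (p : ℝ) ^ δ - 1 ≤ 3 * (Real.log p * δ) := by
        have h4 := hpδ p hp
        have h6 := Real.add_one_le_exp (-(Real.log p * δ))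
        have h7 : Real.exp (Real.log p * δ) * (-(Real.log p * δ) + 1) ≤
          Real.exp (Real.log p * δ) * Real.exp (-(Real.log p * δ)) :=
          mul_le_mul_of_nonneg_left h6 (Real.exp_pos _).le
        rw [← Real.exp_add, add_neg_cancel, Real.exp_zero, ← e1] at h7
        have h8 : 0 ≤ Real.log p * δ := by positivity
        nlinarith
      have e3 : 2 * (τ * (p : ℝ) ^ δ / p - τ / p) = 2 * τ * (((p : ℝ) ^ δ - 1) / p) := by ring
      rw [e3]
      have h9 : ((p : ℝ) ^ δ - 1) / p ≤ 3 * (Real.log p * δ) / p :=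
        div_le_div_of_nonneg_right e2 hp0.le
      have h10 : 0 ≤ ((p : ℝ) ^ δ - 1) / p :=
        div_nonneg (by have := hpδ1 p hp; linarith) hp0.le
      calc 2 * τ * (((p : ℝ) ^ δ - 1) / p) ≤ 2 * K * (3 * (Real.log p * δ) / p) := by
            apply mul_le_mul (by linarith) h9 h10 (by positivity)
        _ = 6 * K * δ * (Real.log p / p) := by ring
    have h3 : ∑ p ∈ PB B0 y, 2 * (τ * (p : ℝ) ^ δ / p - τ / p) ≤
        ∑ p ∈ PB B0 y, 6 * K * δ * (Real.log p / p) := Finset.sum_le_sum h2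
    refine h3.trans ?_
    rw [← Finset.mul_sum]
    have h4 : ∑ p ∈ PB B0 y, Real.log p / (p : ℝ) ≤ C₃ * Real.log y := by
      refine le_trans ?_ (hL y hy)
      apply Finset.sum_le_sum_of_subset_of_nonneg
      · intro p hp
        rw [mem_PB] at hp
        rw [Finset.mem_filter, Finset.mem_Icc]
        exact ⟨⟨hp.2.one_lt.le, hp.1.2⟩, hp.2⟩
      · intro i hi _
        have : (1 : ℝ) ≤ i := by
          have := (Finset.mem_Icc.1 (Finset.mem_filter.1 hi).1).1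
          exact_mod_cast this
        exact div_nonneg (Real.log_nonneg this) (by linarith)
    have h5 : 6 * K * δ * ∑ p ∈ PB B0 y, Real.log p / (p : ℝ) ≤ 6 * K * δ * (C₃ * Real.log y) :=
      mul_le_mul_of_nonneg_left h4 (by positivity)
    refine h5.trans (le_of_eq ?_)
    rw [hδ]
    field_simp
  -- Rankin
  set F : Finset ℕ := (Finset.Icc 1 ⌊y ^ B⌋₊).filter (fun s => s ∈ Nat.factoredNumbers (PB B0 y)) with hF
  set S : ℝ := ∑ s ∈ F, Fd τ 0 s with hS
  have hX0 : 0 < y ^ B := by positivity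
  have hXδ : (y ^ B) ^ δ = Real.exp B := by
    rw [← Real.rpow_natCast, ← Real.rpow_mul hy0.le, mul_comm, Real.rpow_mul hy0.le, hyδ,
      ← Real.exp_mul, one_mul]
  have hS1 : HasSum (fun n : ℕ => if n ∈ F then Fd τ 0 n else 0) S := by
    have h : HasSum (fun n : ℕ => if n ∈ F then Fd τ 0 n else 0)
        (∑ b ∈ F, (if b ∈ F then Fd τ 0 b else 0)) :=
      hasSum_sum_of_ne_finset_zero (by intro b hb; simp [hb])
    have e : ∑ b ∈ F, (if b ∈ F then Fd τ 0 b else 0) = S := by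
      rw [hS]
      exact Finset.sum_congr rfl fun b hb => by rw [if_pos hb]
    rwa [e] at h
  have hR : T0 ≤ S + Real.exp (-(B : ℝ)) * Tδ := by
    refine hasSum_le ?_ hsum0 (hS1.add (hsumδ.mul_left (Real.exp (-(B : ℝ)))))
    intro n
    show (if n ∈ Nat.factoredNumbers (PB B0 y) then Fd τ 0 n else 0) ≤
      (if n ∈ F then Fd τ 0 n else 0) +
        Real.exp (-(B : ℝ)) * (if n ∈ Nat.factoredNumbers (PB B0 y) then Fd τ δ n else 0)
    by_cases hn : n ∈ Nat.factoredNumbers (PB B0 y)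
    · rw [if_pos hn, if_pos hn]
      have hn0 := Nat.ne_zero_of_mem_factoredNumbers hn
      by_cases hnF : n ∈ F
      · rw [if_pos hnF]
        have := Fd_nonneg τ δ hτ0 n
        have h2 := Real.exp_pos (-(B : ℝ))
        nlinarith [mul_nonneg h2.le this]
      · rw [if_neg hnF, zero_add]
        have hnX : y ^ B < n := by
          by_contra hcon
          push Not at hcon
          apply hnF
          rw [hF, Finset.mem_filter, Finset.mem_Icc]
          exact ⟨⟨Nat.pos_of_ne_zero hn0, Nat.le_floor hcon⟩, hn⟩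
        have h1 : Real.exp B ≤ (n : ℝ) ^ δ := by
          rw [← hXδ]
          exact Real.rpow_le_rpow hX0.le hnX.le hδ0.le
        have e1 : Fd τ δ n = (n : ℝ) ^ δ * Fd τ 0 n := by
          rw [Fd_zero]; unfold Fd; ring
        rw [e1]
        have h2 : 1 ≤ Real.exp (-(B : ℝ)) * (n : ℝ) ^ δ := by
          have := mul_le_mul_of_nonneg_left h1 (Real.exp_pos (-(B : ℝ))).le
          rwa [← Real.exp_add, neg_add_cancel, Real.exp_zero] at this
        have h3 := Fd_nonneg τ 0 hτ0 n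
        nlinarith [mul_le_mul_of_nonneg_right h2 h3]
    · have hnF : n ∉ F := by
        rw [hF, Finset.mem_filter]
        exact fun h => hn h.2
      rw [if_neg hn, if_neg hn, if_neg hnF]
      simp
  have hT0ge : Real.exp (τ * (Real.log (Real.log y) - (C₂ + B0))) ≤ T0 := by
    have h1 : Real.exp (∑ p ∈ PB B0 y, τ / (p : ℝ)) ≤ T0 := by
      rw [Real.exp_sum, hT0]
      apply Finset.prod_le_prod
      · intro p _; exact (Real.exp_pos _).le
      · intro p hp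
        have h1 := hb_le_a p hp
        have h2 := ha_half p hp
        exact exp_le_inv_one_sub (by linarith)
    refine le_trans (Real.exp_le_exp.2 ?_) h1
    have h2 : ∑ p ∈ PB B0 y, τ / (p : ℝ) = τ * ∑ p ∈ PB B0 y, 1 / (p : ℝ) := by
      rw [Finset.mul_sum]
      exact Finset.sum_congr rfl fun p _ => by ring
    rw [h2]
    apply mul_le_mul_of_nonneg_left _ hτ0
    have h3 := hM y hy
    have h4 : ∑ p ∈ (Finset.Icc 1 ⌊y⌋₊).filter Nat.Prime, (1 : ℝ) / p ≤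
        ∑ p ∈ PB B0 y ∪ Finset.Icc 1 B0, (1 : ℝ) / p := by
      apply Finset.sum_le_sum_of_subset_of_nonneg
      · intro p hp
        rw [Finset.mem_filter, Finset.mem_Icc] at hp
        rw [Finset.mem_union, mem_PB, Finset.mem_Icc]
        by_cases h : p ≤ B0
        · right; exact ⟨hp.1.1, h⟩
        · left; exact ⟨⟨by omega, hp.1.2⟩, hp.2⟩
      · intro i _ _; positivity
    have h5 : ∑ p ∈ PB B0 y ∪ Finset.Icc 1 B0, (1 : ℝ) / p ≤
        ∑ p ∈ PB B0 y, (1 : ℝ) / p + ∑ p ∈ Finset.Icc 1 B0, (1 : ℝ) / p := by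
      rw [← Finset.sum_union_inter]
      have : 0 ≤ ∑ p ∈ PB B0 y ∩ Finset.Icc 1 B0, (1 : ℝ) / p :=
        Finset.sum_nonneg (fun i _ => by positivity)
      linarith
    have h6 : ∑ p ∈ Finset.Icc 1 B0, (1 : ℝ) / p ≤ B0 := by
      calc ∑ p ∈ Finset.Icc 1 B0, (1 : ℝ) / p ≤ ∑ p ∈ Finset.Icc 1 B0, (1 : ℝ) := by
            apply Finset.sum_le_sum
            intro i hi
            have hi1 : (1 : ℝ) ≤ i := by exact_mod_cast (Finset.mem_Icc.1 hi).1
            rw [div_le_one (by linarith)]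
            exact hi1
        _ = B0 := by simp
    linarith
  have hfin : T0 / 2 ≤ S := by
    have h0 := Real.exp_pos (-(B : ℝ))
    have hT0pos : 0 < T0 := lt_of_lt_of_le (Real.exp_pos _) hT0ge
    have h1 : Real.exp (-(B : ℝ)) * Tδ ≤ T0 / 2 := by
      have h2 : Real.exp (-(B : ℝ)) * Tδ ≤ Real.exp (-(B : ℝ)) * (T0 * Real.exp (6 * K * C₃)) :=
        mul_le_mul_of_nonneg_left hTle h0.le
      have h3 : Real.exp (-(B : ℝ)) * (2 * Real.exp (6 * K * C₃)) ≤ 1 := by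
        have := mul_le_mul_of_nonneg_left hexpB h0.le
        rwa [← Real.exp_add, neg_add_cancel, Real.exp_zero] at this
      have h4 := mul_le_mul_of_nonneg_left h3 hT0pos.le
      nlinarith
    linarith
  have hSeq : ∑ s ∈ F, τ ^ (cardFactors s) / (s : ℝ) = S := by
    rw [hS]
    exact Finset.sum_congr rfl fun s _ => (Fd_zero τ s).symm
  have hfinal : Real.exp (-(K * (C₂ + B0))) / 2 * (Real.log y) ^ τ ≤ S := by
    refine le_trans ?_ hfin
    have e : (Real.log y) ^ τ = Real.exp (Real.log (Real.log y) * τ) :=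
      Real.rpow_def_of_pos hlogy τ
    rw [e]
    have h1 : Real.exp (-(K * (C₂ + B0))) * Real.exp (Real.log (Real.log y) * τ) ≤ T0 := by
      refine le_trans ?_ hT0ge
      rw [← Real.exp_add]
      apply Real.exp_le_exp.2
      have : τ * (C₂ + B0) ≤ K * (C₂ + B0) := mul_le_mul_of_nonneg_right hτK (by positivity)
      nlinarith
    linarith
  refine hfinal.trans (le_of_eq ?_)
  rw [← hSeq]

end Pool.Agent.Helper256.KM
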