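import Mathlib
import Pool.Agent.Helper256.KM.Defs

set_option autoImplicit false

namespace Pool.Agent.Helper256.KM

open Finset ArithmeticFunction

/-- mean of a character -/
theorem vm_mean (a : ℝ) :
    Filter.Tendsto (fun T : ℝ => (((2 * T)⁻¹ : ℝ) : ℂ) *
      ∫ t in (-T)..T, Complex.exp (((a : ℂ) * Complex.I) * (t : ℂ)))
      Filter.atTop (nhds (if a = 0 then 1 else 0)) := by
  by_cases ha : a = 0
  · rw [if_pos ha]
    subst ha
    refine Filter.Tendsto.congr' ?_ tendsto_const_nhds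
    filter_upwards [Filter.eventually_gt_atTop 0] with T hT
    have h1 : ∀ t : ℝ, Complex.exp ((((0 : ℝ) : ℂ) * Complex.I) * (t : ℂ)) = 1 := by
      intro t
      simp
    simp only [h1]
    rw [intervalIntegral.integral_const]
    have hT' : (T : ℂ) ≠ 0 := by exact_mod_cast hT.ne'
    simp only [Complex.real_smul, mul_one]
    push_cast
    field_simp
    ring
  · rw [if_neg ha]
    have hc : ((a : ℂ) * Complex.I) ≠ 0 :=
      mul_ne_zero (by exact_mod_cast ha) Complex.I_ne_zero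
    have hlim : Filter.Tendsto (fun T : ℝ => (1 / |a|) * T⁻¹) Filter.atTop (nhds 0) := by
      have := (tendsto_inv_atTop_zero (𝕜 := ℝ)).const_mul (1 / |a|)
      rwa [mul_zero] at this
    refine squeeze_zero_norm' ?_ hlim
    filter_upwards [Filter.eventually_gt_atTop 0] with T hT
    rw [integral_exp_mul_complex hc, norm_mul, norm_div, norm_mul, Complex.norm_I, mul_one,
      Complex.norm_real, Complex.norm_real, Real.norm_eq_abs, Real.norm_eq_abs]
    have h2 : ∀ s : ℝ, ‖Complex.exp ((a : ℂ) * Complex.I * (s : ℂ))‖ = 1 := by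
      intro s
      have : (a : ℂ) * Complex.I * (s : ℂ) = ((a * s : ℝ) : ℂ) * Complex.I := by
        push_cast
        ring
      rw [this, Complex.norm_exp_ofReal_mul_I]
    have h3 : ‖Complex.exp ((a : ℂ) * Complex.I * (T : ℂ)) -
        Complex.exp ((a : ℂ) * Complex.I * ((-T : ℝ) : ℂ))‖ ≤ 2 := by
      refine (norm_sub_le _ _).trans ?_
      rw [h2, h2]
      norm_num
    have ha' : 0 < |a| := abs_pos.2 ha
    rw [abs_of_pos (by positivity : 0 < (2 * T)⁻¹)]
    calc (2 * T)⁻¹ * (‖Complex.exp ((a : ℂ) * Complex.I * (T : ℂ)) -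
        Complex.exp ((a : ℂ) * Complex.I * ((-T : ℝ) : ℂ))‖ / |a|)
        ≤ (2 * T)⁻¹ * (2 / |a|) := by
          refine mul_le_mul_of_nonneg_left ?_ (by positivity)
          exact div_le_div_of_nonneg_right h3 ha'.le
      _ = (1 / |a|) * T⁻¹ := by
          field_simp

theorem vm_cpow {n : ℕ} (hn : n ≠ 0) (t : ℝ) :
    (n : ℂ) ^ (-(Complex.I * t)) = Complex.exp (-(Complex.I * t) * ((Real.log n : ℝ) : ℂ)) := by
  rw [Complex.cpow_def_of_ne_zero (by exact_mod_cast hn), ← Complex.natCast_log, mul_comm]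

theorem vm_expand (k : ℕ) (B : Finset ℕ) (hB : ∀ n ∈ B, n ≠ 0) (t : ℝ) :
    ((‖∑ n ∈ B, (n : ℂ) ^ (-(Complex.I * t))‖ ^ (2 * k) : ℝ) : ℂ) =
    ∑ z ∈ Fintype.piFinset (fun _ : Fin k => B) ×ˢ Fintype.piFinset (fun _ : Fin k => B),
      Complex.exp ((((∑ i, Real.log (z.2 i) - ∑ i, Real.log (z.1 i) : ℝ) : ℂ) * Complex.I) *
        (t : ℂ)) := by
  set f : ℕ → ℂ := fun n => Complex.exp (-(Complex.I * t) * ((Real.log n : ℝ) : ℂ)) with hf
  have h1 : ∑ n ∈ B, (n : ℂ) ^ (-(Complex.I * t)) = ∑ n ∈ B, f n :=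
    Finset.sum_congr rfl fun n hn => vm_cpow (hB n hn) t
  have hpow : ∀ g : ℕ → ℂ, (∑ n ∈ B, g n) ^ k =
      ∑ p ∈ Fintype.piFinset (fun _ : Fin k => B), ∏ i, g (p i) := by
    intro g
    rw [← Finset.prod_univ_sum, Finset.prod_const, Finset.card_univ, Fintype.card_fin]
  rw [h1]
  push_cast
  rw [pow_mul, ← Complex.mul_conj', mul_pow, map_sum, hpow, hpow, Finset.sum_mul_sum,
    ← Finset.sum_product']
  refine Finset.sum_congr rfl fun z _ => ?_
  rw [hf]
  simp only [← Complex.exp_conj]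
  rw [← Complex.exp_sum, ← Complex.exp_sum, ← Complex.exp_add]
  congr 1
  simp only [map_mul, map_neg, Complex.conj_I, Complex.conj_ofReal]
  rw [← Finset.mul_sum, ← Finset.mul_sum]
  push_cast
  ring

theorem vmean_energy (k : ℕ) (B : Finset ℕ) (hB : ∀ n ∈ B, n ≠ 0) :
    Filter.Tendsto (fun T : ℝ => (2 * T)⁻¹ *
      ∫ t in (-T)..T, ‖∑ n ∈ B, (n : ℂ) ^ (-(Complex.I * t))‖ ^ (2 * k))
      Filter.atTop (nhds (TT k B : ℝ)) := by
  have hcard : ((TT k B : ℝ) : ℂ) =
      ∑ z ∈ Fintype.piFinset (fun _ : Fin k => B) ×ˢ Fintype.piFinset (fun _ : Fin k => B),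
      (if (∑ i, Real.log (z.2 i) - ∑ i, Real.log (z.1 i) : ℝ) = 0 then (1 : ℂ) else 0) := by
    unfold TT
    rw [Finset.sum_boole]
    have h1 : ((Fintype.piFinset (fun _ : Fin k => B) ×ˢ Fintype.piFinset (fun _ : Fin k => B)).filter
        (fun z : (Fin k → ℕ) × (Fin k → ℕ) => ∏ i, z.1 i = ∏ i, z.2 i)) =
        ((Fintype.piFinset (fun _ : Fin k => B) ×ˢ Fintype.piFinset (fun _ : Fin k => B)).filter
        (fun z => (∑ i, Real.log (z.2 i) - ∑ i, Real.log (z.1 i) : ℝ) = 0)) := by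
      refine Finset.filter_congr fun z hz => ?_
      rw [Finset.mem_product, Fintype.mem_piFinset, Fintype.mem_piFinset] at hz
      have e1 : ∀ i, ((z.1 i : ℕ) : ℝ) ≠ 0 := fun i => by exact_mod_cast hB _ (hz.1 i)
      have e2 : ∀ i, ((z.2 i : ℕ) : ℝ) ≠ 0 := fun i => by exact_mod_cast hB _ (hz.2 i)
      rw [← Real.log_prod (fun i _ => e2 i), ← Real.log_prod (fun i _ => e1 i), sub_eq_zero]
      have p1 : 0 < ∏ i, ((z.1 i : ℕ) : ℝ) := Finset.prod_pos fun i _ =>
        lt_of_le_of_ne (Nat.cast_nonneg _) (e1 i).symm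
      have p2 : 0 < ∏ i, ((z.2 i : ℕ) : ℝ) := Finset.prod_pos fun i _ =>
        lt_of_le_of_ne (Nat.cast_nonneg _) (e2 i).symm
      constructor
      · intro h
        congr 1
        exact_mod_cast h.symm
      · intro h
        have := Real.log_injOn_pos p2 p1 h
        exact_mod_cast this.symm
    rw [h1]
    push_cast
    rfl
  have key : Filter.Tendsto (fun T : ℝ => (((2 * T)⁻¹ *
      ∫ t in (-T)..T, ‖∑ n ∈ B, (n : ℂ) ^ (-(Complex.I * t))‖ ^ (2 * k) : ℝ) : ℂ))
      Filter.atTop (nhds ((TT k B : ℝ) : ℂ)) := by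
    rw [hcard]
    have h2 : ∀ T : ℝ, (((2 * T)⁻¹ *
      ∫ t in (-T)..T, ‖∑ n ∈ B, (n : ℂ) ^ (-(Complex.I * t))‖ ^ (2 * k) : ℝ) : ℂ) =
      ∑ z ∈ Fintype.piFinset (fun _ : Fin k => B) ×ˢ Fintype.piFinset (fun _ : Fin k => B),
        (((2 * T)⁻¹ : ℝ) : ℂ) * ∫ t in (-T)..T,
        Complex.exp ((((∑ i, Real.log (z.2 i) - ∑ i, Real.log (z.1 i) : ℝ) : ℂ) * Complex.I) *
        (t : ℂ)) := by
      intro T
      rw [← Finset.mul_sum, ← intervalIntegral.integral_finsetSum]
      · rw [Complex.ofReal_mul, ← intervalIntegral.integral_ofReal]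
        congr 1
        exact intervalIntegral.integral_congr fun t _ => vm_expand k B hB t
      · intro z _
        refine Continuous.intervalIntegrable ?_ _ _
        fun_prop
    simp only [h2]
    exact tendsto_finsetSum _ fun z _ => vm_mean _
  have := (Complex.continuous_re.tendsto _).comp key
  simpa [Function.comp_def] using this

end Pool.Agent.Helper256.KM
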