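import Mathlib
import Pool.Agent.Helper256.KM.Defs
import Pool.Agent.Helper256.KM.VM

set_option autoImplicit false

namespace Pool.Agent.Helper256.KM

open Finset ArithmeticFunction

theorem cont_sum (B : Finset ℕ) (hB : ∀ n ∈ B, n ≠ 0) :
    Continuous (fun t : ℝ => ∑ n ∈ B, (n : ℂ) ^ (-(Complex.I * t))) := by
  apply continuous_finsetSum
  intro n hn
  apply Continuous.const_cpow
  · exact (continuous_const.mul Complex.continuous_ofReal).neg
  · left
    exact_mod_cast hB n hn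

theorem pointwise_holder {k : ℕ} (hk : 1 ≤ k) (J : Finset ℕ) (hJ : J.Nonempty) (w : ℕ → ℝ)
    (hw : ∀ j, 0 < w j) (a : ℕ → ℝ) (ha : ∀ j, 0 ≤ a j) :
    (∑ j ∈ J, a j) ^ (2 * k) ≤
      (∑ j ∈ J, w j) ^ (2 * k - 1) * ∑ j ∈ J, (1 / w j) ^ (2 * k - 1) * a j ^ (2 * k) := by
  set W : ℝ := ∑ j ∈ J, w j with hW
  have hWpos : 0 < W := Finset.sum_pos (fun j _ => hw j) hJ
  have h := Real.pow_arith_mean_le_arith_mean_pow J (fun j => w j / W) (fun j => a j * W / w j)
    (fun j _ => div_nonneg (hw j).le hWpos.le)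
    (by rw [← Finset.sum_div, ← hW, div_self hWpos.ne'])
    (fun j _ => div_nonneg (mul_nonneg (ha j) hWpos.le) (hw j).le) (2 * k)
  have h1 : ∑ j ∈ J, w j / W * (a j * W / w j) = ∑ j ∈ J, a j := by
    apply Finset.sum_congr rfl
    intro j _
    have := (hw j).ne'
    field_simp
  rw [h1] at h
  refine h.trans (le_of_eq ?_)
  rw [Finset.mul_sum]
  apply Finset.sum_congr rfl
  intro j _
  have h2 := (hw j).ne'
  obtain ⟨m, hm⟩ : ∃ m, 2 * k = m + 1 := ⟨2 * k - 1, by omega⟩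
  have h3 : 2 * k - 1 = m := by omega
  rw [h3, hm, div_pow, mul_pow, one_div, inv_pow]
  field_simp
  ring

theorem energy_holder {k : ℕ} (hk : 1 ≤ k) (J : Finset ℕ) (B : ℕ → Finset ℕ)
    (hB : ∀ j ∈ J, ∀ n ∈ B j, n ≠ 0)
    (hd : ∀ i ∈ J, ∀ j ∈ J, i ≠ j → Disjoint (B i) (B j)) (w : ℕ → ℝ) (hw : ∀ j, 0 < w j) :
    (TT k (J.biUnion B) : ℝ) ≤
      (∑ j ∈ J, w j) ^ (2 * k - 1) * ∑ j ∈ J, (1 / w j) ^ (2 * k - 1) * (TT k (B j) : ℝ) := by
  have hBU : ∀ n ∈ J.biUnion B, n ≠ 0 := by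
    intro n hn
    obtain ⟨j, hj, hn'⟩ := Finset.mem_biUnion.1 hn
    exact hB j hj n hn'
  rcases J.eq_empty_or_nonempty with hJ | hJ
  · subst hJ
    have : TT k ((∅ : Finset ℕ).biUnion B) = 0 := by
      unfold TT
      rw [Finset.card_eq_zero, Finset.filter_eq_empty_iff]
      intro z hz
      rw [Finset.mem_product, Fintype.mem_piFinset] at hz
      have := hz.1 ⟨0, hk⟩
      simp at this
    rw [this]
    simp
  have h1 := vmean_energy k (J.biUnion B) hBU
  have h2 : Filter.Tendsto (fun T : ℝ => (∑ j ∈ J, w j) ^ (2 * k - 1) * ∑ j ∈ J,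
      (1 / w j) ^ (2 * k - 1) * ((2 * T)⁻¹ *
      ∫ t in (-T)..T, ‖∑ n ∈ B j, (n : ℂ) ^ (-(Complex.I * t))‖ ^ (2 * k))) Filter.atTop
      (nhds ((∑ j ∈ J, w j) ^ (2 * k - 1) * ∑ j ∈ J, (1 / w j) ^ (2 * k - 1) * (TT k (B j) : ℝ))) := by
    apply Filter.Tendsto.const_mul
    apply tendsto_finsetSum
    intro j hj
    apply Filter.Tendsto.const_mul
    exact vmean_energy k (B j) (hB j hj)
  refine le_of_tendsto_of_tendsto h1 h2 ?_
  filter_upwards [Filter.eventually_gt_atTop (0 : ℝ)] with T hT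
  have hint : ∀ j ∈ J, IntervalIntegrable (fun t : ℝ => ‖∑ n ∈ B j, (n : ℂ) ^ (-(Complex.I * t))‖ ^ (2 * k))
      MeasureTheory.volume (-T) T := by
    intro j hj
    exact ((cont_sum (B j) (hB j hj)).norm.pow _).intervalIntegrable _ _
  have h3 : (∑ j ∈ J, w j) ^ (2 * k - 1) * ∑ j ∈ J,
      (1 / w j) ^ (2 * k - 1) * ((2 * T)⁻¹ *
      ∫ t in (-T)..T, ‖∑ n ∈ B j, (n : ℂ) ^ (-(Complex.I * t))‖ ^ (2 * k))
      = (2 * T)⁻¹ * ∫ t in (-T)..T, (∑ j ∈ J, w j) ^ (2 * k - 1) * ∑ j ∈ J,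
        (1 / w j) ^ (2 * k - 1) * ‖∑ n ∈ B j, (n : ℂ) ^ (-(Complex.I * t))‖ ^ (2 * k) := by
    rw [intervalIntegral.integral_const_mul, intervalIntegral.integral_finsetSum]
    · simp_rw [intervalIntegral.integral_const_mul]
      rw [← mul_assoc, mul_comm ((2 * T)⁻¹), mul_assoc]
      congr 1
      rw [Finset.mul_sum]
      apply Finset.sum_congr rfl
      intro j _
      ring
    · intro j hj
      exact (hint j hj).const_mul _
  rw [h3]
  apply mul_le_mul_of_nonneg_left _ (by positivity)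
  apply intervalIntegral.integral_mono (by linarith)
  · exact ((cont_sum (J.biUnion B) hBU).norm.pow _).intervalIntegrable _ _
  · apply Continuous.intervalIntegrable
    apply Continuous.mul continuous_const
    apply continuous_finsetSum
    intro j hj
    exact continuous_const.mul ((cont_sum (B j) (hB j hj)).norm.pow _)
  · intro t
    simp only
    have h4 : ∑ n ∈ J.biUnion B, (n : ℂ) ^ (-(Complex.I * t)) =
        ∑ j ∈ J, ∑ n ∈ B j, (n : ℂ) ^ (-(Complex.I * t)) := by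
      apply Finset.sum_biUnion
      intro i hi j hj hij
      exact hd i hi j hj hij
    rw [h4]
    calc ‖∑ j ∈ J, ∑ n ∈ B j, (n : ℂ) ^ (-(Complex.I * t))‖ ^ (2 * k)
        ≤ (∑ j ∈ J, ‖∑ n ∈ B j, (n : ℂ) ^ (-(Complex.I * t))‖) ^ (2 * k) := by
          apply pow_le_pow_left₀ (norm_nonneg _)
          exact norm_sum_le _ _
      _ ≤ _ := pointwise_holder hk J hJ w hw (fun j => ‖∑ n ∈ B j, (n : ℂ) ^ (-(Complex.I * t))‖)
          (fun j => norm_nonneg _)

theorem TT_le (k : ℕ) (hk : 1 ≤ k) (B : Finset ℕ) (hB : ∀ n ∈ B, n ≠ 0) :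
    TT k B ≤ B.card ^ (2 * k - 1) := by
  obtain ⟨m, rfl⟩ : ∃ m, k = m + 1 := ⟨k - 1, by omega⟩
  have h1 : B.card ^ (2 * (m + 1) - 1) =
      (Fintype.piFinset (fun _ : Fin (m + 1) => B) ×ˢ Fintype.piFinset (fun _ : Fin m => B)).card := by
    rw [Finset.card_product, Fintype.card_piFinset, Fintype.card_piFinset]
    simp only [Finset.prod_const, Finset.card_univ, Fintype.card_fin]
    rw [← pow_add]
    congr 1
    omega
  rw [h1]
  unfold TT
  apply Finset.card_le_card_of_injOn (fun z => (z.1, fun i : Fin m => z.2 i.succ))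
  · intro z hz
    have hz' := (Finset.mem_filter.1 (Finset.mem_coe.1 hz)).1
    rw [Finset.mem_product, Fintype.mem_piFinset, Fintype.mem_piFinset] at hz'
    apply Finset.mem_coe.2
    rw [Finset.mem_product, Fintype.mem_piFinset, Fintype.mem_piFinset]
    exact ⟨hz'.1, fun i => hz'.2 i.succ⟩
  · intro z hz z' hz' h
    have hz1 := Finset.mem_filter.1 (Finset.mem_coe.1 hz)
    have hz1' := Finset.mem_filter.1 (Finset.mem_coe.1 hz')
    have hz2 := hz1.1
    have hz2' := hz1'.1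
    rw [Finset.mem_product, Fintype.mem_piFinset, Fintype.mem_piFinset] at hz2 hz2'
    obtain ⟨x, y⟩ := z
    obtain ⟨x', y'⟩ := z'
    simp only [Prod.mk.injEq] at h
    obtain ⟨h2, h3⟩ := h
    subst h2
    have h4 : ∀ i : Fin m, y i.succ = y' i.succ := fun i => congrFun h3 i
    have h5 : ∏ i, y i = ∏ i, y' i := hz1.2.symm.trans hz1'.2
    rw [Fin.prod_univ_succ, Fin.prod_univ_succ] at h5
    have h6 : ∏ i : Fin m, y i.succ = ∏ i : Fin m, y' i.succ := by
      apply Finset.prod_congr rfl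
      intro i _
      exact h4 i
    rw [h6] at h5
    have h7 : ∏ i : Fin m, y' i.succ ≠ 0 := by
      rw [Finset.prod_ne_zero_iff]
      intro i _
      exact hB _ (hz2'.2 i.succ)
    have h8 := mul_right_cancel₀ h7 h5
    have h9 : y = y' := by
      funext i
      refine Fin.cases ?_ ?_ i
      · exact h8
      · exact h4
    rw [h9]

theorem TT_one (B : Finset ℕ) : TT 1 B = B.card := by
  unfold TT
  symm
  apply Finset.card_bij (fun b _ => ((fun _ => b, fun _ => b) : (Fin 1 → ℕ) × (Fin 1 → ℕ)))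
  · intro b hb
    rw [Finset.mem_filter, Finset.mem_product, Fintype.mem_piFinset]
    exact ⟨⟨fun _ => hb, fun _ => hb⟩, rfl⟩
  · intro a _ b _ h
    have := congrFun (congrArg Prod.fst h) 0
    exact this
  · intro z hz
    rw [Finset.mem_filter, Finset.mem_product, Fintype.mem_piFinset, Fintype.mem_piFinset] at hz
    refine ⟨z.1 0, hz.1.1 0, ?_⟩
    have h2 := hz.2
    simp only [Fin.prod_univ_one] at h2
    apply Prod.ext
    · funext i
      rw [Subsingleton.elim i 0]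
    · funext i
      rw [Subsingleton.elim i 0]
      exact h2

theorem mean_power {k : ℕ} (hk : 2 ≤ k) (F : ℝ → ℝ) (hF : Continuous F) (hF0 : ∀ t, 0 ≤ F t)
    (T : ℝ) (hT : 0 < T) :
    ((2 * T)⁻¹ * ∫ t in (-T)..T, F t ^ (2 * 2)) ^ k ≤
      ((2 * T)⁻¹ * ∫ t in (-T)..T, F t ^ (2 * k)) ^ 2 := by
  have hle : -T ≤ T := by linarith
  have hvol : (MeasureTheory.volume : MeasureTheory.Measure ℝ).real (Set.Ioc (-T) T) = 2 * T := by
    rw [Real.volume_real_Ioc_of_le hle]; ring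
  have hav : ∀ g : ℝ → ℝ, (⨍ t in Set.Ioc (-T) T, g t) = (2 * T)⁻¹ * ∫ t in (-T)..T, g t := by
    intro g
    rw [MeasureTheory.setAverage_eq, hvol, intervalIntegral.integral_of_le hle, smul_eq_mul]
  have hp : (1 : ℝ) ≤ (k : ℝ) / 2 := by
    have : (2 : ℝ) ≤ k := by exact_mod_cast hk
    linarith
  have hcomp : ∀ t, (F t ^ (2 * 2)) ^ ((k : ℝ) / 2) = F t ^ (2 * k) := by
    intro t
    rw [← Real.rpow_natCast (F t) (2 * 2), ← Real.rpow_mul (hF0 t), ← Real.rpow_natCast (F t) (2 * k)]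
    congr 1
    push_cast
    ring
  have hJ := (convexOn_rpow hp).map_set_average_le (μ := MeasureTheory.volume)
    (t := Set.Ioc (-T) T) (f := fun t => F t ^ (2 * 2))
    (continuousOn_id.rpow_const (fun x hx => Or.inr (by linarith))) isClosed_Ici
    (by rw [Real.volume_Ioc]; simp; linarith) (by rw [Real.volume_Ioc]; exact ENNReal.ofReal_ne_top)
    (Filter.Eventually.of_forall (fun t => Set.mem_Ici.2 (pow_nonneg (hF0 t) _)))
    ((hF.pow _).integrableOn_Ioc)
    (by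
      have : ((fun x : ℝ => x ^ ((k : ℝ) / 2)) ∘ fun t => F t ^ (2 * 2)) = fun t => F t ^ (2 * k) := by
        funext t
        exact hcomp t
      rw [this]
      exact (hF.pow _).integrableOn_Ioc)
  simp only [hcomp] at hJ
  rw [hav, hav] at hJ
  set M := (2 * T)⁻¹ * ∫ t in (-T)..T, F t ^ (2 * 2) with hM
  have hM0 : 0 ≤ M := by
    apply mul_nonneg (by positivity)
    apply intervalIntegral.integral_nonneg hle
    intro t _
    exact pow_nonneg (hF0 t) _
  have h1 : M ^ k = (M ^ ((k : ℝ) / 2)) ^ 2 := by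
    rw [← Real.rpow_natCast (M ^ ((k : ℝ) / 2)) 2, ← Real.rpow_mul hM0, ← Real.rpow_natCast M k]
    congr 1
    push_cast
    ring
  rw [h1]
  apply pow_le_pow_left₀ (Real.rpow_nonneg hM0 _) hJ

theorem TT_power_mean {k : ℕ} (hk : 2 ≤ k) (B : Finset ℕ) (hB : ∀ n ∈ B, n ≠ 0) :
    ((TT 2 B : ℕ) : ℝ) ^ k ≤ ((TT k B : ℕ) : ℝ) ^ 2 := by
  have h1 := (vmean_energy 2 B hB).pow k
  have h2 := (vmean_energy k B hB).pow 2
  refine le_of_tendsto_of_tendsto h1 h2 ?_
  filter_upwards [Filter.eventually_gt_atTop (0 : ℝ)] with T hT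
  exact mean_power hk (fun t : ℝ => ‖∑ n ∈ B, (n : ℂ) ^ (-(Complex.I * t))‖) (cont_sum B hB).norm
    (fun t => norm_nonneg _) T hT

end Pool.Agent.Helper256.KM
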