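import Mathlib
import Pool.Agent.Helper256.KM.Defs

set_option autoImplicit false

namespace Pool.Agent.Helper256.KM

open Finset ArithmeticFunction

lemma log_fact_upper {n : ℕ} (hn : 1 ≤ n) :
    Real.log (n.factorial : ℝ) ≤ n * Real.log n - n + Real.log n / 2 + 1 := by
  have hn0 : (0:ℝ) < n := by exact_mod_cast hn
  obtain ⟨m, rfl⟩ : ∃ m, n = m + 1 := ⟨n - 1, by omega⟩
  have h1 : Stirling.stirlingSeq (m + 1) ≤ Stirling.stirlingSeq 1 :=
    Stirling.stirlingSeq'_antitone (Nat.zero_le m)
  have h2 : Real.log (Stirling.stirlingSeq (m + 1)) ≤ Real.log (Stirling.stirlingSeq 1) :=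
    Real.log_le_log (Stirling.stirlingSeq'_pos m) h1
  rw [Stirling.log_stirlingSeq_formula, Stirling.log_stirlingSeq_formula] at h2
  rw [Real.log_mul two_ne_zero hn0.ne', Real.log_div hn0.ne' (Real.exp_pos 1).ne', Real.log_exp] at h2
  simp at h2
  push_cast at h2 ⊢
  linarith

theorem multinomial_lower {k : ℕ} (hk : 1 ≤ k) : ∃ c : ℝ, 0 < c ∧ ∀ (α : ℝ) (a : Fin k → ℕ), 1 ≤ α →
    (∀ i, |(a i : ℝ) - α| ≤ 2 * Real.sqrt α) →
    c * (k : ℝ) ^ (∑ i, a i) * α ^ (-(((k : ℝ) - 1) / 2)) ≤ (Nat.multinomial Finset.univ a : ℝ) := by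
  have hk1 : (1:ℝ) ≤ k := by exact_mod_cast hk
  have hk0 : (0:ℝ) < k := by linarith
  refine ⟨min (Real.exp (-34 * k)) (((k:ℝ) ^ (24 * k))⁻¹), lt_min (Real.exp_pos _) (by positivity), ?_⟩
  intro α a hα ha
  have hα0 : 0 < α := by linarith
  have hsq : Real.sqrt α * Real.sqrt α = α := Real.mul_self_sqrt hα0.le
  have hsq0 : 0 ≤ Real.sqrt α := Real.sqrt_nonneg α
  have hsq1 : 1 ≤ Real.sqrt α := by
    rw [show (1:ℝ) = Real.sqrt 1 by simp]
    exact Real.sqrt_le_sqrt hα
  have hup : ∀ i, (a i : ℝ) ≤ α + 2 * Real.sqrt α := fun i => by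
    have := (abs_le.1 (ha i)).2; linarith
  have hlo : ∀ i, α - 2 * Real.sqrt α ≤ (a i : ℝ) := fun i => by
    have := (abs_le.1 (ha i)).1; linarith
  set s := ∑ i, a i with hs
  have hsR : (s : ℝ) = ∑ i, (a i : ℝ) := by rw [hs]; push_cast; rfl
  have hsup : (s:ℝ) ≤ k * (α + 2 * Real.sqrt α) := by
    rw [hsR]
    calc ∑ i, (a i : ℝ) ≤ ∑ _i : Fin k, (α + 2 * Real.sqrt α) := Finset.sum_le_sum fun i _ => hup i
      _ = _ := by rw [Finset.sum_const, Finset.card_univ, Fintype.card_fin, nsmul_eq_mul]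
  have hslo : k * (α - 2 * Real.sqrt α) ≤ (s:ℝ) := by
    rw [hsR]
    calc (k:ℝ) * (α - 2 * Real.sqrt α) = ∑ _i : Fin k, (α - 2 * Real.sqrt α) := by
          rw [Finset.sum_const, Finset.card_univ, Fintype.card_fin, nsmul_eq_mul]
      _ ≤ _ := Finset.sum_le_sum fun i _ => hlo i
  have hmpos : 0 < Nat.multinomial Finset.univ a := Nat.multinomial_pos _ _
  have hm1 : (1:ℝ) ≤ (Nat.multinomial Finset.univ a : ℝ) := by exact_mod_cast hmpos
  have hpow1 : 0 < α ^ (-(((k : ℝ) - 1) / 2)) := Real.rpow_pos_of_pos hα0 _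
  rcases lt_or_ge α 16 with hα16 | hα16
  · -- small α
    have hsqlt : Real.sqrt α < 4 := by nlinarith
    have hs24 : s ≤ 24 * k := by
      have : (s:ℝ) ≤ 24 * k := by nlinarith
      exact_mod_cast this
    have h1 : (k:ℝ) ^ s ≤ (k:ℝ) ^ (24 * k) := pow_le_pow_right₀ hk1 hs24
    have h2 : α ^ (-(((k : ℝ) - 1) / 2)) ≤ 1 :=
      Real.rpow_le_one_of_one_le_of_nonpos hα (by linarith)
    calc min (Real.exp (-34 * k)) (((k:ℝ) ^ (24 * k))⁻¹) * (k : ℝ) ^ s * α ^ (-(((k : ℝ) - 1) / 2))
        ≤ ((k:ℝ) ^ (24 * k))⁻¹ * (k : ℝ) ^ (24 * k) * 1 := by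
          gcongr
          exact min_le_right _ _
      _ = 1 := by
          rw [mul_one, inv_mul_cancel₀ (by positivity)]
      _ ≤ _ := hm1
  · -- large α
    have hsq4 : 4 ≤ Real.sqrt α := by
      rw [show (4:ℝ) = Real.sqrt 16 by
        rw [show (16:ℝ) = 4 ^ 2 by norm_num]; exact (Real.sqrt_sq (by norm_num)).symm]
      exact Real.sqrt_le_sqrt hα16
    have h2sq : 2 * Real.sqrt α ≤ α / 2 := by nlinarith
    have halo : ∀ i, α / 2 ≤ (a i : ℝ) := fun i => by linarith [hlo i]
    have haup : ∀ i, (a i : ℝ) ≤ 2 * α := fun i => by linarith [hup i]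
    have ha1 : ∀ i, 1 ≤ a i := fun i => by
      have : (1:ℝ) ≤ a i := by linarith [halo i]
      exact_mod_cast this
    have hapos : ∀ i, (0:ℝ) < a i := fun i => by linarith [halo i]
    set b : ℝ := s / k with hb
    have hbk : k * b = s := by rw [hb]; field_simp
    have hblo : α - 2 * Real.sqrt α ≤ b := by
      rw [hb, le_div_iff₀ hk0]; linarith
    have hbup : b ≤ α + 2 * Real.sqrt α := by
      rw [hb, div_le_iff₀ hk0]; linarith
    have hbα : α / 2 ≤ b := by linarith
    have hb0 : 0 < b := by linarith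
    have hs0 : (0:ℝ) < s := by rw [← hbk]; positivity
    have hsα : α / 2 ≤ s := by
      rw [← hbk]; nlinarith
    have hsne : s ≠ 0 := by
      intro h; rw [h] at hs0; simp at hs0
    -- entropy bound
    have hent : ∑ i, (a i : ℝ) * Real.log (a i) ≤ s * Real.log b + 32 * k := by
      have h1 : ∀ i, (a i : ℝ) * Real.log (a i) ≤ a i * Real.log b + (a i - b) + 32 := by
        intro i
        have h2 : Real.log (a i / b) ≤ a i / b - 1 := Real.log_le_sub_one_of_pos (div_pos (hapos i) hb0)
        rw [Real.log_div (hapos i).ne' hb0.ne'] at h2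
        have h3 : (a i : ℝ) * (Real.log (a i) - Real.log b) ≤ a i * (a i / b - 1) :=
          mul_le_mul_of_nonneg_left h2 (hapos i).le
        have h4 : (a i : ℝ) * (a i / b - 1) = (a i - b) + (a i - b) ^ 2 / b := by
          field_simp; ring
        have h5 : ((a i : ℝ) - b) ^ 2 / b ≤ 32 := by
          rw [div_le_iff₀ hb0]
          have h6 : |(a i : ℝ) - b| ≤ 4 * Real.sqrt α := by
            rw [abs_le]; constructor <;> linarith [hlo i, hup i]
          have h7 : ((a i : ℝ) - b) ^ 2 ≤ (4 * Real.sqrt α) ^ 2 := sq_le_sq' (by linarith [(abs_le.1 h6).1]) (abs_le.1 h6).2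
          nlinarith
        rw [h4] at h3
        linarith
      calc ∑ i, (a i : ℝ) * Real.log (a i) ≤ ∑ i, (a i * Real.log b + (a i - b) + 32) :=
            Finset.sum_le_sum fun i _ => h1 i
        _ = s * Real.log b + 32 * k := by
            rw [Finset.sum_add_distrib, Finset.sum_add_distrib, Finset.sum_sub_distrib,
              ← Finset.sum_mul, ← hsR]
            simp only [Finset.sum_const, Finset.card_univ, Fintype.card_fin, nsmul_eq_mul]
            rw [hbk]; ring
    have hlogb : Real.log b = Real.log s - Real.log k := by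
      rw [hb, Real.log_div hs0.ne' hk0.ne']
    -- log of multinomial
    have hspec := Nat.multinomial_spec (Finset.univ : Finset (Fin k)) a
    have hlogm : ∑ i, Real.log ((a i).factorial : ℝ) + Real.log (Nat.multinomial Finset.univ a : ℝ) =
        Real.log (s.factorial : ℝ) := by
      rw [← hs] at hspec
      have h8 : (∏ i, ((a i).factorial : ℝ)) * (Nat.multinomial Finset.univ a : ℝ) = (s.factorial : ℝ) := by
        exact_mod_cast hspec
      rw [← h8, Real.log_mul, Real.log_prod]
      · intro i _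
        exact_mod_cast (Nat.factorial_pos _).ne'
      · exact Finset.prod_ne_zero_iff.2 fun i _ => by exact_mod_cast (Nat.factorial_pos _).ne'
      · positivity
    have hlow := Stirling.le_log_factorial_stirling hsne
    have hupf : ∑ i, Real.log ((a i).factorial : ℝ) ≤
        ∑ i, ((a i : ℝ) * Real.log (a i)) - s + k * (Real.log (2 * α) / 2) + k := by
      calc ∑ i, Real.log ((a i).factorial : ℝ) ≤
            ∑ i, ((a i : ℝ) * Real.log (a i) - a i + Real.log (2 * α) / 2 + 1) := by
            refine Finset.sum_le_sum fun i _ => ?_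
            have h9 := log_fact_upper (ha1 i)
            have h10 : Real.log (a i) ≤ Real.log (2 * α) := Real.log_le_log (hapos i) (haup i)
            linarith
        _ = _ := by
            rw [Finset.sum_add_distrib, Finset.sum_add_distrib, Finset.sum_sub_distrib, ← hsR]
            simp
    have hlog2α : Real.log (2 * α) = Real.log 2 + Real.log α := Real.log_mul two_ne_zero hα0.ne'
    have hlog2 : Real.log 2 ≤ 1 := by
      have := Real.log_le_sub_one_of_pos (show (0:ℝ) < 2 by norm_num)
      linarith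
    have hlogs : Real.log (α / 2) ≤ Real.log s := Real.log_le_log (by positivity) hsα
    rw [Real.log_div hα0.ne' two_ne_zero] at hlogs
    have hlog2pi : Real.log 2 ≤ Real.log (2 * Real.pi) := by
      apply Real.log_le_log (by norm_num)
      nlinarith [Real.pi_gt_three]
    have hfin : -34 * k + s * Real.log k + (-(((k : ℝ) - 1) / 2)) * Real.log α ≤
        Real.log (Nat.multinomial Finset.univ a : ℝ) := by
      rw [hlogb] at hent
      rw [hlog2α] at hupf
      have h11 : (k:ℝ) * Real.log 2 ≤ k * 1 := mul_le_mul_of_nonneg_left hlog2 hk0.le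
      linarith
    calc min (Real.exp (-34 * k)) (((k:ℝ) ^ (24 * k))⁻¹) * (k : ℝ) ^ s * α ^ (-(((k : ℝ) - 1) / 2))
        ≤ Real.exp (-34 * k) * (k : ℝ) ^ s * α ^ (-(((k : ℝ) - 1) / 2)) := by
          gcongr
          exact min_le_left _ _
      _ = Real.exp (-34 * k + s * Real.log k + (-(((k : ℝ) - 1) / 2)) * Real.log α) := by
          rw [Real.exp_add, Real.exp_add, Real.rpow_def_of_pos hα0]
          have : (k:ℝ) ^ s = Real.exp (s * Real.log k) := by
            rw [mul_comm, Real.exp_mul, Real.exp_log hk0, Real.rpow_natCast]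
          rw [this]
          congr 2
          ring
      _ ≤ Real.exp (Real.log (Nat.multinomial Finset.univ a : ℝ)) := Real.exp_le_exp.2 hfin
      _ = _ := Real.exp_log (by linarith)

end Pool.Agent.Helper256.KM
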