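import Mathlib
import Pool.Agent.Helper256.KM.Defs
import Pool.Agent.Helper256.KM.P8
import Pool.Agent.Helper256.KM.BN

set_option autoImplicit false

namespace Pool.Agent.Helper256.KM

open Finset ArithmeticFunction

theorem aux_term {M a : ℕ} (ha : a < M) {q : ℝ} (hq : 0 < q) (u : ℝ) :
    q ^ (M - 1 - a) / ((M - 1 - a).factorial : ℝ) * (M.factorial : ℝ) / (a.factorial : ℝ) * u ^ a =
      q ^ M * (((M : ℝ) - a) / q) * (M.choose a : ℝ) * (u / q) ^ a := by
  obtain ⟨b, rfl⟩ : ∃ b, M = a + 1 + b := ⟨M - (a + 1), by omega⟩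
  have e1 : a + 1 + b - 1 - a = b := by omega
  have e2 := Nat.choose_mul_factorial_mul_factorial (n := a + 1 + b) (k := a) (by omega)
  have e3 : a + 1 + b - a = b + 1 := by omega
  rw [e3, Nat.factorial_succ] at e2
  have e4 : (((a + 1 + b).choose a : ℕ) : ℝ) * (a.factorial : ℝ) * (((b : ℝ) + 1) * (b.factorial : ℝ)) =
      ((a + 1 + b).factorial : ℝ) := by
    exact_mod_cast e2
  rw [e1, ← e4]
  have h1 : (b.factorial : ℝ) ≠ 0 := by positivity
  have h2 : (a.factorial : ℝ) ≠ 0 := by positivity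
  push_cast
  rw [div_pow]
  field_simp
  ring

theorem aux_prod1 {k : ℕ} (X : Fin k → ℝ) (m u : ℝ) (a : Fin k → ℕ) :
    ∏ i, (X i * m / ((a i).factorial : ℝ) * u ^ (a i)) =
      (∏ i, X i) * m ^ k / (∏ i, ((a i).factorial : ℝ)) * u ^ (∑ i, a i) := by
  rw [Finset.prod_mul_distrib, Finset.prod_div_distrib, Finset.prod_mul_distrib, Finset.prod_const,
    Finset.card_univ, Fintype.card_fin, Finset.prod_pow_eq_pow_sum]

theorem aux_prod2 {k : ℕ} (c : ℝ) (f : Fin k → ℝ) : ∏ i, (c * f i) = c ^ k * ∏ i, f i := by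
  rw [Finset.prod_mul_distrib, Finset.prod_const, Finset.card_univ, Fintype.card_fin]

theorem aux_prod3 {k : ℕ} (c : ℝ) (a : Fin k → ℕ) (f : Fin k → ℝ) :
    ∏ i, (c ^ (a i) * f i) = c ^ (∑ i, a i) * ∏ i, f i := by
  rw [Finset.prod_mul_distrib, Finset.prod_pow_eq_pow_sum]

theorem aux_summand {k M : ℕ} {q : ℝ} (hq : 0 < q) (u : ℝ) (a : Fin k → ℕ) (ha : ∀ i, a i < M) :
    (∏ i, q ^ (M - 1 - a i) / ((M - 1 - a i).factorial : ℝ)) * (M.factorial : ℝ) ^ k *
          (Nat.multinomial Finset.univ a : ℝ) ^ 2 *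
          (u ^ (∑ i, a i) / ((∑ i, a i).factorial : ℝ)) =
    (Nat.multinomial Finset.univ a : ℝ) *
      ∏ i, (q ^ M * (((M : ℝ) - a i) / q) * (M.choose (a i) : ℝ) * (u / q) ^ (a i)) := by
  have e1 : ∏ i, (q ^ M * (((M : ℝ) - a i) / q) * (M.choose (a i) : ℝ) * (u / q) ^ (a i)) =
      ∏ i, (q ^ (M - 1 - a i) / ((M - 1 - a i).factorial : ℝ) * (M.factorial : ℝ) / ((a i).factorial : ℝ) * u ^ (a i)) :=
    Finset.prod_congr rfl fun i _ => (aux_term (ha i) hq u).symm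
  rw [e1, aux_prod1 (fun i => q ^ (M - 1 - a i) / ((M - 1 - a i).factorial : ℝ)) (M.factorial : ℝ) u a]
  have e2 := Nat.multinomial_spec Finset.univ a
  have e3 : ((∏ i, ((a i).factorial : ℝ))) * (Nat.multinomial Finset.univ a : ℝ) = ((∑ i, a i).factorial : ℝ) := by
    exact_mod_cast e2
  rw [← e3]
  have h1 : (Nat.multinomial Finset.univ a : ℝ) ≠ 0 := by
    have := Nat.multinomial_pos Finset.univ a
    positivity
  have h2 : (∏ i, ((a i).factorial : ℝ)) ≠ 0 := Finset.prod_ne_zero_iff.2 fun i _ => by positivity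
  field_simp

theorem inner_lower {k : ℕ} (hk : 2 ≤ k) : ∃ (c : ℝ) (u₀ : ℕ), 0 < c ∧ ∀ (M u : ℕ) (q : ℝ),
    u₀ ≤ u → 0 < q → q / 2 ≤ k * M → (k * M : ℝ) ≤ 3 / 2 * q → 8 * (k : ℝ) * u ≤ q →
    c * (u : ℝ) ^ (-(((k : ℝ) - 1) / 2)) * (q + k * u) ^ (k * M) ≤
      ∑ a ∈ (Fintype.piFinset (fun _ : Fin k => Finset.range M)).filter
        (fun a => ((∑ i, a i : ℕ) : ℝ) ≤ 2 * k * u),
        (∏ i, q ^ (M - 1 - a i) / ((M - 1 - a i).factorial : ℝ)) * (M.factorial : ℝ) ^ k *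
          (Nat.multinomial Finset.univ a : ℝ) ^ 2 *
          ((u : ℝ) ^ (∑ i, a i) / ((∑ i, a i).factorial : ℝ)) := by
  classical
  obtain ⟨c0, hc0, hmul⟩ := multinomial_lower (k := k) (by omega)
  have hkR : (2 : ℝ) ≤ k := by exact_mod_cast hk
  have hk0 : (0 : ℝ) < k := by linarith
  refine ⟨c0 * (3 / 2 : ℝ) ^ (-(((k : ℝ) - 1) / 2)) * (1 / (4 * k)) ^ k * (3 / 4) ^ k, 200, by positivity, ?_⟩
  intro M u q hu hq hM1 hM2 hq8
  have huR : (200 : ℝ) ≤ u := by exact_mod_cast hu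
  have hu0 : (0 : ℝ) < u := by linarith
  set w : ℝ := k * u / q with hw
  have hw0 : 0 < w := by positivity
  have hw8 : w ≤ 1 / 8 := by
    rw [hw, div_le_iff₀ hq]; linarith
  have hqw : q * w = k * u := by rw [hw]; field_simp
  set α : ℝ := M * w / (1 + w) with hα
  have hαe : α * (1 + w) = M * w := by rw [hα]; field_simp
  have hα1 : α ≤ 3 / 2 * u := by
    rw [hα, div_le_iff₀ (by positivity)]
    have : k * (M * w) ≤ k * (3 / 2 * u) := by
      calc (k : ℝ) * (M * w) = (k * M) * w := by ring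
        _ ≤ 3 / 2 * q * w := mul_le_mul_of_nonneg_right hM2 hw0.le
        _ = k * (3 / 2 * u) := by rw [mul_assoc, hqw]; ring
    have h2 : M * w ≤ 3 / 2 * u := le_of_mul_le_mul_left this hk0
    nlinarith
  have hα2 : (4 / 9) * u ≤ α := by
    rw [hα, le_div_iff₀ (by positivity)]
    have : k * (1 / 2 * u) ≤ k * (M * w) := by
      calc k * (1 / 2 * (u : ℝ)) = q / 2 * w := by linear_combination (-(1 / 2) : ℝ) * hqw
        _ ≤ (k * M) * w := mul_le_mul_of_nonneg_right hM1 hw0.le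
        _ = (k : ℝ) * (M * w) := by ring
    have h2 : 1 / 2 * (u : ℝ) ≤ M * w := le_of_mul_le_mul_left this hk0
    nlinarith
  have hα3 : 1 ≤ α := by linarith
  have hα0 : 0 < α := by linarith
  have hsq : 2 * Real.sqrt α ≤ u / 2 := by
    have : Real.sqrt α ≤ u / 4 := by
      rw [Real.sqrt_le_left (by positivity)]
      nlinarith
    linarith
  have hMu : 4 * (u : ℝ) ≤ M := by
    have : (2 * k : ℝ) * (4 * u) ≤ (2 * k) * M := by linarith
    exact le_of_mul_le_mul_left this (by positivity)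
  have hq2 : q ≤ 2 * k * M := by linarith
  set Win : Finset ℕ := (Finset.range (M + 1)).filter
      (fun a : ℕ => |(a : ℝ) - M * w / (1 + w)| ≤ 2 * Real.sqrt (M * w / (1 + w))) with hWin
  have hWin' : ∀ a ∈ Win, |(a : ℝ) - α| ≤ 2 * Real.sqrt α := fun a ha => (Finset.mem_filter.1 ha).2
  have hWle : ∀ a ∈ Win, (a : ℝ) ≤ 2 * u := by
    intro a ha
    have := (abs_le.1 (hWin' a ha)).2
    linarith
  have hWlt : ∀ a ∈ Win, a < M := by
    intro a ha
    have h1 := hWle a ha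
    have : (a : ℝ) < M := by linarith
    exact_mod_cast this
  have hsub : Fintype.piFinset (fun _ : Fin k => Win) ⊆
      (Fintype.piFinset (fun _ : Fin k => Finset.range M)).filter
        (fun a => ((∑ i, a i : ℕ) : ℝ) ≤ 2 * k * u) := by
    intro a ha
    rw [Fintype.mem_piFinset] at ha
    refine Finset.mem_filter.2 ⟨?_, ?_⟩
    · rw [Fintype.mem_piFinset]
      intro i
      exact Finset.mem_range.2 (hWlt _ (ha i))
    · push_cast
      calc ∑ i, (a i : ℝ) ≤ ∑ _i : Fin k, 2 * (u : ℝ) := Finset.sum_le_sum fun i _ => hWle _ (ha i)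
        _ = 2 * k * u := by
          rw [Finset.sum_const, Finset.card_univ, Fintype.card_fin, nsmul_eq_mul]; ring
  refine le_trans ?_ (Finset.sum_le_sum_of_subset_of_nonneg hsub ?_)
  · -- lower bound for the window sum
    have hterm : ∀ a ∈ Fintype.piFinset (fun _ : Fin k => Win),
        c0 * (3 / 2 : ℝ) ^ (-(((k : ℝ) - 1) / 2)) * (1 / (4 * k)) ^ k * (u : ℝ) ^ (-(((k : ℝ) - 1) / 2)) *
          (q ^ M) ^ k * ∏ i, ((M.choose (a i) : ℝ) * w ^ (a i)) ≤
        (∏ i, q ^ (M - 1 - a i) / ((M - 1 - a i).factorial : ℝ)) * (M.factorial : ℝ) ^ k *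
          (Nat.multinomial Finset.univ a : ℝ) ^ 2 *
          ((u : ℝ) ^ (∑ i, a i) / ((∑ i, a i).factorial : ℝ)) := by
      intro a ha
      rw [Fintype.mem_piFinset] at ha
      rw [aux_summand hq (u : ℝ) a (fun i => hWlt _ (ha i))]
      have h1 := hmul α a hα3 (fun i => hWin' _ (ha i))
      have hP0 : 0 ≤ ∏ i, (q ^ M * (((M : ℝ) - a i) / q) * (M.choose (a i) : ℝ) * ((u : ℝ) / q) ^ (a i)) := by
        apply Finset.prod_nonneg
        intro i _
        have : (a i : ℝ) < M := by exact_mod_cast hWlt _ (ha i)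
        have h2 : 0 ≤ ((M : ℝ) - a i) / q := div_nonneg (by linarith) hq.le
        positivity
      refine le_trans ?_ (mul_le_mul_of_nonneg_right h1 hP0)
      have h3 : (3 / 2 : ℝ) ^ (-(((k : ℝ) - 1) / 2)) * (u : ℝ) ^ (-(((k : ℝ) - 1) / 2)) ≤
          α ^ (-(((k : ℝ) - 1) / 2)) := by
        rw [← Real.mul_rpow (by norm_num) hu0.le]
        apply Real.rpow_le_rpow_of_nonpos hα0 hα1
        linarith
      have h4 : (1 / (4 * k) : ℝ) ^ k * (q ^ M) ^ k * ∏ i, ((M.choose (a i) : ℝ) * w ^ (a i)) ≤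
          (k : ℝ) ^ (∑ i, a i) *
          ∏ i, (q ^ M * (((M : ℝ) - a i) / q) * (M.choose (a i) : ℝ) * ((u : ℝ) / q) ^ (a i)) := by
        have e1 : (1 / (4 * k) : ℝ) ^ k * (q ^ M) ^ k * ∏ i, ((M.choose (a i) : ℝ) * w ^ (a i)) =
            ∏ i, ((1 / (4 * k) : ℝ) * q ^ M * ((M.choose (a i) : ℝ) * w ^ (a i))) := by
          rw [aux_prod2 (1 / (4 * k) * q ^ M) (fun i => (M.choose (a i) : ℝ) * w ^ (a i)), mul_pow]
        have e2 : (k : ℝ) ^ (∑ i, a i) *
          ∏ i, (q ^ M * (((M : ℝ) - a i) / q) * (M.choose (a i) : ℝ) * ((u : ℝ) / q) ^ (a i)) =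
            ∏ i, ((k : ℝ) ^ (a i) * (q ^ M * (((M : ℝ) - a i) / q) * (M.choose (a i) : ℝ) * ((u : ℝ) / q) ^ (a i))) := by
          exact (aux_prod3 (k : ℝ) a (fun i => q ^ M * (((M : ℝ) - a i) / q) * (M.choose (a i) : ℝ) * ((u : ℝ) / q) ^ (a i))).symm
        rw [e1, e2]
        apply Finset.prod_le_prod
        · intro i _
          positivity
        · intro i _
          have h5 : w ^ (a i) = (k : ℝ) ^ (a i) * ((u : ℝ) / q) ^ (a i) := by
            rw [← mul_pow, hw, mul_div_assoc]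
          have h6 : (1 / (4 * k) : ℝ) ≤ ((M : ℝ) - a i) / q := by
            rw [le_div_iff₀ hq, div_mul_eq_mul_div, one_mul, div_le_iff₀ (by positivity)]
            have h7 := hWle _ (ha i)
            have h8 : (M : ℝ) / 2 ≤ M - a i := by linarith
            nlinarith
          have h9 : 0 ≤ q ^ M * (M.choose (a i) : ℝ) * ((k : ℝ) ^ (a i) * ((u : ℝ) / q) ^ (a i)) := by positivity
          calc (1 / (4 * k) : ℝ) * q ^ M * ((M.choose (a i) : ℝ) * w ^ (a i))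
              = (1 / (4 * k) : ℝ) * (q ^ M * (M.choose (a i) : ℝ) * ((k : ℝ) ^ (a i) * ((u : ℝ) / q) ^ (a i))) := by
                rw [h5]; ring
            _ ≤ (((M : ℝ) - a i) / q) * (q ^ M * (M.choose (a i) : ℝ) * ((k : ℝ) ^ (a i) * ((u : ℝ) / q) ^ (a i))) :=
                mul_le_mul_of_nonneg_right h6 h9
            _ = _ := by ring
      have h10 : 0 ≤ (1 / (4 * k) : ℝ) ^ k * (q ^ M) ^ k * ∏ i, ((M.choose (a i) : ℝ) * w ^ (a i)) := by
        have : 0 ≤ ∏ i, ((M.choose (a i) : ℝ) * w ^ (a i)) := Finset.prod_nonneg fun i _ => by positivity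
        positivity
      calc c0 * (3 / 2 : ℝ) ^ (-(((k : ℝ) - 1) / 2)) * (1 / (4 * k)) ^ k * (u : ℝ) ^ (-(((k : ℝ) - 1) / 2)) *
          (q ^ M) ^ k * ∏ i, ((M.choose (a i) : ℝ) * w ^ (a i))
          = c0 * (((3 / 2 : ℝ) ^ (-(((k : ℝ) - 1) / 2)) * (u : ℝ) ^ (-(((k : ℝ) - 1) / 2))) *
            ((1 / (4 * k) : ℝ) ^ k * (q ^ M) ^ k * ∏ i, ((M.choose (a i) : ℝ) * w ^ (a i)))) := by ring
        _ ≤ c0 * (α ^ (-(((k : ℝ) - 1) / 2)) * ((k : ℝ) ^ (∑ i, a i) *
          ∏ i, (q ^ M * (((M : ℝ) - a i) / q) * (M.choose (a i) : ℝ) * ((u : ℝ) / q) ^ (a i)))) := by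
            apply mul_le_mul_of_nonneg_left _ hc0.le
            exact mul_le_mul h3 h4 h10 (by positivity)
        _ = _ := by ring
    refine le_trans ?_ (Finset.sum_le_sum hterm)
    rw [← Finset.mul_sum]
    have hprod : ∑ a ∈ Fintype.piFinset (fun _ : Fin k => Win), ∏ i, ((M.choose (a i) : ℝ) * w ^ (a i)) =
        (∑ a ∈ Win, (M.choose a : ℝ) * w ^ a) ^ k := by
      refine (Finset.prod_univ_sum (fun _ : Fin k => Win) (fun _ a => (M.choose a : ℝ) * w ^ a)).symm.trans ?_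
      rw [Finset.prod_const, Finset.card_univ, Fintype.card_fin]
    rw [hprod]
    have hbw : (3 / 4) * (1 + w) ^ M ≤ ∑ a ∈ Win, (M.choose a : ℝ) * w ^ a := binom_window hw0
    have h11 : ((3 / 4) * (1 + w) ^ M) ^ k ≤ (∑ a ∈ Win, (M.choose a : ℝ) * w ^ a) ^ k :=
      pow_le_pow_left₀ (by positivity) hbw k
    have h12 : (q + k * u) ^ (k * M) = (q ^ M) ^ k * ((1 + w) ^ M) ^ k := by
      rw [← mul_pow, ← mul_pow, ← pow_mul, mul_comm k M, mul_add, mul_one, hqw]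
    calc c0 * (3 / 2 : ℝ) ^ (-(((k : ℝ) - 1) / 2)) * (1 / (4 * k)) ^ k * (3 / 4) ^ k *
          (u : ℝ) ^ (-(((k : ℝ) - 1) / 2)) * (q + k * u) ^ (k * M)
        = c0 * (3 / 2 : ℝ) ^ (-(((k : ℝ) - 1) / 2)) * (1 / (4 * k)) ^ k * (u : ℝ) ^ (-(((k : ℝ) - 1) / 2)) *
          (q ^ M) ^ k * ((3 / 4) * (1 + w) ^ M) ^ k := by
          rw [h12, mul_pow (3 / 4 : ℝ)]; ring
      _ ≤ _ := mul_le_mul_of_nonneg_left h11 (by positivity)
  · intro a _ _
    have : 0 ≤ ∏ i, q ^ (M - 1 - a i) / ((M - 1 - a i).factorial : ℝ) :=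
      Finset.prod_nonneg fun i _ => by positivity
    positivity

end Pool.Agent.Helper256.KM
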