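import Mathlib
import Pool.Agent.Helper256.KM.Defs
import Pool.Agent.Helper256.KM.B1L
import Pool.Agent.Helper256.KM.I1L
import Pool.Agent.Helper256.KM.HP
import Pool.Agent.Helper256.KM.B1
import Pool.Agent.Helper256.KM.Mertens

set_option autoImplicit false

namespace Pool.Agent.Helper256.KM

open Finset ArithmeticFunction

theorem exp_le_one_add {w : ℝ} (hw : 0 ≤ w) : Real.exp (w - w ^ 2 / 2) ≤ 1 + w := by
  have h1 := Real.le_log_one_add_of_nonneg hw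
  have h2 : w - w ^ 2 / 2 ≤ 2 * w / (w + 2) := by
    rw [le_div_iff₀ (by linarith)]
    nlinarith [mul_nonneg hw hw, mul_nonneg (mul_nonneg hw hw) hw]
  calc Real.exp (w - w ^ 2 / 2) ≤ Real.exp (Real.log (1 + w)) := Real.exp_le_exp.2 (h2.trans h1)
    _ = 1 + w := Real.exp_log (by linarith)

theorem AA_eq_RR (N m : ℕ) : AA N m = RR ∅ m (N : ℝ) := by
  unfold AA RR
  rw [Nat.floor_natCast]
  simp

theorem p1_sdiff_ge (A B : Finset ℕ) : p1 A - p1 B ≤ p1 (A \ B) := by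
  have h : p1 A ≤ p1 (A \ B) + p1 B := by
    unfold p1
    rw [← Finset.sum_union Finset.sdiff_disjoint]
    apply Finset.sum_le_sum_of_subset_of_nonneg
    · intro x hx
      rw [Finset.mem_union, Finset.mem_sdiff]
      tauto
    · intros; positivity
  linarith

theorem p1_yy_le {C : ℝ} (hC : ∀ N : ℕ, 3 ≤ N →
    |∑ p ∈ (Finset.Icc 1 N).filter Nat.Prime, (1 : ℝ) / p - Real.log (Real.log N)| ≤ C)
    {u : ℕ} (hu : 1 ≤ u) : p1 (pr ⌊yy u⌋₊) ≤ u + C := by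
  have hu' : (1 : ℝ) ≤ u := by exact_mod_cast hu
  have h0 : (3 : ℝ) ≤ yy u := by
    unfold yy
    have h1 := Real.add_one_le_exp (Real.exp (u : ℝ))
    have h2 := Real.add_one_le_exp (u : ℝ)
    linarith
  have h3 : 3 ≤ ⌊yy u⌋₊ := Nat.le_floor (by exact_mod_cast h0)
  have h4 := (abs_le.1 (hC _ h3)).2
  have h5 : Real.log (Real.log ⌊yy u⌋₊) ≤ u := by
    have h6 : (⌊yy u⌋₊ : ℝ) ≤ yy u := Nat.floor_le (by linarith)
    have h7 : (3 : ℝ) ≤ (⌊yy u⌋₊ : ℝ) := by exact_mod_cast h3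
    have h8 : Real.log ⌊yy u⌋₊ ≤ Real.exp u := by
      calc _ ≤ Real.log (yy u) := Real.log_le_log (by linarith) h6
        _ = Real.exp u := Real.log_exp _
    have h9 : 0 < Real.log ⌊yy u⌋₊ := Real.log_pos (by linarith)
    calc _ ≤ Real.log (Real.exp u) := Real.log_le_log h9 h8
      _ = u := Real.log_exp _
  unfold p1 pr
  linarith

/-- the exponential comparison for one `u` -/
theorem lb4_exp {k M u : ℕ} {C p δ : ℝ} (hk : 3 ≤ k) (hC0 : 0 ≤ C) (hp : 0 < p)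
    (hkM : (k : ℝ) * M = (1 + δ) * p) (hδ : |δ| ≤ 1 / 8) (hu : C ≤ u) :
    Real.exp (((k : ℝ) - 1) * δ * u - (1 + δ) * ((k : ℝ) - 1) ^ 2 * (u : ℝ) ^ 2 / (2 * p)) *
      Real.exp (-2 * C) * p ^ (k * M) ≤
      Real.exp (-((k : ℝ) - 1) * u) * ((p - u - C) + k * u) ^ (k * M) := by
  have hkR : (3 : ℝ) ≤ k := by exact_mod_cast hk
  obtain ⟨hδ1, hδ2⟩ := abs_le.1 hδ
  have hu0 : (0 : ℝ) ≤ u := hC0.trans hu
  set t : ℝ := ((k : ℝ) - 1) * u - C with ht
  have ht0 : 0 ≤ t := by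
    have : (1 : ℝ) * u ≤ ((k : ℝ) - 1) * u := mul_le_mul_of_nonneg_right (by linarith) hu0
    rw [ht]; linarith
  set w : ℝ := t / p with hw
  have hw0 : 0 ≤ w := div_nonneg ht0 hp.le
  have e1 : (p - u - C) + k * u = p * (1 + w) := by
    rw [hw, ht]; field_simp; ring
  have e2 : Real.exp (w - w ^ 2 / 2) ^ (k * M) ≤ (1 + w) ^ (k * M) :=
    pow_le_pow_left₀ (Real.exp_pos _).le (exp_le_one_add hw0) _
  have e3 : Real.exp (w - w ^ 2 / 2) ^ (k * M)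
      = Real.exp ((1 + δ) * p * (w - w ^ 2 / 2)) := by
    rw [← Real.exp_nat_mul]
    congr 1
    push_cast
    rw [hkM]
  have e4 : ((k : ℝ) - 1) * δ * u - (1 + δ) * ((k : ℝ) - 1) ^ 2 * (u : ℝ) ^ 2 / (2 * p) + -2 * C ≤
      -((k : ℝ) - 1) * u + (1 + δ) * p * (w - w ^ 2 / 2) := by
    have f1 : (1 + δ) * p * (w - w ^ 2 / 2) = (1 + δ) * t - (1 + δ) * (t ^ 2 / (2 * p)) := by
      rw [hw]; field_simp
    have f2 : t ^ 2 / (2 * p) ≤ (((k : ℝ) - 1) * u) ^ 2 / (2 * p) := by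
      apply div_le_div_of_nonneg_right _ (by positivity)
      apply pow_le_pow_left₀ ht0
      rw [ht]; linarith
    have f3 : (1 + δ) * ((k : ℝ) - 1) ^ 2 * (u : ℝ) ^ 2 / (2 * p)
        = (1 + δ) * ((((k : ℝ) - 1) * u) ^ 2 / (2 * p)) := by ring
    have f4 : (1 + δ) * (t ^ 2 / (2 * p)) ≤ (1 + δ) * ((((k : ℝ) - 1) * u) ^ 2 / (2 * p)) :=
      mul_le_mul_of_nonneg_left f2 (by linarith)
    rw [f1, f3, ht]
    have f5 : δ * C ≤ 1 / 8 * C := mul_le_mul_of_nonneg_right hδ2 hC0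
    rw [ht] at f4
    nlinarith
  calc Real.exp (((k : ℝ) - 1) * δ * u - (1 + δ) * ((k : ℝ) - 1) ^ 2 * (u : ℝ) ^ 2 / (2 * p)) *
      Real.exp (-2 * C) * p ^ (k * M)
      = Real.exp (((k : ℝ) - 1) * δ * u - (1 + δ) * ((k : ℝ) - 1) ^ 2 * (u : ℝ) ^ 2 / (2 * p)
          + -2 * C) * p ^ (k * M) := by rw [Real.exp_add]
    _ ≤ Real.exp (-((k : ℝ) - 1) * u + (1 + δ) * p * (w - w ^ 2 / 2)) * p ^ (k * M) :=
        mul_le_mul_of_nonneg_right (Real.exp_le_exp.2 e4) (by positivity)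
    _ = Real.exp (-((k : ℝ) - 1) * u) * (p ^ (k * M) * Real.exp (w - w ^ 2 / 2) ^ (k * M)) := by
        rw [Real.exp_add, e3]; ring
    _ ≤ Real.exp (-((k : ℝ) - 1) * u) * (p ^ (k * M) * (1 + w) ^ (k * M)) := by
        gcongr
    _ = _ := by rw [e1, mul_pow]

theorem lb4 {k : ℕ} (hk : 3 ≤ k) : ∃ (c η : ℝ) (u₀ N₀ : ℕ), 0 < c ∧ 0 < η ∧ ∀ N : ℕ, N₀ ≤ N →
    ∀ (m : ℕ) (p δ : ℝ), p = p1 (pr N) → δ = k * ((m : ℝ) - 1) / p - 1 → |δ| ≤ η → ∀ U : Finset ℕ,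
    (∀ u ∈ U, u₀ ≤ u ∧ (u : ℝ) ≤ η * p) →
    c * (∑ u ∈ U, (u : ℝ) ^ (-(((k : ℝ) - 1) / 2)) *
      Real.exp (((k : ℝ) - 1) * δ * u - (1 + δ) * ((k : ℝ) - 1) ^ 2 * (u : ℝ) ^ 2 / (2 * p))) *
      ((AA N m).card : ℝ) ^ k ≤ (TT k (AA N m) : ℝ) := by
  obtain ⟨c₁, η₁, u₁, N₁, hc₁, hη₁, H1⟩ := lb1 (k := k) (by omega)
  obtain ⟨c₂, u₂, hc₂, H2⟩ := inner_lower (k := k) (by omega)
  obtain ⟨C₃, hC₃, H3⟩ := upper_count (ε := 1 / 2) (by norm_num) (by norm_num)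
  obtain ⟨C, HC⟩ := mertens_inv
  have hC0 : 0 ≤ C := (abs_nonneg _).trans (HC 3 le_rfl)
  have hkR : (3 : ℝ) ≤ k := by exact_mod_cast hk
  have hkpos : (0 : ℝ) < k := by linarith
  have hη : 0 < min (min (1 / 8 : ℝ) (η₁ / 2)) (1 / (16 * (k : ℝ))) :=
    lt_min (lt_min (by norm_num) (by linarith)) (by positivity)
  refine ⟨c₁ * c₂ * Real.exp (-2 * C) / (C₃ * Real.exp 1) ^ k,
    min (min (1 / 8) (η₁ / 2)) (1 / (16 * (k : ℝ))), max (max u₁ u₂) (⌈C⌉₊ + 1),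
    max N₁ (max 3 ⌈Real.exp (Real.exp (17 * C + 8))⌉₊), by positivity, hη, ?_⟩
  intro N hN m p δ hp hδ hδη U hU
  have hη1 : min (min (1 / 8 : ℝ) (η₁ / 2)) (1 / (16 * (k : ℝ))) ≤ 1 / 8 :=
    (min_le_left _ _).trans (min_le_left _ _)
  have hη2 : min (min (1 / 8 : ℝ) (η₁ / 2)) (1 / (16 * (k : ℝ))) ≤ η₁ / 2 :=
    (min_le_left _ _).trans (min_le_right _ _)
  have hη3 : min (min (1 / 8 : ℝ) (η₁ / 2)) (1 / (16 * (k : ℝ))) ≤ 1 / (16 * (k : ℝ)) :=
    min_le_right _ _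
  set η : ℝ := min (min (1 / 8 : ℝ) (η₁ / 2)) (1 / (16 * (k : ℝ))) with hηdef
  have hN1 : N₁ ≤ N := (le_max_left _ _).trans hN
  have hN3 : 3 ≤ N := (le_max_left _ _).trans ((le_max_right _ _).trans hN)
  have hNe : Real.exp (Real.exp (17 * C + 8)) ≤ N := by
    have : ⌈Real.exp (Real.exp (17 * C + 8))⌉₊ ≤ N :=
      (le_max_right _ _).trans ((le_max_right _ _).trans hN)
    exact (Nat.le_ceil _).trans (by exact_mod_cast this)
  have hNR : (3 : ℝ) ≤ N := by exact_mod_cast hN3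
  have hlogN : Real.exp (17 * C + 8) ≤ Real.log N := by
    rw [Real.le_log_iff_exp_le (by linarith)]; exact hNe
  have hlogN0 : 0 < Real.log N := (Real.exp_pos _).trans_le hlogN
  have hL : 17 * C + 8 ≤ Real.log (Real.log N) := by
    rw [Real.le_log_iff_exp_le hlogN0]; exact hlogN
  have hpL : |p - Real.log (Real.log N)| ≤ C := by
    rw [hp]; exact HC N hN3
  obtain ⟨hpL1, hpL2⟩ := abs_le.1 hpL
  set L : ℝ := Real.log (Real.log N) with hLdef
  have hp8 : 16 * C + 8 ≤ p := by linarith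
  have hp0 : 0 < p := by linarith
  have hδ8 : |δ| ≤ 1 / 8 := hδη.trans hη1
  obtain ⟨hδ1, hδ2⟩ := abs_le.1 hδ8
  have hkM0 : (k : ℝ) * ((m : ℝ) - 1) = (1 + δ) * p := by
    rw [hδ]; field_simp; ring
  have hm : 2 ≤ m := by
    by_contra hcon
    have hm1 : (m : ℝ) ≤ 1 := by exact_mod_cast (by omega : m ≤ 1)
    have h1 : (k : ℝ) * ((m : ℝ) - 1) ≤ 0 :=
      mul_nonpos_of_nonneg_of_nonpos hkpos.le (by linarith)
    have h2 : 0 < (1 + δ) * p := mul_pos (by linarith) hp0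
    linarith
  obtain ⟨M, rfl⟩ : ∃ M, m = M + 1 := ⟨m - 1, by omega⟩
  have hkM : (k : ℝ) * M = (1 + δ) * p := by
    rw [← hkM0]; push_cast; ring
  have hM38 : (M : ℝ) ≤ 3 / 8 * p := by
    have h1 : (3 : ℝ) * M ≤ k * M := mul_le_mul_of_nonneg_right hkR (Nat.cast_nonneg _)
    have h2 : (1 + δ) * p ≤ 9 / 8 * p := mul_le_mul_of_nonneg_right (by linarith) hp0.le
    linarith
  have h2m : 2 * ((M + 1 : ℕ) : ℝ) ≤ L := by
    push_cast
    linarith
  have hU1 : ∀ u ∈ U, u₁ ≤ u ∧ (u : ℝ) ≤ η₁ * L := by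
    intro u hu
    obtain ⟨h1, h2⟩ := hU u hu
    refine ⟨(le_max_left _ _).trans ((le_max_left _ _).trans h1), h2.trans ?_⟩
    calc η * p ≤ (η₁ / 2) * p := mul_le_mul_of_nonneg_right hη2 hp0.le
      _ ≤ (η₁ / 2) * (2 * L) := mul_le_mul_of_nonneg_left (by linarith) (by linarith)
      _ = η₁ * L := by ring
  have T1 := H1 N hN1 (M + 1) h2m U hU1
  have e1 : M + 1 - 1 = M := rfl
  have e2 : M + 1 - 2 = M - 1 := rfl
  rw [e1, e2] at T1
  have hMf : (0 : ℝ) < (M.factorial : ℝ) := by exact_mod_cast M.factorial_pos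
  -- the bound for one `u`
  have key : ∀ u ∈ U,
      (c₂ / (M.factorial : ℝ) ^ k * Real.exp (-2 * C) * p ^ (k * M)) *
        ((u : ℝ) ^ (-(((k : ℝ) - 1) / 2)) *
          Real.exp (((k : ℝ) - 1) * δ * u - (1 + δ) * ((k : ℝ) - 1) ^ 2 * (u : ℝ) ^ 2 / (2 * p))) ≤
      Real.exp (-((k : ℝ) - 1) * u) *
      ∑ a ∈ (Fintype.piFinset (fun _ : Fin k => Finset.range M)).filter
        (fun a => ((∑ i, a i : ℕ) : ℝ) ≤ 2 * k * u),
        (∏ i, hh (pr N \ pr ⌊yy u⌋₊) (M - 1 - a i)) *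
          (Nat.multinomial Finset.univ a : ℝ) ^ 2 *
          ((u : ℝ) ^ (∑ i, a i) / ((∑ i, a i).factorial : ℝ)) := by
    intro u hu
    obtain ⟨hu0, huη⟩ := hU u hu
    have hu2 : u₂ ≤ u := (le_max_right _ _).trans ((le_max_left _ _).trans hu0)
    have huC' : ⌈C⌉₊ + 1 ≤ u := (le_max_right _ _).trans hu0
    have hu1 : 1 ≤ u := by omega
    have huC : C ≤ u := (Nat.le_ceil C).trans (by exact_mod_cast (by omega : ⌈C⌉₊ ≤ u))
    have hu16 : (16 * (k : ℝ)) * u ≤ p := by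
      have h1 : (u : ℝ) ≤ 1 / (16 * (k : ℝ)) * p :=
        huη.trans (mul_le_mul_of_nonneg_right hη3 hp0.le)
      have h2 : (16 * (k : ℝ)) * u ≤ (16 * (k : ℝ)) * (1 / (16 * (k : ℝ)) * p) :=
        mul_le_mul_of_nonneg_left h1 (by positivity)
      have h3 : (16 * (k : ℝ)) * (1 / (16 * (k : ℝ)) * p) = p := by field_simp
      linarith
    have hu48 : 48 * (u : ℝ) ≤ p := by
      have h1 : (16 * (3 : ℝ)) * u ≤ (16 * (k : ℝ)) * u :=
        mul_le_mul_of_nonneg_right (by linarith) (Nat.cast_nonneg _)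
      linarith
    set q : ℝ := p - u - C with hq
    have hq0 : 0 < q := by rw [hq]; linarith
    have hq1 : q / 2 ≤ k * M := by
      rw [hkM, hq]
      have : 7 / 8 * p ≤ (1 + δ) * p := mul_le_mul_of_nonneg_right (by linarith) hp0.le
      have h0 : (0 : ℝ) ≤ u := Nat.cast_nonneg _
      linarith
    have hq2 : (k : ℝ) * M ≤ 3 / 2 * q := by
      rw [hkM, hq]
      have : (1 + δ) * p ≤ 9 / 8 * p := mul_le_mul_of_nonneg_right (by linarith) hp0.le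
      linarith
    have hq3 : 8 * (k : ℝ) * u ≤ q := by
      rw [hq]
      have : 8 * (k : ℝ) * u = (16 * (k : ℝ)) * u / 2 := by ring
      rw [this]
      linarith
    have A := H2 M u q hu2 hq0 hq1 hq2 hq3
    have hqp : q ≤ p1 (pr N \ pr ⌊yy u⌋₊) := by
      have h1 := p1_sdiff_ge (pr N) (pr ⌊yy u⌋₊)
      have h2 := p1_yy_le HC hu1
      rw [hq]; linarith
    have hQ : ∀ x ∈ pr N \ pr ⌊yy u⌋₊, x.Prime := by
      intro x hx
      have := (Finset.mem_sdiff.1 hx).1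
      exact (Finset.mem_filter.1 this).2
    have B : (1 / (M.factorial : ℝ) ^ k) *
        ∑ a ∈ (Fintype.piFinset (fun _ : Fin k => Finset.range M)).filter
          (fun a => ((∑ i, a i : ℕ) : ℝ) ≤ 2 * k * u),
          (∏ i, q ^ (M - 1 - a i) / ((M - 1 - a i).factorial : ℝ)) * (M.factorial : ℝ) ^ k *
            (Nat.multinomial Finset.univ a : ℝ) ^ 2 *
            ((u : ℝ) ^ (∑ i, a i) / ((∑ i, a i).factorial : ℝ)) ≤
        ∑ a ∈ (Fintype.piFinset (fun _ : Fin k => Finset.range M)).filter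
        (fun a => ((∑ i, a i : ℕ) : ℝ) ≤ 2 * k * u),
        (∏ i, hh (pr N \ pr ⌊yy u⌋₊) (M - 1 - a i)) *
          (Nat.multinomial Finset.univ a : ℝ) ^ 2 *
          ((u : ℝ) ^ (∑ i, a i) / ((∑ i, a i).factorial : ℝ)) := by
      rw [Finset.mul_sum]
      apply Finset.sum_le_sum
      intro a _
      have h1 : ∏ i, q ^ (M - 1 - a i) / ((M - 1 - a i).factorial : ℝ) ≤
          ∏ i, hh (pr N \ pr ⌊yy u⌋₊) (M - 1 - a i) := by
        apply Finset.prod_le_prod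
        · intro i _; positivity
        · intro i _
          refine le_trans ?_ (hh_ge hQ _)
          apply div_le_div_of_nonneg_right _ (by positivity)
          exact pow_le_pow_left₀ hq0.le hqp _
      have h2 : (1 / (M.factorial : ℝ) ^ k) *
          ((∏ i, q ^ (M - 1 - a i) / ((M - 1 - a i).factorial : ℝ)) * (M.factorial : ℝ) ^ k *
            (Nat.multinomial Finset.univ a : ℝ) ^ 2 *
            ((u : ℝ) ^ (∑ i, a i) / ((∑ i, a i).factorial : ℝ)))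
          = (∏ i, q ^ (M - 1 - a i) / ((M - 1 - a i).factorial : ℝ)) *
            (Nat.multinomial Finset.univ a : ℝ) ^ 2 *
            ((u : ℝ) ^ (∑ i, a i) / ((∑ i, a i).factorial : ℝ)) := by
        have hne : (M.factorial : ℝ) ^ k ≠ 0 := by positivity
        generalize (∏ i, q ^ (M - 1 - a i) / ((M - 1 - a i).factorial : ℝ)) = X
        generalize ((u : ℝ) ^ (∑ i, a i) / ((∑ i, a i).factorial : ℝ)) = Y
        field_simp
      rw [h2]
      gcongr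
    have D := lb4_exp (u := u) hk hC0 hp0 hkM hδ8 huC
    rw [← hq] at D
    have hrp : (0 : ℝ) ≤ (u : ℝ) ^ (-(((k : ℝ) - 1) / 2)) :=
      Real.rpow_nonneg (Nat.cast_nonneg _) _
    generalize hX : (u : ℝ) ^ (-(((k : ℝ) - 1) / 2)) = X at *
    generalize hE : Real.exp (((k : ℝ) - 1) * δ * u -
      (1 + δ) * ((k : ℝ) - 1) ^ 2 * (u : ℝ) ^ 2 / (2 * p)) = E at *
    calc (c₂ / (M.factorial : ℝ) ^ k * Real.exp (-2 * C) * p ^ (k * M)) * (X * E)
        = (c₂ / (M.factorial : ℝ) ^ k * X) * (E * Real.exp (-2 * C) * p ^ (k * M)) := by ring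
      _ ≤ (c₂ / (M.factorial : ℝ) ^ k * X) *
          (Real.exp (-((k : ℝ) - 1) * u) * (q + k * u) ^ (k * M)) := by
          apply mul_le_mul_of_nonneg_left D
          positivity
      _ = Real.exp (-((k : ℝ) - 1) * u) * ((1 / (M.factorial : ℝ) ^ k) *
          (c₂ * X * (q + k * u) ^ (k * M))) := by ring
      _ ≤ _ := by
          apply mul_le_mul_of_nonneg_left _ (Real.exp_pos _).le
          refine le_trans ?_ B
          apply mul_le_mul_of_nonneg_left A (by positivity)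
  -- the number of elements of `AA N m`
  have hNl : 0 < (N : ℝ) / Real.log N := by positivity
  have hcard : ((AA N (M + 1)).card : ℝ) ≤
      C₃ * ((N : ℝ) / Real.log N) * (Real.exp 1 * (p ^ M / (M.factorial : ℝ))) := by
    have hpr : ∀ x ∈ pr N, x.Prime := fun x hx => (Finset.mem_filter.1 hx).2
    have h1 := H3 ∅ N M (N : ℝ) (1 / 2) (by omega)
      (by
        rw [Real.sqrt_le_left (by linarith)]
        nlinarith) le_rfl (by norm_num) (by norm_num)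
      (by rw [Finset.sdiff_empty, ← hp]; linarith)
    rw [← AA_eq_RR, Finset.sdiff_empty] at h1
    have h2 := hh_le hpr (r := M) (by rw [← hp]; linarith)
    rw [← hp] at h2
    refine h1.trans ?_
    apply mul_le_mul_of_nonneg_left h2 (by positivity)
  have hcard' : ((AA N (M + 1)).card : ℝ) ^ k ≤
      (C₃ * ((N : ℝ) / Real.log N) * (Real.exp 1 * (p ^ M / (M.factorial : ℝ)))) ^ k :=
    pow_le_pow_left₀ (Nat.cast_nonneg _) hcard _
  have T2 : c₁ * ((N : ℝ) / Real.log N) ^ k *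
      ((c₂ / (M.factorial : ℝ) ^ k * Real.exp (-2 * C) * p ^ (k * M)) *
      (∑ u ∈ U, (u : ℝ) ^ (-(((k : ℝ) - 1) / 2)) *
      Real.exp (((k : ℝ) - 1) * δ * u - (1 + δ) * ((k : ℝ) - 1) ^ 2 * (u : ℝ) ^ 2 / (2 * p))))
      ≤ (TT k (AA N (M + 1)) : ℝ) := by
    refine le_trans ?_ T1
    apply mul_le_mul_of_nonneg_left _ (by positivity)
    rw [Finset.mul_sum]
    exact Finset.sum_le_sum key
  have hS : 0 ≤ ∑ u ∈ U, (u : ℝ) ^ (-(((k : ℝ) - 1) / 2)) *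
      Real.exp (((k : ℝ) - 1) * δ * u -
        (1 + δ) * ((k : ℝ) - 1) ^ 2 * (u : ℝ) ^ 2 / (2 * p)) := by
    apply Finset.sum_nonneg
    intro u _
    exact mul_nonneg (Real.rpow_nonneg (Nat.cast_nonneg _) _) (Real.exp_pos _).le
  refine le_trans ?_ T2
  generalize (∑ u ∈ U, (u : ℝ) ^ (-(((k : ℝ) - 1) / 2)) *
      Real.exp (((k : ℝ) - 1) * δ * u -
        (1 + δ) * ((k : ℝ) - 1) ^ 2 * (u : ℝ) ^ 2 / (2 * p))) = S at hS ⊢
  refine (mul_le_mul_of_nonneg_left hcard' (by positivity)).trans (le_of_eq ?_)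
  have hE1 : (0 : ℝ) < Real.exp 1 := Real.exp_pos _
  generalize Real.exp 1 = E1 at hE1 ⊢
  generalize Real.exp (-2 * C) = E2
  generalize (N : ℝ) / Real.log N = NL at hNl ⊢
  have hpw : (C₃ * NL * (E1 * (p ^ M / (M.factorial : ℝ)))) ^ k
      = (C₃ * E1) ^ k * NL ^ k * (p ^ (k * M) / (M.factorial : ℝ) ^ k) := by
    rw [mul_comm k M, pow_mul, ← div_pow, ← mul_pow, ← mul_pow]
    congr 1
    ring
  rw [hpw]
  have hne : (C₃ * E1) ^ k ≠ 0 := by positivity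
  generalize (C₃ * E1) ^ k = Z at hne ⊢
  have hne2 : (M.factorial : ℝ) ^ k ≠ 0 := by positivity
  generalize (M.factorial : ℝ) ^ k = Z2 at hne2 ⊢
  field_simp

end Pool.Agent.Helper256.KM
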