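import Mathlib
import Pool.Agent.Helper256.KM.Defs
import Pool.Agent.Helper256.KM.L4L
import Pool.Agent.Helper256.KM.Mertens

set_option autoImplicit false

namespace Pool.Agent.Helper256.KM

open Finset ArithmeticFunction

set_option maxHeartbeats 4000000

theorem lbig_quad (k p δ u us v : ℝ) (hp : 0 < p) (hk : 0 < k - 1) (hδ : 0 < 1 + δ)
    (hus : us = δ * p / ((k - 1) * (1 + δ))) (hu : u = us + v) :
    (k - 1) * δ * u - (1 + δ) * (k - 1) ^ 2 * u ^ 2 / (2 * p)
      = δ ^ 2 * p / (2 * (1 + δ)) - (1 + δ) * (k - 1) ^ 2 * v ^ 2 / (2 * p) := by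
  subst hu; subst hus
  field_simp
  ring

/-- the main exponent estimate -/
theorem lbig_W (k : ℝ) (hk : 4 ≤ k) (Lam : ℝ) :
    ∃ K : ℝ, k + 2 ≤ K ∧ ∃ P₀ : ℝ, ∀ p L z δ : ℝ, P₀ ≤ p → Real.exp (Real.exp 1) ≤ L →
      p ≤ Real.exp 1 * L → 0 ≤ δ → δ ≤ 1 → δ = Real.sqrt z / Real.sqrt p →
      (k - 3) / 2 * Real.log L + (k - 1) / 2 * Real.log (Real.log L) + K - 1 ≤ z →
      Lam ≤ z / (2 * (1 + δ)) - (k - 3) / 4 * Real.log p
        - (k - 1) / 2 * Real.log (1 + Real.sqrt z) - (k - 1) ^ 2 := by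
  -- choose K
  have hlog2 : Real.log 2 ≤ 1 := by
    have := Real.log_two_lt_d9; linarith
  have hlog20 : 0 ≤ Real.log 2 := Real.log_nonneg (by norm_num)
  obtain ⟨K, hK1, hK2⟩ : ∃ K : ℝ, k + 2 ≤ K ∧
      Lam ≤ K / 2 - (k - 1) / 4 * Real.log (k - 2 + K)
        - ((k - 3) / 4 + 1 + (k - 1) / 2 + (k - 1) ^ 2) := by
    have ht := Real.isLittleO_log_id_atTop
    have h1 := (ht.def (c := 1 / (2 * k)) (by positivity))
    rw [Filter.eventually_atTop] at h1
    obtain ⟨X, hX⟩ := h1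
    set A := ((k - 3) / 4 + 1 + (k - 1) / 2 + (k - 1) ^ 2) with hA
    refine ⟨max (k + 2) (max X (8 * (|Lam| + |A| + k))), le_max_left _ _, ?_⟩
    set K := max (k + 2) (max X (8 * (|Lam| + |A| + k))) with hKd
    have hKk : k + 2 ≤ K := le_max_left _ _
    have hKX : X ≤ K := (le_max_left _ _).trans (le_max_right _ _)
    have hKA : 8 * (|Lam| + |A| + k) ≤ K := (le_max_right _ _).trans (le_max_right _ _)
    have h2 := hX (k - 2 + K) (by linarith)
    rw [Real.norm_eq_abs, id, Real.norm_eq_abs, abs_of_nonneg (by linarith : (0:ℝ) ≤ k - 2 + K)] at h2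
    have h3 := (le_abs_self _).trans h2
    have h4 : (k - 1) / 4 * Real.log (k - 2 + K) ≤ (k - 2 + K) / 8 := by
      calc (k - 1) / 4 * Real.log (k - 2 + K) ≤ (k - 1) / 4 * (1 / (2 * k) * (k - 2 + K)) := by
            apply mul_le_mul_of_nonneg_left h3; linarith
        _ = ((k - 1) / k) * ((k - 2 + K) / 8) := by field_simp; ring
        _ ≤ 1 * ((k - 2 + K) / 8) := by
            apply mul_le_mul_of_nonneg_right
            · rw [div_le_one (by linarith)]; linarith
            · linarith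
        _ = _ := one_mul _
    have h5 := le_abs_self Lam
    have h6 := le_abs_self A
    have h7 := abs_nonneg Lam
    have h8 := abs_nonneg A
    linarith
  refine ⟨K, hK1, ?_⟩
  -- constants of case 2
  set A := (k - 3) / 4 + (k - 1) / 2 with hA
  set B := (k - 1) / 2 + (k - 1) ^ 2 with hB
  set r₀ := max (4 * (A + 1)) (B + Lam) with hr₀
  have e1 : ∀ᶠ p : ℝ in Filter.atTop, r₀ ≤ Real.log p :=
    Real.tendsto_log_atTop.eventually_ge_atTop r₀
  have e2 : ∀ᶠ p : ℝ in Filter.atTop, ‖Real.log p ^ 6‖ ≤ 1 * ‖id p‖ :=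
    (Real.isLittleO_pow_log_id_atTop (n := 6)).def one_pos
  obtain ⟨P₀, hP₀⟩ := Filter.eventually_atTop.1 (e1.and (e2.and (Filter.eventually_ge_atTop (1 : ℝ))))
  refine ⟨P₀, ?_⟩
  intro p L z δ hp hL hpL hδ0 hδ1 hδz hz
  obtain ⟨g1, g2, g3⟩ := hP₀ p hp
  have hp0 : 0 < p := by linarith
  have hL0 : 0 < L := lt_of_lt_of_le (Real.exp_pos _) hL
  have hlL : Real.exp 1 ≤ Real.log L := by
    rw [Real.le_log_iff_exp_le hL0]; exact hL
  have he1 : (1 : ℝ) ≤ Real.exp 1 := Real.one_le_exp (by norm_num)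
  have hlL1 : 1 ≤ Real.log L := by linarith
  have hllL : 1 ≤ Real.log (Real.log L) := by
    rw [Real.le_log_iff_exp_le (by linarith)]; exact hlL
  have hllL2 : Real.log (Real.log L) ≤ Real.log L := by
    have := Real.log_le_sub_one_of_pos (by linarith : 0 < Real.log L)
    linarith
  set y := (k - 3) / 2 * Real.log L + (k - 1) / 2 * Real.log (Real.log L) + K - 1 with hy
  have hΦ0 : 0 ≤ (k - 3) / 2 * Real.log L + (k - 1) / 2 * Real.log (Real.log L) := by
    have : 0 ≤ (k - 3) / 2 := by linarith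
    have : 0 ≤ (k - 1) / 2 := by linarith
    positivity
  have hyk : k + 1 ≤ y := by rw [hy]; linarith
  have hz1 : 1 ≤ z := by linarith
  have hz0 : 0 < z := by linarith
  have hsz1 : 1 ≤ Real.sqrt z := by
    rw [Real.one_le_sqrt]; exact hz1
  have hsz0 : 0 < Real.sqrt z := by linarith
  have hszz : Real.sqrt z * Real.sqrt z = z := Real.mul_self_sqrt hz0.le
  have hlog1 : Real.log (1 + Real.sqrt z) ≤ Real.log 2 + 1 / 2 * Real.log z := by
    have h1 : Real.log (1 + Real.sqrt z) ≤ Real.log (2 * Real.sqrt z) :=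
      Real.log_le_log (by linarith) (by linarith)
    rw [Real.log_mul (by norm_num) hsz0.ne', Real.log_sqrt hz0.le] at h1
    linarith
  have hlogp : Real.log p ≤ Real.log L + 1 := by
    have := Real.log_le_log hp0 hpL
    rw [Real.log_mul (Real.exp_pos _).ne' hL0.ne', Real.log_exp] at this
    linarith
  have hterm : (k - 1) / 2 * Real.log (1 + Real.sqrt z)
      ≤ (k - 1) / 2 + (k - 1) / 4 * Real.log z := by
    have : (k - 1) / 2 * Real.log (1 + Real.sqrt z)
        ≤ (k - 1) / 2 * (Real.log 2 + 1 / 2 * Real.log z) := by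
      apply mul_le_mul_of_nonneg_left hlog1; linarith
    have h2 : (k - 1) / 2 * Real.log 2 ≤ (k - 1) / 2 * 1 := by
      apply mul_le_mul_of_nonneg_left hlog2; linarith
    linarith
  have hlogp0 : 0 ≤ Real.log p := Real.log_nonneg g3
  have hsp0 : 0 < Real.sqrt p := Real.sqrt_pos.2 hp0
  by_cases hc : z ≤ Real.log p ^ 2
  · -- case 1
    have hszl : Real.sqrt z ≤ Real.log p := by
      rw [Real.sqrt_le_left hlogp0]; exact hc
    have hzd : z * δ ≤ 1 := by
      have h1 : Real.log p ^ 3 ≤ Real.sqrt p := by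
        apply Real.le_sqrt_of_sq_le
        have : ‖Real.log p ^ 6‖ = Real.log p ^ 6 := by
          rw [Real.norm_eq_abs, abs_of_nonneg (by positivity)]
        rw [this, id, Real.norm_eq_abs, abs_of_pos hp0, one_mul] at g2
        calc (Real.log p ^ 3) ^ 2 = Real.log p ^ 6 := by ring
          _ ≤ p := g2
      rw [hδz]
      calc z * (Real.sqrt z / Real.sqrt p) = (z * Real.sqrt z) / Real.sqrt p := by ring
        _ ≤ (Real.log p ^ 2 * Real.log p) / Real.sqrt p := by gcongr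
        _ = Real.log p ^ 3 / Real.sqrt p := by ring
        _ ≤ 1 := by rw [div_le_one hsp0]; exact h1
    have h1 : z / 2 - 1 / 2 ≤ z / (2 * (1 + δ)) := by
      rw [le_div_iff₀ (by linarith)]
      nlinarith
    have h2 : (k - 1) / 4 * (Real.log z - Real.log y) ≤ (z - y) / 2 := by
      have hy0 : 0 < y := by linarith
      have h3 : Real.log z - Real.log y ≤ (z - y) / y := by
        rw [← Real.log_div hz0.ne' hy0.ne']
        have := Real.log_le_sub_one_of_pos (div_pos hz0 hy0)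
        have e : z / y - 1 = (z - y) / y := by field_simp
        linarith
      calc (k - 1) / 4 * (Real.log z - Real.log y) ≤ (k - 1) / 4 * ((z - y) / y) := by
            apply mul_le_mul_of_nonneg_left h3; linarith
        _ = (k - 1) / (2 * y) * ((z - y) / 2) := by field_simp; ring
        _ ≤ 1 * ((z - y) / 2) := by
            apply mul_le_mul_of_nonneg_right
            · rw [div_le_one (by linarith)]; linarith
            · linarith
        _ = _ := one_mul _
    have h4 : Real.log y ≤ Real.log (k - 2 + K) + Real.log (Real.log L) := by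
      rw [← Real.log_mul (by linarith) (by linarith)]
      apply Real.log_le_log (by linarith)
      rw [hy]
      have i1 : (k - 1) / 2 * Real.log (Real.log L) ≤ (k - 1) / 2 * Real.log L := by
        apply mul_le_mul_of_nonneg_left hllL2; linarith
      have i2 : K * 1 ≤ K * Real.log L := mul_le_mul_of_nonneg_left hlL1 (by linarith)
      have i3 : (k - 2 + K) * Real.log L = (k - 3) / 2 * Real.log L + (k - 1) / 2 * Real.log L
        + K * Real.log L := by ring
      linarith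
    have h5 : (k - 1) / 4 * Real.log y
        ≤ (k - 1) / 4 * Real.log (k - 2 + K) + (k - 1) / 4 * Real.log (Real.log L) := by
      rw [← mul_add]
      apply mul_le_mul_of_nonneg_left h4; linarith
    have h6 : (k - 3) / 4 * Real.log p ≤ (k - 3) / 4 * (Real.log L + 1) := by
      apply mul_le_mul_of_nonneg_left hlogp; linarith
    have h7 : y / 2 = (k - 3) / 4 * Real.log L + (k - 1) / 4 * Real.log (Real.log L)
        + (K - 1) / 2 := by rw [hy]; ring
    linarith
  · -- case 2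
    push Not at hc
    have hszl : Real.log p ≤ Real.sqrt z := by
      apply Real.le_sqrt_of_sq_le; exact hc.le
    have h1 : z / 4 ≤ z / (2 * (1 + δ)) := by
      apply div_le_div_of_nonneg_left hz0.le (by linarith) (by linarith)
    have h2 : Real.log z ≤ 2 * Real.sqrt z := by
      have := Real.log_le_sub_one_of_pos hsz0
      rw [Real.log_sqrt hz0.le] at this
      linarith
    have h3 : (k - 3) / 4 * Real.log p ≤ (k - 3) / 4 * Real.sqrt z := by
      apply mul_le_mul_of_nonneg_left hszl; linarith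
    have h4 : (k - 1) / 4 * Real.log z ≤ (k - 1) / 4 * (2 * Real.sqrt z) := by
      apply mul_le_mul_of_nonneg_left h2; linarith
    have hr1 : 4 * (A + 1) ≤ Real.sqrt z := (le_max_left _ _).trans (g1.trans hszl)
    have hr2 : B + Lam ≤ Real.sqrt z := (le_max_right _ _).trans (g1.trans hszl)
    have h5 : Real.sqrt z ≤ z / 4 - A * Real.sqrt z := by
      have : Real.sqrt z * (4 * (A + 1)) ≤ Real.sqrt z * Real.sqrt z := by
        apply mul_le_mul_of_nonneg_left hr1 hsz0.le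
      rw [hszz] at this
      linarith
    have h6 : A * Real.sqrt z = (k - 3) / 4 * Real.sqrt z + (k - 1) / 4 * (2 * Real.sqrt z) := by
      rw [hA]; ring
    linarith

theorem lower_big {k : ℕ} (hk : 4 ≤ k) : ∃ ε₀ : ℝ, 0 < ε₀ ∧ ∀ R : ℝ, ∃ (K : ℝ) (N₀ : ℕ), 0 ≤ K ∧
    ∀ N : ℕ, N₀ ≤ N → ∀ (m : ℕ) (L : ℝ), L = Real.log (Real.log N) →
    L + Real.sqrt (L * (((k : ℝ) - 3) / 2 * Real.log L + ((k : ℝ) - 1) / 2 * Real.log (Real.log L) + K))
      ≤ k * m → (k : ℝ) * m ≤ (1 + ε₀) * L →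
    R * ((AA N m).card : ℝ) ^ k ≤ (TT k (AA N m) : ℝ) := by
  obtain ⟨c, η, u₀, N₁, hc, hη, hlb⟩ := lb4 (k := k) (by omega)
  obtain ⟨C', hC'⟩ := mertens_inv
  set C := max C' 0 with hCdef
  have hC0 : 0 ≤ C := le_max_right _ _
  have hkR : (4 : ℝ) ≤ k := by exact_mod_cast hk
  set ε₀ := min η 1 / 8 with hε₀
  have hε₀pos : 0 < ε₀ := by
    have : 0 < min η 1 := lt_min hη one_pos
    rw [hε₀]; positivity
  have hε₀η : 8 * ε₀ ≤ η := by
    have := min_le_left η 1
    rw [hε₀]; linarith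
  have hε₀1 : 8 * ε₀ ≤ 1 := by
    have := min_le_right η 1
    rw [hε₀]; linarith
  refine ⟨ε₀, hε₀pos, ?_⟩
  intro R
  set R' := max R 1 with hR'
  have hR'pos : 0 < R' := lt_of_lt_of_le one_pos (le_max_right _ _)
  obtain ⟨K, hK, P₀, hW⟩ := lbig_W (k : ℝ) hkR (Real.log (2 * R' / c))
  have hK0 : 0 ≤ K := by linarith
  -- eventual conditions
  set a := (k : ℝ) - 2 + K with ha
  have ha0 : 0 < a := by linarith
  set D := (k : ℝ) + C with hD
  have hD0 : 0 < D := by linarith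
  set ε := min (1 / (2 * C * a + 1) / 2) (1 / (16 * D ^ 2 * a)) with hε
  have hεpos : 0 < ε := by
    rw [hε]; apply lt_min <;> positivity
  have hε1 : C * a * ε ≤ 1 / 2 := by
    have h1 : ε ≤ 1 / (2 * C * a + 1) / 2 := min_le_left _ _
    calc C * a * ε ≤ C * a * (1 / (2 * C * a + 1) / 2) := by gcongr
      _ ≤ 1 / 2 := by
        have : C * a * (1 / (2 * C * a + 1) / 2) = (C * a / (2 * C * a + 1)) / 2 := by ring
        rw [this]
        have h0 : 0 ≤ C * a := by positivity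
        have : C * a / (2 * C * a + 1) ≤ 1 := by
          rw [div_le_one (by positivity)]; linarith
        linarith
  have hε2 : 16 * D ^ 2 * a * ε ≤ 1 := by
    have h1 : ε ≤ 1 / (16 * D ^ 2 * a) := min_le_right _ _
    calc 16 * D ^ 2 * a * ε ≤ 16 * D ^ 2 * a * (1 / (16 * D ^ 2 * a)) := by gcongr
      _ = 1 := by field_simp
  have ev1 : ∀ᶠ L : ℝ in Filter.atTop, ‖Real.log L‖ ≤ ε * ‖id L‖ :=
    Real.isLittleO_log_id_atTop.def hεpos
  obtain ⟨L₀, hL₀⟩ := Filter.eventually_atTop.1 (ev1.and (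
    (Filter.eventually_ge_atTop (Real.exp (Real.exp 1))).and (
    (Filter.eventually_ge_atTop (P₀ + C)).and (
    (Filter.eventually_ge_atTop (C + 4 + (2 / η) ^ 2)).and (
    (Filter.eventually_ge_atTop ((D + 2 * k * u₀) ^ 2 + 1)).and
    (Filter.eventually_ge_atTop (4 * C + 4 * C / ε₀)))))))
  have htt : Filter.Tendsto (fun N : ℕ => Real.log (Real.log (N : ℝ))) Filter.atTop Filter.atTop :=
    Real.tendsto_log_atTop.comp (Real.tendsto_log_atTop.comp tendsto_natCast_atTop_atTop)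
  obtain ⟨N₂, hN₂⟩ := Filter.eventually_atTop.1 (htt.eventually_ge_atTop L₀)
  refine ⟨K, max N₁ (max N₂ 3), hK0, ?_⟩
  intro N hN m L hL hlo hhi
  have hN1 : N₁ ≤ N := (le_max_left _ _).trans hN
  have hN2 : N₂ ≤ N := (le_max_left _ _).trans ((le_max_right _ _).trans hN)
  have hN3 : 3 ≤ N := (le_max_right _ _).trans ((le_max_right _ _).trans hN)
  have hLL : L₀ ≤ L := by rw [hL]; exact hN₂ N hN2
  obtain ⟨f1, f2, f3, f4, f5, f6⟩ := hL₀ L hLL
  have hpC := hC' N hN3
  set p := p1 (pr N) with hp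
  have hpL : |p - L| ≤ C := by
    rw [hL]
    exact hpC.trans (le_max_left _ _)
  rw [abs_le] at hpL
  obtain ⟨hpL1, hpL2⟩ := hpL
  have hηsq : 0 < (2 / η) ^ 2 := by positivity
  have hp4 : 4 ≤ p := by linarith
  have hpη : (2 / η) ^ 2 ≤ p := by linarith
  have hpP : P₀ ≤ p := by linarith
  have hp0 : 0 < p := by linarith
  have hL0 : 0 < L := lt_of_lt_of_le (Real.exp_pos _) f2
  have hLC : C ≤ L := by linarith
  have he1 : (2 : ℝ) ≤ Real.exp 1 := by have := Real.exp_one_gt_d9; linarith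
  have hpeL : p ≤ Real.exp 1 * L := by
    have : 2 * L ≤ Real.exp 1 * L := mul_le_mul_of_nonneg_right he1 hL0.le
    linarith
  have hlL : Real.exp 1 ≤ Real.log L := by
    rw [Real.le_log_iff_exp_le hL0]; exact f2
  have hlL1 : 1 ≤ Real.log L := by linarith
  have hllL : 1 ≤ Real.log (Real.log L) := by
    rw [Real.le_log_iff_exp_le (by linarith)]; exact hlL
  have hllL2 : Real.log (Real.log L) ≤ Real.log L := by
    have := Real.log_le_sub_one_of_pos (by linarith : 0 < Real.log L)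
    linarith
  set Φ := ((k : ℝ) - 3) / 2 * Real.log L + ((k : ℝ) - 1) / 2 * Real.log (Real.log L) with hΦ
  have hΦ0 : 0 ≤ Φ := by
    have : 0 ≤ ((k : ℝ) - 3) / 2 := by linarith
    have : 0 ≤ ((k : ℝ) - 1) / 2 := by linarith
    positivity
  have hΦa : Φ + K ≤ a * Real.log L := by
    rw [hΦ, ha]
    have i1 : ((k : ℝ) - 1) / 2 * Real.log (Real.log L) ≤ ((k : ℝ) - 1) / 2 * Real.log L := by
      apply mul_le_mul_of_nonneg_left hllL2; linarith
    have i2 : K * 1 ≤ K * Real.log L := mul_le_mul_of_nonneg_left hlL1 (by linarith)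
    have i3 : ((k : ℝ) - 2 + K) * Real.log L = ((k : ℝ) - 3) / 2 * Real.log L
      + ((k : ℝ) - 1) / 2 * Real.log L + K * Real.log L := by ring
    linarith
  have hlogε : Real.log L ≤ ε * L := by
    rw [Real.norm_eq_abs, id, Real.norm_eq_abs, abs_of_pos hL0] at f1
    exact (le_abs_self _).trans f1
  have hΦε : Φ + K ≤ a * (ε * L) := hΦa.trans (by gcongr)
  set s := Real.sqrt (L * (Φ + K)) with hs
  have hs0 : 0 ≤ s := Real.sqrt_nonneg _
  have hss : s * s = L * (Φ + K) := Real.mul_self_sqrt (by positivity)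
  have hsD : D + 2 * k * u₀ ≤ s := by
    apply Real.le_sqrt_of_sq_le
    have : L * 1 ≤ L * (Φ + K) := by
      apply mul_le_mul_of_nonneg_left _ hL0.le
      linarith
    linarith
  have hku : 0 ≤ 2 * (k : ℝ) * u₀ := by positivity
  have hsD' : D ≤ s := by linarith
  -- E2
  have hE2 : C * (Φ + K) + 2 * D * s ≤ L := by
    have i1 : C * (Φ + K) ≤ L / 2 := by
      calc C * (Φ + K) ≤ C * (a * (ε * L)) := by gcongr
        _ = (C * a * ε) * L := by ring
        _ ≤ 1 / 2 * L := by gcongr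
        _ = L / 2 := by ring
    have i2 : 2 * D * s ≤ L / 2 := by
      have : (2 * D * s) ^ 2 ≤ (L / 2) ^ 2 := by
        calc (2 * D * s) ^ 2 = 4 * D ^ 2 * (s * s) := by ring
          _ = 4 * D ^ 2 * (L * (Φ + K)) := by rw [hss]
          _ ≤ 4 * D ^ 2 * (L * (a * (ε * L))) := by gcongr
          _ = (16 * D ^ 2 * a * ε) * (L ^ 2 / 4) := by ring
          _ ≤ 1 * (L ^ 2 / 4) := by gcongr
          _ = (L / 2) ^ 2 := by ring
      exact le_of_sq_le_sq this (by linarith)
    linarith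
  -- δ
  set δ := (k : ℝ) * ((m : ℝ) - 1) / p - 1 with hδ
  have hδp : δ * p = k * m - k - p := by rw [hδ]; field_simp
  have hlo' : L + s ≤ k * m := hlo
  have hδp1 : s - D ≤ δ * p := by rw [hδp, hD]; linarith
  have hδ0 : 0 ≤ δ := by
    by_contra hcon
    push Not at hcon
    have : δ * p < 0 := mul_neg_of_neg_of_pos hcon hp0
    linarith
  have hδ2 : δ ≤ 2 * ε₀ := by
    have h1 : δ * p ≤ 2 * ε₀ * p := by
      rw [hδp]
      have h2 : 4 * C / ε₀ ≤ L := by linarith [mul_nonneg (by norm_num : (0:ℝ) ≤ 4) hC0]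
      have h3 : 4 * C ≤ ε₀ * L := by
        rw [div_le_iff₀ hε₀pos] at h2; linarith
      have i1 : 2 * ε₀ * (L - C) ≤ 2 * ε₀ * p := by
        apply mul_le_mul_of_nonneg_left <;> linarith
      have i2 : 8 * ε₀ * C ≤ 1 * C := mul_le_mul_of_nonneg_right hε₀1 hC0
      linarith
    exact le_of_mul_le_mul_right h1 hp0
  have hδη : |δ| ≤ η := by rw [abs_of_nonneg hδ0]; linarith
  have hδ1 : δ ≤ 1 := by linarith
  have hsp0 : 0 < Real.sqrt p := Real.sqrt_pos.2 hp0
  have hspp : Real.sqrt p * Real.sqrt p = p := Real.mul_self_sqrt hp0.le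
  have hsp2 : 2 ≤ Real.sqrt p := by
    apply Real.le_sqrt_of_sq_le; linarith
  have hspη : 2 / η ≤ Real.sqrt p := Real.le_sqrt_of_sq_le hpη
  set x := δ * Real.sqrt p with hx
  have hx0 : 0 ≤ x := by positivity
  have hxsq : Real.sqrt (x ^ 2) = x := Real.sqrt_sq hx0
  have hx2 : x ^ 2 = δ ^ 2 * p := by rw [hx, mul_pow, sq (Real.sqrt p), hspp]
  have hzlow : Φ + K - 1 ≤ x ^ 2 := by
    have h1 : x ^ 2 * p = (δ * p) ^ 2 := by rw [hx2]; ring
    have h2 : (s - D) ^ 2 ≤ (δ * p) ^ 2 := by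
      apply pow_le_pow_left₀ _ hδp1; linarith
    have h3 : (Φ + K - 1) * p ≤ x ^ 2 * p := by
      rw [h1]
      refine le_trans ?_ h2
      have h4 : (Φ + K - 1) * p ≤ (Φ + K - 1) * (L + C) := by
        apply mul_le_mul_of_nonneg_left _ (by linarith); linarith
      have h5 : (s - D) ^ 2 = L * (Φ + K) - 2 * D * s + D ^ 2 := by rw [← hss]; ring
      rw [h5]
      have h6 : (Φ + K - 1) * (L + C) = L * (Φ + K) + C * (Φ + K) - L - C := by ring
      linarith [sq_nonneg D]
    exact le_of_mul_le_mul_right h3 hp0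
  have hWW := hW p L (x ^ 2) δ hpP f2 hpeL hδ0 hδ1
    (by rw [hxsq, hx]; field_simp) (by linarith)
  rw [hxsq] at hWW
  -- the set U
  set us := δ * p / (((k : ℝ) - 1) * (1 + δ)) with hus
  have hk1 : 0 < (k : ℝ) - 1 := by linarith
  have hδ1' : 0 < 1 + δ := by linarith
  have hus0 : (u₀ : ℝ) ≤ us := by
    rw [hus, le_div_iff₀ (by positivity)]
    have h1 : 2 * (k : ℝ) * u₀ ≤ δ * p := by linarith
    have hu0 : (0 : ℝ) ≤ u₀ := Nat.cast_nonneg _
    have h2 : ((k : ℝ) - 1) * (1 + δ) ≤ k * 2 := by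
      apply mul_le_mul <;> linarith
    calc (u₀ : ℝ) * (((k : ℝ) - 1) * (1 + δ)) ≤ u₀ * (k * 2) := by gcongr
      _ = 2 * (k : ℝ) * u₀ := by ring
      _ ≤ δ * p := h1
  have hus1 : us ≤ δ * p := by
    rw [hus]
    apply div_le_self (by positivity)
    have : (1 : ℝ) * 1 ≤ ((k : ℝ) - 1) * (1 + δ) := by
      apply mul_le_mul <;> linarith
    linarith
  have husnn : 0 ≤ us := by rw [hus]; positivity
  have hus_pos : 0 < us ∨ us = 0 := by
    rcases husnn.lt_or_eq with h | h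
    · exact Or.inl h
    · exact Or.inr h.symm
  set U := Finset.Icc (⌊us⌋₊ + 1) ⌊us + Real.sqrt p⌋₊ with hU
  have hUmem : ∀ u ∈ U, us ≤ (u : ℝ) ∧ (u : ℝ) ≤ us + Real.sqrt p ∧ (0 : ℝ) < u := by
    intro u hu
    rw [hU, Finset.mem_Icc] at hu
    refine ⟨?_, ?_, ?_⟩
    · have h1 := Nat.lt_floor_add_one us
      have h2 : ((⌊us⌋₊ + 1 : ℕ) : ℝ) ≤ u := by exact_mod_cast hu.1
      push_cast at h2
      linarith
    · exact (Nat.le_floor_iff (by positivity)).1 hu.2
    · have : 0 < u := by omega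
      exact_mod_cast this
  have hcard : Real.sqrt p / 2 ≤ (U.card : ℝ) := by
    rw [hU, Nat.card_Icc]
    have h1 := Nat.lt_floor_add_one (us + Real.sqrt p)
    have h2 := Nat.floor_le husnn
    have h3 : (⌊us + Real.sqrt p⌋₊ : ℝ) - ⌊us⌋₊
        ≤ ((⌊us + Real.sqrt p⌋₊ + 1 - (⌊us⌋₊ + 1) : ℕ) : ℝ) := by
      have : ⌊us + Real.sqrt p⌋₊ ≤ (⌊us + Real.sqrt p⌋₊ + 1 - (⌊us⌋₊ + 1)) + ⌊us⌋₊ := by omega
      have : (⌊us + Real.sqrt p⌋₊ : ℝ)
          ≤ ((⌊us + Real.sqrt p⌋₊ + 1 - (⌊us⌋₊ + 1) : ℕ) : ℝ) + ⌊us⌋₊ := by exact_mod_cast this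
      linarith
    linarith
  have hη3 : us + Real.sqrt p ≤ η * p := by
    have h1 : us ≤ δ * p := hus1
    have h2 : δ * p ≤ 2 * ε₀ * p := by gcongr
    have h3 : Real.sqrt p ≤ η / 2 * p := by
      have : 1 ≤ η / 2 * Real.sqrt p := by
        rw [div_le_iff₀ hη] at hspη
        linarith
      calc Real.sqrt p = 1 * Real.sqrt p := (one_mul _).symm
        _ ≤ η / 2 * Real.sqrt p * Real.sqrt p := by gcongr
        _ = η / 2 * p := by rw [mul_assoc, hspp]
    have h4 : 8 * ε₀ * p ≤ η * p := by gcongr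
    have h5 : 0 ≤ η * p := by positivity
    linarith
  have hmain := hlb N hN1 m p δ hp hδ hδη U (by
    intro u hu
    obtain ⟨h1, h2, h3⟩ := hUmem u hu
    refine ⟨?_, by linarith⟩
    have : (u₀ : ℝ) ≤ u := by linarith
    exact_mod_cast this)
  -- lower bound of the sum
  set Bd := (Real.sqrt p * (1 + x)) ^ (-(((k : ℝ) - 1) / 2)) *
      Real.exp (x ^ 2 / (2 * (1 + δ)) - ((k : ℝ) - 1) ^ 2) with hBd
  have hBd0 : 0 ≤ Bd := by rw [hBd]; positivity
  have hsum : Real.sqrt p / 2 * Bd ≤ ∑ u ∈ U, (u : ℝ) ^ (-(((k : ℝ) - 1) / 2)) *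
      Real.exp (((k : ℝ) - 1) * δ * u - (1 + δ) * ((k : ℝ) - 1) ^ 2 * (u : ℝ) ^ 2 / (2 * p)) := by
    calc Real.sqrt p / 2 * Bd ≤ (U.card : ℝ) * Bd := by gcongr
      _ = ∑ _u ∈ U, Bd := by rw [Finset.sum_const, nsmul_eq_mul]
      _ ≤ _ := by
        refine Finset.sum_le_sum fun u hu => ?_
        obtain ⟨h1, h2, h3⟩ := hUmem u hu
        rw [hBd]
        apply mul_le_mul _ _ (Real.exp_pos _).le (by positivity)
        · apply Real.rpow_le_rpow_of_nonpos h3
          · have : us ≤ Real.sqrt p * x := by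
              rw [hx]
              calc us ≤ δ * p := hus1
                _ = δ * (Real.sqrt p * Real.sqrt p) := by rw [hspp]
                _ = Real.sqrt p * (δ * Real.sqrt p) := by ring
            linarith
          · linarith
        · apply Real.exp_le_exp.2
          rw [lbig_quad (k : ℝ) p δ u us (u - us) hp0 hk1 hδ1' hus (by ring), hx2]
          have hv : ((u : ℝ) - us) ^ 2 ≤ p := by
            have : ((u : ℝ) - us) ^ 2 ≤ (Real.sqrt p) ^ 2 := by
              apply pow_le_pow_left₀ <;> linarith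
            rwa [sq (Real.sqrt p), hspp] at this
          have h5 : (1 + δ) * ((k : ℝ) - 1) ^ 2 * ((u : ℝ) - us) ^ 2 / (2 * p)
              ≤ ((k : ℝ) - 1) ^ 2 := by
            rw [div_le_iff₀ (by positivity)]
            calc (1 + δ) * ((k : ℝ) - 1) ^ 2 * ((u : ℝ) - us) ^ 2
                ≤ 2 * ((k : ℝ) - 1) ^ 2 * p := by
                  gcongr
                  linarith
              _ = _ := by ring
          linarith
  have hBexp : c * (Real.sqrt p / 2 * Bd) = c / 2 * Real.exp (x ^ 2 / (2 * (1 + δ))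
      - ((k : ℝ) - 3) / 4 * Real.log p - ((k : ℝ) - 1) / 2 * Real.log (1 + x)
      - ((k : ℝ) - 1) ^ 2) := by
    have h1 : 0 < Real.sqrt p * (1 + x) := by positivity
    have h2 : Real.sqrt p = Real.exp (1 / 2 * Real.log p) := by
      have h3 := Real.exp_log hsp0
      rw [Real.log_sqrt hp0.le] at h3
      rw [← h3]
      congr 1; ring
    rw [hBd, Real.rpow_def_of_pos h1, Real.log_mul hsp0.ne' (by positivity), Real.log_sqrt hp0.le]
    calc c * (Real.sqrt p / 2 * (Real.exp ((Real.log p / 2 + Real.log (1 + x))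
            * -(((k : ℝ) - 1) / 2)) * Real.exp (x ^ 2 / (2 * (1 + δ)) - ((k : ℝ) - 1) ^ 2)))
        = c / 2 * (Real.sqrt p * (Real.exp ((Real.log p / 2 + Real.log (1 + x))
            * -(((k : ℝ) - 1) / 2)) * Real.exp (x ^ 2 / (2 * (1 + δ)) - ((k : ℝ) - 1) ^ 2))) := by
          ring
      _ = _ := by
          conv_lhs => rw [h2]
          rw [← Real.exp_add, ← Real.exp_add]
          congr 2
          ring
  have hRle : R' ≤ c * (Real.sqrt p / 2 * Bd) := by
    rw [hBexp]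
    have h1 : 2 * R' / c ≤ Real.exp (x ^ 2 / (2 * (1 + δ))
      - ((k : ℝ) - 3) / 4 * Real.log p - ((k : ℝ) - 1) / 2 * Real.log (1 + x)
      - ((k : ℝ) - 1) ^ 2) := by
      rw [← Real.log_le_iff_le_exp (by positivity)]
      exact hWW
    rw [div_le_iff₀ hc] at h1
    linarith
  have hRR : R ≤ c * ∑ u ∈ U, (u : ℝ) ^ (-(((k : ℝ) - 1) / 2)) *
      Real.exp (((k : ℝ) - 1) * δ * u - (1 + δ) * ((k : ℝ) - 1) ^ 2 * (u : ℝ) ^ 2 / (2 * p)) := by
    calc R ≤ R' := le_max_left _ _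
      _ ≤ c * (Real.sqrt p / 2 * Bd) := hRle
      _ ≤ _ := by gcongr
  calc R * ((AA N m).card : ℝ) ^ k ≤ _ := mul_le_mul_of_nonneg_right hRR (by positivity)
    _ ≤ _ := hmain

end Pool.Agent.Helper256.KM
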