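import Mathlib
import Pool.Agent.Helper256.KM.Defs
import Pool.Agent.Helper256.KM.L4L
import Pool.Agent.Helper256.KM.Mertens

set_option autoImplicit false

namespace Pool.Agent.Helper256.KM

open Finset ArithmeticFunction

theorem harm_large (a : ℕ) (R : ℝ) : ∃ T : ℕ, R ≤ ∑ u ∈ Finset.Icc (a + 1) T, (1 : ℝ) / u := by
  have h := Real.tendsto_sum_range_one_div_nat_succ_atTop
  obtain ⟨n, hn⟩ := (Filter.tendsto_atTop.mp h
    (R + ∑ i ∈ Finset.range a, (1 : ℝ) / (i + 1))).and (Filter.eventually_ge_atTop a) |>.exists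
  refine ⟨n, ?_⟩
  have h1 : ∑ i ∈ Finset.range n, (1 : ℝ) / (i + 1)
      = ∑ i ∈ Finset.range a, (1 : ℝ) / (i + 1) + ∑ i ∈ Finset.Ico a n, (1 : ℝ) / (i + 1) := by
    rw [Finset.sum_range_add_sum_Ico _ hn.2]
  have h2 : ∑ i ∈ Finset.Ico a n, (1 : ℝ) / (i + 1) = ∑ u ∈ Finset.Icc (a + 1) n, (1 : ℝ) / u := by
    rw [← Finset.Ico_add_one_right_eq_Icc, ← Finset.sum_Ico_add' (fun u : ℕ => (1 : ℝ) / u) a n 1]
    refine Finset.sum_congr rfl ?_
    intro i _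
    push_cast
    rfl
  linarith [hn.1]

theorem lower_three (R : ℝ) : ∃ (ε : ℝ) (N₀ : ℕ), 0 < ε ∧ ∀ N : ℕ, N₀ ≤ N → ∀ m : ℕ,
    |3 * (m : ℝ) - Real.log (Real.log N)| ≤ ε * Real.log (Real.log N) →
    R * ((AA N m).card : ℝ) ^ 3 ≤ (TT 3 (AA N m) : ℝ) := by
  obtain ⟨c, η, u₀, N₀, hc, hη, H⟩ := lb4 (le_refl 3)
  obtain ⟨C, hC⟩ := mertens_inv
  have hC0 : 0 ≤ C := (abs_nonneg _).trans (hC 3 le_rfl)
  obtain ⟨T, hT⟩ := harm_large u₀ (R * Real.exp 1 / c)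
  set ε : ℝ := min (1 / (8 * ((T : ℝ) + 1))) (η / 2) with hε
  have hT0 : (0 : ℝ) ≤ T := Nat.cast_nonneg T
  have hε0 : 0 < ε := lt_min (by positivity) (by positivity)
  have hε1 : ε * (8 * ((T : ℝ) + 1)) ≤ 1 := by
    have := min_le_left (1 / (8 * ((T : ℝ) + 1))) (η / 2)
    rw [← hε] at this
    rwa [le_div_iff₀ (by positivity)] at this
  have hε2 : 2 * ε ≤ η := by
    have := min_le_right (1 / (8 * ((T : ℝ) + 1))) (η / 2)
    rw [← hε] at this
    linarith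
  set P : ℝ := (ε * C + 3 + C) / ε + 8 * (T : ℝ) ^ 2 + T / η + 1 with hP
  have hP1 : 0 ≤ (ε * C + 3 + C) / ε := by positivity
  have hP2 : (0 : ℝ) ≤ 8 * (T : ℝ) ^ 2 := by positivity
  have hP3 : (0 : ℝ) ≤ T / η := by positivity
  have hlim : Filter.Tendsto (fun N : ℕ => Real.log (Real.log N)) Filter.atTop Filter.atTop :=
    Real.tendsto_log_atTop.comp (Real.tendsto_log_atTop.comp tendsto_natCast_atTop_atTop)
  obtain ⟨N₁, hN₁⟩ := Filter.eventually_atTop.mp (Filter.tendsto_atTop.mp hlim (P + C))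
  refine ⟨ε, max (max N₀ N₁) 3, hε0, ?_⟩
  intro N hN m hm
  have hN0 : N₀ ≤ N := (le_max_left _ _).trans ((le_max_left _ _).trans hN)
  have hN1 : N₁ ≤ N := (le_max_right _ _).trans ((le_max_left _ _).trans hN)
  have hN3 : 3 ≤ N := (le_max_right _ _).trans hN
  set L := Real.log (Real.log N) with hL
  have hLP : P + C ≤ L := hN₁ N hN1
  have hp := hC N hN3
  rw [← hL] at hp
  set p : ℝ := p1 (pr N) with hpdef
  have hp' : |p - L| ≤ C := hp
  have hpL := abs_le.mp hp'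
  have hpP : P ≤ p := by linarith [hpL.1]
  have hp1 : 1 ≤ p := by linarith
  have hp0 : 0 < p := by linarith
  set δ : ℝ := ((3 : ℕ) : ℝ) * ((m : ℝ) - 1) / p - 1 with hδ
  have hδ2 : |δ| ≤ 2 * ε := by
    have h1 : δ = (3 * (m : ℝ) - L + (L - p) - 3) / p := by
      rw [hδ]; push_cast; field_simp; ring
    rw [h1, abs_div, abs_of_pos hp0, div_le_iff₀ hp0]
    have h2 : |3 * (m : ℝ) - L + (L - p) - 3| ≤ ε * L + C + 3 := by
      have h3 := abs_le.mp hm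
      rw [abs_le]
      constructor <;> linarith [hpL.1, hpL.2]
    have h4 : (ε * C + 3 + C) ≤ ε * p := by
      have : (ε * C + 3 + C) / ε ≤ p := by linarith
      rw [div_le_iff₀ hε0] at this
      linarith
    have h5 : ε * L ≤ ε * (p + C) := by
      apply mul_le_mul_of_nonneg_left _ hε0.le
      linarith [hpL.1]
    linarith
  have hδη : |δ| ≤ η := hδ2.trans hε2
  have hδa := abs_le.mp hδ2
  have hε8 : ε ≤ 1 / 8 := by
    have : ε * 8 ≤ ε * (8 * ((T : ℝ) + 1)) := by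
      apply mul_le_mul_of_nonneg_left _ hε0.le
      linarith
    linarith
  have hU : ∀ u ∈ Finset.Icc (u₀ + 1) T, u₀ ≤ u ∧ (u : ℝ) ≤ η * p := by
    intro u hu
    rw [Finset.mem_Icc] at hu
    refine ⟨by omega, ?_⟩
    have h1 : (u : ℝ) ≤ T := by exact_mod_cast hu.2
    have h2 : T / η ≤ p := by linarith
    rw [div_le_iff₀ hη] at h2
    linarith
  have key := H N hN0 m p δ hpdef hδ hδη (Finset.Icc (u₀ + 1) T) hU
  have hsum : (∑ u ∈ Finset.Icc (u₀ + 1) T, (1 : ℝ) / u) * Real.exp (-1) ≤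
      ∑ u ∈ Finset.Icc (u₀ + 1) T, (u : ℝ) ^ (-((((3 : ℕ) : ℝ) - 1) / 2)) *
      Real.exp ((((3 : ℕ) : ℝ) - 1) * δ * u - (1 + δ) * (((3 : ℕ) : ℝ) - 1) ^ 2 * (u : ℝ) ^ 2 / (2 * p)) := by
    rw [Finset.sum_mul]
    apply Finset.sum_le_sum
    intro u hu
    rw [Finset.mem_Icc] at hu
    have hu1 : (1 : ℝ) ≤ u := by exact_mod_cast (by omega : 1 ≤ u)
    have huT : (u : ℝ) ≤ T := by exact_mod_cast hu.2
    have h1 : (u : ℝ) ^ (-((((3 : ℕ) : ℝ) - 1) / 2)) = 1 / u := by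
      have : (-((((3 : ℕ) : ℝ) - 1) / 2)) = -1 := by push_cast; norm_num
      rw [this, Real.rpow_neg_one, one_div]
    rw [h1]
    apply mul_le_mul_of_nonneg_left _ (by positivity)
    apply Real.exp_le_exp.mpr
    push_cast
    have h2 : -(1 / 2) ≤ 2 * δ * u := by
      have h3 : -(2 * ε) * u ≤ δ * u := by
        apply mul_le_mul_of_nonneg_right hδa.1 (by linarith)
      have h4 : ε * u ≤ ε * (T + 1) := mul_le_mul_of_nonneg_left (by linarith) hε0.le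
      nlinarith
    have h5 : (1 + δ) * 2 ^ 2 * (u : ℝ) ^ 2 / (2 * p) ≤ 1 / 2 := by
      rw [div_le_iff₀ (by positivity)]
      have h6 : (u : ℝ) ^ 2 ≤ (T : ℝ) ^ 2 := by
        apply pow_le_pow_left₀ (by linarith) huT
      have h7 : 1 + δ ≤ 2 := by linarith [hδa.2]
      have h8 : 0 ≤ 1 + δ := by linarith [hδa.1]
      have h9 : (1 + δ) * (u : ℝ) ^ 2 ≤ 2 * (T : ℝ) ^ 2 := mul_le_mul h7 h6 (by positivity) (by norm_num)
      have h10 : 8 * (T : ℝ) ^ 2 ≤ p := by linarith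
      nlinarith
    have h11 : ((3 : ℝ) - 1) * δ * u - (1 + δ) * (3 - 1) ^ 2 * (u : ℝ) ^ 2 / (2 * p)
        = 2 * δ * u - (1 + δ) * 2 ^ 2 * (u : ℝ) ^ 2 / (2 * p) := by norm_num
    rw [h11]
    linarith
  refine le_trans ?_ key
  have hcard : (0 : ℝ) ≤ ((AA N m).card : ℝ) ^ 3 := by positivity
  apply mul_le_mul_of_nonneg_right _ hcard
  have h12 : R * Real.exp 1 / c * Real.exp (-1) * c = R := by
    have : Real.exp 1 * Real.exp (-1) = 1 := by rw [← Real.exp_add]; norm_num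
    field_simp
    linear_combination R * this
  have h13 : R * Real.exp 1 / c * Real.exp (-1) ≤ (∑ u ∈ Finset.Icc (u₀ + 1) T, (1 : ℝ) / u) * Real.exp (-1) :=
    mul_le_mul_of_nonneg_right hT (Real.exp_pos _).le
  calc R = c * (R * Real.exp 1 / c * Real.exp (-1)) := by rw [mul_comm c]; exact h12.symm
    _ ≤ _ := mul_le_mul_of_nonneg_left (h13.trans hsum) hc.le

end Pool.Agent.Helper256.KM
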