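import Mathlib
import Pool.Agent.Helper256.KM.Defs
import Pool.Agent.Helper256.KM.AU
import Pool.Agent.Helper256.KM.AL
import Pool.Agent.Helper256.KM.CT
import Pool.Agent.Helper256.KM.HO

set_option autoImplicit false

namespace Pool.Agent.Helper256.KM

open Finset ArithmeticFunction

theorem TT_power_mean' {k : ℕ} (hk : 2 ≤ k) (B : Finset ℕ) (hB : ∀ n ∈ B, n ≠ 0) :
    ((TT 2 B : ℕ) : ℝ) ^ k ≤ ((TT k B : ℕ) : ℝ) ^ 2 := TT_power_mean hk B hB

theorem lm_prod_mem (N m : ℕ) : ∀ n ∈ Fintype.piFinset (fun _ : Fin 2 => AA N m), ∏ i, n i ∈ AA (N ^ 2) (2 * m) := by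
  intro n hn
  rw [Fintype.mem_piFinset] at hn
  have h0 := hn 0
  have h1 := hn 1
  unfold AA at h0 h1 ⊢
  rw [Finset.mem_filter, Finset.mem_Icc] at h0 h1 ⊢
  rw [Fin.prod_univ_two]
  obtain ⟨⟨a1, a2⟩, a3⟩ := h0
  obtain ⟨⟨b1, b2⟩, b3⟩ := h1
  refine ⟨⟨Nat.mul_pos a1 b1, ?_⟩, ?_⟩
  · rw [sq]
    exact Nat.mul_le_mul a2 b2
  · rw [cardFactors_mul (by omega) (by omega), a3, b3]
    ring

theorem large_m {k : ℕ} (hk : 2 ≤ k) (R : ℝ) : ∃ (X₀ : ℝ) (N₀ : ℕ), 0 < X₀ ∧ ∀ N : ℕ, N₀ ≤ N →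
    ∀ m : ℕ, 9 / 10 * Real.log (Real.log N) ≤ m → X₀ * 2 ^ m ≤ (N : ℝ) →
    R * ((AA N m).card : ℝ) ^ k ≤ (TT k (AA N m) : ℝ) := by
  obtain ⟨C, hC, hup⟩ := card_AA_upper
  obtain ⟨c, X₀, N₀, hc, hX₀, hlow⟩ := card_AA_lower
  set R' : ℝ := max 1 R with hR'
  have hR1 : 1 ≤ R' := le_max_left _ _
  have hRR : R ≤ R' := le_max_right _ _
  have hlim : Filter.Tendsto (fun X : ℝ => c ^ 2 * (Real.log X) ^ (1 / 10 : ℝ)) Filter.atTop Filter.atTop := by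
    apply Filter.Tendsto.const_mul_atTop (by positivity)
    exact (tendsto_rpow_atTop (by norm_num)).comp Real.tendsto_log_atTop
  obtain ⟨X₁, hX₁⟩ := Filter.eventually_atTop.1 (hlim.eventually_ge_atTop (2 * C * R'))
  refine ⟨max X₀ X₁, N₀, lt_of_lt_of_le (by linarith) (le_max_left _ _), ?_⟩
  intro N hN m hm hNm
  set X : ℝ := (N : ℝ) / 2 ^ m with hX
  have hXX : max X₀ X₁ ≤ X := (le_div_iff₀ (by positivity)).2 hNm
  have hXX0 : X₀ ≤ X := (le_max_left _ _).trans hXX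
  have hXX1 : X₁ ≤ X := (le_max_right _ _).trans hXX
  have hX4 : 4 ≤ X := hX₀.trans hXX0
  have hXpos : 0 < X := by linarith
  have hlogpos : 0 < Real.log X := Real.log_pos (by linarith)
  have h1 := hX₁ X hXX1
  have h2 := hlow N hN m X hm hX hXX0
  have h3 := hup (N ^ 2) (2 * m) (X ^ 2) (by
    rw [hX, div_pow]
    push_cast
    ring) (by nlinarith)
  have h4 := cs_trivial 2 (AA N m) (AA (N ^ 2) (2 * m)) (lm_prod_mem N m)
  set A : ℝ := ((AA N m).card : ℝ) with hA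
  set T2 : ℝ := (TT 2 (AA N m) : ℝ) with hT2
  have hA0 : 0 ≤ A := Nat.cast_nonneg _
  have hT0 : 0 ≤ T2 := Nat.cast_nonneg _
  rw [Real.log_pow] at h3
  push_cast at h3
  have h5 : A ^ (2 * 2) ≤ T2 * (C * X ^ 2 * (2 * Real.log X)) :=
    h4.trans (mul_le_mul_of_nonneg_left h3 hT0)
  have h6 : c ^ 2 * X ^ 2 * (Real.log X * (Real.log X) ^ (1 / 10 : ℝ)) ≤ A ^ 2 := by
    have h7 : (c * X * (Real.log X) ^ (11 / 20 : ℝ)) ^ 2 ≤ A ^ 2 := by
      apply pow_le_pow_left₀ _ h2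
      positivity
    have h8 : ((Real.log X) ^ (11 / 20 : ℝ)) ^ 2 = Real.log X * (Real.log X) ^ (1 / 10 : ℝ) := by
      rw [← Real.rpow_natCast, ← Real.rpow_mul hlogpos.le]
      have : (11 / 20 : ℝ) * ((2 : ℕ) : ℝ) = 1 + 1 / 10 := by norm_num
      rw [this, Real.rpow_add hlogpos, Real.rpow_one]
    calc c ^ 2 * X ^ 2 * (Real.log X * (Real.log X) ^ (1 / 10 : ℝ))
        = (c * X * (Real.log X) ^ (11 / 20 : ℝ)) ^ 2 := by rw [mul_pow, mul_pow, h8]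
      _ ≤ A ^ 2 := h7
  -- key
  have h9 : R' * A ^ 2 ≤ T2 := by
    have hP : 0 < 2 * C * X ^ 2 * Real.log X := by positivity
    have h10 : (2 * C * X ^ 2 * Real.log X) * (R' * A ^ 2) ≤ (2 * C * X ^ 2 * Real.log X) * T2 := by
      calc (2 * C * X ^ 2 * Real.log X) * (R' * A ^ 2) = (2 * C * R') * (X ^ 2 * Real.log X * A ^ 2) := by ring
        _ ≤ (c ^ 2 * (Real.log X) ^ (1 / 10 : ℝ)) * (X ^ 2 * Real.log X * A ^ 2) := by
            apply mul_le_mul_of_nonneg_right h1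
            positivity
        _ = (c ^ 2 * X ^ 2 * (Real.log X * (Real.log X) ^ (1 / 10 : ℝ))) * A ^ 2 := by ring
        _ ≤ A ^ 2 * A ^ 2 := mul_le_mul_of_nonneg_right h6 (by positivity)
        _ = A ^ (2 * 2) := by ring
        _ ≤ T2 * (C * X ^ 2 * (2 * Real.log X)) := h5
        _ = (2 * C * X ^ 2 * Real.log X) * T2 := by ring
    exact le_of_mul_le_mul_left h10 hP
  have h11 := TT_power_mean' hk (AA N m) (fun n hn => by
    unfold AA at hn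
    rw [Finset.mem_filter, Finset.mem_Icc] at hn
    omega)
  set Tk : ℝ := (TT k (AA N m) : ℝ) with hTk
  have hTk0 : 0 ≤ Tk := Nat.cast_nonneg _
  have h12 : (R' * A ^ k) ^ 2 ≤ Tk ^ 2 := by
    calc (R' * A ^ k) ^ 2 = R' ^ 2 * (A ^ 2) ^ k := by ring
      _ ≤ R' ^ k * (A ^ 2) ^ k := by
          apply mul_le_mul_of_nonneg_right _ (by positivity)
          exact pow_le_pow_right₀ hR1 hk
      _ = (R' * A ^ 2) ^ k := by rw [mul_pow]
      _ ≤ T2 ^ k := pow_le_pow_left₀ (by positivity) h9 k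
      _ ≤ Tk ^ 2 := h11
  have h13 : R' * A ^ k ≤ Tk := by
    exact le_of_sq_le_sq h12 hTk0
  exact (mul_le_mul_of_nonneg_right hRR (by positivity)).trans h13

end Pool.Agent.Helper256.KM
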