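import Mathlib
import Pool.Agent.Helper256.KM.Defs
import Pool.Agent.Helper256.KM.BT
import Pool.Agent.Helper256.KM.HO
import Pool.Agent.Helper256.KM.B2
import Pool.Agent.Helper256.KM.CE
import Pool.Agent.Helper256.KM.Mertens

set_option autoImplicit false

namespace Pool.Agent.Helper256.KM

open Finset ArithmeticFunction

theorem part_a {k : ℕ} (hk : 2 ≤ k) {α : ℝ} (hα : 0 < α) (hkα : k * α < 1) : ∃ (C : ℝ) (N₀ : ℕ),
    ∀ N : ℕ, N₀ ≤ N → ∀ m : ℕ, 1 ≤ m → (m : ℝ) ≤ α * Real.log (Real.log N) →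
    (TT k (AA N m) : ℝ) ≤ C * ((AA N m).card : ℝ) ^ k := by
  classical
  have hk0 : (0 : ℝ) < k := by
    have : 0 < k := by omega
    exact_mod_cast this
  have hk2 : (2 : ℝ) ≤ k := by exact_mod_cast hk
  obtain ⟨ρ, hρ⟩ : ∃ ρ : ℝ, ρ = (α + 1 / k) / 2 := ⟨_, rfl⟩
  have hαk : α < 1 / k := by
    rw [lt_div_iff₀ hk0]; linarith
  have hαρ : α < ρ := by rw [hρ]; linarith
  have hρk : ρ < 1 / k := by rw [hρ]; linarith
  have hρ0 : 0 < ρ := by linarith
  have hkρ : k * ρ < 1 := by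
    rw [lt_div_iff₀ hk0] at hρk; linarith
  have hρ2 : ρ ≤ 1 - 1 / 2 := by nlinarith
  obtain ⟨Cb, hCb, hblock⟩ := block_bound (k := k) (by omega) hρ0 hkρ
  obtain ⟨c, hc, hlow⟩ := lower_count (ε := 1 / 2) (by norm_num) (by norm_num)
  obtain ⟨N0, hN0⟩ := hlow ∅ 1 (by simp) le_rfl
  obtain ⟨Cm, hCm⟩ := mertens_inv
  have hcast : Filter.Tendsto (fun N : ℕ => (N : ℝ)) Filter.atTop Filter.atTop :=
    tendsto_natCast_atTop_atTop
  have hlogt : Filter.Tendsto (fun N : ℕ => Real.log (N : ℝ)) Filter.atTop Filter.atTop :=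
    Real.tendsto_log_atTop.comp hcast
  have hlog2t : Filter.Tendsto (fun N : ℕ => Real.log (Real.log (N : ℝ))) Filter.atTop
      Filter.atTop := Real.tendsto_log_atTop.comp hlogt
  have hev : ∀ᶠ N : ℕ in Filter.atTop, 16 ≤ N ∧ 4 * Real.log 2 ≤ Real.log N ∧
      ρ * (Cm + Real.log 4) ≤ (ρ - α) * Real.log (Real.log N) ∧
      (Real.log N) ^ (2 * k) ≤ N := by
    refine (Filter.eventually_ge_atTop 16).and ((hlogt.eventually_ge_atTop _).and
      (Filter.Eventually.and ?_ ?_))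
    · have h1 := (hlog2t.const_mul_atTop (sub_pos.mpr hαρ)).eventually_ge_atTop
        (ρ * (Cm + Real.log 4))
      exact h1
    · have h1 : (fun x : ℝ => Real.log x ^ (2 * k)) =o[Filter.atTop] (id : ℝ → ℝ) :=
        Real.isLittleO_pow_log_id_atTop
      have h2 := (h1.bound (show (0 : ℝ) < 1 by norm_num))
      have h3 := hcast.eventually h2
      filter_upwards [h3, Filter.eventually_ge_atTop 1] with N hN hN1
      simp only [id, Real.norm_eq_abs, one_mul] at hN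
      rw [abs_of_nonneg (show (0 : ℝ) ≤ (N : ℝ) from Nat.cast_nonneg N)] at hN
      exact (le_abs_self _).trans hN
  obtain ⟨N1, hN1⟩ := Filter.eventually_atTop.mp hev
  refine ⟨5 ^ (2 * k - 1) * (9 * Cb * 2 ^ k + 1) / c ^ k, max N0 N1, ?_⟩
  intro N hN m hm1 hm
  obtain ⟨h16, hl4, hmert, hlk⟩ := hN1 N (le_trans (le_max_right _ _) hN)
  have hNN0 : N0 ≤ N := le_trans (le_max_left _ _) hN
  obtain ⟨r, rfl⟩ : ∃ r, m = r + 1 := ⟨m - 1, by omega⟩
  have hNR : (16 : ℝ) ≤ N := by exact_mod_cast h16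
  have hNpos : (0 : ℝ) < N := by linarith
  have hlog2 : 0 < Real.log 2 := Real.log_pos (by norm_num)
  have hLpos : 0 < Real.log N := by linarith
  have hsq0 : 0 < Real.sqrt N := Real.sqrt_pos.mpr hNpos
  have hsqsq : Real.sqrt N * Real.sqrt N = N := Real.mul_self_sqrt hNpos.le
  have hsq4 : 4 ≤ Real.sqrt N := by
    apply Real.le_sqrt_of_sq_le; linarith
  have hns1 : (Nat.sqrt N : ℝ) ≤ Real.sqrt N := Real.nat_sqrt_le_real_sqrt
  have hns2 : Real.sqrt N < (Nat.sqrt N : ℝ) + 1 := by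
    rw [Real.sqrt_lt' (by positivity)]
    have := Nat.lt_succ_sqrt' N
    have h2 : (N : ℝ) < ((Nat.sqrt N + 1 : ℕ) : ℝ) ^ 2 := by
      exact_mod_cast this
    push_cast at h2
    exact h2
  have hns3 : (3 : ℝ) ≤ (Nat.sqrt N : ℝ) := by linarith
  have hns3' : 3 ≤ Nat.sqrt N := by exact_mod_cast hns3
  -- the reciprocal sums
  have p1_mono : ∀ a b : ℕ, a ≤ b → p1 (pr a) ≤ p1 (pr b) := by
    intro a b hab
    unfold p1
    apply Finset.sum_le_sum_of_subset_of_nonneg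
    · unfold pr
      apply Finset.filter_subset_filter
      exact Finset.Icc_subset_Icc le_rfl hab
    · intro i _ _
      positivity
  have hp1 : ∀ M : ℝ, Real.sqrt N ≤ M → (r : ℝ) ≤ ρ * p1 (pr ⌊M⌋₊) := by
    intro M hM
    have h1 : Nat.sqrt N ≤ ⌊M⌋₊ := Nat.le_floor (hns1.trans hM)
    have h2 := p1_mono _ _ h1
    have h3 := hCm (Nat.sqrt N) hns3'
    have h4 : Real.log (Real.log (Nat.sqrt N)) - Cm ≤ p1 (pr (Nat.sqrt N)) := by
      unfold p1 pr
      have := (abs_le.mp h3).1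
      linarith
    have h5 : Real.log N / 4 ≤ Real.log (Nat.sqrt N) := by
      have h6 : Real.sqrt N / 2 ≤ (Nat.sqrt N : ℝ) := by linarith
      have h7 := Real.log_le_log (by positivity) h6
      rw [Real.log_div hsq0.ne' (by norm_num), Real.log_sqrt hNpos.le] at h7
      linarith
    have h8 : Real.log (Real.log N) - Real.log 4 ≤ Real.log (Real.log (Nat.sqrt N)) := by
      rw [← Real.log_div hLpos.ne' (by norm_num)]
      exact Real.log_le_log (by positivity) h5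
    have h9 : Real.log (Real.log N) - Real.log 4 - Cm ≤ p1 (pr ⌊M⌋₊) := by linarith
    have h10 := mul_le_mul_of_nonneg_left h9 hρ0.le
    push_cast at hm
    nlinarith
  -- `X`
  obtain ⟨X, hX⟩ : ∃ X : ℝ, X = N / Real.log N * hh (pr N) r := ⟨_, rfl⟩
  have hprN : ∀ p ∈ pr N, p.Prime := by
    intro p hp; unfold pr at hp; exact (Finset.mem_filter.mp hp).2
  have hhh1 : 1 ≤ hh (pr N) r := by
    apply one_le_hh hprN
    have h1 := hp1 N (by nlinarith)
    rw [Nat.floor_natCast] at h1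
    have h2 : 0 ≤ p1 (pr N) := by
      unfold p1; exact Finset.sum_nonneg (fun _ _ => by positivity)
    nlinarith
  have hX1 : N / Real.log N ≤ X := by
    rw [hX]
    have : 0 ≤ N / Real.log N := by positivity
    nlinarith
  have hXpos : 0 < X := lt_of_lt_of_le (by positivity) hX1
  -- lower bound
  have hcardlow : c * X ≤ ((AA N (r + 1)).card : ℝ) := by
    have h1 := hN0 N hNN0 r N ρ (by rw [div_one]) le_rfl hρ0.le hρ2 (by
      have h1 := hp1 N (by nlinarith)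
      rw [Nat.floor_natCast] at h1
      rw [Finset.sdiff_empty]
      exact h1)
    rw [Finset.sdiff_empty] at h1
    have h2 : RR ∅ (r + 1) (N : ℝ) = AA N (r + 1) := by
      unfold RR AA
      rw [Nat.floor_natCast]
      apply Finset.filter_congr
      intro n _
      simp
    rw [h2] at h1
    rw [hX]
    linarith
  -- the number of blocks
  obtain ⟨J, hJ⟩ : ∃ J : ℕ, J = Nat.log 2 (Nat.sqrt N) := ⟨_, rfl⟩
  have hJ1 : 2 ^ J ≤ Nat.sqrt N := by
    rw [hJ]; exact Nat.pow_log_le_self 2 (by omega)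
  have hJ2 : Nat.sqrt N < 2 ^ (J + 1) := by
    rw [hJ]; exact Nat.lt_pow_succ_log_self (by norm_num) _
  have hJ1' : (2 : ℝ) ^ J ≤ Real.sqrt N := by
    have : ((2 ^ J : ℕ) : ℝ) ≤ (Nat.sqrt N : ℝ) := by exact_mod_cast hJ1
    push_cast at this
    linarith
  have hJ2' : Real.sqrt N ≤ (2 : ℝ) ^ (J + 1) := by
    have : ((Nat.sqrt N + 1 : ℕ) : ℝ) ≤ ((2 ^ (J + 1) : ℕ) : ℝ) := by exact_mod_cast hJ2
    push_cast at this
    linarith
  have hMj : ∀ j ≤ J, Real.sqrt N ≤ (N : ℝ) / 2 ^ j := by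
    intro j hj
    rw [le_div_iff₀ (by positivity)]
    have h1 : (2 : ℝ) ^ j ≤ 2 ^ J := pow_le_pow_right₀ (by norm_num) hj
    nlinarith
  have hlast : (N : ℝ) / 2 ^ (J + 1) ≤ Real.sqrt N := by
    rw [div_le_iff₀ (by positivity)]
    nlinarith
  obtain ⟨B, hB⟩ : ∃ B : ℕ → Finset ℕ, B = fun j => if j ≤ J then blk ((N : ℝ) / 2 ^ j) (r + 1)
      else (Finset.Icc 1 ⌊(N : ℝ) / 2 ^ (J + 1)⌋₊).filter (fun n => cardFactors n = r + 1) :=
    ⟨_, rfl⟩
  obtain ⟨w, hw⟩ : ∃ w : ℕ → ℝ, w = fun j => if j ≤ J then (3 / 4 : ℝ) ^ j else 1 := ⟨_, rfl⟩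
  have hBm : ∀ j, j ≤ J → ∀ n, n ∈ B j ↔ (1 ≤ n ∧ (n : ℝ) ≤ (N : ℝ) / 2 ^ j) ∧
      (N : ℝ) / 2 ^ j / 2 < n ∧ cardFactors n = r + 1 := by
    intro j hj n
    rw [hB]
    simp only [hj, if_true, blk, Finset.mem_filter, Finset.mem_Icc]
    rw [Nat.le_floor_iff (by positivity)]
  have hBl : ∀ j, J < j → ∀ n, n ∈ B j ↔ (1 ≤ n ∧ (n : ℝ) ≤ (N : ℝ) / 2 ^ (J + 1)) ∧
      cardFactors n = r + 1 := by
    intro j hj n
    rw [hB]
    simp only [not_le.mpr hj, if_false, Finset.mem_filter, Finset.mem_Icc]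
    rw [Nat.le_floor_iff (by positivity)]
  have hBU : (Finset.range (J + 2)).biUnion B = AA N (r + 1) := by
    ext n
    simp only [Finset.mem_biUnion, Finset.mem_range, AA, Finset.mem_filter, Finset.mem_Icc]
    constructor
    · rintro ⟨j, hj, hn⟩
      rcases Nat.lt_or_ge J j with h | h
      · rw [hBl j h] at hn
        refine ⟨⟨hn.1.1, ?_⟩, hn.2⟩
        have h1 : (N : ℝ) / 2 ^ (J + 1) ≤ N := div_le_self hNpos.le (one_le_pow₀ (by norm_num))
        exact_mod_cast hn.1.2.trans h1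
      · rw [hBm j h] at hn
        refine ⟨⟨hn.1.1, ?_⟩, hn.2.2⟩
        have h1 : (N : ℝ) / 2 ^ j ≤ N := div_le_self hNpos.le (one_le_pow₀ (by norm_num))
        exact_mod_cast hn.1.2.trans h1
    · rintro ⟨⟨h1, h2⟩, h3⟩
      by_cases hn : (n : ℝ) ≤ (N : ℝ) / 2 ^ (J + 1)
      · exact ⟨J + 1, by omega, (hBl (J + 1) (by omega) n).mpr ⟨⟨h1, hn⟩, h3⟩⟩
      · -- the smallest `j` with `N / 2 ^ (j+1) < n`
        have hex : ∃ j, (N : ℝ) / 2 ^ (j + 1) < n := ⟨J, not_le.mp hn⟩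
        have hj := Nat.find_spec hex
        obtain ⟨j, hjdef⟩ : ∃ j, j = Nat.find hex := ⟨_, rfl⟩
        rw [← hjdef] at hj
        have hjJ : j ≤ J := by rw [hjdef]; exact Nat.find_min' hex (not_le.mp hn)
        refine ⟨j, by omega, (hBm j hjJ n).mpr ⟨⟨h1, ?_⟩, ?_, h3⟩⟩
        · rcases Nat.eq_zero_or_pos j with h0 | h0
          · rw [h0, pow_zero, div_one]; exact_mod_cast h2
          · have h4 := Nat.find_min hex (m := j - 1) (by omega)
            rw [not_lt] at h4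
            have h5 : j - 1 + 1 = j := by omega
            rw [h5] at h4
            exact h4
        · rw [div_div, ← pow_succ]
          exact hj
  have hdis : ∀ i ∈ Finset.range (J + 2), ∀ j ∈ Finset.range (J + 2), i ≠ j →
      Disjoint (B i) (B j) := by
    have key : ∀ i j, i < j → Disjoint (B i) (B j) ∨ J < i := by
      intro i j hij
      by_cases hi : J < i
      · exact Or.inr hi
      · left
        rw [not_lt] at hi
        rw [Finset.disjoint_left]
        intro n hn hn'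
        rw [hBm i hi] at hn
        have h1 : (n : ℝ) ≤ (N : ℝ) / 2 ^ (i + 1) := by
          rcases Nat.lt_or_ge J j with h | h
          · rw [hBl j h] at hn'
            refine hn'.1.2.trans ?_
            apply div_le_div_of_nonneg_left hNpos.le (by positivity)
            exact pow_le_pow_right₀ (by norm_num) (by omega)
          · rw [hBm j h] at hn'
            refine hn'.1.2.trans ?_
            apply div_le_div_of_nonneg_left hNpos.le (by positivity)
            exact pow_le_pow_right₀ (by norm_num) (by omega)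
        rw [pow_succ, ← div_div] at h1
        linarith [hn.2.1]
    intro i hi j hj hij
    rw [Finset.mem_range] at hi hj
    rcases Nat.lt_or_ge i j with h | h
    · rcases key i j h with h' | h'
      · exact h'
      · omega
    · rcases key j i (by omega) with h' | h'
      · exact h'.symm
      · omega
  have hBne : ∀ j ∈ Finset.range (J + 2), ∀ n ∈ B j, n ≠ 0 := by
    intro j _ n hn
    rcases Nat.lt_or_ge J j with h | h
    · rw [hBl j h] at hn; omega
    · rw [hBm j h] at hn; omega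
  have hwpos : ∀ j, 0 < w j := by
    intro j; rw [hw]; simp only; split_ifs <;> positivity
  have hE := energy_holder (k := k) (by omega) (Finset.range (J + 2)) B hBne hdis w hwpos
  rw [hBU] at hE
  -- sum of the weights
  have hwsum : ∑ j ∈ Finset.range (J + 2), w j ≤ 5 := by
    rw [Finset.sum_range_succ]
    have h1 : w (J + 1) = 1 := by rw [hw]; simp
    have h2 : ∑ j ∈ Finset.range (J + 1), w j = ∑ j ∈ Finset.range (J + 1), (3 / 4 : ℝ) ^ j := by
      apply Finset.sum_congr rfl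
      intro j hj
      rw [Finset.mem_range] at hj
      rw [hw]
      simp [show j ≤ J by omega]
    have h3 : ∑ j ∈ Finset.range (J + 1), (3 / 4 : ℝ) ^ j ≤ 4 := by
      rw [geom_sum_eq (by norm_num)]
      have : (0 : ℝ) < (3 / 4) ^ (J + 1) := by positivity
      rw [div_le_iff_of_neg (by norm_num)]
      linarith
    rw [h1, h2]; linarith
  have hw0 : 0 ≤ ∑ j ∈ Finset.range (J + 2), w j := Finset.sum_nonneg (fun j _ => (hwpos j).le)
  -- the blocks
  have hTj : ∀ j ≤ J, (TT k (B j) : ℝ) ≤ Cb * 2 ^ k * X ^ k * ((1 / 2 : ℝ) ^ j) ^ k := by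
    intro j hj
    have hM := hMj j hj
    have hBj : B j = blk ((N : ℝ) / 2 ^ j) (r + 1) := by rw [hB]; simp [hj]
    rw [hBj]
    refine (hblock _ r (hsq4.trans hM) (hp1 _ hM)).trans ?_
    have hlogM : Real.log N / 2 ≤ Real.log ((N : ℝ) / 2 ^ j) := by
      rw [← Real.log_sqrt hNpos.le]
      exact Real.log_le_log hsq0 hM
    have h1 : (N : ℝ) / 2 ^ j / Real.log ((N : ℝ) / 2 ^ j) * hh (pr ⌊(N : ℝ) / 2 ^ j⌋₊) r ≤
        2 * X * (1 / 2 : ℝ) ^ j := by
      have h2 : (N : ℝ) / 2 ^ j / Real.log ((N : ℝ) / 2 ^ j) ≤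
          (N : ℝ) / 2 ^ j / (Real.log N / 2) :=
        div_le_div_of_nonneg_left (by positivity) (by positivity) hlogM
      have h3 : hh (pr ⌊(N : ℝ) / 2 ^ j⌋₊) r ≤ hh (pr N) r := by
        apply hh_mono
        unfold pr
        apply Finset.filter_subset_filter
        apply Finset.Icc_subset_Icc le_rfl
        have h4 : (N : ℝ) / 2 ^ j ≤ N := div_le_self hNpos.le (one_le_pow₀ (by norm_num))
        exact (Nat.floor_le_floor h4).trans (by rw [Nat.floor_natCast])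
      have h5 : 0 ≤ hh (pr ⌊(N : ℝ) / 2 ^ j⌋₊) r := by
        unfold hh; exact Finset.sum_nonneg (fun _ _ => by positivity)
      have h6 : (N : ℝ) / 2 ^ j / (Real.log N / 2) * hh (pr N) r = 2 * X * (1 / 2 : ℝ) ^ j := by
        rw [hX, one_div, inv_pow]
        field_simp
      rw [← h6]
      exact mul_le_mul h2 h3 h5 (by positivity)
    have h0 : 0 ≤ (N : ℝ) / 2 ^ j / Real.log ((N : ℝ) / 2 ^ j) *
        hh (pr ⌊(N : ℝ) / 2 ^ j⌋₊) r := by
      have h5 : 0 ≤ hh (pr ⌊(N : ℝ) / 2 ^ j⌋₊) r := by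
        unfold hh; exact Finset.sum_nonneg (fun _ _ => by positivity)
      have h7 : 0 < Real.log ((N : ℝ) / 2 ^ j) := by linarith [half_pos hLpos]
      positivity
    calc Cb * ((N : ℝ) / 2 ^ j / Real.log ((N : ℝ) / 2 ^ j) * hh (pr ⌊(N : ℝ) / 2 ^ j⌋₊) r) ^ k
        ≤ Cb * (2 * X * (1 / 2 : ℝ) ^ j) ^ k :=
          mul_le_mul_of_nonneg_left (pow_le_pow_left₀ h0 h1 k) hCb.le
      _ = Cb * 2 ^ k * X ^ k * ((1 / 2 : ℝ) ^ j) ^ k := by rw [mul_pow, mul_pow]; ring
  -- the last piece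
  have hTl : (TT k (B (J + 1)) : ℝ) ≤ Real.sqrt N ^ (2 * k - 1) := by
    have h1 := TT_le k (by omega) (B (J + 1)) (hBne (J + 1) (by simp))
    have h2 : ((B (J + 1)).card : ℝ) ≤ Real.sqrt N := by
      have h3 : (B (J + 1)).card ≤ ⌊(N : ℝ) / 2 ^ (J + 1)⌋₊ := by
        have h4 : B (J + 1) ⊆ Finset.Icc 1 ⌊(N : ℝ) / 2 ^ (J + 1)⌋₊ := by
          rw [hB]; simp only [show ¬ (J + 1 ≤ J) by omega, if_false]
          exact Finset.filter_subset _ _
        have h5 := Finset.card_le_card h4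
        rw [Nat.card_Icc] at h5
        omega
      have h6 : ((B (J + 1)).card : ℝ) ≤ (⌊(N : ℝ) / 2 ^ (J + 1)⌋₊ : ℝ) := by exact_mod_cast h3
      exact h6.trans ((Nat.floor_le (by positivity)).trans hlast)
    have h7 : (TT k (B (J + 1)) : ℝ) ≤ ((B (J + 1)).card : ℝ) ^ (2 * k - 1) := by
      exact_mod_cast h1
    exact h7.trans (pow_le_pow_left₀ (Nat.cast_nonneg _) h2 _)
  -- the sum
  have hsum : ∑ j ∈ Finset.range (J + 2), (1 / w j) ^ (2 * k - 1) * (TT k (B j) : ℝ) ≤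
      9 * (Cb * 2 ^ k * X ^ k) + Real.sqrt N ^ (2 * k - 1) := by
    rw [Finset.sum_range_succ]
    have h1 : w (J + 1) = 1 := by rw [hw]; simp
    have h2 : ∀ j ∈ Finset.range (J + 1), (1 / w j) ^ (2 * k - 1) * (TT k (B j) : ℝ) ≤
        (Cb * 2 ^ k * X ^ k) * (8 / 9 : ℝ) ^ j := by
      intro j hj
      rw [Finset.mem_range] at hj
      have hjJ : j ≤ J := by omega
      have hwj : w j = (3 / 4 : ℝ) ^ j := by rw [hw]; simp [hjJ]
      rw [hwj]
      have h3 : (1 / (3 / 4 : ℝ) ^ j) ^ (2 * k - 1) ≤ ((16 / 9 : ℝ) ^ j) ^ k := by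
        have h4 : 1 / (3 / 4 : ℝ) ^ j = (4 / 3 : ℝ) ^ j := by
          rw [one_div, ← inv_pow]; norm_num
        rw [h4]
        have h5 : (16 / 9 : ℝ) ^ j = ((4 / 3 : ℝ) ^ j) ^ 2 := by
          rw [← pow_mul, mul_comm, pow_mul]; norm_num
        have h5b : (1 : ℝ) ≤ (4 / 3 : ℝ) ^ j := one_le_pow₀ (by norm_num)
        rw [h5, ← pow_mul ((4 / 3 : ℝ) ^ j) 2 k]
        exact pow_le_pow_right₀ h5b (by omega)
      have h6 : ((16 / 9 : ℝ) ^ j) ^ k * ((1 / 2 : ℝ) ^ j) ^ k ≤ (8 / 9 : ℝ) ^ j := by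
        rw [← mul_pow, ← mul_pow]
        have h7 : (16 / 9 : ℝ) * (1 / 2) = 8 / 9 := by norm_num
        rw [h7]
        have h8 : ((8 / 9 : ℝ) ^ j) ^ k ≤ ((8 / 9 : ℝ) ^ j) ^ 1 :=
          pow_le_pow_of_le_one (by positivity) (pow_le_one₀ (by norm_num) (by norm_num)) (by omega)
        rwa [pow_one] at h8
      have hC0 : 0 ≤ Cb * 2 ^ k * X ^ k := by positivity
      calc (1 / (3 / 4 : ℝ) ^ j) ^ (2 * k - 1) * (TT k (B j) : ℝ)
          ≤ ((16 / 9 : ℝ) ^ j) ^ k * (Cb * 2 ^ k * X ^ k * ((1 / 2 : ℝ) ^ j) ^ k) :=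
            mul_le_mul h3 (hTj j hjJ) (Nat.cast_nonneg _) (by positivity)
        _ = (Cb * 2 ^ k * X ^ k) * (((16 / 9 : ℝ) ^ j) ^ k * ((1 / 2 : ℝ) ^ j) ^ k) := by ring
        _ ≤ (Cb * 2 ^ k * X ^ k) * (8 / 9 : ℝ) ^ j := mul_le_mul_of_nonneg_left h6 hC0
    have h9 := Finset.sum_le_sum h2
    rw [← Finset.mul_sum] at h9
    have h10 : ∑ j ∈ Finset.range (J + 1), (8 / 9 : ℝ) ^ j ≤ 9 := by
      rw [geom_sum_eq (by norm_num)]
      have : (0 : ℝ) < (8 / 9) ^ (J + 1) := by positivity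
      rw [div_le_iff_of_neg (by norm_num)]
      linarith
    have hC0 : 0 ≤ Cb * 2 ^ k * X ^ k := by positivity
    have h11 := mul_le_mul_of_nonneg_left h10 hC0
    rw [h1, div_one, one_pow, one_mul]
    linarith
  -- comparison of the last piece with `X`
  have hsqX : Real.sqrt N ^ (2 * k - 1) ≤ X ^ k := by
    have h1 : Real.log N ^ k ≤ Real.sqrt N := by
      apply Real.le_sqrt_of_sq_le
      rw [← pow_mul, mul_comm]
      exact hlk
    have h2 : Real.sqrt N ^ (2 * k - 1) * Real.sqrt N = (N : ℝ) ^ k := by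
      rw [← pow_succ, show 2 * k - 1 + 1 = 2 * k by omega, pow_mul, Real.sq_sqrt hNpos.le]
    have h3 : Real.sqrt N ^ (2 * k - 1) ≤ (N / Real.log N) ^ k := by
      rw [div_pow, le_div_iff₀ (by positivity), ← h2]
      exact mul_le_mul_of_nonneg_left h1 (by positivity)
    exact h3.trans (pow_le_pow_left₀ (by positivity) hX1 k)
  -- conclusion
  have hfin : (TT k (AA N (r + 1)) : ℝ) ≤ 5 ^ (2 * k - 1) * ((9 * Cb * 2 ^ k + 1) * X ^ k) := by
    refine hE.trans ?_
    apply mul_le_mul (pow_le_pow_left₀ hw0 hwsum _) _ _ (by positivity)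
    · refine hsum.trans ?_
      have : (9 * Cb * 2 ^ k + 1) * X ^ k = 9 * (Cb * 2 ^ k * X ^ k) + X ^ k := by ring
      rw [this]
      linarith
    · apply Finset.sum_nonneg
      intro j _
      have := hwpos j
      positivity
  have hXc : X ^ k ≤ ((AA N (r + 1)).card : ℝ) ^ k / c ^ k := by
    rw [le_div_iff₀ (by positivity), ← mul_pow]
    apply pow_le_pow_left₀ (by positivity)
    linarith
  calc (TT k (AA N (r + 1)) : ℝ) ≤ 5 ^ (2 * k - 1) * ((9 * Cb * 2 ^ k + 1) * X ^ k) := hfin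
    _ ≤ 5 ^ (2 * k - 1) * ((9 * Cb * 2 ^ k + 1) *
        (((AA N (r + 1)).card : ℝ) ^ k / c ^ k)) := by
        apply mul_le_mul_of_nonneg_left _ (by positivity)
        exact mul_le_mul_of_nonneg_left hXc (by positivity)
    _ = 5 ^ (2 * k - 1) * (9 * Cb * 2 ^ k + 1) / c ^ k * ((AA N (r + 1)).card : ℝ) ^ k := by
        ring

end Pool.Agent.Helper256.KM
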