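import Mathlib
import Pool.Agent.Helper256.KM.Defs

set_option autoImplicit false

namespace Pool.Agent.Helper256.KM

open Finset ArithmeticFunction

theorem nm_sp_mul (P : Finset ℕ) {a b : ℕ} (ha : a ≠ 0) (hb : b ≠ 0) :
    sp P (a * b) = sp P a * sp P b := by
  unfold sp
  rw [← Finset.prod_mul_distrib]
  refine Finset.prod_congr rfl fun p _ => ?_
  rw [Nat.factorization_mul ha hb, Finsupp.add_apply, pow_add]

theorem nm_sp_ne (P : Finset ℕ) (hP : ∀ p ∈ P, p.Prime) (n : ℕ) : sp P n ≠ 0 := by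
  unfold sp
  exact Finset.prod_ne_zero_iff.2 fun p hp => pow_ne_zero _ (hP p hp).ne_zero

theorem nm_sp_fact (P : Finset ℕ) (hP : ∀ p ∈ P, p.Prime) (n q : ℕ) :
    (sp P n).factorization q = if q ∈ P then n.factorization q else 0 := by
  unfold sp
  rw [Nat.factorization_prod (fun p hp => pow_ne_zero _ (hP p hp).ne_zero), Finsupp.finsetSum_apply]
  have h1 : ∀ p ∈ P, (p ^ (n.factorization p)).factorization q = if p = q then n.factorization q else 0 := by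
    intro p hp
    rw [(hP p hp).factorization_pow, Finsupp.single_apply]
    split_ifs with h
    · rw [h]
    · rfl
  rw [Finset.sum_congr rfl h1, Finset.sum_ite_eq' P q]

theorem nm_sp_self (P : Finset ℕ) (hP : ∀ p ∈ P, p.Prime) {s : ℕ} (hs : s ∈ Nat.factoredNumbers P) :
    sp P s = s := by
  apply Nat.eq_of_factorization_eq (nm_sp_ne P hP s) (Nat.ne_zero_of_mem_factoredNumbers hs)
  intro q
  rw [nm_sp_fact P hP]
  split_ifs with h
  · rfl
  · symm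
    by_contra hne
    have h1 : q ∈ s.primeFactors := by
      rw [← Nat.support_factorization, Finsupp.mem_support_iff]
      exact hne
    exact h (Nat.primeFactors_subset_of_mem_factoredNumbers hs h1)

theorem nm_sp_one (P : Finset ℕ) {l : ℕ} (hl : ∀ p ∈ P, ¬ p ∣ l) : sp P l = 1 := by
  unfold sp
  refine Finset.prod_eq_one fun p hp => ?_
  rw [Nat.factorization_eq_zero_of_not_dvd (hl p hp), pow_zero]

theorem numer (k : ℕ) (P : Finset ℕ) (hP : ∀ p ∈ P, p.Prime) (N m : ℕ) (Y : ℝ) :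
    ∑ s ∈ (Finset.Icc 1 ⌊Y⌋₊).filter (fun s => s ∈ Nat.factoredNumbers P ∧ cardFactors s ≤ m),
      (k : ℝ) ^ (cardFactors s) * ((RR P (m - cardFactors s) ((N : ℝ) / s)).card : ℝ) ≤
    ∑ n ∈ (AA N m).filter (fun n => (sp P n : ℝ) ≤ Y), (k : ℝ) ^ (cardFactors (sp P n)) := by
  classical
  set S := (Finset.Icc 1 ⌊Y⌋₊).filter (fun s => s ∈ Nat.factoredNumbers P ∧ cardFactors s ≤ m)
    with hS
  have hSm : ∀ s, s ∈ S ↔ ((1 ≤ s ∧ s ≤ ⌊Y⌋₊) ∧ (s ∈ Nat.factoredNumbers P ∧ cardFactors s ≤ m)) := by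
    intro s
    rw [hS, Finset.mem_filter, Finset.mem_Icc]
  have hRm : ∀ s l, l ∈ RR P (m - cardFactors s) ((N : ℝ) / s) ↔
      ((1 ≤ l ∧ l ≤ ⌊(N : ℝ) / s⌋₊) ∧ (cardFactors l = m - cardFactors s ∧ ∀ p ∈ P, ¬ p ∣ l)) := by
    intro s l
    rw [RR, Finset.mem_filter, Finset.mem_Icc]
  have e1 : ∀ s ∈ S, (k : ℝ) ^ (cardFactors s) * ((RR P (m - cardFactors s) ((N : ℝ) / s)).card : ℝ) =
      ∑ _l ∈ RR P (m - cardFactors s) ((N : ℝ) / s), (k : ℝ) ^ (cardFactors s) := by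
    intro s _
    rw [Finset.sum_const, nsmul_eq_mul, mul_comm]
  rw [Finset.sum_congr rfl e1, Finset.sum_sigma']
  set T := S.sigma (fun s => RR P (m - cardFactors s) ((N : ℝ) / s)) with hT
  have hTm : ∀ x ∈ T, x.1 ≠ 0 ∧ x.2 ≠ 0 ∧ sp P (x.1 * x.2) = x.1 ∧
      x.1 * x.2 ∈ (AA N m).filter (fun n => (sp P n : ℝ) ≤ Y) := by
    rintro ⟨s, l⟩ hx
    rw [hT, Finset.mem_sigma] at hx
    obtain ⟨hs, hl⟩ := hx
    obtain ⟨⟨hs1, hs2⟩, hs3, hs4⟩ := (hSm s).1 hs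
    obtain ⟨⟨hl1, hl2⟩, hl3, hl4⟩ := (hRm s l).1 hl
    have hs0 : s ≠ 0 := by omega
    have hl0 : l ≠ 0 := by omega
    have hsp : sp P (s * l) = s := by
      rw [nm_sp_mul P hs0 hl0, nm_sp_self P hP hs3, nm_sp_one P hl4, mul_one]
    refine ⟨hs0, hl0, hsp, ?_⟩
    show s * l ∈ _
    rw [Finset.mem_filter, AA, Finset.mem_filter, Finset.mem_Icc, hsp]
    refine ⟨⟨⟨Nat.one_le_iff_ne_zero.2 (mul_ne_zero hs0 hl0), ?_⟩, ?_⟩, ?_⟩
    · have h1 : (l : ℝ) ≤ (N : ℝ) / s := (Nat.le_floor_iff' hl0).1 hl2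
      have hsp0 : (0 : ℝ) < s := by exact_mod_cast (by omega : 0 < s)
      rw [le_div_iff₀ hsp0] at h1
      have h2 : l * s ≤ N := by exact_mod_cast h1
      rwa [mul_comm] at h2
    · rw [cardFactors_mul hs0 hl0, hl3]
      omega
    · exact (Nat.le_floor_iff' hs0).1 hs2
  have e2 : ∑ x ∈ T, (k : ℝ) ^ (cardFactors x.1) =
      ∑ x ∈ T, (k : ℝ) ^ (cardFactors (sp P (x.1 * x.2))) := by
    refine Finset.sum_congr rfl fun x hx => ?_
    rw [(hTm x hx).2.2.1]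
  rw [e2]
  have hinj : Set.InjOn (fun x : (_ : ℕ) × ℕ => x.1 * x.2) (T : Set ((_ : ℕ) × ℕ)) := by
    rintro ⟨s, l⟩ hx ⟨s', l'⟩ hx' h
    have h1 := hTm _ (Finset.mem_coe.1 hx)
    have h2 := hTm _ (Finset.mem_coe.1 hx')
    have h3 : s * l = s' * l' := h
    have h1' : sp P (s * l) = s := h1.2.2.1
    have h2' : sp P (s' * l') = s' := h2.2.2.1
    have h4 : s = s' := by
      rw [← h1', ← h2', h3]
    subst h4
    have h5 : l = l' := Nat.eq_of_mul_eq_mul_left (Nat.pos_of_ne_zero h1.1) h3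
    subst h5
    rfl
  have e3 : ∑ x ∈ T, (k : ℝ) ^ (cardFactors (sp P (x.1 * x.2))) =
      ∑ n ∈ T.image (fun x => x.1 * x.2), (k : ℝ) ^ (cardFactors (sp P n)) := by
    rw [Finset.sum_image hinj]
  rw [e3]
  apply Finset.sum_le_sum_of_subset_of_nonneg
  · intro n hn
    rw [Finset.mem_image] at hn
    obtain ⟨x, hx, rfl⟩ := hn
    exact (hTm x hx).2.2.2
  · intro n _ _
    positivity

theorem sp_mul (P : Finset ℕ) {a b : ℕ} (ha : a ≠ 0) (hb : b ≠ 0) :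
    sp P (a * b) = sp P a * sp P b := nm_sp_mul P ha hb

theorem sp_factored (P : Finset ℕ) (hP : ∀ p ∈ P, p.Prime) (n : ℕ) :
    sp P n ∈ Nat.factoredNumbers P := by
  rw [Nat.mem_factoredNumbers']
  intro q hq hdvd
  have h1 := hq.factorization_pos_of_dvd (nm_sp_ne P hP n) hdvd
  rw [nm_sp_fact P hP] at h1
  by_contra h
  rw [if_neg h] at h1
  exact lt_irrefl _ h1

theorem sp_dvd (P : Finset ℕ) (hP : ∀ p ∈ P, p.Prime) {n : ℕ} (hn : n ≠ 0) : sp P n ∣ n := by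
  rw [← Nat.factorization_le_iff_dvd (nm_sp_ne P hP n) hn]
  intro q
  rw [nm_sp_fact P hP]
  split_ifs
  · exact le_rfl
  · exact Nat.zero_le _

theorem div_sp_mem (P : Finset ℕ) (hP : ∀ p ∈ P, p.Prime) {n : ℕ} (hn : n ≠ 0) :
    cardFactors (n / sp P n) + cardFactors (sp P n) = cardFactors n ∧
      ∀ p ∈ P, ¬ p ∣ n / sp P n := by
  have hd := sp_dvd P hP hn
  have h0 := nm_sp_ne P hP n
  have hq0 : n / sp P n ≠ 0 := by
    intro h
    rcases Nat.div_eq_zero_iff.1 h with h1 | h1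
    · exact h0 h1
    · exact absurd (Nat.le_of_dvd (Nat.pos_of_ne_zero hn) hd) (not_le.2 h1)
  constructor
  · rw [← cardFactors_mul hq0 h0, Nat.div_mul_cancel hd]
  · intro p hp hdvd
    have h1 := (hP p hp).factorization_pos_of_dvd hq0 hdvd
    rw [Nat.factorization_div hd, Finsupp.tsub_apply, nm_sp_fact P hP, if_pos hp] at h1
    omega

end Pool.Agent.Helper256.KM

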