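import Mathlib
import Pool.Agent.Helper256.KM.Defs
import Pool.Agent.Helper256.KM.A3
import Pool.Agent.Helper256.KM.Mertens

set_option autoImplicit false

namespace Pool.Agent.Helper256.KM

open Finset ArithmeticFunction

theorem ratio_aux {r q a a₀ : ℝ} (ha : 0 ≤ a) (haa : a ≤ a₀) (hr : 2 * a₀ * (a₀ + 1) + a₀ + 1 ≤ r)
    (hq : r ≤ q) (n : ℕ) (hn : (n : ℝ) = a) :
    (1 / 2) * (r / q) ^ n ≤ ((r - a) / (q + 1)) ^ n := by
  have ha0 : 0 ≤ a₀ := ha.trans haa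
  have hr1 : 1 ≤ r := by nlinarith
  have hrp : 0 < r := by linarith
  have hqp : 0 < q := by linarith
  have hra : a ≤ r := by nlinarith
  have e : (r - a) / (q + 1) = ((r - a) * q / (r * (q + 1))) * (r / q) := by
    field_simp
  rw [e, mul_pow]
  refine mul_le_mul_of_nonneg_right ?_ (pow_nonneg (div_nonneg hrp.le hqp.le) _)
  obtain ⟨x, hx⟩ : ∃ x : ℝ, x = (r - a) * q / (r * (q + 1)) := ⟨_, rfl⟩
  rw [← hx]
  have hx0 : 0 ≤ x := by
    rw [hx]
    exact div_nonneg (mul_nonneg (by linarith) hqp.le) (by positivity)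
  have hx1 : 1 - (a₀ + 1) / r ≤ x := by
    have h1 : 1 - (a₀ + 1) / r = (r - (a₀ + 1)) * (q + 1) / (r * (q + 1)) := by
      field_simp
    rw [h1, hx]
    refine div_le_div_of_nonneg_right ?_ (by positivity)
    nlinarith
  have hb : 1 + (n : ℝ) * (x - 1) ≤ x ^ n := by
    have := one_add_mul_le_pow (a := x - 1) (by linarith) n
    simpa using this
  refine le_trans ?_ hb
  rw [hn]
  have h3 : a * (1 - x) ≤ a * ((a₀ + 1) / r) := mul_le_mul_of_nonneg_left (by linarith) ha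
  have h4 : a * ((a₀ + 1) / r) ≤ a₀ * ((a₀ + 1) / r) :=
    mul_le_mul_of_nonneg_right haa (by positivity)
  have h2 : a₀ * ((a₀ + 1) / r) ≤ 1 / 2 := by
    rw [← mul_div_assoc, div_le_iff₀ hrp]
    nlinarith
  nlinarith

theorem ratio_lower (P : Finset ℕ) (α : ℝ) (hα : 0 < α) (a₀ : ℕ) : ∃ N₀ : ℕ, ∀ N : ℕ, N₀ ≤ N →
    ∀ r : ℕ, α * Real.log (Real.log N) ≤ r → (r : ℝ) ≤ p1 (pr N \ P) → ∀ a : ℕ, a ≤ a₀ → a ≤ r ∧
    (1 / 2) * ((r : ℝ) / p1 (pr N \ P)) ^ a * hh (pr N \ P) r ≤ hh (pr N \ P) (r - a) := by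
  obtain ⟨R, hR⟩ : ∃ R : ℝ, R = 2 * (a₀ : ℝ) * (a₀ + 1) + a₀ + 1 := ⟨_, rfl⟩
  refine ⟨⌈Real.exp (Real.exp (R / α))⌉₊, fun N hN r hr hrq a ha => ?_⟩
  have hN1 : Real.exp (Real.exp (R / α)) ≤ N := (Nat.le_ceil _).trans (by exact_mod_cast hN)
  have hNpos : (0 : ℝ) < N := (Real.exp_pos _).trans_le hN1
  have h1 : Real.exp (R / α) ≤ Real.log N := (Real.le_log_iff_exp_le hNpos).mpr hN1
  have h2 : R / α ≤ Real.log (Real.log N) :=
    (Real.le_log_iff_exp_le ((Real.exp_pos _).trans_le h1)).mpr h1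
  have h3 : R ≤ r := by
    have : R ≤ α * Real.log (Real.log N) := by
      rw [div_le_iff₀ hα] at h2
      linarith
    exact this.trans hr
  have haR : (a : ℝ) ≤ a₀ := by exact_mod_cast ha
  have ha0 : (0 : ℝ) ≤ a₀ := Nat.cast_nonneg _
  have har : a ≤ r := by
    have : (a : ℝ) ≤ r := by nlinarith
    exact_mod_cast this
  refine ⟨har, ?_⟩
  have hQ : ∀ p ∈ pr N \ P, p.Prime := by
    intro p hp
    exact (Finset.mem_filter.mp (Finset.mem_sdiff.mp hp).1).2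
  have hh0 : 0 ≤ hh (pr N \ P) r :=
    Finset.sum_nonneg fun n _ => div_nonneg zero_le_one (Nat.cast_nonneg _)
  refine le_trans (mul_le_mul_of_nonneg_right ?_ hh0) (h2_shift hQ hrq har)
  exact ratio_aux (Nat.cast_nonneg a) haR (by rw [← hR]; exact h3) hrq a rfl

end Pool.Agent.Helper256.KM
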