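import Mathlib
import Pool.Agent.Helper256.KM.Defs
import Pool.Agent.Helper256.KM.A1
import Pool.Agent.Helper256.KM.CS
import Pool.Agent.Helper256.KM.DN
import Pool.Agent.Helper256.KM.NM
import Pool.Agent.Helper256.KM.E1
import Pool.Agent.Helper256.KM.B1
import Pool.Agent.Helper256.KM.B2
import Pool.Agent.Helper256.KM.CU
import Pool.Agent.Helper256.KM.RL
import Pool.Agent.Helper256.KM.CE
import Pool.Agent.Helper256.KM.Mertens

set_option autoImplicit false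

namespace Pool.Agent.Helper256.KM

open Finset ArithmeticFunction

/-! auxiliary lemmas -/

theorem aux_pow_bound (k : ℕ) {η : ℝ} (hη : 0 < η) :
    ∃ C : ℝ, 0 < C ∧ ∀ a : ℕ, ((a : ℝ) + 1) ^ k ≤ C * (1 + η) ^ a := by
  have ht := tendsto_pow_const_div_const_pow_of_one_lt k (r := 1 + η) (by linarith)
  obtain ⟨C, hC⟩ := ht.bddAbove_range
  have hC' : ∀ n : ℕ, (n : ℝ) ^ k ≤ C * (1 + η) ^ n := by
    intro n
    have := hC ⟨n, rfl⟩
    rwa [div_le_iff₀ (by positivity)] at this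
  have hCpos : 0 < C := by
    have := hC' 1
    have h1 : (0 : ℝ) < C * (1 + η) ^ 1 := lt_of_lt_of_le (by positivity) this
    exact pos_of_mul_pos_left h1 (by positivity)
  refine ⟨C * (1 + η), by positivity, fun a => ?_⟩
  have := hC' (a + 1)
  push_cast at this
  rw [pow_succ (1 + η) a] at this
  linarith

theorem aux_two_pow {n : ℕ} (hn : n ≠ 0) : 2 ^ cardFactors n ≤ n := by
  have h1 : cardFactors n = n.primeFactorsList.length := cardFactors_apply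
  have h2 := List.pow_card_le_prod n.primeFactorsList 2
    (fun p hp => (Nat.prime_of_mem_primeFactorsList hp).two_le)
  rw [Nat.prod_primeFactorsList hn] at h2
  rw [h1]
  exact h2

theorem aux_sp_ne {P : Finset ℕ} (hP : ∀ p ∈ P, p.Prime) (n : ℕ) : sp P n ≠ 0 :=
  Finset.prod_ne_zero_iff.2 fun p hp => pow_ne_zero _ (hP p hp).ne_zero

theorem aux_TT_mono (k : ℕ) {A B : Finset ℕ} (h : A ⊆ B) : TT k A ≤ TT k B := by
  refine Finset.card_le_card ?_
  refine Finset.filter_subset_filter _ ?_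
  exact Finset.product_subset_product (Fintype.piFinset_subset _ _ fun _ => h)
    (Fintype.piFinset_subset _ _ fun _ => h)

theorem aux_count {P : Finset ℕ} (hP : ∀ p ∈ P, p.Prime) {N m r : ℕ} (hm : m = r + 1) {Y : ℝ}
    (hN : 1 ≤ N) (hYN : Y * Real.sqrt N ≤ N) (ha : ∀ a : ℕ, (2 : ℝ) ^ a ≤ Y → a ≤ r)
    {lam : ℝ} (hlam : 0 ≤ lam) (hr : (r : ℝ) ≤ lam * p1 (pr N \ P)) {C1 : ℝ} (hC1 : 0 < C1)
    (H1 : ∀ (r' : ℕ) (x : ℝ), Real.sqrt N ≤ x → x ≤ N → (r' : ℝ) ≤ lam * p1 (pr N \ P) →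
      ((RR P (r' + 1) x).card : ℝ) ≤ C1 * (x / Real.log N) * hh (pr N \ P) r') (d a : ℕ) :
    ((((((AA N m).filter (fun n => (sp P n : ℝ) ≤ Y)).filter
      (fun n => lab P n = (d, a))).image (fun n => n / sp P n)).card : ℕ) : ℝ) ≤
      C1 * (N / Real.log N * hh (pr N \ P) r) * lam ^ a * Real.exp (-(d : ℝ)) := by
  have hlogN : 0 ≤ Real.log N := Real.log_natCast_nonneg N
  have hhnn : ∀ s : ℕ, 0 ≤ hh (pr N \ P) s := fun s =>
    Finset.sum_nonneg fun n _ => by positivity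
  have hN0 : (0 : ℝ) < N := by exact_mod_cast hN
  rcases Finset.eq_empty_or_nonempty (((AA N m).filter (fun n => (sp P n : ℝ) ≤ Y)).filter
      (fun n => lab P n = (d, a))) with he | ⟨n0, hn0⟩
  · rw [he]
    simp only [image_empty, card_empty, Nat.cast_zero]
    have := hhnn r
    positivity
  · -- facts on n0
    have hsp1 : ∀ n, (1 : ℝ) ≤ sp P n := fun n => by
      exact_mod_cast Nat.one_le_iff_ne_zero.2 (aux_sp_ne hP n)
    have hfact : ∀ n ∈ (((AA N m).filter (fun n => (sp P n : ℝ) ≤ Y)).filter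
      (fun n => lab P n = (d, a))), 1 ≤ n ∧ n ≤ N ∧ cardFactors n = m ∧ (sp P n : ℝ) ≤ Y ∧
        Real.exp d ≤ sp P n ∧ cardFactors (sp P n) = a := by
      intro n hn
      simp only [AA, mem_filter, mem_Icc, lab, Prod.mk.injEq] at hn
      obtain ⟨⟨⟨⟨h1, h2⟩, h3⟩, h4⟩, h5, h6⟩ := hn
      refine ⟨h1, h2, h3, h4, ?_, h6⟩
      have h7 : (d : ℝ) ≤ Real.log (sp P n) := by
        rw [← h5]
        exact Nat.floor_le (Real.log_nonneg (hsp1 n))
      calc Real.exp d ≤ Real.exp (Real.log (sp P n)) := Real.exp_le_exp.2 h7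
        _ = sp P n := Real.exp_log (by linarith [hsp1 n])
    obtain ⟨g1, g2, g3, g4, g5, g6⟩ := hfact n0 hn0
    have har : a ≤ r := by
      apply ha
      have h1 := aux_two_pow (aux_sp_ne hP n0)
      rw [g6] at h1
      have h2 : ((2 ^ a : ℕ) : ℝ) ≤ (sp P n0 : ℝ) := by exact_mod_cast h1
      push_cast at h2
      linarith
    have hed : Real.exp d ≤ Y := g5.trans g4
    set x : ℝ := N * Real.exp (-(d : ℝ)) with hx
    have hx1 : Real.sqrt N ≤ x := by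
      rw [hx, Real.exp_neg, ← div_eq_mul_inv, le_div_iff₀ (Real.exp_pos _)]
      calc Real.sqrt N * Real.exp d ≤ Real.sqrt N * Y :=
            mul_le_mul_of_nonneg_left hed (Real.sqrt_nonneg _)
        _ = Y * Real.sqrt N := mul_comm _ _
        _ ≤ N := hYN
    have hx2 : x ≤ N := by
      rw [hx]
      have : Real.exp (-(d : ℝ)) ≤ 1 := Real.exp_le_one_iff.2 (by simp)
      nlinarith
    have hsub : ((((AA N m).filter (fun n => (sp P n : ℝ) ≤ Y)).filter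
      (fun n => lab P n = (d, a))).image (fun n => n / sp P n)) ⊆ RR P (r - a + 1) x := by
      intro l hl
      obtain ⟨n, hn, rfl⟩ := mem_image.1 hl
      obtain ⟨f1, f2, f3, f4, f5, f6⟩ := hfact n hn
      have hn0' : n ≠ 0 := by omega
      have hdv := sp_dvd P hP hn0'
      have hds := div_sp_mem P hP hn0'
      have hspp : 0 < sp P n := Nat.pos_of_ne_zero (aux_sp_ne hP n)
      have hpos : 0 < n / sp P n := Nat.div_pos (Nat.le_of_dvd (by omega) hdv) hspp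
      simp only [RR, mem_filter, mem_Icc]
      refine ⟨⟨hpos, Nat.le_floor ?_⟩, ?_, hds.2⟩
      · have h1 : ((n / sp P n : ℕ) : ℝ) ≤ (n : ℝ) / sp P n := Nat.cast_div_le
        have h2 : (n : ℝ) / sp P n ≤ N / Real.exp d := by
          apply div_le_div₀ hN0.le (by exact_mod_cast f2) (Real.exp_pos _) f5
        rw [hx, Real.exp_neg, ← div_eq_mul_inv]
        exact h1.trans h2
      · have := hds.1
        rw [f6, f3] at this
        omega
    have hra : ((r - a : ℕ) : ℝ) ≤ lam * p1 (pr N \ P) := by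
      refine le_trans ?_ hr
      exact_mod_cast Nat.sub_le r a
    have h1 := H1 (r - a) x hx1 hx2 hra
    have hQ : ∀ p ∈ pr N \ P, p.Prime := by
      intro p hp
      exact (mem_filter.1 (mem_sdiff.1 hp).1).2
    have h2 := hh_shift hQ hlam hr har
    calc _ ≤ ((RR P (r - a + 1) x).card : ℝ) := by exact_mod_cast card_le_card hsub
      _ ≤ C1 * (x / Real.log N) * hh (pr N \ P) (r - a) := h1
      _ ≤ C1 * (x / Real.log N) * (lam ^ a * hh (pr N \ P) r) := by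
        apply mul_le_mul_of_nonneg_left h2
        have : 0 ≤ x := (Real.sqrt_nonneg _).trans hx1
        positivity
      _ = _ := by
        rw [hx]
        ring

theorem aux_den {k : ℕ} (hk : 1 ≤ k) {P : Finset ℕ} (hP : ∀ p ∈ P, p.Prime) {N m r : ℕ}
    (hm : m = r + 1) {Y : ℝ} (hY1 : 1 ≤ Y)
    (hN : 1 ≤ N) (hYN : Y * Real.sqrt N ≤ N) (ha : ∀ a : ℕ, (2 : ℝ) ^ a ≤ Y → a ≤ r)
    {lam : ℝ} (hlam : 0 ≤ lam) (hr : (r : ℝ) ≤ lam * p1 (pr N \ P)) {C1 : ℝ} (hC1 : 0 < C1)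
    (H1 : ∀ (r' : ℕ) (x : ℝ), Real.sqrt N ≤ x → x ≤ N → (r' : ℝ) ≤ lam * p1 (pr N \ P) →
      ((RR P (r' + 1) x).card : ℝ) ≤ C1 * (x / Real.log N) * hh (pr N \ P) r')
    {η Cη S : ℝ} (hCη : 0 < Cη)
    (hη : ∀ a : ℕ, ((a : ℝ) + 1) ^ k ≤ Cη * (1 + η) ^ a)
    (hS : ∀ Z : ℕ, ∑ s ∈ (Finset.Icc 1 Z).filter (fun s => s ∈ Nat.factoredNumbers P),
      ((k : ℝ) ^ 2 * lam * (1 + η)) ^ (cardFactors s) / (s : ℝ) ≤ S) :
    ∑ L ∈ Fintype.piFinset
        (fun _ : Fin k => ((AA N m).filter (fun n => (sp P n : ℝ) ≤ Y)).image (lab P)),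
        ∑ x ∈ (Fintype.piFinset (fun i =>
          ((AA N m).filter (fun n => (sp P n : ℝ) ≤ Y)).filter (fun n => lab P n = L i))).image
          (fun n => ∏ i, n i), ((k : ℝ) ^ (cardFactors (sp P x))) ^ 2 ≤
      (C1 * (N / Real.log N * hh (pr N \ P) r)) ^ k *
        (k * Real.exp k * (Real.log Y + 1) ^ (k - 1)) * (Cη * S) := by
  have hlogN : 0 ≤ Real.log N := Real.log_natCast_nonneg N
  have hhnn : 0 ≤ hh (pr N \ P) r := Finset.sum_nonneg fun n _ => by positivity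
  have hA : ∀ n ∈ (AA N m).filter (fun n => (sp P n : ℝ) ≤ Y), n ≠ 0 := by
    intro n hn
    simp only [AA, mem_filter, mem_Icc] at hn
    omega
  have h1 := denom k hk P hP ((AA N m).filter (fun n => (sp P n : ℝ) ≤ Y)) hA Y hY1
    (fun n hn => (mem_filter.1 hn).2) (C1 * (N / Real.log N * hh (pr N \ P) r)) lam
    (by positivity) hlam (fun d a => aux_count hP hm hN hYN ha hlam hr hC1 H1 d a)
  refine h1.trans ?_
  have hlogY : 0 ≤ Real.log Y := Real.log_nonneg hY1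
  apply mul_le_mul_of_nonneg_left _ (by positivity)
  refine le_trans ?_ (mul_le_mul_of_nonneg_left (hS ⌊(Real.exp 1 * Y) ^ k⌋₊) hCη.le)
  rw [Finset.mul_sum]
  refine Finset.sum_le_sum fun s hs => ?_
  have hs0 : (0 : ℝ) ≤ s := Nat.cast_nonneg s
  rw [mul_div_assoc', ]
  apply div_le_div_of_nonneg_right _ hs0
  rw [mul_pow _ (1 + η)]
  calc ((k : ℝ) ^ 2 * lam) ^ (cardFactors s) * ((cardFactors s : ℝ) + 1) ^ k
      ≤ ((k : ℝ) ^ 2 * lam) ^ (cardFactors s) * (Cη * (1 + η) ^ (cardFactors s)) :=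
        mul_le_mul_of_nonneg_left (hη _) (by positivity)
    _ = _ := by ring

theorem aux_num {k : ℕ} {P : Finset ℕ} (hP : ∀ p ∈ P, p.Prime) {N m r : ℕ}
    (hm : m = r + 1) {Y : ℝ} (hY1 : 1 ≤ Y) (hN : 1 ≤ N)
    {a0 : ℕ} (ha : ∀ a : ℕ, (2 : ℝ) ^ a ≤ Y → a ≤ a0)
    {lam : ℝ} {c1 : ℝ} (hc1 : 0 < c1)
    (H2 : ∀ (a : ℕ) (x : ℝ), a ≤ a0 → (N : ℝ) / Y ≤ x → x ≤ N →
      c1 * (x / Real.log N) * hh (pr N \ P) (r - a) ≤ ((RR P (r - a + 1) x).card : ℝ))
    (H8 : ∀ a : ℕ, a ≤ a0 → a ≤ r ∧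
      (1 / 2) * lam ^ a * hh (pr N \ P) r ≤ hh (pr N \ P) (r - a))
    {S : ℝ}
    (hS : S ≤ ∑ s ∈ (Finset.Icc 1 ⌊Y⌋₊).filter (fun s => s ∈ Nat.factoredNumbers P),
      ((k : ℝ) * lam) ^ (cardFactors s) / (s : ℝ)) :
    c1 / 2 * (N / Real.log N * hh (pr N \ P) r) * S ≤
      ∑ n ∈ (AA N m).filter (fun n => (sp P n : ℝ) ≤ Y), (k : ℝ) ^ (cardFactors (sp P n)) := by
  have hlogN : 0 ≤ Real.log N := Real.log_natCast_nonneg N
  have hhnn : 0 ≤ hh (pr N \ P) r := Finset.sum_nonneg fun n _ => by positivity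
  have hN0 : (0 : ℝ) < N := by exact_mod_cast hN
  refine le_trans ?_ (numer k P hP N m Y)
  refine le_trans (mul_le_mul_of_nonneg_left hS (by positivity)) ?_
  rw [Finset.mul_sum]
  have hfacts : ∀ s ∈ (Finset.Icc 1 ⌊Y⌋₊).filter (fun s => s ∈ Nat.factoredNumbers P),
      1 ≤ s ∧ (s : ℝ) ≤ Y ∧ cardFactors s ≤ a0 ∧ s ∈ Nat.factoredNumbers P := by
    intro s hs
    obtain ⟨hs1, hs2⟩ := mem_filter.1 hs
    obtain ⟨hs3, hs4⟩ := mem_Icc.1 hs1
    have hsY : (s : ℝ) ≤ Y := (Nat.le_floor_iff (by linarith)).1 hs4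
    refine ⟨hs3, hsY, ?_, hs2⟩
    apply ha
    have h1 := aux_two_pow (n := s) (by omega)
    have h2 : ((2 ^ cardFactors s : ℕ) : ℝ) ≤ (s : ℝ) := by exact_mod_cast h1
    push_cast at h2
    linarith
  have hsub : (Finset.Icc 1 ⌊Y⌋₊).filter (fun s => s ∈ Nat.factoredNumbers P) ⊆
      (Finset.Icc 1 ⌊Y⌋₊).filter (fun s => s ∈ Nat.factoredNumbers P ∧ cardFactors s ≤ m) := by
    intro s hs
    obtain ⟨h1, h2, h3, h4⟩ := hfacts s hs
    refine mem_filter.2 ⟨(mem_filter.1 hs).1, h4, ?_⟩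
    have := (H8 _ h3).1
    omega
  refine le_trans (Finset.sum_le_sum fun s hs => ?_)
    (Finset.sum_le_sum_of_subset_of_nonneg hsub fun s _ _ => by positivity)
  obtain ⟨h1, h2, h3, h4⟩ := hfacts s hs
  have hs0 : (0 : ℝ) < s := by exact_mod_cast h1
  obtain ⟨h5, h6⟩ := H8 _ h3
  have h7 := H2 (cardFactors s) ((N : ℝ) / s) h3
    (div_le_div_of_nonneg_left hN0.le hs0 h2)
    (div_le_self hN0.le (by exact_mod_cast h1))
  have hms : m - cardFactors s = r - cardFactors s + 1 := by omega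
  rw [hms]
  calc c1 / 2 * (N / Real.log N * hh (pr N \ P) r) * (((k : ℝ) * lam) ^ (cardFactors s) / (s : ℝ))
      = (k : ℝ) ^ (cardFactors s) * (c1 * ((N : ℝ) / s / Real.log N) *
        ((1 / 2) * lam ^ (cardFactors s) * hh (pr N \ P) r)) := by
          rw [mul_pow]
          ring
    _ ≤ (k : ℝ) ^ (cardFactors s) * (c1 * ((N : ℝ) / s / Real.log N) *
        hh (pr N \ P) (r - cardFactors s)) := by
          apply mul_le_mul_of_nonneg_left _ (by positivity)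
          exact mul_le_mul_of_nonneg_left h6 (by positivity)
    _ ≤ (k : ℝ) ^ (cardFactors s) * ((RR P (r - cardFactors s + 1) ((N : ℝ) / s)).card : ℝ) :=
          mul_le_mul_of_nonneg_left h7 (by positivity)

theorem aux_energy {k : ℕ} {P : Finset ℕ} (hP : ∀ p ∈ P, p.Prime) (N m : ℕ) (Y : ℝ)
    {NB DB : ℝ} (hNB0 : 0 ≤ NB)
    (hNB : NB ≤ ∑ n ∈ (AA N m).filter (fun n => (sp P n : ℝ) ≤ Y),
      (k : ℝ) ^ (cardFactors (sp P n)))
    (hDB : ∑ L ∈ Fintype.piFinset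
        (fun _ : Fin k => ((AA N m).filter (fun n => (sp P n : ℝ) ≤ Y)).image (lab P)),
        ∑ x ∈ (Fintype.piFinset (fun i =>
          ((AA N m).filter (fun n => (sp P n : ℝ) ≤ Y)).filter (fun n => lab P n = L i))).image
          (fun n => ∏ i, n i), ((k : ℝ) ^ (cardFactors (sp P x))) ^ 2 ≤ DB) :
    NB ^ (2 * k) ≤ (TT k (AA N m) : ℝ) * DB := by
  have hA : ∀ n ∈ (AA N m).filter (fun n => (sp P n : ℝ) ≤ Y), n ≠ 0 := by
    intro n hn
    simp only [AA, mem_filter, mem_Icc] at hn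
    omega
  have h1 := cs_energy k ((AA N m).filter (fun n => (sp P n : ℝ) ≤ Y)) hA (lab P)
    (fun n => (k : ℝ) ^ (cardFactors (sp P n))) (fun n => by positivity)
    (by simp [sp]) (fun a b ha hb => by
      rw [sp_mul P ha hb, cardFactors_mul (aux_sp_ne hP a) (aux_sp_ne hP b), pow_add])
  have h2 : (TT k ((AA N m).filter (fun n => (sp P n : ℝ) ≤ Y)) : ℝ) ≤ TT k (AA N m) := by
    exact_mod_cast aux_TT_mono k (Finset.filter_subset _ _)
  have h3 : (0 : ℝ) ≤ ∑ L ∈ Fintype.piFinset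
        (fun _ : Fin k => ((AA N m).filter (fun n => (sp P n : ℝ) ≤ Y)).image (lab P)),
        ∑ x ∈ (Fintype.piFinset (fun i =>
          ((AA N m).filter (fun n => (sp P n : ℝ) ≤ Y)).filter (fun n => lab P n = L i))).image
          (fun n => ∏ i, n i), ((k : ℝ) ^ (cardFactors (sp P x))) ^ 2 :=
    Finset.sum_nonneg fun _ _ => Finset.sum_nonneg fun _ _ => by positivity
  calc NB ^ (2 * k) ≤ _ := pow_le_pow_left₀ hNB0 hNB _
    _ ≤ _ := h1
    _ ≤ (TT k (AA N m) : ℝ) * DB := mul_le_mul h2 hDB h3 (Nat.cast_nonneg _)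

theorem aux_final {k : ℕ} (hk : 2 ≤ k) {ε lam η L V C1 C2 CE cE c1 Cη K B T0 card lY : ℝ}
    (hV : 0 < V) (hL : 1 ≤ L) (hC1 : 0 < C1) (hC2 : 0 < C2) (hCE : 0 < CE) (hcE : 0 < cE)
    (hc1 : 0 < c1) (hCη : 0 < Cη) (hB : 0 ≤ B) (hcard : 0 ≤ card)
    (h1 : (c1 / 2 * V * (cE * L ^ ((k : ℝ) * lam))) ^ (2 * k) ≤
      T0 * ((C1 * V) ^ k * (k * Real.exp k * (lY + 1) ^ (k - 1)) *
        (Cη * (CE * L ^ ((k : ℝ) ^ 2 * lam * (1 + η))))))
    (h2 : card ≤ C2 * CE * V * L ^ lam) (h3 : lY = B * L)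
    (hM : |K| * (C2 * CE) ^ k * C1 ^ k * (k * Real.exp k) * (B + 1) ^ (k - 1) * (Cη * CE) ≤
      (c1 / 2 * cE) ^ (2 * k) * L ^ ((k : ℝ) * ε / 4))
    (hE : lam * k + (k - 1) + (k : ℝ) ^ 2 * lam * (1 + η) + k * ε / 4 ≤
      (k : ℝ) * lam * ((2 * k : ℕ) : ℝ)) :
    K * card ^ k ≤ T0 := by
  have hL0 : (0 : ℝ) < L := by linarith
  have hlY : 0 ≤ lY := by rw [h3]; positivity
  set DEN := (C1 * V) ^ k * (k * Real.exp k * (lY + 1) ^ (k - 1)) *
        (Cη * (CE * L ^ ((k : ℝ) ^ 2 * lam * (1 + η)))) with hDEN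
  have hk0 : (0 : ℝ) < k := by exact_mod_cast (by omega : 0 < k)
  have hDpos : 0 < DEN := by positivity
  have hkey : |K| * card ^ k * DEN ≤ (c1 / 2 * V * (cE * L ^ ((k : ℝ) * lam))) ^ (2 * k) := by
    have hc : card ^ k ≤ (C2 * CE * V * L ^ lam) ^ k := pow_le_pow_left₀ hcard h2 _
    have hD : DEN ≤ (C1 * V) ^ k * (k * Real.exp k * ((B + 1) * L) ^ (k - 1)) *
        (Cη * (CE * L ^ ((k : ℝ) ^ 2 * lam * (1 + η)))) := by
      rw [hDEN]
      have : lY + 1 ≤ (B + 1) * L := by rw [h3]; linarith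
      gcongr
    have e1 : (L ^ lam) ^ k = L ^ (lam * k) := by
      rw [← Real.rpow_natCast, ← Real.rpow_mul hL0.le]
    have e2 : (L ^ ((k : ℝ) * lam)) ^ (2 * k) = L ^ ((k : ℝ) * lam * ((2 * k : ℕ) : ℝ)) := by
      rw [← Real.rpow_natCast, ← Real.rpow_mul hL0.le]
    have e3 : L ^ (k - 1) = L ^ ((k : ℝ) - 1) := by
      rw [← Real.rpow_natCast]
      congr 1
      rw [Nat.cast_sub (by omega)]
      simp
    calc |K| * card ^ k * DEN
        ≤ |K| * (C2 * CE * V * L ^ lam) ^ k *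
          ((C1 * V) ^ k * (k * Real.exp k * ((B + 1) * L) ^ (k - 1)) *
            (Cη * (CE * L ^ ((k : ℝ) ^ 2 * lam * (1 + η))))) := by
          gcongr
      _ = V ^ (2 * k) * (|K| * (C2 * CE) ^ k * C1 ^ k * (k * Real.exp k) * (B + 1) ^ (k - 1) *
            (Cη * CE)) * (L ^ (lam * k) * L ^ ((k : ℝ) - 1) *
            L ^ ((k : ℝ) ^ 2 * lam * (1 + η))) := by
          rw [← e1, ← e3]
          rw [mul_pow _ (L ^ lam), mul_pow _ V, mul_pow C1, mul_pow _ L, two_mul, pow_add]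
          ring
      _ ≤ V ^ (2 * k) * ((c1 / 2 * cE) ^ (2 * k) * L ^ ((k : ℝ) * ε / 4)) *
            (L ^ (lam * k) * L ^ ((k : ℝ) - 1) * L ^ ((k : ℝ) ^ 2 * lam * (1 + η))) := by
          gcongr
      _ = V ^ (2 * k) * (c1 / 2 * cE) ^ (2 * k) *
            L ^ (lam * k + (k - 1) + (k : ℝ) ^ 2 * lam * (1 + η) + k * ε / 4) := by
          rw [Real.rpow_add hL0, Real.rpow_add hL0, Real.rpow_add hL0]
          ring
      _ ≤ V ^ (2 * k) * (c1 / 2 * cE) ^ (2 * k) * L ^ ((k : ℝ) * lam * ((2 * k : ℕ) : ℝ)) := by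
          apply mul_le_mul_of_nonneg_left _ (by positivity)
          exact Real.rpow_le_rpow_of_exponent_le hL hE
      _ = _ := by
          rw [← e2]
          rw [← mul_pow, ← mul_pow]
          congr 1
          ring
  have h4 : |K| * card ^ k * DEN ≤ T0 * DEN := hkey.trans h1
  have h5 : |K| * card ^ k ≤ T0 := le_of_mul_le_mul_right h4 hDpos
  calc K * card ^ k ≤ |K| * card ^ k :=
        mul_le_mul_of_nonneg_right (le_abs_self K) (by positivity)
    _ ≤ T0 := h5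

theorem part_b {k : ℕ} (hk : 2 ≤ k) {ε : ℝ} (hε : 0 < ε) (hε1 : ε ≤ 1 / 4) (K : ℝ) : ∃ N₀ : ℕ,
    ∀ N : ℕ, N₀ ≤ N → ∀ m : ℕ, (1 / k + ε) * Real.log (Real.log N) ≤ m →
    (m : ℝ) ≤ (1 - ε) * Real.log (Real.log N) →
    K * ((AA N m).card : ℝ) ^ k ≤ (TT k (AA N m) : ℝ) := by
  have hk0 : (0 : ℝ) < k := by exact_mod_cast (by omega : 0 < k)
  have hk2 : (2 : ℝ) ≤ k := by exact_mod_cast hk
  have hkk : (1 : ℝ) / k ≤ 1 / 2 := one_div_le_one_div_of_le (by norm_num) hk2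
  have hkp : (0 : ℝ) < 1 / k := by positivity
  obtain ⟨C1, hC1, H1⟩ := upper_count (ε := ε / 2) (by linarith) (by linarith)
  obtain ⟨c1, hc1, H2⟩ := lower_count (ε := ε / 2) (by linarith) (by linarith)
  obtain ⟨C2, hC2, H3⟩ := card_upper (ε := ε / 2) (by linarith) (by linarith)
  obtain ⟨CE, hCE, H4⟩ := smooth_upper (2 * (k : ℝ) ^ 2) (12 * k ^ 2) (by nlinarith)
    (by push_cast; nlinarith)
  obtain ⟨B, cE, hB1, hcE, H5⟩ := smooth_lower (k : ℝ) (12 * k ^ 2) (by linarith)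
    (by push_cast; nlinarith)
  obtain ⟨CM, H6⟩ := mertens_inv
  set η : ℝ := ε / (8 * k) with hη
  have hη0 : 0 < η := by positivity
  have hη1 : η ≤ 1 := by
    rw [hη, div_le_one (by positivity)]
    linarith
  obtain ⟨Cη, hCη, H7⟩ := aux_pow_bound k hη0
  set M : ℝ := |K| * (C2 * CE) ^ k * C1 ^ k * (k * Real.exp k) * ((B : ℝ) + 1) ^ (k - 1) *
    (Cη * CE) with hMdef
  have hc' : 0 < (c1 / 2 * cE) ^ (2 * k) := by positivity
  have he : 0 < (k : ℝ) * ε / 4 := by positivity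
  obtain ⟨L, hL1, hLM⟩ : ∃ L : ℝ, 1 ≤ L ∧ M / (c1 / 2 * cE) ^ (2 * k) ≤ L ^ ((k : ℝ) * ε / 4) :=
    ((Filter.eventually_ge_atTop (1 : ℝ)).and
      ((tendsto_rpow_atTop he).eventually_ge_atTop (M / (c1 / 2 * cE) ^ (2 * k)))).exists
  have hM : M ≤ (c1 / 2 * cE) ^ (2 * k) * L ^ ((k : ℝ) * ε / 4) := by
    rw [div_le_iff₀ hc'] at hLM
    linarith
  set y : ℝ := Real.exp L with hy
  have hlogy : Real.log y = L := Real.log_exp L
  have hy2 : 2 ≤ y := by
    have := Real.add_one_le_exp L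
    linarith
  set P : Finset ℕ := PB (12 * k ^ 2) y with hPdef
  have hP : ∀ p ∈ P, p.Prime := by
    intro p hp
    exact (mem_filter.1 hp).2
  set Y : ℝ := y ^ B with hYdef
  have hY1 : 1 ≤ Y := one_le_pow₀ (by linarith)
  have hlogY : Real.log Y = B * L := by rw [hYdef, Real.log_pow, hlogy]
  set a0 : ℕ := ⌊Y⌋₊ with ha0
  have ha : ∀ a : ℕ, (2 : ℝ) ^ a ≤ Y → a ≤ a0 := by
    intro a h
    apply Nat.le_floor
    have h1 : (a : ℝ) ≤ (2 : ℝ) ^ a := by exact_mod_cast (Nat.lt_two_pow_self (n := a)).le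
    linarith
  obtain ⟨N2, H2'⟩ := H2 P Y hP hY1
  obtain ⟨N8, H8⟩ := ratio_lower P (1 / k) hkp a0
  set D : ℝ := |CM| + p1 P with hD
  have hp1 : 0 ≤ p1 P := Finset.sum_nonneg fun p _ => by positivity
  have hD0 : 0 ≤ D := add_nonneg (abs_nonneg _) hp1
  have hLLt : Filter.Tendsto (fun N : ℕ => Real.log (Real.log N)) Filter.atTop Filter.atTop :=
    Real.tendsto_log_atTop.comp (Real.tendsto_log_atTop.comp tendsto_natCast_atTop_atTop)
  have hev : ∀ᶠ N : ℕ in Filter.atTop, 3 ≤ N ∧ N2 ≤ N ∧ N8 ≤ N ∧ ⌊y⌋₊ ≤ N ∧ ⌈Y ^ 2⌉₊ ≤ N ∧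
      2 / ε * (1 + D) + D + 1 ≤ Real.log (Real.log N) := by
    filter_upwards [Filter.eventually_ge_atTop 3, Filter.eventually_ge_atTop N2,
      Filter.eventually_ge_atTop N8, Filter.eventually_ge_atTop ⌊y⌋₊,
      Filter.eventually_ge_atTop ⌈Y ^ 2⌉₊, hLLt.eventually_ge_atTop (2 / ε * (1 + D) + D + 1)]
      with N g1 g2 g3 g4 g5 g6
    exact ⟨g1, g2, g3, g4, g5, g6⟩
  obtain ⟨N0, hN0⟩ := Filter.eventually_atTop.1 hev
  refine ⟨N0, fun N hN m hm1 hm2 => ?_⟩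
  obtain ⟨g1, g2, g3, g4, g5, g6⟩ := hN0 N hN
  set LL : ℝ := Real.log (Real.log N) with hLL
  have hLL1 : 1 + D ≤ ε / 2 * LL := by
    have h1 : 2 / ε * (1 + D) ≤ LL := by linarith
    calc 1 + D = ε / 2 * (2 / ε * (1 + D)) := by field_simp
      _ ≤ ε / 2 * LL := mul_le_mul_of_nonneg_left h1 (by positivity)
  have hLLpos : D + 1 ≤ LL := by
    have : 0 ≤ 2 / ε * (1 + D) := by positivity
    linarith
  have hLL0 : 0 < LL := by linarith
  -- m = r + 1
  have hmpos : 0 < m := by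
    have : (0 : ℝ) < m := lt_of_lt_of_le (by positivity) hm1
    exact_mod_cast this
  obtain ⟨r, rfl⟩ : ∃ r, m = r + 1 := ⟨m - 1, by omega⟩
  push_cast at hm1 hm2
  -- q
  have hPsub : P ⊆ pr N := by
    intro p hp
    have hp' := mem_filter.1 hp
    refine mem_filter.2 ⟨mem_Icc.2 ⟨hp'.2.one_lt.le, ?_⟩, hp'.2⟩
    exact (mem_Ioc.1 hp'.1).2.trans g4
  set q : ℝ := p1 (pr N \ P) with hq
  have hqsum : q + p1 P = p1 (pr N) := Finset.sum_sdiff hPsub
  have hmer := H6 N g1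
  have hmer' : |p1 (pr N) - LL| ≤ |CM| := hmer.trans (le_abs_self CM)
  rw [abs_le] at hmer'
  have hq1 : q ≤ LL + D := by
    have := hmer'.2
    have h2 := abs_nonneg CM
    simp only [hD]
    linarith
  have hq2 : LL - D ≤ q := by
    have := hmer'.1
    simp only [hD]
    linarith
  have hqpos : 0 < q := by linarith
  set lam : ℝ := (r : ℝ) / q with hlam
  have hlamq : lam * q = r := div_mul_cancel₀ _ hqpos.ne'
  have hlam0 : 0 ≤ lam := by positivity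
  have hlam1 : 1 / k + ε / 2 ≤ lam := by
    rw [hlam, le_div_iff₀ hqpos]
    have h1 : (1 / (k : ℝ) + ε / 2) * q ≤ (1 / k + ε / 2) * (LL + D) :=
      mul_le_mul_of_nonneg_left hq1 (by positivity)
    have h2 : (1 / (k : ℝ) + ε / 2) * D ≤ D := by
      have : 1 / (k : ℝ) + ε / 2 ≤ 1 := by linarith
      nlinarith
    nlinarith
  have hlam2 : lam ≤ 1 - ε / 2 := by
    rw [hlam, div_le_iff₀ hqpos]
    have h1 : (1 - ε / 2) * (LL - D) ≤ (1 - ε / 2) * q :=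
      mul_le_mul_of_nonneg_left hq2 (by linarith)
    have h2 : (1 - ε / 2) * D ≤ D := by nlinarith
    nlinarith
  have hlam3 : lam ≤ 1 := by linarith
  have hrq : (r : ℝ) ≤ q := by
    rw [← hlamq]
    nlinarith
  have hrα : 1 / (k : ℝ) * LL ≤ r := by
    have : 1 ≤ ε * LL := by nlinarith
    nlinarith
  have hrlam : (r : ℝ) ≤ lam * p1 (pr N \ P) := hlamq.ge
  have h8 := H8 N g3 r hrα hrq
  have hNpos : (0 : ℝ) < N := by
    have : 0 < N := by omega
    exact_mod_cast this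
  have hYN : Y * Real.sqrt N ≤ N := by
    have h1 : Y ^ 2 ≤ N := (Nat.le_ceil _).trans (by exact_mod_cast g5)
    have h2 : Y ≤ Real.sqrt N := Real.le_sqrt_of_sq_le h1
    calc Y * Real.sqrt N ≤ Real.sqrt N * Real.sqrt N :=
          mul_le_mul_of_nonneg_right h2 (Real.sqrt_nonneg _)
      _ = N := Real.mul_self_sqrt hNpos.le
  have hQ : ∀ p ∈ pr N \ P, p.Prime := by
    intro p hp
    exact (mem_filter.1 (mem_sdiff.1 hp).1).2
  have hhh : 1 ≤ hh (pr N \ P) r := one_le_hh hQ hrq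
  have hlogN : 0 < Real.log N := Real.log_pos (by exact_mod_cast (by omega : 1 < N))
  set V : ℝ := N / Real.log N * hh (pr N \ P) r with hV
  have hVpos : 0 < V := by positivity
  -- numerator
  have hnum := aux_num (k := k) hP (m := r + 1) (r := r) rfl hY1 (by omega : 1 ≤ N) ha hc1
    (lam := lam)
    (fun a x haa hx1 hx2 => H2' N g2 (r - a) x lam hx1 hx2 hlam0 hlam2
      (le_trans (by exact_mod_cast Nat.sub_le r a) hrlam))
    (fun a haa => h8 a haa)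
    (H5 y hy2 ((k : ℝ) * lam) (by positivity) (by nlinarith))
  -- denominator
  have hτ : (k : ℝ) ^ 2 * lam * (1 + η) ≤ 2 * (k : ℝ) ^ 2 := by
    have h1 : (k : ℝ) ^ 2 * lam ≤ (k : ℝ) ^ 2 := by nlinarith [sq_nonneg (k : ℝ)]
    have h2 : (k : ℝ) ^ 2 * lam * (1 + η) ≤ (k : ℝ) ^ 2 * 2 :=
      mul_le_mul h1 (by linarith) (by positivity) (by positivity)
    linarith
  have hden := aux_den (k := k) (by omega) hP (m := r + 1) (r := r) rfl hY1 (by omega : 1 ≤ N) hYN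
    (fun a h => (h8 a (ha a h)).1) hlam0 hrlam hC1
    (fun r' x hx1 hx2 hr' => H1 P N r' x lam (by omega) hx1 hx2 hlam0 hlam2 hr') hCη H7
    ((H4 y hy2 ((k : ℝ) ^ 2 * lam * (1 + η)) (by positivity) hτ).2)
  have henergy := aux_energy (k := k) hP N (r + 1) Y (by
    rw [hlogy]
    positivity) hnum hden
  -- cardinality
  have hcard := H3 P N r lam hP hPsub (by omega) hlam0 hlam2 hrlam
  have hprod := (H4 y hy2 lam hlam0 (by nlinarith)).1
  have hcard' : ((AA N (r + 1)).card : ℝ) ≤ C2 * CE * V * L ^ lam := by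
    refine hcard.trans ?_
    rw [hlogy] at hprod
    calc C2 * (N / Real.log N) * ((∏ p ∈ P, (1 - lam / p)⁻¹) * hh (pr N \ P) r)
        ≤ C2 * (N / Real.log N) * ((CE * L ^ lam) * hh (pr N \ P) r) := by
          apply mul_le_mul_of_nonneg_left _ (by positivity)
          exact mul_le_mul_of_nonneg_right hprod (by linarith)
      _ = _ := by
          rw [hV]
          ring
  rw [hlogy] at henergy
  refine aux_final hk (lY := Real.log Y) hVpos hL1 hC1 hC2 hCE hcE hc1 hCη (Nat.cast_nonneg B)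
    (Nat.cast_nonneg _) henergy hcard' hlogY hM ?_
  -- exponents
  have h1 : (k : ℝ) * lam ≥ 1 + k * ε / 2 := by
    have h2 : (k : ℝ) * (1 / k + ε / 2) ≤ k * lam := mul_le_mul_of_nonneg_left hlam1 hk0.le
    have h3 : (k : ℝ) * (1 / k + ε / 2) = 1 + k * ε / 2 := by
      field_simp
    linarith
  have h2 : (k : ℝ) ^ 2 * lam * η ≤ k * ε / 8 := by
    have h3 : (k : ℝ) ^ 2 * η = k * ε / 8 := by
      rw [hη]
      field_simp
    calc (k : ℝ) ^ 2 * lam * η = lam * ((k : ℝ) ^ 2 * η) := by ring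
      _ = lam * (k * ε / 8) := by rw [h3]
      _ ≤ 1 * (k * ε / 8) := mul_le_mul_of_nonneg_right hlam3 (by positivity)
      _ = _ := one_mul _
  push_cast
  have h4 : ((k : ℝ) - 1) * (1 + k * ε / 2) ≤ (k - 1) * (k * lam) :=
    mul_le_mul_of_nonneg_left h1 (by linarith)
  have h5 : (k : ℝ) * ε / 2 ≤ (k - 1) * (k * ε / 2) := by
    have : 0 ≤ (k : ℝ) * ε / 2 := by positivity
    nlinarith
  have h6 : ((k : ℝ) - 1) * (1 + k * ε / 2) = (k - 1) + (k - 1) * (k * ε / 2) := by ring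
  have h7 : lam * k + (k - 1) + (k : ℝ) ^ 2 * lam * (1 + η) + k * ε / 4 =
      k * lam * (2 * k) - ((k - 1) * (k * lam)) + (k - 1) + (k : ℝ) ^ 2 * lam * η + k * ε / 4 := by
    ring
  have h8 : 0 ≤ (k : ℝ) * ε / 8 := by positivity
  rw [h7]
  linarith

end Pool.Agent.Helper256.KM
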