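import Mathlib
import Pool.Agent.Helper256.KM.Defs

set_option autoImplicit false

namespace Pool.Agent.Helper256.KM

open Finset ArithmeticFunction

theorem three_pow_le {n : ℕ} (hn : n ≠ 0) (hodd : ¬ 2 ∣ n) : 3 ^ cardFactors n ≤ n := by
  have h : ∀ p ∈ n.primeFactorsList, 3 ≤ p := by
    intro p hp
    have hpp := Nat.prime_of_mem_primeFactorsList hp
    have hdvd := Nat.dvd_of_mem_primeFactorsList hp
    have h2 : p ≠ 2 := by
      rintro rfl
      exact hodd hdvd
    have := hpp.two_le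
    omega
  have := List.pow_card_le_prod n.primeFactorsList 3 h
  rw [Nat.prod_primeFactorsList hn] at this
  exact this

theorem card_small (K : ℝ) : ∃ C : ℕ, 1 ≤ C ∧ ∀ N m : ℕ, (N : ℝ) ≤ K * 2 ^ m →
    (AA N m).card ≤ C := by
  obtain ⟨t0, ht0⟩ := pow_unbounded_of_one_lt K (by norm_num : (1:ℝ) < 3/2)
  refine ⟨⌈K * 2 ^ t0⌉₊ + 1, by omega, fun N m hN => ?_⟩
  have hdec : ∀ n ∈ AA N m, ∃ a : ℕ, n = 2 ^ a * (ordCompl[2] n) ∧
      a + cardFactors (ordCompl[2] n) = m ∧ ordCompl[2] n ≤ ⌈K * 2 ^ t0⌉₊ := by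
    intro n hn
    rw [AA, mem_filter, mem_Icc] at hn
    obtain ⟨⟨hn1, hnN⟩, hΩ⟩ := hn
    have hn0 : n ≠ 0 := by omega
    have hprod : 2 ^ (n.factorization 2) * (ordCompl[2] n) = n := Nat.ordProj_mul_ordCompl_eq_self n 2
    have hc0 : ordCompl[2] n ≠ 0 := (Nat.ordCompl_pos 2 hn0).ne'
    have hodd : ¬ 2 ∣ ordCompl[2] n := Nat.not_dvd_ordCompl Nat.prime_two hn0
    have hsum : n.factorization 2 + cardFactors (ordCompl[2] n) = m := by
      have h1 := cardFactors_mul (m := 2 ^ (n.factorization 2)) (n := ordCompl[2] n) (by positivity) hc0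
      rw [hprod, hΩ, cardFactors_pow, cardFactors_apply_prime Nat.prime_two, mul_one] at h1
      exact h1.symm
    refine ⟨n.factorization 2, hprod.symm, hsum, ?_⟩
    set c := ordCompl[2] n with hc
    set a := n.factorization 2 with ha
    set w := cardFactors c with hw
    have h3 : 3 ^ w ≤ c := three_pow_le hc0 hodd
    have h3r : (3:ℝ) ^ w ≤ c := by exact_mod_cast h3
    have hle : (2:ℝ) ^ a * c ≤ K * 2 ^ m := by
      have : ((2 ^ a * c : ℕ) : ℝ) ≤ N := by
        rw [hprod]; exact_mod_cast hnN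
      push_cast at this
      linarith
    have hle2 : (c:ℝ) ≤ K * 2 ^ w := by
      rw [← hsum, pow_add] at hle
      have h2a : (0:ℝ) < 2 ^ a := by positivity
      have : (2:ℝ) ^ a * c ≤ 2 ^ a * (K * 2 ^ w) := by
        calc (2:ℝ) ^ a * c ≤ K * (2 ^ a * 2 ^ w) := hle
          _ = 2 ^ a * (K * 2 ^ w) := by ring
      exact le_of_mul_le_mul_left this h2a
    have hcpos : (0:ℝ) < c := by
      have : 0 < c := Nat.pos_of_ne_zero hc0
      exact_mod_cast this
    have hKpos : 0 < K := by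
      by_contra hK
      push Not at hK
      have : K * 2 ^ w ≤ 0 := mul_nonpos_of_nonpos_of_nonneg hK (by positivity)
      linarith
    have hlt : w < t0 := by
      by_contra hcon
      push Not at hcon
      have h4 : (3/2:ℝ) ^ w ≤ K := by
        rw [div_pow, div_le_iff₀ (by positivity)]
        exact h3r.trans hle2
      have h5 : (3/2:ℝ) ^ t0 ≤ (3/2:ℝ) ^ w := pow_le_pow_right₀ (by norm_num) hcon
      linarith
    have h6 : (c:ℝ) ≤ K * 2 ^ t0 := by
      refine hle2.trans ?_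
      apply mul_le_mul_of_nonneg_left _ hKpos.le
      exact pow_le_pow_right₀ (by norm_num) hlt.le
    exact_mod_cast h6.trans (Nat.le_ceil _)
  have hinj : Set.InjOn (fun n => ordCompl[2] n) (AA N m : Set ℕ) := by
    intro x hx y hy hxy
    simp only at hxy
    obtain ⟨a, ha1, ha2, _⟩ := hdec x hx
    obtain ⟨b, hb1, hb2, _⟩ := hdec y hy
    have hab : a = b := by
      rw [hxy] at ha2
      omega
    rw [ha1, hb1, hab, hxy]
  have hmaps : ∀ n ∈ AA N m, (fun n => ordCompl[2] n) n ∈ Finset.range (⌈K * 2 ^ t0⌉₊ + 1) := by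
    intro n hn
    obtain ⟨a, _, _, h⟩ := hdec n hn
    rw [Finset.mem_range]
    exact Nat.lt_succ_of_le h
  have := Finset.card_le_card_of_injOn _ hmaps hinj
  rw [Finset.card_range] at this
  exact this

end Pool.Agent.Helper256.KM
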