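import Mathlib
import Pool.Agent.Helper256.KM.Defs
import Pool.Agent.Helper256.KM.BT
import Pool.Agent.Helper256.KM.HO
import Pool.Agent.Helper256.KM.B2
import Pool.Agent.Helper256.KM.CE
import Pool.Agent.Helper256.KM.Mertens
import Pool.Agent.Helper256.KM.HP
import Pool.Agent.Helper256.KM.BW

set_option autoImplicit false

namespace Pool.Agent.Helper256.KM

open Finset ArithmeticFunction

theorem win_asym (a b K D : ℝ) (ha : 0 < a) (hb : 0 < b) (hD : 1 ≤ D) : ∃ L0 : ℝ,
    ∀ L p : ℝ, L0 ≤ L → L - D ≤ p →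
    L + Real.sqrt (L * (a * Real.log L + b * Real.log (Real.log L) + K)) ≤
      p + Real.sqrt (p * (a * Real.log p + b * Real.log (Real.log p) + (K + 1))) := by
  obtain ⟨ε, hε⟩ : ∃ ε : ℝ, ε = 1 / (128 * D ^ 2) := ⟨_, rfl⟩
  have hDp : 0 < D := by linarith
  have hεp : 0 < ε := by rw [hε]; positivity
  have habp : 0 < a + b := by linarith
  have hlog : ∀ᶠ q : ℝ in Filter.atTop, Real.log q ≤ ε / (4 * (a + b)) * q := by
    have h1 := Real.isLittleO_log_id_atTop.bound (show 0 < ε / (4 * (a + b)) by positivity)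
    filter_upwards [h1, Filter.eventually_ge_atTop (1 : ℝ)] with q hq hq1
    simp only [id, Real.norm_eq_abs] at hq
    rw [abs_of_nonneg (by linarith : (0 : ℝ) ≤ q)] at hq
    exact (le_abs_self _).trans hq
  have hpos : ∀ᶠ q : ℝ in Filter.atTop, -K / a ≤ Real.log q :=
    Real.tendsto_log_atTop.eventually_ge_atTop _
  obtain ⟨q0, hq0⟩ := Filter.eventually_atTop.1 (hlog.and (hpos.and
    ((Filter.eventually_ge_atTop (Real.exp 1)).and ((Filter.eventually_ge_atTop D).and
      ((Filter.eventually_ge_atTop (2 * K / ε)).and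
        (Filter.eventually_ge_atTop (2 * (D ^ 2 + (a + b) * D))))))))
  refine ⟨q0 + D, ?_⟩
  intro L p hL hp
  obtain ⟨q, hq⟩ : ∃ q, q = L - D := ⟨_, rfl⟩
  have hqq : q0 ≤ q := by linarith
  have hLq : L = q + D := by linarith
  obtain ⟨-, f2, f3, f4, f5, f6⟩ := hq0 q hqq
  obtain ⟨g1, g2, g3, -, -, -⟩ := hq0 L (by linarith)
  have he : (1 : ℝ) < Real.exp 1 := by
    have := Real.add_one_lt_exp (one_ne_zero)
    linarith
  have hqp : 0 < q := by linarith
  have hlogq : 1 ≤ Real.log q := by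
    rw [Real.le_log_iff_exp_le hqp]; exact f3
  have hLp : 0 < L := by linarith
  have hlogL : 1 ≤ Real.log L := by
    rw [Real.le_log_iff_exp_le hLp]; exact g3
  have hpq : q ≤ p := by linarith
  have hpp : 0 < p := by linarith
  have hlogp : Real.log q ≤ Real.log p := Real.log_le_log hqp hpq
  have hllq : 0 ≤ Real.log (Real.log q) := Real.log_nonneg hlogq
  have hllL : 0 ≤ Real.log (Real.log L) := Real.log_nonneg hlogL
  have hllp : Real.log (Real.log q) ≤ Real.log (Real.log p) :=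
    Real.log_le_log (by linarith) hlogp
  have hposq : 0 ≤ a * Real.log q + b * Real.log (Real.log q) + K := by
    rw [div_le_iff₀ ha] at f2
    have := mul_nonneg hb.le hllq
    linarith
  have hposL : 0 ≤ a * Real.log L + b * Real.log (Real.log L) + K := by
    rw [div_le_iff₀ ha] at g2
    have := mul_nonneg hb.le hllL
    linarith
  -- Step A
  have hA : Real.sqrt (q * (a * Real.log q + b * Real.log (Real.log q) + (K + 1))) ≤
      Real.sqrt (p * (a * Real.log p + b * Real.log (Real.log p) + (K + 1))) := by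
    apply Real.sqrt_le_sqrt
    apply mul_le_mul hpq _ (by linarith) hpp.le
    have h1 := mul_le_mul_of_nonneg_left hlogp ha.le
    have h2 := mul_le_mul_of_nonneg_left hllp hb.le
    linarith
  -- Step B
  have hlogd : q * (Real.log L - Real.log q) ≤ D := by
    have h1 : Real.log L - Real.log q ≤ D / q := by
      rw [← Real.log_div hLp.ne' hqp.ne']
      have h2 := Real.log_le_sub_one_of_pos (show 0 < L / q by positivity)
      have h3 : L / q - 1 = D / q := by
        rw [hLq]; field_simp; ring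
      rw [h3] at h2
      exact h2
    have h2 := mul_le_mul_of_nonneg_left h1 hqp.le
    rwa [mul_div_cancel₀ _ hqp.ne'] at h2
  have hlogd0 : 0 ≤ Real.log L - Real.log q := by
    have := Real.log_le_log hqp (by linarith : q ≤ L)
    linarith
  have hllogd : q * (Real.log (Real.log L) - Real.log (Real.log q)) ≤ D := by
    have h1 : Real.log (Real.log L) - Real.log (Real.log q) ≤ Real.log L - Real.log q := by
      rw [← Real.log_div (by linarith) (by linarith)]
      have h2 := Real.log_le_sub_one_of_pos (show 0 < Real.log L / Real.log q by positivity)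
      have h3 : Real.log L / Real.log q - 1 = (Real.log L - Real.log q) / Real.log q := by
        field_simp
      rw [h3] at h2
      exact h2.trans (div_le_self hlogd0 hlogq)
    exact (mul_le_mul_of_nonneg_left h1 hqp.le).trans hlogd
  have hllLle : Real.log (Real.log L) ≤ Real.log L := Real.log_le_self (by linarith)
  have hPhiL : a * Real.log L + b * Real.log (Real.log L) + K ≤ ε * q := by
    have h1 : a * Real.log L + b * Real.log (Real.log L) ≤ (a + b) * Real.log L := by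
      have := mul_le_mul_of_nonneg_left hllLle hb.le
      linarith
    have h2 := mul_le_mul_of_nonneg_left g1 habp.le
    have h3 : (a + b) * (ε / (4 * (a + b)) * L) = ε * L / 4 := by field_simp
    rw [h3] at h2
    have h4 : ε * L ≤ ε * (2 * q) := mul_le_mul_of_nonneg_left (by linarith) hεp.le
    have h5 : 2 * K ≤ ε * q := by
      rw [div_le_iff₀ hεp] at f5
      linarith
    linarith
  obtain ⟨A, hAdef⟩ : ∃ A, A = L * (a * Real.log L + b * Real.log (Real.log L) + K) := ⟨_, rfl⟩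
  have hA0 : 0 ≤ A := by rw [hAdef]; exact mul_nonneg hLp.le hposL
  have hAle : A ≤ (q / (8 * D)) ^ 2 := by
    have h1 : A ≤ (2 * q) * (ε * q) := by
      rw [hAdef]
      exact mul_le_mul (by linarith) hPhiL hposL (by linarith)
    refine h1.trans (le_of_eq ?_)
    rw [hε]
    field_simp
    ring
  have hsA : Real.sqrt A ≤ q / (8 * D) := by
    rw [Real.sqrt_le_left (by positivity)]
    exact hAle
  have hB : D + Real.sqrt A ≤
      Real.sqrt (q * (a * Real.log q + b * Real.log (Real.log q) + (K + 1))) := by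
    apply Real.le_sqrt_of_sq_le
    have h1 : (D + Real.sqrt A) ^ 2 = D ^ 2 + 2 * D * Real.sqrt A + A := by
      linear_combination Real.sq_sqrt hA0
    rw [h1]
    have h2 : 2 * D * Real.sqrt A ≤ q / 4 := by
      have h3 := mul_le_mul_of_nonneg_left hsA (by positivity : (0 : ℝ) ≤ 2 * D)
      refine h3.trans (le_of_eq ?_)
      field_simp
      ring
    have h4 : A = q * (a * Real.log q + b * Real.log (Real.log q) + K) +
        a * (q * (Real.log L - Real.log q)) +
        b * (q * (Real.log (Real.log L) - Real.log (Real.log q))) +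
        D * (a * Real.log L + b * Real.log (Real.log L) + K) := by
      rw [hAdef]
      generalize Real.log (Real.log L) = u
      generalize Real.log (Real.log q) = v
      generalize Real.log L = s
      generalize Real.log q = t
      rw [hLq]
      ring
    have h5 := mul_le_mul_of_nonneg_left hlogd ha.le
    have h6 := mul_le_mul_of_nonneg_left hllogd hb.le
    have h7 : D * (a * Real.log L + b * Real.log (Real.log L) + K) ≤ q / 128 := by
      have h8 := mul_le_mul_of_nonneg_left hPhiL hDp.le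
      refine h8.trans ?_
      have h9 : D * (ε * q) = q / (128 * D) := by
        rw [hε]; field_simp
      rw [h9]
      exact div_le_div_of_nonneg_left hqp.le (by norm_num) (by linarith)
    have h10 : q * (a * Real.log q + b * Real.log (Real.log q) + (K + 1)) =
        q * (a * Real.log q + b * Real.log (Real.log q) + K) + q := by ring
    rw [h10]
    linarith
  rw [← hAdef]
  linarith

theorem upper_window {k : ℕ} (hk : 4 ≤ k) (K : ℝ) : ∃ (C : ℝ) (N₀ : ℕ),
    ∀ N : ℕ, N₀ ≤ N → ∀ (m : ℕ) (L : ℝ), L = Real.log (Real.log N) → 1 ≤ m →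
    (k : ℝ) * m ≤ L + Real.sqrt (L * (((k : ℝ) - 3) / 2 * Real.log L +
      ((k : ℝ) - 1) / 2 * Real.log (Real.log L) + K)) →
    (TT k (AA N m) : ℝ) ≤ C * ((AA N m).card : ℝ) ^ k := by
  classical
  have hk4 : (4 : ℝ) ≤ k := by exact_mod_cast hk
  have hk0 : (0 : ℝ) < k := by linarith
  obtain ⟨Cb, M₀, hCb, hM₀, hblock⟩ := block_window (k := k) hk (K + 1)
  obtain ⟨c, hc, hlow⟩ := lower_count (ε := 1 / 4) (by norm_num) (by norm_num)
  obtain ⟨N0, hN0⟩ := hlow ∅ 1 (by simp) le_rfl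
  obtain ⟨Cm, hCm⟩ := mertens_inv
  obtain ⟨a, ha⟩ : ∃ a : ℝ, a = ((k : ℝ) - 3) / 2 := ⟨_, rfl⟩
  obtain ⟨b, hb⟩ : ∃ b : ℝ, b = ((k : ℝ) - 1) / 2 := ⟨_, rfl⟩
  have hap : 0 < a := by rw [ha]; linarith
  have hbp : 0 < b := by rw [hb]; linarith
  obtain ⟨D, hD⟩ : ∃ D : ℝ, D = |Cm| + 2 := ⟨_, rfl⟩
  have hD1 : 1 ≤ D := by rw [hD]; linarith [abs_nonneg Cm]
  obtain ⟨L0, hL0⟩ := win_asym a b K D hap hbp hD1
  have hcast : Filter.Tendsto (fun N : ℕ => (N : ℝ)) Filter.atTop Filter.atTop :=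
    tendsto_natCast_atTop_atTop
  have hlogt : Filter.Tendsto (fun N : ℕ => Real.log (N : ℝ)) Filter.atTop Filter.atTop :=
    Real.tendsto_log_atTop.comp hcast
  have hlog2t : Filter.Tendsto (fun N : ℕ => Real.log (Real.log (N : ℝ))) Filter.atTop
      Filter.atTop := Real.tendsto_log_atTop.comp hlogt
  have hPhi : ∀ᶠ L : ℝ in Filter.atTop,
      a * Real.log L + b * Real.log (Real.log L) + K ≤ L := by
    have h1 := Real.isLittleO_log_id_atTop.bound (show 0 < 1 / (2 * (a + b)) by positivity)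
    filter_upwards [h1, Filter.eventually_ge_atTop (Real.exp 1),
      Filter.eventually_ge_atTop (2 * K)] with q hq hq1 hq2
    have he : (1 : ℝ) < Real.exp 1 := by
      have := Real.add_one_lt_exp (one_ne_zero)
      linarith
    simp only [id, Real.norm_eq_abs] at hq
    rw [abs_of_nonneg (by linarith : (0 : ℝ) ≤ q)] at hq
    have h2 : Real.log q ≤ 1 / (2 * (a + b)) * q := (le_abs_self _).trans hq
    have h3 : 1 ≤ Real.log q := by
      rw [Real.le_log_iff_exp_le (by linarith)]; exact hq1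
    have h4 : Real.log (Real.log q) ≤ Real.log q := Real.log_le_self (by linarith)
    have h5 := mul_le_mul_of_nonneg_left h4 hbp.le
    have h6 := mul_le_mul_of_nonneg_left h2 (by linarith : 0 ≤ a + b)
    have h7 : (a + b) * (1 / (2 * (a + b)) * q) = q / 2 := by field_simp
    rw [h7] at h6
    linarith
  have hev : ∀ᶠ N : ℕ in Filter.atTop, 16 ≤ N ∧ 4 * Real.log 2 ≤ Real.log N ∧
      L0 ≤ Real.log (Real.log N) ∧ 3 * D ≤ Real.log (Real.log N) ∧
      (a * Real.log (Real.log (Real.log N)) + b * Real.log (Real.log (Real.log (Real.log N))) + K ≤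
        Real.log (Real.log N)) ∧ M₀ ^ 2 ≤ N ∧
      (Real.log N) ^ (2 * k) ≤ N := by
    refine (Filter.eventually_ge_atTop 16).and ((hlogt.eventually_ge_atTop _).and
      ((hlog2t.eventually_ge_atTop _).and ((hlog2t.eventually_ge_atTop _).and
      ((hlog2t.eventually hPhi).and ((hcast.eventually_ge_atTop _).and ?_)))))
    · have h1 : (fun x : ℝ => Real.log x ^ (2 * k)) =o[Filter.atTop] (id : ℝ → ℝ) :=
        Real.isLittleO_pow_log_id_atTop
      have h2 := (h1.bound (show (0 : ℝ) < 1 by norm_num))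
      have h3 := hcast.eventually h2
      filter_upwards [h3, Filter.eventually_ge_atTop 1] with N hN hN1
      simp only [id, Real.norm_eq_abs, one_mul] at hN
      rw [abs_of_nonneg (show (0 : ℝ) ≤ (N : ℝ) from Nat.cast_nonneg N)] at hN
      exact (le_abs_self _).trans hN
  obtain ⟨N1, hN1⟩ := Filter.eventually_atTop.mp hev
  refine ⟨5 ^ (2 * k - 1) * (9 * Cb * 2 ^ k + 1) / c ^ k, max N0 N1, ?_⟩
  intro N hN m L hLdef hm1 hm
  rw [← ha, ← hb] at hm
  obtain ⟨h16, hl4, hLL0, hLD, hLPhi, hNM, hlk⟩ := hN1 N (le_trans (le_max_right _ _) hN)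
  rw [← hLdef] at hLL0 hLD hLPhi
  have hNN0 : N0 ≤ N := le_trans (le_max_left _ _) hN
  obtain ⟨r, rfl⟩ : ∃ r, m = r + 1 := ⟨m - 1, by omega⟩
  have hNR : (16 : ℝ) ≤ N := by exact_mod_cast h16
  have hNpos : (0 : ℝ) < N := by linarith
  have hlog2 : 0 < Real.log 2 := Real.log_pos (by norm_num)
  have hLpos : 0 < Real.log N := by linarith
  have hsq0 : 0 < Real.sqrt N := Real.sqrt_pos.mpr hNpos
  have hsqsq : Real.sqrt N * Real.sqrt N = N := Real.mul_self_sqrt hNpos.le
  have hsq4 : 4 ≤ Real.sqrt N := by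
    apply Real.le_sqrt_of_sq_le; linarith
  have hsqM : M₀ ≤ Real.sqrt N := Real.le_sqrt_of_sq_le hNM
  have hns1 : (Nat.sqrt N : ℝ) ≤ Real.sqrt N := Real.nat_sqrt_le_real_sqrt
  have hns2 : Real.sqrt N < (Nat.sqrt N : ℝ) + 1 := by
    rw [Real.sqrt_lt' (by positivity)]
    have := Nat.lt_succ_sqrt' N
    have h2 : (N : ℝ) < ((Nat.sqrt N + 1 : ℕ) : ℝ) ^ 2 := by
      exact_mod_cast this
    push_cast at h2
    exact h2
  have hns3 : (3 : ℝ) ≤ (Nat.sqrt N : ℝ) := by linarith
  have hns3' : 3 ≤ Nat.sqrt N := by exact_mod_cast hns3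
  -- the reciprocal sums
  have p1_mono : ∀ a b : ℕ, a ≤ b → p1 (pr a) ≤ p1 (pr b) := by
    intro a b hab
    unfold p1
    apply Finset.sum_le_sum_of_subset_of_nonneg
    · unfold pr
      apply Finset.filter_subset_filter
      exact Finset.Icc_subset_Icc le_rfl hab
    · intro i _ _
      positivity
  have p1_nonneg : ∀ a : ℕ, 0 ≤ p1 (pr a) := by
    intro a
    unfold p1; exact Finset.sum_nonneg (fun _ _ => by positivity)
  have hpM : ∀ M : ℝ, Real.sqrt N ≤ M → L - D ≤ p1 (pr ⌊M⌋₊) := by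
    intro M hM
    have h1 : Nat.sqrt N ≤ ⌊M⌋₊ := Nat.le_floor (hns1.trans hM)
    have h2 := p1_mono _ _ h1
    have h3 := hCm (Nat.sqrt N) hns3'
    have h4 : Real.log (Real.log (Nat.sqrt N)) - Cm ≤ p1 (pr (Nat.sqrt N)) := by
      unfold p1 pr
      have := (abs_le.mp h3).1
      linarith
    have h5 : Real.log N / 4 ≤ Real.log (Nat.sqrt N) := by
      have h6 : Real.sqrt N / 2 ≤ (Nat.sqrt N : ℝ) := by linarith
      have h7 := Real.log_le_log (by positivity) h6
      rw [Real.log_div hsq0.ne' (by norm_num), Real.log_sqrt hNpos.le] at h7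
      linarith
    have h8 : Real.log (Real.log N) - Real.log 4 ≤ Real.log (Real.log (Nat.sqrt N)) := by
      rw [← Real.log_div hLpos.ne' (by norm_num)]
      exact Real.log_le_log (by positivity) h5
    have h9 : Real.log 4 ≤ 2 := by
      have : Real.log 4 = 2 * Real.log 2 := by
        rw [show (4 : ℝ) = 2 ^ 2 by norm_num, Real.log_pow]; norm_num
      rw [this]
      have := Real.log_two_lt_d9
      linarith
    have h10 := le_abs_self Cm
    rw [← hLdef] at h8
    rw [hD]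
    linarith
  have hwin : ∀ M : ℝ, Real.sqrt N ≤ M → (k : ℝ) * r ≤ p1 (pr ⌊M⌋₊) +
      Real.sqrt (p1 (pr ⌊M⌋₊) * (((k : ℝ) - 3) / 2 * Real.log (p1 (pr ⌊M⌋₊)) +
      ((k : ℝ) - 1) / 2 * Real.log (Real.log (p1 (pr ⌊M⌋₊))) + (K + 1))) := by
    intro M hM
    have h1 := hL0 L (p1 (pr ⌊M⌋₊)) hLL0 (hpM M hM)
    rw [ha, hb] at h1
    rw [ha, hb] at hm
    push_cast at hm
    have h2 : (k : ℝ) * r ≤ k * (r + 1) := by nlinarith
    exact (h2.trans hm).trans h1
  -- `X`
  obtain ⟨P, hP⟩ : ∃ P : ℝ, P = p1 (pr N) := ⟨_, rfl⟩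
  have hPL : L - D ≤ P := by
    have h1 := hpM N (by nlinarith)
    rw [Nat.floor_natCast] at h1
    rw [hP]; exact h1
  have hLp : 0 < L := by linarith
  have hrP : (r : ℝ) ≤ 3 / 4 * P := by
    have h1 : Real.sqrt (L * (a * Real.log L + b * Real.log (Real.log L) + K)) ≤ L := by
      rw [Real.sqrt_le_left hLp.le, pow_two]
      exact mul_le_mul_of_nonneg_left hLPhi hLp.le
    push_cast at hm
    have h2 : (4 : ℝ) * r ≤ 2 * L := by
      have h3 : (4 : ℝ) * r ≤ k * (r + 1) := by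
        have : (0 : ℝ) ≤ r := Nat.cast_nonneg r
        nlinarith
      linarith
    linarith
  have hP0 : 0 ≤ P := by rw [hP]; exact p1_nonneg N
  obtain ⟨X, hX⟩ : ∃ X : ℝ, X = N / Real.log N * (P ^ r / (r.factorial : ℝ)) := ⟨_, rfl⟩
  have hprN : ∀ p ∈ pr N, p.Prime := by
    intro p hp; unfold pr at hp; exact (Finset.mem_filter.mp hp).2
  have hfp : (0 : ℝ) < (r.factorial : ℝ) := by exact_mod_cast Nat.factorial_pos r
  have hhh1 : 1 ≤ P ^ r / (r.factorial : ℝ) := by
    rw [one_le_div hfp]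
    have h1 : (r.factorial : ℝ) ≤ (r : ℝ) ^ r := by exact_mod_cast Nat.factorial_le_pow r
    refine h1.trans (pow_le_pow_left₀ (Nat.cast_nonneg r) ?_ r)
    linarith
  have hX1 : N / Real.log N ≤ X := by
    rw [hX]
    have : 0 ≤ N / Real.log N := by positivity
    nlinarith
  have hXpos : 0 < X := lt_of_lt_of_le (by positivity) hX1
  -- lower bound
  have hcardlow : c * X ≤ ((AA N (r + 1)).card : ℝ) := by
    have h1 := hN0 N hNN0 r N (3 / 4) (by rw [div_one]) le_rfl (by norm_num) (by norm_num) (by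
      rw [Finset.sdiff_empty, ← hP]
      exact hrP)
    rw [Finset.sdiff_empty] at h1
    have h2 : RR ∅ (r + 1) (N : ℝ) = AA N (r + 1) := by
      unfold RR AA
      rw [Nat.floor_natCast]
      apply Finset.filter_congr
      intro n _
      simp
    rw [h2] at h1
    have h3 := hh_ge hprN r
    rw [← hP] at h3
    have h4 : c * X ≤ c * (N / Real.log N) * hh (pr N) r := by
      rw [hX, ← mul_assoc]
      exact mul_le_mul_of_nonneg_left h3 (by positivity)
    linarith
  -- the number of blocks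
  obtain ⟨J, hJ⟩ : ∃ J : ℕ, J = Nat.log 2 (Nat.sqrt N) := ⟨_, rfl⟩
  have hJ1 : 2 ^ J ≤ Nat.sqrt N := by
    rw [hJ]; exact Nat.pow_log_le_self 2 (by omega)
  have hJ2 : Nat.sqrt N < 2 ^ (J + 1) := by
    rw [hJ]; exact Nat.lt_pow_succ_log_self (by norm_num) _
  have hJ1' : (2 : ℝ) ^ J ≤ Real.sqrt N := by
    have : ((2 ^ J : ℕ) : ℝ) ≤ (Nat.sqrt N : ℝ) := by exact_mod_cast hJ1
    push_cast at this
    linarith
  have hJ2' : Real.sqrt N ≤ (2 : ℝ) ^ (J + 1) := by
    have : ((Nat.sqrt N + 1 : ℕ) : ℝ) ≤ ((2 ^ (J + 1) : ℕ) : ℝ) := by exact_mod_cast hJ2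
    push_cast at this
    linarith
  have hMj : ∀ j ≤ J, Real.sqrt N ≤ (N : ℝ) / 2 ^ j := by
    intro j hj
    rw [le_div_iff₀ (by positivity)]
    have h1 : (2 : ℝ) ^ j ≤ 2 ^ J := pow_le_pow_right₀ (by norm_num) hj
    nlinarith
  have hlast : (N : ℝ) / 2 ^ (J + 1) ≤ Real.sqrt N := by
    rw [div_le_iff₀ (by positivity)]
    nlinarith
  obtain ⟨B, hB⟩ : ∃ B : ℕ → Finset ℕ, B = fun j => if j ≤ J then blk ((N : ℝ) / 2 ^ j) (r + 1)
      else (Finset.Icc 1 ⌊(N : ℝ) / 2 ^ (J + 1)⌋₊).filter (fun n => cardFactors n = r + 1) :=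
    ⟨_, rfl⟩
  obtain ⟨w, hw⟩ : ∃ w : ℕ → ℝ, w = fun j => if j ≤ J then (3 / 4 : ℝ) ^ j else 1 := ⟨_, rfl⟩
  have hBm : ∀ j, j ≤ J → ∀ n, n ∈ B j ↔ (1 ≤ n ∧ (n : ℝ) ≤ (N : ℝ) / 2 ^ j) ∧
      (N : ℝ) / 2 ^ j / 2 < n ∧ cardFactors n = r + 1 := by
    intro j hj n
    rw [hB]
    simp only [hj, if_true, blk, Finset.mem_filter, Finset.mem_Icc]
    rw [Nat.le_floor_iff (by positivity)]
  have hBl : ∀ j, J < j → ∀ n, n ∈ B j ↔ (1 ≤ n ∧ (n : ℝ) ≤ (N : ℝ) / 2 ^ (J + 1)) ∧
      cardFactors n = r + 1 := by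
    intro j hj n
    rw [hB]
    simp only [not_le.mpr hj, if_false, Finset.mem_filter, Finset.mem_Icc]
    rw [Nat.le_floor_iff (by positivity)]
  have hBU : (Finset.range (J + 2)).biUnion B = AA N (r + 1) := by
    ext n
    simp only [Finset.mem_biUnion, Finset.mem_range, AA, Finset.mem_filter, Finset.mem_Icc]
    constructor
    · rintro ⟨j, hj, hn⟩
      rcases Nat.lt_or_ge J j with h | h
      · rw [hBl j h] at hn
        refine ⟨⟨hn.1.1, ?_⟩, hn.2⟩
        have h1 : (N : ℝ) / 2 ^ (J + 1) ≤ N := div_le_self hNpos.le (one_le_pow₀ (by norm_num))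
        exact_mod_cast hn.1.2.trans h1
      · rw [hBm j h] at hn
        refine ⟨⟨hn.1.1, ?_⟩, hn.2.2⟩
        have h1 : (N : ℝ) / 2 ^ j ≤ N := div_le_self hNpos.le (one_le_pow₀ (by norm_num))
        exact_mod_cast hn.1.2.trans h1
    · rintro ⟨⟨h1, h2⟩, h3⟩
      by_cases hn : (n : ℝ) ≤ (N : ℝ) / 2 ^ (J + 1)
      · exact ⟨J + 1, by omega, (hBl (J + 1) (by omega) n).mpr ⟨⟨h1, hn⟩, h3⟩⟩
      · -- the smallest `j` with `N / 2 ^ (j+1) < n`
        have hex : ∃ j, (N : ℝ) / 2 ^ (j + 1) < n := ⟨J, not_le.mp hn⟩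
        have hj := Nat.find_spec hex
        obtain ⟨j, hjdef⟩ : ∃ j, j = Nat.find hex := ⟨_, rfl⟩
        rw [← hjdef] at hj
        have hjJ : j ≤ J := by rw [hjdef]; exact Nat.find_min' hex (not_le.mp hn)
        refine ⟨j, by omega, (hBm j hjJ n).mpr ⟨⟨h1, ?_⟩, ?_, h3⟩⟩
        · rcases Nat.eq_zero_or_pos j with h0 | h0
          · rw [h0, pow_zero, div_one]; exact_mod_cast h2
          · have h4 := Nat.find_min hex (m := j - 1) (by omega)
            rw [not_lt] at h4
            have h5 : j - 1 + 1 = j := by omega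
            rw [h5] at h4
            exact h4
        · rw [div_div, ← pow_succ]
          exact hj
  have hdis : ∀ i ∈ Finset.range (J + 2), ∀ j ∈ Finset.range (J + 2), i ≠ j →
      Disjoint (B i) (B j) := by
    have key : ∀ i j, i < j → Disjoint (B i) (B j) ∨ J < i := by
      intro i j hij
      by_cases hi : J < i
      · exact Or.inr hi
      · left
        rw [not_lt] at hi
        rw [Finset.disjoint_left]
        intro n hn hn'
        rw [hBm i hi] at hn
        have h1 : (n : ℝ) ≤ (N : ℝ) / 2 ^ (i + 1) := by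
          rcases Nat.lt_or_ge J j with h | h
          · rw [hBl j h] at hn'
            refine hn'.1.2.trans ?_
            apply div_le_div_of_nonneg_left hNpos.le (by positivity)
            exact pow_le_pow_right₀ (by norm_num) (by omega)
          · rw [hBm j h] at hn'
            refine hn'.1.2.trans ?_
            apply div_le_div_of_nonneg_left hNpos.le (by positivity)
            exact pow_le_pow_right₀ (by norm_num) (by omega)
        rw [pow_succ, ← div_div] at h1
        linarith [hn.2.1]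
    intro i hi j hj hij
    rw [Finset.mem_range] at hi hj
    rcases Nat.lt_or_ge i j with h | h
    · rcases key i j h with h' | h'
      · exact h'
      · omega
    · rcases key j i (by omega) with h' | h'
      · exact h'.symm
      · omega
  have hBne : ∀ j ∈ Finset.range (J + 2), ∀ n ∈ B j, n ≠ 0 := by
    intro j _ n hn
    rcases Nat.lt_or_ge J j with h | h
    · rw [hBl j h] at hn; omega
    · rw [hBm j h] at hn; omega
  have hwpos : ∀ j, 0 < w j := by
    intro j; rw [hw]; simp only; split_ifs <;> positivity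
  have hE := energy_holder (k := k) (by omega) (Finset.range (J + 2)) B hBne hdis w hwpos
  rw [hBU] at hE
  -- sum of the weights
  have hwsum : ∑ j ∈ Finset.range (J + 2), w j ≤ 5 := by
    rw [Finset.sum_range_succ]
    have h1 : w (J + 1) = 1 := by rw [hw]; simp
    have h2 : ∑ j ∈ Finset.range (J + 1), w j = ∑ j ∈ Finset.range (J + 1), (3 / 4 : ℝ) ^ j := by
      apply Finset.sum_congr rfl
      intro j hj
      rw [Finset.mem_range] at hj
      rw [hw]
      simp [show j ≤ J by omega]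
    have h3 : ∑ j ∈ Finset.range (J + 1), (3 / 4 : ℝ) ^ j ≤ 4 := by
      rw [geom_sum_eq (by norm_num)]
      have : (0 : ℝ) < (3 / 4) ^ (J + 1) := by positivity
      rw [div_le_iff_of_neg (by norm_num)]
      linarith
    rw [h1, h2]; linarith
  have hw0 : 0 ≤ ∑ j ∈ Finset.range (J + 2), w j := Finset.sum_nonneg (fun j _ => (hwpos j).le)
  -- the blocks
  have hTj : ∀ j ≤ J, (TT k (B j) : ℝ) ≤ Cb * 2 ^ k * X ^ k * ((1 / 2 : ℝ) ^ j) ^ k := by
    intro j hj
    have hM := hMj j hj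
    have hBj : B j = blk ((N : ℝ) / 2 ^ j) (r + 1) := by rw [hB]; simp [hj]
    rw [hBj]
    refine (hblock _ (p1 (pr ⌊(N : ℝ) / 2 ^ j⌋₊)) r (hsqM.trans hM) rfl (hwin _ hM)).trans ?_
    have hlogM : Real.log N / 2 ≤ Real.log ((N : ℝ) / 2 ^ j) := by
      rw [← Real.log_sqrt hNpos.le]
      exact Real.log_le_log hsq0 hM
    have h1 : (N : ℝ) / 2 ^ j / Real.log ((N : ℝ) / 2 ^ j) *
        (p1 (pr ⌊(N : ℝ) / 2 ^ j⌋₊) ^ r / (r.factorial : ℝ)) ≤
        2 * X * (1 / 2 : ℝ) ^ j := by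
      have h2 : (N : ℝ) / 2 ^ j / Real.log ((N : ℝ) / 2 ^ j) ≤
          (N : ℝ) / 2 ^ j / (Real.log N / 2) :=
        div_le_div_of_nonneg_left (by positivity) (by positivity) hlogM
      have h3 : p1 (pr ⌊(N : ℝ) / 2 ^ j⌋₊) ^ r / (r.factorial : ℝ) ≤
          P ^ r / (r.factorial : ℝ) := by
        apply div_le_div_of_nonneg_right _ hfp.le
        apply pow_le_pow_left₀ (p1_nonneg _)
        rw [hP]
        apply p1_mono
        have h4 : (N : ℝ) / 2 ^ j ≤ N := div_le_self hNpos.le (one_le_pow₀ (by norm_num))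
        exact (Nat.floor_le_floor h4).trans (by rw [Nat.floor_natCast])
      have h5 : 0 ≤ p1 (pr ⌊(N : ℝ) / 2 ^ j⌋₊) ^ r / (r.factorial : ℝ) := by
        have := p1_nonneg ⌊(N : ℝ) / 2 ^ j⌋₊
        positivity
      have h6 : (N : ℝ) / 2 ^ j / (Real.log N / 2) * (P ^ r / (r.factorial : ℝ)) =
          2 * X * (1 / 2 : ℝ) ^ j := by
        rw [hX, one_div, inv_pow]
        field_simp
      rw [← h6]
      exact mul_le_mul h2 h3 h5 (by positivity)
    have h0 : 0 ≤ (N : ℝ) / 2 ^ j / Real.log ((N : ℝ) / 2 ^ j) *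
        (p1 (pr ⌊(N : ℝ) / 2 ^ j⌋₊) ^ r / (r.factorial : ℝ)) := by
      have h5 := p1_nonneg ⌊(N : ℝ) / 2 ^ j⌋₊
      have h7 : 0 < Real.log ((N : ℝ) / 2 ^ j) := by linarith [half_pos hLpos]
      positivity
    calc Cb * ((N : ℝ) / 2 ^ j / Real.log ((N : ℝ) / 2 ^ j) *
        (p1 (pr ⌊(N : ℝ) / 2 ^ j⌋₊) ^ r / (r.factorial : ℝ))) ^ k
        ≤ Cb * (2 * X * (1 / 2 : ℝ) ^ j) ^ k :=
          mul_le_mul_of_nonneg_left (pow_le_pow_left₀ h0 h1 k) hCb.le
      _ = Cb * 2 ^ k * X ^ k * ((1 / 2 : ℝ) ^ j) ^ k := by rw [mul_pow, mul_pow]; ring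
  -- the last piece
  have hTl : (TT k (B (J + 1)) : ℝ) ≤ Real.sqrt N ^ (2 * k - 1) := by
    have h1 := TT_le k (by omega) (B (J + 1)) (hBne (J + 1) (by simp))
    have h2 : ((B (J + 1)).card : ℝ) ≤ Real.sqrt N := by
      have h3 : (B (J + 1)).card ≤ ⌊(N : ℝ) / 2 ^ (J + 1)⌋₊ := by
        have h4 : B (J + 1) ⊆ Finset.Icc 1 ⌊(N : ℝ) / 2 ^ (J + 1)⌋₊ := by
          rw [hB]; simp only [show ¬ (J + 1 ≤ J) by omega, if_false]
          exact Finset.filter_subset _ _
        have h5 := Finset.card_le_card h4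
        rw [Nat.card_Icc] at h5
        omega
      have h6 : ((B (J + 1)).card : ℝ) ≤ (⌊(N : ℝ) / 2 ^ (J + 1)⌋₊ : ℝ) := by exact_mod_cast h3
      exact h6.trans ((Nat.floor_le (by positivity)).trans hlast)
    have h7 : (TT k (B (J + 1)) : ℝ) ≤ ((B (J + 1)).card : ℝ) ^ (2 * k - 1) := by
      exact_mod_cast h1
    exact h7.trans (pow_le_pow_left₀ (Nat.cast_nonneg _) h2 _)
  -- the sum
  have hsum : ∑ j ∈ Finset.range (J + 2), (1 / w j) ^ (2 * k - 1) * (TT k (B j) : ℝ) ≤
      9 * (Cb * 2 ^ k * X ^ k) + Real.sqrt N ^ (2 * k - 1) := by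
    rw [Finset.sum_range_succ]
    have h1 : w (J + 1) = 1 := by rw [hw]; simp
    have h2 : ∀ j ∈ Finset.range (J + 1), (1 / w j) ^ (2 * k - 1) * (TT k (B j) : ℝ) ≤
        (Cb * 2 ^ k * X ^ k) * (8 / 9 : ℝ) ^ j := by
      intro j hj
      rw [Finset.mem_range] at hj
      have hjJ : j ≤ J := by omega
      have hwj : w j = (3 / 4 : ℝ) ^ j := by rw [hw]; simp [hjJ]
      rw [hwj]
      have h3 : (1 / (3 / 4 : ℝ) ^ j) ^ (2 * k - 1) ≤ ((16 / 9 : ℝ) ^ j) ^ k := by
        have h4 : 1 / (3 / 4 : ℝ) ^ j = (4 / 3 : ℝ) ^ j := by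
          rw [one_div, ← inv_pow]; norm_num
        rw [h4]
        have h5 : (16 / 9 : ℝ) ^ j = ((4 / 3 : ℝ) ^ j) ^ 2 := by
          rw [← pow_mul, mul_comm, pow_mul]; norm_num
        have h5b : (1 : ℝ) ≤ (4 / 3 : ℝ) ^ j := one_le_pow₀ (by norm_num)
        rw [h5, ← pow_mul ((4 / 3 : ℝ) ^ j) 2 k]
        exact pow_le_pow_right₀ h5b (by omega)
      have h6 : ((16 / 9 : ℝ) ^ j) ^ k * ((1 / 2 : ℝ) ^ j) ^ k ≤ (8 / 9 : ℝ) ^ j := by
        rw [← mul_pow, ← mul_pow]
        have h7 : (16 / 9 : ℝ) * (1 / 2) = 8 / 9 := by norm_num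
        rw [h7]
        have h8 : ((8 / 9 : ℝ) ^ j) ^ k ≤ ((8 / 9 : ℝ) ^ j) ^ 1 :=
          pow_le_pow_of_le_one (by positivity) (pow_le_one₀ (by norm_num) (by norm_num)) (by omega)
        rwa [pow_one] at h8
      have hC0 : 0 ≤ Cb * 2 ^ k * X ^ k := by positivity
      calc (1 / (3 / 4 : ℝ) ^ j) ^ (2 * k - 1) * (TT k (B j) : ℝ)
          ≤ ((16 / 9 : ℝ) ^ j) ^ k * (Cb * 2 ^ k * X ^ k * ((1 / 2 : ℝ) ^ j) ^ k) :=
            mul_le_mul h3 (hTj j hjJ) (Nat.cast_nonneg _) (by positivity)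
        _ = (Cb * 2 ^ k * X ^ k) * (((16 / 9 : ℝ) ^ j) ^ k * ((1 / 2 : ℝ) ^ j) ^ k) := by ring
        _ ≤ (Cb * 2 ^ k * X ^ k) * (8 / 9 : ℝ) ^ j := mul_le_mul_of_nonneg_left h6 hC0
    have h9 := Finset.sum_le_sum h2
    rw [← Finset.mul_sum] at h9
    have h10 : ∑ j ∈ Finset.range (J + 1), (8 / 9 : ℝ) ^ j ≤ 9 := by
      rw [geom_sum_eq (by norm_num)]
      have : (0 : ℝ) < (8 / 9) ^ (J + 1) := by positivity
      rw [div_le_iff_of_neg (by norm_num)]
      linarith
    have hC0 : 0 ≤ Cb * 2 ^ k * X ^ k := by positivity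
    have h11 := mul_le_mul_of_nonneg_left h10 hC0
    rw [h1, div_one, one_pow, one_mul]
    linarith
  -- comparison of the last piece with `X`
  have hsqX : Real.sqrt N ^ (2 * k - 1) ≤ X ^ k := by
    have h1 : Real.log N ^ k ≤ Real.sqrt N := by
      apply Real.le_sqrt_of_sq_le
      rw [← pow_mul, mul_comm]
      exact hlk
    have h2 : Real.sqrt N ^ (2 * k - 1) * Real.sqrt N = (N : ℝ) ^ k := by
      rw [← pow_succ, show 2 * k - 1 + 1 = 2 * k by omega, pow_mul, Real.sq_sqrt hNpos.le]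
    have h3 : Real.sqrt N ^ (2 * k - 1) ≤ (N / Real.log N) ^ k := by
      rw [div_pow, le_div_iff₀ (by positivity), ← h2]
      exact mul_le_mul_of_nonneg_left h1 (by positivity)
    exact h3.trans (pow_le_pow_left₀ (by positivity) hX1 k)
  -- conclusion
  have hfin : (TT k (AA N (r + 1)) : ℝ) ≤ 5 ^ (2 * k - 1) * ((9 * Cb * 2 ^ k + 1) * X ^ k) := by
    refine hE.trans ?_
    apply mul_le_mul (pow_le_pow_left₀ hw0 hwsum _) _ _ (by positivity)
    · refine hsum.trans ?_
      have : (9 * Cb * 2 ^ k + 1) * X ^ k = 9 * (Cb * 2 ^ k * X ^ k) + X ^ k := by ring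
      rw [this]
      linarith
    · apply Finset.sum_nonneg
      intro j _
      have := hwpos j
      positivity
  have hXc : X ^ k ≤ ((AA N (r + 1)).card : ℝ) ^ k / c ^ k := by
    rw [le_div_iff₀ (by positivity), ← mul_pow]
    apply pow_le_pow_left₀ (by positivity)
    linarith
  calc (TT k (AA N (r + 1)) : ℝ) ≤ 5 ^ (2 * k - 1) * ((9 * Cb * 2 ^ k + 1) * X ^ k) := hfin
    _ ≤ 5 ^ (2 * k - 1) * ((9 * Cb * 2 ^ k + 1) *
        (((AA N (r + 1)).card : ℝ) ^ k / c ^ k)) := by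
        apply mul_le_mul_of_nonneg_left _ (by positivity)
        exact mul_le_mul_of_nonneg_left hXc (by positivity)
    _ = 5 ^ (2 * k - 1) * (9 * Cb * 2 ^ k + 1) / c ^ k * ((AA N (r + 1)).card : ℝ) ^ k := by
        ring

end Pool.Agent.Helper256.KM
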