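import Mathlib
import Pool.Agent.Helper256.KM.Defs
import Pool.Agent.Helper256.KM.U3
import Pool.Agent.Helper256.KM.LC
import Pool.Agent.Helper256.KM.L5T
import Pool.Agent.Helper256.KM.L5B
import Pool.Agent.Helper256.KM.UW
import Pool.Agent.Helper256.KM.HO
import Pool.Agent.Helper256.KM.PA
import Pool.Agent.Helper256.KM.PBm

set_option autoImplicit false

namespace Pool.Agent.Helper256.KM

open Finset ArithmeticFunction

/-- the energy ratio is bounded along the sequence -/
def EBdd (k : ℕ) (m : ℕ → ℕ) : Prop := ∃ C : ℝ, ∀ N : ℕ, 2 ≤ N → (AA N (m N)).Nonempty →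
  (TT k (AA N (m N)) : ℝ) ≤ C * ((AA N (m N)).card : ℝ) ^ k

theorem fa_ne (N m : ℕ) : ∀ n ∈ AA N m, n ≠ 0 := by
  intro n hn
  have h := (Finset.mem_Icc.1 (Finset.mem_filter.1 hn).1).1
  omega

theorem fa_card (N m : ℕ) : (AA N m).card ≤ N := by
  have h := Finset.card_filter_le (Finset.Icc 1 N) (fun n => cardFactors n = m)
  rw [Nat.card_Icc] at h
  unfold AA
  omega

theorem fa_bd {k : ℕ} (hk : 1 ≤ k) (N m C : ℕ) (h : (AA N m).card ≤ C) :
    (TT k (AA N m) : ℝ) ≤ (C : ℝ) ^ (k - 1) * ((AA N m).card : ℝ) ^ k := by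
  have h1 := TT_le k hk (AA N m) (fa_ne N m)
  have e : 2 * k - 1 = (k - 1) + k := by omega
  rw [e, pow_add] at h1
  have h2 : (TT k (AA N m) : ℝ) ≤ ((AA N m).card : ℝ) ^ (k - 1) * ((AA N m).card : ℝ) ^ k := by
    exact_mod_cast h1
  refine h2.trans (mul_le_mul_of_nonneg_right ?_ (by positivity))
  exact pow_le_pow_left₀ (by positivity) (by exact_mod_cast h) _

theorem fa_small {k : ℕ} (hk : 1 ≤ k) (K : ℝ) : ∃ C : ℝ, ∀ N m : ℕ, (N : ℝ) ≤ K * 2 ^ m →
    (TT k (AA N m) : ℝ) ≤ C * ((AA N m).card : ℝ) ^ k := by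
  obtain ⟨C, _, hC⟩ := card_small K
  exact ⟨(C : ℝ) ^ (k - 1), fun N m h => fa_bd hk N m C (hC N m h)⟩

theorem fa_of_ev {k : ℕ} (hk : 1 ≤ k) (m : ℕ → ℕ) (C : ℝ)
    (h : ∀ᶠ N : ℕ in Filter.atTop, (TT k (AA N (m N)) : ℝ) ≤ C * ((AA N (m N)).card : ℝ) ^ k) :
    EBdd k m := by
  obtain ⟨N₀, hN₀⟩ := Filter.eventually_atTop.1 h
  refine ⟨max C ((N₀ : ℝ) ^ (k - 1)), ?_⟩
  intro N _ _
  rcases le_total N₀ N with h1 | h1
  · refine (hN₀ N h1).trans ?_
    exact mul_le_mul_of_nonneg_right (le_max_left _ _) (by positivity)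
  · refine (fa_bd hk N (m N) N₀ ((fa_card _ _).trans h1)).trans ?_
    exact mul_le_mul_of_nonneg_right (le_max_right _ _) (by positivity)

theorem fa_L (c : ℝ) : ∀ᶠ N : ℕ in Filter.atTop, c ≤ Real.log (Real.log N) :=
  ((Real.tendsto_log_atTop.comp (Real.tendsto_log_atTop.comp
    tendsto_natCast_atTop_atTop)).eventually_ge_atTop c)

theorem fa_nonempty {N m : ℕ} {K : ℝ} (hK : 1 ≤ K) (h : K * 2 ^ m < (N : ℝ)) : (AA N m).Nonempty := by
  refine ⟨2 ^ m, ?_⟩
  unfold AA
  rw [Finset.mem_filter, Finset.mem_Icc]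
  refine ⟨⟨Nat.one_le_two_pow, ?_⟩, ?_⟩
  · have h1 : (2:ℝ) ^ m ≤ K * 2 ^ m := le_mul_of_one_le_left (by positivity) hK
    have h2 : ((2 ^ m : ℕ) : ℝ) ≤ (N : ℝ) := by
      push_cast
      linarith
    exact_mod_cast h2
  · exact cardFactors_apply_prime_pow Nat.prime_two

theorem fa_contra {k N m : ℕ} {C R : ℝ} (hR : C < R) (hne : (AA N m).Nonempty)
    (h1 : (TT k (AA N m) : ℝ) ≤ C * ((AA N m).card : ℝ) ^ k)
    (h2 : R * ((AA N m).card : ℝ) ^ k ≤ (TT k (AA N m) : ℝ)) : False := by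
  have h3 : 0 < ((AA N m).card : ℝ) ^ k := by
    have : 0 < (AA N m).card := Finset.card_pos.2 hne
    positivity
  have h4 := h2.trans h1
  have h5 := le_of_mul_le_mul_right h4 h3
  linarith

theorem final_three (m : ℕ → ℕ) (hm : ∀ N, 1 ≤ m N) :
    EBdd 3 m ↔ ∃ K : ℝ, 0 < K ∧ ∀ᶠ N : ℕ in Filter.atTop, (N : ℝ) ≤ K * 2 ^ (m N) ∨
      (m N : ℝ) ≤ (1 / 3 - 1 / K) * Real.log (Real.log N) := by
  constructor
  · rintro ⟨C, hC⟩
    set R : ℝ := |C| + 1 with hR
    have hCR : C < R := by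
      have := le_abs_self C
      linarith
    obtain ⟨ε, N1, hε, h1⟩ := lower_three R
    set ε' : ℝ := min (ε / 3) (1 / 10) with hε'
    have hε'0 : 0 < ε' := lt_min (by positivity) (by norm_num)
    have hε'1 : ε' ≤ 1 / 10 := min_le_right _ _
    have hε'2 : ε' ≤ ε / 3 := min_le_left _ _
    obtain ⟨N2, h2⟩ := part_b (k := 3) (by norm_num) hε'0 (by linarith) R
    obtain ⟨X0, N3, hX0, h3⟩ := large_m (k := 3) (by norm_num) R
    set K : ℝ := max (max X0 (3 / ε)) 1 with hK
    have hK1 : 1 ≤ K := le_max_right _ _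
    have hKX : X0 ≤ K := (le_max_left _ _).trans (le_max_left _ _)
    have hKε : 3 / ε ≤ K := (le_max_right _ _).trans (le_max_left _ _)
    have hK0 : 0 < K := by linarith
    have hK3 : 3 / K ≤ ε := by
      rw [div_le_iff₀ hK0]
      rw [div_le_iff₀ hε] at hKε
      linarith
    refine ⟨K, hK0, ?_⟩
    filter_upwards [fa_L 0, Filter.eventually_ge_atTop N1, Filter.eventually_ge_atTop N2,
      Filter.eventually_ge_atTop N3, Filter.eventually_ge_atTop 2] with N hL g1 g2 g3 g4
    by_contra hcon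
    rw [not_or, not_le, not_le] at hcon
    obtain ⟨c1, c2⟩ := hcon
    have hne := fa_nonempty hK1 c1
    have hup := hC N g4 hne
    set L : ℝ := Real.log (Real.log N) with hLdef
    have c3 : (1 - ε) * L ≤ 3 * (m N : ℝ) := by
      have e : 3 * ((1 / 3 - 1 / K) * L) = (1 - 3 / K) * L := by ring
      have : (1 - ε) * L ≤ (1 - 3 / K) * L := mul_le_mul_of_nonneg_right (by linarith) hL
      linarith
    rcases le_or_gt (3 * (m N : ℝ)) ((1 + ε) * L) with d | d
    · exact fa_contra hCR hne hup (h1 N g1 (m N) (by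
        rw [abs_le]
        constructor <;> linarith))
    · rcases le_or_gt (m N : ℝ) ((1 - ε') * L) with d2 | d2
      · refine fa_contra hCR hne hup (h2 N g2 (m N) ?_ d2)
        have : (1 / 3 + ε') * L ≤ (1 / 3 + ε / 3) * L := mul_le_mul_of_nonneg_right (by linarith) hL
        push_cast
        linarith
      · refine fa_contra hCR hne hup (h3 N g3 (m N) ?_ ?_)
        · have : 9 / 10 * L ≤ (1 - ε') * L := mul_le_mul_of_nonneg_right (by linarith) hL
          linarith
        · have : X0 * 2 ^ m N ≤ K * 2 ^ m N := mul_le_mul_of_nonneg_right hKX (by positivity)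
          linarith
  · rintro ⟨K, hK0, hev⟩
    obtain ⟨C1, hC1⟩ := fa_small (k := 3) (by norm_num) K
    by_cases hα : 0 < 1 / 3 - 1 / K
    · obtain ⟨C2, N0, hC2⟩ := part_a (k := 3) (by norm_num) hα (by
        have : 0 < 1 / K := by positivity
        push_cast
        linarith)
      refine fa_of_ev (by norm_num) m (max C1 C2) ?_
      filter_upwards [hev, Filter.eventually_ge_atTop N0] with N h1 h2
      rcases h1 with h | h
      · exact (hC1 N (m N) h).trans (mul_le_mul_of_nonneg_right (le_max_left _ _) (by positivity))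
      · exact (hC2 N h2 (m N) (hm N) h).trans
          (mul_le_mul_of_nonneg_right (le_max_right _ _) (by positivity))
    · refine fa_of_ev (by norm_num) m C1 ?_
      filter_upwards [hev, fa_L 0] with N h1 h2
      rcases h1 with h | h
      · exact hC1 N (m N) h
      · exfalso
        have h3 : (1 : ℝ) ≤ (m N : ℝ) := by exact_mod_cast hm N
        have h4 : (1 / 3 - 1 / K) * Real.log (Real.log N) ≤ 0 :=
          mul_nonpos_of_nonpos_of_nonneg (not_lt.1 hα) h2
        linarith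

theorem final_big {k : ℕ} (hk : 4 ≤ k) (m : ℕ → ℕ) (hm : ∀ N, 1 ≤ m N) :
    EBdd k m ↔ ∃ K : ℝ, 0 < K ∧ ∀ᶠ N : ℕ in Filter.atTop, (N : ℝ) ≤ K * 2 ^ (m N) ∨
      (k : ℝ) * m N ≤ Real.log (Real.log N) + Real.sqrt (Real.log (Real.log N) *
        (((k : ℝ) - 3) / 2 * Real.log (Real.log (Real.log N)) +
          ((k : ℝ) - 1) / 2 * Real.log (Real.log (Real.log (Real.log N))) + K)) := by
  have hkr : (4 : ℝ) ≤ k := by exact_mod_cast hk
  constructor
  · rintro ⟨C, hC⟩
    set R : ℝ := |C| + 1 with hR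
    have hCR : C < R := by
      have := le_abs_self C
      linarith
    obtain ⟨ε, hε, hlow⟩ := lower_big hk
    obtain ⟨K1, N1, hK1, h1⟩ := hlow R
    set ε' : ℝ := min (ε / k) (1 / 10) with hε'
    have hε'0 : 0 < ε' := lt_min (by positivity) (by norm_num)
    have hε'1 : ε' ≤ 1 / 10 := min_le_right _ _
    have hε'2 : ε' ≤ ε / k := min_le_left _ _
    obtain ⟨N2, h2⟩ := part_b (k := k) (by omega) hε'0 (by linarith) R
    obtain ⟨X0, N3, hX0, h3⟩ := large_m (k := k) (by omega) R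
    set K : ℝ := max (max X0 K1) 1 with hK
    have hK1' : 1 ≤ K := le_max_right _ _
    have hKX : X0 ≤ K := (le_max_left _ _).trans (le_max_left _ _)
    have hKK : K1 ≤ K := (le_max_right _ _).trans (le_max_left _ _)
    have hK0 : 0 < K := by linarith
    refine ⟨K, hK0, ?_⟩
    filter_upwards [fa_L 0, Filter.eventually_ge_atTop N1, Filter.eventually_ge_atTop N2,
      Filter.eventually_ge_atTop N3, Filter.eventually_ge_atTop 2] with N hL g1 g2 g3 g4
    by_contra hcon
    rw [not_or, not_le, not_le] at hcon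
    obtain ⟨c1, c2⟩ := hcon
    have hne := fa_nonempty hK1' c1
    have hup := hC N g4 hne
    set L : ℝ := Real.log (Real.log N) with hLdef
    have c3 : L + Real.sqrt (L * (((k : ℝ) - 3) / 2 * Real.log L +
        ((k : ℝ) - 1) / 2 * Real.log (Real.log L) + K1)) ≤ k * m N := by
      have h5 : Real.sqrt (L * (((k : ℝ) - 3) / 2 * Real.log L +
        ((k : ℝ) - 1) / 2 * Real.log (Real.log L) + K1)) ≤ Real.sqrt (L * (((k : ℝ) - 3) / 2 * Real.log L +
        ((k : ℝ) - 1) / 2 * Real.log (Real.log L) + K)) :=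
        Real.sqrt_le_sqrt (mul_le_mul_of_nonneg_left (by linarith) hL)
      linarith
    rcases le_or_gt ((k : ℝ) * (m N : ℝ)) ((1 + ε) * L) with d | d
    · exact fa_contra hCR hne hup (h1 N g1 (m N) L hLdef c3 d)
    · rcases le_or_gt (m N : ℝ) ((1 - ε') * L) with d2 | d2
      · refine fa_contra hCR hne hup (h2 N g2 (m N) ?_ d2)
        have h6 : (1 / (k : ℝ) + ε') * L ≤ (1 / k + ε / k) * L :=
          mul_le_mul_of_nonneg_right (by linarith) hL
        have h7 : (1 / (k : ℝ) + ε / k) * L = ((1 + ε) * L) / k := by ring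
        have h8 : ((1 + ε) * L) / k ≤ m N := by
          rw [div_le_iff₀ (by linarith)]
          linarith
        exact h6.trans (h7.le.trans h8)
      · refine fa_contra hCR hne hup (h3 N g3 (m N) ?_ ?_)
        · have : 9 / 10 * L ≤ (1 - ε') * L := mul_le_mul_of_nonneg_right (by linarith) hL
          linarith
        · have : X0 * 2 ^ m N ≤ K * 2 ^ m N := mul_le_mul_of_nonneg_right hKX (by positivity)
          linarith
  · rintro ⟨K, hK0, hev⟩
    obtain ⟨C1, hC1⟩ := fa_small (k := k) (by omega) K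
    obtain ⟨C2, N0, hC2⟩ := upper_window hk K
    refine fa_of_ev (by omega) m (max C1 C2) ?_
    filter_upwards [hev, Filter.eventually_ge_atTop N0] with N h1 h2
    rcases h1 with h | h
    · exact (hC1 N (m N) h).trans (mul_le_mul_of_nonneg_right (le_max_left _ _) (by positivity))
    · exact (hC2 N h2 (m N) _ rfl (hm N) h).trans
        (mul_le_mul_of_nonneg_right (le_max_right _ _) (by positivity))

end Pool.Agent.Helper256.KM
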