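import Mathlib
import Pool.Agent.Helper256.KM.Defs

set_option autoImplicit false

namespace Pool.Agent.Helper256.KM

open Finset ArithmeticFunction

open MeasureTheory in
theorem tor_prob : IsProbabilityMeasure (volume : Measure UnitAddCircle) := by
  constructor
  rw [AddCircle.measure_univ 1]
  simp

open MeasureTheory in
theorem tor_int_fourier (e : ℤ) :
    ∫ x : UnitAddCircle, (fourier e x : ℂ) ∂(volume : Measure UnitAddCircle)
      = if e = 0 then 1 else 0 := by
  have := tor_prob
  by_cases he : e = 0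
  · subst he
    have : (fun x : UnitAddCircle => (fourier (0 : ℤ) x : ℂ)) = fun _ => (1 : ℂ) := by
      funext x
      exact fourier_zero
    rw [this]
    simp
  · rw [if_neg he]
    have h1 := integral_add_right_eq_self (μ := (volume : Measure UnitAddCircle))
      (fun x : UnitAddCircle => (fourier e x : ℂ)) (((1 / 2 / (e : ℝ) : ℝ)) : UnitAddCircle)
    have h2 : (fun x : UnitAddCircle => (fourier e (x + (((1 / 2 / (e : ℝ) : ℝ)) : UnitAddCircle)) : ℂ))
        = fun x => - (fourier e x : ℂ) := by
      funext x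
      exact fourier_add_half_inv_index he one_pos x
    rw [h2, integral_neg] at h1
    exact self_eq_neg.mp h1.symm

open MeasureTheory in
theorem tor_int_prod (S : Finset ℕ) (e : ℕ → ℤ) :
    ∫ θ : ℕ → UnitAddCircle, ∏ q ∈ S, (fourier (e q) (θ q) : ℂ)
      ∂(Measure.infinitePi (fun _ : ℕ => (volume : Measure UnitAddCircle)))
      = if ∀ q ∈ S, e q = 0 then 1 else 0 := by
  have := tor_prob
  have h1 : (fun θ : ℕ → UnitAddCircle => ∏ q ∈ S, (fourier (e q) (θ q) : ℂ))
      = fun θ => (fun y : (i : S) → UnitAddCircle => ∏ i : S, (fourier (e i) (y i) : ℂ))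
        (S.restrict θ) := by
    funext θ
    simp only [Finset.restrict]
    rw [← Finset.prod_coe_sort S (fun q => (fourier (e q) (θ q) : ℂ))]
  rw [h1]
  rw [integral_restrict_infinitePi (μ := fun _ : ℕ => (volume : Measure UnitAddCircle))
    (f := fun y : (i : S) → UnitAddCircle => ∏ i : S, (fourier (e i) (y i) : ℂ))]
  · rw [integral_fintype_prod_eq_prod (fun (i : S) (x : UnitAddCircle) => (fourier (e i) x : ℂ))]
    simp_rw [tor_int_fourier]
    by_cases hall : ∀ q ∈ S, e q = 0
    · rw [if_pos hall]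
      apply Finset.prod_eq_one
      intro i _
      rw [if_pos (hall i i.2)]
    · rw [if_neg hall]
      push Not at hall
      obtain ⟨q, hq, hne⟩ := hall
      apply Finset.prod_eq_zero (Finset.mem_univ (⟨q, hq⟩ : S))
      rw [if_neg hne]
  · apply Continuous.aestronglyMeasurable
    apply continuous_finsetProd
    intro i _
    exact (fourier (e i)).continuous.comp (continuous_apply i)

theorem tor_prod_fourier {ι : Type*} (s : Finset ι) (f : ι → ℤ) (x : UnitAddCircle) :
    ∏ i ∈ s, (fourier (f i) x : ℂ) = fourier (∑ i ∈ s, f i) x := by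
  classical
  induction s using Finset.induction_on with
  | empty => rw [Finset.prod_empty, Finset.sum_empty, fourier_zero]
  | insert a s ha ih => rw [Finset.prod_insert ha, Finset.sum_insert ha, ih, fourier_add]

theorem tor_expand (k : ℕ) (B S : Finset ℕ) (θ : ℕ → UnitAddCircle) :
    (((‖∑ n ∈ B, ∏ q ∈ S, (fourier (n.factorization q : ℤ) (θ q) : ℂ)‖ ^ (2 * k) : ℝ)) : ℂ)
      = ∑ z ∈ (Fintype.piFinset (fun _ : Fin k => B) ×ˢ Fintype.piFinset (fun _ : Fin k => B)),
        ∏ q ∈ S, (fourier ((∑ i, ((z.1 i).factorization q : ℤ))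
          - ∑ i, ((z.2 i).factorization q : ℤ)) (θ q) : ℂ) := by
  have hpow : ∀ g : ℕ → ℂ, (∑ n ∈ B, g n) ^ k
      = ∑ x ∈ Fintype.piFinset (fun _ : Fin k => B), ∏ i, g (x i) := by
    intro g
    have := Finset.prod_univ_sum (fun _ : Fin k => B) (fun _ n => g n)
    rw [← this]
    simp
  rw [pow_mul, Complex.ofReal_pow, Complex.ofReal_pow, ← Complex.mul_conj', mul_pow, map_sum,
    hpow, hpow, Finset.sum_mul_sum, Finset.sum_product]
  apply Finset.sum_congr rfl
  intro x _
  apply Finset.sum_congr rfl
  intro y _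
  have h1 : ∏ i, ∏ q ∈ S, (fourier ((x i).factorization q : ℤ) (θ q) : ℂ)
      = ∏ q ∈ S, (fourier (∑ i, ((x i).factorization q : ℤ)) (θ q) : ℂ) := by
    rw [Finset.prod_comm]
    apply Finset.prod_congr rfl
    intro q _
    rw [tor_prod_fourier]
  have h2 : ∏ i, (starRingEnd ℂ) (∏ q ∈ S, (fourier ((y i).factorization q : ℤ) (θ q) : ℂ))
      = ∏ q ∈ S, (fourier (- ∑ i, ((y i).factorization q : ℤ)) (θ q) : ℂ) := by
    rw [← map_prod, Finset.prod_comm, map_prod]
    apply Finset.prod_congr rfl
    intro q _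
    rw [tor_prod_fourier, fourier_neg]
  rw [h1, h2, ← Finset.prod_mul_distrib]
  apply Finset.prod_congr rfl
  intro q _
  rw [← fourier_add, ← sub_eq_add_neg]

theorem tor_eq_iff (k : ℕ) (B S : Finset ℕ) (hB : ∀ n ∈ B, n ≠ 0)
    (hS : ∀ n ∈ B, n.primeFactors ⊆ S) (x y : Fin k → ℕ)
    (hx : ∀ i, x i ∈ B) (hy : ∀ i, y i ∈ B) :
    (∀ q ∈ S, (∑ i, ((x i).factorization q : ℤ)) - ∑ i, ((y i).factorization q : ℤ) = 0) ↔
      ∏ i, x i = ∏ i, y i := by
  have fx : ∀ (x : Fin k → ℕ), (∀ i, x i ∈ B) → ∀ q : ℕ,
      ((∏ i, x i).factorization q : ℤ) = ∑ i, ((x i).factorization q : ℤ) := by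
    intro x hx q
    rw [Nat.factorization_prod (fun i _ => hB _ (hx i))]
    simp
  constructor
  · intro h
    apply Nat.eq_of_factorization_eq
    · exact Finset.prod_ne_zero_iff.mpr (fun i _ => hB _ (hx i))
    · exact Finset.prod_ne_zero_iff.mpr (fun i _ => hB _ (hy i))
    · intro q
      have hz : ((∏ i, x i).factorization q : ℤ) = ((∏ i, y i).factorization q : ℤ) := by
        rw [fx x hx, fx y hy]
        by_cases hq : q ∈ S
        · have := h q hq
          omega
        · have h0 : ∀ n ∈ B, n.factorization q = 0 := by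
            intro n hn
            have : q ∉ n.primeFactors := fun hh => hq (hS n hn hh)
            exact Finsupp.notMem_support_iff.mp (by rwa [Nat.support_factorization])
          have e1 : ∀ i, ((x i).factorization q : ℤ) = 0 := fun i => by rw [h0 _ (hx i)]; rfl
          have e2 : ∀ i, ((y i).factorization q : ℤ) = 0 := fun i => by rw [h0 _ (hy i)]; rfl
          simp [e1, e2]
      exact_mod_cast hz
  · intro h q _
    rw [← fx x hx, ← fx y hy, h, sub_self]

open MeasureTheory in
theorem torus_energy (k : ℕ) (B : Finset ℕ) (hB : ∀ n ∈ B, n ≠ 0) :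
    ∫ θ : ℕ → UnitAddCircle, ‖∑ n ∈ B, ∏ q ∈ n.primeFactors,
        (fourier (n.factorization q : ℤ) (θ q) : ℂ)‖ ^ (2 * k)
      ∂(MeasureTheory.Measure.infinitePi
        (fun _ : ℕ => (MeasureTheory.volume : MeasureTheory.Measure UnitAddCircle))) =
      (TT k B : ℝ) := by
  have := tor_prob
  set S : Finset ℕ := B.biUnion Nat.primeFactors with hSdef
  have hS : ∀ n ∈ B, n.primeFactors ⊆ S := fun n hn =>
    Finset.subset_biUnion_of_mem Nat.primeFactors hn
  have hfun : (fun θ : ℕ → UnitAddCircle => ‖∑ n ∈ B, ∏ q ∈ n.primeFactors,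
        (fourier (n.factorization q : ℤ) (θ q) : ℂ)‖ ^ (2 * k))
      = fun θ => ‖∑ n ∈ B, ∏ q ∈ S, (fourier (n.factorization q : ℤ) (θ q) : ℂ)‖ ^ (2 * k) := by
    funext θ
    congr 2
    apply Finset.sum_congr rfl
    intro n hn
    apply Finset.prod_subset (hS n hn)
    intro q _ hq
    have h0 : n.factorization q = 0 :=
      Finsupp.notMem_support_iff.mp (by rwa [Nat.support_factorization])
    rw [h0]
    exact fourier_zero
  rw [hfun]
  have hC : ((∫ θ : ℕ → UnitAddCircle,
      ‖∑ n ∈ B, ∏ q ∈ S, (fourier (n.factorization q : ℤ) (θ q) : ℂ)‖ ^ (2 * k)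
      ∂(MeasureTheory.Measure.infinitePi
        (fun _ : ℕ => (MeasureTheory.volume : MeasureTheory.Measure UnitAddCircle))) : ℝ) : ℂ)
      = ((TT k B : ℝ) : ℂ) := by
    rw [← integral_complex_ofReal]
    simp_rw [tor_expand k B S]
    rw [integral_finsetSum]
    · simp_rw [tor_int_prod]
      rw [TT, Finset.card_filter]
      push_cast
      apply Finset.sum_congr rfl
      intro z hz
      rw [Finset.mem_product, Fintype.mem_piFinset, Fintype.mem_piFinset] at hz
      have := tor_eq_iff k B S hB hS z.1 z.2 hz.1 hz.2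
      by_cases h : ∏ i, z.1 i = ∏ i, z.2 i
      · rw [if_pos (this.mpr h), if_pos h]
        norm_num
      · rw [if_neg (fun hh => h (this.mp hh)), if_neg h]
        norm_num
    · intro z _
      apply Integrable.of_bound (C := 1)
      · apply Continuous.aestronglyMeasurable
        apply continuous_finsetProd
        intro q _
        exact (fourier _).continuous.comp (continuous_apply q)
      · apply Filter.Eventually.of_forall
        intro θ
        rw [norm_prod]
        apply le_of_eq
        apply Finset.prod_eq_one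
        intro q _
        exact Circle.norm_coe _
  exact_mod_cast hC

end Pool.Agent.Helper256.KM
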