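import Mathlib
import Pool.Agent.Helper256.KM.Defs
import Pool.Agent.Helper256.KM.TM
import Pool.Agent.Helper256.KM.VM
import Pool.Agent.Helper256.KM.HO

set_option autoImplicit false

namespace Pool.Agent.Helper256.KM

open Finset ArithmeticFunction

/-- torus polynomial -/
noncomputable def tpoly (N m : ℕ) (θ : ℕ → UnitAddCircle) : ℂ :=
  ∑ n ∈ AA N m, ∏ q ∈ n.primeFactors, (fourier (n.factorization q : ℤ) (θ q) : ℂ)

/-- torus norm -/
noncomputable def tnorm (p : ℝ) (N m : ℕ) : ℝ :=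
  (∫ θ : ℕ → UnitAddCircle, ‖tpoly N m θ‖ ^ p
    ∂(MeasureTheory.Measure.infinitePi
      (fun _ : ℕ => (MeasureTheory.volume : MeasureTheory.Measure UnitAddCircle)))) ^ (1 / p)

theorem AA_ne_zero {N m n : ℕ} (h : n ∈ AA N m) : n ≠ 0 := by
  unfold AA at h
  rw [Finset.mem_filter, Finset.mem_Icc] at h
  omega

theorem tnorm_even (k : ℕ) (N m : ℕ) :
    tnorm (2 * k) N m = (TT k (AA N m) : ℝ) ^ (1 / (2 * (k : ℝ))) := by
  unfold tnorm
  congr 1
  rw [← torus_energy k (AA N m) (fun n hn => AA_ne_zero hn)]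
  apply MeasureTheory.integral_congr_ae
  apply Filter.Eventually.of_forall
  intro θ
  simp only [tpoly]
  rw [show (2 * (k : ℝ)) = ((2 * k : ℕ) : ℝ) by push_cast; ring, Real.rpow_natCast]

theorem tnorm_two (N m : ℕ) : tnorm 2 N m = ((AA N m).card : ℝ) ^ (1 / 2 : ℝ) := by
  have h := tnorm_even 1 N m
  rw [Nat.cast_one, mul_one] at h
  rw [h, TT_one]

/-- norm inequality in terms of energies -/
theorem norm_le_iff {k : ℕ} (hk : 1 ≤ k) (N m : ℕ) {C : ℝ} (hC : 0 ≤ C) :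
    tnorm (2 * k) N m ≤ C * tnorm 2 N m ↔
      (TT k (AA N m) : ℝ) ≤ C ^ (2 * k) * ((AA N m).card : ℝ) ^ k := by
  rw [tnorm_even, tnorm_two]
  have hk0 : (0 : ℝ) < k := by exact_mod_cast hk
  have hT : (0 : ℝ) ≤ (TT k (AA N m) : ℝ) := Nat.cast_nonneg _
  have hA : (0 : ℝ) ≤ ((AA N m).card : ℝ) := Nat.cast_nonneg _
  have hR : (0 : ℝ) ≤ C * ((AA N m).card : ℝ) ^ (1 / 2 : ℝ) := by positivity
  rw [one_div (2 * (k : ℝ)), Real.rpow_inv_le_iff_of_pos hT hR (by positivity)]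
  have e : (C * ((AA N m).card : ℝ) ^ (1 / 2 : ℝ)) ^ (2 * (k : ℝ)) =
      C ^ (2 * k) * ((AA N m).card : ℝ) ^ k := by
    rw [Real.mul_rpow hC (by positivity), ← Real.rpow_mul hA]
    have h1 : (1 / 2 : ℝ) * (2 * (k : ℝ)) = (k : ℝ) := by ring
    rw [h1, Real.rpow_natCast, show (2 * (k : ℝ)) = ((2 * k : ℕ) : ℝ) by push_cast; ring,
      Real.rpow_natCast]
  rw [e]

theorem bdd_iff {k : ℕ} (hk : 1 ≤ k) (m : ℕ → ℕ) :
    (∃ C : ℝ, ∀ N : ℕ, 2 ≤ N → (AA N (m N)).Nonempty →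
      tnorm (2 * k) N (m N) ≤ C * tnorm 2 N (m N)) ↔
    (∃ C : ℝ, ∀ N : ℕ, 2 ≤ N → (AA N (m N)).Nonempty →
      (TT k (AA N (m N)) : ℝ) ≤ C * ((AA N (m N)).card : ℝ) ^ k) := by
  have hk0 : (0 : ℝ) < k := by exact_mod_cast hk
  constructor
  · rintro ⟨C, hC⟩
    refine ⟨|C| ^ (2 * k), fun N hN hne => ?_⟩
    rw [← norm_le_iff hk N (m N) (abs_nonneg C)]
    refine (hC N hN hne).trans ?_
    have : 0 ≤ tnorm 2 N (m N) := by
      rw [tnorm_two]; positivity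
    exact mul_le_mul_of_nonneg_right (le_abs_self C) this
  · rintro ⟨C, hC⟩
    refine ⟨|C| ^ (1 / (2 * (k : ℝ))), fun N hN hne => ?_⟩
    rw [norm_le_iff hk N (m N) (by positivity)]
    have e : (|C| ^ (1 / (2 * (k : ℝ)))) ^ (2 * k) = |C| := by
      rw [← Real.rpow_natCast, ← Real.rpow_mul (abs_nonneg C)]
      have : 1 / (2 * (k : ℝ)) * ((2 * k : ℕ) : ℝ) = 1 := by
        push_cast
        field_simp
      rw [this, Real.rpow_one]
    rw [e]
    refine (hC N hN hne).trans ?_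
    exact mul_le_mul_of_nonneg_right (le_abs_self C) (by positivity)

end Pool.Agent.Helper256.KM
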